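import Mathlib

open Finset

namespace Pool.Agent.H24.Abel

theorem not_fg (M : Submodule ℤ (ℕ → ℤ)) (h : ℕ → ℕ → ℤ) (hM : ∀ j, h j ∈ M) (m : ℕ → ℕ)
    (h1 : ∀ i, h i (m i) ≠ 0) (h2 : ∀ i j, j < i → h j (m i) = 0) : ¬ M.FG := by
  intro hF
  have : IsNoetherian ℤ M := isNoetherian_of_fg_of_noetherian M hF
  have hl : LinearIndependent ℤ fun j : ℕ => (⟨_, hM j⟩ : M) := by
    refine LinearIndependent.of_comp M.subtype (linearIndependent_iff'.2 fun s c hc => ?_)
    by_contra hne
    push Not at hne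
    obtain ⟨i0, hi0, hc0⟩ := hne
    obtain ⟨i, hi, hmax⟩ := (s.filter fun i => c i ≠ 0).exists_max_image id ⟨i0, by simp [*]⟩
    rw [mem_filter] at hi
    have h3 := congrFun hc (m i)
    rw [Finset.sum_apply, sum_eq_single i] at h3
    · simp [h1 i, hi.2] at h3
    · intro j hj hji
      by_cases h0 : c j = 0
      · simp [h0]
      · have : j ≤ i := hmax j (by simp [*])
        simp [h2 i j (by omega)]
    · exact fun h => absurd hi.1 h
  exact not_finite_iff_infinite.2 inferInstance hl.finite_of_isNoetherian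

def P (t : Bool) (d : ℕ) : ℤ :=
  (if t then [0, -1, 0, 1, 0, 1, 2, 1, 0] else [0, 1, 0, -1, 0, 1, 2, 1, 0]).getD d 0

def S (t : Bool) (m : ℕ) : ℤ := if m = 0 then 0 else P t (m % 9) + S t (m / 9)
  decreasing_by omega

def yb (t : Bool) (m : ℕ) : Bool :=
  if m % 9 = 8 then yb t (m / 9) else decide (P t (m % 9) < P t (m % 9 + 1))
  decreasing_by omega

def ty (n : ℕ) : Option Bool :=
  if n < 9 then (if n = 8 then some false else none) else (ty (n / 9)).map not
  decreasing_by omega

theorem S9 (t : Bool) (m d : ℕ) (hd : d < 9) : S t (9 * m + d) = P t d + S t m := by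
  rw [S]
  split_ifs with h
  · obtain rfl : m = 0 := by omega
    obtain rfl : d = 0 := by omega
    rw [S]; cases t <;> rfl
  · rw [show (9 * m + d) % 9 = d by omega, show (9 * m + d) / 9 = m by omega]

theorem S_succ (t : Bool) (m : ℕ) : S t (m + 1) = S t m + if yb t m then 1 else -1 := by
  induction m using Nat.strong_induction_on with
  | _ m ih =>
    have h := S9 t (m / 9) (m % 9) (by omega)
    rw [Nat.div_add_mod] at h
    rw [yb, h]
    by_cases h8 : m % 9 = 8
    · rw [if_pos h8, show m + 1 = 9 * (m / 9 + 1) + 0 by omega, S9 _ _ _ (by omega),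
        ih _ (by omega), h8]
      cases t <;> simp [P]
    · rw [if_neg h8, show m + 1 = 9 * (m / 9) + (m % 9 + 1) by omega, S9 _ _ _ (by omega)]
      have : m % 9 < 8 := by omega
      generalize m % 9 = d at *
      interval_cases d <;> cases t <;> simp [P] <;> ring

def x (n : ℕ) : Fin 2 := if (ty n).any (fun t => yb t n) then 1 else 0

def q (n : ℕ) : Bool × Option Bool × Bool × Bool := (decide (n = 0), ty n, yb false n, yb true n)

theorem q_step (d : ℕ) (hd : d < 9) : ∃ f : _ → _, ∀ m, q (9 * m + d) = f (q m) := by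
  refine ⟨fun s => (s.1 && decide (d = 0), if s.1 then ty d else s.2.1.map not,
    if d = 8 then s.2.2.1 else yb false d, if d = 8 then s.2.2.2 else yb true d), fun m => ?_⟩
  have e1 : (9 * m + d) % 9 = d := by omega
  have e2 : (9 * m + d) / 9 = m := by omega
  have e3 : ∀ t, yb t (9 * m + d) = if d = 8 then yb t m else yb t d := fun t => by
    rw [yb, e1, e2]
    split_ifs with h
    · rfl
    · rw [yb, Nat.mod_eq_of_lt hd, if_neg h]
  simp only [q, e3, Prod.mk.injEq, and_true]
  refine ⟨by simp, ?_⟩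
  rcases Nat.eq_zero_or_pos m with rfl | h
  · simp
  · rw [ty, if_neg (by omega), e2]; simp [h.ne']

theorem q_ker (e : ℕ) : ∀ r < 9 ^ e, ∃ f : _ → _, ∀ n, q (9 ^ e * n + r) = f (q n) := by
  induction e with
  | zero => intro r hr; exact ⟨id, fun n => by simp [show r = 0 by omega]⟩
  | succ e ih =>
    intro r hr
    obtain ⟨f, hf⟩ := ih (r / 9) (by omega)
    obtain ⟨g, hg⟩ := q_step (r % 9) (by omega)
    refine ⟨g ∘ f, fun n => ?_⟩
    rw [Function.comp, ← hf, ← hg]; congr 1
    rw [pow_succ', mul_assoc]; omega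

theorem ker_fin : {f : ℕ → Fin 2 | ∃ e r : ℕ, r < 9 ^ e ∧ f = fun n => x (9 ^ e * n + r)}.Finite := by
  refine (Set.finite_range fun G : Bool × Option Bool × Bool × Bool → Fin 2 => G ∘ q).subset ?_
  rintro _ ⟨e, r, hr, rfl⟩
  obtain ⟨f, hf⟩ := q_ker e r hr
  refine ⟨(fun s => if s.2.1.any (fun t => if t then s.2.2.2 else s.2.2.1) then 1 else 0) ∘ f, ?_⟩
  funext n
  simp only [Function.comp, ← hf]
  simp only [q, x]
  congr 3; funext t; cases t <;> rfl

theorem ty_eq (L : ℕ) : ∀ n, 9 ^ L ≤ n → n < 9 ^ (L + 1) →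
    ty n = if 8 * 9 ^ L ≤ n then some (decide (L % 2 = 1)) else none := by
  induction L with
  | zero => intro n h1 h2; rw [ty, if_pos (by omega)]; split_ifs <;> first | rfl | omega
  | succ L ih =>
    intro n h1 h2
    have := Nat.one_le_pow L 9 (by norm_num)
    rw [ty, if_neg (by omega), ih _ (by omega) (by omega)]
    split_ifs
    · rcases Nat.mod_two_eq_zero_or_one L with h | h <;> simp [h, Nat.add_mod]
    all_goals first | rfl | omega

def X (m : ℕ) : ℤ := ∑ j ∈ range m, if x j = 1 then 1 else 0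

theorem X_succ (m : ℕ) : X (m + 1) = X m + if x m = 1 then 1 else 0 := sum_range_succ _ _

theorem cmp (t : Bool) (u k : ℕ) (h : ∀ p, u ≤ p → p < u + k → x p = 1 → yb t p) :
    2 * (X (u + k) - X u) ≤ k + S t (u + k) - S t u := by
  induction k with
  | zero => simp
  | succ k ih =>
    have := ih fun p a b => h p a (by omega)
    have h' := h (u + k) (by omega) (by omega)
    rw [← add_assoc, X_succ, S_succ]
    push_cast
    split_ifs <;> first | omega | simp_all

theorem cmp' (t : Bool) (u k : ℕ) (h : ∀ p, u ≤ p → p < u + k → ty p = some t) :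
    2 * (X (u + k) - X u) = k + S t (u + k) - S t u := by
  induction k with
  | zero => simp
  | succ k ih =>
    have := ih fun p a b => h p a (by omega)
    have h' := h (u + k) (by omega) (by omega)
    rw [← add_assoc, X_succ, S_succ, x, h']
    push_cast
    cases h3 : yb t (u + k) <;> simp [h3] <;> omega

theorem cmp0 (u k : ℕ) (h : ∀ p, u ≤ p → p < u + k → ty p = none) : X (u + k) = X u := by
  induction k with
  | zero => simp
  | succ k ih =>
    rw [← add_assoc, X_succ, ih fun p a b => h p a (by omega), x, h (u + k) (by omega) (by omega)]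
    simp

theorem X_lip (u k : ℕ) : X u ≤ X (u + k) ∧ X (u + k) ≤ X u + k := by
  induction k with
  | zero => simp
  | succ k ih => rw [← add_assoc, X_succ]; push_cast; split_ifs <;> omega

theorem S_pow (t : Bool) (c L : ℕ) : S t (c * 9 ^ L) = S t c := by
  induction L with
  | zero => simp
  | succ L ih =>
    rw [show c * 9 ^ (L + 1) = 9 * (c * 9 ^ L) + 0 by ring, S9 _ _ _ (by omega), ih]
    cases t <;> simp [P]

theorem S_lip (t : Bool) (u k : ℕ) : S t u ≤ S t (u + k) + k := by
  induction k with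
  | zero => simp
  | succ k ih => rw [← add_assoc, S_succ]; push_cast; split_ifs <;> omega

theorem upper (i n : ℕ) : X (i + n) = X i ∨ ∃ t, 2 * (X (i + n) - X i) ≤ n + S t (i + n) - S t i := by
  by_cases h : i + n ≤ 8
  · exact Or.inl (cmp0 i n fun p _ _ => by rw [ty, if_pos (by omega), if_neg (by omega)])
  obtain ⟨L, h1, h2⟩ : ∃ L, 8 * 9 ^ L < i + n ∧ i + n ≤ 8 * 9 ^ (L + 1) := by
    have a := Nat.pow_log_le_self 9 (show (i + n - 1) / 8 ≠ 0 by omega)
    have b := Nat.lt_pow_succ_log_self (by norm_num : 1 < 9) ((i + n - 1) / 8)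
    rw [Nat.succ_eq_add_one] at b
    exact ⟨Nat.log 9 ((i + n - 1) / 8), by omega, by omega⟩
  refine Or.inr ⟨decide (L % 2 = 1), ?_⟩
  have key : ∀ p, 9 ^ L ≤ p → p < i + n → x p = 1 → yb (decide (L % 2 = 1)) p := by
    intro p a b c
    by_cases d : p < 9 ^ (L + 1)
    · rw [x, ty_eq L p a d] at c
      split_ifs at c <;> simp_all
    · rw [x, ty_eq (L + 1) p (by omega) (b.trans_le (h2.trans (by
        rw [pow_succ' 9 (L + 1)]; exact Nat.mul_le_mul_right _ (by norm_num)))),
        if_neg (show ¬ 8 * 9 ^ (L + 1) ≤ p by omega)] at c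
      simp at c
  by_cases hi : 9 ^ L ≤ i
  · exact cmp _ i n fun p a b => key p (by omega) b
  · obtain ⟨k, hk⟩ := Nat.exists_eq_add_of_le h1.le
    obtain ⟨k', hk'⟩ := Nat.exists_eq_add_of_le (not_le.1 hi).le
    have a := cmp _ (8 * 9 ^ L) k fun p a b => key p (by omega) (by omega)
    have b := cmp0 (9 ^ L) (7 * 9 ^ L) fun p a b => by
      rw [ty_eq L p a (by omega), if_neg (by omega)]
    have c := X_lip i k'
    have d := S_lip (decide (L % 2 = 1)) i k'
    have e := S_pow (decide (L % 2 = 1)) 8 L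
    have f := S_pow (decide (L % 2 = 1)) 1 L
    have g : ∀ t, S t 1 ≤ S t 8 + 1 := fun t => by
      rw [S9 t 0 1 (by omega), S9 t 0 8 (by omega)]; cases t <;> simp [P] <;> omega
    have g' := g (decide (L % 2 = 1))
    rw [show 9 ^ L + 7 * 9 ^ L = 8 * 9 ^ L by ring] at b
    rw [one_mul] at f
    rw [← hk] at a
    rw [← hk'] at c d
    omega

inductive Good : ℕ → ℕ → ℕ → Prop
  | zero : Good 0 0 0
  | a {n a b : ℕ} : Good n a b → Good (9 * n + 3) (a + 1) b
  | b {n a b : ℕ} : Good n a b → Good (9 * n + 5) a (b + 1)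

def val (t : Bool) (a b : ℕ) : ℤ := if t then a + 3 * b else 3 * a + b

theorem ub_step (t : Bool) (n d : ℕ) (hd : d < 9) (v g : ℤ) (h : ∀ i, S t (i + n) - S t i ≤ v)
    (hg : ∀ a < 9, (if a + d < 9 then P t (a + d) else P t (a + d - 9) + 1) ≤ P t a + g) (i : ℕ) :
    S t (i + (9 * n + d)) - S t i ≤ v + g := by
  have e := S9 t (i / 9) (i % 9) (by omega)
  rw [Nat.div_add_mod] at e
  have := hg (i % 9) (by omega)
  have h1 := h (i / 9)
  split_ifs at this
  · rw [e, show i + (9 * n + d) = 9 * (i / 9 + n) + (i % 9 + d) by omega, S9 _ _ _ (by omega)]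
    omega
  · rw [e, show i + (9 * n + d) = 9 * (i / 9 + n + 1) + (i % 9 + d - 9) by omega,
      S9 _ _ _ (by omega), S_succ]
    split_ifs <;> omega

theorem Good.ub {n a b : ℕ} (h : Good n a b) (t : Bool) : ∀ i, S t (i + n) - S t i ≤ val t a b := by
  induction h with
  | zero => simp [val]
  | a _ ih =>
    intro i
    refine (ub_step t _ 3 (by omega) _ (if t then 1 else 3) ih (by cases t <;> decide) i).trans ?_
    cases t <;> simp [val] <;> omega
  | b _ ih =>
    intro i
    refine (ub_step t _ 5 (by omega) _ (if t then 3 else 1) ih (by cases t <;> decide) i).trans ?_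
    cases t <;> simp [val] <;> omega

theorem Good.lb {n a b : ℕ} (h : Good n a b) (t : Bool) : ∃ i, i + n < 9 ^ (a + b) ∧
    ∀ c, S t (c * 9 ^ (a + b) + i + n) - S t (c * 9 ^ (a + b) + i) = val t a b := by
  induction h with
  | zero => exact ⟨0, by simp [val]⟩
  | @a n a b _ ih =>
    obtain ⟨i, h1, h2⟩ := ih
    rw [show a + 1 + b = a + b + 1 by ring]
    refine ⟨9 * i + 3, by omega, fun c => ?_⟩
    have := h2 c
    rw [show c * 9 ^ (a + b + 1) + (9 * i + 3) + (9 * n + 3) = 9 * (c * 9 ^ (a + b) + i + n) + 6 by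
      ring, show c * 9 ^ (a + b + 1) + (9 * i + 3) = 9 * (c * 9 ^ (a + b) + i) + 3 by ring,
      S9 _ _ _ (by omega), S9 _ _ _ (by omega)]
    cases t <;> simp [val, P] at this ⊢ <;> omega
  | @b n a b _ ih =>
    obtain ⟨i, h1, h2⟩ := ih
    rw [← add_assoc]
    refine ⟨9 * i + 1, by omega, fun c => ?_⟩
    have := h2 c
    rw [show c * 9 ^ (a + b + 1) + (9 * i + 1) + (9 * n + 5) = 9 * (c * 9 ^ (a + b) + i + n) + 6 by
      ring, show c * 9 ^ (a + b + 1) + (9 * i + 1) = 9 * (c * 9 ^ (a + b) + i) + 1 by ring,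
      S9 _ _ _ (by omega), S9 _ _ _ (by omega)]
    cases t <;> simp [val, P] at this ⊢ <;> omega

theorem Good.att {n a b : ℕ} (h : Good n a b) (t : Bool) :
    ∃ i, 2 * (X (i + n) - X i) = n + val t a b := by
  obtain ⟨i, h1, h2⟩ := h.lb t
  obtain ⟨e, he⟩ : ∃ e, decide ((e + (a + b)) % 2 = 1) = t := by
    rcases Nat.mod_two_eq_zero_or_one (a + b) with h | h <;> cases t
    exacts [⟨0, by simp [h]⟩, ⟨1, by simp; omega⟩, ⟨1, by simp; omega⟩, ⟨0, by simp [h]⟩]
  have := h2 (8 * 9 ^ e)
  rw [mul_assoc, ← pow_add] at this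
  have hp := Nat.pow_le_pow_right (by norm_num : 0 < 9) (Nat.le_add_left (a + b) e)
  refine ⟨_, (cmp' t (8 * 9 ^ (e + (a + b)) + i) n fun p x y => ?_).trans (by omega)⟩
  rw [ty_eq (e + (a + b)) p (by omega) (by omega), if_pos (by omega), he]

theorem ivt (f : ℕ → ℤ) (hf : ∀ i, f i ≤ f (i + 1) + 1) (i d : ℕ) (w : ℤ) (h1 : w ≤ f i)
    (h2 : f (i + d) ≤ w) : ∃ j, f j = w := by
  induction d generalizing i with
  | zero => exact ⟨i, le_antisymm h2 h1⟩
  | succ d ih =>
    by_cases h : w ≤ f (i + 1)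
    · exact ih (i + 1) h (by rwa [add_assoc, add_comm 1])
    · exact ⟨i, by have := hf i; omega⟩

noncomputable def rho (n : ℕ) : ℕ := Set.ncard {v : Fin 2 → ℕ | ∃ i : ℕ,
  v = fun c => ((range n).filter fun j => x (i + j) = c).card}

theorem cnt (i n : ℕ) : (fun c => ((range n).filter fun j => x (i + j) = c).card) =
    ![n - (X (i + n) - X i).toNat, (X (i + n) - X i).toNat] := by
  have h1 : (((range n).filter fun j => x (i + j) = 1).card : ℤ) = X (i + n) - X i := by
    rw [X, sum_range_add, X, add_sub_cancel_left, card_filter]; simp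
  have h2 := card_filter_add_card_filter_not (s := range n) fun j => x (i + j) = 1
  rw [card_range] at h2
  have h3 : ∀ j, ¬ x j = 1 ↔ x j = 0 := fun j => by generalize x j = c; revert c; decide
  simp only [h3] at h2
  funext c
  fin_cases c <;> simp <;> omega

theorem Good.rho {n a b : ℕ} (h : Good n a b) :
    2 * (rho n : ℤ) = 2 + n + 2 * (a + b) + |(a : ℤ) - b| := by
  have hv : ∀ t, val t a b ≤ 2 * (a + b) + |(a : ℤ) - b| := fun t => by
    cases t <;> simp [val] <;> cases abs_cases ((a : ℤ) - b) <;> omega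
  obtain ⟨t, ht⟩ : ∃ t, val t a b = 2 * (a + b) + |(a : ℤ) - b| := by
    rcases abs_cases ((a : ℤ) - b) with h | h
    exacts [⟨false, by simp [val]; omega⟩, ⟨true, by simp [val]; omega⟩]
  obtain ⟨i0, hi⟩ := h.att t
  have h0 := abs_nonneg ((a : ℤ) - b)
  have : {v : Fin 2 → ℕ | ∃ i : ℕ, v = fun c => ((range n).filter fun j => x (i + j) = c).card} =
      (fun w => ![n - w, w]) '' (range ((X (i0 + n) - X i0).toNat + 1) : Finset ℕ) := by
    ext v
    simp only [cnt, Set.mem_ofPred_eq, Set.mem_image, mem_coe, mem_range]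
    constructor
    · rintro ⟨i, rfl⟩
      refine ⟨_, ?_, rfl⟩
      rcases upper i n with e | ⟨s, e⟩
      · omega
      · have := h.ub s i; have := hv s; omega
    · rintro ⟨w, hw, rfl⟩
      have p1 := Nat.lt_pow_self (n := i0 + n) (by norm_num : 1 < 9)
      obtain ⟨d, hd⟩ := Nat.exists_eq_add_of_le (show i0 ≤ 9 ^ (i0 + n) by omega)
      have z := cmp0 (9 ^ (i0 + n)) n fun p a b => by
        rw [ty_eq _ p a (by omega), if_neg (by omega)]
      obtain ⟨j, hj⟩ := ivt (fun i => X (i + n) - X i) (fun i => by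
        have := X_lip i 1; have := X_lip (i + n) 1
        rw [add_right_comm]; omega) i0 d w (by omega) (by simp only [← hd]; omega)
      exact ⟨j, by rw [hj]; simp⟩
  rw [Abel.rho, this, Set.ncard_image_of_injective _ fun w w' e => by simpa using congrFun e 1,
    Set.ncard_coe_finset, card_range]
  push_cast; omega

def rp (d : ℕ) : ℕ → ℕ
  | 0 => 0
  | j + 1 => 9 * rp d j + d

theorem rp_lt (j : ℕ) : rp 5 j < 9 ^ j := by
  induction j with
  | zero => simp [rp]
  | succ j ih => rw [rp]; omega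

theorem good (i j : ℕ) : Good (9 ^ j * rp 3 i + rp 5 j) i j := by
  induction j with
  | zero =>
    rw [pow_zero, one_mul, rp, add_zero]
    induction i with
    | zero => exact .zero
    | succ i ih => exact ih.a
  | succ j ih => convert ih.b using 1; rw [rp]; ring

theorem main : ¬ (Submodule.span ℤ {g : ℕ → ℤ | ∃ e r : ℕ, r < 9 ^ e ∧
    g = fun n => (rho (9 ^ e * n + r) : ℤ)}).FG := by
  let g : ℕ → ℕ → ℤ := fun j n => rho (9 ^ j * n + rp 5 j)
  have key : ∀ i j, 2 * (g (j + 3) (rp 3 i) - 11 * g (j + 2) (rp 3 i) + 19 * g (j + 1) (rp 3 i) -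
      9 * g j (rp 3 i)) = |(i : ℤ) - (j + 3)| - 11 * |(i : ℤ) - (j + 2)| +
      19 * |(i : ℤ) - (j + 1)| - 9 * |(i : ℤ) - j| := fun i j => by
    have a := (good i (j + 3)).rho
    have b := (good i (j + 2)).rho
    have c := (good i (j + 1)).rho
    have d := (good i j).rho
    simp only [g]
    generalize rho (9 ^ (j + 3) * rp 3 i + rp 5 (j + 3)) = a' at *
    generalize rho (9 ^ (j + 2) * rp 3 i + rp 5 (j + 2)) = b' at *
    generalize rho (9 ^ (j + 1) * rp 3 i + rp 5 (j + 1)) = c' at *
    simp only [rp] at a b c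
    push_cast at *
    linear_combination a - 11 * b + 19 * c - 9 * d
  refine not_fg _ (fun j => g (j + 3) - (11 : ℤ) • g (j + 2) + (19 : ℤ) • g (j + 1) - (9 : ℤ) • g j)
    (fun j => ?_) (fun i => rp 3 (i + 2)) (fun i => ?_) fun i j h => ?_
  · apply_rules [Submodule.sub_mem, Submodule.add_mem, Submodule.smul_mem] <;>
      exact Submodule.subset_span ⟨_, _, rp_lt _, rfl⟩
  · have := key (i + 2) i
    push_cast at this
    rw [abs_of_neg (by omega), abs_of_nonneg (by omega), abs_of_nonneg (by omega),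
      abs_of_nonneg (by omega)] at this
    simp only [Pi.sub_apply, Pi.add_apply, Pi.smul_apply, smul_eq_mul]; omega
  · have := key (i + 2) j
    push_cast at this
    rw [abs_of_nonneg (by omega), abs_of_nonneg (by omega), abs_of_nonneg (by omega),
      abs_of_nonneg (by omega)] at this
    simp only [Pi.sub_apply, Pi.add_apply, Pi.smul_apply, smul_eq_mul]; omega

end Pool.Agent.H24.Abel
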