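import Mathlib

set_option autoImplicit false
open MeasureTheory Set

namespace Pool.Agent.H24.Akop

/-- the monic quadratic with zeros `a`, `b` as a continuous map on `[-1,1]` -/
noncomputable def xx : C(Icc (-1 : ℝ) 1, ℂ) := ⟨fun x => ((x : ℝ) : ℂ), by fun_prop⟩

noncomputable def FF (a b : ℂ) : C(Icc (-1 : ℝ) 1, ℂ) :=
  (xx - a • (1 : C(Icc (-1 : ℝ) 1, ℂ))) * (xx - b • (1 : C(Icc (-1 : ℝ) 1, ℂ)))

lemma FF_apply (a b : ℂ) (x : Icc (-1 : ℝ) 1) :
    FF a b x = (((x : ℝ) : ℂ) - a) * (((x : ℝ) : ℂ) - b) := by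
  simp [FF, xx]

noncomputable def DD (a b : ℂ) : ℝ := ‖FF a b‖

noncomputable def NN (s : ℂ) : ℝ := ∫ x in (-1 : ℝ)..1, ‖2 * (x : ℂ) - s‖

lemma DD_cont : Continuous (fun p : ℂ × ℂ => DD p.1 p.2) := by
  unfold DD FF
  fun_prop

lemma le_DD (a b : ℂ) (x : ℝ) (hx : x ∈ Icc (-1 : ℝ) 1) :
    ‖((x : ℂ) - a) * ((x : ℂ) - b)‖ ≤ DD a b := by
  have := (FF a b).norm_coe_le_norm ⟨x, hx⟩
  rw [FF_apply] at this
  exact this

lemma DD_le (a b : ℂ) (M : ℝ) (hM : 0 ≤ M)
    (h : ∀ x ∈ Icc (-1 : ℝ) 1, ‖((x : ℂ) - a) * ((x : ℂ) - b)‖ ≤ M) : DD a b ≤ M := by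
  unfold DD
  rw [ContinuousMap.norm_le _ hM]
  intro x
  rw [FF_apply]
  exact h x x.2

lemma ii (s : ℂ) (u v : ℝ) :
    IntervalIntegrable (fun x : ℝ => ‖2 * (x : ℂ) - s‖) volume u v :=
  Continuous.intervalIntegrable (by fun_prop) u v

lemma NN_cont : Continuous NN := by
  unfold NN
  apply intervalIntegral.continuous_parametric_intervalIntegral_of_continuous'
  fun_prop

lemma NN_nonneg (s : ℂ) : 0 ≤ NN s :=
  intervalIntegral.integral_nonneg (by norm_num) (fun _ _ => norm_nonneg _)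

/-- three point bound -/
lemma three (a b : ℂ) (m : ℝ) (hm : m ∈ Icc (-1 : ℝ) 1) :
    2 - 2 * m ^ 2 + 2 * (a + b).re * m ≤ 4 * DD a b := by
  have h1 := le_DD a b 1 (by norm_num)
  have h2 := le_DD a b (-1) (by norm_num)
  have h3 := le_DD a b m hm
  have e1 := Complex.re_le_norm ((((1 : ℝ) : ℂ) - a) * (((1 : ℝ) : ℂ) - b))
  have e2 := Complex.re_le_norm (((((-1 : ℝ)) : ℂ) - a) * ((((-1 : ℝ)) : ℂ) - b))
  have e3 := Complex.abs_re_le_norm (((m : ℂ) - a) * ((m : ℂ) - b))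
  have e4 := neg_abs_le ((((m : ℂ) - a) * ((m : ℂ) - b)).re)
  simp only [Complex.mul_re, Complex.sub_re, Complex.sub_im, Complex.ofReal_re,
    Complex.ofReal_im, Complex.add_re] at *
  nlinarith

lemma half_le_DD (a b : ℂ) : 1 / 2 ≤ DD a b := by
  have := three a b 0 (by norm_num)
  linarith

lemma int_abs (m : ℝ) (hm : m ∈ Icc (-1 : ℝ) 1) :
    ∫ x in (-1 : ℝ)..1, |2 * x - 2 * m| = 2 + 2 * m ^ 2 := by
  have hi : ∀ u v : ℝ, IntervalIntegrable (fun x : ℝ => |2 * x - 2 * m|) volume u v :=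
    fun u v => Continuous.intervalIntegrable (by fun_prop) u v
  rw [← intervalIntegral.integral_add_adjacent_intervals (hi (-1) m) (hi m 1)]
  have h1 : ∫ x in (-1 : ℝ)..m, |2 * x - 2 * m| = ∫ x in (-1 : ℝ)..m, (2 * m - 2 * x) := by
    apply intervalIntegral.integral_congr
    intro x hx
    rw [uIcc_of_le hm.1] at hx
    show |2 * x - 2 * m| = 2 * m - 2 * x
    rw [abs_of_nonpos (by linarith [hx.2])]; ring
  have h2 : ∫ x in m..(1 : ℝ), |2 * x - 2 * m| = ∫ x in m..(1 : ℝ), (2 * x - 2 * m) := by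
    apply intervalIntegral.integral_congr
    intro x hx
    rw [uIcc_of_le hm.2] at hx
    show |2 * x - 2 * m| = 2 * x - 2 * m
    rw [abs_of_nonneg (by linarith [hx.1])]
  rw [h1, h2]
  rw [intervalIntegral.integral_sub (by simp) (Continuous.intervalIntegrable (by fun_prop) _ _),
    intervalIntegral.integral_sub (Continuous.intervalIntegrable (by fun_prop) _ _) (by simp),
    intervalIntegral.integral_const_mul, intervalIntegral.integral_const_mul 2 (fun x => x),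
    intervalIntegral.integral_const_mul 2 (fun x => x)]
  simp
  ring

lemma NN_le (s : ℂ) (m : ℝ) (hm : m ∈ Icc (-1 : ℝ) 1) :
    NN s ≤ 2 + 2 * m ^ 2 + 2 * ‖s - 2 * (m : ℂ)‖ := by
  have h : NN s ≤ ∫ x in (-1 : ℝ)..1, (|2 * x - 2 * m| + ‖s - 2 * (m : ℂ)‖) := by
    apply intervalIntegral.integral_mono_on (by norm_num) (ii s _ _)
      (Continuous.intervalIntegrable (by fun_prop) _ _)
    intro x _
    have e : 2 * (x : ℂ) - s = ((2 * x - 2 * m : ℝ) : ℂ) - (s - 2 * (m : ℂ)) := by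
      push_cast; ring
    rw [e]
    have := norm_sub_le (((2 * x - 2 * m : ℝ) : ℂ)) (s - 2 * (m : ℂ))
    rwa [Complex.norm_real, Real.norm_eq_abs] at this
  rw [intervalIntegral.integral_add (Continuous.intervalIntegrable (by fun_prop) _ _) (by simp),
    int_abs m hm] at h
  simp at h
  linarith

/-- thin case -/
lemma thin (a b : ℂ) (e : ℝ) (he : 0 < e) (ha : |a.re| ≤ 1 + e) (hb : |b.re| ≤ 1 + e)
    (ha' : |a.im| ≤ e) (hb' : |b.im| ≤ e) : NN (a + b) / DD a b ≤ 4 + 16 * e := by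
  have hD := half_le_DD a b
  set m : ℝ := (a + b).re / (2 * (1 + e)) with hm
  have hσ : (a + b).re = 2 * (1 + e) * m := by rw [hm]; field_simp
  have hs : |(a + b).re| ≤ 2 * (1 + e) := by
    rw [Complex.add_re]; linarith [abs_add_le a.re b.re]
  have hm1 : |m| ≤ 1 := by
    rw [hσ, abs_mul, abs_of_pos (by positivity : (0 : ℝ) < 2 * (1 + e))] at hs
    by_contra hc
    push Not at hc
    nlinarith
  have hmI : m ∈ Icc (-1 : ℝ) 1 := abs_le.mp hm1
  have h1 := three a b m hmI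
  have h2 := NN_le (a + b) m hmI
  have h3 : ‖a + b - 2 * (m : ℂ)‖ ≤ 4 * e := by
    have := Complex.norm_le_abs_re_add_abs_im (a + b - 2 * (m : ℂ))
    have r1 : (a + b - 2 * (m : ℂ)).re = 2 * e * m := by
      rw [Complex.sub_re, hσ]; simp; ring
    have r2 : (a + b - 2 * (m : ℂ)).im = a.im + b.im := by simp
    rw [r1, r2, abs_mul, abs_of_pos (by positivity : (0 : ℝ) < 2 * e)] at this
    have := abs_add_le a.im b.im
    nlinarith
  rw [div_le_iff₀ (by linarith)]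
  rw [hσ] at h1
  nlinarith [sq_nonneg m]

/-- far case -/
lemma far (a b : ℂ) (ha : 5 ≤ ‖a‖) : NN (a + b) / DD a b ≤ 4 := by
  have hD := half_le_DD a b
  have h1 := le_DD a b 1 (by norm_num)
  have h2 := le_DD a b (-1) (by norm_num)
  rw [norm_mul] at h1 h2
  have a1 : ‖a‖ - 1 ≤ ‖((1 : ℝ) : ℂ) - a‖ := by
    have := norm_sub_norm_le a ((1 : ℝ) : ℂ)
    rw [norm_sub_rev] at this; simpa using this
  have a2 : ‖a‖ - 1 ≤ ‖((-1 : ℝ) : ℂ) - a‖ := by
    have := norm_sub_norm_le a ((-1 : ℝ) : ℂ)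
    rw [norm_sub_rev] at this; simpa using this
  have b1 : 2 ≤ ‖((1 : ℝ) : ℂ) - b‖ + ‖((-1 : ℝ) : ℂ) - b‖ := by
    have := norm_sub_le (((1 : ℝ) : ℂ) - b) (((-1 : ℝ) : ℂ) - b)
    have e : ((1 : ℝ) : ℂ) - b - (((-1 : ℝ) : ℂ) - b) = 2 := by push_cast; ring
    rw [e] at this; simpa using this
  have b2 : 2 * ‖b‖ ≤ ‖((1 : ℝ) : ℂ) - b‖ + ‖((-1 : ℝ) : ℂ) - b‖ := by
    have := norm_add_le (((1 : ℝ) : ℂ) - b) (((-1 : ℝ) : ℂ) - b)
    have e : ((1 : ℝ) : ℂ) - b + (((-1 : ℝ) : ℂ) - b) = -(2 * b) := by push_cast; ring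
    rw [e] at this; simpa using this
  have h3 := NN_le (a + b) 0 (by norm_num)
  have h4 : ‖a + b - 2 * ((0 : ℝ) : ℂ)‖ ≤ ‖a‖ + ‖b‖ := by simpa using norm_add_le a b
  rw [div_le_iff₀ (by linarith)]
  have n1 := norm_nonneg (((1 : ℝ) : ℂ) - b)
  have n2 := norm_nonneg (((-1 : ℝ) : ℂ) - b)
  have k1 : (‖a‖ - 1) * ‖((1 : ℝ) : ℂ) - b‖ ≤ DD a b :=
    le_trans (mul_le_mul_of_nonneg_right a1 n1) h1
  have k2 : (‖a‖ - 1) * ‖((-1 : ℝ) : ℂ) - b‖ ≤ DD a b :=
    le_trans (mul_le_mul_of_nonneg_right a2 n2) h2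
  nlinarith

lemma DD_comm (a b : ℂ) : DD a b = DD b a := by
  unfold DD FF; rw [mul_comm]

lemma piece (u v p r : ℝ) (huv : u ≤ v) (hpr : p ^ 2 + r ^ 2 ≤ 1) :
    p * (v ^ 2 - u ^ 2) + r / 25 * (v - u) ≤
      ∫ x in u..v, ‖2 * (x : ℂ) - (-(Complex.I / 25))‖ := by
  have h : ∫ x in u..v, (2 * p * x + r / 25) ≤
      ∫ x in u..v, ‖2 * (x : ℂ) - (-(Complex.I / 25))‖ := by
    apply intervalIntegral.integral_mono_on huv
      (Continuous.intervalIntegrable (by fun_prop) _ _) (ii _ _ _)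
    intro x _
    apply le_trans (le_abs_self _)
    apply abs_le_of_sq_le_sq' _ (norm_nonneg _) |> abs_le.mpr
    rw [Complex.sq_norm, Complex.normSq_apply]
    simp
    nlinarith [sq_nonneg (2 * x * r - p / 25), sq_nonneg x,
      mul_nonneg (sub_nonneg.mpr hpr) (sq_nonneg x)]
  rw [intervalIntegral.integral_add (Continuous.intervalIntegrable (by fun_prop) _ _) (by simp),
    intervalIntegral.integral_const_mul (2 * p) (fun x => x)] at h
  simp at h
  simp
  nlinarith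

lemma NN0 : (200344 / 100000 : ℝ) ≤ NN (-(Complex.I / 25)) := by
  unfold NN
  rw [← intervalIntegral.integral_add_adjacent_intervals (ii _ (-1) 0) (ii _ 0 1),
    ← intervalIntegral.integral_add_adjacent_intervals (ii _ (-1) (-1 / 5)) (ii _ (-1 / 5) 0),
    ← intervalIntegral.integral_add_adjacent_intervals (ii _ (-1 / 5) (-1 / 25)) (ii _ (-1 / 25) 0),
    ← intervalIntegral.integral_add_adjacent_intervals (ii _ 0 (1 / 5)) (ii _ (1 / 5) 1),
    ← intervalIntegral.integral_add_adjacent_intervals (ii _ 0 (1 / 25)) (ii _ (1 / 25) (1 / 5))]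
  have h1 := piece (-1) (-1 / 5) (-999444 / 1000000) (33314 / 1000000) (by norm_num) (by norm_num)
  have h2 := piece (-1 / 5) (-1 / 25) (-98639 / 100000) (16439 / 100000) (by norm_num) (by norm_num)
  have h3 := piece (-1 / 25) 0 (-7071 / 10000) (7071 / 10000) (by norm_num) (by norm_num)
  have h4 := piece 0 (1 / 25) (7071 / 10000) (7071 / 10000) (by norm_num) (by norm_num)
  have h5 := piece (1 / 25) (1 / 5) (98639 / 100000) (16439 / 100000) (by norm_num) (by norm_num)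
  have h6 := piece (1 / 5) 1 (999444 / 1000000) (33314 / 1000000) (by norm_num) (by norm_num)
  norm_num at h1 h2 h3 h4 h5 h6 ⊢
  linarith

lemma good : ∃ a b : ℂ, a.im = -1 / 50 ∧ b.im = -1 / 50 ∧ ‖a‖ ≤ 5 ∧ ‖b‖ ≤ 5 ∧
    4 + 16 * (1 / 40000 : ℝ) < NN (a + b) / DD a b := by
  obtain ⟨w, hw0, hw⟩ : ∃ w : ℝ, 0 ≤ w ∧ w ^ 2 = 1251 / 2500 :=
    ⟨Real.sqrt (1251 / 2500), Real.sqrt_nonneg _, Real.sq_sqrt (by norm_num)⟩
  have hw1 : w ≤ 1 := by nlinarith
  refine ⟨(w : ℂ) - Complex.I / 50, -(w : ℂ) - Complex.I / 50, by simp; norm_num, by simp; norm_num,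
    ?_, ?_, ?_⟩
  · have := Complex.norm_le_abs_re_add_abs_im ((w : ℂ) - Complex.I / 50)
    simp at this
    rw [abs_of_nonneg hw0] at this
    have h : |(50 : ℝ)⁻¹| ≤ 1 := by rw [abs_of_pos (by norm_num)]; norm_num
    linarith
  · have := Complex.norm_le_abs_re_add_abs_im (-(w : ℂ) - Complex.I / 50)
    simp at this
    rw [abs_of_nonneg hw0] at this
    have h : |(50 : ℝ)⁻¹| ≤ 1 := by rw [abs_of_pos (by norm_num)]; norm_num
    linarith
  · have e : (w : ℂ) - Complex.I / 50 + (-(w : ℂ) - Complex.I / 50) = -(Complex.I / 25) := by ring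
    rw [e]
    have hD := half_le_DD ((w : ℂ) - Complex.I / 50) (-(w : ℂ) - Complex.I / 50)
    have hU : DD ((w : ℂ) - Complex.I / 50) (-(w : ℂ) - Complex.I / 50) ≤ 313 / 625 := by
      apply DD_le _ _ _ (by norm_num)
      intro x hx
      apply le_trans (le_abs_self _)
      apply abs_le_of_sq_le_sq' _ (by norm_num) |> abs_le.mpr
      rw [Complex.sq_norm, Complex.normSq_apply]
      simp
      have hx2 : x ^ 2 ≤ 1 := by nlinarith [hx.1, hx.2]
      have e1 : (x - w) * (x + w) = x ^ 2 - 1251 / 2500 := by nlinarith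
      rw [e1]
      nlinarith [mul_nonneg (sq_nonneg x) (sub_nonneg.mpr hx2)]
    rw [lt_div_iff₀ (by linarith)]
    have := NN0
    nlinarith

lemma ess (f : ℝ → ℂ) (hf : Continuous f) (M : ℝ) (hM : 0 ≤ M)
    (h1 : ∀ x ∈ Icc (-1 : ℝ) 1, ‖f x‖ ≤ M)
    (h2 : ∀ K : ℝ, 0 ≤ K → (∀ x ∈ Icc (-1 : ℝ) 1, ‖f x‖ ≤ K) → M ≤ K) :
    eLpNorm f ⊤ (volume.restrict (Icc (-1 : ℝ) 1)) = ENNReal.ofReal M := by
  rw [eLpNorm_exponent_top]
  have hle : eLpNormEssSup f (volume.restrict (Icc (-1 : ℝ) 1)) ≤ ENNReal.ofReal M := by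
    apply eLpNormEssSup_le_of_ae_bound
    filter_upwards [ae_restrict_mem measurableSet_Icc] with x hx using h1 x hx
  apply le_antisymm hle
  have hfin : eLpNormEssSup f (volume.restrict (Icc (-1 : ℝ) 1)) ≠ ⊤ :=
    ne_top_of_le_ne_top ENNReal.ofReal_ne_top hle
  set E := eLpNormEssSup f (volume.restrict (Icc (-1 : ℝ) 1)) with hE
  have hae : (fun x => max ‖f x‖ E.toReal) =ᵐ[volume.restrict (Icc (-1 : ℝ) 1)]
      fun _ => E.toReal := by
    filter_upwards [ae_le_eLpNormEssSup (f := f) (μ := volume.restrict (Icc (-1 : ℝ) 1))]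
      with x hx
    apply max_eq_right
    have := ENNReal.toReal_mono hfin hx
    simpa using this
  have heq := Measure.eqOn_Icc_of_ae_eq volume (by norm_num : (-1 : ℝ) ≠ 1) hae
    (Continuous.continuousOn (by fun_prop)) continuousOn_const
  have : M ≤ E.toReal := by
    apply h2 _ ENNReal.toReal_nonneg
    intro x hx
    have := heq hx
    simp only at this
    rw [← this]; exact le_max_left _ _
  exact ENNReal.ofReal_le_of_le_toReal this

open Polynomial in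
lemma ratio (c a b : ℂ) (hc : c ≠ 0) :
    eLpNorm (fun x : ℝ => ((⇑Polynomial.derivative)^[1]
        (C c * ((X - C a) * (X - C b)))).eval (x : ℂ)) 1 (volume.restrict (Icc (-1 : ℝ) 1)) /
      eLpNorm (fun x : ℝ => (C c * ((X - C a) * (X - C b))).eval (x : ℂ)) ⊤
        (volume.restrict (Icc (-1 : ℝ) 1)) = ENNReal.ofReal (NN (a + b) / DD a b) := by
  have hc' : 0 < ‖c‖ := norm_pos_iff.mpr hc
  have hD := half_le_DD a b
  have e1 : (fun x : ℝ => ((⇑Polynomial.derivative)^[1]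
        (C c * ((X - C a) * (X - C b)))).eval (x : ℂ)) =
      fun x : ℝ => c * (2 * (x : ℂ) - (a + b)) := by
    funext x; simp; left; ring
  have e2 : (fun x : ℝ => (C c * ((X - C a) * (X - C b))).eval (x : ℂ)) =
      fun x : ℝ => c * (((x : ℂ) - a) * ((x : ℂ) - b)) := by
    funext x; simp
  rw [e1, e2, ess _ (by fun_prop) (‖c‖ * DD a b) (by positivity)]
  · rw [eLpNorm_one_eq_lintegral_enorm, ← ofReal_integral_norm_eq_lintegral_enorm
      (Continuous.integrableOn_Icc (by fun_prop))]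
    have : ∫ x in Icc (-1 : ℝ) 1, ‖c * (2 * (x : ℂ) - (a + b))‖ = ‖c‖ * NN (a + b) := by
      unfold NN
      rw [intervalIntegral.integral_of_le (by norm_num), ← integral_Icc_eq_integral_Ioc,
        ← integral_const_mul]
      simp
    rw [this, ← ENNReal.ofReal_div_of_pos (by positivity)]
    congr 1
    field_simp
  · intro x hx
    rw [norm_mul]
    exact mul_le_mul_of_nonneg_left (le_DD a b x hx) hc'.le
  · intro K hK h
    have : DD a b ≤ K / ‖c‖ := by
      apply DD_le _ _ _ (by positivity)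
      intro x hx
      have := h x hx
      rw [norm_mul] at this
      rw [le_div_iff₀ hc']; linarith
    rw [le_div_iff₀ hc'] at this; linarith

open Polynomial in
lemma split2 (Q : ℂ[X]) (hQ : Q.natDegree = 2) :
    ∃ c a b : ℂ, c ≠ 0 ∧ Q = C c * ((X - C a) * (X - C b)) := by
  have h0 : Q ≠ 0 := by rintro rfl; simp at hQ
  have hs := IsAlgClosed.splits Q
  have hcard : Q.roots.card = 2 := by rw [← hQ]; exact (hs.natDegree_eq_card_roots).symm
  obtain ⟨a, b, hab⟩ := Multiset.card_eq_two.mp hcard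
  refine ⟨Q.leadingCoeff, a, b, leadingCoeff_ne_zero.mpr h0, ?_⟩
  have := hs.eq_prod_roots
  rw [hab] at this
  simpa using this

def GG : Set ℂ := {z | |z.re| < 1 + 1 / 40000 ∧ |z.im| < 1 / 40000}

lemma GG_open : IsOpen GG := by
  have h1 : IsOpen {z : ℂ | |z.re| < 1 + 1 / 40000} := isOpen_lt (by fun_prop) continuous_const
  have h2 : IsOpen {z : ℂ | |z.im| < 1 / 40000} := isOpen_lt (by fun_prop) continuous_const
  exact h1.inter h2

lemma GG_convex : Convex ℝ GG := by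
  intro x hx y hy a b ha hb hab
  obtain ⟨hx1, hx2⟩ := hx
  obtain ⟨hy1, hy2⟩ := hy
  rw [abs_lt] at hx1 hx2 hy1 hy2
  have hb' : b = 1 - a := by linarith
  subst hb'
  have key : ∀ u v K : ℝ, u < K → v < K → a * u + (1 - a) * v < K := by
    intro u v K hu hv
    rcases le_total u v with h | h
    · nlinarith
    · nlinarith
  constructor
  · rw [abs_lt]; simp only [Complex.add_re, Complex.smul_re, smul_eq_mul]
    constructor
    · have := key (-x.re) (-y.re) (1 + 1 / 40000) (by linarith) (by linarith); linarith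
    · exact key _ _ _ hx1.2 hy1.2
  · rw [abs_lt]; simp only [Complex.add_im, Complex.smul_im, smul_eq_mul]
    constructor
    · have := key (-x.im) (-y.im) (1 / 40000) (by linarith) (by linarith); linarith
    · exact key _ _ _ hx2.2 hy2.2

lemma GG_bdd : Bornology.IsBounded GG := by
  apply (Metric.isBounded_closedBall (x := (0 : ℂ)) (r := 3)).subset
  intro z hz
  have := Complex.norm_le_abs_re_add_abs_im z
  simp only [Metric.mem_closedBall, dist_zero_right]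
  linarith [hz.1, hz.2]

lemma GG_front (z : ℂ) (hz : z ∈ frontier GG) :
    |z.re| ≤ 1 + 1 / 40000 ∧ |z.im| ≤ 1 / 40000 := by
  have h1 : IsClosed {z : ℂ | |z.re| ≤ 1 + 1 / 40000} :=
    isClosed_le (by fun_prop) continuous_const
  have h2 : IsClosed {z : ℂ | |z.im| ≤ 1 / 40000} := isClosed_le (by fun_prop) continuous_const
  have hs : GG ⊆ {z : ℂ | |z.re| ≤ 1 + 1 / 40000} ∩ {z : ℂ | |z.im| ≤ 1 / 40000} :=
    fun z hz => ⟨le_of_lt hz.1, le_of_lt hz.2⟩
  exact closure_minimal hs (h1.inter h2) (frontier_subset_closure hz)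

lemma exmax : ∃ a b : ℂ, a ∉ GG ∧ b ∉ GG ∧ 4 + 16 * (1 / 40000 : ℝ) < NN (a + b) / DD a b ∧
    ∀ u v : ℂ, u ∉ GG → v ∉ GG → NN (u + v) / DD u v ≤ NN (a + b) / DD a b := by
  obtain ⟨a0, b0, ha0, hb0, ha1, hb1, hg⟩ := good
  have hK : IsCompact (GGᶜ ∩ Metric.closedBall (0 : ℂ) 5) :=
    (isCompact_closedBall _ _).inter_left GG_open.isClosed_compl
  have hcont : Continuous (fun p : ℂ × ℂ => NN (p.1 + p.2) / DD p.1 p.2) := by
    apply Continuous.div (NN_cont.comp (by fun_prop)) DD_cont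
    intro p; linarith [half_le_DD p.1 p.2]
  have m0 : (a0, b0) ∈ (GGᶜ ∩ Metric.closedBall (0 : ℂ) 5) ×ˢ
      (GGᶜ ∩ Metric.closedBall (0 : ℂ) 5) := by
    refine ⟨⟨fun h => ?_, by simpa using ha1⟩, ⟨fun h => ?_, by simpa using hb1⟩⟩
    · have := h.2; simp only [ha0] at this; norm_num [abs_lt] at this
    · have := h.2; simp only [hb0] at this; norm_num [abs_lt] at this
  obtain ⟨p, hp, hmax⟩ := (hK.prod hK).exists_isMaxOn ⟨_, m0⟩ hcont.continuousOn
  have h0 : NN (a0 + b0) / DD a0 b0 ≤ NN (p.1 + p.2) / DD p.1 p.2 := hmax m0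
  refine ⟨p.1, p.2, hp.1.1, hp.2.1, by linarith, ?_⟩
  intro u v hu hv
  by_cases h1 : 5 ≤ ‖u‖
  · linarith [far u v h1]
  by_cases h2 : 5 ≤ ‖v‖
  · have := far v u h2
    rw [add_comm, DD_comm] at this
    linarith
  have m1 : (u, v) ∈ (GGᶜ ∩ Metric.closedBall (0 : ℂ) 5) ×ˢ
      (GGᶜ ∩ Metric.closedBall (0 : ℂ) 5) :=
    ⟨⟨hu, by simp; linarith⟩, ⟨hv, by simp; linarith⟩⟩
  exact hmax m1

end Pool.Agent.H24.Akop
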