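import Mathlib

open Finset

namespace Pool.Agent.H24.Ap

instance f5 : Fact (Nat.Prime 5) := ⟨by norm_num⟩

variable {D : Type} [CommRing D] [Algebra ℚ_[5] D]

def F (m : ℕ) (x : D) : D := ∏ i ∈ range m, ((i : D) + 1 + x)

noncomputable def r (D : Type) [CommRing D] [Algebra ℚ_[5] D] (i : ℕ) : D :=
  algebraMap ℚ_[5] D (1 / (i + 1))

theorem hr (i : ℕ) : ((i : D) + 1) * r D i = 1 := by
  have : ((i : ℚ_[5]) + 1) ≠ 0 := by exact_mod_cast i.succ_ne_zero
  rw [r, show (i : D) + 1 = algebraMap ℚ_[5] D (i + 1) by simp, ← map_mul, mul_one_div_cancel this,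
    map_one]

theorem canc (i : ℕ) {a b : D} (h : ((i : D) + 1) * a = ((i : D) + 1) * b) : a = b := by
  linear_combination r D i * h - (a - b) * hr (D := D) i

noncomputable def I (m : ℕ) (x : D) : D := ∏ i ∈ range m, (r D i - r D i ^ 2 * x)

omit [Algebra ℚ_[5] D] in
theorem F_succ (m : ℕ) (x : D) : F (m + 1) x = F m x * (m + 1 + x) := prod_range_succ _ _

theorem I_succ (m : ℕ) {x : D} (hx : x * x = 0) : I (m + 1) x * (m + 1 + x) = I m x := by
  have h := hr (D := D) m
  rw [I, prod_range_succ, ← I]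
  linear_combination I m x * (1 - r D m * x) * h - I m x * r D m ^ 2 * hx

theorem FI (m : ℕ) {x : D} (hx : x * x = 0) : F m x * I m x = 1 := by
  induction m with
  | zero => simp [F, I]
  | succ m ih => rw [F_succ]; linear_combination ih + F m x * I_succ m hx

noncomputable def A (x : D) (n l : ℕ) : D := F (n + l) x * I l x ^ 2 * I (n - l) (-x)

noncomputable def B (x : D) (n l : ℕ) : D := F (n + l) x * I l x ^ 2 * I (n + 1 - l) (-x)

noncomputable def S (x : D) (n : ℕ) (f : D → D) : D := ∑ l ∈ range (n + 1), A x n l ^ 2 * f (l + x)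

noncomputable def SB (x : D) (n : ℕ) (f : D → D) : D := ∑ l ∈ range (n + 2), B x n l ^ 2 * f (l + x)

variable {x : D}

theorem S_low (hx : x * x = 0) (n : ℕ) (f : D → D) :
    S x n f = SB x n fun y => f y * (n + 1 - y) ^ 2 := by
  rw [SB, sum_range_succ, S]
  have e : B x n (n + 1) ^ 2 * (f ((n + 1 : ℕ) + x) * (n + 1 - ((n + 1 : ℕ) + x)) ^ 2) = 0 := by
    push_cast
    linear_combination B x n (n + 1) ^ 2 * f (n + 1 + x) * hx
  rw [e, add_zero]
  refine sum_congr rfl fun l hl => ?_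
  obtain ⟨m, rfl⟩ : ∃ m, n = l + m := ⟨n - l, by have := mem_range.1 hl; omega⟩
  have h := I_succ m (x := -x) (by simpa using hx)
  rw [A, B, show l + m - l = m by omega, show l + m + 1 - l = m + 1 by omega, ← h]
  push_cast; ring

theorem S_up (n : ℕ) (f : D → D) :
    S x (n + 1) f = SB x n fun y => f y * (n + 1 + y) ^ 2 := by
  refine sum_congr rfl fun l _ => ?_
  rw [A, B, show n + 1 + l = n + l + 1 by omega, F_succ]
  push_cast; ring

theorem kill (hx : x * x = 0) (n : ℕ) (q : D → D) :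
    SB x n (fun y => q (y + 1) * ((n + 1) ^ 2 - y ^ 2) ^ 2 - q y * y ^ 4) = 0 := by
  simp only [SB, mul_sub, sum_sub_distrib]
  rw [sum_range_succ, sum_range_succ' (fun l => B x n l ^ 2 * (q (l + x) * (l + x) ^ 4)),
    sub_eq_zero]
  congr 1
  · refine sum_congr rfl fun l hl => ?_
    obtain ⟨m, rfl⟩ : ∃ m, n = l + m := ⟨n - l, by have := mem_range.1 hl; omega⟩
    have h := I_succ m (x := -x) (by simpa using hx)
    have h' := I_succ l hx
    rw [B, B, show l + m + 1 - (l + 1) = m by omega, show l + m + 1 - l = m + 1 by omega, ← h,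
      ← h', ← add_assoc, F_succ]
    push_cast
    rw [show (l : D) + 1 + x = l + x + 1 by ring]
    ring
  · push_cast
    linear_combination (B x n (n + 1) ^ 2 * q (n + 1 + x + 1) * (2 * (n + 1) + x) ^ 2 -
      B x n 0 ^ 2 * q (0 + x) * x ^ 2) * hx

def w (n y : D) : D := 12 * y ^ 2 - 24 * n * (n + 1) * y + 17 * n ^ 3 + 12 * n ^ 2

def P (n : D) : D := 34 * n ^ 3 + 51 * n ^ 2 + 27 * n + 5

theorem R1 (hx : x * x = 0) (n : ℕ) :
    S x (n + 1) (w ((n : D) + 1)) = (n + 1) ^ 3 * S x n fun _ => 1 := by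
  rw [← sub_eq_zero, ← kill hx n fun y => 12 * y + 16 * (n + 1), S_up, S_low hx, SB, SB, SB,
    mul_sum, ← sum_sub_distrib]
  exact sum_congr rfl fun l _ => by unfold w; ring

theorem R2 (hx : x * x = 0) (n : ℕ) :
    (n + 1) ^ 3 * S x (n + 1) (fun _ => 1) = P (n : D) * S x n (fun _ => 1) - S x n (w (n : D)) := by
  rw [← sub_eq_zero, ← kill hx n fun y => 12 * y - 16 * (n + 1), S_up, S_low hx, S_low hx,
    SB, SB, SB, SB, mul_sum, mul_sum, ← sum_sub_distrib, ← sum_sub_distrib]
  exact sum_congr rfl fun l _ => by unfold w P; ring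

theorem R3 (hx : x * x = 0) (n : ℕ) :
    3 * (S x (n + 1) (fun y => y) - S x n fun y => y) =
      2 * (n + 1) * (S x (n + 1) (fun _ => 1) + S x n fun _ => 1) := by
  apply canc n
  rw [← sub_eq_zero, ← kill hx n fun _ => -4, S_up, S_up, S_low hx, S_low hx]
  simp only [SB, mul_sum, ← sum_sub_distrib, ← sum_add_distrib]
  exact sum_congr rfl fun l _ => by ring

theorem killS (hx : x * x = 0) (n : ℕ) (q : D → D) :
    S x n (fun y => q (y + 1) * (y ^ 2 + y - n * (n + 1)) ^ 2 - q y * y ^ 4) = 0 := by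
  rw [S_low hx, ← kill hx n fun y => q y * (n + 1 - y) ^ 2]
  congr 1; funext y; ring

def u (n : ℕ) : ℕ := ∑ k ∈ range (n + 1), n.choose k ^ 2 * (n + k).choose k ^ 2

def W (n : ℕ) : ℕ := n ^ 3 * u (n - 1)

theorem S_zero (n : ℕ) : S (0 : ℚ_[5]) n (fun _ => 1) = u n := by
  have hF : ∀ m, F m (0 : ℚ_[5]) = m.factorial := fun m => by
    induction m with
    | zero => simp [F]
    | succ m ih => rw [F_succ, ih, Nat.factorial_succ]; push_cast; ring
  have h0 : ∀ m : ℕ, (m.factorial : ℚ_[5]) ≠ 0 := fun m => by exact_mod_cast m.factorial_ne_zero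
  have hI : ∀ m, I m (0 : ℚ_[5]) = 1 / m.factorial := fun m => by
    rw [eq_div_iff (h0 m), ← hF, mul_comm]; exact FI m (by simp)
  rw [u, S]; push_cast
  refine sum_congr rfl fun l hl => ?_
  have := mem_range.1 hl
  rw [A, neg_zero, hF, hI, hI, Nat.cast_choose _ (by omega : l ≤ n),
    Nat.cast_choose _ (by omega : l ≤ n + l), Nat.add_sub_cancel]
  have := h0 l; have := h0 n; have := h0 (n - l)
  field_simp

theorem S0 (hx : x * x = 0) : S x 0 (fun _ => 1) = 1 ∧ S x 0 (w (0 : D)) = 0 ∧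
    S x 0 (fun y => y) = x := by
  simp [S, A, F, I, w, pow_two, hx]

theorem urec0 (n : ℕ) : ((n : ℚ_[5]) + 1) ^ 3 * u (n + 1) = P (n : ℚ_[5]) * u n - W n := by
  have h := R2 (x := (0 : ℚ_[5])) (by simp) n
  rw [S_zero, S_zero] at h
  rw [h]; congr 1
  cases n with
  | zero => simpa [W] using (S0 (x := (0 : ℚ_[5])) (by simp)).2.1
  | succ n =>
    have := R1 (x := (0 : ℚ_[5])) (by simp) n
    rw [S_zero] at this
    simpa [W] using this

theorem urec (R : Type) [CommRing R] (n : ℕ) :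
    ((n : R) + 1) ^ 3 * u (n + 1) = P (n : R) * u n - W n := by
  have h : ((n : ℤ) + 1) ^ 3 * u (n + 1) = P (n : ℤ) * u n - W n := by
    have := urec0 n
    unfold P at this ⊢
    exact_mod_cast this
  have := congrArg (Int.castRingHom R) h
  simpa [P] using this

theorem S_val (hx : x * x = 0) (n : ℕ) : S x n (fun _ => 1) = u n ∧ S x n (w (n : D)) = W n := by
  induction n with
  | zero => simpa [u, W] using ⟨(S0 hx).1, (S0 hx).2.1⟩
  | succ n ih =>
    constructor
    · refine canc n (canc n (canc n ?_))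
      have := R2 hx n
      rw [ih.1, ih.2, ← urec] at this
      linear_combination this
    · have := R1 hx n
      rw [ih.1] at this
      simpa [W] using this

theorem S_id (hx : x * x = 0) (n : ℕ) : ∃ M : ℚ_[5], S x n (fun y => y) = algebraMap _ D M + x := by
  induction n with
  | zero => exact ⟨0, by simp [(S0 hx).2.2]⟩
  | succ n ih =>
    obtain ⟨M, hM⟩ := ih
    refine ⟨M + 1 / (((2 : ℕ) : ℚ_[5]) + 1) * (2 * (n + 1) * (u (n + 1) + u n)), ?_⟩
    have h := R3 hx n
    have h2 := hr (D := D) 2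
    rw [(S_val hx _).1, (S_val hx _).1, hM] at h
    simp only [map_add, map_mul, map_natCast, map_ofNat, map_one]
    rw [← r]
    push_cast at h2 ⊢
    linear_combination r D 2 * h - (S x (n + 1) (fun y => y) - algebraMap _ D M - x) * h2

end Pool.Agent.H24.Ap
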