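import Pool.Agent.H24.Ap1

open Finset

namespace Pool.Agent.H24.Ap

variable {D : Type} [CommRing D] [Algebra ℚ_[5] D]

noncomputable def io (D : Type) [CommRing D] [Algebra ℚ_[5] D] : ℤ_[5] →+* D :=
  (algebraMap ℚ_[5] D).comp (algebraMap ℤ_[5] ℚ_[5])

theorem unit_nat {m : ℕ} (h : ¬ 5 ∣ m) : IsUnit (m : ℤ_[5]) := by
  rw [PadicInt.isUnit_iff, PadicInt.norm_natCast_eq_one_iff]
  exact (Nat.Prime.coprime_iff_not_dvd (by norm_num)).2 h

theorem ex24 : ∃ z : ℤ_[5], 24 * z = 1 := by
  simpa using (unit_nat (m := 24) (by norm_num)).exists_right_inv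

noncomputable def i24 : ℤ_[5] := ex24.choose

theorem h24 : 24 * io D i24 = 1 := by
  have := congrArg (io D) ex24.choose_spec
  rwa [map_mul, map_ofNat, map_one] at this

theorem fact_val (m : ℕ) : ∃ (v : ℕ) (c : ℤ_[5]), c * m.factorial = 5 ^ v ∧ (4 * v + 1 ≤ m ∨ v = 0) := by
  obtain ⟨m', hm'⟩ := pow_padicValNat_dvd (p := 5) (n := m.factorial)
  have h1 := pow_succ_padicValNat_not_dvd (p := 5) m.factorial_ne_zero
  have h2 : ¬ 5 ∣ m' := fun ⟨k, hk⟩ => h1 ⟨k, by rw [pow_succ, mul_assoc, ← hk, ← hm']⟩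
  obtain ⟨c, hc⟩ := (unit_nat h2).exists_right_inv
  refine ⟨padicValNat 5 m.factorial, c, ?_, ?_⟩
  · nth_rw 1 [hm']; push_cast; linear_combination 5 ^ padicValNat 5 m.factorial * hc
  · rcases Nat.eq_zero_or_pos m with rfl | h
    · simp
    · have := sub_one_mul_padicValNat_factorial_lt_of_ne_zero 5 h.ne'
      omega

def Lip (a : ℕ → ℤ_[5]) : Prop :=
  ∀ k n n' : ℕ, n ≡ n' [MOD 5 ^ k] → (5 : ℤ_[5]) ^ k ∣ a n - a n'

theorem Lip.const (c : ℤ_[5]) : Lip fun _ => c := fun _ _ _ _ => by simp

theorem Lip.add {a b : ℕ → ℤ_[5]} (ha : Lip a) (hb : Lip b) : Lip fun n => a n + b n :=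
  fun k n n' h => by
    convert dvd_add (ha k n n' h) (hb k n n' h) using 1; ring

theorem Lip.mul {a b : ℕ → ℤ_[5]} (ha : Lip a) (hb : Lip b) : Lip fun n => a n * b n :=
  fun k n n' h => by
    convert dvd_add ((ha k n n' h).mul_right (b n)) ((hb k n n' h).mul_left (a n')) using 1; ring

theorem cast_dvd {k n n' : ℕ} (h : n ≡ n' [MOD 5 ^ k]) : (5 : ℤ_[5]) ^ k ∣ (n : ℤ_[5]) - n' := by
  have := map_dvd (Int.castRingHom ℤ_[5]) h.symm.dvd
  simpa using this

theorem Lip.id : Lip fun n => (n : ℤ_[5]) := fun _ _ _ h => cast_dvd h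

inductive Mem (s j : ℕ) : (ℕ → D → D) → Prop
  | mono (a : ℕ → ℤ_[5]) (ha : Lip a) (e d : ℕ) (h : d ≤ s * e + j) :
      Mem s j fun n y => io D (a n) * 5 ^ e * y ^ d
  | zero : Mem s j fun _ _ => 0
  | add {f g : ℕ → D → D} : Mem s j f → Mem s j g → Mem s j fun n y => f n y + g n y

namespace Mem

variable {s i j : ℕ} {f g : ℕ → D → D}

theorem congr (h : Mem s j f) (e : ∀ n y, g n y = f n y) : Mem s j g := by
  have : g = f := by funext n y; exact e n y
  rwa [this]

theorem le (h : Mem s i f) (hij : i ≤ j) : Mem s j f := by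
  induction h with
  | mono a ha e d h => exact mono a ha e d (by omega)
  | zero => exact zero
  | add _ _ h1 h2 => exact add h1 h2

theorem mul (hf : Mem s i f) (hg : Mem s j g) : Mem s (i + j) fun n y => f n y * g n y := by
  induction hf with
  | mono a ha e d h =>
    induction hg with
    | mono b hb e' d' h' =>
      exact (mono _ (ha.mul hb) (e + e') (d + d') (by rw [mul_add]; omega)).congr
        fun n y => by simp only [map_mul]; ring
    | zero => exact zero.congr fun _ _ => mul_zero _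
    | add _ _ h1 h2 => exact (add h1 h2).congr fun _ _ => mul_add _ _ _
  | zero => exact zero.congr fun _ _ => zero_mul _
  | add _ _ h1 h2 => exact (add h1 h2).congr fun _ _ => add_mul _ _ _

theorem five (k : ℕ) (h : Mem s (j + s * k) f) : Mem s j fun n y => 5 ^ k * f n y := by
  induction h with
  | mono a ha e d h =>
    exact (mono a ha (e + k) d (by rw [mul_add]; omega)).congr fun n y => by ring
  | zero => exact zero.congr fun _ _ => mul_zero _
  | add _ _ h1 h2 => exact (add h1 h2).congr fun _ _ => mul_add _ _ _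

theorem lip {a : ℕ → ℤ_[5]} (ha : Lip a) : Mem s 0 fun n (_ : D) => io D (a n) :=
  (mono a ha 0 0 (by simp)).congr fun n y => by simp

theorem int (c : ℤ) : Mem s 0 fun _ (_ : D) => (c : D) :=
  (lip (Lip.const c)).congr fun n y => by simp

theorem nn : Mem s 0 fun n (_ : D) => (n : D) := (lip Lip.id).congr fun n y => by simp

theorem Y : Mem s 1 fun _ (y : D) => y :=
  (mono _ (Lip.const 1) 0 1 (by simp)).congr fun n y => by simp

theorem cmul (c : ℤ) (h : Mem s j f) : Mem s j fun n y => c * f n y :=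
  ((int c).mul h).le (by simp)

theorem sub (hf : Mem s j f) (hg : Mem s j g) : Mem s j fun n y => f n y - g n y :=
  (hf.add (hg.cmul (-1))).congr fun n y => by push_cast; ring

theorem pow (h : Mem s i f) (k : ℕ) : Mem s (i * k) fun n y => f n y ^ k := by
  induction k with
  | zero => exact (int 1).congr fun n y => by simp
  | succ k ih => exact (ih.mul h).congr fun n y => pow_succ _ _

theorem lin (a : ℤ) (b : ℤ) (c : ℤ) : Mem s 1 fun n (y : D) => a * y + b * n + c :=
  ((Y.cmul a).add ((nn.cmul b).le (by simp))).add ((int c).le (by simp))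

theorem mem (h : Mem s j f) (L : Subring D) (hL : ∀ z, io D z ∈ L) (n : ℕ) {y : D} (hy : y ∈ L) :
    f n y ∈ L := by
  induction h with
  | mono a ha e d h =>
    exact L.mul_mem (L.mul_mem (hL _) (L.pow_mem (ofNat_mem L 5) _)) (L.pow_mem hy _)
  | zero => exact L.zero_mem
  | add _ _ h1 h2 => exact L.add_mem h1 h2

end Mem

def Good (x : D) (f : ℕ → D → D) : Prop :=
  ∃ a b c : ℕ → ℤ_[5], Lip a ∧ Lip b ∧ Lip c ∧
    ∀ n, S x n (f n) = io D (a n) * u n + io D (b n) * S x n (fun y => y) + io D (c n) * W n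

variable {x : D}

theorem S_add (n : ℕ) (f g : D → D) : S x n (fun y => f y + g y) = S x n f + S x n g := by
  simp only [S, mul_add, sum_add_distrib]

theorem S_mul (n : ℕ) (c : D) (f : D → D) : S x n (fun y => c * f y) = c * S x n f := by
  simp only [S, mul_sum]; exact sum_congr rfl fun _ _ => by ring

theorem Good.add {f g : ℕ → D → D} (hf : Good x f) (hg : Good x g) :
    Good x fun n y => f n y + g n y := by
  obtain ⟨a, b, c, ha, hb, hc, h⟩ := hf
  obtain ⟨a', b', c', ha', hb', hc', h'⟩ := hg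
  refine ⟨_, _, _, ha.add ha', hb.add hb', hc.add hc', fun n => ?_⟩
  rw [S_add, h, h']; simp only [map_add]; ring

theorem Good.smul {f : ℕ → D → D} (hf : Good x f) {d : ℕ → ℤ_[5]} (hd : Lip d) :
    Good x fun n y => io D (d n) * f n y := by
  obtain ⟨a, b, c, ha, hb, hc, h⟩ := hf
  refine ⟨_, _, _, hd.mul ha, hd.mul hb, hd.mul hc, fun n => ?_⟩
  rw [S_mul, h]; simp only [map_mul]; ring

theorem Good.congr {f g : ℕ → D → D} (hf : Good x f) (e : ∀ n, S x n (g n) = S x n (f n)) :
    Good x g := by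
  obtain ⟨a, b, c, ha, hb, hc, h⟩ := hf
  exact ⟨a, b, c, ha, hb, hc, fun n => (e n).trans (h n)⟩

theorem Good.congr' {f g : ℕ → D → D} (hf : Good x f) (e : ∀ n y, g n y = f n y) : Good x g :=
  hf.congr fun n => by rw [funext (e n)]

theorem Good.zero : Good x fun _ _ => (0 : D) :=
  ⟨_, _, _, Lip.const 0, Lip.const 0, Lip.const 0, fun n => by simp [S]⟩

theorem Xj (j : ℕ) :
    Mem 0 j fun _ (y : D) => (y + 1) ^ j * y ^ 2 - y ^ (j + 2) - j * y ^ (j + 1) := by
  induction j with
  | zero => exact Mem.zero.congr fun _ _ => by simp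
  | succ j ih =>
    refine (((ih.mul (Mem.lin 1 0 1))).add (((Mem.Y.pow (j + 1)).cmul j).le (by simp))).congr
      fun n y => ?_
    push_cast; ring

theorem good_mono (hx : x * x = 0) (d : ℕ) :
    Good x fun _ y => ((d - 1).factorial : D) * y ^ d := by
  have g0 : Good x fun _ _ => (1 : D) :=
    ⟨_, _, _, Lip.const 1, Lip.const 0, Lip.const 0, fun n => by simp [(S_val hx n).1]⟩
  have g1 : Good x fun _ y => y :=
    ⟨_, _, _, Lip.const 0, Lip.const 1, Lip.const 0, fun n => by simp⟩
  have gw : Good x fun n => w (n : D) :=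
    ⟨_, _, _, Lip.const 0, Lip.const 0, Lip.const 1, fun n => by simp [(S_val hx n).2]⟩
  induction d using Nat.strong_induction_on with
  | _ d ih =>
    match d, ih with
    | 0, _ => exact g0.congr' fun _ _ => by simp
    | 1, _ => exact g1.congr' fun _ _ => by simp
    | 2, _ =>
      have l := Lip.id
      refine (((gw.add (g1.smul (((Lip.const 24).mul l).mul (l.add (Lip.const 1))))).add
        (g0.smul ((l.mul l).mul (((Lip.const (-17)).mul l).add (Lip.const (-12)))))).smul
        (Lip.const (2 * i24))).congr' fun n y => ?_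
      simp only [map_mul, map_add, map_neg, map_ofNat, map_one, map_natCast, w]
      linear_combination (-y ^ 2) * h24 (D := D)
    | j + 3, ih =>
      have gP : ∀ f : ℕ → D → D, Mem 0 (j + 2) f →
          Good x fun n y => ((j + 1).factorial : D) * f n y := by
        intro f hf
        induction hf with
        | mono a ha e d h =>
          obtain ⟨c, hc⟩ := Nat.factorial_dvd_factorial (show d - 1 ≤ j + 1 by omega)
          refine ((ih d (by omega)).smul (ha.mul (Lip.const (5 ^ e * c)))).congr' fun n y => ?_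
          rw [hc]; simp only [map_mul, map_pow, map_ofNat, map_natCast, Nat.cast_mul]; ring
        | zero => exact Good.zero.congr' fun _ _ => mul_zero _
        | add _ _ h1 h2 => exact (h1.add h2).congr' fun _ _ => mul_add _ _ _
      have hv : Mem 0 0 fun n (_ : D) => (n : D) * (n + 1) :=
        Mem.nn.mul (Mem.nn.add (Mem.int 1)) |>.congr fun _ _ => by simp
      have hR : Mem 0 2 fun n (y : D) => y * (y + 1) * (1 - 2 * (n * (n + 1))) - y +
          (n * (n + 1)) ^ 2 :=
        ((((Mem.Y.mul (Mem.lin 1 0 1)).mul ((Mem.int 1).sub (hv.cmul 2))).sub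
          (Mem.Y.le (by simp))).add ((hv.pow 2).le (by simp))).congr fun _ _ => by simp
      have h := gP _ ((((Xj j).mul (Mem.Y.mul (Mem.lin 1 0 2))).add
        (((Mem.Y.pow (j + 2)).cmul (2 * j)).le (by simp))).add
        ((((Mem.lin 1 0 1).pow j).mul hR).le (by simp)))
      refine (h.smul (Lip.const (-1))).congr fun n => ?_
      have k := killS hx n fun y => ((j + 1).factorial : D) * y ^ j
      rw [← add_zero (S x n fun y => io D (-1) * _), ← k, ← S_add]
      congr 1; funext y
      rw [show j + 3 - 1 = j + 1 + 1 from rfl, Nat.factorial_succ (j + 1)]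
      simp only [map_neg, map_one]
      push_cast; ring

theorem good_M (hx : x * x = 0) {f : ℕ → D → D} (hf : Mem 4 5 f) : Good x f := by
  induction hf with
  | mono a ha e d h =>
    obtain ⟨v, c, hc, hv⟩ := fact_val (d - 1)
    obtain ⟨k, rfl⟩ : ∃ k, e = v + k := ⟨e - v, by omega⟩
    refine ((good_mono hx d).smul (ha.mul (Lip.const (5 ^ k * c)))).congr' fun n y => ?_
    have := congrArg (io D) hc
    simp only [map_mul, map_pow, map_ofNat, map_natCast] at this ⊢
    linear_combination (-io D (a n) * 5 ^ k * y ^ d) * this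
  | zero => exact Good.zero
  | add _ _ h1 h2 => exact h1.add h2

end Pool.Agent.H24.Ap
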