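import Pool.Agent.H24.Ap2

open Finset

namespace Pool.Agent.H24.Ap

variable {D : Type} [CommRing D] [Algebra ℚ_[5] D]

noncomputable def ch : ℕ → D → D
  | 0, _ => 1
  | i + 1, y => ch i y * (y - i) * r D i

theorem ch_mul (i : ℕ) (y : D) : ch i y * (y - i) = (i + 1) * ch (i + 1) y := by
  rw [ch]; linear_combination (-ch i y * (y - i)) * hr (D := D) i

theorem ch_pascal (i : ℕ) (y : D) : ch (i + 1) (y + 1) = ch (i + 1) y + ch i y := by
  induction i with
  | zero =>
    have := hr (D := D) 0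
    simp only [ch]; push_cast at this ⊢; linear_combination this
  | succ i ih =>
    have h1 := hr (D := D) (i + 1)
    rw [ch, ih, ch.eq_2 y (i + 1)]
    push_cast at h1 ⊢
    linear_combination r D (i + 1) * ch_mul i y + ch (i + 1) y * h1

theorem ch_nil (i : ℕ) : ∃ c : D, ∀ x, x * x = 0 → ch (i + 1) x = c * x := by
  induction i with
  | zero => exact ⟨r D 0, fun x _ => by simp [ch, mul_comm]⟩
  | succ i ih =>
    obtain ⟨c, hc⟩ := ih
    refine ⟨-c * (i + 1) * r D (i + 1), fun x hx => ?_⟩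
    rw [ch, hc x hx]; push_cast
    linear_combination c * r D (i + 1) * hx

theorem ch_mem {z : ℕ → D → D} (hz : Mem 4 1 z) (i : ℕ) :
    Mem 4 i fun n y => (i.factorial : D) * ch i (z n y) := by
  induction i with
  | zero => exact (Mem.int 1).congr fun _ _ => by simp [ch]
  | succ i ih =>
    refine (ih.mul (hz.sub ((Mem.int i).le (by simp)))).congr fun n y => ?_
    rw [Nat.factorial_succ]; push_cast
    linear_combination (-(i.factorial : D)) * ch_mul i (z n y)

inductive N (t : ℤ) (s : ℕ) : (D → D) → Prop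
  | mono (a : ℤ_[5]) (e i : ℕ) (h : 4 * (i : ℤ) + t ≤ 5 * e) (hs : s ≤ e) :
      N t s fun y => io D a * 5 ^ e * ch i y
  | zero : N t s fun _ => 0
  | add {f g : D → D} : N t s f → N t s g → N t s fun y => f y + g y

namespace N

variable {t t' : ℤ} {s s' : ℕ} {f : D → D}

theorem congr {g : D → D} (h : N t s f) (e : ∀ y, g y = f y) : N t s g := by
  rwa [funext e]

theorem le (h : N t s f) (ht : t' ≤ t) (hs : s' ≤ s) : N t' s' f := by
  induction h with
  | mono a e i h h' => exact mono a e i (by omega) (by omega)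
  | zero => exact zero
  | add _ _ h1 h2 => exact add h1 h2

theorem sm (h : N t s f) (c : ℤ_[5]) (k : ℕ) :
    N (t + 5 * k) (s + k) fun y => io D c * 5 ^ k * f y := by
  induction h with
  | mono a e i h h' =>
    exact (mono (c * a) (e + k) i (by push_cast; omega) (by omega)).congr
      fun y => by rw [map_mul]; ring
  | zero => exact zero.congr fun _ => mul_zero _
  | add _ _ h1 h2 => exact (add h1 h2).congr fun _ => mul_add _ _ _

theorem X (h : N t s f) : N (t - 4) s fun y => y * f y := by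
  induction h with
  | mono a e i h h' =>
    refine (add (mono (a * (i + 1)) e (i + 1) (by push_cast; omega) h')
      (mono (a * i) e i (by omega) h')).congr fun y => ?_
    simp only [map_mul, map_add, map_natCast, map_one]
    linear_combination io D a * 5 ^ e * ch_mul i y
  | zero => exact zero.congr fun _ => mul_zero _
  | add _ _ h1 h2 => exact (add h1 h2).congr fun _ => mul_add _ _ _

theorem sum (h : N t s f) : ∃ (g : D → D) (c : D), N (t - 4) s g ∧
    (∀ y, g (y + 1) - g y = f y) ∧ ∀ x, x * x = 0 → g x = c * x := by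
  induction h with
  | mono a e i h h' =>
    obtain ⟨c, hc⟩ := ch_nil (D := D) i
    exact ⟨_, io D a * 5 ^ e * c, mono a e (i + 1) (by push_cast; omega) h',
      fun y => by rw [ch_pascal]; ring, fun x hx => by rw [hc x hx]; ring⟩
  | zero => exact ⟨_, 0, zero, by simp, by simp⟩
  | add _ _ h1 h2 =>
    obtain ⟨g, c, a1, a2, a3⟩ := h1
    obtain ⟨g', c', b1, b2, b3⟩ := h2
    exact ⟨_, c + c', add a1 b1, fun y => by linear_combination a2 y + b2 y,
      fun x hx => by linear_combination a3 x hx + b3 x hx⟩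

theorem comp (h : N 0 s f) (hs : ∀ i e v : ℕ, 4 * i ≤ 5 * e → s ≤ e → (4 * v + 1 ≤ i ∨ v = 0) →
    s' + v ≤ e ∧ i + 4 * v + 4 * s' ≤ 4 * e + 5) {z : ℕ → D → D} (hz : Mem 4 1 z) :
    ∃ g, Mem 4 5 g ∧ ∀ n y, f (z n y) = 5 ^ s' * g n y := by
  induction h with
  | mono a e i h h' =>
    obtain ⟨v, c, hc, hv⟩ := fact_val i
    obtain ⟨h1, h2⟩ := hs i e v (by omega) h' hv
    obtain ⟨k, rfl⟩ : ∃ k, e = s' + v + k := ⟨e - s' - v, by omega⟩
    refine ⟨_, ((Mem.lip (Lip.const (a * c))).mul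
      (Mem.five (j := 5) k ((ch_mem hz i).le (by omega)))).le (by simp), fun n y => ?_⟩
    have := congrArg (io D) hc
    simp only [map_mul, map_pow, map_ofNat, map_natCast] at this ⊢
    linear_combination (-io D a * 5 ^ s' * 5 ^ k * ch i (z n y)) * this
  | zero => exact ⟨_, Mem.zero, by simp⟩
  | add _ _ h1 h2 =>
    obtain ⟨g, a1, a2⟩ := h1
    obtain ⟨g', b1, b2⟩ := h2
    exact ⟨_, a1.add b1, fun n y => by linear_combination a2 n y + b2 n y⟩

end N

noncomputable def rho (y : D) : D :=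
  io D i24 * (250 * y + 875 * y ^ 2 + 1250 * y ^ 3 + 625 * y ^ 4)

theorem N.rh {s : ℕ} {f : D → D} (h : N 0 s f) : N 4 (s + 3) fun y => rho y * f y := by
  refine (((((h.X.sm (2 * i24) 3).le (by norm_num) le_rfl).add
    ((h.X.X.sm (7 * i24) 3).le (by norm_num) le_rfl)).add
    ((h.X.X.X.sm (2 * i24) 4).le (by norm_num) (by simp))).add
    ((h.X.X.X.X.sm i24 4).le (by norm_num) (by simp))).congr fun y => ?_
  simp only [map_mul, map_ofNat, rho]; ring

theorem exists_H (K : ℕ) : ∃ (H E : D → D) (c : D), N 0 3 (fun y => H y - 1) ∧ N 0 (3 * K) E ∧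
    (∀ y, H (y + 1) - H y = rho y * (H y - E y)) ∧ ∀ x, x * x = 0 → H x = 1 + c * x := by
  induction K with
  | zero =>
    exact ⟨fun _ => 1, fun _ => 1, 0, N.zero.congr (by simp),
      (N.mono 1 0 0 (by simp) le_rfl).congr (by simp [ch]), by simp, by simp⟩
  | succ K ih =>
    obtain ⟨H, E, c, h1, h2, h3, h4⟩ := ih
    obtain ⟨g, c', g1, g2, g3⟩ := h2.rh.sum
    refine ⟨fun y => H y + g y, g, c + c', (h1.add (g1.le le_rfl (by simp))).congr
      fun y => by ring, g1, fun y => ?_, fun x hx => ?_⟩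
    · linear_combination h3 y + g2 y
    · linear_combination h4 x hx + g3 x hx

def Zs (f : ℕ → D → D) : Prop := ∃ g, Mem 4 5 g ∧ ∀ n y, f n y = 1 + 125 * g n y

theorem Zs.mem {f : ℕ → D → D} (h : Zs f) : Mem 4 0 f := by
  obtain ⟨g, h1, h2⟩ := h
  exact ((Mem.int 1).add (Mem.five 3 (h1.le (by norm_num)))).congr fun n y => by
    rw [h2]; norm_num

theorem Zs.mul {f f' : ℕ → D → D} (h : Zs f) (h' : Zs f') : Zs fun n y => f n y * f' n y := by
  have m := h'.mem
  obtain ⟨g, h1, h2⟩ := h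
  obtain ⟨g', h1', h2'⟩ := h'
  exact ⟨_, h1'.add (h1.mul m), fun n y => by linear_combination h2' n y + f' n y * h2 n y⟩

theorem rho_Z : Zs fun _ (y : D) => 1 + rho y := by
  refine ⟨_, (((Mem.lip (Lip.const i24)).mul ((((Mem.Y.cmul 2).le (by norm_num : 1 ≤ 4)).add
    (((Mem.Y.pow 2).cmul 7).le (by norm_num))).add (((Mem.Y.pow 3).cmul 10).le (by norm_num))
    |>.add ((Mem.Y.pow 4).cmul 5)))).le (by norm_num), fun n y => ?_⟩
  simp only [rho]; push_cast; ring

/-- first order jets in s = 5n, t = 5y -/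
def Jet (f : ℕ → D → D) (c a b : ℤ) : Prop :=
  Mem 4 0 f ∧ ∃ g, Mem 4 2 g ∧ ∀ n y, f n y = c + 5 * (b * y + a * n) + 25 * g n y

theorem Jet.lin (c a b : ℤ) : Jet (fun n (y : D) => c + 5 * (b * y + a * n)) c a b :=
  ⟨((Mem.int c).add (Mem.five 1 ((Mem.lin b a 0).le (by norm_num)))).congr
    fun n y => by push_cast; ring, _, Mem.zero, fun n y => by simp⟩

theorem Jet.add {f f' : ℕ → D → D} {c a b c' a' b' : ℤ} (h : Jet f c a b) (h' : Jet f' c' a' b') :
    Jet (fun n y => f n y + f' n y) (c + c') (a + a') (b + b') := by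
  obtain ⟨m, g, h1, h2⟩ := h
  obtain ⟨m', g', h1', h2'⟩ := h'
  exact ⟨m.add m', _, h1.add h1', fun n y => by push_cast; linear_combination h2 n y + h2' n y⟩

theorem Jet.mul {f f' : ℕ → D → D} {c a b c' a' b' : ℤ} (h : Jet f c a b) (h' : Jet f' c' a' b') :
    Jet (fun n y => f n y * f' n y) (c * c') (c * a' + a * c') (c * b' + b * c') := by
  obtain ⟨m, g, h1, h2⟩ := h
  obtain ⟨m', g', h1', h2'⟩ := h'
  refine ⟨m.mul m', _, (((Mem.lin b a 0).mul (Mem.lin b' a' 0)).add (h1.mul m')).add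
    (((Jet.lin c a b).1.mul h1').le (by simp)), fun n y => ?_⟩
  push_cast
  linear_combination f' n y * h2 n y + (c + 5 * (b * y + a * n)) * h2' n y

end Pool.Agent.H24.Ap
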