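import Pool.Agent.H24.Ap3

open Finset

namespace Pool.Agent.H24.Ap

variable {D : Type} [CommRing D] [Algebra ℚ_[5] D]

noncomputable def G (a : ℕ) (x : D) : D := ∏ j ∈ range a, (1 + rho (j + x))

theorem G_succ (a : ℕ) (x : D) : G (a + 1) x = G a x * (1 + rho (a + x)) := prod_range_succ _ _

theorem q_rho (y : D) : 24 * (1 + rho y) = (5 * y + 1) * (5 * y + 2) * (5 * y + 3) * (5 * y + 4) := by
  rw [rho]
  linear_combination (250 * y + 875 * y ^ 2 + 1250 * y ^ 3 + 625 * y ^ 4) * h24 (D := D)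

theorem F5 (a : ℕ) (x : D) : F (5 * a) (5 * x) = 120 ^ a * F a x * G a x := by
  induction a with
  | zero => simp [F, G]
  | succ a ih =>
    rw [show 5 * (a + 1) = 5 * a + 1 + 1 + 1 + 1 + 1 by ring, F_succ, F_succ, F_succ, F_succ,
      F_succ, ih, F_succ, G_succ]
    push_cast
    linear_combination (-120 ^ a * F a x * G a x * 5 * (a + 1 + x)) * q_rho (a + x)

omit [Algebra ℚ_[5] D] in
theorem F_add (a k : ℕ) (z : D) : F (a + k) z = F a z * F k (a + z) := by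
  rw [F, prod_range_add, F, F]; congr 1
  exact prod_congr rfl fun i _ => by push_cast; ring

variable {x : D}

theorem I_add (hx : x * x = 0) (a k : ℕ) : I a x = I (a + k) x * F k (a + x) := by
  have := FI (a + k) hx
  rw [F_add] at this
  linear_combination (I (a + k) x * F k (a + x)) * FI a hx - I a x * this

theorem I5 (hx : x * x = 0) (a : ℕ) : I (5 * a) (5 * x) * 120 ^ a * G a x = I a x := by
  have := FI (5 * a) (x := 5 * x) (by linear_combination 25 * hx)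
  rw [F5] at this
  linear_combination I a x * this - (I (5 * a) (5 * x) * 120 ^ a * G a x) * FI a hx

theorem canc120 (a : ℕ) {u v : D} (h : 120 ^ a * u = 120 ^ a * v) : u = v := by
  induction a with
  | zero => simpa using h
  | succ a ih => exact ih (canc 119 (by push_cast; linear_combination h))

def pol (k : ℕ) (n y : D) : D :=
  F k (5 * n + 5 * y) * F (4 - k) (5 * y + k) ^ 2 * F k (5 * n - 5 * y - k)

theorem Ek (hx : x * x = 0) (l m k : ℕ) (hk : k < 5) (hm : k ≤ 5 * m) :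
    A (5 * x) (5 * (l + m)) (5 * l + k) * G (l + 1) x ^ 2 * G m (-x) * 576 =
      A x (l + m) l * G (l + m + l) x * pol k ((l + m : ℕ) : D) (l + x) := by
  have hx5 : (5 * x) * (5 * x) = 0 := by linear_combination 25 * hx
  have hn : (-x) * (-x) = 0 := by linear_combination hx
  have a1 := F_add (5 * (l + m + l)) k (5 * x)
  have b1 := I_add hx5 (5 * l + k) (4 - k + 1)
  rw [show 5 * l + k + (4 - k + 1) = 5 * (l + 1) by omega, F_succ] at b1
  have b2 := I5 hx (l + 1)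
  have b3 := I_succ l hx
  have b4 : I (5 * l + k) (5 * x) * 120 ^ l * 24 * G (l + 1) x =
      F (4 - k) (5 * (l + x) + k) * I l x := by
    apply canc 4
    rw [b1, ← b3, ← b2, Nat.cast_sub (by omega)]
    push_cast
    rw [show 5 * (l : D) + k + 5 * x = 5 * (l + x) + k by ring]
    ring
  have c1 := I_add (x := 5 * -x) (by linear_combination 25 * hx) (5 * m - k) k
  rw [Nat.sub_add_cancel hm, Nat.cast_sub hm] at c1
  have c2 := I5 hn m
  apply canc120 (l + m + l)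
  rw [A, A, pol, show 5 * (l + m) + (5 * l + k) = 5 * (l + m + l) + k by ring, a1, F5,
    show 5 * (l + m) - (5 * l + k) = 5 * m - k by omega, Nat.add_sub_cancel_left,
    show -(5 * x) = 5 * -x by ring, c1, ← c2]
  push_cast
  rw [show 5 * ((l : D) + m + l) + 5 * x = 5 * (l + m) + 5 * (l + x) by ring,
    show 5 * (m : D) - k + 5 * -x = 5 * (l + m) - 5 * (l + x) - k by ring]
  linear_combination (120 ^ (l + m + l) * F (l + m + l) x * G (l + m + l) x *
    F k (5 * (l + m) + 5 * (l + x)) * (I (5 * m) (5 * -x) * 120 ^ m * G m (-x)) *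
    F k (5 * (l + m) - 5 * (l + x) - k) * (I (5 * l + k) (5 * x) * 120 ^ l * 24 * G (l + 1) x +
      F (4 - k) (5 * (l + x) + k) * I l x)) * b4

def Sm (L : Subring D) (c z : D) : Prop := ∃ w ∈ L, z = c * w

structure App (L : Subring D) (x : D) (K : ℕ) (H : D → D) : Prop where
  z : ∀ z, Mem 4 1 z → Zs fun n y => H (z n y)
  e : ∀ y ∈ L, Sm L (5 ^ K) (H (y + 1) - (1 + rho y) * H y)
  n : H x * H (-x) = 1

variable {L : Subring D}

theorem rho_mem (hL : ∀ z, io D z ∈ L) {y : D} (hy : y ∈ L) : 1 + rho y ∈ L :=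
  rho_Z.mem.mem L hL 0 hy

theorem exists_App (hL : ∀ z, io D z ∈ L) (hx : x * x = 0) (K : ℕ) : ∃ H, App L x K H := by
  obtain ⟨H, E, c, h1, h2, h3, h4⟩ := exists_H (D := D) K
  refine ⟨H, fun z hz => ?_, fun y hy => ?_, ?_⟩
  · obtain ⟨g, g1, g2⟩ := h1.comp (s' := 3) (fun i e v _ _ _ => by
      rcases (by omega : e = 3 ∨ e = 4 ∨ 5 ≤ e) with rfl | rfl | h <;> omega) hz
    exact ⟨g, g1, fun n y => by linear_combination g2 n y⟩
  · obtain ⟨g, g1, g2⟩ := h2.comp (s' := K) (by omega) Mem.Y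
    refine ⟨(1 - (1 + rho y)) * g 0 y, L.mul_mem (L.sub_mem L.one_mem (rho_mem hL hy))
      (g1.mem L hL 0 hy), ?_⟩
    linear_combination h3 y - rho y * g2 0 y
  · rw [h4 x hx, h4 (-x) (by simpa using hx)]
    linear_combination (-c ^ 2) * hx

variable {K : ℕ} {H : D → D}

theorem App.mem (h : App L x K H) (hL : ∀ z, io D z ∈ L) {y : D} (hy : y ∈ L) : H y ∈ L :=
  (h.z _ Mem.Y).mem.mem L hL 0 hy

theorem G_mem (hL : ∀ z, io D z ∈ L) {y : D} (hy : y ∈ L) (a : ℕ) : G a y ∈ L :=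
  L.prod_mem fun j _ => rho_mem hL (L.add_mem (natCast_mem L j) hy)

omit [Algebra ℚ_[5] D] in
theorem F_mem {y : D} (hy : y ∈ L) (a : ℕ) : F a y ∈ L :=
  L.prod_mem fun j _ => L.add_mem (L.add_mem (natCast_mem L j) L.one_mem) hy

theorem App.a1 (h : App L x K H) (hL : ∀ z, io D z ∈ L) {y : D} (hy : y ∈ L) (a : ℕ) :
    Sm L (5 ^ K) (H (a + y) - G a y * H y) := by
  induction a with
  | zero => exact ⟨0, L.zero_mem, by simp [G]⟩
  | succ a ih =>
    obtain ⟨w, hw, e⟩ := ih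
    have hy' := L.add_mem (natCast_mem L a) hy
    obtain ⟨w', hw', e'⟩ := h.e _ hy'
    refine ⟨w' + (1 + rho (a + y)) * w, L.add_mem hw' (L.mul_mem (rho_mem hL hy') hw), ?_⟩
    rw [G_succ, show ((a + 1 : ℕ) : D) + y = a + y + 1 by push_cast; ring]
    linear_combination e' + (1 + rho (a + y)) * e

theorem App.a2 (h : App L x K H) (hL : ∀ z, io D z ∈ L) {y : D} (hy : y ∈ L) (a : ℕ) :
    Sm L (5 ^ K) (H (-(a + y)) * G a y - H (-y)) := by
  induction a with
  | zero => exact ⟨0, L.zero_mem, by simp [G]⟩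
  | succ a ih =>
    obtain ⟨w, hw, e⟩ := ih
    obtain ⟨w', hw', e'⟩ := h.e _ (L.neg_mem (L.add_mem (natCast_mem L (a + 1)) hy))
    refine ⟨w - w' * G a y, L.sub_mem hw (L.mul_mem hw' (G_mem hL hy a)), ?_⟩
    rw [show -(((a + 1 : ℕ) : D) + y) + 1 = -(a + y) by push_cast; ring,
      show rho (-(((a + 1 : ℕ) : D) + y)) = rho (a + y) by
        simp only [rho]; push_cast; ring] at e'
    rw [G_succ]
    linear_combination e - G a y * e'

def Hp (H : D → D) (n y : D) : D := H (n + y) * H (-y - 1) ^ 2 * H (y - n)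

theorem App.term (h : App L x K H) (hL : ∀ z, io D z ∈ L) (hxL : x ∈ L) (hx : x * x = 0)
    (l m k : ℕ) (hk : k < 5) (hm : k ≤ 5 * m) : ∃ w1 ∈ L, ∃ w2 ∈ L,
      576 ^ 2 * A (5 * x) (5 * (l + m)) (5 * l + k) ^ 2 = A x (l + m) l ^ 2 *
        (Hp H (l + m : ℕ) (l + x) ^ 2 * pol k ((l + m : ℕ) : D) (l + x) ^ 2) +
      5 ^ K * (A (5 * x) (5 * (l + m)) (5 * l + k) ^ 2 * w1 + A x (l + m) l ^ 2 * w2) := by
  obtain ⟨a1, m1, e1⟩ := h.a2 hL hxL (l + 1)
  obtain ⟨a2, m2, e2⟩ := h.a2 hL (L.neg_mem hxL) m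
  obtain ⟨a3, m3, e3⟩ := h.a1 hL hxL (l + m + l)
  have E := Ek hx l m k hk hm
  have hy : (l : D) + x ∈ L := L.add_mem (natCast_mem L l) hxL
  have hn := natCast_mem L (l + m)
  have h5 : (5 : D) ∈ L := ofNat_mem L 5
  have h2 : (2 : D) ∈ L := ofNat_mem L 2
  have p1 := h.mem hL (L.add_mem hn hy)
  have p2 := h.mem hL (L.sub_mem (L.neg_mem hy) L.one_mem)
  have p3 := h.mem hL (L.sub_mem hy hn)
  have p4 := h.mem hL hxL
  have p5 := h.mem hL (L.neg_mem hxL)
  have p6 : pol k ((l + m : ℕ) : D) (l + x) ∈ L := by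
    have := natCast_mem L k
    unfold pol
    apply_rules [F_mem, L.mul_mem, L.pow_mem, L.add_mem, L.sub_mem]
  rw [show -(((l + 1 : ℕ) : D) + x) = -(l + x) - 1 by push_cast; ring] at e1
  rw [show -((m : D) + -x) = l + x - (l + m : ℕ) by push_cast; ring, neg_neg] at e2
  rw [show ((l + m + l : ℕ) : D) + x = (l + m : ℕ) + (l + x) by push_cast; ring] at e3
  have hN := h.n
  unfold Hp
  generalize H ((l + m : ℕ) + (l + x)) = H1 at *
  generalize H (-(l + x) - 1) = H2 at *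
  generalize H (l + x - (l + m : ℕ)) = H3 at *
  generalize H x = H4 at *
  generalize H (-x) = H5 at *
  generalize pol k ((l + m : ℕ) : D) (l + x) = p at *
  generalize A (5 * x) (5 * (l + m)) (5 * l + k) = A' at *
  generalize A x (l + m) l = A0 at *
  have c5 : (5 : D) ^ K ∈ L := L.pow_mem h5 K
  generalize (5 : D) ^ K = c at *
  have f1 : H2 * G (l + 1) x * H4 = 1 + c * (a1 * H4) := by linear_combination H4 * e1 + hN
  have f2 : H3 * G m (-x) * H5 = 1 + c * (a2 * H5) := by linear_combination H5 * e2 + hN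
  obtain ⟨b1, hb1⟩ : ∃ b1, b1 = 2 * (a1 * H4) + c * (a1 * H4) ^ 2 +
    a2 * H5 * (1 + c * (a1 * H4)) ^ 2 := ⟨_, rfl⟩
  obtain ⟨b2, hb2⟩ : ∃ b2, b2 = -(a3 * H2 ^ 2 * H3) := ⟨_, rfl⟩
  have n1 : b1 ∈ L := by
    rw [hb1]; apply_rules [L.mul_mem, L.pow_mem, L.add_mem, L.one_mem]
  have n2 : b2 ∈ L := by
    rw [hb2]; apply_rules [L.mul_mem, L.pow_mem, L.neg_mem]
  have g1 : 1 + c * b1 = (H2 * G (l + 1) x * H4) ^ 2 * (H3 * G m (-x) * H5) := by
    rw [f1, f2, hb1]; ring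
  have g : 576 * A' * (1 + c * b1) = A0 * p * (H1 * H2 ^ 2 * H3 + c * b2) := by
    rw [g1, hb2]
    linear_combination (H2 ^ 2 * H4 ^ 2 * H3 * H5) * E - A0 * p * H2 ^ 2 * H3 * e3 +
      A0 * p * H2 ^ 2 * H3 * G (l + m + l) x * H4 * hN
  refine ⟨-(576 ^ 2 * (2 * b1 + c * b1 ^ 2)), ?_,
    p ^ 2 * (2 * (H1 * H2 ^ 2 * H3) * b2 + c * b2 ^ 2), ?_, ?_⟩
  · have : (576 : D) ∈ L := ofNat_mem L 576
    apply_rules [L.mul_mem, L.pow_mem, L.add_mem, L.neg_mem]
  · apply_rules [L.mul_mem, L.pow_mem, L.add_mem]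
  · linear_combination (576 * A' * (1 + c * b1) + A0 * p * (H1 * H2 ^ 2 * H3 + c * b2)) * g

end Pool.Agent.H24.Ap
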