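import Pool.Agent.H24.Ap4

open Finset

namespace Pool.Agent.H24.Ap

variable {D : Type} [CommRing D] [Algebra ℚ_[5] D] {L : Subring D} {x : D} {K : ℕ} {H : D → D}

omit [Algebra ℚ_[5] D] in
theorem sum5 (f : ℕ → D) (n : ℕ) :
    ∑ j ∈ range (5 * n), f j = ∑ l ∈ range n, ∑ k ∈ range 5, f (5 * l + k) := by
  induction n with
  | zero => simp
  | succ n ih => rw [mul_add, mul_one, sum_range_add, ih, sum_range_succ _ n]

omit [Algebra ℚ_[5] D] in
theorem Sm.add {c a b : D} (ha : Sm L c a) (hb : Sm L c b) : Sm L c (a + b) := by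
  obtain ⟨w, hw, rfl⟩ := ha
  obtain ⟨w', hw', rfl⟩ := hb
  exact ⟨_, L.add_mem hw hw', (mul_add _ _ _).symm⟩

omit [Algebra ℚ_[5] D] in
theorem Sm.sum {c : D} {s : Finset ℕ} {f : ℕ → D} (h : ∀ i ∈ s, Sm L c (f i)) :
    Sm L c (∑ i ∈ s, f i) :=
  sum_induction _ _ (fun _ _ => Sm.add) ⟨0, L.zero_mem, by simp⟩ h

noncomputable def Psi (H f : D → D) (n y : D) : D :=
  Hp H n y ^ 2 * ∑ k ∈ range 5, pol k n y ^ 2 * f (5 * y + k)

theorem main (hL : ∀ z, io D z ∈ L) (hxL : x ∈ L) (hx : x * x = 0) (n : ℕ) (c : D) (J : ℕ)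
    (h1 : ∀ j ≤ 5 * n, Sm L c (5 ^ J * A (5 * x) (5 * n) j ^ 2))
    (h2 : ∀ j ≤ n, Sm L c (5 ^ J * A x n j ^ 2)) (h : App L x (K + J) H) (f : D → D)
    (hf : ∀ z ∈ L, f z ∈ L) :
    Sm L (5 ^ K * c) (576 ^ 2 * S (5 * x) (5 * n) f - S x n (Psi H f n)) := by
  have T : ∀ l k, l ≤ n → k < 5 → 5 * l + k ≤ 5 * n → Sm L (5 ^ K * c)
      (576 ^ 2 * (A (5 * x) (5 * n) (5 * l + k) ^ 2 * f ((5 * l + k : ℕ) + 5 * x)) - A x n l ^ 2 *
        (Hp H n (l + x) ^ 2 * (pol k (n : D) (l + x) ^ 2 * f (5 * (l + x) + k)))) := by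
    intro l k hl hk hlk
    obtain ⟨m, rfl⟩ := Nat.exists_eq_add_of_le hl
    obtain ⟨w1, m1, w2, m2, e⟩ := h.term hL hxL hx l m k hk (by omega)
    obtain ⟨v1, n1, e1⟩ := h1 _ hlk
    obtain ⟨v2, n2, e2⟩ := h2 _ hl
    have hz := hf _ (L.add_mem (L.mul_mem (ofNat_mem L 5) (L.add_mem (natCast_mem L l) hxL))
      (natCast_mem L k))
    rw [show ((5 * l + k : ℕ) : D) + 5 * x = 5 * (l + x) + k by push_cast; ring]
    refine ⟨(v1 * w1 + v2 * w2) * f (5 * (l + x) + k),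
      L.mul_mem (L.add_mem (L.mul_mem n1 m1) (L.mul_mem n2 m2)) hz, ?_⟩
    linear_combination f (5 * (l + x) + k) * (e + 5 ^ K * (w1 * e1 + w2 * e2))
  rw [S, S, sum_range_succ, sum_range_succ, sum5, mul_add, add_sub_add_comm, mul_sum,
    ← sum_sub_distrib]
  refine (Sm.sum fun l hl => ?_).add ?_
  · have := mem_range.1 hl
    rw [Psi, mul_sum, mul_sum, mul_sum, ← sum_sub_distrib]
    exact Sm.sum fun k hk => T l k this.le (mem_range.1 hk) (by have := mem_range.1 hk; omega)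
  · have e : ∑ k ∈ range 4, pol (k + 1) (n : D) (n + x) ^ 2 * f (5 * (n + x) + (k + 1 : ℕ)) = 0 := by
      refine sum_eq_zero fun k _ => ?_
      rw [pol, F_succ k (5 * (n : D) - _ - _)]
      push_cast
      linear_combination (F (k + 1) (5 * n + 5 * (n + x)) * F (3 - k) (5 * (n + x) + (k + 1))
        ^ 2 * F k (5 * n - 5 * (n + x) - (k + 1))) ^ 2 * 25 * f (5 * (n + x) + (k + 1)) * hx
    rw [Psi, sum_range_succ', e, zero_add]
    exact T n 0 le_rfl (by norm_num) le_rfl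

set_option maxRecDepth 100000 in
theorem jets : ∃ (f1 f2 : ℕ → D → D) (c a b c' a' b' : ℤ), Jet f1 c a b ∧ Jet f2 c' a' b' ∧
    c = 472320 ∧ c' = 15925248 ∧ a' = 0 ∧ b' = 132710400 ∧ ∀ (n : ℕ) (y : D),
      ∑ k ∈ range 5, pol k (n : D) y ^ 2 * 1 = (24 * (1 + rho y)) ^ 4 + 25 * (n - y) ^ 2 * f1 n y ∧
      ∑ k ∈ range 5, pol k (n : D) y ^ 2 * w ((5 * n : ℕ) : D) (5 * y + k) =
        (24 * (1 + rho y)) ^ 4 * w (5 * n : D) (5 * y) + 25 * (n - y) ^ 2 * f2 n y := by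
  have a := fun i => Jet.lin (D := D) i 1 1
  have b := fun i => Jet.lin (D := D) i 0 1
  have c := fun i => Jet.lin (D := D) i 1 (-1)
  have s := fun i => Jet.lin (D := D) i 1 0
  have o := fun i => Jet.lin (D := D) i 0 0
  have p1 := (a 1).mul ((((b 2).mul (b 3)).mul (b 4)).mul (((b 2).mul (b 3)).mul (b 4)))
  have p2 := (((a 1).mul (a 2)).mul (c (-1))).mul (((b 3).mul (b 4)).mul ((b 3).mul (b 4)))
  have p3 := (((((a 1).mul (a 2)).mul (a 3)).mul (c (-1))).mul (c (-2))).mul ((b 4).mul (b 4))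
  have p4 := ((((((a 1).mul (a 2)).mul (a 3)).mul (a 4)).mul (c (-1))).mul (c (-2))).mul (c (-3))
  have v := fun i => ((((o 12).mul (b i)).mul (b i)).add
    ((((o (-24)).mul (s 0)).mul (s 1)).mul (b i))).add
    (((s 0).mul (s 0)).mul (((o 17).mul (s 0)).add (o 12)))
  refine ⟨_, _, _, _, _, _, _, _,
    (((p1.mul p1).add (p2.mul p2)).add (p3.mul p3)).add (p4.mul p4),
    ((((p1.mul p1).mul (v 1)).add ((p2.mul p2).mul (v 2))).add ((p3.mul p3).mul (v 3))).add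
      ((p4.mul p4).mul (v 4)), by norm_num, by norm_num, by norm_num, by norm_num, fun n y => ?_⟩
  rw [q_rho]
  simp only [sum_range_succ, range_zero, sum_empty, pol, F, prod_range_succ, prod_empty, w,
    Nat.reduceSub]
  push_cast
  constructor <;> ring

theorem psi (h : App L x K H) : ∃ g1 g2 : ℕ → D → D, Mem 4 5 g1 ∧ Mem 4 5 g2 ∧ ∀ (n : ℕ) (y : D),
    io D i24 ^ 4 * Psi H (fun _ => 1) n y = 1 + 125 * g1 n y ∧
    io D i24 ^ 4 * Psi H (w ((5 * n : ℕ) : D)) n y = 125 * w (n : D) y + 625 * g2 n y := by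
  obtain ⟨f1, f2, c, a, b, _, _, _, ⟨-, k1, m1, e1⟩, ⟨-, k2, m2, e2⟩, rfl, rfl, rfl, rfl, e⟩ :=
    jets (D := D)
  have z1 : Zs fun n (y : D) => Hp H n y := by
    obtain ⟨g, g1, g2⟩ := ((h.z _ (Mem.lin 1 1 0)).mul ((h.z _ (Mem.lin (-1) 0 (-1))).mul
      (h.z _ (Mem.lin (-1) 0 (-1))))).mul (h.z _ (Mem.lin 1 (-1) 0))
    refine ⟨g, g1, fun n y => ?_⟩
    rw [← g2]
    simp [Hp, add_comm, sub_eq_add_neg, pow_two]
  have z2 := z1.mul z1
  have m0 := z2.mem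
  obtain ⟨g, g1, g2⟩ := z2.mul ((rho_Z.mul rho_Z).mul (rho_Z.mul rho_Z))
  obtain ⟨g', g1', g2'⟩ := z2
  have d2 := (Mem.lin (D := D) (s := 4) (-1) 1 0).pow 2
  have d0 := ((Mem.lip (D := D) (s := 4) (Lip.const i24)).pow 4).mul m0
  have l1 := (((Mem.int (D := D) (s := 4) 94464).le (j := 1) (by simp)).add (Mem.lin b a 0)).add
    (Mem.five (j := 1) 1 (m1.le (by simp)))
  have l2 := ((Mem.Y.cmul 26542080).le (by norm_num)).add m2
  have w2 : Mem 4 2 fun n (y : D) => 12 * y ^ 2 - 24 * (n * (5 * n + 1)) * y +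
      (85 * n + 12) * n ^ 2 := by
    have n := Mem.nn (D := D) (s := 4)
    refine ((((Mem.Y.pow 2).cmul 12).sub ((((n.mul ((n.cmul 5).add (Mem.int 1))).cmul 24).mul
      Mem.Y).le (by simp))).add ((((n.cmul 85).add (Mem.int 12)).mul (n.pow 2)).le
      (by simp))).congr fun n y => by push_cast; ring
  refine ⟨_, _, g1.add (((d2.mul d0).mul l1).le (by simp)),
    ((Mem.five (j := 5) 1 ((g1.mul w2).le (by simp))).add (Mem.five (j := 5) 1
      (((g1'.mul d2).cmul 48).le (by simp)))).add (((d2.mul d0).mul l2).le (by simp)),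
    fun n y => ?_⟩
  have a1 := e1 n y
  have a2 := e2 n y
  have a3 := g2 n y
  have a4 := g2' n y
  have a5 : (24 * io D i24) ^ 4 = 1 := by rw [h24, one_pow]
  simp only [] at a3 a4
  rw [Psi, Psi, (e n y).1, (e n y).2, a1, a2]
  simp only [w]
  push_cast
  constructor
  · linear_combination a3 + Hp H n y ^ 2 * (1 + rho y) ^ 4 * a5
  · linear_combination 25 * (12 * y ^ 2 - 24 * (n * (5 * n + 1)) * y + (85 * n + 12) * n ^ 2) *
      (a3 + Hp H n y ^ 2 * (1 + rho y) ^ 4 * a5) +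
      1200 * (n - y) ^ 2 * (a4 + Hp H n y ^ 2 * a5)

end Pool.Agent.H24.Ap
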