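import Pool.Agent.H24.Ap5

open Finset TrivSqZeroExt

namespace Pool.Agent.H24.Ap

abbrev DD := DualNumber ℚ_[5]

noncomputable def ep : DD := DualNumber.eps

theorem hep : ep * ep = 0 := DualNumber.eps_mul_eps

noncomputable def LL : Subring DD where
  carrier := {z | ∃ a b : ℤ_[5], z = io DD a + io DD b * ep}
  mul_mem' := by
    rintro _ _ ⟨a, b, rfl⟩ ⟨c, d, rfl⟩
    refine ⟨a * c, a * d + b * c, ?_⟩
    simp only [map_mul, map_add]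
    linear_combination io DD b * io DD d * hep
  one_mem' := ⟨1, 0, by simp⟩
  add_mem' := by
    rintro _ _ ⟨a, b, rfl⟩ ⟨c, d, rfl⟩
    exact ⟨a + c, b + d, by simp only [map_add]; ring⟩
  zero_mem' := ⟨0, 0, by simp⟩
  neg_mem' := by
    rintro _ ⟨a, b, rfl⟩
    exact ⟨-a, -b, by simp only [map_neg]; ring⟩

theorem hLL (z : ℤ_[5]) : io DD z ∈ LL := ⟨z, 0, by simp⟩

theorem epL : ep ∈ LL := ⟨0, 1, by simp⟩

theorem clear (q : ℚ_[5]) : ∃ J : ℕ, ∃ a : ℤ_[5], 5 ^ J * q = a := by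
  obtain ⟨J, hJ⟩ := pow_unbounded_of_one_lt ‖q‖ (by norm_num : (1 : ℝ) < 5)
  refine ⟨J, ⟨5 ^ J * q, ?_⟩, rfl⟩
  have : ‖(5 : ℚ_[5])‖ = 5⁻¹ := by simpa using Padic.norm_p (p := 5)
  rw [norm_mul, norm_pow, this, inv_pow, inv_mul_le_iff₀ (by positivity)]
  linarith

theorem u_pos (n : ℕ) : 0 < u n := by
  rw [u, sum_range_succ']; simp

theorem clearD (n : ℕ) (z : DD) : ∃ J : ℕ, ∀ J' ≥ J, Sm LL (u n) (5 ^ J' * z) := by
  have hu : (u n : ℚ_[5]) ≠ 0 := by exact_mod_cast (u_pos n).ne'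
  obtain ⟨J1, a, ha⟩ := clear (z.fst / u n)
  obtain ⟨J2, b, hb⟩ := clear (z.snd / u n)
  refine ⟨J1 + J2, fun J' h => ?_⟩
  obtain ⟨e, rfl⟩ := Nat.exists_eq_add_of_le h
  refine ⟨_, ⟨5 ^ (J2 + e) * a, 5 ^ (J1 + e) * b, rfl⟩, ?_⟩
  have hz : z = algebraMap _ DD z.fst + algebraMap _ DD z.snd * ep := by
    ext <;> simp [ep, algebraMap_eq_inl]
  field_simp at ha hb
  have ha' := congrArg (algebraMap _ DD) ha
  have hb' := congrArg (algebraMap _ DD) hb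
  simp only [map_mul, map_pow, map_ofNat, map_natCast] at ha' hb' ⊢
  have i1 : ∀ a : ℤ_[5], io DD a = algebraMap _ DD (a : ℚ_[5]) := fun _ => rfl
  rw [hz, i1, i1]
  linear_combination 5 ^ (J2 + e) * ha' + 5 ^ (J1 + e) * ep * hb'

theorem clearF (n m : ℕ) (z : ℕ → DD) : ∃ J : ℕ, ∀ J' ≥ J, ∀ j ≤ m, Sm LL (u n) (5 ^ J' * z j) := by
  choose J hJ using fun j => clearD n (z j)
  exact ⟨(range (m + 1)).sup J, fun J' h j hj =>
    hJ j J' ((le_sup (f := J) (mem_range.2 (by omega))).trans h)⟩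

theorem extr {p q b c : ℤ_[5]} {M : ℚ_[5]} {J k : ℕ} {M' : ℤ_[5]} (hM : 5 ^ J * M = M')
    (h : Sm LL (io DD (5 ^ (k + J) * c)) (io DD p - (io DD q + io DD b * (algebraMap _ DD M + ep)))) :
    ∃ e, p = q + 5 ^ k * c * e := by
  obtain ⟨_, ⟨s, t, rfl⟩, h⟩ := h
  have h1 := congrArg fst h
  have h2 := congrArg snd h
  simp [io, ep, algebraMap_eq_inl] at h1 h2
  refine ⟨5 ^ J * s - t * M', Subtype.ext ?_⟩
  push_cast
  rw [show ((5 : ℤ_[5]) : ℚ_[5]) = 5 from rfl] at *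
  linear_combination h1 - M * h2 - 5 ^ k * c * t * hM

theorem frob1 (n k : ℕ) : ∃ J, ∀ K ≥ J, ∀ H, App LL ep K H → ∀ (f : DD → DD) (p q b : ℤ_[5]),
    (∀ z ∈ LL, f z ∈ LL) → S (5 * ep) (5 * n) f = io DD p →
    io DD i24 ^ 4 * S ep n (Psi H f n) = io DD q + io DD b * S ep n (fun y => y) →
    ∃ e, p = q + 5 ^ k * u n * e := by
  obtain ⟨J1, h1⟩ := clearF n (5 * n) fun j => A (5 * ep) (5 * n) j ^ 2
  obtain ⟨J2, h2⟩ := clearF n n fun j => A ep n j ^ 2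
  obtain ⟨M, hM⟩ := S_id hep n
  obtain ⟨J, M', hM'⟩ := clear M
  refine ⟨k + J + (J1 + J2), fun K hK H hH f p q b hf e1 e2 => extr (b := b) hM' ?_⟩
  obtain ⟨e, rfl⟩ := Nat.exists_eq_add_of_le hK
  rw [add_assoc] at hH
  obtain ⟨v, hv, ev⟩ := main hLL epL hep n _ _ (h1 _ (by omega)) (h2 _ (by omega)) hH f hf
  refine ⟨io DD i24 ^ 4 * v, LL.mul_mem (LL.pow_mem (hLL _) _) hv, ?_⟩
  have a5 : (24 * io DD i24) ^ 4 = 1 := by rw [h24, one_pow]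
  rw [← hM, ← e1, ← e2]
  simp only [map_mul, map_pow, map_ofNat, map_natCast]
  linear_combination io DD i24 ^ 4 * ev - S (5 * ep) (5 * n) f * a5

theorem frob (k n n' : ℕ) (h : n ≡ n' [MOD 5 ^ k]) : ∃ a b c d a' b' c' d' : ℤ_[5],
    (u (5 * n) : ℤ_[5]) = a * u n + 125 * b * W n ∧ (W (5 * n) : ℤ_[5]) = 25 * c * u n + 125 * d * W n ∧
    (u (5 * n') : ℤ_[5]) = a' * u n' + 125 * b' * W n' ∧
    (W (5 * n') : ℤ_[5]) = 25 * c' * u n' + 125 * d' * W n' ∧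
    5 ^ k ∣ a - a' ∧ 5 ^ k ∣ b - b' ∧ 5 ^ k ∣ c - c' ∧ 5 ^ k ∣ d - d' ∧
    5 ∣ a - 1 ∧ 5 ∣ d - 1 ∧ 5 ∣ a' - 1 ∧ 5 ∣ d' - 1 := by
  obtain ⟨J, hJ⟩ := frob1 n (k + 2)
  obtain ⟨J', hJ'⟩ := frob1 n' (k + 2)
  obtain ⟨H, hH⟩ := exists_App hLL hep (J + J')
  obtain ⟨g1, g2, m1, m2, e⟩ := psi hH
  obtain ⟨a1, b1, c1, la1, -, lc1, e1⟩ := good_M hep m1
  obtain ⟨a2, b2, c2, la2, -, lc2, e2⟩ := good_M hep m2
  have h5 : (5 * ep) * (5 * ep) = 0 := by linear_combination 25 * hep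
  have k1 : ∀ m, io DD i24 ^ 4 * S ep m (Psi H (fun _ => 1) m) =
      io DD ((1 + 125 * a1 m) * u m + 125 * c1 m * W m) + io DD (125 * b1 m) * S ep m fun y => y := by
    intro m
    rw [← S_mul, funext fun y => (e m y).1, S_add, S_mul, e1, (S_val hep m).1]
    simp only [map_mul, map_add, map_ofNat, map_natCast, map_one]; ring
  have k2 : ∀ m, io DD i24 ^ 4 * S ep m (Psi H (w ((5 * m : ℕ) : DD)) m) =
      io DD (625 * a2 m * u m + (125 + 625 * c2 m) * W m) + io DD (625 * b2 m) * S ep m fun y => y := by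
    intro m
    rw [← S_mul, funext fun y => (e m y).2, S_add, S_mul, S_mul, e2, (S_val hep m).2]
    simp only [map_mul, map_add, map_ofNat, map_natCast]; ring
  have hw : ∀ m : ℕ, ∀ z ∈ LL, w (m : DD) z ∈ LL := fun m z hz => by
    have := natCast_mem LL m
    unfold w
    apply_rules [LL.mul_mem, LL.pow_mem, LL.add_mem, LL.sub_mem, LL.one_mem, ofNat_mem]
  obtain ⟨x1, y1⟩ := hJ _ (by omega) H hH _ (u (5 * n)) _ _ (fun _ _ => LL.one_mem)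
    (by rw [(S_val h5 _).1, map_natCast]) (k1 n)
  obtain ⟨x2, y2⟩ := hJ _ (by omega) H hH _ (W (5 * n)) _ _ (hw _)
    (by rw [(S_val h5 _).2, map_natCast]) (k2 n)
  obtain ⟨x3, y3⟩ := hJ' _ (by omega) H hH _ (u (5 * n')) _ _ (fun _ _ => LL.one_mem)
    (by rw [(S_val h5 _).1, map_natCast]) (k1 n')
  obtain ⟨x4, y4⟩ := hJ' _ (by omega) H hH _ (W (5 * n')) _ _ (hw _)
    (by rw [(S_val h5 _).2, map_natCast]) (k2 n')
  obtain ⟨z1, w1⟩ := la1 k n n' h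
  obtain ⟨z2, w2⟩ := la2 k n n' h
  obtain ⟨z3, w3⟩ := lc2 k n n' h
  refine ⟨1 + 125 * a1 n + 5 ^ (k + 2) * x1, c1 n, 25 * a2 n + 5 ^ k * x2, 1 + 5 * c2 n,
    1 + 125 * a1 n' + 5 ^ (k + 2) * x3, c1 n', 25 * a2 n' + 5 ^ k * x4, 1 + 5 * c2 n',
    by linear_combination y1, by linear_combination y2, by linear_combination y3,
    by linear_combination y4, ⟨125 * z1 + 25 * (x1 - x3), by linear_combination 125 * w1⟩,
    lc1 k n n' h, ⟨25 * z2 + (x2 - x4), by linear_combination 25 * w2⟩,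
    ⟨5 * z3, by linear_combination 5 * w3⟩, ⟨25 * a1 n + 5 ^ (k + 1) * x1, by ring⟩,
    ⟨c2 n, by ring⟩, ⟨25 * a1 n' + 5 ^ (k + 1) * x3, by ring⟩, ⟨c2 n', by ring⟩⟩

end Pool.Agent.H24.Ap
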