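import Pool.Agent.H24.Ap6

namespace Pool.Agent.H24.Ap

section
variable {R : Type} [CommRing R]

def p1 (m : R) : R := (10 * m + 1) * (85 * m ^ 2 + 17 * m + 1)
def p3 (m : R) : R := (2 * m + 1) * (17 * (5 * m + 2) ^ 2 + 17 * (5 * m + 2) + 5)
def A1 (m t : R) : R := p1 m - t
def A2 (m t : R) : R := P (5 * m + 1) * 5 * A1 m t - (5 * m + 1) ^ 6
def A3 (m t : R) : R := p3 m * A2 m t - (5 * m + 2) ^ 6 * A1 m t
def A4 (m t : R) : R := P (5 * m + 3) * 5 * A3 m t - (5 * m + 3) ^ 6 * A2 m t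

theorem cstep (y : ℕ) {a b : R} (h : a * W y = b * u y) :
    (P (y : R) * a - b) * W (y + 1) = (y + 1) ^ 6 * a * u (y + 1) := by
  have e : (W (y + 1) : R) = (y + 1) ^ 3 * u y := by simp [W]
  rw [e]
  linear_combination (y + 1) ^ 3 * h - (y + 1) ^ 3 * a * urec R y

theorem chain (m : ℕ) {t : R} (h : (W (5 * m) : R) = 5 * t * u (5 * m)) :
    A1 (m : R) t * (5 * W (5 * m + 1)) = (5 * m + 1) ^ 6 * u (5 * m + 1) ∧
    A2 (m : R) t * W (5 * m + 2) = (5 * m + 2) ^ 6 * A1 (m : R) t * (5 * u (5 * m + 2)) ∧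
    A3 (m : R) t * (5 * W (5 * m + 3)) = (5 * m + 3) ^ 6 * A2 (m : R) t * u (5 * m + 3) ∧
    A4 (m : R) t * W (5 * m + 4) = (5 * m + 4) ^ 6 * A3 (m : R) t * (5 * u (5 * m + 4)) := by
  have h1 := cstep (5 * m) (a := 1) (b := 5 * t) (by rw [h, one_mul])
  have h2 := cstep _ h1
  have h3 := cstep _ h2
  have h4 := cstep _ h3
  simp only [A4, A3, A2, A1, p1, p3, P, add_assoc, Nat.reduceAdd] at *
  push_cast at *
  exact ⟨by linear_combination h1, by linear_combination h2, by linear_combination h3,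
    by linear_combination h4⟩

theorem mapA {R' : Type} [CommRing R'] (f : R →+* R') (m t : R) :
    f (A1 m t) = A1 (f m) (f t) ∧ f (A2 m t) = A2 (f m) (f t) ∧ f (A3 m t) = A3 (f m) (f t) ∧
    f (A4 m t) = A4 (f m) (f t) ∧ f (p1 m) = p1 (f m) ∧ f (p3 m) = p3 (f m) ∧ f (P m) = P (f m) := by
  simp only [A4, A3, A2, A1, p1, p3, P, map_add, map_sub, map_mul, map_pow, map_ofNat, map_one,
    and_self]

end

noncomputable def ph : ℤ_[5] →+* ZMod 5 := PadicInt.toZMod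

theorem ph_unit {z : ℤ_[5]} (h : ph z ≠ 0) : IsUnit z := by
  by_contra hz
  exact h ((RingHom.mem_ker).1 (PadicInt.ker_toZMod (p := 5) ▸
    (IsLocalRing.mem_maximalIdeal z).2 hz))

theorem ph_zero {z : ℤ_[5]} : ph z = 0 ↔ 5 ∣ z := by
  rw [← RingHom.mem_ker, ph, PadicInt.ker_toZMod, PadicInt.maximalIdeal_eq_span_p,
    Ideal.mem_span_singleton]; rfl

theorem ph5 : (5 : ZMod 5) = 0 := rfl

theorem phA (m t : ℤ_[5]) : ph (A1 m t) = 1 + 2 * ph m - ph t ∧ ph (A2 m t) = -1 ∧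
    ph (A3 m t) = -(1 + 2 * ph m) - ph t ∧ ph (A4 m t) = -1 := by
  obtain ⟨h1, h2, h3, h4, -⟩ := mapA ph m t
  rw [h1, h2, h3, h4]
  generalize ph m = a
  generalize ph t = b
  revert a b
  decide

noncomputable def qk (k : ℕ) := Ideal.Quotient.mk (Ideal.span {(5 : ℤ_[5]) ^ k})

theorem cg {k : ℕ} {a b : ℤ_[5]} : 5 ^ k ∣ a - b ↔ qk k a = qk k b := by
  rw [qk, Ideal.Quotient.eq, Ideal.mem_span_singleton]

theorem divu {k : ℕ} {a a' b b' : ℤ_[5]} (ha : ph a ≠ 0) (ha' : ph a' ≠ 0) (h1 : 5 ^ k ∣ a - a')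
    (h2 : 5 ^ k ∣ b - b') : ∃ t t', b = t * a ∧ b' = t' * a' ∧ 5 ^ k ∣ t - t' := by
  obtain ⟨i, hi⟩ := (ph_unit ha).exists_right_inv
  obtain ⟨i', hi'⟩ := (ph_unit ha').exists_right_inv
  obtain ⟨x, hx⟩ := h1
  obtain ⟨y, hy⟩ := h2
  refine ⟨b * i, b' * i', by linear_combination (-b) * hi, by linear_combination (-b') * hi',
    y * i' - b * i * i' * x, ?_⟩
  linear_combination i' * hy - b * i * i' * hx - b * i * hi' + b * i' * hi

theorem cancu {a x y : ℤ_[5]} (ha : ph a ≠ 0) (h : a * x = a * y) : x = y :=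
  (ph_unit ha).mul_left_cancel h

theorem ne2 {m : ℕ} (h : m % 5 ≠ 2) : 1 + 2 * ph m ≠ 0 := by
  rw [map_natCast, ← ZMod.natCast_mod m 5]
  have := Nat.mod_lt m (by norm_num : 0 < 5)
  generalize m % 5 = a at *
  interval_cases a <;> first | decide | omega

theorem L1 {k m m' r : ℕ} {t t' : ℤ_[5]} (h : (W (5 * m) : ℤ_[5]) = 5 * t * u (5 * m))
    (h' : (W (5 * m') : ℤ_[5]) = 5 * t' * u (5 * m')) (d : 5 ∣ t) (d' : 5 ∣ t')
    (hm : m ≡ m' [MOD 5 ^ k]) (ht : 5 ^ k ∣ t - t') (hr : r < 5)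
    (h2 : r = 2 ∨ m % 5 ≠ 2 ∧ m' % 5 ≠ 2) : ∃ s s' : ℤ_[5],
      5 * (W (5 * m + r) : ℤ_[5]) = s * u (5 * m + r) ∧
      5 * (W (5 * m' + r) : ℤ_[5]) = s' * u (5 * m' + r) ∧ 5 ^ k ∣ s - s' ∧
      (r = 2 → 5 ^ (k + 1) ∣ s - s') := by
  obtain ⟨c1, c2, c3, c4⟩ := chain m h
  obtain ⟨c1', c2', c3', c4'⟩ := chain m' h'
  obtain ⟨a1, a2, a3, a4⟩ := phA m t
  obtain ⟨a1', a2', a3', a4'⟩ := phA m' t'
  rw [ph_zero.2 d, sub_zero] at a1 a3
  rw [ph_zero.2 d', sub_zero] at a1' a3'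
  have hm' := cg.1 (cast_dvd hm)
  have ht' := cg.1 ht
  have n1 : (-1 : ZMod 5) ≠ 0 := by decide
  interval_cases r
  · exact ⟨25 * t, 25 * t', by rw [add_zero, h]; ring, by rw [add_zero, h']; ring,
      by rw [← mul_sub]; exact ht.mul_left _, by simp⟩
  · obtain ⟨x, x'⟩ := h2.resolve_left (by simp)
    obtain ⟨s, s', e, e', hs⟩ := divu (k := k) (a1 ▸ ne2 x) (a1' ▸ ne2 x')
      (b := (5 * m + 1) ^ 6) (b' := (5 * m' + 1) ^ 6)
      (cg.2 (by simp only [mapA, hm', ht'])) (cg.2 (by simp only [map_add, map_mul, map_pow, hm']))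
    exact ⟨s, s', cancu (a1 ▸ ne2 x) (by rw [c1, e]; ring), cancu (a1' ▸ ne2 x')
      (by rw [c1', e']; ring), hs, by simp⟩
  · obtain ⟨s, s', e, e', z, hs⟩ := divu (k := k) (a2 ▸ n1) (a2' ▸ n1)
      (b := (5 * m + 2) ^ 6 * A1 (m : ℤ_[5]) t) (b' := (5 * m' + 2) ^ 6 * A1 (m' : ℤ_[5]) t')
      (cg.2 (by simp only [mapA, hm', ht']))
      (cg.2 (by simp only [mapA, map_add, map_mul, map_pow, hm', ht']))
    exact ⟨25 * s, 25 * s', cancu (a2 ▸ n1) (by rw [e] at c2; linear_combination 5 * c2),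
      cancu (a2' ▸ n1) (by rw [e'] at c2'; linear_combination 5 * c2'),
      ⟨25 * z, by linear_combination 25 * hs⟩, fun _ => ⟨5 * z, by linear_combination 25 * hs⟩⟩
  · obtain ⟨x, x'⟩ := h2.resolve_left (by simp)
    have y := a3 ▸ neg_ne_zero.2 (ne2 x)
    have y' := a3' ▸ neg_ne_zero.2 (ne2 x')
    obtain ⟨s, s', e, e', hs⟩ := divu (k := k) y y'
      (b := (5 * m + 3) ^ 6 * A2 (m : ℤ_[5]) t) (b' := (5 * m' + 3) ^ 6 * A2 (m' : ℤ_[5]) t')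
      (cg.2 (by simp only [mapA, hm', ht']))
      (cg.2 (by simp only [mapA, map_add, map_mul, map_pow, hm', ht']))
    exact ⟨s, s', cancu y (by rw [c3, e]; ring), cancu y' (by rw [c3', e']; ring), hs, by simp⟩
  · obtain ⟨s, s', e, e', z, hs⟩ := divu (k := k) (a4 ▸ n1) (a4' ▸ n1)
      (b := (5 * m + 4) ^ 6 * A3 (m : ℤ_[5]) t) (b' := (5 * m' + 4) ^ 6 * A3 (m' : ℤ_[5]) t')
      (cg.2 (by simp only [mapA, hm', ht']))
      (cg.2 (by simp only [mapA, map_add, map_mul, map_pow, hm', ht']))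
    exact ⟨25 * s, 25 * s', cancu (a4 ▸ n1) (by rw [e] at c4; linear_combination 5 * c4),
      cancu (a4' ▸ n1) (by rw [e'] at c4'; linear_combination 5 * c4'),
      ⟨25 * z, by linear_combination 25 * hs⟩, by simp⟩

theorem ph1 {a : ℤ_[5]} (h : 5 ∣ a - 1) : ph a = 1 := by
  have := ph_zero.2 h
  rwa [map_sub, map_one, sub_eq_zero] at this

theorem L2 {k n n' : ℕ} {s s' : ℤ_[5]} (hn : n ≡ n' [MOD 5 ^ k])
    (h : 5 * (W n : ℤ_[5]) = s * u n) (h' : 5 * (W n' : ℤ_[5]) = s' * u n') (hs : 5 ^ k ∣ s - s') :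
    ∃ t t' : ℤ_[5], (W (5 * n) : ℤ_[5]) = 5 * (5 * t) * u (5 * n) ∧
      (W (5 * n') : ℤ_[5]) = 5 * (5 * t') * u (5 * n') ∧ 5 ^ k ∣ t - t' := by
  obtain ⟨a, b, c, d, a', b', c', d', e1, e2, e1', e2', g1, g2, g3, g4, f1, -, f1', -⟩ :=
    frob k n n' hn
  have k25 : (25 : ZMod 5) = 0 := rfl
  obtain ⟨t, t', e, e', ht⟩ := divu (k := k) (a := a + 25 * b * s) (a' := a' + 25 * b' * s')
    (b := c + d * s) (b' := c' + d' * s') (by simp [ph1 f1, map_ofNat, k25])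
    (by simp [ph1 f1', map_ofNat, k25])
    (cg.2 (by simp only [map_add, map_mul, cg.1 g1, cg.1 g2, cg.1 hs]))
    (cg.2 (by simp only [map_add, map_mul, cg.1 g3, cg.1 g4, cg.1 hs]))
  exact ⟨t, t', by linear_combination e2 - 25 * t * e1 + 25 * (d - 25 * t * b) * h + 25 * u n * e,
    by linear_combination e2' - 25 * t' * e1' + 25 * (d' - 25 * t' * b') * h' + 25 * u n' * e', ht⟩

def Tame (n : ℕ) : Prop := ∀ i, n / 5 ^ i % 5 ≠ 2

theorem Tame.div {n : ℕ} (h : Tame n) : Tame (n / 5) := fun i => by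
  rw [Nat.div_div_eq_div_mul, ← pow_succ']; exact h _

theorem Tame.mod {n : ℕ} (h : Tame n) : n % 5 ≠ 2 := by simpa using h 0

theorem Tame.ext {k n t : ℕ} (hn : n < 5 ^ k) (h : Tame n) (ht : t < 5) (h2 : t ≠ 2) :
    Tame (n + 5 ^ k * t) := fun i => by
  rcases lt_trichotomy i k with hi | rfl | hi
  · obtain ⟨j, rfl⟩ := Nat.exists_eq_add_of_lt hi
    rw [add_assoc, pow_add, mul_assoc, Nat.add_mul_div_left _ _ (by positivity), pow_succ',
      mul_assoc, Nat.add_mul_mod_self_left]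
    exact h i
  · rw [Nat.add_mul_div_left _ _ (by positivity), Nat.div_eq_of_lt hn]; omega
  · rw [Nat.div_eq_of_lt]
    · simp
    · have := Nat.pow_le_pow_right (by norm_num : 0 < 5) (show k + 1 ≤ i from hi)
      rw [pow_succ] at this
      nlinarith

theorem TS {k n n' : ℕ} (h : Tame n) (h' : Tame n') (hn : n ≡ n' [MOD 5 ^ (k + 1)])
    (ih : ∃ t t' : ℤ_[5], (W (5 * (n / 5)) : ℤ_[5]) = 5 * (5 * t) * u (5 * (n / 5)) ∧
      (W (5 * (n' / 5)) : ℤ_[5]) = 5 * (5 * t') * u (5 * (n' / 5)) ∧ 5 ^ k ∣ 5 * t - 5 * t') :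
    ∃ t t' : ℤ_[5], (W (5 * n) : ℤ_[5]) = 5 * (5 * t) * u (5 * n) ∧
      (W (5 * n') : ℤ_[5]) = 5 * (5 * t') * u (5 * n') ∧ 5 ^ k ∣ t - t' := by
  obtain ⟨t, t', e, e', ht⟩ := ih
  have h5 : n % 5 = n' % 5 := hn.of_dvd (dvd_pow_self 5 (by simp))
  have hm : n / 5 ≡ n' / 5 [MOD 5 ^ k] := by
    rw [← Nat.div_add_mod n 5, ← Nat.div_add_mod n' 5, h5, pow_succ'] at hn
    exact Nat.ModEq.mul_left_cancel' (by norm_num) (Nat.ModEq.add_right_cancel' _ hn)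
  obtain ⟨s, s', f, f', hs, -⟩ := L1 e e' (dvd_mul_right _ _) (dvd_mul_right _ _) hm ht
    (Nat.mod_lt n (by norm_num)) (Or.inr ⟨h.div.mod, h'.div.mod⟩)
  rw [Nat.div_add_mod] at f
  rw [h5, Nat.div_add_mod] at f'
  exact L2 (hn.of_dvd (pow_dvd_pow 5 (by simp))) f f' hs

theorem T0 (n : ℕ) (h : Tame n) : ∃ t : ℤ_[5], (W (5 * n) : ℤ_[5]) = 5 * (5 * t) * u (5 * n) := by
  induction n using Nat.strong_induction_on with
  | _ n ih =>
    rcases Nat.eq_zero_or_pos n with rfl | hn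
    · exact ⟨0, by simp [W]⟩
    · obtain ⟨t, ht⟩ := ih (n / 5) (by omega) h.div
      obtain ⟨s, -, hs, -⟩ := TS (k := 0) h h rfl ⟨t, t, ht, ht, by simp⟩
      exact ⟨s, hs⟩

theorem TP (k : ℕ) : ∀ n n', Tame n → Tame n' → n ≡ n' [MOD 5 ^ k] →
    ∃ t t' : ℤ_[5], (W (5 * n) : ℤ_[5]) = 5 * (5 * t) * u (5 * n) ∧
      (W (5 * n') : ℤ_[5]) = 5 * (5 * t') * u (5 * n') ∧ 5 ^ k ∣ 5 * t - 5 * t' := by
  induction k with
  | zero =>
    intro n n' h h' _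
    obtain ⟨t, ht⟩ := T0 n h
    obtain ⟨t', ht'⟩ := T0 n' h'
    exact ⟨t, t', ht, ht', by simp⟩
  | succ k ih =>
    intro n n' h h' hn
    have h5 : n % 5 = n' % 5 := hn.of_dvd (dvd_pow_self 5 (by simp))
    have hm : n / 5 ≡ n' / 5 [MOD 5 ^ k] := by
      rw [← Nat.div_add_mod n 5, ← Nat.div_add_mod n' 5, h5, pow_succ'] at hn
      exact Nat.ModEq.mul_left_cancel' (by norm_num) (Nat.ModEq.add_right_cancel' _ hn)
    obtain ⟨t, t', e, e', z, ht⟩ := TS h h' hn (ih _ _ h.div h'.div hm)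
    exact ⟨t, t', e, e', z, by linear_combination 5 * ht⟩

end Pool.Agent.H24.Ap
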