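import Pool.Agent.H24.Ap7

namespace Pool.Agent.H24.Ap

theorem mapP {R R' : Type} [CommRing R] [CommRing R'] (f : R →+* R') (m : R) :
    f (p1 m) = p1 (f m) ∧ f (p3 m) = p3 (f m) ∧ f (P m) = P (f m) := (mapA f m m).2.2.2.2

def Sens (j : ℕ) (c c' : ℤ_[5]) (s : ZMod 5) : Prop := ∃ z, c' = c + 5 ^ j * z ∧ ph z = s

theorem mob {j : ℕ} {a b c d a' b' c' d' x x' : ℤ_[5]} {s : ZMod 5} (ha : 5 ^ (j + 1) ∣ a - a')
    (hb : 5 ^ (j + 1) ∣ b - b') (hc : 5 ^ (j + 1) ∣ c - c') (hd : 5 ^ (j + 1) ∣ d - d')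
    (h0 : ph (5 ^ j * c) = 0) (hu : ph (c * x + d) ≠ 0) (h : Sens j x x' s) :
    ∃ y y' s', y * (c * x + d) = a * x + b ∧ y' * (c' * x' + d') = a' * x' + b' ∧
      ph (c' * x' + d') ≠ 0 ∧ Sens j y y' s' ∧ s' * ph (c * x + d) ^ 2 = ph (a * d - b * c) * s := by
  obtain ⟨z, rfl, rfl⟩ := h
  obtain ⟨a1, ha⟩ := ha
  obtain ⟨b1, hb⟩ := hb
  obtain ⟨c1, hc⟩ := hc
  obtain ⟨d1, hd⟩ := hd
  obtain rfl : a' = a - 5 ^ (j + 1) * a1 := by linear_combination -ha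
  obtain rfl : b' = b - 5 ^ (j + 1) * b1 := by linear_combination -hb
  obtain rfl : c' = c - 5 ^ (j + 1) * c1 := by linear_combination -hc
  obtain rfl : d' = d - 5 ^ (j + 1) * d1 := by linear_combination -hd
  have e : ph ((c - 5 ^ (j + 1) * c1) * (x + 5 ^ j * z) + (d - 5 ^ (j + 1) * d1)) =
      ph (c * x + d) := by
    rw [show (c - 5 ^ (j + 1) * c1) * (x + 5 ^ j * z) + (d - 5 ^ (j + 1) * d1) = c * x + d +
      5 ^ j * c * z - 5 * (5 ^ j * (c1 * (x + 5 ^ j * z) + d1)) by ring, map_sub, map_add,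
      map_mul _ _ z, h0, map_mul _ 5, map_ofNat, ph5]
    ring
  obtain ⟨i, hi⟩ := (ph_unit hu).exists_right_inv
  obtain ⟨i', hi'⟩ := (ph_unit (e ▸ hu)).exists_right_inv
  refine ⟨(a * x + b) * i, ((a - 5 ^ (j + 1) * a1) * (x + 5 ^ j * z) + (b - 5 ^ (j + 1) * b1)) * i',
    _, by linear_combination (a * x + b) * hi,
    by rw [mul_assoc, mul_comm i', hi', mul_one], e ▸ hu,
    ⟨((a * d - b * c) * z - 5 * ((a1 * (x + 5 ^ j * z) + b1) * (c * x + d) -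
      (a * x + b) * (c1 * (x + 5 ^ j * z) + d1))) * i * i', ?_, rfl⟩, ?_⟩
  · linear_combination (a * x + b) * i * hi' - ((a - 5 ^ (j + 1) * a1) * (x + 5 ^ j * z) +
      (b - 5 ^ (j + 1) * b1)) * i' * hi
  · have k1 := congrArg ph hi
    have k2 := congrArg ph hi'
    rw [map_mul, map_one] at k1 k2
    rw [e] at k2
    rw [map_mul, map_mul, map_sub, map_mul _ 5, map_ofNat, ph5, map_mul]
    linear_combination ph (a * d - b * c) * ph z * (ph i' * ph (c * x + d) * k1 + k2)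

def Rel (N : ℕ) (c : ℤ_[5]) : Prop := (u N : ℤ_[5]) = 25 * c * W N

theorem cas {j N N' r : ℕ} {c c' : ℤ_[5]} {s : ZMod 5} (hN : N ≡ N' [MOD 5 ^ (j + 2)])
    (h : Rel N c) (h' : Rel N' c') (hc : ph c ≠ 0) (hs : Sens (j + 1) c c' s) (hr : r = 1 ∨ r = 3) :
    ∃ y y' s', (u (5 * N + r) : ℤ_[5]) = 5 * y * W (5 * N + r) ∧
      (u (5 * N' + r) : ℤ_[5]) = 5 * y' * W (5 * N' + r) ∧ Sens (j + 1) y y' s' ∧
      s' * ph c ^ 2 = s ∧ ph y * ph c = (2 - r) * (1 + 2 * N) * ph c - 1 := by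
  obtain ⟨a, b, f, d, a', b', f', d', e1, e2, e1', e2', g1, g2, g3, g4, f1, f2, -, -⟩ :=
    frob (j + 2) N N' hN
  have h5 : ∀ z, ph (5 ^ (j + 1) * z) = 0 := fun z => by simp [map_ofNat, ph5]
  have k1 : ph (a * c + 5 * b) = ph c := by simp [ph1 f1, map_ofNat, ph5]
  obtain ⟨t, t', s1, q, q', n', S1, v1⟩ := mob (j := j + 1) (a := 5 * f) (a' := 5 * f')
    (d := 5 * b) (d' := 5 * b') (by rw [← mul_sub]; exact g3.mul_left _) g4 g1
    (by rw [← mul_sub]; exact g2.mul_left _) (h5 _) (k1 ▸ hc) hs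
  have w1 : (W (5 * N) : ℤ_[5]) = 5 * t * u (5 * N) := by
    rw [e1, e2, h]; linear_combination (-125 * W N) * q
  have w1' : (W (5 * N') : ℤ_[5]) = 5 * t' * u (5 * N') := by
    rw [e1', e2', h']; linear_combination (-125 * W N') * q'
  have v2 : ph t * ph c = 1 := by
    have := congrArg ph q
    rw [map_mul, k1] at this
    simpa [ph1 f2, map_ofNat, ph5] using this
  have v3 : s1 * ph c ^ 2 = -s := by
    rw [k1] at v1
    simpa [ph1 f1, ph1 f2, map_ofNat, ph5] using v1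
  obtain ⟨c1, -, c3, -⟩ := chain N w1
  obtain ⟨c1', -, c3', -⟩ := chain N' w1'
  have hm : qk (j + 1 + 1) N = qk (j + 1 + 1) N' := cg.1 (cast_dvd hN)
  obtain ⟨a1, a2, a3, -⟩ := phA N t
  rcases hr with rfl | rfl
  · have k2 : ph (0 * t + (5 * N + 1) ^ 6) = 1 := by simp [map_ofNat, ph5]
    obtain ⟨y, y', s2, p, p', n', S2, v4⟩ := mob (j := j + 1) (a := -1) (a' := -1)
      (b := p1 (N : ℤ_[5])) (b' := p1 (N' : ℤ_[5])) (c := 0) (c' := 0) (d := (5 * N + 1) ^ 6)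
      (d' := (5 * N' + 1) ^ 6) (by simp) (cg.2 (by simp only [mapP, hm])) (by simp)
      (cg.2 (by simp only [map_add, map_mul, map_pow, hm])) (h5 _) (by rw [k2]; decide) S1
    have v5 := congrArg ph (p.trans (show _ = A1 (N : ℤ_[5]) t by unfold A1; ring))
    rw [map_mul, k2, a1, map_natCast] at v5
    rw [k2] at v4
    simp [map_ofNat, ph5] at v4
    refine ⟨y, y', s2, cancu (k2 ▸ one_ne_zero) ?_, cancu n' ?_, S2, ?_, ?_⟩
    · unfold A1 at c1; linear_combination -c1 - 5 * W (5 * N + 1) * p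
    · unfold A1 at c1'; linear_combination -c1' - 5 * W (5 * N' + 1) * p'
    · rw [v4]; linear_combination -v3
    · push_cast; linear_combination ph c * v5 - v2
  · have i2 : ∀ m t : ℤ_[5], -((5 * m + 3) ^ 6 * (5 * P (5 * m + 1))) * t +
        (5 * m + 3) ^ 6 * A2 m 0 = (5 * m + 3) ^ 6 * A2 m t := fun m t => by
      simp only [A2, A1]; ring
    have i3 : ∀ m t : ℤ_[5], ((5 * m + 2) ^ 6 - p3 m * (5 * P (5 * m + 1))) * t + A3 m 0 =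
        A3 m t := fun m t => by simp only [A3, A2, A1]; ring
    have k3 : ∀ t, ph ((5 * N + 3) ^ 6 * A2 (N : ℤ_[5]) t) = 1 := fun t => by
      rw [map_mul, (phA _ _).2.1]; simp only [map_pow, map_add, map_mul, map_ofNat, ph5, zero_mul]
      decide
    obtain ⟨y, y', s2, p, p', n', S2, v4⟩ := mob (j := j + 1)
      (a := (5 * N + 2) ^ 6 - p3 (N : ℤ_[5]) * (5 * P (5 * N + 1 : ℤ_[5])))
      (a' := (5 * N' + 2) ^ 6 - p3 (N' : ℤ_[5]) * (5 * P (5 * N' + 1 : ℤ_[5])))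
      (b := A3 (N : ℤ_[5]) 0) (b' := A3 (N' : ℤ_[5]) 0)
      (c := -((5 * N + 3) ^ 6 * (5 * P (5 * N + 1 : ℤ_[5]))))
      (c' := -((5 * N' + 3) ^ 6 * (5 * P (5 * N' + 1 : ℤ_[5]))))
      (d := (5 * N + 3) ^ 6 * A2 (N : ℤ_[5]) 0) (d' := (5 * N' + 3) ^ 6 * A2 (N' : ℤ_[5]) 0)
      (cg.2 (by simp only [mapP, map_sub, map_add, map_mul, map_pow, hm]))
      (cg.2 (by simp only [mapA, hm]))
      (cg.2 (by simp only [mapP, map_neg, map_add, map_mul, map_pow, hm]))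
      (cg.2 (by simp only [mapA, map_add, map_mul, map_pow, hm])) (h5 _)
      (by rw [i2, k3]; decide) S1
    rw [i2, i3] at p p'
    rw [i2] at n'
    have v5 := congrArg ph p
    rw [map_mul, k3, a3, map_natCast] at v5
    rw [i2, k3, map_sub, map_mul, k3] at v4
    simp only [map_sub, map_neg, map_pow, map_add, map_mul, map_ofNat, ph5, zero_mul, mul_zero,
      neg_zero, sub_zero, zero_add, show (2 : ZMod 5) ^ 6 = -1 from rfl] at v4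
    refine ⟨y, y', s2, cancu (k3 t ▸ one_ne_zero) ?_, cancu n' ?_, S2, ?_, ?_⟩
    · linear_combination -c3 - 5 * W (5 * N + 3) * p
    · linear_combination -c3' - 5 * W (5 * N' + 3) * p'
    · linear_combination ph c ^ 2 * v4 - v3
    · push_cast; linear_combination ph c * v5 - v2

noncomputable def g (N : ℕ) : ℤ := (padicValNat 5 (u N) : ℤ) - padicValNat 5 (u (N - 1))

theorem val {N i : ℕ} {c : ℤ_[5]} (hN : N % 5 ≠ 0) (hc : ph c ≠ 0)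
    (h : (u N : ℤ_[5]) = 5 ^ i * c * W N) : g N = i := by
  have hu : IsUnit (c * N ^ 3) :=
    (ph_unit hc).mul ((unit_nat (m := N) (by omega)).pow 3)
  have e : (u N : ℤ_[5]) = (5 ^ i * u (N - 1) : ℕ) * (c * N ^ 3) := by
    rw [h, W]; push_cast; ring
  have e2 := congrArg norm e
  rw [norm_mul, PadicInt.isUnit_iff.1 hu, mul_one, PadicInt.norm_def, PadicInt.norm_def,
    PadicInt.coe_natCast, PadicInt.coe_natCast] at e2
  have p1 := (u_pos N).ne'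
  have p2 := (u_pos (N - 1)).ne'
  rw [Padic.norm_eq_zpow_neg_valuation (by exact_mod_cast p1),
    Padic.norm_eq_zpow_neg_valuation (by exact_mod_cast mul_ne_zero (by positivity) p2),
    Padic.valuation_natCast, Padic.valuation_natCast, padicValNat.mul (by positivity) p2,
    padicValNat.prime_pow, zpow_right_inj₀ (by norm_num) (by norm_num)] at e2
  rw [Nat.cast_add] at e2
  unfold g; linear_combination -e2

theorem Rel.uniq {N : ℕ} {c c' : ℤ_[5]} (h : Rel N c) (h' : Rel N c') : c = c' := by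
  have p : (u N : ℤ_[5]) ≠ 0 := by exact_mod_cast (u_pos N).ne'
  have q : (25 : ℤ_[5]) * W N ≠ 0 := fun e => p (by rw [h]; linear_combination c * e)
  unfold Rel at h h'
  exact mul_left_cancel₀ q (by linear_combination h' - h)

def Inv (k n R : ℕ) (b : ZMod 5) : Prop :=
  n < 5 ^ k ∧ Tame n ∧ (R % 5 = 1 ∨ R % 5 = 3) ∧ R < 5 ^ (k + 2) ∧ b ≠ 0 ∧
  ∀ m y j, Tame m → Tame (m + 5 ^ (k + j) * y) → m ≡ n [MOD 5 ^ k] → ∃ c c',
    Rel (5 ^ (k + 2) * m + R) c ∧ Rel (5 ^ (k + 2) * (m + 5 ^ (k + j) * y) + R) c' ∧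
      Sens j c c' (b * y)

theorem base : Inv 0 0 11 2 := by
  refine ⟨by simp, fun i => by simp, by simp, by simp, by decide, fun m y j h h' _ => ?_⟩
  simp only [zero_add] at h' ⊢
  obtain ⟨m', hm'⟩ : ∃ m', m' = m + 5 ^ j * y := ⟨_, rfl⟩
  rw [← hm'] at h' ⊢
  have hm : m ≡ m' [MOD 5 ^ j] := by rw [hm']; simp [Nat.ModEq]
  obtain ⟨t, t', e, e', ht⟩ := TP j m m' h h' hm
  obtain ⟨s, s', f, f', -, hs⟩ := L1 e e' (dvd_mul_right _ _) (dvd_mul_right _ _) hm ht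
    (by norm_num : 2 < 5) (Or.inl rfl)
  have hM : 5 * m + 2 ≡ 5 * m' + 2 [MOD 5 ^ (j + 1)] := by
    rw [pow_succ']; exact (hm.mul_left' 5).add_right 2
  obtain ⟨v, v', l, l', z, hv⟩ := L2 hM f f' (hs rfl)
  have c1 := (chain _ l).1
  have c1' := (chain _ l').1
  have k2 : ∀ a : ℤ_[5], ∀ m : ℕ, ph (0 * a + (5 * (5 * m + 2 : ℕ) + 1) ^ 6) = 1 := fun a m => by
    simp [map_ofNat, ph5]
  obtain ⟨c, c', s2, p, p', -, S2, v4⟩ := mob (j := j) (a := 1) (a' := 1) (b := 0) (b' := 0)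
    (c := 0) (c' := 0) (d := (5 * (5 * m + 2 : ℕ) + 1) ^ 6) (d' := (5 * (5 * m' + 2 : ℕ) + 1) ^ 6)
    (x := (50 * m + 21) * (425 * m ^ 2 + 357 * m + 75) - v)
    (x' := (50 * m' + 21) * (425 * m' ^ 2 + 357 * m' + 75) - v') (s := 2 * y) (by simp) (by simp)
    (by simp) (cg.2 (by simp only [map_add, map_mul, map_pow, cg.1 (cast_dvd hM)])) (by simp)
    (by rw [k2]; decide) ⟨2 * y + 5 * (y * (2249 + 5355 * (m + m') +
      4250 * (m ^ 2 + m * m' + m' ^ 2)) + z), by rw [hm']; push_cast; linear_combination hv,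
      by simp [map_ofNat, ph5]⟩
  rw [k2] at v4
  simp [map_ofNat, ph5] at v4
  rw [show 5 ^ 2 * m + 11 = 5 * (5 * m + 2) + 1 by ring,
    show 5 ^ 2 * m' + 11 = 5 * (5 * m' + 2) + 1 by ring]
  refine ⟨c, c', cancu (k2 0 m ▸ one_ne_zero) ?_, cancu (k2 0 m' ▸ one_ne_zero) ?_, v4 ▸ S2⟩
  · simp only [A1, p1] at c1; push_cast at *
    linear_combination -c1 - 25 * W (5 * (5 * m + 2) + 1) * p
  · simp only [A1, p1] at c1'; push_cast at *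
    linear_combination -c1' - 25 * W (5 * (5 * m' + 2) + 1) * p'

theorem pick : ∀ l c b : ZMod 5, l ≠ 0 → b ≠ 0 →
    (∃ t : Fin 5, ∃ r : Fin 5, t.1 ≠ 2 ∧ (r.1 = 1 ∨ r.1 = 3) ∧ c + b * t.1 ≠ 0 ∧
      (2 - (r.1 : ZMod 5)) * l * (c + b * t.1) - 1 = 0 ∧ b * ((c + b * t.1) ^ 2) ^ 3 ≠ 0 ∧
      ((c + b * t.1) ^ 2) ^ 3 * (c + b * t.1) ^ 2 = 1 ∧
      ∃ t' : Fin 5, t'.1 ≠ 2 ∧ c + b * t'.1 ≠ 0 ∧ (2 - (r.1 : ZMod 5)) * l * (c + b * t'.1) - 1 ≠ 0) := by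
  decide

theorem step {k n R : ℕ} {b : ZMod 5} (h : Inv k n R b) : ∃ n' R' b', Inv (k + 1) n' R' b' ∧
    n' ≡ n [MOD 5 ^ k] ∧ (∀ m, Tame m → m ≡ n' [MOD 5 ^ (k + 1)] → g (5 ^ (k + 2) * m + R) = 2) ∧
    ∃ m, Tame m ∧ m ≡ n [MOD 5 ^ k] ∧ g (5 ^ (k + 2) * m + R) = 2 ∧
      g (5 ^ (k + 1 + 2) * m + R') = 1 := by
  obtain ⟨h1, h2, h3, h4, h5, h6⟩ := h
  obtain ⟨c0, -, r0, -⟩ := h6 n 0 0 h2 (by simpa using h2) rfl
  have hN : ∀ m, ((5 ^ (k + 2) * m + R : ℕ) : ZMod 5) = R := fun m => by simp [pow_succ, ph5]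
  have hN5 : ∀ m, (5 ^ (k + 2) * m + R) % 5 ≠ 0 := fun m => by
    rw [pow_succ', mul_assoc]; omega
  have hl : (1 + 2 * R : ZMod 5) ≠ 0 := by simpa using ne2 (m := R) (by omega)
  have A : ∀ t m c, t < 5 → Tame m → m ≡ n + 5 ^ k * t [MOD 5 ^ (k + 1)] →
      Rel (5 ^ (k + 2) * m + R) c → ph c = ph c0 + b * t := by
    intro t m c ht hm e hc
    have e1 : m % 5 ^ (k + 1) = n + 5 ^ k * t := by
      rw [e]; apply Nat.mod_eq_of_lt; rw [pow_succ]; nlinarith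
    have e2 : m = n + 5 ^ (k + 0) * (t + 5 * (m / 5 ^ (k + 1))) := by
      nth_rw 1 [← Nat.mod_add_div m (5 ^ (k + 1)), e1]; ring
    obtain ⟨d, d', r1, r2, z, rfl, hz⟩ := h6 n _ 0 h2 (e2 ▸ hm) rfl
    rw [← e2] at r2
    rw [hc.uniq r2, r0.uniq r1]
    simp [hz, ph5]
  have B : ∀ t m, m ≡ n + 5 ^ k * t [MOD 5 ^ (k + 1)] → m ≡ n [MOD 5 ^ k] := fun t m e =>
    (e.of_dvd (pow_dvd_pow 5 (by simp))).trans (by simp [Nat.ModEq])
  have C : ∀ t m, t < 5 → Tame m → m ≡ n + 5 ^ k * t [MOD 5 ^ (k + 1)] → ph c0 + b * t ≠ 0 →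
      g (5 ^ (k + 2) * m + R) = 2 := fun t m ht hm e h0 => by
    obtain ⟨c, -, r1, -⟩ := h6 m 0 0 hm (by simpa using hm) (B t m e)
    exact val (i := 2) (hN5 m) (A t m c ht hm e r1 ▸ h0) (by rw [r1]; norm_num)
  obtain ⟨⟨t, ht⟩, ⟨r, hr5⟩, t2, hr, x1, x2, x3, x4, ⟨t', ht'⟩, t2', y1, y2⟩ :=
    pick _ (ph c0) b hl h5
  simp only [] at t2 hr x1 x2 x3 x4 t2' y1 y2
  have e5 : ∀ m, 5 ^ (k + 1 + 2) * m + (5 * R + r) = 5 * (5 ^ (k + 2) * m + R) + r := fun m => by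
    ring
  refine ⟨n + 5 ^ k * t, 5 * R + r, b * ((ph c0 + b * t) ^ 2) ^ 3,
    ⟨by rw [pow_succ]; nlinarith, h2.ext h1 ht t2, by omega,
      by rw [show k + 1 + 2 = k + 2 + 1 from rfl, pow_succ' 5 (k + 2)]; omega, x3,
      fun m y j hm hm' e => ?_⟩, by simp [Nat.ModEq], fun m hm e => C t m ht hm e x1,
    n + 5 ^ k * t', h2.ext h1 ht' t2', by simp [Nat.ModEq],
    C t' _ ht' (h2.ext h1 ht' t2') rfl y1, ?_⟩
  · rw [show k + 1 + j = k + (j + 1) by ring] at hm' ⊢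
    obtain ⟨c, c', r1, r2, hs⟩ := h6 m y (j + 1) hm hm' (B t m e)
    have hc := A t m c ht hm e r1
    obtain ⟨v, v', s', q, q', ⟨z, rfl, rfl⟩, z1, z2⟩ := cas (j := j) (by
      rw [show 5 ^ (k + 2) * (m + 5 ^ (k + (j + 1)) * y) + R = 5 ^ (k + 2) * m + R +
        5 ^ (j + 2) * (5 ^ (2 * k + 1) * y) by ring]; simp [Nat.ModEq]) r1 r2 (hc ▸ x1) hs hr
    rw [hN, hc, x2] at z2
    obtain ⟨v1, rfl⟩ := ph_zero.1 ((mul_eq_zero.1 z2).resolve_right x1)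
    rw [e5, e5]
    refine ⟨v1, v1 + 5 ^ j * z, by rw [Rel, q]; ring, by rw [Rel, q']; ring, z, rfl, ?_⟩
    rw [hc] at z1
    linear_combination ((ph c0 + b * t) ^ 2) ^ 3 * z1 - ph z * x4
  · have hm := h2.ext h1 ht' t2'
    obtain ⟨c, -, r1, -⟩ := h6 _ 0 0 hm (by simpa using hm) (B t' _ rfl)
    have hc := A t' _ c ht' hm rfl r1
    obtain ⟨v, -, -, q, -, -, -, z2⟩ := cas (j := 0) rfl r1 r1 (hc ▸ y1) ⟨0, by simp, rfl⟩ hr
    rw [hN, hc] at z2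
    rw [e5]
    exact val (i := 1) (by omega) (fun h0 => y2 (by rw [← z2, h0, zero_mul])) (by rw [q, pow_one])

theorem exists_seq : ∃ R m : ℕ → ℕ, (∀ j, 1 ≤ R j ∧ R j < 5 ^ (j + 2)) ∧ ∀ i,
    (∀ j ≤ i, g (5 ^ (j + 2) * m i + R j) = 2) ∧ g (5 ^ (i + 1 + 2) * m i + R (i + 1)) = 1 := by
  have : ∀ k (s : {s : ℕ × ℕ × ZMod 5 // Inv k s.1 s.2.1 s.2.2}),
      ∃ s' : {s : ℕ × ℕ × ZMod 5 // Inv (k + 1) s.1 s.2.1 s.2.2}, s'.1.1 ≡ s.1.1 [MOD 5 ^ k] ∧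
      (∀ m, Tame m → m ≡ s'.1.1 [MOD 5 ^ (k + 1)] → g (5 ^ (k + 2) * m + s.1.2.1) = 2) ∧
      ∃ m, Tame m ∧ m ≡ s.1.1 [MOD 5 ^ k] ∧ g (5 ^ (k + 2) * m + s.1.2.1) = 2 ∧
        g (5 ^ (k + 1 + 2) * m + s'.1.2.1) = 1 := fun k s => by
    obtain ⟨n', R', b', h⟩ := step s.2
    exact ⟨⟨(n', R', b'), h.1⟩, h.2⟩
  choose f h1 h2 m h3 h4 h5 h6 using this
  let s : ∀ k, {s : ℕ × ℕ × ZMod 5 // Inv k s.1 s.2.1 s.2.2} := fun k =>
    Nat.rec ⟨(0, 11, 2), base⟩ f k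
  have hs : ∀ k, s (k + 1) = f k (s k) := fun _ => rfl
  have hc : ∀ j d, (s (j + d)).1.1 ≡ (s j).1.1 [MOD 5 ^ j] := fun j d => by
    induction d with
    | zero => rfl
    | succ d ih => exact ((h1 _ (s (j + d))).of_dvd (pow_dvd_pow 5 (by simp))).trans ih
  refine ⟨fun j => (s j).1.2.1, fun i => m i (s i), fun j => ⟨?_, (s j).2.2.2.2.1⟩,
    fun i => ⟨fun j hj => ?_, h6 i _⟩⟩
  · have := (s j).2.2.2.1
    show 1 ≤ (s j).1.2.1
    omega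
  · rcases hj.eq_or_lt with rfl | hj
    · exact h5 j _
    · obtain ⟨d, rfl⟩ := Nat.exists_eq_add_of_le (show j + 1 ≤ i from hj)
      exact h2 j _ _ (h3 _ _) (((h4 _ _).of_dvd (pow_dvd_pow 5 (by simp))).trans (hc (j + 1) d))

end Pool.Agent.H24.Ap
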