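import Mathlib

set_option autoImplicit false

open Finset Polynomial

namespace Pool.Agent.H24.BZ

/-- exponents `j (2 j + 1)` with `j = i - k` -/
def ee (k i : ℕ) : ℕ := (((i : ℤ) - k) * (2 * ((i : ℤ) - k) + 1)).toNat

lemma ee_cast (k i : ℕ) : (ee k i : ℤ) = ((i : ℤ) - k) * (2 * ((i : ℤ) - k) + 1) := by
  refine Int.toNat_of_nonneg ?_
  generalize (i : ℤ) - k = j
  rcases le_or_gt 0 j with h | h <;> nlinarith

lemma ee_inj (k : ℕ) : Function.Injective (ee k) := by
  intro i j h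
  have h1 := ee_cast k i
  rw [h, ee_cast] at h1
  have : ((i : ℤ) - j) * (2 * ((i : ℤ) - k + (j - k)) + 1) = 0 := by linear_combination -h1
  rcases mul_eq_zero.1 this with h | h <;> omega

lemma ee_self (k : ℕ) : ee k k = 0 := by simp [ee]

lemma ee_le (k i : ℕ) : (ee k i : ℤ) ≤ 3 * ((i : ℤ) - k) ^ 2 := by
  rw [ee_cast]
  generalize (i : ℤ) - k = j
  rcases le_or_gt j 0 with h | h <;> nlinarith

lemma choose_bd (k : ℕ) (b : ℝ) (hb : b * (6 * k) = 1) (hb0 : 0 < b) (j : ℕ) (hj : j ≤ k) :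
    ((2 * k).choose (k + j) : ℝ) ≤ (2 * k).choose k * (1 - b) ^ (3 * j ^ 2) := by
  induction j with
  | zero => simp
  | succ j ih =>
    have ih := ih (by omega)
    have h1 : ((2 * k).choose (k + j + 1) : ℝ) * (k + j + 1) = (2 * k).choose (k + j) * (k - j) := by
      have := Nat.choose_succ_right_eq (2 * k) (k + j)
      rw [show 2 * k - (k + j) = k - j by omega] at this
      have h2 := congrArg (fun x : ℕ => (x : ℝ)) this
      push_cast [Nat.cast_sub (show j ≤ k by omega)] at h2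
      exact h2
    have hjk : (j : ℝ) + 1 ≤ k := by exact_mod_cast hj
    have hj0 : (0 : ℝ) ≤ j := Nat.cast_nonneg j
    have hb1 : b ≤ 1 := by nlinarith
    have h3 := one_add_mul_le_pow (show (-2 : ℝ) ≤ -b by linarith) (3 * (2 * j + 1))
    rw [← sub_eq_add_neg] at h3
    push_cast at h3
    have h4 : ((k : ℝ) - j) ≤ (k + j + 1) * (1 - b) ^ (3 * (2 * j + 1)) := by
      have : ((k : ℝ) - j) ≤ (k + j + 1) * (1 + 3 * (2 * j + 1) * -b) := by
        have : (k + j + 1 : ℝ) * b * 3 ≤ 1 := by nlinarith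
        nlinarith
      exact this.trans (by gcongr)
    rw [show 3 * (j + 1) ^ 2 = 3 * j ^ 2 + 3 * (2 * j + 1) by ring, pow_add, ← mul_assoc,
      ← add_assoc]
    refine le_of_mul_le_mul_right ?_ (show (0 : ℝ) < k + j + 1 by linarith)
    rw [h1, mul_assoc, mul_comm _ (k + j + 1 : ℝ)]
    exact mul_le_mul ih h4 (by linarith) (by have := sub_nonneg.2 hb1; positivity)

lemma choose_bd' (k : ℕ) (b : ℝ) (hb : b * (6 * k) = 1) (hb0 : 0 < b) (i : ℕ) (hi : i ≤ 2 * k) :
    ((2 * k).choose i : ℝ) ≤ (2 * k).choose k * (1 - b) ^ ee k i := by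
  have hk : (1 : ℝ) ≤ k := by
    rcases Nat.eq_zero_or_pos k with rfl | h
    · simp at hb
    · exact_mod_cast h
  have hb1 : b ≤ 1 := by nlinarith
  obtain ⟨j, hj, h1, h2⟩ : ∃ j ≤ k, (2 * k).choose i = (2 * k).choose (k + j) ∧
      ((i : ℤ) - k) ^ 2 = (j : ℤ) ^ 2 := by
    rcases le_total k i with h | h
    · exact ⟨i - k, by omega, by congr 1; omega, by push_cast [h]; rfl⟩
    · exact ⟨k - i, by omega, by rw [← Nat.choose_symm hi]; congr 1; omega,
        by push_cast [h]; ring⟩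
  rw [h1]
  refine (choose_bd k b hb hb0 j hj).trans ?_
  have := ee_le k i
  rw [h2] at this
  exact mul_le_mul_of_nonneg_left (pow_le_pow_of_le_one (by linarith) (by linarith)
    (by exact_mod_cast this)) (by positivity)

noncomputable def qq (k : ℕ) : ℝ[X] := ∑ i ∈ range (2 * k + 1),
  C ((-1) ^ (2 * k - i) * ((2 * k).choose i : ℝ) / (2 * k).choose k) * X ^ ee k i

lemma qq_coeff (k i : ℕ) (hi : i ≤ 2 * k) :
    |(qq k).coeff (ee k i)| = ((2 * k).choose i : ℝ) / (2 * k).choose k := by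
  simp only [qq, finsetSum_coeff, coeff_C_mul, coeff_X_pow, (ee_inj k).eq_iff, mul_ite, mul_one,
    mul_zero, Finset.sum_ite_eq, mem_range, Nat.lt_succ_iff, hi, if_true]
  rw [abs_div, abs_mul, abs_pow, abs_neg, abs_one, one_pow, one_mul, Nat.abs_cast, Nat.abs_cast]

lemma qq_coeff' (k m : ℕ) (h : ∀ i ≤ 2 * k, ee k i ≠ m) : (qq k).coeff m = 0 := by
  simp only [qq, finsetSum_coeff, coeff_C_mul, coeff_X_pow]
  refine Finset.sum_eq_zero fun i hi => ?_
  rw [if_neg (h i (Nat.lt_succ_iff.1 (mem_range.1 hi))).symm, mul_zero]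

lemma ch_pos (k : ℕ) : (0 : ℝ) < (2 * k).choose k := by
  exact_mod_cast Nat.choose_pos (by omega)

lemma qq_zero (k : ℕ) : |(qq k).coeff 0| = 1 := by
  have := qq_coeff k k (by omega)
  rwa [ee_self, div_self (ch_pos k).ne'] at this

lemma qq_bd (k : ℕ) (b : ℝ) (hb : b * (6 * k) = 1) (hb0 : 0 < b) (hb1 : b < 1) (m : ℕ) :
    |(qq k).coeff m| ≤ (1 - b) ^ m := by
  by_cases h : ∃ i ≤ 2 * k, ee k i = m
  · obtain ⟨i, hi, rfl⟩ := h
    rw [qq_coeff k i hi, div_le_iff₀' (ch_pos k)]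
    exact choose_bd' k b hb hb0 i hi
  · push Not at h
    rw [qq_coeff' k m h, abs_zero]
    have := sub_pos.2 hb1
    positivity

lemma qq_deg (k : ℕ) : (qq k).natDegree ≤ 3 * k ^ 2 := by
  refine natDegree_le_iff_coeff_eq_zero.2 fun m hm => qq_coeff' k m fun i hi h => ?_
  have h1 := ee_le k i
  have h2 : ((i : ℤ) - k) ^ 2 ≤ (k : ℤ) ^ 2 := by
    have : (i : ℤ) ≤ 2 * k := by exact_mod_cast hi
    have : (0 : ℤ) ≤ i := by positivity
    nlinarith
  have h3 : (3 * (k : ℤ) ^ 2) < m := by exact_mod_cast hm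
  omega

lemma qq_dvd (k : ℕ) : (X - C 1) ^ k ∣ qq k := by
  have h0 : qq k ≠ 0 := by
    intro h; have := qq_zero k; rw [h] at this; simp at this
  rcases Nat.eq_zero_or_pos k with rfl | hk
  · simp
  rw [← le_rootMultiplicity_iff h0]
  refine Nat.le_of_pred_lt (lt_rootMultiplicity_of_isRoot_iterate_derivative h0 fun m hm => ?_)
  have hm' : m < k := by simp only [Nat.pred_eq_sub_one] at hm; omega
  let P : ℝ[X] := (descPochhammer ℝ m).comp ((X - C (k : ℝ)) * (2 * (X - C (k : ℝ)) + 1))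
  have hP : P.natDegree < 2 * k := by
    refine natDegree_comp_le.trans_lt ?_
    have : ((X - C (k : ℝ)) * (2 * (X - C (k : ℝ)) + 1)).natDegree ≤ 2 := by compute_degree
    rw [descPochhammer_natDegree]
    nlinarith
  have h1 := congrFun (Polynomial.fwdDiff_iter_eq_zero_of_degree_lt hP) 0
  rw [fwdDiff_iter_eq_sum_shift] at h1
  rw [IsRoot, qq, iterate_derivative_sum, eval_finsetSum]
  apply mul_left_cancel₀ (ch_pos k).ne'
  rw [mul_zero, Finset.mul_sum]
  refine Eq.trans (Finset.sum_congr rfl fun i _ => ?_) h1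
  have h2 : ((ee k i : ℕ) : ℝ) = ((i : ℝ) - k) * (2 * ((i : ℝ) - k) + 1) := by
    exact_mod_cast ee_cast k i
  have h3 := (ch_pos k).ne'
  rw [iterate_derivative_C_mul, iterate_derivative_X_pow_eq_C_mul]
  simp only [eval_mul, eval_C, eval_pow, eval_X, one_pow, mul_one, P, eval_comp, eval_sub,
    eval_add, eval_ofNat, eval_one, zero_add, nsmul_eq_mul, zsmul_eq_mul, ← h2,
    descPochhammer_eval_eq_descFactorial]
  push_cast
  field_simp

lemma cont_coeff (r : ℝ[X]) (f g : ℕ → ℝ → ℝ) (x : ℝ) (hf : ∀ l, ContinuousAt (f l) x)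
    (hg : ∀ l, ContinuousAt (g l) x) (k : ℕ) : ∀ m,
    ContinuousAt (fun t => ((∏ l ∈ range k, (C (f l t) * X - C (g l t))) * r).coeff m) x := by
  induction k with
  | zero => intro m; simpa using continuousAt_const
  | succ k ih =>
    intro m
    simp only [prod_range_succ_comm, mul_assoc, sub_mul, coeff_sub, coeff_C_mul]
    refine ((hf k).mul ?_).sub ((hg k).mul (ih m))
    cases m with
    | zero => simpa using continuousAt_const
    | succ m => simpa only [coeff_X_mul] using ih m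

theorem exists_poly (k : ℕ) (hk : 0 < k) (a : ℝ) (ha0 : 0 < a) (ha : a * (8 * k) ≤ 1) :
    ∃ p : ℝ[X], p.natDegree ≤ 3 * k ^ 2 ∧ |p.coeff 0| = 1 ∧ (∀ j, |p.coeff j| ≤ 1) ∧
      ∃ S : Finset ℝ, S.card = k ∧ ∀ x ∈ S, (0 < x ∧ x ≤ 1 - a) ∧ p.eval x = 0 := by
  have hk1 : (1 : ℝ) ≤ k := by exact_mod_cast hk
  set b : ℝ := 1 / (6 * k) with hb
  have hb6 : b * (6 * k) = 1 := by rw [hb]; field_simp
  have hb0 : 0 < b := by positivity
  have hab : a < b := by nlinarith
  have hb1 : b < 1 := by nlinarith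
  obtain ⟨r, hr⟩ := qq_dvd k
  let Q : ℝ → ℝ[X] := fun t => (∏ l ∈ range k, (C (1 + l * t) * X - C 1)) * r
  have hQ0 : Q 0 = qq k := by simp [Q, hr]
  have hc : ∀ m, ContinuousAt (fun t => (Q t).coeff m) 0 :=
    cont_coeff r (fun l t => 1 + l * t) (fun _ _ => 1) 0 (fun l => by fun_prop)
      (fun _ => continuousAt_const) k
  have hev : ∀ᶠ t in nhds (0 : ℝ), ∀ m ∈ Icc 1 (3 * k ^ 2), |(Q t).coeff m| < (1 - a) ^ m := by
    refine (Filter.eventually_all_finset _).2 fun m hm => ?_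
    refine (hc m).abs.eventually_lt continuousAt_const ?_
    simp only [hQ0]
    exact (qq_bd k b hb6 hb0 hb1 m).trans_lt
      (pow_lt_pow_left₀ (by linarith) (by linarith) (by have := (mem_Icc.1 hm).1; omega))
  obtain ⟨t, ht, ht0⟩ := ((hev.filter_mono nhdsWithin_le_nhds).and
    (self_mem_nhdsWithin (a := (0 : ℝ)) (s := Set.Ioi 0))).exists
  have ht0 : 0 < t := ht0
  have hρ : 0 < 1 - a := by linarith
  have hr0 : r ≠ 0 := by
    rintro rfl; have := qq_zero k; rw [hr] at this; simp at this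
  have hdeg : (Q t).natDegree ≤ 3 * k ^ 2 := by
    have h1 := qq_deg k
    rw [hr, natDegree_mul (pow_ne_zero _ (X_sub_C_ne_zero 1)) hr0, natDegree_pow,
      natDegree_X_sub_C] at h1
    refine natDegree_mul_le.trans ?_
    have h2 : (∏ l ∈ range k, (C (1 + l * t) * X - C 1)).natDegree ≤ k := by
      refine (natDegree_prod_le _ _).trans ((Finset.sum_le_sum (g := fun _ => 1)
        fun l _ => by compute_degree).trans (by simp))
    omega
  have hz : |(Q t).coeff 0| = 1 := by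
    rw [← qq_zero k, ← hQ0]
    simp [Q, coeff_zero_eq_eval_zero, eval_prod]
  refine ⟨(Q t).comp (C (1 - a)⁻¹ * X), ?_, ?_, fun j => ?_,
    (range k).image fun l : ℕ => (1 - a) / (1 + l * t), ?_, ?_⟩
  · refine natDegree_comp_le.trans ?_
    have : (C (1 - a)⁻¹ * X).natDegree ≤ 1 := by compute_degree
    nlinarith
  · rw [comp_C_mul_X_coeff, pow_zero, mul_one, hz]
  · rw [comp_C_mul_X_coeff, abs_mul, abs_of_pos (show 0 < (1 - a)⁻¹ ^ j by positivity), inv_pow,
      ← div_eq_mul_inv, div_le_one (by positivity)]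
    rcases Nat.eq_zero_or_pos j with rfl | hj
    · rw [hz, pow_zero]
    · by_cases h : j ≤ 3 * k ^ 2
      · exact (ht j (mem_Icc.2 ⟨hj, h⟩)).le
      · rw [coeff_eq_zero_of_natDegree_lt (by omega), abs_zero]; positivity
  · rw [card_image_of_injective _ fun i j h => ?_, card_range]
    have h1 : (1 + i * t) = (1 + j * t) := by
      have := (div_eq_div_iff (by positivity) (by positivity)).1 h
      exact (mul_left_cancel₀ hρ.ne' this).symm
    exact_mod_cast mul_right_cancel₀ ht0.ne' (add_left_cancel h1)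
  · intro x hx
    obtain ⟨l, hl, rfl⟩ := mem_image.1 hx
    have h1 : 0 < 1 + l * t := by positivity
    refine ⟨⟨by positivity, div_le_self hρ.le (by have : 0 ≤ l * t := by positivity
                                                  linarith)⟩, ?_⟩
    simp only [Q, eval_comp, eval_mul, eval_prod]
    rw [Finset.prod_eq_zero hl, zero_mul]
    simp only [eval_sub, eval_mul, eval_C, eval_X]
    field_simp
    ring

lemma no_zero (p : ℂ[X]) (h0 : ‖p.coeff 0‖ = 1) (h : ∀ j, ‖p.coeff j‖ ≤ 1) (z : ℂ)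
    (hz : ‖z‖ ≤ 1 / 2) : p.eval z ≠ 0 := by
  intro hp
  rw [eval_eq_sum_range, Finset.sum_range_succ', pow_zero, mul_one] at hp
  have h1 := congrArg norm (eq_neg_of_add_eq_zero_right hp)
  rw [h0, norm_neg] at h1
  have h2 : ‖∑ k ∈ range p.natDegree, p.coeff (k + 1) * z ^ (k + 1)‖
      ≤ ∑ k ∈ range p.natDegree, (1 / 2 : ℝ) ^ (k + 1) := by
    refine norm_sum_le_of_le _ fun k _ => ?_
    rw [norm_mul, norm_pow]
    exact (mul_le_of_le_one_left (by positivity) (h _)).trans (by gcongr)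
  have h3 : ∀ N : ℕ, ∑ k ∈ range N, (1 / 2 : ℝ) ^ (k + 1) = 1 - (1 / 2) ^ N := by
    intro N
    induction N with
    | zero => simp
    | succ N ih => rw [Finset.sum_range_succ, ih]; ring
  rw [h3, ← h1] at h2
  have : (0 : ℝ) < (1 / 2) ^ p.natDegree := by positivity
  linarith

end Pool.Agent.H24.BZ
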