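import Pool.Agent.H24.DBRDefs

open MeasureTheory Set Filter Topology
open scoped ENNReal ComplexConjugate InnerProductSpace

namespace Pool.Agent.H24.DBR

noncomputable def z (x : T) : ℂ := fourier 1 x

lemma z_cont : Continuous z := (fourier 1).continuous

lemma z_norm (x : T) : ‖z x‖ = 1 := by simp [z]

lemma z_conj (x : T) : z x * conj (z x) = 1 := by
  rw [Complex.mul_conj', z_norm]; simp

lemma four_pow (n : ℕ) (x : T) : fourier (n : ℤ) x = z x ^ n := by
  induction n with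
  | zero => simp
  | succ n ih => rw [Nat.cast_succ, fourier_add, ih, pow_succ]; rfl

lemma inner_eq (u v : L2) : ⟪u, v⟫_ℂ = ∫ x, conj (u x) * v x ∂mu := by
  rw [L2.inner_def]
  simp only [RCLike.inner_apply, mul_comm]

/-- function-level Hardy space -/
def H (u : T → ℂ) : Prop := MemLp u 2 mu ∧ ∀ n : ℕ, ∫ x, z x ^ (n + 1) * u x ∂mu = 0

lemma H.congr {u v : T → ℂ} (h : H u) (e : u =ᵐ[mu] v) : H v :=
  ⟨h.1.ae_eq e, fun n => by
    rw [← h.2 n]
    exact integral_congr_ae (by filter_upwards [e] with x hx; rw [hx])⟩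

lemma mem_H2 (u : L2) : u ∈ H2 ↔ H u := by
  have key : ∀ n : ℕ, ⟪fourierLp (T := 1) 2 (-(n + 1 : ℤ)), u⟫_ℂ = ∫ x, z x ^ (n + 1) * u x ∂mu := by
    intro n
    rw [inner_eq]
    refine integral_congr_ae ?_
    filter_upwards [coeFn_fourierLp (T := 1) 2 (-(n + 1 : ℤ))] with x hx
    rw [hx, fourier_neg, Complex.conj_conj, ← four_pow]
    push_cast; rfl
  constructor
  · intro h
    refine ⟨Lp.memLp u, fun n => ?_⟩
    rw [← key]
    exact (Submodule.mem_orthogonal _ _).mp h _ (Submodule.subset_span ⟨n, rfl⟩)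
  · intro h
    rw [Submodule.mem_orthogonal]
    intro v hv
    induction hv using Submodule.span_induction with
    | mem x hx => obtain ⟨n, rfl⟩ := hx; rw [key, h.2]
    | zero => simp
    | add x y _ _ hx hy => rw [inner_add_left, hx, hy, add_zero]
    | smul a x _ hx => rw [inner_smul_left, hx, mul_zero]

def Bd (φ : T → ℂ) : Prop := AEStronglyMeasurable φ mu ∧ ∃ C, ∀ᵐ x ∂mu, ‖φ x‖ ≤ C

lemma Bd.of_cont {φ : T → ℂ} (h : Continuous φ) : Bd φ :=
  ⟨h.aestronglyMeasurable, ‖(⟨φ, h⟩ : C(T, ℂ))‖,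
    Eventually.of_forall fun x => (⟨φ, h⟩ : C(T, ℂ)).norm_coe_le_norm x⟩

lemma Bd.top {φ : T → ℂ} (h : Bd φ) : MemLp φ ∞ mu := by
  obtain ⟨h1, C, h2⟩ := h
  exact memLp_top_of_bound h1 C h2

lemma Bd.memLp {φ u : T → ℂ} (h : Bd φ) (hu : MemLp u 2 mu) : MemLp (fun x => φ x * u x) 2 mu :=
  hu.mul' h.top

lemma Bd.two {φ : T → ℂ} (h : Bd φ) : MemLp φ 2 mu := h.top.mono_exponent le_top

lemma Bd.mul {φ ψ : T → ℂ} (h : Bd φ) (g : Bd ψ) : Bd (fun x => φ x * ψ x) := by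
  obtain ⟨h1, C, h2⟩ := h
  obtain ⟨g1, D, g2⟩ := g
  refine ⟨h1.mul g1, C * D, ?_⟩
  filter_upwards [h2, g2] with x a b
  rw [norm_mul]
  exact mul_le_mul a b (norm_nonneg _) ((norm_nonneg _).trans a)

lemma Bd.conj {φ : T → ℂ} (h : Bd φ) : Bd (fun x => conj (φ x)) := by
  obtain ⟨h1, C, h2⟩ := h
  exact ⟨Complex.continuous_conj.comp_aestronglyMeasurable h1, C, by simpa using h2⟩

lemma Bd.int {φ u : T → ℂ} (h : Bd φ) (hu : MemLp u 2 mu) : Integrable (fun x => φ x * u x) mu :=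
  (h.memLp hu).integrable one_le_two

lemma Bd_zpow (n : ℕ) : Bd (fun x => z x ^ n) := Bd.of_cont (z_cont.pow n)

def Mult (φ : T → ℂ) : Prop := Bd φ ∧ ∀ u, H u → H (fun x => φ x * u x)

lemma Mult.congr {φ ψ : T → ℂ} (h : Mult φ) (e : φ =ᵐ[mu] ψ) : Mult ψ := by
  obtain ⟨⟨h1, C, h2⟩, h3⟩ := h
  refine ⟨⟨h1.congr e, C, by filter_upwards [h2, e] with x a b; rwa [← b]⟩, fun u hu => ?_⟩
  exact (h3 u hu).congr (by filter_upwards [e] with x hx; rw [hx])

lemma Mult_const (c : ℂ) : Mult (fun _ => c) :=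
  ⟨Bd.of_cont continuous_const, fun u hu => ⟨hu.1.const_mul c, fun n => by
    simp only [mul_left_comm _ c, integral_const_mul, hu.2 n, mul_zero]⟩⟩

lemma Mult_z : Mult z :=
  ⟨Bd.of_cont z_cont, fun u hu => ⟨(Bd.of_cont z_cont).memLp hu.1, fun n => by
    simp only [← mul_assoc, ← pow_succ, hu.2 (n + 1)]⟩⟩

lemma Mult.mul {φ ψ : T → ℂ} (h : Mult φ) (g : Mult ψ) : Mult (fun x => φ x * ψ x) :=
  ⟨h.1.mul g.1, fun u hu => by simpa only [mul_assoc] using h.2 _ (g.2 u hu)⟩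

lemma Mult.add {φ ψ : T → ℂ} (h : Mult φ) (g : Mult ψ) : Mult (fun x => φ x + ψ x) := by
  refine ⟨?_, fun u hu => ?_⟩
  · obtain ⟨h1, C, h2⟩ := h.1
    obtain ⟨g1, D, g2⟩ := g.1
    refine ⟨h1.add g1, C + D, ?_⟩
    filter_upwards [h2, g2] with x a b
    exact (norm_add_le _ _).trans (add_le_add a b)
  · have a := h.2 u hu
    have b := g.2 u hu
    refine ⟨(a.1.add b.1).ae_eq (Eventually.of_forall fun x => (add_mul _ _ _).symm), fun n => ?_⟩
    simp only [add_mul, mul_add]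
    rw [integral_add ((Bd_zpow _).int a.1) ((Bd_zpow _).int b.1), a.2, b.2, add_zero]

lemma Mult_prod {ι : Type*} (s : Finset ι) (φ : ι → T → ℂ) (h : ∀ i, Mult (φ i)) :
    Mult (fun x => ∏ i ∈ s, φ i x) := by
  classical
  induction s using Finset.induction_on with
  | empty => simpa using Mult_const 1
  | insert a s ha ih => simpa only [Finset.prod_insert ha] using (h a).mul ih

lemma Mult_sum {ι : Type*} (s : Finset ι) (φ : ι → T → ℂ) (h : ∀ i, Mult (φ i)) :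
    Mult (fun x => ∑ i ∈ s, φ i x) := by
  classical
  induction s using Finset.induction_on with
  | empty => simpa using Mult_const 0
  | insert a s ha ih => simpa only [Finset.sum_insert ha] using (h a).add ih

lemma Mult_lim {φ : ℕ → T → ℂ} {ψ : T → ℂ} (h : ∀ n, Mult (φ n)) (C : ℝ)
    (hC : ∀ n x, ‖φ n x‖ ≤ C) (hl : ∀ᵐ x ∂mu, Tendsto (fun n => φ n x) atTop (𝓝 (ψ x))) :
    Mult ψ := by
  have hb : Bd ψ := ⟨aestronglyMeasurable_of_tendsto_ae atTop (fun n => (h n).1.1) hl, C, by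
    filter_upwards [hl] with x hx
    exact le_of_tendsto' hx.norm fun n => hC n x⟩
  refine ⟨hb, fun u hu => ⟨hb.memLp hu.1, fun m => ?_⟩⟩
  have := tendsto_integral_of_dominated_convergence (μ := mu)
    (F := fun n x => z x ^ (m + 1) * (φ n x * u x)) (f := fun x => z x ^ (m + 1) * (ψ x * u x))
    (fun x => C * ‖u x‖) (fun n => ((Bd_zpow _).int ((h n).2 u hu).1).1)
    ((hu.1.integrable one_le_two).norm.const_mul C)
    (fun n => Eventually.of_forall fun x => by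
      rw [norm_mul, norm_mul, norm_pow, z_norm, one_pow, one_mul]
      exact mul_le_mul_of_nonneg_right (hC n x) (norm_nonneg _))
    (by filter_upwards [hl] with x hx; exact (hx.mul_const _).const_mul _)
  simp only [fun n => ((h n).2 u hu).2 m] at this
  exact tendsto_nhds_unique this tendsto_const_nhds

lemma H_one : H (fun _ => 1) := ⟨memLp_const 1, fun n => by
  have := (orthonormal_iff_ite.mp (orthonormal_fourier (T := 1))) (-(n + 1 : ℤ)) 0
  rw [if_neg (by omega), inner_eq] at this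
  rw [← this]
  refine integral_congr_ae ?_
  filter_upwards [coeFn_fourierLp (T := 1) 2 (-(n + 1 : ℤ)), coeFn_fourierLp (T := 1) 2 0] with x hx hy
  rw [hx, hy, fourier_neg, Complex.conj_conj, ← four_pow, fourier_zero]
  push_cast; rfl⟩

lemma Mult.H {φ : T → ℂ} (h : Mult φ) : H φ := by simpa using h.2 _ H_one

lemma mulOp_ae (φ : Linf) (u : L2) : mulOp φ u =ᵐ[mu] fun x => φ x * u x :=
  (ContinuousLinearMap.mul ℂ ℂ).coeFn_holder φ u

lemma mulOp_adj (φ : Linf) (u v : L2) : ⟪mulOp φ u, v⟫_ℂ = ⟪u, mulOp (star φ) v⟫_ℂ := by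
  rw [inner_eq, inner_eq]
  refine integral_congr_ae ?_
  filter_upwards [mulOp_ae φ u, mulOp_ae (star φ) v, Lp.coeFn_star φ] with x a b c
  rw [a, b, c]
  simp only [map_mul, Pi.star_apply, RCLike.star_def]; ring

lemma inner_toep (φ : Linf) (u v : H2) : ⟪u, toep φ v⟫_ℂ = ⟪(u : L2), mulOp φ v⟫_ℂ := by
  unfold toep compress
  simp only [ContinuousLinearMap.comp_apply, Submodule.subtypeL_apply]
  exact Submodule.inner_orthogonalProjectionOnto_eq_of_mem_left u _

lemma toep_adj (φ : Linf) (u v : H2) : ⟪toep φ u, v⟫_ℂ = ⟪u, toep (star φ) v⟫_ℂ := by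
  rw [inner_toep, ← mulOp_adj, ← inner_conj_symm, inner_toep, inner_conj_symm]

lemma mulOp_norm (φ : Linf) (u : L2) (ε : ℝ) (h : ∀ᵐ x ∂mu, u x ≠ 0 → ‖φ x‖ ≤ ε) :
    ‖mulOp φ u‖ ≤ ε * ‖u‖ := by
  refine Lp.norm_le_mul_norm_of_ae_le_mul ?_
  filter_upwards [mulOp_ae φ u, h] with x a b
  rw [a, norm_mul]
  by_cases h0 : u x = 0
  · simp [h0]
  · exact mul_le_mul_of_nonneg_right (b h0) (norm_nonneg _)

lemma toep_norm (φ : Linf) (h : ∀ᵐ x ∂mu, ‖φ x‖ ≤ 1) (u : H2) : ‖toep φ u‖ ≤ ‖u‖ := by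
  unfold toep compress
  simp only [ContinuousLinearMap.comp_apply, Submodule.subtypeL_apply]
  refine (H2.norm_orthogonalProjectionOnto_apply_le _).trans ?_
  simpa using mulOp_norm φ u 1 (by filter_upwards [h] with x a _; exact a)

lemma star_bd {φ : Linf} (h : ∀ᵐ x ∂mu, ‖φ x‖ ≤ 1) : ∀ᵐ x ∂mu, ‖(star φ : Linf) x‖ ≤ 1 := by
  filter_upwards [h, Lp.coeFn_star φ] with x a b
  rw [b]; simpa using a

lemma opSqrt_facts {H : Type} [NormedAddCommGroup H] [InnerProductSpace ℂ H] [CompleteSpace H]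
    (A : H →L[ℂ] H) (h : A.IsPositive) : opSqrt A * opSqrt A = A ∧ (opSqrt A).IsPositive :=
  ⟨CFC.sqrt_mul_sqrt_self _ ((ContinuousLinearMap.nonneg_iff_isPositive _).mpr h),
    (ContinuousLinearMap.nonneg_iff_isPositive _).mp (CFC.sqrt_nonneg _)⟩

lemma defect_facts (b : Linf) (h : ∀ᵐ x ∂mu, ‖b x‖ ≤ 1) :
    (∀ u v : H2, ⟪defect b u, v⟫_ℂ = ⟪u, defect b v⟫_ℂ) ∧
    (∀ u : H2, defect b (defect b u) = u - toep b (toep (star b) u)) ∧
    ∀ u : H2, ‖defect b u‖ ^ 2 = ‖u‖ ^ 2 - ‖toep (star b) u‖ ^ 2 := by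
  have e1 : ∀ u : H2, ⟪(1 - toep b * toep (star b)) u, u⟫_ℂ =
      ((‖u‖ ^ 2 - ‖toep (star b) u‖ ^ 2 : ℝ) : ℂ) := by
    intro u
    simp only [sub_apply, one_apply_eq_self,
      mul_apply_eq_comp, inner_sub_left, toep_adj, inner_self_eq_norm_sq_to_K]
    push_cast; rfl
  have hpos : (1 - toep b * toep (star b)).IsPositive := by
    rw [ContinuousLinearMap.isPositive_iff_complex]
    intro u
    rw [e1]
    simp only [RCLike.re_to_complex, Complex.ofReal_re, true_and]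
    have := toep_norm _ (star_bd h) u
    nlinarith [norm_nonneg (toep (star b) u)]
  have hsq : defect b * defect b = 1 - toep b * toep (star b) := (opSqrt_facts _ hpos).1
  have hsa : ∀ u v : H2, ⟪defect b u, v⟫_ℂ = ⟪u, defect b v⟫_ℂ :=
    (opSqrt_facts _ hpos).2.isSymmetric
  have h2 : ∀ u : H2, defect b (defect b u) = (1 - toep b * toep (star b)) u := fun u => by
    rw [← hsq]; rfl
  refine ⟨hsa, h2, fun u => ?_⟩
  have := e1 u
  rw [← h2, hsa, inner_self_eq_norm_sq_to_K] at this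
  exact Complex.ofReal_injective (by rw [← this]; push_cast; rfl)

end Pool.Agent.H24.DBR
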