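import Pool.Agent.H24.DBR1

open MeasureTheory Set Filter Topology
open scoped ENNReal ComplexConjugate InnerProductSpace

namespace Pool.Agent.H24.DBR

noncomputable def kf (l : ℝ) (x : T) : ℂ := (1 - l * z x)⁻¹

noncomputable def bf (l : ℝ) (x : T) : ℂ := (l - z x) * kf l x

variable {l : ℝ}

lemma den_ge (h0 : 0 ≤ l) (x : T) : 1 - l ≤ ‖1 - l * z x‖ := by
  have := norm_sub_norm_le (1 : ℂ) (l * z x)
  rwa [norm_one, norm_mul, z_norm, mul_one, Complex.norm_real, Real.norm_of_nonneg h0] at this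

lemma den_ne (h0 : 0 ≤ l) (h1 : l < 1) (x : T) : 1 - l * z x ≠ 0 :=
  norm_pos_iff.mp (lt_of_lt_of_le (by linarith) (den_ge h0 x))

lemma den_near (h1 : l < 1) (x : T) : ‖(1 - l * z x) - (1 - z x)‖ = 1 - l := by
  rw [show (1 - l * z x) - (1 - z x) = ((1 - l : ℝ) : ℂ) * z x by push_cast; ring, norm_mul, z_norm,
    mul_one, Complex.norm_real, Real.norm_of_nonneg (by linarith)]

lemma kf_rec (h0 : 0 ≤ l) (h1 : l < 1) (x : T) : kf l x = 1 + l * (z x * kf l x) := by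
  unfold kf
  have := den_ne h0 h1 x
  field_simp; ring

lemma Mult_kf (h0 : 0 ≤ l) (h1 : l < 1) : Mult (kf l) := by
  have hn : ∀ x, ‖l * z x‖ = l := fun x => by
    rw [norm_mul, z_norm, mul_one, Complex.norm_real, Real.norm_of_nonneg h0]
  refine Mult_lim (φ := fun n x => ∑ i ∈ Finset.range n, ∏ _j ∈ Finset.range i, (l * z x))
    (fun n => Mult_sum _ _ fun i => Mult_prod _ _ fun _ => (Mult_const _).mul Mult_z) (1 - l)⁻¹
    (fun n x => ?_) (Eventually.of_forall fun x => ?_)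
  · refine (norm_sum_le _ _).trans ?_
    simp only [Finset.prod_const, Finset.card_range, norm_pow, hn]
    rw [← tsum_geometric_of_lt_one h0 h1]
    exact (summable_geometric_of_lt_one h0 h1).sum_le_tsum _ fun _ _ => by positivity
  · simp only [Finset.prod_const, Finset.card_range]
    exact (hasSum_geometric_of_norm_lt_one (by rw [hn]; exact h1)).tendsto_sum_nat

lemma Mult_bf (h0 : 0 ≤ l) (h1 : l < 1) : Mult (bf l) := by
  have := ((Mult_const (l : ℂ)).add ((Mult_const (-1)).mul Mult_z)).mul (Mult_kf h0 h1)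
  refine this.congr (Eventually.of_forall fun x => ?_)
  simp [bf, sub_eq_add_neg]

lemma bf_norm (h0 : 0 ≤ l) (h1 : l < 1) (x : T) : ‖bf l x‖ = 1 := by
  have h : ‖(l : ℂ) - z x‖ = ‖1 - l * z x‖ := by
    have : (l : ℂ) - z x = -z x * conj (1 - l * z x) := by
      simp only [map_sub, map_one, map_mul, Complex.conj_ofReal]
      linear_combination (-l : ℂ) * z_conj x
    rw [this, norm_mul, norm_neg, z_norm, one_mul, Complex.norm_conj]
  unfold bf kf
  rw [norm_mul, norm_inv, h]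
  exact mul_inv_cancel₀ (norm_ne_zero_iff.mpr (den_ne h0 h1 x))

lemma H_div (h0 : 0 ≤ l) (h1 : l < 1) {u : T → ℂ} (hu : H u)
    (hk : ∫ x, conj (kf l x) * u x ∂mu = 0) : H (fun x => conj (bf l x) * u x) := by
  have bk := (Mult_kf h0 h1).1.conj
  have a : ∀ m : ℕ, ∫ x, z x ^ m * conj (kf l x) * u x ∂mu = 0 := by
    intro m
    induction m with
    | zero => simpa using hk
    | succ m ih =>
      have : ∀ x, z x ^ (m + 1) * conj (kf l x) * u x =
          z x ^ (m + 1) * u x + l * (z x ^ m * conj (kf l x) * u x) := by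
        intro x
        have h := congrArg conj (kf_rec h0 h1 x)
        simp only [map_add, map_one, map_mul, Complex.conj_ofReal] at h
        linear_combination z x ^ (m + 1) * u x * h +
          l * z x ^ m * conj (kf l x) * u x * z_conj x
      simp only [this]
      rw [integral_add ((Bd_zpow _).int hu.1) ((((Bd_zpow _).mul bk).int hu.1).const_mul _),
        integral_const_mul, ih, hu.2]; simp
  refine ⟨(Mult_bf h0 h1).1.conj.memLp hu.1, fun n => ?_⟩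
  have : ∀ x, z x ^ (n + 1) * (conj (bf l x) * u x) =
      l * (z x ^ (n + 1) * conj (kf l x) * u x) - z x ^ n * conj (kf l x) * u x := by
    intro x
    simp only [bf, map_sub, map_mul, Complex.conj_ofReal]
    linear_combination (-z x ^ n * conj (kf l x) * u x) * z_conj x
  simp only [this]
  rw [integral_sub ((((Bd_zpow _).mul bk).int hu.1).const_mul _) (((Bd_zpow _).mul bk).int hu.1),
    integral_const_mul, a, a]; simp

lemma mul_mem {b : Linf} (hb : Mult b) (u : L2) (hu : u ∈ H2) : mulOp b u ∈ H2 :=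
  (mem_H2 _).mpr ((hb.2 _ ((mem_H2 _).mp hu)).congr (mulOp_ae b u).symm)

lemma key_lower (h0 : 0 ≤ l) (h1 : l < 1) (b : Linf) (hb : Mult b) (hb1 : ∀ᵐ x ∂mu, ‖b x‖ ≤ 1)
    (σ : ℂ) (hσ : ‖σ‖ = 1) (ε : ℝ) (hε : 0 ≤ ε) (x : L2)
    (hx : ∀ᵐ t ∂mu, x t ≠ 0 → ‖b t - σ * bf l t‖ ≤ ε)
    (hk : ∫ t, conj (kf l t) * x t ∂mu = 0) (g : H2) :
    ‖⟪x, (defect b g : L2)⟫_ℂ‖ ^ 2 ≤ 2 * ε * ‖x‖ ^ 2 * ‖g‖ ^ 2 := by
  obtain ⟨d1, -, d3⟩ := defect_facts b hb1
  obtain ⟨u, hu⟩ : ∃ u : H2, u = H2.orthogonalProjectionOnto x := ⟨_, rfl⟩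
  have hux : ∀ v : L2, v ∈ H2 → ⟪v, (u : L2)⟫_ℂ = ⟪v, x⟫_ℂ := fun v hv => by
    rw [hu]; exact Submodule.inner_orthogonalProjectionOnto_eq_of_mem_left (⟨v, hv⟩ : H2) x
  have hun : ‖u‖ ≤ ‖x‖ := by rw [hu]; exact H2.norm_orthogonalProjectionOnto_apply_le x
  let β : Linf := (Mult_bf h0 h1).1.top.toLp
  have hβ : β =ᵐ[mu] bf l := MemLp.coeFn_toLp _
  let k : L2 := (Mult_kf h0 h1).1.two.toLp
  have hkk : k =ᵐ[mu] kf l := MemLp.coeFn_toLp _
  have kin : ∀ v : L2, ⟪k, v⟫_ℂ = ∫ t, conj (kf l t) * v t ∂mu := fun v => by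
    rw [inner_eq]
    exact integral_congr_ae (by filter_upwards [hkk] with t ht; rw [ht])
  have kH : k ∈ H2 := (mem_H2 _).mpr ((Mult_kf h0 h1).H.congr hkk.symm)
  obtain ⟨h, hh⟩ : ∃ h : L2, h = mulOp (star β) u := ⟨_, rfl⟩
  have hae : h =ᵐ[mu] fun t => conj (bf l t) * (u : L2) t := by
    rw [hh]
    filter_upwards [mulOp_ae (star β) u, Lp.coeFn_star β, hβ] with t a b c
    rw [a, b, Pi.star_apply, c]; rfl
  have hH : h ∈ H2 := (mem_H2 _).mpr ((H_div h0 h1 ((mem_H2 _).mp u.2)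
    (by rw [← kin, hux k kH, kin, hk])).congr hae.symm)
  have hn0 : ‖h‖ ≤ ‖(u : L2)‖ := Lp.norm_le_norm_of_ae_le (by
    filter_upwards [hae] with t ht
    rw [ht, norm_mul, Complex.norm_conj, bf_norm h0 h1, one_mul])
  have hn : ‖h‖ ≤ ‖u‖ := hn0
  have hβh : mulOp β h = u := Lp.ext (by
    filter_upwards [mulOp_ae β h, hae, hβ] with t a b c
    rw [a, b, c, ← mul_assoc, Complex.mul_conj', bf_norm h0 h1]; simp)
  let D : Linf := b - σ • β
  have hD : ‖mulOp (star D) x‖ ≤ ε * ‖x‖ := mulOp_norm _ _ _ (by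
    filter_upwards [Lp.coeFn_star D, Lp.coeFn_sub b (σ • β), Lp.coeFn_smul σ β, hβ, hx]
      with t a b c d e ht
    rw [a, Pi.star_apply, norm_star, b, Pi.sub_apply, c, Pi.smul_apply, d]
    exact e ht)
  have e1 : ⟪(⟨h, hH⟩ : H2), toep (star b) u⟫_ℂ =
      ⟪h, mulOp (star D) x⟫_ℂ + conj σ * ((‖u‖ ^ 2 : ℝ) : ℂ) := by
    rw [inner_toep, ← mulOp_adj, hux _ (mul_mem hb h hH), ← mulOp_adj]
    have : mulOp b h = mulOp D h + σ • (u : L2) := by
      rw [← hβh]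
      simp [D, mulOp]
    show ⟪mulOp b h, x⟫_ℂ = _
    rw [this, inner_add_left, inner_smul_left, ← hux u u.2, inner_self_eq_norm_sq_to_K]
    push_cast; rfl
  have e2 : ‖u‖ ^ 2 ≤ ‖u‖ * ‖toep (star b) u‖ + ‖u‖ * (ε * ‖x‖) := by
    have a1 : ‖⟪(⟨h, hH⟩ : H2), toep (star b) u⟫_ℂ‖ ≤ ‖u‖ * ‖toep (star b) u‖ :=
      (norm_inner_le_norm _ _).trans (mul_le_mul_of_nonneg_right hn (norm_nonneg _))
    have a2 : ‖⟪h, mulOp (star D) x⟫_ℂ‖ ≤ ‖u‖ * (ε * ‖x‖) :=
      (norm_inner_le_norm _ _).trans (mul_le_mul hn hD (norm_nonneg _) (norm_nonneg _))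
    have a3 : ‖conj σ * ((‖u‖ ^ 2 : ℝ) : ℂ)‖ = ‖u‖ ^ 2 := by
      rw [norm_mul, Complex.norm_conj, hσ, one_mul, Complex.norm_real,
        Real.norm_of_nonneg (sq_nonneg _)]
    rw [← a3, ← sub_eq_iff_eq_add'.mpr e1]
    exact (norm_sub_le _ _).trans (add_le_add a1 a2)
  have e3 : ‖defect b u‖ ^ 2 ≤ 2 * ε * ‖x‖ ^ 2 := by
    rw [d3]
    have a1 := toep_norm _ (star_bd hb1) u
    have a0 := norm_nonneg (toep (star b) u)
    have a2 := norm_nonneg u
    have a3 : ‖u‖ * (ε * ‖x‖) ≤ ‖x‖ * (ε * ‖x‖) :=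
      mul_le_mul_of_nonneg_right hun (by positivity)
    nlinarith [sq_nonneg (‖u‖ - ‖toep (star b) u‖)]
  have e4 : ⟪x, (defect b g : L2)⟫_ℂ = ⟪defect b u, g⟫_ℂ := by
    rw [d1, ← inner_conj_symm, ← hux _ (defect b g).2, inner_conj_symm]; rfl
  rw [e4]
  refine (pow_le_pow_left₀ (norm_nonneg _) (norm_inner_le_norm _ _) 2).trans ?_
  rw [mul_pow]
  exact mul_le_mul_of_nonneg_right e3 (sq_nonneg _)

lemma norm_sq_eq (u : L2) : ‖u‖ ^ 2 = ∫ x, ‖u x‖ ^ 2 ∂mu := by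
  have := inner_eq u u
  simp only [Complex.conj_mul', ← Complex.ofReal_pow, integral_complex_ofReal,
    inner_self_eq_norm_sq_to_K] at this
  exact Complex.ofReal_injective (by rw [← this]; push_cast; rfl)

lemma norm_sq_ge (u : L2) (I : Set T) (hI : MeasurableSet I) (c : ℝ) (hc : 0 ≤ c)
    (h : ∀ᵐ x ∂mu, x ∈ I → c ≤ ‖u x‖) : mu.real I * c ^ 2 ≤ ‖u‖ ^ 2 := by
  rw [norm_sq_eq, ← smul_eq_mul, ← integral_indicator_const _ hI]
  refine integral_mono_ae ((integrable_const _).indicator hI)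
    ((Lp.memLp u).integrable_norm_pow two_ne_zero) ?_
  filter_upwards [h] with x hx
  by_cases hxI : x ∈ I
  · rw [indicator_of_mem hxI]; exact pow_le_pow_left₀ hc (hx hxI) 2
  · rw [indicator_of_notMem hxI]; positivity

lemma lower2 (h0 : 0 ≤ l) (h1 : l < 1) (b : Linf) (hb : Mult b) (hb1 : ∀ᵐ x ∂mu, ‖b x‖ ≤ 1)
    (σ : ℂ) (hσ : ‖σ‖ = 1) (ε : ℝ) (hε : 0 ≤ ε) (I J : Set T) (hI : MeasurableSet I)
    (hJ : MeasurableSet J) (m δ : ℝ) (mI : m ≤ mu.real I) (mJ : m ≤ mu.real J)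
    (kI : ∀ t ∈ I, ‖1 - l * z t‖ ≤ δ) (kJ : ∀ t ∈ J, 2 * δ ≤ ‖1 - l * z t‖)
    (hx : ∀ᵐ t ∂mu, t ∈ I ∪ J → ‖b t - σ * bf l t‖ ≤ ε) (g : H2)
    (hg : ∀ᵐ t ∂mu, t ∈ I ∪ J → ‖(defect b g : L2) t‖ = 1) : m / 9 ≤ 2 * ε * ‖g‖ ^ 2 := by
  obtain ⟨f, hf⟩ : ∃ f : L2, f = defect b g := ⟨_, rfl⟩
  rw [← hf] at hg
  have hE := hI.union hJ
  let y : L2 := ((Mult_kf h0 h1).1.two.indicator hE).toLp
  have hy : y =ᵐ[mu] (I ∪ J).indicator (kf l) := MemLp.coeFn_toLp _
  let w : L2 := ((Lp.memLp f).indicator hE).toLp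
  have hw : w =ᵐ[mu] (I ∪ J).indicator f := MemLp.coeFn_toLp _
  obtain ⟨p, hp, q, hq, e⟩ := (ℂ ∙ y).exists_add_mem_mem_orthogonal w
  obtain ⟨a, rfl⟩ := Submodule.mem_span_singleton.mp hp
  have hq1 : ⟪y, q⟫_ℂ = 0 := (Submodule.mem_orthogonal_singleton_iff_inner_right).mp hq
  have hq2 : q =ᵐ[mu] (I ∪ J).indicator fun t => f t - a * kf l t := by
    rw [← sub_eq_iff_eq_add'.mpr e]
    filter_upwards [Lp.coeFn_sub w (a • y), Lp.coeFn_smul a y, hy, hw] with t h1 h2 h3 h4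
    rw [h1, Pi.sub_apply, h2, Pi.smul_apply, h3, h4]
    by_cases ht : t ∈ I ∪ J
    · simp only [indicator_of_mem ht, smul_eq_mul]
    · simp [indicator_of_notMem ht]
  have hq3 : ∫ t, conj (kf l t) * q t ∂mu = 0 := by
    rw [← hq1, inner_eq]
    refine integral_congr_ae ?_
    filter_upwards [hy, hq2] with t h1 h2
    rw [h1, h2]
    by_cases ht : t ∈ I ∪ J
    · simp only [indicator_of_mem ht]
    · simp [indicator_of_notMem ht]
  have hq4 : ⟪q, f⟫_ℂ = ((‖q‖ ^ 2 : ℝ) : ℂ) := by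
    have : ⟪q, f⟫_ℂ = ⟪q, w⟫_ℂ := by
      rw [inner_eq, inner_eq]
      refine integral_congr_ae ?_
      filter_upwards [hw, hq2] with t h1 h2
      rw [h1, h2]
      by_cases ht : t ∈ I ∪ J
      · simp only [indicator_of_mem ht]
      · simp [indicator_of_notMem ht]
    rw [this, e, inner_add_right, inner_smul_right, ← inner_conj_symm, hq1,
      inner_self_eq_norm_sq_to_K]
    simp
  have k1 := key_lower h0 h1 b hb hb1 σ hσ ε hε q (by
    filter_upwards [hq2, hx] with t h1 h2 ht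
    refine h2 (by_contra fun hn => ht ?_)
    rw [h1, indicator_of_notMem hn]) hq3 g
  rw [← hf, hq4, Complex.norm_real, Real.norm_of_nonneg (sq_nonneg _)] at k1
  have k2 : m / 9 ≤ ‖q‖ ^ 2 := by
    rcases le_total (4 / 3 * δ) ‖a‖ with h | h
    · have := norm_sq_ge q I hI (1 / 3) (by norm_num) (by
        filter_upwards [hq2, hg] with t h2 h3 ht
        rw [h2, indicator_of_mem (mem_union_left _ ht), norm_sub_rev]
        have a1 := norm_sub_norm_le (a * kf l t) (f t)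
        rw [h3 (mem_union_left _ ht), norm_mul, kf, norm_inv] at a1
        have a2 : 4 / 3 ≤ ‖a‖ * ‖1 - l * z t‖⁻¹ := by
          rw [← div_eq_mul_inv, le_div_iff₀ (norm_pos_iff.mpr (den_ne h0 h1 t))]
          linarith [kI t ht]
        unfold kf
        linarith)
      linarith
    · have := norm_sq_ge q J hJ (1 / 3) (by norm_num) (by
        filter_upwards [hq2, hg] with t h2 h3 ht
        rw [h2, indicator_of_mem (mem_union_right _ ht)]
        have a1 := norm_sub_norm_le (f t) (a * kf l t)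
        rw [h3 (mem_union_right _ ht), norm_mul, kf, norm_inv] at a1
        have a2 : ‖a‖ * ‖1 - l * z t‖⁻¹ ≤ 2 / 3 := by
          rw [← div_eq_mul_inv, div_le_iff₀ (norm_pos_iff.mpr (den_ne h0 h1 t))]
          linarith [kJ t ht]
        unfold kf
        linarith)
      linarith
  rcases eq_or_lt_of_le (sq_nonneg ‖q‖) with h | h
  · rw [← h] at k2
    exact k2.trans (by positivity)
  · refine k2.trans (le_of_mul_le_mul_left ?_ h)
    nlinarith

end Pool.Agent.H24.DBR
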