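import Pool.Agent.H24.DBR2

open MeasureTheory Set Filter Topology
open scoped ENNReal ComplexConjugate InnerProductSpace

namespace Pool.Agent.H24.DBR

variable {l : ℝ}

lemma kf_sq (h0 : 0 ≤ l) (h1 : l < 1) : (1 - l) * ∫ x, ‖kf l x‖ ^ 2 ∂mu ≤ 1 := by
  have hk := Mult_kf h0 h1
  have i1 : Integrable (kf l) mu := hk.1.two.integrable one_le_two
  have e1 : ∫ x, kf l x ∂mu = 1 := by
    rw [integral_congr_ae (Eventually.of_forall (kf_rec h0 h1)),
      integral_add (integrable_const _) (((Bd.of_cont z_cont).int hk.1.two).const_mul _),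
      integral_const_mul]
    have := hk.H.2 0
    simp only [zero_add, pow_one] at this
    rw [this]; simp
  have e2 : ∀ x, (((1 - l ^ 2) * ‖kf l x‖ ^ 2 : ℝ) : ℂ) = kf l x + conj (kf l x) - 1 := by
    intro x
    have a := kf_rec h0 h1 x
    have b := congrArg conj a
    simp only [map_add, map_one, map_mul, Complex.conj_ofReal] at b
    push_cast
    rw [← Complex.mul_conj']
    linear_combination (conj (kf l x) - 1) * a + (l * z x * kf l x) * b +
      (l ^ 2 * kf l x * conj (kf l x)) * z_conj x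
  have i2 : Integrable (fun x => conj (kf l x)) mu := hk.1.conj.two.integrable one_le_two
  have e3 : (1 - l ^ 2) * ∫ x, ‖kf l x‖ ^ 2 ∂mu = 1 := by
    rw [← integral_const_mul]
    apply Complex.ofReal_injective
    rw [← integral_complex_ofReal]
    simp only [e2]
    rw [integral_sub (f := fun x => kf l x + conj (kf l x)) (i1.add i2) (integrable_const _),
      integral_add i1 i2, integral_conj, e1]
    simp
  have : 0 ≤ ∫ x, ‖kf l x‖ ^ 2 ∂mu := integral_nonneg fun _ => sq_nonneg _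
  nlinarith [mul_nonneg h0 (sub_nonneg.mpr h1.le)]

lemma upper1 (h0 : 0 ≤ l) (h1 : l < 1) (b : Linf) (hb1 : ∀ᵐ x ∂mu, ‖b x‖ ≤ 1)
    (r : T → ℂ) (hr : Mult r) (hbr : b =ᵐ[mu] fun x => bf l x * r x) (E : Set T) (hE : IsOpen E)
    (c : ℝ) (hc : ∀ t ∈ E, ‖1 - l * z t‖ ≤ c) : cap1 b E ≤ ENNReal.ofReal (c ^ 2 / (1 - l)) := by
  obtain ⟨d1, d2, -⟩ := defect_facts b hb1
  let k : L2 := (Mult_kf h0 h1).1.two.toLp
  have hkk : k =ᵐ[mu] kf l := MemLp.coeFn_toLp _
  have kH : k ∈ H2 := (mem_H2 _).mpr ((Mult_kf h0 h1).H.congr hkk.symm)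
  obtain ⟨K, hK⟩ : ∃ K : H2, K = ⟨k, kH⟩ := ⟨_, rfl⟩
  have hK' : (K : L2) = k := by rw [hK]
  have e1 : toep (star b) K = 0 := by
    refine ext_inner_left ℂ fun v => ?_
    rw [inner_toep, ← mulOp_adj, inner_zero_right, ← inner_conj_symm, inner_eq, hK']
    have := (((Mult_kf h0 h1).mul hr).2 _ ((mem_H2 _).mp v.2)).2 0
    rw [map_eq_zero, ← neg_eq_zero, ← integral_neg, ← this]
    refine integral_congr_ae ?_
    filter_upwards [hkk, mulOp_ae b v, hbr] with t a b c
    rw [a, b, c]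
    have b' := congrArg conj (kf_rec h0 h1 t)
    simp only [map_add, map_one, map_mul, Complex.conj_ofReal] at b'
    unfold bf
    linear_combination (z t * kf l t * r t * (v : L2) t) * b' +
      (l * conj (kf l t) * kf l t * r t * (v : L2) t) * z_conj t
  have e2 : defect b (defect b K) = K := by rw [d2, e1]; simp
  have e3 : ‖defect b K‖ ^ 2 = ∫ x, ‖kf l x‖ ^ 2 ∂mu := by
    have : ‖defect b K‖ ^ 2 = ‖K‖ ^ 2 := by
      have := d1 K (defect b K)
      rw [e2, inner_self_eq_norm_sq_to_K, inner_self_eq_norm_sq_to_K] at this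
      exact_mod_cast this
    rw [this, show ‖K‖ = ‖k‖ by rw [← hK']; rfl, norm_sq_eq]
    exact integral_congr_ae (by filter_upwards [hkk] with t ht; rw [ht])
  refine iInf_le_of_le ((c : ℂ) • K) (iInf_le_of_le E (iInf_le_of_le hE (iInf_le_of_le subset_rfl
    (iInf_le_of_le ?_ (iInf_le_of_le ((c : ℂ) • defect b K) (iInf_le_of_le ?_
      (iInf_le_of_le ?_ ?_)))))))
  · rw [Submodule.coe_smul, hK']
    filter_upwards [Lp.coeFn_smul (c : ℂ) k, hkk] with t a b ht
    have h2 := norm_pos_iff.mpr (den_ne h0 h1 t)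
    rw [a, Pi.smul_apply, b, smul_eq_mul, norm_mul, kf, norm_inv, Complex.norm_real,
      Real.norm_of_nonneg (h2.le.trans (hc t ht)), ← div_eq_mul_inv, le_div_iff₀ h2, one_mul]
    exact hc t ht
  · refine Submodule.smul_mem _ _ ((Submodule.mem_orthogonal _ _).mpr fun v hv => ?_)
    rw [← d1, show defect b v = 0 from hv, inner_zero_left]
  · rw [map_smul, e2]
  · rw [← ofReal_norm, ← ENNReal.ofReal_pow (norm_nonneg _)]
    refine ENNReal.ofReal_le_ofReal ?_
    rw [norm_smul, mul_pow, e3, Complex.norm_real, Real.norm_eq_abs, sq_abs,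
      le_div_iff₀ (by linarith)]
    have := kf_sq h0 h1
    nlinarith [sq_nonneg c]

noncomputable def dl (j : ℕ) : ℝ := (1 / 2) ^ ((j + 1) ^ 2)

lemma dl_pos (j : ℕ) : 0 < dl j := by unfold dl; positivity

lemma dl_le (j : ℕ) : dl j ≤ (1 / 2) ^ (j + 1) :=
  pow_le_pow_of_le_one (by norm_num) (by norm_num) (by nlinarith)

lemma dl_le1 (j : ℕ) : dl j ≤ 1 := (dl_le j).trans (pow_le_one₀ (by norm_num) (by norm_num))

lemma dl_lt {i j : ℕ} (h : i < j) : dl j ≤ dl i * ((1 / 2) ^ i * (1 / 2) ^ j) := by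
  unfold dl
  rw [← pow_add, ← pow_add]
  exact pow_le_pow_of_le_one (by norm_num) (by norm_num) (by nlinarith)

noncomputable def lam (j : ℕ) : ℝ := 1 - dl j

lemma lam0 (j : ℕ) : 0 ≤ lam j := sub_nonneg.mpr (dl_le1 j)
lemma lam1 (j : ℕ) : lam j < 1 := sub_lt_self _ (dl_pos j)

lemma bf_sub (h0 : 0 ≤ l) (h1 : l < 1) (x : T) :
    ‖bf l x - 1‖ * ‖1 - z x‖ ≤ 4 * (1 - l) := by
  have e : bf l x - 1 = -((1 - l : ℝ) : ℂ) * (1 + z x) * kf l x := by
    have := kf_rec h0 h1 x
    unfold bf; push_cast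
    linear_combination this
  have a1 : ‖1 - z x‖ ≤ 2 * ‖1 - l * z x‖ := by
    have := norm_sub_norm_le (1 - z x) (1 - l * z x)
    rw [norm_sub_rev (1 - z x), den_near h1] at this
    linarith [den_ge h0 x]
  have a2 : ‖1 + z x‖ ≤ 2 := (norm_add_le _ _).trans (by rw [norm_one, z_norm]; norm_num)
  have a3 := norm_pos_iff.mpr (den_ne h0 h1 x)
  rw [e, norm_mul, norm_mul, norm_neg, Complex.norm_real, Real.norm_of_nonneg (by linarith), kf,
    norm_inv, mul_assoc, inv_mul_eq_div]
  have a4 : ‖1 - z x‖ / ‖1 - l * z x‖ ≤ 2 := by rwa [div_le_iff₀ a3]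
  have : 0 ≤ 1 - l := by linarith
  calc (1 - l) * ‖1 + z x‖ * (‖1 - z x‖ / ‖1 - l * z x‖) ≤ (1 - l) * 2 * 2 := by gcongr
    _ = _ := by ring

lemma bf_add (h0 : 0 ≤ l) (h1 : l < 1) (x : T) :
    ‖bf l x - (-1)‖ * (1 - l) ≤ 2 * ‖1 - z x‖ := by
  have e : bf l x - (-1) = ((1 + l : ℝ) : ℂ) * (1 - z x) * kf l x := by
    have := kf_rec h0 h1 x
    unfold bf; push_cast
    linear_combination -this
  have a3 := norm_pos_iff.mpr (den_ne h0 h1 x)
  rw [e, norm_mul, norm_mul, Complex.norm_real, Real.norm_of_nonneg (by linarith), kf,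
    norm_inv, mul_assoc, inv_mul_eq_div]
  have a4 : (1 - l) / ‖1 - l * z x‖ ≤ 1 := by rw [div_le_one a3]; exact den_ge h0 x
  have : 0 ≤ 1 - l := by linarith
  calc (1 + l) * ‖1 - z x‖ * ((1 - l) / ‖1 - l * z x‖) ≤ 2 * ‖1 - z x‖ * 1 := by
        gcongr; linarith
    _ = _ := by ring

lemma prod_close (s : Finset ℕ) (a σ : ℕ → ℂ) (ha : ∀ i, ‖a i‖ = 1) (hσ : ∀ i, ‖σ i‖ = 1) :
    ‖∏ i ∈ s, a i - ∏ i ∈ s, σ i‖ ≤ ∑ i ∈ s, ‖a i - σ i‖ := by
  induction s using Finset.induction_on with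
  | empty => simp
  | insert j s hj ih =>
    rw [Finset.prod_insert hj, Finset.prod_insert hj, Finset.sum_insert hj]
    have : a j * ∏ i ∈ s, a i - σ j * ∏ i ∈ s, σ i =
        (a j - σ j) * ∏ i ∈ s, σ i + a j * (∏ i ∈ s, a i - ∏ i ∈ s, σ i) := by ring
    rw [this]
    refine (norm_add_le _ _).trans ?_
    rw [norm_mul, norm_mul, ha, norm_prod]
    simp only [hσ, Finset.prod_const_one, mul_one, one_mul]
    linarith

lemma vol_eq : (volume : Measure T) = mu := by
  rw [AddCircle.volume_eq_smul_haarAddCircle]; simp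

lemma ae_ne : ∀ᵐ x ∂mu, z x ≠ 1 := by
  have : {x : T | z x = 1} ⊆ {0} := by
    intro x hx
    have h : AddCircle.toCircle x = AddCircle.toCircle (0 : T) := by
      apply Circle.ext
      rw [← fourier_one, ← fourier_one, fourier_eval_zero]; exact hx
    exact AddCircle.injective_toCircle one_ne_zero h
  rw [ae_iff]
  simp only [not_not]
  refine measure_mono_null this ?_
  have := AddCircle.volume_closedBall (T := 1) (x := 0) 0
  rw [vol_eq, Metric.closedBall_zero] at this
  simpa using this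

noncomputable def gam (n : Option ℕ) (j : ℕ) (x : T) : ℂ := if some j = n then 1 else bf (lam j) x

lemma gam_norm (n : Option ℕ) (j : ℕ) (x : T) : ‖gam n j x‖ = 1 := by
  unfold gam; split_ifs
  · simp
  · exact bf_norm (lam0 j) (lam1 j) x

lemma gam_mult (n : Option ℕ) (x : T) (hx : z x ≠ 1) : Multipliable fun j => gam n j x := by
  have h0 : 0 < ‖1 - z x‖ := norm_pos_iff.mpr (sub_ne_zero.mpr hx.symm)
  have : Summable fun j => ‖gam n j x - 1‖ := by
    refine Summable.of_nonneg_of_le (fun _ => norm_nonneg _) (fun j => ?_)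
      ((summable_geometric_two.mul_left 4).div_const ‖1 - z x‖)
    rw [le_div_iff₀ h0]
    unfold gam; split_ifs
    · simp
    · refine (bf_sub (lam0 j) (lam1 j) x).trans ?_
      have := dl_le j
      have h2 : (1 / 2 : ℝ) ^ (j + 1) ≤ (1 / 2) ^ j :=
        pow_le_pow_of_le_one (by norm_num) (by norm_num) (by omega)
      unfold lam; linarith
  simpa using multipliable_one_add_of_summable this

noncomputable def th (n : Option ℕ) (x : T) : ℂ := ∏' j, gam n j x

lemma th_lim (n : Option ℕ) (x : T) (hx : z x ≠ 1) :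
    Tendsto (fun N => ∏ j ∈ Finset.range N, gam n j x) atTop (𝓝 (th n x)) :=
  (gam_mult n x hx).hasProd.tendsto_prod_nat

lemma th_norm (n : Option ℕ) (x : T) (hx : z x ≠ 1) : ‖th n x‖ = 1 := by
  have := (th_lim n x hx).norm
  simp only [norm_prod, gam_norm, Finset.prod_const_one] at this
  exact tendsto_nhds_unique this tendsto_const_nhds

lemma Mult_th (n : Option ℕ) : Mult (th n) := by
  refine Mult_lim (fun N => Mult_prod (Finset.range N) (gam n) fun j => ?_) 1
    (fun N x => by simp [gam_norm]) (by filter_upwards [ae_ne] with x hx; exact th_lim n x hx)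
  unfold gam; split_ifs
  · exact Mult_const 1
  · exact Mult_bf (lam0 j) (lam1 j)

lemma th_split (n : ℕ) (x : T) (hx : z x ≠ 1) : th none x = bf (lam n) x * th (some n) x := by
  have h1 := th_lim none x hx
  have h2 := (th_lim (some n) x hx).const_mul (bf (lam n) x)
  refine tendsto_nhds_unique h1 (h2.congr' ?_)
  filter_upwards [eventually_gt_atTop n] with N hN
  have hn : n ∈ Finset.range N := Finset.mem_range.mpr hN
  rw [← Finset.mul_prod_erase _ _ hn, ← Finset.mul_prod_erase _ _ hn]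
  simp only [gam, if_true, one_mul, reduceCtorEq, if_false]
  congr 1
  refine Finset.prod_congr rfl fun j hj => ?_
  rw [if_neg (by simpa using Finset.ne_of_mem_erase hj)]

lemma th_close (n : ℕ) (x : T) (h1 : dl n ≤ ‖1 - z x‖) (h2 : ‖1 - z x‖ ≤ 14 * dl n) :
    ‖th (some n) x - (-1) ^ n‖ ≤ 56 * (1 / 2) ^ n := by
  have hx : z x ≠ 1 := fun h => by
    rw [h, sub_self, norm_zero] at h1; linarith [dl_pos n]
  refine le_of_tendsto ((th_lim (some n) x hx).sub_const ((-1) ^ n)).norm ?_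
  filter_upwards [eventually_ge_atTop n] with N hN
  have e : ((-1 : ℂ)) ^ n = ∏ j ∈ Finset.range N, if j < n then (-1 : ℂ) else 1 := by
    rw [Finset.prod_ite, Finset.prod_const_one, mul_one, Finset.prod_const]
    congr 1
    rw [show (Finset.range N).filter (· < n) = Finset.range n by ext; simp; omega,
      Finset.card_range]
  rw [e]
  refine (prod_close _ _ _ (fun i => gam_norm _ i x) fun i => by split_ifs <;> simp).trans ?_
  have hb : ∀ j ∈ Finset.range N, ‖gam (some n) j x - if j < n then (-1 : ℂ) else 1‖ ≤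
      28 * (1 / 2) ^ n * (1 / 2) ^ j := by
    intro j _
    have dn := dl_pos n
    have dj := dl_pos j
    rcases lt_trichotomy j n with h | h | h
    · rw [if_pos h, gam, if_neg (by simpa using h.ne)]
      have a := bf_add (lam0 j) (lam1 j) x
      rw [lam, sub_sub_cancel] at a
      have b := dl_lt h
      refine le_of_mul_le_mul_right ?_ dj
      rw [lam]; nlinarith
    · subst h; simp [gam]
    · rw [if_neg (not_lt.mpr h.le), gam, if_neg (by simpa using h.ne')]
      have a := bf_sub (lam0 j) (lam1 j) x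
      rw [lam, sub_sub_cancel] at a
      have b := dl_lt h
      refine le_of_mul_le_mul_right ?_ dn
      rw [lam]
      have c := mul_le_mul_of_nonneg_left h1 (norm_nonneg (bf (1 - dl j) x - 1))
      have : 0 ≤ dl n * ((1 / 2) ^ n * (1 / 2) ^ j) := by positivity
      nlinarith
  refine (Finset.sum_le_sum hb).trans ?_
  rw [← Finset.mul_sum]
  have := sum_geometric_two_le N
  have h3 : (0:ℝ) ≤ (1 / 2) ^ n := by positivity
  nlinarith

def arc (a b : ℝ) : Set T := ((↑) : ℝ → T) '' Ioo a b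

lemma arc_open (a b : ℝ) : IsOpen (arc a b) := QuotientAddGroup.isOpenMap_coe _ isOpen_Ioo

lemma arc_meas (a b : ℝ) (ha : 0 ≤ a) (hb : b ≤ 1) : b - a ≤ mu.real (arc a b) := by
  have h := (AddCircle.measurePreserving_mk (1:ℝ) 0).measure_preimage
    (arc_open a b).measurableSet.nullMeasurableSet
  rw [vol_eq] at h
  have h2 : ENNReal.ofReal (b - a) ≤ mu (arc a b) := by
    rw [← h, ← Real.volume_Ioo]
    refine le_trans (measure_mono ?_) (Measure.le_restrict_apply _ _)
    intro t ht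
    exact ⟨⟨t, ht, rfl⟩, by constructor <;> linarith [ht.1, ht.2]⟩
  exact (ENNReal.ofReal_le_iff_le_toReal (measure_ne_top _ _)).mp h2

lemma arc_bd (a b : ℝ) (ha : 0 ≤ a) (hb : b ≤ 1 / 2) (x : T) (hx : x ∈ arc a b) :
    4 * a ≤ ‖1 - z x‖ ∧ ‖1 - z x‖ ≤ 20 / 3 * b := by
  obtain ⟨t, ht, rfl⟩ := hx
  have e : z (t : T) = Complex.exp (Complex.I * ((2 * Real.pi * t : ℝ) : ℂ)) := by
    unfold z
    rw [fourier_coe_apply]; congr 1; push_cast; ring
  have t0 : 0 < t := ha.trans_lt ht.1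
  have t1 : t < 1 / 2 := ht.2.trans_le hb
  have hp := Real.pi_pos
  rw [e, norm_sub_rev]
  constructor
  · rw [Complex.norm_exp_I_mul_ofReal_sub_one]
    have := Real.mul_le_sin (x := 2 * Real.pi * t / 2) (by positivity) (by nlinarith)
    have e2 : 2 / Real.pi * (2 * Real.pi * t / 2) = 2 * t := by field_simp
    rw [e2] at this
    refine le_trans ?_ (le_abs_self _)
    linarith [ht.1]
  · refine Real.norm_exp_I_mul_ofReal_sub_one_le.trans ?_
    rw [Real.norm_of_nonneg (by positivity)]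
    nlinarith [Real.pi_lt_d2, ht.2]

end Pool.Agent.H24.DBR
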