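import Pool.Agent.H24.DBR3

open MeasureTheory Set Filter Topology
open scoped ENNReal NNReal ComplexConjugate InnerProductSpace

namespace Pool.Agent.H24.DBR


lemma opSqrt_pos {H : Type} [NormedAddCommGroup H] [InnerProductSpace ℂ H] [CompleteSpace H]
    (A : H →L[ℂ] H) : (opSqrt A).IsPositive :=
  (ContinuousLinearMap.nonneg_iff_isPositive _).mp (CFC.sqrt_nonneg _)

lemma defect_pos (b : Linf) : (defect b).IsPositive := opSqrt_pos _

lemma Mult_half : Mult (fun x => (1 / 2 : ℂ) * (1 + z x)) :=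
  (Mult_const _).mul ((Mult_const 1).add Mult_z)

lemma par (x : T) : 1 - ‖(1 / 2 : ℂ) * (1 + z x)‖ ^ 2 = ‖1 - z x‖ ^ 2 / 4 := by
  have := parallelogram_law_with_norm ℂ (1 : ℂ) (z x)
  rw [z_norm, norm_one] at this
  rw [norm_mul, mul_pow]
  norm_num
  nlinarith

theorem notcomp : ∃ b : Linf, (∀ n : ℤ, n < 0 → fourierCoeff (b : T → ℂ) n = 0) ∧ ‖b‖ = 1 ∧
    (∀ᵐ x ∂mu, 1 - ‖b x‖ ^ 2 = ‖1 - fourier 1 x‖ ^ 2 / 4) ∧
    ∀ A : ℝ≥0, ∃ E : Set T, cap1 b E < ∞ ∧ A * cap1 b E < cap2 b E := by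
  have hm := (Mult_th none).mul Mult_half
  obtain ⟨b, hb⟩ : ∃ b : Linf, b =ᵐ[mu] fun x => th none x * ((1 / 2 : ℂ) * (1 + z x)) :=
    ⟨hm.1.top.toLp, MemLp.coeFn_toLp _⟩
  have mb : Mult b := hm.congr hb.symm
  have hn : ∀ᵐ x ∂mu, 1 - ‖b x‖ ^ 2 = ‖1 - z x‖ ^ 2 / 4 := by
    filter_upwards [hb, ae_ne] with x h1 h2
    rw [h1, norm_mul, th_norm _ _ h2, one_mul, par]
  have hb1 : ∀ᵐ x ∂mu, ‖b x‖ ≤ 1 := by
    filter_upwards [hn] with x hx
    nlinarith [norm_nonneg (b x), sq_nonneg ‖1 - z x‖]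
  have small : ∀ η : ℝ, 0 < η → ∃ n : ℕ, 1 ≤ n ∧ (1 / 2 : ℝ) ^ n < η := fun η hη => by
    obtain ⟨n, hn⟩ := exists_pow_lt_of_lt_one hη (by norm_num : (1 / 2 : ℝ) < 1)
    exact ⟨n + 1, by omega, lt_of_le_of_lt
      (pow_le_pow_of_le_one (by norm_num) (by norm_num) (by omega)) hn⟩
  have dn : ∀ n, dl n ≤ (1 / 2) ^ n / 2 := fun n => (dl_le n).trans (le_of_eq (by ring))
  refine ⟨b, fun n hn => ?_, le_antisymm ?_ ?_, hn, fun A => ?_⟩
  · obtain ⟨m, rfl⟩ : ∃ m : ℕ, n = -((m + 1 : ℕ) : ℤ) := ⟨(-n - 1).toNat, by omega⟩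
    rw [← mb.H.2 m]
    unfold fourierCoeff
    simp only [neg_neg, four_pow, smul_eq_mul]
  · simpa using Lp.norm_le_of_ae_bound zero_le_one hb1
  · refine le_of_forall_pos_le_add fun η hη => ?_
    have h1 : ∀ᵐ x ∂mu, ‖b x‖ ≤ ‖b‖ := by
      filter_upwards [ae_le_eLpNormEssSup (f := (b : T → ℂ)) (μ := mu)] with x hx
      rw [Lp.norm_def, eLpNorm_exponent_top]
      refine (ENNReal.ofReal_le_iff_le_toReal ?_).mp (by rwa [ofReal_norm])
      rw [← eLpNorm_exponent_top]; exact Lp.eLpNorm_ne_top b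
    obtain ⟨n, -, hn2⟩ := small (η / 4) (by linarith)
    have hp : (0:ℝ) < (1 / 2) ^ n / 2 := by positivity
    have hq : (1 / 2 : ℝ) ^ n ≤ 1 := pow_le_one₀ (by norm_num) (by norm_num)
    have h2 := arc_meas 0 ((1 / 2) ^ n / 2) le_rfl (by linarith)
    have h3 : mu (arc 0 ((1 / 2) ^ n / 2)) ≠ 0 := fun h => by
      rw [Measure.real, h] at h2; simp only [ENNReal.toReal_zero] at h2; linarith
    obtain ⟨x, hx, h4, h5, h6⟩ := Measure.exists_mem_of_measure_ne_zero_of_ae h3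
      (ae_restrict_of_ae (h1.and (hb.and ae_ne)))
    have h7 := (arc_bd 0 _ le_rfl (by linarith) x hx).2
    rw [h5, norm_mul, th_norm _ _ h6, one_mul] at h4
    have h8 : (1 / 2 : ℂ) * (1 + z x) = 1 - (1 / 2) * (1 - z x) := by ring
    have h9 := norm_sub_norm_le (1 : ℂ) ((1 / 2) * (1 - z x))
    rw [← h8, norm_one, norm_mul (1 / 2 : ℂ) (1 - z x)] at h9
    norm_num at h9 h4
    linarith
  · obtain ⟨n, n1, hn2⟩ := small (1 / (10 ^ 7 * (A + 1))) (by positivity)
    have d0 := dl_pos n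
    have d1 : dl n ≤ 1 / 4 := (dl_le n).trans
      ((pow_le_pow_of_le_one (by norm_num) (by norm_num) (by omega : 2 ≤ n + 1)).trans (by norm_num))
    set δ := dl n with hδ
    have hI := fun x => arc_bd (δ / 4) (δ / 4 + δ / 20) (by positivity) (by linarith) x
    have hJ := fun x => arc_bd (7 * δ / 4) (7 * δ / 4 + δ / 20) (by positivity) (by linarith) x
    have mI := arc_meas (δ / 4) (δ / 4 + δ / 20) (by positivity) (by linarith)
    have mJ := arc_meas (7 * δ / 4) (7 * δ / 4 + δ / 20) (by positivity) (by linarith)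
    rw [add_sub_cancel_left] at mI mJ
    have oI := arc_open (δ / 4) (δ / 4 + δ / 20)
    have oJ := arc_open (7 * δ / 4) (7 * δ / 4 + δ / 20)
    generalize arc (δ / 4) (δ / 4 + δ / 20) = I at hI mI oI
    generalize arc (7 * δ / 4) (7 * δ / 4 + δ / 20) = J at hJ mJ oJ
    have near : ∀ x, ‖1 - lam n * z x‖ ≤ ‖1 - z x‖ + δ ∧ ‖1 - z x‖ - δ ≤ ‖1 - lam n * z x‖ := by
      intro x
      have a := den_near (lam1 n) x
      have b := abs_le.mp (abs_norm_sub_norm_le (1 - lam n * z x) (1 - z x))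
      rw [a, show 1 - lam n = δ by rw [lam]; ring] at b
      constructor <;> linarith [b.1, b.2]
    have hE : ∀ x ∈ I ∪ J, δ ≤ ‖1 - z x‖ ∧ ‖1 - z x‖ ≤ 14 * δ := by
      rintro x (h | h)
      · have := hI x h; constructor <;> linarith [this.1, this.2]
      · have := hJ x h; constructor <;> linarith [this.1, this.2]
    have hbr : b =ᵐ[mu] fun x => bf (lam n) x * (th (some n) x * ((1 / 2 : ℂ) * (1 + z x))) := by
      filter_upwards [hb, ae_ne] with x h1 h2
      rw [h1, th_split n x h2, mul_assoc]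
    have u1 := upper1 (lam0 n) (lam1 n) b hb1 _ ((Mult_th (some n)).mul Mult_half) hbr (I ∪ J)
      (oI.union oJ) (15 * δ) fun t ht => by linarith [(near t).1, (hE t ht).2]
    rw [show 1 - lam n = δ by rw [lam]; ring, show (15 * δ) ^ 2 / δ = 225 * δ by field_simp; ring] at u1
    have hq : (0:ℝ) < (1 / 2) ^ n := by positivity
    have hx : ∀ᵐ t ∂mu, t ∈ I ∪ J → ‖b t - (-1) ^ n * bf (lam n) t‖ ≤ 60 * (1 / 2) ^ n := by
      filter_upwards [hbr, ae_ne] with t h1 h2 ht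
      have a := th_close n t (hE t ht).1 (hE t ht).2
      have e : b t - (-1) ^ n * bf (lam n) t = bf (lam n) t *
          ((th (some n) t - (-1) ^ n) - th (some n) t * ((1 / 2) * (1 - z t))) := by
        rw [h1]; ring
      rw [e, norm_mul, bf_norm (lam0 n) (lam1 n), one_mul]
      refine (norm_sub_le _ _).trans ?_
      rw [norm_mul, th_norm _ _ h2, norm_mul]
      have := (hE t ht).2
      have := dn n
      norm_num at *
      linarith
    refine ⟨I ∪ J, u1.trans_lt ENNReal.ofReal_lt_top, ?_⟩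
    have l2 : ENNReal.ofReal (δ / (180 * 120 * (1 / 2) ^ n)) ≤ cap2 b (I ∪ J) := by
      refine le_iInf fun f => le_iInf fun U => le_iInf fun _ => le_iInf fun hU => le_iInf fun hf =>
        le_iInf fun g => le_iInf fun _ => le_iInf fun hg => ?_
      have := lower2 (lam0 n) (lam1 n) b mb hb1 ((-1) ^ n) (by simp) _ (by positivity) I J
        oI.measurableSet oJ.measurableSet (δ / 20) (3 * δ) mI mJ
        (fun t ht => by linarith [(near t).1, (hI t ht).2])
        (fun t ht => by linarith [(near t).2, (hJ t ht).1]) hx g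
        (by rw [hg]; filter_upwards [hf] with t h1 ht; exact h1 (hU ht))
      rw [← ofReal_norm, ← ENNReal.ofReal_pow (norm_nonneg _)]
      refine ENNReal.ofReal_le_ofReal ?_
      rw [div_le_iff₀ (by positivity)]
      linarith
    refine lt_of_le_of_lt (mul_le_mul_right u1 _) (lt_of_lt_of_le ?_ l2)
    rw [← ENNReal.ofReal_coe_nnreal, ← ENNReal.ofReal_mul A.coe_nonneg]
    refine (ENNReal.ofReal_lt_ofReal_iff (by positivity)).mpr ?_
    rw [lt_div_iff₀ (by positivity)]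
    rw [lt_div_iff₀ (by positivity)] at hn2
    have hA : (0:ℝ) ≤ A := A.2
    have : (A:ℝ) * (225 * (180 * 120 * (1 / 2) ^ n)) < 1 := by nlinarith
    nlinarith

end Pool.Agent.H24.DBR
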