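import Mathlib

open MeasureTheory Set
open scoped ENNReal

namespace Pool.Agent.H24.DBR

/-- The circle `ℝ/ℤ`; the point `x` stands for `exp (2 π i x)`. -/
abbrev T := AddCircle (1 : ℝ)

/-- Normalised Lebesgue measure on the circle. -/
noncomputable abbrev mu : Measure T := AddCircle.haarAddCircle

noncomputable abbrev L2 := Lp ℂ 2 mu

noncomputable abbrev Linf := Lp ℂ ∞ mu

/-- The Hardy space: the `L²` functions orthogonal to all negative frequencies. -/
noncomputable abbrev H2 : Submodule ℂ L2 :=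
  (Submodule.span ℂ (range fun n : ℕ => fourierLp (T := 1) 2 (-(n + 1 : ℤ))))ᗮ

/-- Multiplication by a bounded function on `L²`. -/
noncomputable def mulOp (φ : Linf) : L2 →L[ℂ] L2 :=
  (ContinuousLinearMap.mul ℂ ℂ).holderL mu ∞ 2 2 φ

section General
variable {H : Type} [NormedAddCommGroup H] [InnerProductSpace ℂ H] [CompleteSpace H]

/-- Compression of an operator to a closed subspace. -/
noncomputable def compress (K : Submodule ℂ H) [CompleteSpace K] (M : H →L[ℂ] H) : K →L[ℂ] K :=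
  K.orthogonalProjectionOnto ∘L M ∘L K.subtypeL

/-- The positive square root of a positive operator on a Hilbert space. -/
noncomputable def opSqrt (A : H →L[ℂ] H) : H →L[ℂ] H := CFC.sqrt A

/-- The operator `(I - A B)^{1/2}`. -/
noncomputable def sqrtDefect (A B : H →L[ℂ] H) : H →L[ℂ] H := opSqrt (1 - A * B)

/-- The squared range norm for the operator `S` (infinite off the range of `S`). -/
noncomputable def rangeNormSq (S : H →L[ℂ] H) (f : H) : ℝ≥0∞ :=
  ⨅ (g : H) (_ : g ∈ S.kerᗮ) (_ : S g = f), ‖g‖ₑ ^ 2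

end General

/-- The Toeplitz operator on `H²`. -/
noncomputable def toep (φ : Linf) : H2 →L[ℂ] H2 := compress H2 (mulOp φ)

/-- The defect operator `(I - T_b T_{conj b})^{1/2}`. -/
noncomputable def defect (b : Linf) : H2 →L[ℂ] H2 := sqrtDefect (toep b) (toep (star b))

/-- The squared norm of `H(b)` (infinite off `H(b)`). -/
noncomputable def normSq (b : Linf) (f : H2) : ℝ≥0∞ := rangeNormSq (defect b) f

/-- The capacity `c_{b,1}`. -/
noncomputable def cap1 (b : Linf) (E : Set T) : ℝ≥0∞ :=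
  ⨅ (f : H2) (U : Set T) (_ : IsOpen U) (_ : E ⊆ U)
    (_ : ∀ᵐ x ∂mu, x ∈ U → 1 ≤ ‖(f : L2) x‖), normSq b f

/-- The capacity `c_{b,2}`. -/
noncomputable def cap2 (b : Linf) (E : Set T) : ℝ≥0∞ :=
  ⨅ (f : H2) (U : Set T) (_ : IsOpen U) (_ : E ⊆ U)
    (_ : ∀ᵐ x ∂mu, x ∈ U → ‖(f : L2) x‖ = 1), normSq b f

end Pool.Agent.H24.DBR
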