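import Mathlib

open Set Filter Topology Cardinal

universe u

namespace Pool.Agent.H24.DS

/-- d-separable: a dense union of countably many discrete subsets. -/
def dSep (X : Type u) [TopologicalSpace X] : Prop :=
  ∃ E : ℕ → Set X, (∀ n, IsDiscrete (E n)) ∧ Dense (⋃ n, E n)

/-- D-separable: from any sequence of dense sets one can select discrete subsets with dense union. -/
def DSep (X : Type u) [TopologicalSpace X] : Prop :=
  ∀ D : ℕ → Set X, (∀ n, Dense (D n)) →
    ∃ F : ℕ → Set X, (∀ n, F n ⊆ D n ∧ IsDiscrete (F n)) ∧ Dense (⋃ n, F n)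

/-- The Sigma-product of the Cantor cube: points with countable support. -/
abbrev Sig (I : Type u) : Type u := {x : I → Bool // {i | x i ≠ false}.Countable}

variable {I : Type u}

theorem mem_nhds_sig (x : Sig I) (U : Set (Sig I)) :
    U ∈ 𝓝 x ↔ ∃ w : Finset I, ∀ y : Sig I, (∀ i ∈ w, y.1 i = x.1 i) → y ∈ U := by
  rw [nhds_induced, mem_comap]
  constructor
  · rintro ⟨t, ht, hU⟩
    rw [nhds_pi, Filter.mem_pi'] at ht
    obtain ⟨w, s, hs, hst⟩ := ht
    refine ⟨w, fun y hy => hU (hst ?_)⟩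
    intro i hi
    have := mem_of_mem_nhds (hs i)
    rw [hy i hi]; exact this
  · rintro ⟨w, hw⟩
    refine ⟨Set.pi w (fun i => {x.1 i}), ?_, fun y hy => hw y (fun i hi => hy i hi)⟩
    rw [nhds_pi]
    refine Filter.pi_mem_pi w.finite_toSet (fun i _ => ?_)
    simp

theorem mem_closure_sig (x : Sig I) (A : Set (Sig I)) :
    x ∈ closure A ↔ ∀ w : Finset I, ∃ y ∈ A, ∀ i ∈ w, y.1 i = x.1 i := by
  rw [mem_closure_iff_nhds]
  constructor
  · intro h w
    obtain ⟨y, hy, hA⟩ := h {y | ∀ i ∈ w, y.1 i = x.1 i} ((mem_nhds_sig _ _).2 ⟨w, fun y hy => hy⟩)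
    exact ⟨y, hA, hy⟩
  · intro h U hU
    obtain ⟨w, hw⟩ := (mem_nhds_sig _ _).1 hU
    obtain ⟨y, hA, hy⟩ := h w
    exact ⟨y, hw y hy, hA⟩

theorem discrete_sig (F : Set (Sig I)) :
    IsDiscrete F ↔ ∀ x ∈ F, ∃ w : Finset I, ∀ y ∈ F, (∀ i ∈ w, y.1 i = x.1 i) → y = x := by
  rw [isDiscrete_iff_nhdsNE]
  refine forall₂_congr fun x _ => ?_
  rw [inf_principal_eq_bot, mem_nhdsWithin_iff_exists_mem_nhds_inter]
  constructor
  · rintro ⟨U, hU, h⟩
    obtain ⟨w, hw⟩ := (mem_nhds_sig _ _).1 hU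
    refine ⟨w, fun y hy hyw => ?_⟩
    by_contra hne
    exact h ⟨hw y hyw, hne⟩ hy
  · rintro ⟨w, hw⟩
    refine ⟨{y | ∀ i ∈ w, y.1 i = x.1 i}, (mem_nhds_sig _ _).2 ⟨w, fun y hy => hy⟩, ?_⟩
    rintro y ⟨hy, hne⟩ hF
    exact hne (hw y hF hy)

theorem exists_fin (y : Sig I) : ∃ f : ℕ → Finset I, ∀ i, y.1 i ≠ false → ∀ᶠ n in atTop, i ∈ f n := by
  classical
  rcases (show Set I from {i | y.1 i ≠ false}).eq_empty_or_nonempty with h | h
  · refine ⟨fun _ => ∅, fun i hi => ?_⟩
    have : i ∈ (show Set I from {i | y.1 i ≠ false}) := hi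
    rw [h] at this; exact this.elim
  · obtain ⟨e, he⟩ := y.2.exists_eq_range h
    refine ⟨fun n => (Finset.range (n + 1)).image e, fun i hi => ?_⟩
    have : i ∈ range e := he ▸ hi
    obtain ⟨m, rfl⟩ := this
    filter_upwards [eventually_ge_atTop m] with n hn
    exact Finset.mem_image_of_mem _ (Finset.mem_range.2 (by omega))

theorem frechet : FrechetUrysohnSpace (Sig I) := by
  classical
  refine ⟨fun A x hx => ?_⟩
  choose a haA ha using (mem_closure_sig x A).1 hx
  choose f hf using (exists_fin (I := I))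
  let P : ℕ → Finset (Sig I) := fun n =>
    Nat.rec {x} (fun n p => insert (a (p.biUnion (f · n))) p) n
  have hP : ∀ n, P (n + 1) = insert (a ((P n).biUnion (f · n))) (P n) := fun n => rfl
  have hmono : Monotone P := monotone_nat_of_le_succ fun n => by
    rw [hP]; exact Finset.subset_insert _ _
  refine ⟨fun n => a ((P n).biUnion (f · n)), fun n => haA _, ?_⟩
  rw [tendsto_subtype_rng, tendsto_pi_nhds]
  intro i
  rw [nhds_discrete, tendsto_pure]
  by_cases h : ∃ m, ∃ y ∈ P m, y.1 i ≠ false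
  · obtain ⟨m, y, hy, hi⟩ := h
    filter_upwards [hf y i hi, eventually_ge_atTop m] with n hn hmn
    exact ha _ i (Finset.mem_biUnion.2 ⟨y, hmono hmn hy, hn⟩)
  · push Not at h
    refine Eventually.of_forall fun n => ?_
    rw [h 0 x (Finset.mem_singleton_self x), h (n + 1) _ (by rw [hP]; exact Finset.mem_insert_self _ _)]

/-- the point with finite support S -/
noncomputable def ofFin (S : Finset I) : Sig I := by
  classical
  exact ⟨fun i => decide (i ∈ S), S.finite_toSet.countable.mono fun i hi => by simpa using hi⟩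

theorem ofFin_apply (S : Finset I) (i : I) : (ofFin S).1 i = true ↔ i ∈ S := by
  simp [ofFin]

theorem dsep : dSep (Sig I) := by
  classical
  refine ⟨fun n => {x | ∃ S : Finset I, S.card = n ∧ x = ofFin S}, fun n => ?_, fun x => ?_⟩
  · rw [discrete_sig]
    rintro x ⟨S, hS, rfl⟩
    refine ⟨S, ?_⟩
    rintro y ⟨T, hT, rfl⟩ h
    have : S ⊆ T := fun i hi => by
      rw [← ofFin_apply, h i hi, ofFin_apply]; exact hi
    rw [Finset.eq_of_subset_of_card_le this (by omega)]
  · rw [mem_closure_sig]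
    intro w
    refine ⟨ofFin (w.filter fun i => x.1 i = true), mem_iUnion.2 ⟨_, _, rfl, rfl⟩, fun i hi => ?_⟩
    rw [Bool.eq_iff_iff, ofFin_apply]
    simp [hi]

end Pool.Agent.H24.DS
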