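import Pool.Agent.H24.DSep1

open Set Filter Topology Cardinal

universe u

namespace Pool.Agent.H24.DS

variable {I : Type u}

abbrev Pat (I : Type u) := Finset I × Finset I
abbrev Task (I : Type u) := ℕ → Pat I

def ext (s t : Pat I) : Prop := s.1 ⊆ t.1 ∧ ∀ i ∈ s.1, (i ∈ t.2 ↔ i ∈ s.2)

theorem ext_refl (s : Pat I) : ext s s := ⟨subset_rfl, fun _ _ => Iff.rfl⟩

theorem ext_trans {s t r : Pat I} (h : ext s t) (h' : ext t r) : ext s r :=
  ⟨h.1.trans h'.1, fun i hi => (h'.2 i (h.1 hi)).trans (h.2 i hi)⟩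

def valid (τ : Task I) : Prop := ∀ W : Finset I, ∃ n, Disjoint (τ n).1 W

def fits (x : Sig I) (s : Pat I) : Prop := ∀ i ∈ s.1, (x.1 i = true ↔ i ∈ s.2)

theorem step1 (τ : Task I) (s : Pat I) : ∃ s', ext s s' ∧ (valid τ → ∃ n, ext (τ n) s') := by
  classical
  by_cases h : valid τ
  · obtain ⟨n, hn⟩ := h s.1
    refine ⟨(s.1 ∪ (τ n).1, (s.2 ∩ s.1) ∪ ((τ n).2 ∩ (τ n).1)), ⟨Finset.subset_union_left, ?_⟩,
      fun _ => ⟨n, Finset.subset_union_right, ?_⟩⟩
    · intro i hi
      have : i ∉ (τ n).1 := fun h' => Finset.disjoint_left.1 hn h' hi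
      simp [hi, this]
    · intro i hi
      have : i ∉ s.1 := fun h' => Finset.disjoint_left.1 hn hi h'
      simp [hi, this]
  · exact ⟨s, ext_refl s, fun h' => (h h').elim⟩

theorem step2 (T : Finset (Task I)) (s : Pat I) :
    ∃ s', ext s s' ∧ ∀ τ ∈ T, valid τ → ∃ n, ext (τ n) s' := by
  classical
  induction T using Finset.induction_on with
  | empty => exact ⟨s, ext_refl s, by simp⟩
  | insert τ T _ ih =>
    obtain ⟨s1, h1, h1'⟩ := ih
    obtain ⟨s2, h2, h2'⟩ := step1 τ s1
    refine ⟨s2, ext_trans h1 h2, fun σ hσ hv => ?_⟩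
    rcases Finset.mem_insert.1 hσ with rfl | hσ
    · exact h2' hv
    · obtain ⟨n, hn⟩ := h1' σ hσ hv
      exact ⟨n, ext_trans hn h2⟩

variable (code : I → ℕ → Task I)

def tasks (x : Sig I) : Set (Task I) := {τ | ∃ i, x.1 i = true ∧ ∃ m, code i m = τ}

def good : Set (Sig I) := {x | ∀ τ ∈ tasks code x, valid τ → ∃ n, fits x (τ n)}

theorem tasks_countable (x : Sig I) : (tasks code x).Countable := by
  have : tasks code x ⊆ ⋃ i ∈ {i | x.1 i ≠ false}, range (code i) := by
    rintro τ ⟨i, hi, m, rfl⟩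
    exact mem_biUnion (x := i) (by simp [hi]) (mem_range_self m)
  exact (x.2.biUnion fun i _ => countable_range _).mono this

theorem good_dense : Dense (good code) := by
  classical
  intro z
  rw [mem_closure_sig]
  intro w
  choose g hg hg' using (step2 (I := I))
  let T : ℕ → Pat I → Finset (Task I) := fun n s =>
    (s.2 ×ˢ Finset.range (n + 1)).image fun p => code p.1 p.2
  let s : ℕ → Pat I := fun n =>
    Nat.rec (w, w.filter fun i => z.1 i = true) (fun n p => g (T n p) p) n
  have hs : ∀ n, s (n + 1) = g (T n (s n)) (s n) := fun n => rfl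
  have hmono : ∀ m n, m ≤ n → ext (s m) (s n) := by
    intro m n h
    induction h with
    | refl => exact ext_refl _
    | step _ ih => exact ext_trans ih (by rw [hs]; exact hg _ _)
  let x : Sig I := ⟨fun i => decide (∃ n, i ∈ (s n).1 ∧ i ∈ (s n).2),
    (countable_iUnion fun n => (s n).1.finite_toSet.countable).mono fun i hi => by
      simp only [ne_eq, Bool.not_eq_false, decide_eq_true_eq, mem_ofPred_eq] at hi
      obtain ⟨n, h, -⟩ := hi
      exact mem_iUnion.2 ⟨n, h⟩⟩
  have hx : ∀ n, fits x (s n) := by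
    intro n i hi
    simp only [x, decide_eq_true_eq]
    constructor
    · rintro ⟨m, h1, h2⟩
      rcases le_total m n with h | h
      · exact ((hmono m n h).2 i h1).2 h2
      · exact ((hmono n m h).2 i hi).1 h2
    · intro h; exact ⟨n, hi, h⟩
  refine ⟨x, ?_, fun i hi => ?_⟩
  · rintro τ ⟨i, hi, m, rfl⟩ hv
    simp only [x, decide_eq_true_eq] at hi
    obtain ⟨n, h1, h2⟩ := hi
    have h3 : i ∈ (s (max n m)).2 := ((hmono n _ (le_max_left n m)).2 i h1).2 h2
    obtain ⟨k, hk⟩ := hg' (T (max n m) (s (max n m))) (s (max n m)) (code i m)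
      (Finset.mem_image.2 ⟨(i, m), Finset.mem_product.2 ⟨h3, Finset.mem_range.2
        (Nat.lt_succ_of_le (le_max_right n m))⟩, rfl⟩) hv
    rw [← hs] at hk
    exact ⟨k, fun j hj => (hx (max n m + 1) j (hk.1 hj)).trans (hk.2 j hj)⟩
  · have := hx 0 i hi
    rw [Bool.eq_iff_iff, this]
    show i ∈ w.filter _ ↔ _
    simp [hi]

def Small (F : Set (Sig I)) : Prop :=
  ∃ A : Set (Task I), A.Countable ∧ ∀ x ∈ F, ¬ A ⊆ tasks code x

theorem Small.mono {F G : Set (Sig I)} (h : Small code G) (hF : F ⊆ G) : Small code F := by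
  obtain ⟨A, hA, h⟩ := h
  exact ⟨A, hA, fun x hx => h x (hF hx)⟩

theorem small_iUnion {ι : Type*} [Countable ι] {F : ι → Set (Sig I)} (h : ∀ i, Small code (F i)) :
    Small code (⋃ i, F i) := by
  choose A hA h using h
  refine ⟨⋃ i, A i, countable_iUnion hA, fun x hx hsub => ?_⟩
  obtain ⟨i, hi⟩ := mem_iUnion.1 hx
  exact h i x hi ((subset_iUnion A i).trans hsub)

theorem small_union {F G : Set (Sig I)} (h : Small code F) (h' : Small code G) :
    Small code (F ∪ G) := by
  rw [union_eq_iUnion]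
  exact small_iUnion code fun b => by cases b <;> assumption

theorem small_single [Nonempty I] (x : Sig I) : Small code {x} := by
  have : Uncountable (Task I) := by
    obtain ⟨i⟩ := ‹Nonempty I›
    have hinj : Function.Injective
        (fun (f : ℕ → Bool) (n : ℕ) => ((if f n = true then {i} else ∅, ∅) : Pat I)) := by
      intro f g h
      funext n
      have := congrArg Prod.fst (congrFun h n)
      cases hf : f n <;> cases hg : g n <;> simp_all
    have : Uncountable (ℕ → Bool) := by
      rw [← Cardinal.aleph0_lt_mk_iff]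
      simp [Cardinal.aleph0_lt_continuum]
    exact hinj.uncountable
  have h : ¬ (univ : Set (Task I)) ⊆ tasks code x := fun h =>
    not_countable_univ ((tasks_countable code x).mono h)
  obtain ⟨τ, -, hτ⟩ := not_subset.1 h
  refine ⟨{τ}, countable_singleton τ, ?_⟩
  rintro y rfl h
  exact hτ (h rfl)

theorem small_empty : Small code ∅ := ⟨∅, countable_empty, fun _ h => h.elim⟩

theorem small_subsingleton [Nonempty I] {F : Set (Sig I)} (h : F.Subsingleton) : Small code F := by
  rcases h.eq_empty_or_singleton with rfl | ⟨x, rfl⟩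
  · exact small_empty code
  · exact small_single code x

theorem small_core [Nonempty I] {F : Set (Sig I)} (hF : F ⊆ good code) (w : Sig I → Finset I)
    (hw : ∀ x ∈ F, ∀ y ∈ F, (∀ i ∈ w x, y.1 i = x.1 i) → y = x) (k j : ℕ) :
    ∀ (R : Finset I) (z : I → Bool), k ≤ R.card + j →
      Small code {x | x ∈ F ∧ (w x).card = k ∧ R ⊆ w x ∧ ∀ i ∈ R, x.1 i = z i} := by
  classical
  induction j with
  | zero =>
    intro R z hk
    refine small_subsingleton code ?_
    rintro x ⟨hx, hc, hR, hz⟩ y ⟨hy, -, -, hz'⟩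
    have : R = w x := Finset.eq_of_subset_of_card_le hR (by omega)
    exact (hw x hx y hy fun i hi => by rw [hz i (this ▸ hi), hz' i (this ▸ hi)]).symm
  | succ j ih =>
    intro R z hk
    set G := {x | x ∈ F ∧ (w x).card = k ∧ R ⊆ w x ∧ ∀ i ∈ R, x.1 i = z i} with hG
    by_contra hlarge
    have hnext : ∀ a : Finset I, ∃ x ∈ G, Disjoint (w x \ R) a := by
      intro a
      by_contra hcon
      push Not at hcon
      apply hlarge
      have hs : ∀ p : (a \ R : Finset I) × Bool, Small code {x | x ∈ F ∧ (w x).card = k ∧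
          insert p.1.1 R ⊆ w x ∧ ∀ i ∈ insert p.1.1 R, x.1 i = Function.update z p.1.1 p.2 i} := by
        intro p
        refine ih _ _ ?_
        rw [Finset.card_insert_of_notMem (Finset.mem_sdiff.1 p.1.2).2]; omega
      refine (small_iUnion code hs).mono code fun x hx => ?_
      obtain ⟨i, hi, hia⟩ := Finset.not_disjoint_iff.1 (hcon x hx)
      have hiR := (Finset.mem_sdiff.1 hi).2
      refine mem_iUnion.2 ⟨(⟨i, Finset.mem_sdiff.2 ⟨hia, hiR⟩⟩, x.1 i), hx.1, hx.2.1,
        Finset.insert_subset (Finset.mem_sdiff.1 hi).1 hx.2.2.1, fun i' hi' => ?_⟩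
      rcases Finset.mem_insert.1 hi' with rfl | hi'
      · simp
      · have : i' ≠ i := fun h => hiR (h ▸ hi')
        simp [Function.update_of_ne this, hx.2.2.2 i' hi']
    choose nx hnG hnd using hnext
    let acc : ℕ → Finset I := fun n => Nat.rec ∅ (fun _ a => a ∪ w (nx a)) n
    have hacc : ∀ n, acc (n + 1) = acc n ∪ w (nx (acc n)) := fun n => rfl
    have hmono : Monotone acc := monotone_nat_of_le_succ fun n => by
      rw [hacc]; exact Finset.subset_union_left
    let τ : Task I := fun n =>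
      (w (nx (acc n)) \ R, (w (nx (acc n))).filter fun i => (nx (acc n)).1 i = true)
    have hdis : ∀ m n, m < n → ∀ i, i ∈ (τ m).1 → i ∉ (τ n).1 := by
      intro m n h i hm hn
      refine Finset.disjoint_left.1 (hnd (acc n)) hn (hmono (Nat.succ_le_of_lt h) ?_)
      rw [hacc]; exact Finset.mem_union_right _ (Finset.mem_sdiff.1 hm).1
    have hv : valid τ := by
      intro W
      have hfin : (⋃ i ∈ (W : Set I), {n | i ∈ (τ n).1}).Finite := by
        refine W.finite_toSet.biUnion fun i _ => Set.Subsingleton.finite ?_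
        intro m hm n hn
        rcases lt_trichotomy m n with h | h | h
        · exact (hdis m n h i hm hn).elim
        · exact h
        · exact (hdis n m h i hn hm).elim
      obtain ⟨n, hn⟩ := hfin.exists_notMem
      exact ⟨n, Finset.disjoint_left.2 fun i hi hW => hn (mem_biUnion (x := i) hW hi)⟩
    apply hlarge
    have h1 : Small code {y | τ ∉ tasks code y} :=
      ⟨{τ}, countable_singleton τ, fun y hy h => hy (h rfl)⟩
    have h2 : Small code (⋃ n, {nx (acc n)}) := small_iUnion code fun n => small_single code _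
    refine (small_union code h1 h2).mono code fun y hy => ?_
    by_cases hτ : τ ∈ tasks code y
    · right
      obtain ⟨n, hn⟩ := hF hy.1 τ hτ hv
      refine mem_iUnion.2 ⟨n, hw _ (hnG _).1 y hy.1 fun i hi => ?_⟩
      by_cases hiR : i ∈ R
      · rw [hy.2.2.2 i hiR, (hnG (acc n)).2.2.2 i hiR]
      · have := hn i (Finset.mem_sdiff.2 ⟨hi, hiR⟩)
        rw [Bool.eq_iff_iff, this]
        simp [τ, hi]
    · exact Or.inl hτ

theorem small_discrete [Nonempty I] {F : Set (Sig I)} (hF : F ⊆ good code) (hd : IsDiscrete F) :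
    Small code F := by
  classical
  rw [discrete_sig] at hd
  choose! w hw using hd
  have := small_iUnion code fun k => small_core code hF w hw k k ∅ (fun _ => true) (by simp)
  exact this.mono code fun x hx => mem_iUnion.2 ⟨_, hx, rfl, by simp, by simp⟩

theorem not_DSep [Infinite I] (h : #I ^ ℵ₀ = #I) : ¬ DSep (Sig I) := by
  classical
  have hc : #(ℕ → Task I) = #I := by
    simp only [Task, Pat, mk_pi, prod_const, lift_id', mk_nat, mk_prod, mk_finset_of_infinite,
      lift_id, lift_aleph0]
    rw [mul_eq_self (aleph0_le_mk I), h, h]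
  obtain ⟨e⟩ := Cardinal.eq.1 hc
  intro hD
  obtain ⟨F, hF, hd⟩ := hD (fun _ => good e.symm) fun _ => good_dense _
  obtain ⟨A, hA, hsm⟩ := small_iUnion e.symm fun n => small_discrete e.symm (hF n).1 (hF n).2
  obtain ⟨c, hc⟩ := (hA.insert (fun _ => (∅, ∅))).exists_eq_range (insert_nonempty _ _)
  obtain ⟨y, hy, hy'⟩ := (mem_closure_sig _ _).1 (hd (ofFin {e c})) {e c}
  have h1 : y.1 (e c) = true := by
    rw [hy' _ (Finset.mem_singleton_self _), ofFin_apply]; exact Finset.mem_singleton_self _
  refine hsm y hy fun τ hτ => ?_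
  have : τ ∈ range c := hc ▸ mem_insert_of_mem _ hτ
  obtain ⟨m, rfl⟩ := this
  exact ⟨e c, h1, m, by simp⟩

end Pool.Agent.H24.DS
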