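import Pool.Agent.H24.DSep1

open Set Filter Topology Cardinal Order

universe u

namespace Pool.Agent.H24.DS

variable {I : Type u}

/-- free set lemma -/
theorem free_set (μ : Cardinal.{u}) (hμ : ℵ₀ ≤ μ) (hI : succ μ < #I) (f : I → Set I)
    (hf : ∀ i, #(f i) ≤ μ) :
    ∃ A : Set I, μ < #A ∧ ∀ i ∈ A, ∀ j ∈ A, i ≠ j → j ∉ f i := by
  classical
  have hμ' : ℵ₀ ≤ succ μ := hμ.trans (le_succ μ)
  let blk : Set I → Prop := fun A => #A ≤ μ ∧ #{i | Disjoint (f i) A} ≤ succ μ
  obtain ⟨M, hM⟩ := zorn_subset {M : Set (Set I) | (∀ A ∈ M, blk A) ∧ M.PairwiseDisjoint id} (by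
    intro c hc hch
    refine ⟨⋃₀ c, ⟨?_, ?_⟩, fun s hs => subset_sUnion_of_mem hs⟩
    · rintro A ⟨M, hM, hA⟩; exact (hc hM).1 A hA
    · rintro A ⟨M, hM, hA⟩ B ⟨N, hN, hB⟩ hne
      rcases hch.total hM hN with h | h
      · exact (hc hN).2 (h hA) hB hne
      · exact (hc hM).2 hA (h hB) hne)
  have hMc : #M ≤ μ := by
    by_contra hlt
    push Not at hlt
    obtain ⟨N, hNM, hN⟩ := Cardinal.le_mk_iff_exists_subset.1 (succ_le_of_lt hlt)
    have h1 : #(⋃ A ∈ N, {i | Disjoint (f i) A}) ≤ succ μ := by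
      refine (mk_biUnion_le _ _).trans ?_
      rw [hN]
      refine (mul_le_mul_right (ciSup_le' fun A : N => (hM.prop.1 A.1 (hNM A.2)).2) _).trans ?_
      rw [mul_eq_self hμ']
    have h2 : ¬ Set.univ ⊆ ⋃ A ∈ N, {i | Disjoint (f i) A} := fun h => by
      have := (mk_le_mk_of_subset h).trans h1
      rw [mk_univ] at this
      exact absurd hI (not_lt.2 this)
    obtain ⟨i, -, hi⟩ := not_subset.1 h2
    have h3 : ∀ A : N, ∃ j, j ∈ f i ∧ j ∈ A.1 := fun A => by
      have : ¬ Disjoint (f i) A.1 := fun h => hi (mem_biUnion A.2 h)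
      exact Set.not_disjoint_iff.1 this
    choose g hg hg' using h3
    have hinj : Function.Injective (fun A : N => (⟨g A, hg A⟩ : f i)) := by
      intro A B h
      have h' : g A = g B := congrArg Subtype.val h
      by_contra hne
      exact Set.disjoint_left.1 (hM.prop.2 (hNM A.2) (hNM B.2) fun h => hne (Subtype.ext h))
        (hg' A) (h' ▸ hg' B)
    have := (mk_le_of_injective hinj).trans (hf i)
    rw [hN] at this
    exact absurd (lt_succ μ) (not_lt.2 this)
  have hB : #(⋃₀ M) ≤ μ := by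
    refine (mk_sUnion_le M).trans ?_
    refine (mul_le_mul' hMc (ciSup_le' fun A : M => (hM.prop.1 A.1 A.2).1)).trans ?_
    rw [mul_eq_self hμ]
  have hnb : ∀ A : Set I, Disjoint A (⋃₀ M) → ¬ blk A := by
    intro A hA hb
    have hmem : A ∈ M := by
      have : insert A M ⊆ M := by
        refine hM.le_of_ge (y := insert A M) ⟨?_, ?_⟩ (subset_insert _ _)
        · rintro B (rfl | hB)
          · exact hb
          · exact hM.prop.1 B hB
        · exact hM.prop.2.insert fun B hB _ => hA.mono_right (subset_sUnion_of_mem hB)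
      exact this (mem_insert _ _)
    have hA0 : A = ∅ := by
      rw [eq_empty_iff_forall_notMem]
      exact fun x hx => Set.disjoint_left.1 hA hx ⟨A, hmem, hx⟩
    have := hb.2
    rw [hA0] at this
    simp only [disjoint_empty, ofPred_true, mk_univ] at this
    exact absurd hI (not_lt.2 this)
  obtain ⟨A, hA⟩ := zorn_subset
    {A : Set I | Disjoint A (⋃₀ M) ∧ ∀ i ∈ A, ∀ j ∈ A, i ≠ j → j ∉ f i} (by
    intro c hc hch
    refine ⟨⋃₀ c, ⟨?_, ?_⟩, fun s hs => subset_sUnion_of_mem hs⟩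
    · exact disjoint_sUnion_left.2 fun A hA => (hc hA).1
    · rintro i ⟨A, hA, hi⟩ j ⟨B, hB, hj⟩ hne
      rcases hch.total hA hB with h | h
      · exact (hc hB).2 i (h hi) j hj hne
      · exact (hc hA).2 i hi j (h hj) hne)
  refine ⟨A, ?_, hA.prop.2⟩
  by_contra hle
  push Not at hle
  have h1 : succ μ < #{i | Disjoint (f i) A} := by
    by_contra h
    exact hnb A hA.prop.1 ⟨hle, not_lt.1 h⟩
  have h2 : #(↥(⋃₀ M ∪ A ∪ ⋃ i ∈ A, f i)) ≤ μ := by
    refine (mk_union_le _ _).trans (add_le_of_le hμ ((mk_union_le _ _).trans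
      (add_le_of_le hμ hB hle)) ?_)
    refine (mk_biUnion_le _ _).trans ?_
    refine (mul_le_mul' hle (ciSup_le' fun i : A => hf i.1)).trans ?_
    rw [mul_eq_self hμ]
  have h3 : ¬ {i | Disjoint (f i) A} ⊆ ⋃₀ M ∪ A ∪ ⋃ i ∈ A, f i := fun h =>
    absurd (((lt_succ μ).trans h1).trans_le ((mk_le_mk_of_subset h).trans h2)) (lt_irrefl _)
  obtain ⟨k, hk, hk'⟩ := not_subset.1 h3
  simp only [mem_union, not_or] at hk'
  apply hk'.1.2
  have : insert k A ⊆ A := by
    refine hA.le_of_ge (y := insert k A) ⟨?_, ?_⟩ (subset_insert _ _)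
    · exact disjoint_insert_left.2 ⟨hk'.1.1, hA.prop.1⟩
    · rintro i (rfl | hi) j (rfl | hj) hne
      · exact (hne rfl).elim
      · exact fun h => Set.disjoint_left.1 hk h hj
      · exact fun h => hk'.2 (mem_biUnion hi h)
      · exact hA.prop.2 i hi j hj hne
  exact this (mem_insert _ _)

theorem level (J : Set I) (μ : Cardinal.{u}) (hμ : ℵ₀ ≤ μ) (hJ : #J ≤ μ) (hI : succ μ < #I)
    (D : Set (Sig I)) (hD : Dense D) :
    ∃ F ⊆ D, IsDiscrete F ∧ ∀ (x : Sig I) (w : Finset I), (w : Set I) ⊆ J →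
      ∃ y ∈ F, ∀ i ∈ w, y.1 i = x.1 i := by
  classical
  have hex : ∀ (p : Finset J × Finset J) (k : I), ∃ y ∈ D, y.1 k = true ∧
      ∀ i ∈ p.1, i.1 ≠ k → (y.1 i.1 = true ↔ i ∈ p.2) := by
    intro p k
    obtain ⟨y, hy, h⟩ := (mem_closure_sig _ _).1 (hD (ofFin (insert k (p.2.image Subtype.val))))
      (insert k (p.1.image Subtype.val))
    refine ⟨y, hy, ?_, fun i hi hik => ?_⟩
    · rw [h k (Finset.mem_insert_self _ _), ofFin_apply]; exact Finset.mem_insert_self _ _
    · rw [h i.1 (Finset.mem_insert_of_mem (Finset.mem_image_of_mem _ hi)), ofFin_apply,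
        Finset.mem_insert, Subtype.val_injective.mem_finset_image]
      simp [hik]
  choose y hyD hyk hy using hex
  have hP : #(Finset J × Finset J) ≤ μ := by
    have : #(Finset J) ≤ μ := by
      rcases finite_or_infinite J with h | h
      · exact (mk_le_aleph0).trans hμ
      · rw [mk_finset_of_infinite]; exact hJ
    rw [mk_prod, lift_id]
    exact (mul_le_mul' this this).trans (mul_eq_self hμ).le
  obtain ⟨A, hA, hfree⟩ := free_set μ hμ hI (fun k => ⋃ p, {i | (y p k).1 i ≠ false}) (by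
    intro k
    refine (mk_iUnion_le _).trans ?_
    refine (mul_le_mul' hP (ciSup_le' fun p => (((y p k).2).le_aleph0).trans hμ)).trans ?_
    rw [mul_eq_self hμ])
  have hA' : #(Finset J × Finset J) ≤ #(↥(A \ J)) := by
    by_contra h
    have h' : #(↥(A \ J)) ≤ μ := (not_le.1 h).le.trans hP
    have : #A ≤ μ := (mk_le_mk_of_subset (subset_sdiff_union A J)).trans
      ((mk_union_le _ _).trans (add_le_of_le hμ h' hJ))
    exact absurd hA (not_lt.2 this)
  obtain ⟨e⟩ := (Cardinal.le_def _ _).1 hA'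
  refine ⟨range fun p => y p (e p).1, ?_, ?_, ?_⟩
  · rintro _ ⟨p, rfl⟩; exact hyD _ _
  · rw [discrete_sig]
    rintro _ ⟨p, rfl⟩
    refine ⟨{(e p).1}, ?_⟩
    rintro _ ⟨q, rfl⟩ h
    have h1 := h _ (Finset.mem_singleton_self _)
    simp only [hyk] at h1
    by_cases hpq : q = p
    · rw [hpq]
    · exfalso
      refine hfree (e q).1 (e q).2.1 (e p).1 (e p).2.1
        (fun h => hpq (e.injective (Subtype.ext h))) (mem_iUnion.2 ⟨q, ?_⟩)
      simp [h1]
  · intro x w hw
    let p : Finset J × Finset J :=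
      (w.subtype (· ∈ J), (w.subtype (· ∈ J)).filter fun i => x.1 i.1 = true)
    refine ⟨_, ⟨p, rfl⟩, fun i hi => ?_⟩
    have h1 : (⟨i, hw hi⟩ : J) ∈ p.1 := Finset.mem_subtype.2 hi
    have := hy p (e p).1 ⟨i, hw hi⟩ h1 (fun h => (e p).2.2 (h ▸ hw hi))
    rw [Bool.eq_iff_iff, this]
    simp [p, hi]

theorem DSep_of_countable [Countable I] : DSep (Sig I) := by
  classical
  intro D hD
  obtain ⟨c, hc⟩ := exists_surjective_nat (Finset I × Finset I)
  choose y hyD hy using fun n => (mem_closure_sig _ _).1 (hD n (ofFin (c n).2)) (c n).1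
  refine ⟨fun n => {y n}, fun n => ⟨singleton_subset_iff.2 (hyD n), ?_⟩, fun x => ?_⟩
  · rw [discrete_sig]
    rintro _ rfl
    exact ⟨∅, fun _ h _ => h⟩
  · rw [mem_closure_sig]
    intro w
    obtain ⟨n, hn⟩ := hc (w, w.filter fun i => x.1 i = true)
    refine ⟨y n, mem_iUnion.2 ⟨n, rfl⟩, fun i hi => ?_⟩
    rw [hy n i (by rw [hn]; exact hi), Bool.eq_iff_iff, ofFin_apply, hn]
    simp [hi]

theorem DSep_of_chain (J : ℕ → Set I) (hm : Monotone J) (hU : ⋃ n, J n = Set.univ)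
    (hlt : ∀ n, succ (max #(J n) ℵ₀) < #I) : DSep (Sig I) := by
  intro D hD
  choose F hFD hFd hF using fun n =>
    level (J n) (max #(J n) ℵ₀) (le_max_right _ _) (le_max_left _ _) (hlt n) (D n) (hD n)
  refine ⟨F, fun n => ⟨hFD n, hFd n⟩, fun x => ?_⟩
  rw [mem_closure_sig]
  intro w
  obtain ⟨n, hn⟩ : ∃ n, (w : Set I) ⊆ J n := by
    choose g hg using fun i => mem_iUnion.1 (hU.ge (mem_univ i))
    exact ⟨w.sup g, fun i hi => hm (Finset.le_sup hi) (hg i)⟩
  obtain ⟨y, hy, h⟩ := hF n x w hn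
  exact ⟨y, mem_iUnion.2 ⟨n, hy⟩, h⟩

theorem DSep_of_cof (h : (#I).ord.cof = ℵ₀) : DSep (Sig I) := by
  rcases le_or_gt #I ℵ₀ with hc | hc
  · have := mk_le_aleph0_iff.1 hc
    exact DSep_of_countable
  obtain ⟨e⟩ := Cardinal.eq.1 (mk_ord_toType #I).symm
  rw [← Ordinal.cof_toType] at h
  obtain ⟨s, hs, hs'⟩ := Order.exists_cof_eq (#I).ord.ToType
  rw [h] at hs'
  have hne : s.Nonempty := by
    rw [← Set.nonempty_coe_sort, ← mk_ne_zero_iff, hs']; exact aleph0_ne_zero
  obtain ⟨c, hc'⟩ := (le_aleph0_iff_set_countable.1 hs'.le).exists_eq_range hne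
  refine DSep_of_chain (fun n => e ⁻¹' Iic (partialSups c n))
    (fun m n hmn => preimage_mono (Iic_subset_Iic.2 ((partialSups c).monotone hmn))) ?_ ?_
  · rw [eq_univ_iff_forall]
    intro i
    obtain ⟨b, hb, hib⟩ := hs (e i)
    rw [hc'] at hb
    obtain ⟨n, rfl⟩ := hb
    exact mem_iUnion.2 ⟨n, hib.trans (le_partialSups c n)⟩
  · intro n
    have h1 : #(e ⁻¹' Iic (partialSups c n)) < #I := by
      rw [mk_preimage_equiv, ← Iio_insert]
      refine (mk_insert_le).trans_lt (add_lt_of_lt hc.le (mk_Iio_toType_ord_lt _) ?_)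
      exact one_lt_aleph0.trans hc
    have h2 : max #(e ⁻¹' Iic (partialSups c n)) ℵ₀ < #I := max_lt h1 hc
    refine lt_of_le_of_ne (succ_le_of_lt h2) fun heq => ?_
    have h3 := (isRegular_succ (le_max_right #(e ⁻¹' Iic (partialSups c n)) ℵ₀))
    rw [heq] at h3
    have h4 := h3.cof_ord
    rw [← Ordinal.cof_toType, h] at h4
    exact absurd hc (by rw [← h4]; exact lt_irrefl _)

end Pool.Agent.H24.DS
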