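import Mathlib

open Finset

namespace Pool.Agent.H24.Dan

/-- exponents -/
abbrev G := ℤ ×ₗ ℤ
/-- Laurent polynomials in two variables -/
abbrev La := AddMonoidAlgebra ℂ G

/-- `f = c x^m +` lower terms -/
def T (f : La) (m : G) (c : ℂ) : Prop := (∀ n, f.coeff n ≠ 0 → n ≤ m) ∧ f.coeff m = c

theorem T.mul {f g : La} {m n : G} {c d : ℂ} (h : T f m c) (k : T g n d) : T (f * g) (m + n) (c * d) := by
  classical
  refine ⟨fun x hx => ?_, ?_⟩
  · obtain ⟨a, ha, b, hb, rfl⟩ := mem_add.1
      (AddMonoidAlgebra.support_coeff_mul_subset f g (Finsupp.mem_support_iff.2 hx))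
    exact add_le_add (h.1 a (Finsupp.mem_support_iff.1 ha)) (k.1 b (Finsupp.mem_support_iff.1 hb))
  · rw [AddMonoidAlgebra.coeff_mul_add_of_uniqueAdd, h.2, k.2]
    intro a b ha hb e
    have h1 := h.1 a (Finsupp.mem_support_iff.1 ha)
    have h2 := k.1 b (Finsupp.mem_support_iff.1 hb)
    have h3 : a = m := h1.eq_of_not_lt fun c => (add_lt_add_of_lt_of_le c h2).ne e
    exact ⟨h3, by rw [h3] at e; exact add_left_cancel e⟩

theorem T.add {f g : La} {m : G} {c d : ℂ} (h : T f m c) (k : T g m d) : T (f + g) m (c + d) :=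
  ⟨fun x hx => by
    by_contra e
    have h1 : f.coeff x = 0 := by_contra fun c => e (h.1 x c)
    have h2 : g.coeff x = 0 := by_contra fun c => e (k.1 x c)
    simp [h1, h2] at hx, by simp [h.2, k.2]⟩

theorem T.smul {f : La} {m : G} {c : ℂ} (h : T f m c) (a : ℂ) : T (a • f) m (a * c) :=
  ⟨fun x hx => h.1 x fun e => by simp [e] at hx, by simp [h.2]⟩

theorem T_zero (m : G) : T 0 m 0 := ⟨by simp, by simp⟩

theorem T_single (m : G) : T (AddMonoidAlgebra.single m 1) m 1 :=
  ⟨fun x hx => by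
    classical
    by_contra e
    exact hx (by simp [Finsupp.single_apply]; rintro rfl; exact e le_rfl), by simp⟩

theorem T.weak {f : La} {m n : G} {c : ℂ} (h : T f m c) (k : m ≤ n) : T f n (if m = n then c else 0) :=
  ⟨fun x hx => (h.1 x hx).trans k, by
    split_ifs with e
    · exact e ▸ h.2
    · exact by_contra fun c => e (le_antisymm k (h.1 n c))⟩

theorem T.lt {f : La} {m n : G} {c : ℂ} (h : T f m c) (k : m < n) : T f n 0 := by
  simpa [k.ne] using h.weak k.le

theorem T_sum {ι : Type} (s : Finset ι) (f : ι → La) (m : G) (c : ι → ℂ) (h : ∀ i ∈ s, T (f i) m (c i)) :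
    T (∑ i ∈ s, f i) m (∑ i ∈ s, c i) := by
  classical
  induction s using Finset.induction_on with
  | empty => simpa using T_zero m
  | insert a s ha ih =>
    rw [sum_insert ha, sum_insert ha]
    exact (h a (mem_insert_self _ _)).add (ih fun i hi => h i (mem_insert_of_mem hi))

theorem T_ex {f : La} (h : f ≠ 0) : ∃ m c, c ≠ 0 ∧ T f m c := by
  obtain ⟨m, hm, h1⟩ := exists_max_image f.coeff.support id
    (Finsupp.support_nonempty_iff.2 (by simpa using h))
  exact ⟨m, _, Finsupp.mem_support_iff.1 hm, fun n hn => h1 n (Finsupp.mem_support_iff.2 hn), rfl⟩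

theorem T_three (f g h : La) (a b c : G) (H : ¬ (f = 0 ∧ g = 0 ∧ h = 0)) : ∃ δ x y z,
    T f (a + δ) x ∧ T g (b + δ) y ∧ T h (c + δ) z ∧ ¬ (x = 0 ∧ y = 0 ∧ z = 0) := by
  classical
  obtain ⟨δ, hm, h1⟩ := exists_max_image (f.coeff.support.image (· - a) ∪ g.coeff.support.image (· - b) ∪
    h.coeff.support.image (· - c)) id (by
      by_contra e
      simp only [not_nonempty_iff_eq_empty, union_eq_empty, image_eq_empty, Finsupp.support_eq_empty,
        AddMonoidAlgebra.coeff_eq_zero] at e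
      exact H ⟨e.1.1, e.1.2, e.2⟩)
  simp only [mem_union, mem_image, Finsupp.mem_support_iff, id] at hm h1
  refine ⟨δ, _, _, _, ⟨fun n hn => ?_, rfl⟩, ⟨fun n hn => ?_, rfl⟩, ⟨fun n hn => ?_, rfl⟩, ?_⟩
  · exact sub_le_iff_le_add'.1 (h1 _ (.inl (.inl ⟨n, hn, rfl⟩)))
  · exact sub_le_iff_le_add'.1 (h1 _ (.inl (.inr ⟨n, hn, rfl⟩)))
  · exact sub_le_iff_le_add'.1 (h1 _ (.inr ⟨n, hn, rfl⟩))
  · rcases hm with (⟨n, hn, rfl⟩ | ⟨n, hn, rfl⟩) | ⟨n, hn, rfl⟩ <;> simp [hn]

theorem nil_mul {A : Type} [CommRing A] [Algebra ℂ A] (d : Derivation ℂ A A) (N : ℕ) :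
    ∀ x y n m, n + m = N → d^[n] x = 0 → d^[m] y = 0 → d^[N] (x * y) = 0 := by
  have z : ∀ k, d^[k] 0 = 0 := fun k => Function.iterate_fixed (map_zero d) k
  have ad : ∀ k x y, d^[k] (x + y) = d^[k] x + d^[k] y := fun k => by
    induction k with
    | zero => simp
    | succ k ih => simp [ih]
  induction N with
  | zero => intro x y n m h hx _; obtain rfl : n = 0 := by omega
            simp at hx; simp [hx]
  | succ N ih =>
    intro x y n m h hx hy
    rcases n with _ | n
    · simp only [Function.iterate_zero, id] at hx; rw [hx, zero_mul, z]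
    rcases m with _ | m
    · simp only [Function.iterate_zero, id] at hy; rw [hy, mul_zero, z]
    rw [Function.iterate_succ_apply, d.leibniz, ad, smul_eq_mul, smul_eq_mul,
      ih x _ (n + 1) m (by omega) hx hy, ih y _ (m + 1) n (by omega) hy hx, add_zero]

end Pool.Agent.H24.Dan
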