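import Pool.Agent.H24.Dan1

open Finset MvPolynomial

namespace Pool.Agent.H24.Dan

/-- the polynomial -/
noncomputable def p : MvPolynomial (Fin 3) ℂ := X 1 ^ 3 + (1 + X 0) * X 0 ^ 4 * X 1 - X 0 ^ 6 * X 2
/-- coordinate ring of a fibre -/
def R (c : ℂ) := MvPolynomial (Fin 3) ℂ ⧸ Ideal.span {p - C c}
noncomputable instance (c : ℂ) : CommRing (R c) :=
  inferInstanceAs (CommRing (MvPolynomial (Fin 3) ℂ ⧸ Ideal.span {p - C c}))
noncomputable instance (c : ℂ) : Algebra ℂ (R c) :=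
  inferInstanceAs (Algebra ℂ (MvPolynomial (Fin 3) ℂ ⧸ Ideal.span {p - C c}))
/-- quotient map -/
noncomputable def mk (c : ℂ) : MvPolynomial (Fin 3) ℂ →ₐ[ℂ] R c := Ideal.Quotient.mkₐ ℂ _
/-- generators -/
noncomputable def g (c : ℂ) (i : Fin 3) : R c := mk c (X i)

variable (c : ℂ)

theorem mk_surj : Function.Surjective (mk c) := Ideal.Quotient.mkₐ_surjective ℂ _

theorem mk_zero {q : MvPolynomial (Fin 3) ℂ} : mk c q = 0 ↔ p - C c ∣ q :=
  Ideal.Quotient.eq_zero_iff_mem.trans Ideal.mem_span_singleton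

theorem rel : g c 0 ^ 6 * g c 2 = g c 1 ^ 3 + (1 + g c 0) * g c 0 ^ 4 * g c 1 - algebraMap ℂ _ c := by
  have : mk c (p - C c) = 0 := (mk_zero c).2 dvd_rfl
  simp only [p, map_sub, map_add, map_mul, map_pow, map_one, algHom_C] at this
  simp only [g]
  linear_combination -this

/-- maps out of the coordinate ring -/
noncomputable def lift {A : Type} [CommRing A] [Algebra ℂ A] (x : Fin 3 → A)
    (h : x 0 ^ 6 * x 2 = x 1 ^ 3 + (1 + x 0) * x 0 ^ 4 * x 1 - algebraMap ℂ _ c) : R c →ₐ[ℂ] A :=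
  Ideal.Quotient.liftₐ _ (aeval x) fun a ha => by
    obtain ⟨b, rfl⟩ := Ideal.mem_span_singleton.1 ha
    simp only [p, map_sub, map_add, map_mul, map_pow, map_one, algHom_C, aeval_X]
    linear_combination -aeval x b * h

theorem lift_g {A : Type} [CommRing A] [Algebra ℂ A] (x : Fin 3 → A) (h) (i : Fin 3) :
    lift c x h (g c i) = x i := aeval_X x i

/-- monomials -/
noncomputable def xx (b a : ℤ) : La := AddMonoidAlgebra.single (toLex (b, a)) 1

/-- the embedding -/
noncomputable def io : R c →ₐ[ℂ] La :=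
  lift c ![xx 0 1, xx 1 0, xx 0 (-1) ^ 6 * (xx 1 0 ^ 3 + (1 + xx 0 1) * xx 0 1 ^ 4 * xx 1 0 - algebraMap ℂ _ c)] (by
    have : xx 0 1 * xx 0 (-1) = 1 := by
      simp [xx, AddMonoidAlgebra.single_mul_single, ← toLex_add, AddMonoidAlgebra.one_def]; rfl
    simp only [Matrix.cons_val]
    rw [← mul_assoc, ← mul_pow, this, one_pow, one_mul])

theorem T_one : T 1 0 1 := T_single 0

theorem T.pow {f : La} {m : G} (h : T f m 1) (n : ℕ) : T (f ^ n) (n • m) 1 := by
  induction n with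
  | zero => simpa using T_one
  | succ n ih => rw [pow_succ, succ_nsmul]; simpa using ih.mul h

theorem lt_of {a b a' b' : ℤ} (h : b < b') : (toLex (b, a) : G) < toLex (b', a') :=
  Prod.Lex.toLex_lt_toLex.2 (.inl h)

theorem T0 : T (io c (g c 0)) (toLex (0, 1)) 1 := by rw [io, lift_g]; exact T_single _
theorem T1 : T (io c (g c 1)) (toLex (1, 0)) 1 := by rw [io, lift_g]; exact T_single _
theorem T2 : T (io c (g c 2)) (toLex (3, -6)) 1 := by
  rw [io, lift_g]
  have a := T_single (toLex (0, 1))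
  have b := T_single (toLex (1, 0))
  have h1 : T (xx 1 0 ^ 3) (toLex (3, 0)) 1 := b.pow 3
  have h2 : T (xx 0 1 ^ 4 * xx 1 0) (toLex (3, 0)) 0 := ((a.pow 4).mul b).lt (lt_of (b := 1) (a := 4) (by norm_num))
  have h3 : T (xx 0 1 ^ 5 * xx 1 0) (toLex (3, 0)) 0 := ((a.pow 5).mul b).lt (lt_of (b := 1) (a := 5) (by norm_num))
  have h4 : T ((-c) • (1 : La)) (toLex (3, 0)) 0 := (T_one.smul _).lt (lt_of (b := 0) (a := 0) (by norm_num))
  have := ((T_single (toLex (0, -1))).pow 6).mul (((h1.add h2).add h3).add h4)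
  simp only [Matrix.cons_val, Algebra.algebraMap_eq_smul_one]
  convert this using 1
  · simp only [xx, neg_smul]; ring
  · rfl
  · simp

/-- exponent of a normal monomial -/
def ex (e : ℕ × Fin 3 × ℕ) : G := toLex (((e.2.1 : ℕ) : ℤ) + 3 * e.2.2, (e.1 : ℤ) - 6 * e.2.2)
/-- normal monomials -/
noncomputable def mon (e : ℕ × Fin 3 × ℕ) : R c := g c 0 ^ e.1 * g c 1 ^ (e.2.1 : ℕ) * g c 2 ^ e.2.2

theorem ex_eq (e : ℕ × Fin 3 × ℕ) :
    e.1 • toLex (0, 1) + (e.2.1 : ℕ) • toLex (1, 0) + e.2.2 • toLex (3, -6) = ex e := by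
  change toLex (e.1 • ((0, 1) : ℤ × ℤ) + (e.2.1 : ℕ) • (1, 0) + e.2.2 • (3, -6)) = toLex _
  congr 1
  ext <;> simp <;> ring

theorem ex_inj : Function.Injective ex := fun ⟨i, j, k⟩ ⟨i', j', k'⟩ h => by
  simp only [ex, toLex_inj, Prod.mk.injEq] at h ⊢
  omega

theorem nf (f : R c) : ∃ a : (ℕ × Fin 3 × ℕ) →₀ ℂ, ∑ e ∈ a.support, a e • mon c e = f := by
  refine Finsupp.mem_span_range_iff_exists_finsupp.1 ?_
  obtain ⟨q, rfl⟩ := mk_surj c f
  have b : ∀ e, mon c e ∈ Submodule.span ℂ (Set.range (mon c)) := fun e =>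
    Submodule.subset_span ⟨e, rfl⟩
  induction q using MvPolynomial.induction_on with
  | C a => simpa [mon, Algebra.algebraMap_eq_smul_one] using Submodule.smul_mem _ a (b (0, 0, 0))
  | add p q hp hq => rw [map_add]; exact add_mem hp hq
  | mul_X p i hp =>
    rw [map_mul]
    change _ * g c i ∈ _
    generalize mk c p = w at hp ⊢
    induction hp using Submodule.span_induction with
    | zero => simp
    | add x y _ _ hx hy => rw [add_mul]; exact add_mem hx hy
    | smul a x _ hx => rw [smul_mul_assoc]; exact Submodule.smul_mem _ a hx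
    | mem x hx =>
      obtain ⟨⟨n, j, k⟩, rfl⟩ := hx
      fin_cases i
      · convert b (n + 1, j, k) using 1; simp [mon]; ring
      · fin_cases j
        · convert b (n, 1, k) using 1; simp [mon]; ring
        · convert b (n, 2, k) using 1; simp [mon]; ring
        · convert add_mem (sub_mem (sub_mem (b (n + 6, 0, k + 1)) (b (n + 4, 1, k))) (b (n + 5, 1, k)))
            (Submodule.smul_mem _ c (b (n, 0, k))) using 1
          rw [Algebra.smul_def]
          simp [mon]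
          linear_combination -(g c 0 ^ n * g c 2 ^ k) * rel c
      · convert b (n, j, k + 1) using 1; simp [mon]; ring

theorem Tmon (e : ℕ × Fin 3 × ℕ) : T (io c (mon c e)) (ex e) 1 := by
  have := (((T0 c).pow e.1).mul ((T1 c).pow e.2.1)).mul ((T2 c).pow e.2.2)
  rw [ex_eq] at this
  simpa [mon] using this

theorem TS (a : (ℕ × Fin 3 × ℕ) →₀ ℂ) (m : G) (h : ∀ e ∈ a.support, ex e ≤ m) :
    T (io c (∑ e ∈ a.support, a e • mon c e)) m (∑ e ∈ a.support, a e * if ex e = m then 1 else 0) := by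
  rw [map_sum]
  exact T_sum _ _ _ _ fun e he => by rw [map_smul]; exact ((Tmon c e).weak (h e he)).smul _

theorem top (a : (ℕ × Fin 3 × ℕ) →₀ ℂ) (h : a.support.Nonempty) : ∃ m, (∀ e ∈ a.support, ex e ≤ m) ∧
    (io c (∑ e ∈ a.support, a e • mon c e)).coeff m ≠ 0 := by
  obtain ⟨e, he, h1⟩ := exists_max_image a.support ex h
  refine ⟨ex e, h1, ?_⟩
  rw [(TS c a _ h1).2, sum_eq_single_of_mem e he fun b _ hb => by simp [ex_inj.ne hb]]
  simpa using he

theorem nf' {f : R c} {m : G} {x : ℂ} (h : T (io c f) m x) : ∃ a : (ℕ × Fin 3 × ℕ) →₀ ℂ,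
    ∑ e ∈ a.support, a e • mon c e = f ∧ (∀ e ∈ a.support, ex e ≤ m) ∧
    x = ∑ e ∈ a.support, a e * if ex e = m then 1 else 0 := by
  obtain ⟨a, rfl⟩ := nf c f
  have : ∀ e ∈ a.support, ex e ≤ m := fun e he => by
    obtain ⟨n, h1, h2⟩ := top c a ⟨e, he⟩
    exact (h1 e he).trans (h.1 n h2)
  exact ⟨a, rfl, this, h.2.symm.trans (TS c a m this).2⟩

theorem io_inj : Function.Injective (io c) := (injective_iff_map_eq_zero _).2 fun f hf => by
  obtain ⟨a, rfl⟩ := nf c f
  rcases a.support.eq_empty_or_nonempty with h | h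
  · simp [h]
  · obtain ⟨n, -, h2⟩ := top c a h
    simp [hf] at h2

instance : IsDomain (R c) := (io_inj c).isDomain (io c).toRingHom

theorem lam {f : R c} {m : G} {x : ℂ} (h : T (io c f) m x) (hx : x ≠ 0) : ∃ e, ex e = m := by
  obtain ⟨a, -, -, rfl⟩ := nf' c h
  obtain ⟨e, -, he⟩ := exists_ne_zero_of_sum_ne_zero hx
  exact ⟨e, by_contra fun k => by simp [k] at he⟩

end Pool.Agent.H24.Dan
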