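import Pool.Agent.H24.Dan2

open Finset

namespace Pool.Agent.H24.Dan

variable {c : ℂ} (D : Derivation ℂ (R c) (R c))

/-- leading data of `f` and `D f` -/
def P (δ : G) (f : R c) (m : G) (l : ℂ) : Prop := T (io c f) m 1 ∧ T (io c (D f)) (m + δ) l

theorem P.mul {D : Derivation ℂ (R c) (R c)} {δ m n : G} {f h : R c} {l k : ℂ} (a : P D δ f m l)
    (b : P D δ h n k) : P D δ (f * h) (m + n) (l + k) := by
  refine ⟨by simpa using a.1.mul b.1, ?_⟩
  have h1 := a.1.mul b.2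
  have h2 := b.1.mul a.2
  rw [← add_assoc] at h1 h2
  rw [add_comm n] at h2
  simpa [add_comm l] using h1.add h2

theorem P.pow {D : Derivation ℂ (R c) (R c)} {δ m : G} {f : R c} {l : ℂ} (a : P D δ f m l) (n : ℕ) :
    P D δ (f ^ n) (n • m) (n * l) := by
  induction n with
  | zero => exact ⟨by simpa using T_one, by simpa using T_zero _⟩
  | succ n ih => rw [pow_succ, succ_nsmul, Nat.cast_succ, add_mul, one_mul]; exact ih.mul a

theorem shift (h0 : ¬ (D (g c 0) = 0 ∧ D (g c 1) = 0 ∧ D (g c 2) = 0)) : ∃ (δ : G) (l k : ℂ),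
    ¬ (l = 0 ∧ k = 0) ∧ ∀ f m x, T (io c f) m x →
      T (io c (D f)) (m + δ) ((k * (ofLex m).1 + l * (ofLex m).2) * x) := by
  obtain ⟨δ, l, k, n, h1, h2, h3, h4⟩ := T_three (io c (D (g c 0))) (io c (D (g c 1))) (io c (D (g c 2)))
    (toLex (0, 1)) (toLex (1, 0)) (toLex (3, -6)) (by simpa only [map_eq_zero_iff _ (io_inj c)])
  have a0 : P D δ _ _ l := ⟨T0 c, h1⟩
  have a1 : P D δ _ _ k := ⟨T1 c, h2⟩
  have a2 : P D δ _ _ n := ⟨T2 c, h3⟩
  have e : n = 3 * k - 6 * l := by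
    have b1 : T _ (toLex (3, 0) + δ) _ := ((a0.pow 6).mul a2).2
    have b2 : T _ (toLex (3, 0) + δ) _ := (a1.pow 3).2
    have b3 : T _ (toLex (3, 0) + δ) 0 := ((a0.pow 4).mul a1).2.lt
      (add_lt_add_left (lt_of (b := 1) (a := 4) (by norm_num)) δ)
    have b4 : T _ (toLex (3, 0) + δ) 0 := ((a0.pow 5).mul a1).2.lt
      (add_lt_add_left (lt_of (b := 1) (a := 5) (by norm_num)) δ)
    have b5 := (b2.add b3).add b4
    rw [← map_add, ← map_add, ← map_add, ← map_add] at b5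
    rw [rel, map_sub, D.map_algebraMap, sub_zero, add_mul, add_mul, one_mul, ← pow_succ', ← add_assoc] at b1
    have := b1.2.symm.trans b5.2
    push_cast at this
    linear_combination this
  refine ⟨δ, l, k, fun h => h4 ⟨h.1, h.2, by simp [e, h.1, h.2]⟩, fun f m x hf => ?_⟩
  obtain ⟨a, rfl, h5, rfl⟩ := nf' c hf
  rw [map_sum, map_sum, mul_sum]
  refine T_sum _ _ _ _ fun i hi => ?_
  have := (((a0.pow i.1).mul (a1.pow i.2.1)).mul (a2.pow i.2.2)).2
  rw [ex_eq] at this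
  rw [D.map_smul, map_smul]
  have := (this.weak (add_le_add_left (h5 i hi) δ)).smul (a i)
  simp only [add_left_inj] at this
  convert this using 1
  · rfl
  split_ifs with h
  · rw [← h, e]; simp [ex]; ring
  · simp

theorem ML (h0 : ¬ (D (g c 0) = 0 ∧ D (g c 1) = 0 ∧ D (g c 2) = 0)) (hn : ∀ f, ∃ n, D^[n] f = 0) :
    ∃ (q : ℤ) (k : ℂ), k ≠ 0 ∧ ∀ f m x, T (io c f) m x →
      T (io c (D f)) (m + toLex (-1, q)) (k * (ofLex m).1 * x) := by
  obtain ⟨⟨a, b⟩, l, k, h1, h2⟩ := shift D h0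
  change ∀ f m x, _ → T _ (m + toLex (a, b)) _ at h2
  have key : ∀ n f (y z : ℤ) x, x ≠ 0 → T (io c f) (toLex (y, z)) x → D^[n] f = 0 → ∃ i : ℕ,
      k * (y + i * a) + l * (z + i * b) = 0 ∧ ∃ e, ex e = toLex (y + i * a, z + i * b) := fun n => by
    induction n with
    | zero => intro f y z x hx hf h; simp only [Function.iterate_zero, id] at h
              subst h; exact absurd hf.2.symm (by simpa using hx)
    | succ n ih =>
      intro f y z x hx hf h
      by_cases e : k * y + l * z = 0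
      · exact ⟨0, by simpa using e, by simpa using lam c hf hx⟩
      obtain ⟨i, h3, h4⟩ := ih (D f) (y + a) (z + b) _ (mul_ne_zero e hx) (h2 f _ x hf) h
      refine ⟨i + 1, by push_cast at h3 ⊢; linear_combination h3, ?_⟩
      convert h4 using 5 <;> push_cast <;> ring
  obtain ⟨n0, t0⟩ := hn (g c 0)
  obtain ⟨n1, t1⟩ := hn (g c 1)
  obtain ⟨n2, t2⟩ := hn (g c 2)
  obtain ⟨i0, e0, ⟨x0, j0, y0⟩, f0⟩ := key n0 _ _ _ _ one_ne_zero (T0 c) t0
  obtain ⟨i1, e1, ⟨x1, j1, y1⟩, f1⟩ := key n1 _ _ _ _ one_ne_zero (T1 c) t1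
  obtain ⟨i2, e2, -⟩ := key n2 _ _ _ _ one_ne_zero (T2 c) t2
  push_cast at e0 e1 e2
  set w := -(k * a + l * b) with hw
  have hl : l = i0 * w := by linear_combination e0
  have hk : k = i1 * w := by linear_combination e1
  have w0 : w ≠ 0 := fun h => h1 ⟨by simp [hl, h], by simp [hk, h]⟩
  have r1 : (3 * i1 : ℤ) - 6 * i0 = i2 := by
    have : (3 * i1 : ℂ) - 6 * i0 = i2 :=
      mul_right_cancel₀ w0 (by linear_combination e2 - 3 * hk + 6 * hl)
    exact_mod_cast this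
  have r2 : (i1 * a + i0 * b : ℤ) = -1 := by
    have : (i1 * a + i0 * b : ℂ) = -1 :=
      mul_right_cancel₀ w0 (by linear_combination hw - a * hk - b * hl)
    exact_mod_cast this
  simp only [ex, toLex_inj, Prod.mk.injEq] at f0
  have i00 : i0 = 0 := by
    by_contra hi
    have k0 : k ≠ 0 := by rw [hk]; exact mul_ne_zero (by exact_mod_cast (by omega : i1 ≠ 0)) w0
    obtain ⟨⟨x3, j3, y3⟩, f3⟩ := lam c (h2 _ _ _ (T1 c)) (by simpa using k0)
    simp only [ex, ← toLex_add, Prod.mk_add_mk, toLex_inj, Prod.mk.injEq] at f3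
    have r3 : (i1 * (j0 : ℕ) + i0 * x0 + y0 * i2 : ℤ) = 0 := by
      linear_combination i1 * f0.1 + i0 * f0.2 + i0 * r2 - y0 * r1
    have p1 : (0 : ℤ) ≤ i1 * (j0 : ℕ) := by positivity
    have p2 : (0 : ℤ) ≤ i0 * x0 := by positivity
    have p3 : (0 : ℤ) ≤ y0 * i2 := by positivity
    have q1 : (j0 : ℕ) = 0 := by
      have : (i1 * (j0 : ℕ) : ℤ) = 0 := by omega
      rcases mul_eq_zero.1 this with h | h <;> omega
    have q2 : x0 = 0 := by
      have : (i0 * x0 : ℤ) = 0 := by omega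
      rcases mul_eq_zero.1 this with h | h <;> omega
    rw [q1, q2] at f0
    have r4 : (i0 : ℤ) * (-(b + 2 * a)) = 1 := by push_cast at f0; linear_combination f0.2 + 2 * f0.1
    have r5 : (i0 : ℤ) = 1 := Int.eq_one_of_mul_eq_one_right (by positivity) r4
    rw [r5] at f0
    omega
  subst i00
  have r6 : (i1 : ℤ) * (-a) = 1 := by push_cast at r2; linear_combination -r2
  have r7 : (i1 : ℤ) = 1 := Int.eq_one_of_mul_eq_one_right (by positivity) r6
  obtain rfl : a = -1 := by rw [r7] at r6; omega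
  have l0 : l = 0 := by simp [hl]
  exact ⟨b, k, fun h => h1 ⟨l0, h⟩, fun f m x hf => by simpa [l0] using h2 f m x hf⟩

theorem low (h0 : ¬ (D (g c 0) = 0 ∧ D (g c 1) = 0 ∧ D (g c 2) = 0)) (hn : ∀ f, ∃ n, D^[n] f = 0)
    (J : ℕ) (hJ : J ≤ 2) (f : R c) (hf : D^[J + 1] f = 0) : ∃ w : ℕ → Polynomial ℂ,
      f = ∑ j ∈ range (J + 1), Polynomial.aeval (g c 0) (w j) * g c 1 ^ j := by
  obtain ⟨q, k, k0, h⟩ := ML D h0 hn
  rcases eq_or_ne f 0 with rfl | f0
  · exact ⟨0, by simp⟩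
  obtain ⟨m, x, hx, h1⟩ := T_ex ((map_ne_zero_iff _ (io_inj c)).2 f0)
  have key : ∀ (n : ℕ) f m x, x ≠ 0 → T (io c f) m x → D^[n] f = 0 → (ofLex m).1 < n := fun n => by
    induction n with
    | zero => intro f m x hx hf h; simp only [Function.iterate_zero, id] at h
              subst h; exact absurd hf.2.symm (by simpa using hx)
    | succ n ih =>
      intro f m x hx hf h3
      by_cases e : (ofLex m).1 = 0
      · omega
      have := ih (D f) _ _ (mul_ne_zero (mul_ne_zero k0 (by exact_mod_cast e)) hx) (h f m x hf) h3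
      simp at this; omega
  have h2 := key _ f m x hx h1 hf
  obtain ⟨a, rfl, h3, -⟩ := nf' c h1
  refine sum_induction _ (fun f => ∃ w : ℕ → Polynomial ℂ,
    f = ∑ j ∈ range (J + 1), Polynomial.aeval (g c 0) (w j) * g c 1 ^ j) ?_ ⟨0, by simp⟩ fun e he => ?_
  · rintro _ _ ⟨w, rfl⟩ ⟨w', rfl⟩
    exact ⟨w + w', by simp [add_mul, sum_add_distrib]⟩
  · have h4 : ((e.2.1 : ℕ) : ℤ) + 3 * e.2.2 ≤ (ofLex m).1 := Prod.Lex.monotone_fst _ _ (h3 e he)
    refine ⟨Pi.single e.2.1 (a e • Polynomial.X ^ e.1), ?_⟩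
    rw [sum_eq_single_of_mem (e.2.1 : ℕ) (mem_range.2 (by omega)) fun b _ hb => by simp [hb]]
    simp [mon, show e.2.2 = 0 by omega]

end Pool.Agent.H24.Dan
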