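import Pool.Agent.H24.Dan3

open Finset

namespace Pool.Agent.H24.Dan

open MvPolynomial in
/-- the triangular derivation -/
noncomputable def d0 : Derivation ℂ (MvPolynomial (Fin 3) ℂ) (MvPolynomial (Fin 3) ℂ) :=
  mkDerivation ℂ ![0, X 0 ^ 6, 3 * X 1 ^ 2 + (1 + X 0) * X 0 ^ 4]

open MvPolynomial in
theorem gen_nil (D : Derivation ℂ (MvPolynomial (Fin 3) ℂ) (MvPolynomial (Fin 3) ℂ))
    (a0 : D (X 0) = 0) (a1 : D (X 1) = X 0 ^ 6) (a2 : D (X 2) = 3 * X 1 ^ 2 + (1 + X 0) * X 0 ^ 4)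
    (q : MvPolynomial (Fin 3) ℂ) : ∃ n, D^[n] q = 0 := by
  have a3 : D 3 = 0 := D.map_natCast 3
  have a4 : D 2 = 0 := D.map_natCast 2
  have z : ∀ k, D^[k] 0 = 0 := fun k => Function.iterate_fixed (map_zero D) k
  induction q using MvPolynomial.induction_on with
  | C a => exact ⟨1, D.map_algebraMap a⟩
  | add p q hp hq =>
    obtain ⟨n, hn⟩ := hp
    obtain ⟨m, hm⟩ := hq
    refine ⟨n + m, ?_⟩
    rw [iterate_map_add, Function.iterate_add_apply _ n m q, hm, add_comm n,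
      Function.iterate_add_apply, hn, z, z, add_zero]
  | mul_X p i hp =>
    obtain ⟨n, hn⟩ := hp
    refine ⟨_, nil_mul D _ _ _ n 4 rfl hn ?_⟩
    have b0 : D (D (D (D (X 0)))) = 0 := by simp [a0]
    have b1 : D (D (D (D (X 1)))) = 0 := by simp [a0, a1]
    have b2 : D (D (D (D (X 2)))) = 0 := by simp [a0, a1, a2, a3, a4]
    fin_cases i
    exacts [b0, b1, b2]

theorem d0_nil (q : MvPolynomial (Fin 3) ℂ) : ∃ n, d0^[n] q = 0 :=
  gen_nil d0 (by simp [d0]) (by simp [d0]) (by simp [d0]) q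

variable {c d : ℂ} (φ : R c ≃ₐ[ℂ] R d)

theorem g0_ne (c : ℂ) : g c 0 ≠ 0 := fun h => by simpa [h] using (T0 c).2

theorem der : ∃ D : Derivation ℂ (R d) (R d), (∀ f, ∃ n, D^[n] f = 0) ∧
    ¬ (D (g d 0) = 0 ∧ D (g d 1) = 0 ∧ D (g d 2) = 0) ∧ D (φ (g c 0)) = 0 ∧
    D (φ (g c 1)) = φ (g c 0) ^ 6 := by
  have hs : Function.Surjective (φ.toAlgHom.comp (mk c)) := φ.surjective.comp (mk_surj c)
  have hd : ∀ x, (φ.toAlgHom.comp (mk c)) x = 0 → (φ.toAlgHom.comp (mk c)) (d0 x) = 0 := fun x hx => by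
    simp only [AlgHom.comp_apply, AlgEquiv.coe_toAlgHom, EmbeddingLike.map_eq_zero_iff,
      mk_zero] at hx ⊢
    obtain ⟨y, rfl⟩ := hx
    have : d0 (p - MvPolynomial.C c) = 0 := by simp [d0, p]; ring
    rw [d0.leibniz, this, smul_zero, add_zero]
    exact Dvd.intro _ rfl
  have e : ∀ x, Derivation.liftOfSurjective hs hd (φ (mk c x)) = φ (mk c (d0 x)) :=
    Derivation.liftOfSurjective_apply hs hd
  generalize Derivation.liftOfSurjective hs hd = D at e
  have e1 : D (φ (g c 1)) = φ (g c 0) ^ 6 := by rw [g, e]; simp [d0, g]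
  refine ⟨D, fun f => ?_, fun h => ?_, by rw [g, e]; simp [d0], e1⟩
  · obtain ⟨x, rfl⟩ := hs f
    obtain ⟨n, hn⟩ := d0_nil x
    have : ∀ n x, D^[n] (φ (mk c x)) = φ (mk c (d0^[n] x)) := fun n => by
      induction n with
      | zero => simp
      | succ n ih => simp [e, ih]
    exact ⟨n, (this n x).trans (by simp [hn])⟩
  · have : ∀ q, D (mk d q) = 0 := fun q => by
      induction q using MvPolynomial.induction_on with
      | C a => simp
      | add p q hp hq => simp [hp, hq]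
      | mul_X p i hp =>
        have : D (g d i) = 0 := by fin_cases i; exacts [h.1, h.2.1, h.2.2]
        rw [map_mul, D.leibniz, hp, ← g, this]; simp
    obtain ⟨q, hq⟩ := mk_surj d (φ (g c 1))
    rw [← hq, this] at e1
    exact g0_ne c (by simpa using e1.symm)

open Polynomial

theorem str : ∃ a b e : ℂ[X], φ (g c 0) = aeval (g d 0) a ∧
    φ (g c 1) = aeval (g d 0) b * g d 1 + aeval (g d 0) e := by
  obtain ⟨D, h1, h2, h3, h4⟩ := der φ
  obtain ⟨w, hw⟩ := low D h2 h1 0 (by norm_num) _ h3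
  obtain ⟨w', hw'⟩ := low D h2 h1 1 (by norm_num) (φ (g c 1)) (by simp [h3, h4])
  exact ⟨w 0, w' 1, w' 0, by simpa using hw, by simpa [sum_range_succ, add_comm] using hw'⟩

/-- points with nonzero first coordinate -/
noncomputable def pt (d s v : ℂ) (hs : s ≠ 0) : R d →ₐ[ℂ] ℂ :=
  lift d ![s, v, (v ^ 3 + (1 + s) * s ^ 4 * v - d) / s ^ 6] (by simp; field_simp)

theorem pt0 (d s v : ℂ) (hs : s ≠ 0) : pt d s v hs (g d 0) = s := lift_g _ _ _ _
theorem pt1 (d s v : ℂ) (hs : s ≠ 0) : pt d s v hs (g d 1) = v := lift_g _ _ _ _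
theorem pta (d s v : ℂ) (hs : s ≠ 0) (w : ℂ[X]) : pt d s v hs (aeval (g d 0) w) = w.eval s := by
  rw [← aeval_algHom_apply, pt0, coe_aeval_eq_eval]

theorem pext {a b : ℂ[X]} (h : ∀ s, s ≠ 0 → a.eval s = b.eval s) : a = b :=
  eq_of_infinite_eval_eq _ _ ((Set.finite_singleton 0).infinite_compl.mono fun s hs => h s hs)

theorem str2 : ∃ (α α' β : ℂ) (e : ℂ[X]), α ≠ 0 ∧ β ≠ 0 ∧ φ (g c 0) = aeval (g d 0) (C α * X + C α') ∧
    φ (g c 1) = β • g d 1 + aeval (g d 0) e := by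
  obtain ⟨a, b, e, h1, h2⟩ := str φ
  obtain ⟨a', b', e', h3, h4⟩ := str φ.symm
  rw [AlgEquiv.symm_apply_eq] at h3 h4
  simp only [map_add, map_mul, ← aeval_algHom_apply φ, h1, h2, ← aeval_comp] at h3 h4
  have h5 : X = a'.comp a := pext fun s hs => by simpa [pt0, pta] using congrArg (pt d s 0 hs) h3
  have h6 : b'.comp a * b = 1 := pext fun s hs => by
    have h7 := congrArg (pt d s 0 hs) h4
    have h8 := congrArg (pt d s 1 hs) h4
    simp only [map_add, map_mul, pta, pt1, eval_mul, eval_one] at h7 h8 ⊢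
    linear_combination h7 - h8
  have h7 := congrArg natDegree h5
  rw [natDegree_X, natDegree_comp] at h7
  obtain ⟨α, h8, α', rfl⟩ := natDegree_eq_one.1 (Nat.eq_one_of_mul_eq_one_left h7.symm)
  obtain ⟨β, h9, rfl⟩ := Polynomial.isUnit_iff.1 (IsUnit.of_mul_eq_one_right _ h6)
  exact ⟨α, α', β, e, h8, h9.ne_zero, h1, by simp [h2, Algebra.smul_def]⟩

include φ in
theorem noniso (hc : c ≠ 0) : d = c ∨ d = -c := by
  obtain ⟨α, α', β, e, h1, h2, h3, h4⟩ := str2 φ
  have r := congrArg φ (rel c)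
  simp only [map_mul, map_pow, map_add, map_sub, map_one, AlgEquiv.commutes] at r
  obtain rfl : α' = 0 := by
    by_contra h
    have hs : -α' / α ≠ 0 := by simp [h, h1]
    have := congrArg (pt d _ (-e.eval (-α' / α) / β) hs) r
    simp only [h3, h4, map_mul, map_pow, map_add, map_sub, map_one, pta, map_smul, pt1, aeval_C,
      aeval_X, pt0, AlgHom.commutes, smul_eq_mul, Algebra.algebraMap_self, RingHom.id_apply,
      mul_div_cancel₀ _ h1, mul_div_cancel₀ _ h2] at this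
    exact hc (by linear_combination this)
  obtain ⟨D, n1, n2, n3, n4⟩ := der φ
  have h5 : φ (g c 0) = α • g d 0 := by simp [h3, Algebra.smul_def]
  have s0 : D (g d 0) = 0 := by simpa [h5, h1] using n3
  have e0 : D (aeval (g d 0) e) = 0 := by rw [D.map_aeval, s0, smul_zero]
  have v0 : D (D (g d 1)) = 0 := by simpa [h4, e0, n3, h2] using congrArg D n4
  have r' := rel d
  have q : g d 0 ^ 6 * (α ^ 6 • φ (g c 2) - β ^ 3 • g d 2) =
      (β ^ 2 • 3 * g d 1 ^ 2 + β • 3 * aeval (g d 0) e * g d 1 + aeval (g d 0) e ^ 2) * aeval (g d 0) e +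
      (1 + α • g d 0) * (α • g d 0) ^ 4 * (β • g d 1 + aeval (g d 0) e) - algebraMap ℂ _ c -
      β ^ 3 • ((1 + g d 0) * g d 0 ^ 4 * g d 1 - algebraMap ℂ _ d) := by
    rw [h4, h5] at r
    simp only [Algebra.smul_def, map_pow] at r ⊢
    linear_combination r - algebraMap ℂ (R d) β ^ 3 * r'
  have a3 : D 3 = 0 := D.map_natCast 3
  have a2 : D 2 = 0 := D.map_natCast 2
  obtain ⟨w, hw⟩ := low D n2 n1 2 le_rfl (α ^ 6 • φ (g c 2) - β ^ 3 • g d 2) (by
    have := congrArg (fun x => D (D (D x))) q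
    generalize α ^ 6 • φ (g c 2) - β ^ 3 • g d 2 = y at this
    simpa [s0, e0, v0, a3, a2, g0_ne] using this)
  rw [hw] at q
  have key : ∀ y : ℂ, X ^ 6 ∣ (C (β ^ 2 * 3 * y ^ 2) + C (β * 3 * y) * e + e ^ 2) * e +
      (1 + C α * X) * (C α * X) ^ 4 * (C (β * y) + e) - C c -
      C (β ^ 3) * ((1 + X) * X ^ 4 * C y - C d) := fun y =>
    ⟨w 0 + w 1 * C y + w 2 * C y ^ 2, pext fun s hs => by
      have := congrArg (pt d s y hs) q
      simp [pta, pt0, pt1, sum_range_succ, map_ofNat] at this ⊢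
      linear_combination -this⟩
  have k1 : X ^ 6 ∣ e := by
    have := dvd_sub (dvd_add (key 1) (key (-1))) (dvd_add (key 0) (key 0))
    rw [← (isUnit_C.2 (Ne.isUnit (by simp [h2] : β ^ 2 * 6 ≠ 0))).dvd_mul_left]
    convert this using 1
    simp only [map_mul, map_pow, map_neg, map_one, map_zero, map_ofNat]; ring
  obtain ⟨e, rfl⟩ := k1
  have k2 : X ^ 6 ∣ C (2 * (β * α ^ 4 - β ^ 3)) * X ^ 4 + C (2 * (β * α ^ 5 - β ^ 3)) * X ^ 5 := by
    convert dvd_sub (dvd_sub (key 1) (key (-1))) (Dvd.intro (C (β * 6) * X ^ 6 * e ^ 2) rfl) using 1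
    simp only [map_mul, map_pow, map_neg, map_one, map_sub, map_ofNat]; ring
  rw [X_pow_dvd_iff] at k2
  have k4 := k2 4 (by norm_num)
  have k5 := k2 5 (by norm_num)
  have k0 := X_pow_dvd_iff.1 (key 0) 0 (by norm_num)
  simp only [coeff_add, coeff_C_mul_X_pow] at k4 k5
  simp [coeff_zero_eq_eval_zero] at k0
  norm_num at k4 k5
  have k6 : α = 1 := mul_left_cancel₀ (mul_ne_zero h2 (pow_ne_zero 4 h1)) (by linear_combination k5 - k4)
  have k7 : (β - 1) * (β + 1) = 0 := mul_left_cancel₀ h2 (by rw [k6] at k4; linear_combination -k4)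
  rcases mul_eq_zero.1 k7 with h | h
  · left; rw [sub_eq_zero.1 h] at k0; linear_combination k0
  · right; rw [eq_neg_of_add_eq_zero_left h] at k0; linear_combination -k0

end Pool.Agent.H24.Dan
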