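import Pool.Agent.H24.Dan4

open Filter Topology

namespace Pool.Agent.H24.Dan

/-- the zero set -/
abbrev XX := ↥({x : Fin 3 → ℂ | MvPolynomial.eval x p = 0} : Set (Fin 3 → ℂ))

theorem mem_iff (x : Fin 3 → ℂ) : x ∈ ({x : Fin 3 → ℂ | MvPolynomial.eval x p = 0} : Set (Fin 3 → ℂ)) ↔
    x 1 ^ 3 + (1 + x 0) * x 0 ^ 4 * x 1 - x 0 ^ 6 * x 2 = 0 := by simp [p]

theorem sw (x : XX) : x.1 0 * (x.1 1 / x.1 0) = x.1 1 := by
  have h := (mem_iff _).1 x.2
  by_cases e : x.1 0 = 0
  · simp [e] at h; simp [h]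
  · field_simp

theorem bd (x : XX) : ‖x.1 1 / x.1 0‖ ≤ ‖x.1 0‖ * (1 + ‖1 + x.1 0‖ + ‖x.1 2‖) := by
  have h := (mem_iff _).1 x.2
  by_cases e : x.1 0 = 0
  · simp [e]
  obtain ⟨t, ht⟩ : ∃ t, x.1 1 = x.1 0 ^ 2 * t := ⟨x.1 1 / x.1 0 ^ 2, by field_simp⟩
  have h1 : t ^ 3 = x.1 2 - (1 + x.1 0) * t :=
    mul_left_cancel₀ (pow_ne_zero 6 e) (by rw [ht] at h; linear_combination h)
  have h2 : ‖t‖ ^ 3 ≤ ‖x.1 2‖ + ‖1 + x.1 0‖ * ‖t‖ := by
    rw [← norm_pow, h1, ← norm_mul]; exact norm_sub_le _ _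
  have h3 : x.1 1 / x.1 0 = x.1 0 * t := by rw [ht]; field_simp
  rw [h3, norm_mul]
  refine mul_le_mul_of_nonneg_left ?_ (norm_nonneg _)
  have := norm_nonneg (x.1 2)
  have := norm_nonneg (1 + x.1 0)
  generalize ‖x.1 2‖ = a at *
  generalize ‖1 + x.1 0‖ = b at *
  generalize ‖t‖ = r at *
  by_contra k
  push Not at k
  have k1 : 1 < r := by linarith
  have k2 : r * (1 + b + a) < r * r := by gcongr
  have k3 : r * r < r * r * r := by nlinarith
  nlinarith

theorem cx (i : Fin 3) : Continuous fun x : XX => x.1 i :=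
  (continuous_apply i).comp continuous_subtype_val

theorem cw : Continuous fun x : XX => x.1 1 / x.1 0 := continuous_iff_continuousAt.2 fun y => by
  by_cases e : y.1 0 = 0
  · have : Continuous fun x : XX => ‖x.1 0‖ * (1 + ‖1 + x.1 0‖ + ‖x.1 2‖) :=
      (cx 0).norm.mul ((continuous_const.add (continuous_const.add (cx 0)).norm).add (cx 2).norm)
    have h := this.tendsto y
    simp only [e, norm_zero, zero_mul] at h
    rw [ContinuousAt, e, div_zero]
    exact squeeze_zero_norm bd h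
  · exact (cx 1).continuousAt.div (cx 0).continuousAt e

/-- the deformation -/
noncomputable def Φ (t : ℂ) (x : XX) : XX :=
  ⟨![t * x.1 0, t ^ 2 * x.1 1, x.1 2 - (1 - t) * (x.1 1 / x.1 0)], (mem_iff _).2 (by
    simp only [Matrix.cons_val]
    linear_combination t ^ 6 * (mem_iff _).1 x.2 + t ^ 6 * (1 - t) * x.1 0 ^ 5 * sw x)⟩

/-- the line -/
noncomputable def Ψ (t : ℂ) : XX := ⟨![0, 0, t], (mem_iff _).2 (by simp)⟩

theorem contr : ContractibleSpace XX := by
  have c1 : Continuous fun q : unitInterval × XX => ((q.1 : ℝ) : ℂ) := by fun_prop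
  have c2 : Continuous fun q : unitInterval × XX => q.2.1 1 / q.2.1 0 := cw.comp continuous_snd
  have c3 : Continuous Ψ := Continuous.subtype_mk (by fun_prop) _
  let F : C(XX, XX) := ⟨fun x => Ψ (x.1 2 - x.1 1 / x.1 0), c3.comp ((cx 2).sub cw)⟩
  let H1 : F.Homotopy (ContinuousMap.id XX) :=
    { toFun := fun q => Φ ((q.1 : ℝ) : ℂ) q.2
      continuous_toFun := Continuous.subtype_mk (by
        refine continuous_pi fun i => ?_
        fin_cases i
        · exact c1.mul ((cx 0).comp continuous_snd)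
        · exact (c1.pow 2).mul ((cx 1).comp continuous_snd)
        · exact ((cx 2).comp continuous_snd).sub ((continuous_const.sub c1).mul c2)) _
      map_zero_left := fun x => Subtype.ext (by simp [F, Φ, Ψ])
      map_one_left := fun x => Subtype.ext (by funext i; fin_cases i <;> simp [Φ]) }
  let H2 : (ContinuousMap.const XX (Ψ 0)).Homotopy F :=
    { toFun := fun q => Ψ (((q.1 : ℝ) : ℂ) * (q.2.1 2 - q.2.1 1 / q.2.1 0))
      continuous_toFun := c3.comp (c1.mul (((cx 2).comp continuous_snd).sub c2))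
      map_zero_left := fun x => by simp
      map_one_left := fun x => by simp [F] }
  exact (contractible_iff_id_nullhomotopic XX).2 ⟨_, ⟨(H2.trans H1).symm⟩⟩

theorem irr : Irreducible p := by
  have h : IsDomain (MvPolynomial (Fin 3) ℂ ⧸ Ideal.span {p - MvPolynomial.C 0}) :=
    inferInstanceAs (IsDomain (R 0))
  rw [Ideal.Quotient.isDomain_iff_prime, map_zero, sub_zero, Ideal.span_singleton_prime] at h
  · exact h.irreducible
  · intro e
    simpa [p] using congrArg (MvPolynomial.eval ![0, 1, 0]) e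

end Pool.Agent.H24.Dan
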