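import Mathlib

open Finset PowerSeries

namespace Pool.Agent.H24.Dombi

open Classical in
/-- tuples with entries in `B`, increasing for the relation `R` -/
noncomputable def T (R : ℕ → ℕ → Prop) (k : ℕ) (B : Finset ℕ) : Finset (Fin k → ℕ) :=
  (Fintype.piFinset fun _ => B).filter fun a => ∀ i j, i < j → R (a i) (a j)

/-- generating sum -/
noncomputable def U (R : ℕ → ℕ → Prop) (x : ℕ → ℂ) (B : Finset ℕ) (k : ℕ) : ℂ :=
  ∑ a ∈ T R k B, ∏ j, x (a j)

theorem U_zero (R : ℕ → ℕ → Prop) (x : ℕ → ℂ) (B : Finset ℕ) : U R x B 0 = 1 := by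
  simp [U, T]

theorem U_succ (R : ℕ → ℕ → Prop) [DecidableRel R] (x : ℕ → ℂ) (B : Finset ℕ) (k : ℕ) :
    U R x B (k + 1) = ∑ m ∈ B, x m * U R x (B.filter (R m)) k := by
  simp only [U, mul_sum]
  rw [sum_sigma']
  refine sum_nbij' (fun a => ⟨a 0, Fin.tail a⟩) (fun p => Fin.cons p.1 p.2) ?_ ?_ ?_ ?_ ?_
  · intro a ha
    simp only [T, mem_filter, Fintype.mem_piFinset, mem_sigma, Fin.tail] at ha ⊢
    exact ⟨ha.1 0, fun i => ⟨ha.1 _, ha.2 _ _ (Fin.succ_pos i)⟩,
      fun i j h => ha.2 _ _ (Fin.succ_lt_succ_iff.2 h)⟩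
  · intro p hp
    simp only [T, mem_filter, Fintype.mem_piFinset, mem_sigma] at hp ⊢
    refine ⟨fun i => Fin.cases hp.1 (fun i => (hp.2.1 i).1) i, fun i j => ?_⟩
    refine Fin.cases ?_ (fun i => ?_) i <;> refine Fin.cases ?_ (fun j => ?_) j <;> intro h
    · simp at h
    · exact (hp.2.1 j).2
    · simp at h
    · exact hp.2.2 _ _ (Fin.succ_lt_succ_iff.1 h)
  · intro a _; simp
  · intro p _; simp
  · intro a _; simp [Fin.prod_univ_succ, Fin.tail]

/-- Newton-type identity -/
def Nw (u c : ℕ → ℂ) : Prop := d⁄dX ℂ (PowerSeries.mk u) = PowerSeries.mk u * PowerSeries.mk c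

theorem geo (x : ℂ) : (1 - C x * X) * (PowerSeries.mk fun j => x ^ (j + 1)) = C x := by
  ext n
  rcases n with _ | n <;> simp [sub_mul, mul_assoc, coeff_succ_X_mul, coeff_C, pow_succ']

theorem step_h {u u' c : ℕ → ℂ} (x : ℂ) (h : Nw u c) (h0 : u' 0 = u 0)
    (h1 : ∀ k, u' (k + 1) = x * u' k + u (k + 1)) : Nw u' fun j => x ^ (j + 1) + c j := by
  have e : PowerSeries.mk u = (1 - C x * X) * PowerSeries.mk u' := by
    ext n
    rcases n with _ | n <;> simp [sub_mul, mul_assoc, coeff_succ_X_mul, h0, h1]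
  have n0 : (1 - C x * X : ℂ⟦X⟧) ≠ 0 := fun h => by simpa using congrArg (coeff 0) h
  have e2 : (PowerSeries.mk fun j => x ^ (j + 1) + c j) =
      (PowerSeries.mk fun j => x ^ (j + 1)) + PowerSeries.mk c := by ext; simp
  rw [Nw, e] at h
  rw [Nw, e2]
  simp only [Derivation.leibniz, map_sub, derivative_C, derivative_X, derivative_one, smul_eq_mul] at h
  refine mul_left_cancel₀ n0 ?_
  linear_combination h - PowerSeries.mk u' * geo x

theorem step_e {u u' c : ℕ → ℂ} (x : ℂ) (h : Nw u c) (h0 : u' 0 = u 0)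
    (h1 : ∀ k, u' (k + 1) = x * u k + u (k + 1)) : Nw u' fun j => -(-x) ^ (j + 1) + c j := by
  have e : PowerSeries.mk u' = (1 - C (-x) * X) * PowerSeries.mk u := by
    ext n
    rcases n with _ | n <;> simp [add_mul, mul_assoc, coeff_succ_X_mul, h0, h1, add_comm]
  have e2 : (PowerSeries.mk fun j => -(-x) ^ (j + 1) + c j) =
      -(PowerSeries.mk fun j => (-x) ^ (j + 1)) + PowerSeries.mk c := by ext; simp
  rw [Nw] at h
  rw [Nw, e2, e]
  simp only [Derivation.leibniz, map_sub, derivative_C, derivative_X, derivative_one, smul_eq_mul]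
  linear_combination (1 - C (-x) * X) * h + PowerSeries.mk u * geo (-x)

theorem Nw_empty (R : ℕ → ℕ → Prop) (x : ℕ → ℂ) : Nw (U R x ∅) fun _ => 0 := by
  classical
  have : PowerSeries.mk (U R x ∅) = 1 := by
    ext n
    rcases n with _ | n <;> simp [U_zero, U_succ, coeff_one]
  rw [Nw, this, derivative_one]
  ext; simp

theorem Nw_le (x : ℕ → ℂ) (B : Finset ℕ) : Nw (U (· ≤ ·) x B) fun j => ∑ a ∈ B, x a ^ (j + 1) := by
  induction B using Finset.induction_on_min with
  | empty => simpa using Nw_empty _ x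
  | insert m B hm ih =>
    have hn : m ∉ B := fun h => lt_irrefl _ (hm m h)
    simp only [sum_insert hn]
    refine step_h (x m) ih (by simp [U_zero]) fun k => ?_
    rw [U_succ, U_succ, sum_insert hn, filter_true_of_mem fun b hb => by
      rcases mem_insert.1 hb with rfl | h
      exacts [le_rfl, (hm b h).le]]
    congr 1
    refine sum_congr rfl fun b hb => ?_
    rw [filter_insert, if_neg (hm b hb).not_ge]

theorem Nw_lt (x : ℕ → ℂ) (B : Finset ℕ) :
    Nw (U (· < ·) x B) fun j => ∑ a ∈ B, -(-x a) ^ (j + 1) := by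
  induction B using Finset.induction_on_min with
  | empty => simpa using Nw_empty _ x
  | insert m B hm ih =>
    have hn : m ∉ B := fun h => lt_irrefl _ (hm m h)
    simp only [sum_insert hn]
    refine step_e (x m) ih (by simp [U_zero]) fun k => ?_
    rw [U_succ, U_succ, sum_insert hn, filter_insert, if_neg (lt_irrefl m), filter_true_of_mem hm]
    congr 1
    refine sum_congr rfl fun b hb => ?_
    rw [filter_insert, if_neg (hm b hb).not_gt]

theorem U_true (x : ℕ → ℂ) (B : Finset ℕ) (k : ℕ) :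
    U (fun _ _ => True) x B k = (∑ a ∈ B, x a) ^ k := by
  induction k with
  | zero => simp [U_zero]
  | succ k ih => rw [U_succ, pow_succ', sum_mul]; simp [ih]

theorem ana {u c : ℕ → ℂ} (h : Nw u c) (h0 : u 0 = 1) (k : ℕ) (q : ℝ) (hq : 1 ≤ q)
    (hc : ∀ j, 1 ≤ j → j < k → ‖c j‖ ≤ q ^ 2) :
    ‖c 0‖ ≤ 2 ^ (k + 1) * k.factorial * q ∨ ‖c 0‖ ^ k ≤ 2 * k.factorial * ‖u k‖ := by
  have hN : ∀ n, u (n + 1) * (n + 1) = ∑ j ∈ range n, c (j + 1) * u (n - (j + 1)) + c 0 * u n :=
    fun n => by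
      have := congrArg (coeff n) h
      rw [coeff_derivative, mul_comm (PowerSeries.mk u), coeff_mul,
        Nat.sum_antidiagonal_eq_sum_range_succ_mk, sum_range_succ'] at this
      simpa using this
  set s := ‖c 0‖ with hs
  have s0 : 0 ≤ s := norm_nonneg _
  set t := s + q with ht
  have t1 : 1 ≤ t := by linarith
  have key : ∀ n, n < k → (∀ i ≤ n, ‖u i‖ ≤ t ^ i) →
      ‖∑ j ∈ range n, c (j + 1) * u (n - (j + 1))‖ ≤ n * (q * t ^ n) := fun n hn hu => by
    refine (norm_sum_le _ _).trans ((sum_le_card_nsmul _ _ (q * t ^ n) fun j hj => ?_).trans (by simp))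
    rw [mem_range] at hj
    have h1 := hc (j + 1) (by omega) (by omega)
    have h2 := hu (n - (j + 1)) (by omega)
    have h3 : q ≤ t ^ (j + 1) := le_trans (by linarith) (le_self_pow₀ t1 (by omega))
    calc _ ≤ q * q * t ^ (n - (j + 1)) := by rw [norm_mul, ← sq]; gcongr
      _ ≤ q * t ^ (j + 1) * t ^ (n - (j + 1)) := by gcongr
      _ = _ := by rw [mul_assoc, ← pow_add]; congr 2; omega
  have a1 : ∀ n, n ≤ k → ∀ i ≤ n, ‖u i‖ ≤ t ^ i := fun n => by
    induction n with
    | zero => intro _ i hi; simp [Nat.le_zero.1 hi, h0]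
    | succ n ih =>
      intro hn i hi
      rcases hi.lt_or_eq with h' | rfl
      · exact ih (by omega) i (by omega)
      have h1 := key n hn (ih (by omega))
      have h2 := ih (by omega) n le_rfl
      have h3 : ‖u (n + 1)‖ * (n + 1) ≤ n * (q * t ^ n) + s * t ^ n := by
        have := congrArg norm (hN n)
        rw [norm_mul, ← Nat.cast_succ, Complex.norm_natCast, Nat.cast_succ] at this
        rw [this]
        refine (norm_add_le _ _).trans (add_le_add h1 ?_)
        rw [norm_mul]; gcongr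
      have : 0 ≤ t ^ n := by positivity
      have n0 : (0 : ℝ) ≤ n := Nat.cast_nonneg n
      refine le_of_mul_le_mul_right (h3.trans ?_) (by positivity : (0 : ℝ) < n + 1)
      rw [pow_succ, ht]
      nlinarith [mul_nonneg (mul_nonneg n0 s0) this, mul_nonneg (by linarith : 0 ≤ q) this]
  have a2 : ∀ n, n ≤ k → ‖n.factorial * u n - c 0 ^ n‖ * t ≤ n.factorial * q * t ^ n := fun n => by
    induction n with
    | zero => intro _; simp [h0]; linarith
    | succ n ih =>
      intro hn
      have h1 := key n hn (a1 n (by omega))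
      have e : ((n + 1).factorial : ℂ) * u (n + 1) - c 0 ^ (n + 1) = c 0 * (n.factorial * u n - c 0 ^ n) +
          n.factorial * ∑ j ∈ range n, c (j + 1) * u (n - (j + 1)) := by
        rw [Nat.factorial_succ]; push_cast
        linear_combination (n.factorial : ℂ) * hN n
      have h2 := ih (by omega)
      rw [e, Nat.factorial_succ]
      calc _ ≤ (t * ‖n.factorial * u n - c 0 ^ n‖ + n.factorial * (n * (q * t ^ n))) * t := by
            gcongr
            refine (norm_add_le _ _).trans (add_le_add ?_ ?_)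
            · rw [norm_mul]; gcongr; linarith
            · rw [norm_mul, Complex.norm_natCast]; gcongr
        _ ≤ _ := by push_cast; rw [pow_succ]; nlinarith
  rcases le_or_gt s (2 ^ (k + 1) * k.factorial * q) with h1 | h1
  · exact .inl h1
  right
  have f1 : (1 : ℝ) ≤ k.factorial := by exact_mod_cast k.factorial_pos
  have f2 : (1 : ℝ) ≤ 2 ^ (k + 1) := one_le_pow₀ (by norm_num)
  have h2 : q ≤ s := le_trans (le_mul_of_one_le_left (by linarith) (by nlinarith)) h1.le
  have h3 := a2 k le_rfl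
  have h4 : t ^ k ≤ 2 ^ k * s ^ k := by rw [← mul_pow]; gcongr; linarith
  have h5 : ‖k.factorial * u k - c 0 ^ k‖ * 2 ≤ s ^ k := by
    refine le_of_mul_le_mul_right ?_ (by linarith : 0 < s)
    have : 0 ≤ s ^ k := by positivity
    calc _ = ‖k.factorial * u k - c 0 ^ k‖ * s * 2 := by ring
      _ ≤ ‖k.factorial * u k - c 0 ^ k‖ * t * 2 := by gcongr; linarith
      _ ≤ k.factorial * q * (2 ^ k * s ^ k) * 2 := 
        mul_le_mul_of_nonneg_right (h3.trans (by gcongr)) (by norm_num)
      _ = s ^ k * (2 ^ (k + 1) * k.factorial * q) := by ring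
      _ ≤ _ := by gcongr
  have h6 := norm_sub_norm_le (c 0 ^ k) (k.factorial * u k)
  rw [norm_sub_rev, norm_pow, norm_mul, Complex.norm_natCast] at h6
  linarith

end Pool.Agent.H24.Dombi
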