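import Pool.Agent.H24.Dombi1

open Finset Real

namespace Pool.Agent.H24.Dombi

/-- the dichotomy given by Newton's identities -/
def Good (R : ℕ → ℕ → Prop) : Prop := ∀ (x : ℕ → ℂ) (B : Finset ℕ) (k : ℕ) (q : ℝ), 1 ≤ q →
  (∀ j ∈ Icc 2 k, ‖∑ a ∈ B, x a ^ j‖ ≤ q ^ 2) →
  ‖∑ a ∈ B, x a‖ ≤ 2 ^ (k + 1) * k.factorial * q ∨ ‖∑ a ∈ B, x a‖ ^ k ≤ 2 * k.factorial * ‖U R x B k‖

theorem good_le : Good (· ≤ ·) := fun x B k q hq h => by
  simpa using ana (Nw_le x B) (U_zero _ _ _) k q hq fun j h1 h2 => h _ (mem_Icc.2 ⟨by omega, h2⟩)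

theorem good_lt : Good (· < ·) := fun x B k q hq h => by
  simpa using ana (Nw_lt x B) (U_zero _ _ _) k q hq fun j h1 h2 => by
    simp only [neg_pow (x _), sum_neg_distrib, ← mul_sum, norm_neg, norm_mul, norm_pow, norm_one,
      one_pow, one_mul]
    exact h _ (mem_Icc.2 ⟨by omega, h2⟩)

theorem good_true : Good fun _ _ => True := fun x B k q _ _ => by
  right
  rw [U_true, norm_pow]
  have f1 : (1 : ℝ) ≤ k.factorial := by exact_mod_cast k.factorial_pos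
  exact le_mul_of_one_le_left (by positivity) (by linarith)

theorem abel (r : ℕ → ℝ) (n0 : ℕ) (h0 : 0 ≤ r 0) (h : ∀ n, n0 ≤ n → r n ≤ r (n + 1)) (z : ℂ)
    (hz : ‖z‖ ≤ 1) (M : ℕ) : ‖(1 - z) * ∑ n ∈ range (M + 1), r n * z ^ n + r M * z ^ (M + 1)‖ ≤
      (1 - ‖z‖) * ∑ n ∈ range (M + 1), r n * ‖z‖ ^ n + r M * ‖z‖ ^ (M + 1) +
        2 * ∑ n ∈ range n0, |r (n + 1) - r n| := by
  have key : ∀ M, ‖(1 - z) * ∑ n ∈ range (M + 1), r n * z ^ n + r M * z ^ (M + 1)‖ ≤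
      (1 - ‖z‖) * ∑ n ∈ range (M + 1), r n * ‖z‖ ^ n + r M * ‖z‖ ^ (M + 1) +
        2 * ∑ n ∈ range M, if n < n0 then |r (n + 1) - r n| else 0 := fun M => by
    induction M with
    | zero =>
      have : (1 - z) * (r 0 : ℂ) + r 0 * z = r 0 := by ring
      simp only [zero_add, range_one, sum_singleton, pow_zero, mul_one, pow_one, this,
        Complex.norm_real, Real.norm_eq_abs, abs_of_nonneg h0, range_zero, sum_empty]
      linarith
    | succ M ih =>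
      rw [sum_range_succ _ (M + 1), sum_range_succ _ (M + 1),
        sum_range_succ (fun n => if n < n0 then |r (n + 1) - r n| else 0) M]
      have e : (1 - z) * (∑ n ∈ range (M + 1), r n * z ^ n + r (M + 1) * z ^ (M + 1)) +
          r (M + 1) * z ^ (M + 1 + 1) = (1 - z) * ∑ n ∈ range (M + 1), r n * z ^ n +
          r M * z ^ (M + 1) + ((r (M + 1) - r M : ℝ) : ℂ) * z ^ (M + 1) := by push_cast; ring
      rw [e]
      refine (norm_add_le _ _).trans ?_
      rw [norm_mul _ (z ^ (M + 1)), norm_pow, Complex.norm_real, Real.norm_eq_abs]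
      have p0 : 0 ≤ ‖z‖ ^ (M + 1) := by positivity
      have p1 : ‖z‖ ^ (M + 1) ≤ 1 := pow_le_one₀ (norm_nonneg _) hz
      rw [pow_succ ‖z‖ (M + 1)]
      split_ifs with hM
      · nlinarith [neg_abs_le (r (M + 1) - r M), abs_nonneg (r (M + 1) - r M)]
      · rw [abs_of_nonneg (sub_nonneg.2 (h M (by omega)))]; linarith
  refine (key M).trans ?_
  rw [← sum_filter]
  gcongr
  exact fun n hn => mem_range.2 (mem_filter.1 hn).2

theorem pars (B : Finset ℕ) (w : ℕ → ℝ) (j : ℕ) (hj : j ≠ 0) :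
    ∫ θ in (0 : ℝ)..π, ‖∑ a ∈ B, (w a : ℂ) * Complex.exp (θ * Complex.I) ^ (a * j)‖ ^ 2 =
      π * ∑ a ∈ B, w a ^ 2 := by
  have e : ∀ θ : ℝ, ‖∑ a ∈ B, (w a : ℂ) * Complex.exp (θ * Complex.I) ^ (a * j)‖ ^ 2 =
      ∑ a ∈ B, ∑ b ∈ B, w a * w b * cos ((((a : ℤ) - b) * j : ℤ) * θ) := fun θ => by
    have : ∀ a : ℕ, Complex.exp (θ * Complex.I) ^ (a * j) =
        Complex.exp ((a * j * θ : ℝ) * Complex.I) := fun a => by
      rw [← Complex.exp_nat_mul]; push_cast; ring_nf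
    rw [Complex.sq_norm, Complex.normSq_apply]
    simp only [this, Complex.re_sum, Complex.im_sum, Complex.re_ofReal_mul, Complex.im_ofReal_mul,
      Complex.exp_ofReal_mul_I_re, Complex.exp_ofReal_mul_I_im, sum_mul_sum, ← sum_add_distrib]
    refine sum_congr rfl fun a _ => sum_congr rfl fun b _ => ?_
    push_cast
    rw [sub_mul, sub_mul, cos_sub]; ring
  simp only [e]
  rw [intervalIntegral.integral_finsetSum fun a _ => Continuous.intervalIntegrable (by fun_prop) _ _,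
    mul_sum]
  refine sum_congr rfl fun a ha => ?_
  rw [intervalIntegral.integral_finsetSum fun a _ => Continuous.intervalIntegrable (by fun_prop) _ _,
    sum_eq_single_of_mem a ha fun b _ hb => ?_]
  · simp; ring
  · have : ((((a : ℤ) - b) * j : ℤ) : ℝ) ≠ 0 := by
      have : ((a : ℤ) - b) * j ≠ 0 := mul_ne_zero (by omega) (by omega)
      exact_mod_cast this
    rw [intervalIntegral.integral_const_mul, intervalIntegral.integral_comp_mul_left _ this,
      integral_cos, sin_int_mul_pi]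
    simp

theorem one_sub (ρ θ : ℝ) (h0 : 0 ≤ ρ) (h1 : ρ ≤ 1 / 2) (t0 : 0 ≤ θ) (t1 : θ ≤ π) :
    ρ + θ ≤ 4 * ‖1 - ((1 - ρ : ℝ) : ℂ) * Complex.exp (θ * Complex.I)‖ := by
  refine abs_le_of_sq_le_sq' ?_ (by positivity) |>.2
  rw [mul_pow, Complex.sq_norm, Complex.normSq_apply]
  simp only [Complex.sub_re, Complex.sub_im, Complex.one_re, Complex.one_im, Complex.re_ofReal_mul,
    Complex.im_ofReal_mul, Complex.exp_ofReal_mul_I_re, Complex.exp_ofReal_mul_I_im]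
  have h2 := cos_le_one_sub_mul_cos_sq (x := θ) (by rwa [abs_of_nonneg t0])
  have h3 : (1 : ℝ) / 5 ≤ 2 / π ^ 2 := by
    rw [div_le_div_iff₀ (by norm_num) (by positivity)]; nlinarith [pi_lt_d2, pi_pos]
  have h4 : θ ^ 2 / 5 ≤ 1 - cos θ := by nlinarith [sq_nonneg θ]
  have h5 : θ ^ 2 / 5 ≤ 2 * (1 - ρ) * (1 - cos θ) := by nlinarith [sq_nonneg θ]
  nlinarith [sin_sq_add_cos_sq θ, sq_nonneg (ρ - θ)]

theorem integ (R : ℕ → ℕ → Prop) (hR : Good R) (k : ℕ) (hk : 2 ≤ k) : ∃ K : ℝ, 0 ≤ K ∧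
    ∀ (B : Finset ℕ) (ρ κ : ℝ), 0 < ρ → ρ ≤ 1 / 2 → 0 < κ →
    (∀ z : ℂ, ‖z‖ = 1 - ρ → 2 * k.factorial * ‖(1 - z) * U R (z ^ ·) B k‖ ≤ κ ^ k) →
    ∑ a ∈ B, ((1 - ρ) ^ a) ^ 2 ≤ 16 * κ ^ 2 * log ((ρ + π) / ρ) + K := by
  set l : ℝ := 2 ^ (k + 1) * k.factorial with hl
  have k0 : (0 : ℝ) < k := by exact_mod_cast (by omega : 0 < k)
  refine ⟨2 * (l ^ 2 + k * (k * l ^ 4 / 2)), by positivity, fun B ρ κ h0 h1 hκ h => ?_⟩
  set p : ℕ → ℝ → ℝ := fun j θ =>
    ‖∑ a ∈ B, ((((1 - ρ) ^ a) ^ j : ℝ) : ℂ) * Complex.exp (θ * Complex.I) ^ (a * j)‖ with hp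
  have pc : ∀ j, Continuous (p j) := fun j => by simp only [hp]; fun_prop
  have pt : ∀ θ ∈ Set.Icc 0 π, p 1 θ ^ 2 ≤ 8 * κ ^ 2 * (1 / (ρ + θ)) + (l ^ 2 + k * (k * l ^ 4 / 2)) +
      1 / (2 * k) * ∑ j ∈ Icc 2 k, p j θ ^ 2 := fun θ hθ => by
    set z : ℂ := ((1 - ρ : ℝ) : ℂ) * Complex.exp (θ * Complex.I) with hz
    have nz : ‖z‖ = 1 - ρ := by
      rw [hz, norm_mul, Complex.norm_exp_ofReal_mul_I, Complex.norm_real, Real.norm_eq_abs,
        abs_of_nonneg (by linarith), mul_one]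
    have e : ∀ j, ‖∑ a ∈ B, (z ^ a) ^ j‖ = p j θ := fun j => by
      simp only [hp, hz, mul_pow, pow_mul]; push_cast; rfl
    have p0 : ∀ j, 0 ≤ p j θ := fun j => norm_nonneg _
    have S0 : 0 ≤ ∑ j ∈ Icc 2 k, p j θ := sum_nonneg fun j _ => p0 j
    have t0 : 0 < ρ + θ := by linarith [hθ.1]
    have e1 := e 1
    simp only [pow_one] at e1
    have := hR (z ^ ·) B k √(1 + ∑ j ∈ Icc 2 k, p j θ) (Real.one_le_sqrt.2 (by linarith))
      fun j hj => by
        rw [e, Real.sq_sqrt (by linarith)]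
        linarith [single_le_sum (f := fun j => p j θ) (fun j _ => p0 j) hj]
    rw [e1] at this
    rcases this with h2 | h2
    · have h3 := pow_le_pow_left₀ (p0 1) h2 2
      rw [mul_pow, Real.sq_sqrt (by linarith), ← hl, mul_add] at h3
      have h4 : ∑ j ∈ Icc 2 k, l ^ 2 * p j θ ≤
          ∑ j ∈ Icc 2 k, (k * l ^ 4 / 2 + 1 / (2 * k) * p j θ ^ 2) := sum_le_sum fun j _ => by
        have : k * l ^ 4 / 2 + 1 / (2 * k) * p j θ ^ 2 - l ^ 2 * p j θ =
          (k * l ^ 2 - p j θ) ^ 2 / (2 * k) := by field_simp; ring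
        have : 0 ≤ (k * l ^ 2 - p j θ) ^ 2 / (2 * k) := by positivity
        linarith
      rw [sum_add_distrib, ← mul_sum, ← mul_sum, sum_const, Nat.card_Icc, nsmul_eq_mul] at h4
      have h5 : ((k + 1 - 2 : ℕ) : ℝ) ≤ k := by exact_mod_cast (by omega : k + 1 - 2 ≤ k)
      have : ((k + 1 - 2 : ℕ) : ℝ) * (k * l ^ 4 / 2) ≤ k * (k * l ^ 4 / 2) := by gcongr
      have : 0 ≤ 8 * κ ^ 2 * (1 / (ρ + θ)) := by positivity
      linarith
    · have h3 := h z nz
      have h4 := one_sub ρ θ h0.le h1 hθ.1 hθ.2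
      rw [← hz] at h4
      rw [norm_mul] at h3
      have h5 : ‖1 - z‖ ≤ 2 := (norm_sub_le _ _).trans (by rw [nz, norm_one]; linarith)
      have h6 : p 1 θ ^ 2 * ‖1 - z‖ ≤ 2 * κ ^ 2 := by
        rcases le_total (p 1 θ) κ with c | c
        · rw [mul_comm]; gcongr
        · obtain ⟨m, rfl⟩ := Nat.exists_eq_add_of_le hk
          refine le_of_mul_le_mul_right ?_ (pow_pos hκ m)
          calc _ ≤ p 1 θ ^ 2 * ‖1 - z‖ * p 1 θ ^ m := by gcongr
            _ = ‖1 - z‖ * p 1 θ ^ (2 + m) := by ring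
            _ ≤ ‖1 - z‖ * (2 * (2 + m).factorial * ‖U R (z ^ ·) B (2 + m)‖) := by gcongr
            _ ≤ κ ^ (2 + m) := by linarith
            _ ≤ _ := by rw [pow_add]; nlinarith [pow_pos hκ m, pow_pos hκ 2]
      have h7 : p 1 θ ^ 2 ≤ 8 * κ ^ 2 * (1 / (ρ + θ)) := by
        rw [mul_one_div, le_div_iff₀ t0]; nlinarith [sq_nonneg (p 1 θ)]
      have : 0 ≤ 1 / (2 * k) * ∑ j ∈ Icc 2 k, p j θ ^ 2 := by positivity
      have : 0 ≤ l ^ 2 + k * (k * l ^ 4 / 2) := by positivity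
      linarith
  have ci : IntervalIntegrable (fun θ : ℝ => 1 / (ρ + θ)) MeasureTheory.volume 0 π :=
    ContinuousOn.intervalIntegrable (continuousOn_const.div (by fun_prop) fun θ hθ => by
      rw [Set.uIcc_of_le pi_pos.le] at hθ; linarith [hθ.1])
  have c2 : Continuous fun θ => 1 / (2 * k : ℝ) * ∑ j ∈ Icc 2 k, p j θ ^ 2 := by fun_prop
  have I := intervalIntegral.integral_mono_on pi_pos.le
    (Continuous.intervalIntegrable (by fun_prop) _ _)
    (((ci.const_mul _).add intervalIntegrable_const).add (c2.intervalIntegrable _ _)) pt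
  rw [intervalIntegral.integral_add ((ci.const_mul _).add intervalIntegrable_const)
    (c2.intervalIntegrable _ _), intervalIntegral.integral_add (ci.const_mul _) intervalIntegrable_const,
    intervalIntegral.integral_const_mul, intervalIntegral.integral_const_mul,
    intervalIntegral.integral_finsetSum fun a _ => Continuous.intervalIntegrable (by fun_prop) _ _,
    intervalIntegral.integral_comp_add_left (fun x => 1 / x), integral_one_div_of_pos (by linarith)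
      (by linarith [pi_pos]), intervalIntegral.integral_const, add_zero, sub_zero, smul_eq_mul] at I
  simp only [hp] at I
  rw [pars _ _ 1 one_ne_zero, sum_congr rfl fun j hj => pars _ _ j (by have := mem_Icc.1 hj; omega)] at I
  simp only [pow_one] at I
  set F := ∑ a ∈ B, ((1 - ρ) ^ a) ^ 2
  have F0 : 0 ≤ F := sum_nonneg fun _ _ => by positivity
  have J : ∑ j ∈ Icc 2 k, π * ∑ a ∈ B, (((1 - ρ) ^ a) ^ j) ^ 2 ≤ k * (π * F) := by
    refine (sum_le_card_nsmul _ _ (π * F) fun j hj => ?_).trans ?_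
    · have r0 : 0 ≤ 1 - ρ := by linarith
      refine mul_le_mul_of_nonneg_left (sum_le_sum fun a _ => ?_) pi_pos.le
      exact pow_le_pow_left₀ (by positivity) (pow_le_of_le_one (by positivity)
        (pow_le_one₀ r0 (by linarith)) (by have := mem_Icc.1 hj; omega)) 2
    · rw [Nat.card_Icc, nsmul_eq_mul]; gcongr; exact_mod_cast (by omega : k + 1 - 2 ≤ k)
  have J2 : 1 / (2 * k) * ∑ j ∈ Icc 2 k, π * ∑ a ∈ B, (((1 - ρ) ^ a) ^ j) ^ 2 ≤ π * F / 2 :=
    calc _ ≤ 1 / (2 * k) * (k * (π * F)) := by gcongr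
      _ = _ := by field_simp
  have L0 : 0 ≤ κ ^ 2 * log ((ρ + π) / ρ) := mul_nonneg (by positivity)
    (log_nonneg (by rw [le_div_iff₀ h0]; linarith [pi_pos]))
  refine le_of_mul_le_mul_left ?_ pi_pos
  nlinarith [pi_gt_three]

end Pool.Agent.H24.Dombi
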