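import Pool.Agent.H24.Dombi2

open Finset Real Filter Topology

namespace Pool.Agent.H24.Dombi

open Classical in
/-- elements of `A` up to `M` -/
noncomputable def Bm (A : Set ℕ) (M : ℕ) : Finset ℕ := (range (M + 1)).filter (· ∈ A)

/-- representation function -/
noncomputable def rep (R : ℕ → ℕ → Prop) (k : ℕ) (A : Set ℕ) (n : ℕ) : ℕ :=
  #((T R k (Bm A n)).filter fun a => ∑ j, a j = n)

/-- truncated generating function -/
noncomputable def ph (A : Set ℕ) (M : ℕ) (r : ℝ) : ℝ := ∑ a ∈ Bm A M, r ^ a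

/-- generating function -/
noncomputable def Ph (A : Set ℕ) (r : ℝ) : ℝ := ⨆ M, ph A M r

variable (R : ℕ → ℕ → Prop) (k : ℕ) (A : Set ℕ)

theorem mem_rep {n M : ℕ} (h : n ≤ M) (a : Fin k → ℕ) :
    a ∈ (T R k (Bm A M)).filter (fun a => ∑ j, a j = n) ↔
      (∀ j, a j ∈ A) ∧ ∑ j, a j = n ∧ ∀ i j, i < j → R (a i) (a j) := by
  simp only [T, Bm, mem_filter, Fintype.mem_piFinset, mem_range]
  refine ⟨fun h => ⟨fun j => (h.1.1 j).2, h.2, h.1.2⟩, fun ⟨h1, h2, h3⟩ => ⟨⟨fun j => ⟨?_, h1 j⟩, h3⟩, h2⟩⟩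
  have := single_le_sum (f := a) (fun _ _ => Nat.zero_le _) (mem_univ j)
  omega

theorem split {F : Type} [CommSemiring F] (z : F) (M : ℕ) :
    ∑ a ∈ (T R k (Bm A M)).filter (fun a => ∑ j, a j < M + 1), z ^ (∑ j, a j) =
      ∑ n ∈ range (M + 1), rep R k A n * z ^ n := by
  rw [← sum_fiberwise_of_maps_to (g := fun a : Fin k → ℕ => ∑ j, a j) (t := range (M + 1))
    fun a ha => mem_range.2 (mem_filter.1 ha).2]
  refine sum_congr rfl fun n hn => ?_
  have hn := mem_range.1 hn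
  rw [rep, ← nsmul_eq_mul, ← sum_const]
  refine sum_congr ?_ fun a ha => by rw [(mem_filter.1 ha).2]
  ext a
  rw [filter_comm, mem_filter, mem_rep R k A (by omega : n ≤ M), mem_rep R k A le_rfl]
  exact ⟨fun h => h.1, fun h => ⟨h, by omega⟩⟩

theorem card_T (M : ℕ) : #(T R k (Bm A M)) ≤ (M + 1) ^ k := by
  classical
  refine (card_filter_le _ _).trans ?_
  rw [Fintype.card_piFinset, prod_const, card_univ, Fintype.card_fin]
  gcongr
  exact (card_filter_le _ _).trans (card_range _).le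

theorem sum_rep (M : ℕ) (r : ℝ) (hr : 0 ≤ r) :
    ∑ n ∈ range (M + 1), rep R k A n * r ^ n ≤ ph A M r ^ k := by
  classical
  rw [← split, ph, ← Fin.prod_const, prod_univ_sum]
  simp only [← prod_pow_eq_pow_sum]
  exact sum_le_sum_of_subset_of_nonneg ((filter_subset _ _).trans (filter_subset _ _))
    fun _ _ _ => by positivity

theorem ph_le (M : ℕ) {ρ : ℝ} (h0 : 0 < ρ) (h1 : ρ ≤ 1) : ph A M (1 - ρ) ≤ 1 / ρ := by
  classical
  have r0 : 0 ≤ 1 - ρ := by linarith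
  have h := geom_sum_mul_neg (1 - ρ) (M + 1)
  have : ph A M (1 - ρ) ≤ ∑ i ∈ range (M + 1), (1 - ρ) ^ i :=
    sum_le_sum_of_subset_of_nonneg (filter_subset _ _) fun _ _ _ => by positivity
  rw [le_div_iff₀ h0]
  nlinarith [pow_nonneg r0 (M + 1)]

theorem le_Ph (M : ℕ) {ρ : ℝ} (h0 : 0 < ρ) (h1 : ρ ≤ 1) : ph A M (1 - ρ) ≤ Ph A (1 - ρ) :=
  le_ciSup (f := fun M => ph A M (1 - ρ)) ⟨1 / ρ, by rintro _ ⟨M, rfl⟩; exact ph_le A M h0 h1⟩ M

theorem ph_nn (M : ℕ) {r : ℝ} (h0 : 0 ≤ r) : 0 ≤ ph A M r := sum_nonneg fun _ _ => by positivity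

theorem P1 (hR : Good R) (hk : 2 ≤ k) (n0 : ℕ) (h : ∀ n, n0 ≤ n → rep R k A n ≤ rep R k A (n + 1)) :
    ∃ C K : ℝ, 0 ≤ C ∧ 0 ≤ K ∧ ∀ ρ κ : ℝ, 0 < ρ → ρ ≤ 1 / 2 → 0 < κ →
      2 * k.factorial * (C + ρ * Ph A (1 - ρ) ^ k) ≤ κ ^ k →
      Ph A (1 - 2 * ρ) ≤ 16 * κ ^ 2 * log ((ρ + π) / ρ) + K := by
  classical
  obtain ⟨K, K0, hK⟩ := integ R hR k hk
  refine ⟨2 * ∑ n ∈ range n0, |(rep R k A (n + 1) : ℝ) - rep R k A n| + 1, K, by positivity, K0,
    fun ρ κ h0 h1 hκ H => ciSup_le fun M0 => ?_⟩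
  have r0 : 0 ≤ 1 - ρ := by linarith
  have t := (tendsto_pow_const_mul_const_pow_of_lt_one k r0 (by linarith)).comp
    (tendsto_add_atTop_nat 1)
  obtain ⟨M, hM, hM0⟩ := ((t.eventually_le_const (by norm_num : (0 : ℝ) < 1 / 4)).and
    (eventually_ge_atTop M0)).exists
  simp only [Function.comp] at hM
  refine le_trans ?_ (hK (Bm A M) ρ κ h0 h1 hκ fun z hz => le_trans ?_ H)
  · refine (sum_le_sum fun a _ => ?_).trans (sum_le_sum_of_subset_of_nonneg
      (filter_subset_filter _ (range_mono (by omega))) fun _ _ _ => by positivity)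
    rw [← pow_mul, mul_comm a, pow_mul]
    exact pow_le_pow_left₀ (by linarith) (by nlinarith) a
  gcongr
  have h2 := abel (fun n => rep R k A n) n0 (by positivity) (fun n hn => by exact_mod_cast h n hn) z
    (by linarith) M
  have h3 := sum_rep R k A M _ r0
  have h4 : ph A M (1 - ρ) ^ k ≤ Ph A (1 - ρ) ^ k :=
    pow_le_pow_left₀ (ph_nn A M r0) (le_Ph A M h0 (by linarith)) k
  have h5 : (#(T R k (Bm A M)) : ℝ) ≤ ((M + 1 : ℕ) : ℝ) ^ k := by exact_mod_cast card_T R k A M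
  have h6 : (rep R k A M : ℝ) * (1 - ρ) ^ (M + 1) ≤ 1 / 4 := by
    refine le_trans ?_ hM
    gcongr
    exact le_trans (by exact_mod_cast card_filter_le _ _) h5
  set t := ∑ a ∈ (T R k (Bm A M)).filter (fun a => ¬ ∑ j, a j < M + 1), z ^ (∑ j, a j) with ht
  have h7 : ‖t‖ ≤ 1 / 4 := by
    refine (norm_sum_le _ _).trans ((sum_le_card_nsmul _ _ ((1 - ρ) ^ (M + 1)) fun a ha => ?_).trans
      (le_trans ?_ hM))
    · rw [norm_pow, hz]
      exact pow_le_pow_of_le_one r0 (by linarith) (not_lt.1 (mem_filter.1 ha).2)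
    · rw [nsmul_eq_mul]; gcongr
      exact le_trans (by exact_mod_cast card_filter_le _ _) h5
  have e : (1 - z) * U R (z ^ ·) (Bm A M) k = (1 - z) * ∑ n ∈ range (M + 1),
      ((rep R k A n : ℝ) : ℂ) * z ^ n + (rep R k A M : ℝ) * z ^ (M + 1) -
      (rep R k A M : ℝ) * z ^ (M + 1) + (1 - z) * t := by
    simp only [U, prod_pow_eq_pow_sum, Complex.ofReal_natCast]
    rw [← split, ← sum_filter_add_sum_filter_not _ fun a => ∑ j, a j < M + 1]; ring
  have h8 : ‖1 - z‖ ≤ 2 := (norm_sub_le _ _).trans (by rw [hz, norm_one]; linarith)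
  have h9 : ‖(1 - z) * t‖ ≤ 2 * (1 / 4) := by rw [norm_mul]; gcongr
  rw [e]
  refine (norm_add_le _ _).trans ((add_le_add_left (norm_sub_le _ _) _).trans ?_)
  rw [norm_mul _ (z ^ (M + 1)), norm_pow, Complex.norm_real, Real.norm_natCast, hz]
  rw [hz, sub_sub_cancel] at h2
  nlinarith

theorem P2 (hR : ∀ x y, x < y → R x y) (hk : 2 ≤ k) (hA : A.Infinite) (n0 : ℕ)
    (h : ∀ n, n0 ≤ n → rep R k A n ≤ rep R k A (n + 1)) :
    ∃ c : ℝ, 0 < c ∧ ∀ ρ : ℝ, 0 < ρ → ρ ≤ 1 / 2 → c ≤ ρ * Ph A (1 - ρ) ^ k := by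
  have sm := Nat.nth_strictMono (p := (· ∈ A)) hA
  set a : Fin k → ℕ := fun j => Nat.nth (· ∈ A) (n0 + j) with ha
  set n1 := ∑ j, a j with hn1
  have h1 : n0 ≤ n1 := by
    refine le_trans ?_ (single_le_sum (f := a) (fun _ _ => Nat.zero_le _) (mem_univ ⟨0, by omega⟩))
    exact sm.le_apply
  have h2 : ∀ n, n1 ≤ n → 1 ≤ rep R k A n := fun n hn => by
    induction n, hn using Nat.le_induction with
    | base => exact card_pos.2 ⟨a, (mem_rep R k A le_rfl a).2 ⟨fun j => Nat.nth_mem_of_infinite hA _,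
        rfl, fun i j hij => hR _ _ (sm (by simpa using hij))⟩⟩
    | succ n hn ih => exact ih.trans (h n (by omega))
  refine ⟨(1 / 2) ^ n1 / 2, by positivity, fun ρ h0 h3 => ?_⟩
  have r0 : 0 ≤ 1 - ρ := by linarith
  have t := (tendsto_pow_atTop_nhds_zero_of_lt_one r0 (by linarith)).comp (tendsto_add_atTop_nat 1)
  obtain ⟨M, hM, hM0⟩ := ((t.eventually_le_const (by positivity : (0 : ℝ) < (1 / 2) ^ n1 / 2)).and
    (eventually_ge_atTop n1)).exists
  simp only [Function.comp] at hM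
  have h4 := geom_sum_Ico_mul_neg (1 - ρ) (by omega : n1 ≤ M + 1)
  have h5 : ∑ i ∈ Ico n1 (M + 1), (1 - ρ) ^ i ≤ Ph A (1 - ρ) ^ k := by
    refine le_trans ?_ ((sum_rep R k A M _ r0).trans
      (pow_le_pow_left₀ (ph_nn A M r0) (le_Ph A M h0 (by linarith)) k))
    refine (sum_le_sum fun n hn => ?_).trans (sum_le_sum_of_subset_of_nonneg
      (fun n hn => mem_range.2 (mem_Ico.1 hn).2) fun _ _ _ => by positivity)
    exact le_mul_of_one_le_left (by positivity) (by exact_mod_cast h2 n (mem_Ico.1 hn).1)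
  have h6 : (1 / 2 : ℝ) ^ n1 ≤ (1 - ρ) ^ n1 := pow_le_pow_left₀ (by norm_num) (by linarith) _
  nlinarith

theorem P3 (ρ α g : ℝ) (h0 : 0 < ρ) (h1 : ρ ≤ 1) (hg : 0 ≤ g)
    (h : ∀ n, (#(Bm A n) : ℝ) ≤ α + g * ρ * n) : Ph A (1 - ρ) ≤ α + g := by
  classical
  have r0 : 0 ≤ 1 - ρ := by linarith
  have key : ∀ M, ph A M (1 - ρ) - #(Bm A M) * (1 - ρ) ^ (M + 1) ≤
      α + g * (1 - ρ - (1 - ρ) ^ (M + 1)) - (α + g * ρ * M) * (1 - ρ) ^ (M + 1) := fun M => by
    induction M with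
    | zero =>
      have := h 0
      have e : ph A 0 (1 - ρ) = #(Bm A 0) := by
        rw [ph, card_eq_sum_ones, Nat.cast_sum]
        refine sum_congr rfl fun a ha => ?_
        have := mem_range.1 (mem_filter.1 ha).1
        simp [show a = 0 by omega]
      rw [e]; simp at this ⊢; nlinarith
    | succ M ih =>
      have e : ph A (M + 1) (1 - ρ) - ph A M (1 - ρ) =
          ((#(Bm A (M + 1)) : ℝ) - #(Bm A M)) * (1 - ρ) ^ (M + 1) := by
        simp only [ph, Bm, card_eq_sum_ones, Nat.cast_sum, sum_filter, sum_range_succ _ (M + 1)]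
        split_ifs <;> simp
      have := mul_le_mul_of_nonneg_right (h (M + 1)) (by positivity : 0 ≤ ρ * (1 - ρ) ^ (M + 1))
      rw [pow_succ _ (M + 1)]
      push_cast at this ⊢
      nlinarith
  refine ciSup_le fun M => ?_
  have := mul_le_mul_of_nonneg_right (h M) (by positivity : 0 ≤ (1 - ρ) ^ (M + 1))
  nlinarith [key M, mul_nonneg hg (pow_nonneg r0 (M + 1)), mul_nonneg hg h0.le]

end Pool.Agent.H24.Dombi
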