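import Pool.Agent.H24.Dombi3

open Finset Real Filter Topology

namespace Pool.Agent.H24.Dombi

theorem cnt (A : Set ℕ) (n : ℕ) : #(Bm A n) ≤ (A ∩ Set.Icc 1 n).ncard + 1 := by
  classical
  rw [← Set.ncard_coe_finset]
  refine le_trans (Set.ncard_le_ncard (fun a ha => ?_) ?_) (Set.ncard_insert_le 0 _)
  · simp only [Bm, coe_filter, mem_range, Set.mem_ofPred_eq] at ha
    rcases Nat.eq_zero_or_pos a with rfl | h
    exacts [.inl rfl, .inr ⟨ha.2, h, by omega⟩]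
  · exact ((Set.finite_Icc _ _).inter_of_right _).insert _

theorem up (A : Set ℕ) (γ β : ℝ) (h0 : 0 ≤ β) (h1 : β ≤ 1) (h2 : γ ≤ β)
    (h : Asymptotics.IsBigO atTop (fun n : ℕ => ((A ∩ Set.Icc 1 n).ncard : ℝ)) fun n : ℕ => (n : ℝ) ^ γ) :
    ∃ C : ℝ, 0 < C ∧ ∀ ρ : ℝ, 0 < ρ → ρ ≤ 1 → Ph A (1 - ρ) ≤ C * ρ ^ (-β) := by
  obtain ⟨C, C0, hC⟩ := h.exists_pos
  obtain ⟨N, hN⟩ := eventually_atTop.1 hC.bound
  refine ⟨2 * C + (N + 2), by positivity, fun ρ r0 r1 => ?_⟩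
  have p1 : 1 ≤ ρ ^ (-β) := one_le_rpow_of_pos_of_le_one_of_nonpos r0 r1 (by linarith)
  refine (P3 A ρ (C * ρ ^ (-β) + (N + 2)) (C * ρ ^ (-β)) r0 r1 (by positivity) fun n => ?_).trans
    (by nlinarith [(Nat.cast_nonneg N : (0 : ℝ) ≤ N)])
  have p2 : 0 ≤ C * ρ ^ (-β) * ρ * n := by positivity
  rcases le_or_gt n N with hn | hn
  · have : #(Bm A n) ≤ N + 1 := by
      classical exact (card_filter_le _ _).trans (by rw [card_range]; omega)
    have : (#(Bm A n) : ℝ) ≤ N + 1 := by exact_mod_cast this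
    nlinarith
  have h3 := hN n hn.le
  have n1 : (1 : ℝ) ≤ n := by exact_mod_cast (by omega : 1 ≤ n)
  rw [Real.norm_natCast, Real.norm_of_nonneg (by positivity)] at h3
  have h4 : (#(Bm A n) : ℝ) ≤ (A ∩ Set.Icc 1 n).ncard + 1 := by exact_mod_cast cnt A n
  have h5 : (ρ * n) ^ β ≤ 1 + ρ * n := by
    rcases le_total (ρ * n) 1 with c | c
    · exact (rpow_le_one (by positivity) c h0).trans (by nlinarith)
    · exact (rpow_le_rpow_of_exponent_le c h1).trans (by rw [rpow_one]; linarith)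
  have h6 : (n : ℝ) ^ γ ≤ ρ ^ (-β) * (1 + ρ * n) := by
    refine (rpow_le_rpow_of_exponent_le n1 h2).trans (le_trans (le_of_eq ?_)
      (mul_le_mul_of_nonneg_left h5 (by positivity)))
    rw [mul_rpow r0.le (by positivity), ← mul_assoc, ← rpow_add r0, neg_add_cancel, rpow_zero, one_mul]
  nlinarith [mul_le_mul_of_nonneg_left h6 C0.le, (Nat.cast_nonneg N : (0 : ℝ) ≤ N)]

theorem main (R : ℕ → ℕ → Prop) (hR : Good R) (hlt : ∀ x y, x < y → R x y) (k : ℕ) (hk : 2 ≤ k)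
    (ε : ℝ) (hε : 0 < ε) (A : Set ℕ) (hA : A.Infinite) (n0 : ℕ)
    (h : ∀ n, n0 ≤ n → rep R k A n ≤ rep R k A (n + 1)) :
    ¬ Asymptotics.IsBigO atTop (fun n : ℕ => ((A ∩ Set.Icc 1 n).ncard : ℝ))
      fun n : ℕ => (n : ℝ) ^ ((2 : ℝ) / (k : ℝ) - ε) := fun H => by
  have k2 : (2 : ℝ) ≤ k := by exact_mod_cast hk
  have k0 : (0 : ℝ) < k := by linarith
  set δ := min ε (2 / k) with hδ
  have d0 : 0 < δ := lt_min hε (by positivity)
  obtain ⟨C, C0, hC⟩ := up A _ (2 / k - δ) (sub_nonneg.2 (min_le_right _ _))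
    (by linarith [(div_le_one k0).2 k2]) (sub_le_sub_left (min_le_left _ _) _) H
  obtain ⟨E, K, E0, K0, h1⟩ := P1 R k A hR hk n0 h
  obtain ⟨c, c0, h2⟩ := P2 R k A hlt hk hA n0 h
  set D : ℝ := 2 * k.factorial * (E / c + 1) with hD
  have D1 : 1 ≤ D := by
    have f1 : (1 : ℝ) ≤ k.factorial := by exact_mod_cast k.factorial_pos
    have : 0 ≤ E / c := by positivity
    nlinarith
  have pos : ∀ ρ : ℝ, 0 < ρ → ρ ≤ 1 / 2 → 0 < Ph A (1 - ρ) := fun ρ r0 r1 => by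
    refine ((ph_nn A 0 (by linarith)).trans (le_Ph A 0 r0 (by linarith))).lt_of_ne fun e => ?_
    have := h2 ρ r0 r1
    rw [← e, zero_pow (by omega)] at this
    linarith
  have e1 : ∀ᶠ ρ in 𝓝[>] (0 : ℝ), -(32 * D ^ 2 * C) * (log ρ * ρ ^ δ) ≤ 1 / 8 := by
    have := (tendsto_log_mul_rpow_nhdsGT_zero d0).const_mul (-(32 * D ^ 2 * C))
    exact this.eventually_le_const (by norm_num)
  have e2 : ∀ᶠ ρ in 𝓝[>] (0 : ℝ), ρ ≤ min (1 / 4) (c / (8 * K + 1) ^ k) :=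
    nhdsWithin_le_nhds (Iic_mem_nhds (by positivity))
  obtain ⟨u, u0, hu⟩ := mem_nhdsGT_iff_exists_Ioc_subset.1 (e1.and e2)
  have u0 : 0 < u := u0
  have key : ∀ ρ ∈ Set.Ioc 0 u, 4 * Ph A (1 - 2 * ρ) ≤ Ph A (1 - ρ) := fun ρ hρ => by
    obtain ⟨h3, h4⟩ := hu hρ
    rw [le_min_iff] at h4
    have r0 := hρ.1
    have r1 : ρ ≤ 1 / 2 := by linarith [h4.1]
    have h5 := pos ρ r0 r1
    have h6 := h2 ρ r0 r1
    have h7 := hC ρ r0 (by linarith)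
    set Φ := Ph A (1 - ρ)
    have h8 := h1 ρ (D * ρ ^ (1 / k : ℝ) * Φ) r0 r1 (by positivity) (by
      rw [mul_pow, mul_pow, one_div, rpow_inv_natCast_pow r0.le (by omega)]
      have : E ≤ E / c * (ρ * Φ ^ k) := by
        rw [div_mul_eq_mul_div, le_div_iff₀ c0]; gcongr
      calc _ ≤ 2 * k.factorial * (E / c * (ρ * Φ ^ k) + ρ * Φ ^ k) := by gcongr
        _ = D * ρ * Φ ^ k := by rw [hD]; ring
        _ ≤ _ := by gcongr; exact le_self_pow₀ D1 (by omega))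
    have h9 : 8 * K + 1 ≤ Φ := by
      refine le_of_pow_le_pow_left₀ (by omega : k ≠ 0) h5.le (le_of_mul_le_mul_left ?_ r0)
      exact ((le_div_iff₀ (by positivity)).1 h4.2).trans h6
    have l1 : log ((ρ + π) / ρ) ≤ -2 * log ρ := by
      rw [show -2 * log ρ = log (ρ ^ 2)⁻¹ by rw [log_inv, log_pow]; push_cast; ring]
      refine log_le_log (by positivity) ?_
      rw [div_le_iff₀ r0, sq, mul_inv, mul_assoc, inv_mul_cancel₀ r0.ne', mul_one, ← one_div,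
        le_div_iff₀ r0]
      nlinarith [pi_lt_d2, h4.1]
    have l0 : 0 ≤ -2 * log ρ := by nlinarith [log_nonpos r0.le (by linarith : ρ ≤ 1)]
    have e : (ρ ^ (1 / k : ℝ)) ^ 2 * ρ ^ (-(2 / k - δ)) = ρ ^ δ := by
      rw [sq, ← rpow_add r0, ← rpow_add r0]; congr 1; ring
    have : 16 * (D * ρ ^ (1 / k : ℝ) * Φ) ^ 2 * log ((ρ + π) / ρ) ≤ Φ * (1 / 8) :=
      calc _ ≤ 16 * (D * ρ ^ (1 / k : ℝ) * Φ) ^ 2 * (-2 * log ρ) := by gcongr
        _ = Φ * (16 * D ^ 2 * (ρ ^ (1 / k : ℝ)) ^ 2 * (-2 * log ρ) * Φ) := by ring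
        _ ≤ Φ * (16 * D ^ 2 * (ρ ^ (1 / k : ℝ)) ^ 2 * (-2 * log ρ) * (C * ρ ^ (-(2 / k - δ)))) := by
          gcongr
        _ = Φ * (-(32 * D ^ 2 * C) * (log ρ * ρ ^ δ)) := by rw [← e]; ring
        _ ≤ _ := by gcongr
    linarith
  have u1 : u ≤ 1 / 4 := (le_min_iff.1 (hu ⟨u0, le_rfl⟩).2).1
  have hm : ∀ m : ℕ, u / 2 ^ m ∈ Set.Ioc 0 u := fun m =>
    ⟨by positivity, div_le_self u0.le (one_le_pow₀ (by norm_num))⟩
  have it : ∀ m : ℕ, 4 ^ m * Ph A (1 - u) ≤ Ph A (1 - u / 2 ^ m) := fun m => by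
    induction m with
    | zero => simp
    | succ m ih =>
      have := key _ (hm (m + 1))
      rw [show 2 * (u / 2 ^ (m + 1)) = u / 2 ^ m by field_simp; ring] at this
      rw [pow_succ]; linarith
  have p := pos u u0 (by linarith)
  obtain ⟨m, h3⟩ := pow_unbounded_of_one_lt (1 / (u * Ph A (1 - u))) (one_lt_two (α := ℝ))
  have h4 := (it m).trans (ciSup_le fun M => ph_le A M (hm m).1 ((hm m).2.trans (by linarith)))
  rw [one_div_div, le_div_iff₀ u0, show (4 : ℝ) ^ m = 2 ^ m * 2 ^ m by rw [← mul_pow]; norm_num] at h4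
  rw [div_lt_iff₀ (by positivity)] at h3
  nlinarith [pow_pos (two_pos (α := ℝ)) m]

theorem ncard_eq (R : ℕ → ℕ → Prop) (k : ℕ) (A : Set ℕ) (P : (Fin k → ℕ) → Prop)
    (h : ∀ a, P a ↔ ∀ i j, i < j → R (a i) (a j)) (n : ℕ) :
    Set.ncard {a : Fin k → ℕ | (∀ j, a j ∈ A) ∧ (∑ j, a j) = n ∧ P a} = rep R k A n := by
  rw [rep, ← Set.ncard_coe_finset]
  congr 1
  ext a
  rw [mem_coe, mem_rep R k A le_rfl, Set.mem_ofPred_eq, h]

end Pool.Agent.H24.Dombi
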