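import Mathlib

namespace Pool.Agent.H24.Duc1

open Finset

/-- Gram entries of the vectors e_p + e_(p+1). -/
def g (p q : ℕ) : ℕ := if p = q then 2 else if p = q + 1 ∨ q = p + 1 then 1 else 0

/-- Product of Gram entries along a sequence. -/
def P {α : Type} (s : α → ℕ) : α → List α → ℕ
  | _, [] => 1
  | x, a :: l => g (s x) (s a) * P s a l

/-- Zipper weight. -/
def w {α : Type} [DecidableEq α] : List α → List α → α → List α → ℕ
  | [], _, _, _ => 1
  | a :: l, L, x, R =>
    (if a = x then 2 * w l L x R else 0) +
    (match R with
      | [] => if a ∈ x :: L then 0 else w l (x :: L) a []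
      | y :: R' => if a = y then w l (x :: L) y R' else 0) +
    (match L with
      | [] => if a ∈ x :: R then 0 else w l [] a (x :: R)
      | y :: L' => if a = y then w l L' y (x :: R) else 0)

def N (n : ℕ) : ℕ → ℕ → ℕ → ℕ
  | 0, _, _ => 1
  | r + 1, a, b =>
    2 * N n r a b +
    (match b with
      | 0 => (n - (a + 1)) * N n r (a + 1) 0
      | b' + 1 => N n r (a + 1) b') +
    (match a with
      | 0 => (n - (b + 1)) * N n r 0 (b + 1)
      | a' + 1 => N n r a' (b + 1))

lemma w_cons {α : Type} [DecidableEq α] (a : α) (l L : List α) (x : α) (R : List α) :
    w (a :: l) L x R = (if a = x then 2 * w l L x R else 0) +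
    (match R with
      | [] => if a ∈ x :: L then 0 else w l (x :: L) a []
      | y :: R' => if a = y then w l (x :: L) y R' else 0) +
    (match L with
      | [] => if a ∈ x :: R then 0 else w l [] a (x :: R)
      | y :: L' => if a = y then w l L' y (x :: R) else 0) := rfl

lemma N_succ (n r a b : ℕ) : N n (r + 1) a b = 2 * N n r a b +
    (match b with
      | 0 => (n - (a + 1)) * N n r (a + 1) 0
      | b' + 1 => N n r (a + 1) b') +
    (match a with
      | 0 => (n - (b + 1)) * N n r 0 (b + 1)
      | a' + 1 => N n r a' (b + 1)) := rfl

def dn {α : Type} (s : α → ℕ) : ℕ → List α → Prop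
  | _, [] => True
  | p, y :: L => s y + 1 = p ∧ dn s (s y) L

def up {α : Type} (s : α → ℕ) : ℕ → List α → Prop
  | _, [] => True
  | p, y :: R => s y = p + 1 ∧ up s (s y) R

lemma dn_lt {α : Type} (s : α → ℕ) : ∀ (L : List α) (p : ℕ), dn s p L → ∀ y ∈ L, s y < p
  | [], _, _ => by simp
  | z :: L, p, h => by
    intro y hy
    rcases List.mem_cons.1 hy with rfl | hy
    · have := h.1; omega
    · have h1 := dn_lt s L (s z) h.2 y hy
      have := h.1; omega

lemma up_lt {α : Type} (s : α → ℕ) : ∀ (R : List α) (p : ℕ), up s p R → ∀ y ∈ R, p < s y
  | [], _, _ => by simp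
  | z :: R, p, h => by
    intro y hy
    rcases List.mem_cons.1 hy with rfl | hy
    · have := h.1; omega
    · have h1 := up_lt s R (s z) h.2 y hy
      have := h.1; omega

lemma P_le_w {α : Type} [DecidableEq α] (s : α → ℕ) (hs : Function.Injective s) :
    ∀ (l L : List α) (x : α) (R : List α), dn s (s x) L → up s (s x) R → P s x l ≤ w l L x R
  | [], _, _, _, _, _ => by simp [P, w]
  | a :: l, L, x, R, hL, hR => by
    rw [P, w_cons]
    by_cases h1 : a = x
    · subst h1
      have := P_le_w s hs l L a R hL hR
      have hg : g (s a) (s a) = 2 := by simp [g]
      rw [hg, if_pos rfl]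
      omega
    · have hne : s x ≠ s a := fun h => h1 (hs h).symm
      rw [if_neg h1]
      by_cases h2 : s a = s x + 1
      · have hg : g (s x) (s a) = 1 := by simp [g, h2]
        rw [hg, one_mul]
        have hd : dn s (s a) (x :: L) := ⟨h2.symm, hL⟩
        cases R with
        | nil =>
          have hm : a ∉ x :: L := by
            intro hm
            rcases List.mem_cons.1 hm with h | h
            · exact h1 h
            · have := dn_lt s L _ hL a h; omega
          have := P_le_w s hs l (x :: L) a [] hd trivial
          simp only [if_neg hm]
          omega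
        | cons y R' =>
          have hy : a = y := hs (by rw [h2, hR.1])
          subst hy
          have := P_le_w s hs l (x :: L) a R' hd hR.2
          simp only [if_true]
          omega
      · by_cases h3 : s x = s a + 1
        · have hg : g (s x) (s a) = 1 := by simp [g, h3]
          rw [hg, one_mul]
          have hu : up s (s a) (x :: R) := ⟨h3, hR⟩
          cases L with
          | nil =>
            have hm : a ∉ x :: R := by
              intro hm
              rcases List.mem_cons.1 hm with h | h
              · exact h1 h
              · have := up_lt s R _ hR a h; omega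
            have := P_le_w s hs l [] a (x :: R) trivial hu
            simp only [if_neg hm]
            omega
          | cons y L' =>
            have hy : a = y := hs (by have := hL.1; omega)
            subst hy
            have := P_le_w s hs l L' a (x :: R) hL.2 hu
            simp only [if_true]
            omega
        · have hg : g (s x) (s a) = 0 := by simp [g, hne, h2, h3]
          rw [hg]; simp

lemma sum_succ {α : Type} [Fintype α] {M : Type} [AddCommMonoid M] (r : ℕ) (F : List α → M) :
    ∑ j : Fin (r + 1) → α, F (List.ofFn j) = ∑ a : α, ∑ j : Fin r → α, F (a :: List.ofFn j) := by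
  rw [← (Fin.consEquiv (fun _ : Fin (r + 1) => α)).sum_comp, Fintype.sum_prod_type]
  simp [Fin.consEquiv, List.ofFn_succ]

lemma sum_new {n : ℕ} (T : List (Fin n)) (hT : T.Nodup) (f : Fin n → ℕ) (c : ℕ)
    (hf : ∀ a, a ∉ T → f a = c) :
    ∑ a : Fin n, (if a ∈ T then 0 else f a) = (n - T.length) * c := by
  have : ∑ a : Fin n, (if a ∈ T then 0 else f a) = ∑ a ∈ T.toFinsetᶜ, c := by
    rw [← Finset.sum_filter_add_sum_filter_not univ (fun a => a ∈ T)]
    rw [Finset.sum_eq_zero (fun a ha => by simp [(Finset.mem_filter.1 ha).2]), zero_add]
    apply Finset.sum_congr
    · ext a; simp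
    · intro a ha
      have : a ∉ T := by simpa using ha
      simp [this, hf a this]
  rw [this, Finset.sum_const, Finset.card_compl, List.toFinset_card_of_nodup hT]
  simp

lemma sum_w {n : ℕ} : ∀ (r : ℕ) (L : List (Fin n)) (x : Fin n) (R : List (Fin n)),
    (x :: (L ++ R)).Nodup →
    ∑ j : Fin r → Fin n, w (List.ofFn j) L x R = N n r L.length R.length
  | 0, L, x, R, _ => by simp [w, N]
  | r + 1, L, x, R, h => by
    rw [sum_succ r (fun l => w l L x R), N_succ]
    simp only [w_cons, Finset.sum_add_distrib]
    congr 1
    congr 1
    · rw [Finset.sum_eq_single x]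
      · simp only [if_true]
        rw [← Finset.mul_sum, sum_w r L x R h]
      · intro b _ hb; simp [hb]
      · simp
    · cases R with
      | nil =>
        simp only [List.length_nil]
        have h' : (x :: L).Nodup := by simpa using h
        have := sum_new (x :: L) h' (fun a => ∑ j : Fin r → Fin n, w (List.ofFn j) (x :: L) a [])
          (N n r (L.length + 1) 0) (fun a ha => by
            have := sum_w r (x :: L) a [] (by
              rw [List.append_nil]; exact List.nodup_cons.2 ⟨ha, h'⟩)
            simpa using this)
        rw [List.length_cons] at this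
        rw [← this]
        apply Finset.sum_congr rfl
        intro a _
        by_cases ha : a ∈ x :: L
        · simp only [if_pos ha]; simp
        · simp only [if_neg ha]
      | cons y R' =>
        simp only [List.length_cons]
        rw [Finset.sum_eq_single y]
        · simp only [if_true]
          have hp : (y :: (x :: L ++ R')).Nodup := by
            have h1 : List.Perm (x :: (L ++ y :: R')) (y :: (x :: L ++ R')) :=
              (List.Perm.cons x List.perm_middle).trans (List.Perm.swap y x _)
            exact h1.nodup_iff.1 h
          simpa using sum_w r (x :: L) y R' hp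
        · intro b _ hb; simp [hb]
        · simp
    · cases L with
      | nil =>
        simp only [List.length_nil]
        have h' : (x :: R).Nodup := by simpa using h
        have := sum_new (x :: R) h' (fun a => ∑ j : Fin r → Fin n, w (List.ofFn j) [] a (x :: R))
          (N n r 0 (R.length + 1)) (fun a ha => by
            have := sum_w r [] a (x :: R) (by
              rw [List.nil_append]; exact List.nodup_cons.2 ⟨ha, h'⟩)
            simpa using this)
        rw [List.length_cons] at this
        rw [← this]
        apply Finset.sum_congr rfl
        intro a _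
        by_cases ha : a ∈ x :: R
        · simp only [if_pos ha]; simp
        · simp only [if_neg ha]
      | cons y L' =>
        simp only [List.length_cons]
        rw [Finset.sum_eq_single y]
        · simp only [if_true]
          have hp : (y :: (L' ++ x :: R)).Nodup := by
            have h1 : List.Perm (y :: (L' ++ x :: R)) (x :: (y :: L' ++ R)) :=
              (List.Perm.cons y List.perm_middle).trans (List.Perm.swap x y _)
            exact h1.nodup_iff.2 h
          simpa using sum_w r L' y (x :: R) hp
        · intro b _ hb; simp [hb]
        · simp

lemma N_val : 9 * N 9 8 0 0 < 9 ^ 9 := by decide +kernel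

end Pool.Agent.H24.Duc1
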