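import Mathlib
import Pool.Agent.H24.Duc1

namespace Pool.Agent.H24.Duc2

open Finset Matrix Pool.Agent.H24.Duc1
open scoped Matrix.Norms.L2Operator ComplexOrder

abbrev B := Equiv.Perm (Fin 9)
abbrev I := B × Fin 10

def u (p : Fin 9) (q : Fin 10) : ℕ := if (q : ℕ) = p ∨ (q : ℕ) = p + 1 then 1 else 0

lemma u_gram : ∀ p p' : Fin 9, ∑ q : Fin 10, u p q * u p' q = g p p' := by decide +kernel

variable {d : ℕ} (e : Fin d ≃ I)

noncomputable def V (i : Fin 9) : Matrix (Fin d) B ℂ :=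
  Matrix.of fun r σ => if (e r).1 = σ then (u (σ i) (e r).2 : ℂ) else 0

noncomputable def A (i : Fin 9) : Matrix (Fin d) (Fin d) ℂ := V e i * (V e i)ᴴ

lemma A_psd (i : Fin 9) : (A e i).PosSemidef := Matrix.posSemidef_self_mul_conjTranspose _

lemma VV (i j : Fin 9) :
    (V e i)ᴴ * V e j = Matrix.diagonal (fun σ : B => ((g (σ i) (σ j) : ℕ) : ℂ)) := by
  ext σ τ
  rw [Matrix.mul_apply]
  have : ∀ r : Fin d, (V e i)ᴴ σ r * V e j r τ =
      (fun z : I => if z.1 = σ then (if σ = τ then ((u (σ i) z.2 * u (σ j) z.2 : ℕ) : ℂ) else 0)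
        else 0) (e r) := by
    intro r
    simp only [V, Matrix.conjTranspose_apply, Matrix.of_apply]
    by_cases h1 : (e r).1 = σ
    · by_cases h2 : σ = τ
      · subst h2; simp [h1]
      · have : (e r).1 ≠ τ := fun h => h2 (h1.symm.trans h)
        simp [h1, h2]
    · simp [h1]
  rw [Finset.sum_congr rfl (fun r _ => this r)]
  refine (Equiv.sum_comp e (fun z : I => if z.1 = σ then
    (if σ = τ then ((u (σ i) z.2 * u (σ j) z.2 : ℕ) : ℂ) else 0) else 0)).trans ?_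
  rw [Fintype.sum_prod_type]
  rw [Finset.sum_eq_single σ]
  · by_cases h2 : σ = τ
    · subst h2
      simp only [if_true, Matrix.diagonal_apply_eq]
      rw [← u_gram, Nat.cast_sum]
    · simp [h2]
  · intro b _ hb; simp [hb]
  · simp

lemma V_sq (i : Fin 9) : ‖V e i‖ * ‖V e i‖ = 2 := by
  rw [← Matrix.l2_opNorm_conjTranspose_mul_self, VV, Matrix.l2_opNorm_diagonal]
  have : (fun σ : B => ((g (σ i) (σ i) : ℕ) : ℂ)) = fun _ => 2 := by
    funext σ; simp [g]
  rw [this, pi_norm_const]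
  simp

lemma V_mul (i j : Fin 9) : ‖V e i‖ * ‖V e j‖ = 2 := by
  have h1 := V_sq e i
  have h2 := V_sq e j
  have h3 : ‖V e i‖ = ‖V e j‖ := by
    have := norm_nonneg (V e i)
    have := norm_nonneg (V e j)
    nlinarith
  rw [h3]; exact h2

def lst {α : Type} : α → List α → α
  | x, [] => x
  | _, a :: l => lst a l

def pos (σ : B) (i : Fin 9) : ℕ := σ i

lemma pos_inj (σ : B) : Function.Injective (pos σ) := fun _ _ h => σ.injective (Fin.ext h)

lemma prod_eq : ∀ (l : List (Fin 9)) (x : Fin 9),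
    ((x :: l).map (A e)).prod =
      V e x * Matrix.diagonal (fun σ : B => ((P (pos σ) x l : ℕ) : ℂ)) * (V e (lst x l))ᴴ
  | [], x => by
    simp [P, lst, A]
  | a :: l, x => by
    rw [List.map_cons, List.prod_cons, prod_eq l a, A, lst]
    have : Matrix.diagonal (fun σ : B => ((P (pos σ) x (a :: l) : ℕ) : ℂ)) =
        (V e x)ᴴ * V e a * Matrix.diagonal (fun σ : B => ((P (pos σ) a l : ℕ) : ℂ)) := by
      rw [VV, Matrix.diagonal_mul_diagonal]
      congr 1
      funext σ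
      simp [P, pos]
    rw [this]
    simp only [Matrix.mul_assoc]

lemma upper (l : List (Fin 9)) (x : Fin 9) :
    ‖((x :: l).map (A e)).prod‖ ≤ 2 * (w l [] x [] : ℝ) := by
  rw [prod_eq]
  have hD : ‖Matrix.diagonal (fun σ : B => ((P (pos σ) x l : ℕ) : ℂ))‖ ≤ (w l [] x [] : ℝ) := by
    rw [Matrix.l2_opNorm_diagonal]
    apply (pi_norm_le_iff_of_nonneg (by positivity)).2
    intro σ
    rw [Complex.norm_natCast]
    exact_mod_cast P_le_w (pos σ) (pos_inj σ) l [] x [] trivial trivial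
  calc _ ≤ ‖V e x * Matrix.diagonal (fun σ : B => ((P (pos σ) x l : ℕ) : ℂ))‖ *
        ‖(V e (lst x l))ᴴ‖ := Matrix.l2_opNorm_mul _ _
    _ ≤ (‖V e x‖ * (w l [] x [] : ℝ)) * ‖V e (lst x l)‖ := by
        rw [Matrix.l2_opNorm_conjTranspose]
        apply mul_le_mul_of_nonneg_right _ (norm_nonneg _)
        exact (Matrix.l2_opNorm_mul _ _).trans (mul_le_mul_of_nonneg_left hD (norm_nonneg _))
    _ = (‖V e x‖ * ‖V e (lst x l)‖) * (w l [] x [] : ℝ) := by ring
    _ = _ := by rw [V_mul]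

lemma lower (l : List (Fin 9)) (x : Fin 9) (σ : B) :
    2 * (P (pos σ) x l : ℝ) ≤ ‖((x :: l).map (A e)).prod‖ := by
  have h1 : (V e x)ᴴ * ((x :: l).map (A e)).prod * V e (lst x l) =
      Matrix.diagonal (fun τ : B => ((4 * P (pos τ) x l : ℕ) : ℂ)) := by
    rw [prod_eq]
    have : (V e x)ᴴ * (V e x * Matrix.diagonal (fun σ : B => ((P (pos σ) x l : ℕ) : ℂ)) *
        (V e (lst x l))ᴴ) * V e (lst x l) = ((V e x)ᴴ * V e x) *
        Matrix.diagonal (fun σ : B => ((P (pos σ) x l : ℕ) : ℂ)) *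
        ((V e (lst x l))ᴴ * V e (lst x l)) := by simp only [Matrix.mul_assoc]
    rw [this, VV, VV, Matrix.diagonal_mul_diagonal, Matrix.diagonal_mul_diagonal]
    congr 1
    funext τ
    simp [g]
    ring
  have h2 : (4 * P (pos σ) x l : ℝ) ≤
      ‖Matrix.diagonal (fun τ : B => ((4 * P (pos τ) x l : ℕ) : ℂ))‖ := by
    rw [Matrix.l2_opNorm_diagonal]
    have := norm_le_pi_norm (fun τ : B => ((4 * P (pos τ) x l : ℕ) : ℂ)) σ
    rw [Complex.norm_natCast] at this
    exact_mod_cast this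
  rw [← h1] at h2
  have h3 : ‖(V e x)ᴴ * ((x :: l).map (A e)).prod * V e (lst x l)‖ ≤
      ‖V e x‖ * ‖((x :: l).map (A e)).prod‖ * ‖V e (lst x l)‖ := by
    refine (Matrix.l2_opNorm_mul _ _).trans (mul_le_mul_of_nonneg_right ?_ (norm_nonneg _))
    rw [← Matrix.l2_opNorm_conjTranspose (V e x)]
    exact Matrix.l2_opNorm_mul _ _
  have h4 : ‖V e x‖ * ‖((x :: l).map (A e)).prod‖ * ‖V e (lst x l)‖ =
      2 * ‖((x :: l).map (A e)).prod‖ := by
    rw [← V_mul e x (lst x l)]; ring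
  linarith

lemma P_one (σ : B) (j : Fin 9 → Fin 9) (h : ∀ k, σ (j k) = k) :
    P (pos σ) (j 0) (List.ofFn fun k : Fin 8 => j k.succ) = 1 := by
  simp [List.ofFn_succ, P, pos, h, g]

lemma lower_inj (j : Fin 9 → Fin 9) (hj : Function.Injective j) :
    2 ≤ ‖((List.ofFn j).map (A e)).prod‖ := by
  have hb : Function.Bijective j := Finite.injective_iff_bijective.1 hj
  have := lower e (List.ofFn fun k : Fin 8 => j k.succ) (j 0) (Equiv.ofBijective j hb).symm
  rw [P_one _ j (fun k => (Equiv.ofBijective j hb).symm_apply_apply k)] at this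
  rw [List.ofFn_succ]
  simpa using this

lemma sum_upper : ∑ j : Fin 9 → Fin 9, ‖((List.ofFn j).map (A e)).prod‖ < 2 * 9 ^ 9 := by
  rw [sum_succ 8 (fun l => ‖(l.map (A e)).prod‖)]
  have h1 : ∀ a : Fin 9, ∑ j : Fin 8 → Fin 9, ‖((a :: List.ofFn j).map (A e)).prod‖ ≤
      2 * (N 9 8 0 0 : ℝ) := by
    intro a
    have := sum_w 8 [] a [] (by simp)
    simp only [List.length_nil] at this
    rw [← this, Nat.cast_sum, Finset.mul_sum]
    exact Finset.sum_le_sum fun j _ => upper e _ a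
  have h2 : ((9 * N 9 8 0 0 : ℕ) : ℝ) < ((9 ^ 9 : ℕ) : ℝ) := by exact_mod_cast N_val
  calc _ ≤ ∑ _a : Fin 9, 2 * (N 9 8 0 0 : ℝ) := Finset.sum_le_sum fun a _ => h1 a
    _ = 2 * ((9 * N 9 8 0 0 : ℕ) : ℝ) := by simp; ring
    _ < _ := by push_cast at h2 ⊢; linarith

lemma card_inj : (univ.filter (fun j : Fin 9 → Fin 9 => Function.Injective j)).card =
    Nat.factorial 9 := by
  rw [← Fintype.card_subtype, Fintype.card_congr (Equiv.subtypeInjectiveEquivEmbedding _ _),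
    Fintype.card_embedding_eq, Fintype.card_fin, Nat.descFactorial_self]

lemma sum_lower : 2 * (Nat.factorial 9 : ℝ) ≤
    ∑ j ∈ univ.filter (fun j : Fin 9 → Fin 9 => Function.Injective j),
      ‖((List.ofFn j).map (A e)).prod‖ := by
  calc _ = ∑ _j ∈ univ.filter (fun j : Fin 9 → Fin 9 => Function.Injective j), (2 : ℝ) := by
        rw [Finset.sum_const, card_inj, nsmul_eq_mul, mul_comm]
    _ ≤ _ := Finset.sum_le_sum fun j hj => lower_inj e j (Finset.mem_filter.1 hj).2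

lemma norm_eq (M : Matrix (Fin d) (Fin d) ℂ) :
    ‖Matrix.toEuclideanCLM (n := Fin d) (𝕜 := ℂ) M‖ = ‖M‖ := rfl

theorem main : (1 / (9 : ℝ) ^ 9) * ∑ j : Fin 9 → Fin 9,
      ‖Matrix.toEuclideanCLM (n := Fin d) (𝕜 := ℂ) (List.ofFn fun k => A e (j k)).prod‖ <
    ((Nat.factorial (9 - 9) : ℝ) / (Nat.factorial 9 : ℝ)) *
      ∑ j ∈ univ.filter (fun j : Fin 9 → Fin 9 => Function.Injective j),
        ‖Matrix.toEuclideanCLM (n := Fin d) (𝕜 := ℂ) (List.ofFn fun k => A e (j k)).prod‖ := by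
  have hm : ∀ j : Fin 9 → Fin 9, (List.ofFn fun k => A e (j k)) = (List.ofFn j).map (A e) := by
    intro j; rw [List.map_ofFn]; rfl
  simp only [norm_eq, hm]
  have h1 := sum_upper e
  have h2 := sum_lower e
  have h3 : (0 : ℝ) < (Nat.factorial 9 : ℝ) := by exact_mod_cast Nat.factorial_pos 9
  generalize (∑ j : Fin 9 → Fin 9, ‖((List.ofFn j).map (A e)).prod‖) = S at h1 ⊢
  generalize (∑ j ∈ univ.filter (fun j : Fin 9 → Fin 9 => Function.Injective j),
      ‖((List.ofFn j).map (A e)).prod‖) = T at h2 ⊢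
  have h4 : (1 / (9 : ℝ) ^ 9) * S < 2 := by
    rw [one_div, inv_mul_lt_iff₀ (by positivity)]; linarith
  have h5 : 2 ≤ ((Nat.factorial (9 - 9) : ℝ) / (Nat.factorial 9 : ℝ)) * T := by
    rw [Nat.sub_self, Nat.factorial_zero, Nat.cast_one, one_div, le_inv_mul_iff₀ h3]; linarith
  linarith

end Pool.Agent.H24.Duc2
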