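import Mathlib

set_option autoImplicit false

namespace Pool.Agent.H24.FourBar

abbrev E := EuclideanSpace ℝ (Fin 2)

lemma dsq (z w : E) : dist z w ^ 2 = (z 0 - w 0) ^ 2 + (z 1 - w 1) ^ 2 := by
  rw [EuclideanSpace.dist_eq, Real.sq_sqrt (by positivity), Fin.sum_univ_two, Real.dist_eq,
    Real.dist_eq, sq_abs, sq_abs]

lemma dist_of_sq {x y : ℝ} (hx : 0 ≤ x) (hy : 0 ≤ y) (h : x ^ 2 = y ^ 2) : x = y :=
  (pow_left_inj₀ hx hy two_ne_zero).mp h

/-- A rigid motion of the plane. -/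
noncomputable def rig (c s e a b : ℝ) (h : c ^ 2 + s ^ 2 = 1) (he : e ^ 2 = 1) : E ≃ᵢ E where
  toFun z := !₂[c * (z 0 - a) + s * (z 1 - b), e * (-s * (z 0 - a) + c * (z 1 - b))]
  invFun w := !₂[a + c * w 0 - s * e * w 1, b + s * w 0 + c * e * w 1]
  left_inv z := by
    ext i
    fin_cases i
    · simp
      linear_combination (z 0 - a) * h + (s ^ 2 * (z 0 - a) - s * c * (z 1 - b)) * he
    · simp
      linear_combination (z 1 - b) * h + (c ^ 2 * (z 1 - b) - s * c * (z 0 - a)) * he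
  right_inv w := by
    ext i
    fin_cases i
    · simp
      linear_combination (w 0) * h
    · simp
      linear_combination (e ^ 2 * w 1) * h + (w 1) * he
  isometry_toFun := by
    refine Isometry.of_dist_eq fun z w => dist_of_sq dist_nonneg dist_nonneg ?_
    rw [dsq, dsq]
    simp
    linear_combination ((z 0 - w 0) ^ 2 + (z 1 - w 1) ^ 2) * h +
      (-s * (z 0 - w 0) + c * (z 1 - w 1)) ^ 2 * he

lemma rig_apply (c s e a b : ℝ) (h : c ^ 2 + s ^ 2 = 1) (he : e ^ 2 = 1) (z : E) :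
    rig c s e a b h he z =
      !₂[c * (z 0 - a) + s * (z 1 - b), e * (-s * (z 0 - a) + c * (z 1 - b))] := rfl

/-- Normal form of a placement of the four-bar linkage. -/
noncomputable def conf (a b : ℝ) : Fin 4 → E :=
  ![!₂[0, 0], !₂[3, 0], !₂[1 + 2 * b, 2 * √(b * (2 - b))], !₂[2 - 2 * a, 2 * √(a * (2 - a))]]

def G4 : SimpleGraph (Fin 4) where
  Adj i j := (i.val + 1) % 4 = j.val ∨ (j.val + 1) % 4 = i.val
  symm := ⟨by decide⟩
  loopless := ⟨by decide⟩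

instance : DecidableRel G4.Adj := fun i j =>
  inferInstanceAs (Decidable ((i.val + 1) % 4 = j.val ∨ (j.val + 1) % 4 = i.val))

def DM (a b : ℝ) : Fin 4 → Fin 4 → ℝ :=
  ![![0, 9, 1 + 12 * b, 4], ![9, 0, 4, 1 + 12 * a], ![1 + 12 * b, 4, 0, 1], ![4, 1 + 12 * a, 1, 0]]

def Rel (a b : ℝ) : Prop :=
  0 ≤ a ∧ a ≤ 2 ∧ 0 ≤ b ∧ b ≤ 2 ∧ a ^ 2 + b ^ 2 - 14 * a * b + 12 * a * b * (a + b) = 0

lemma conf_dist {a b : ℝ} (h : Rel a b) (i j : Fin 4) :
    dist (conf a b i) (conf a b j) ^ 2 = DM a b i j := by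
  obtain ⟨a0, a2, b0, b2, h⟩ := h
  have hA : √(a * (2 - a)) ^ 2 = a * (2 - a) := Real.sq_sqrt (mul_nonneg a0 (by linarith))
  have hB : √(b * (2 - b)) ^ 2 = b * (2 - b) := Real.sq_sqrt (mul_nonneg b0 (by linarith))
  have hAB : 2 * (√(a * (2 - a)) * √(b * (2 - b))) = a + b + 2 * a * b := by
    apply dist_of_sq (by positivity) (by positivity)
    rw [mul_pow, mul_pow, hA, hB]
    linear_combination -h
  rw [dsq]
  simp only [conf, DM]
  generalize √(a * (2 - a)) = A at *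
  generalize √(b * (2 - b)) = B at *
  fin_cases i <;> fin_cases j <;> simp <;> nlinarith

lemma rel_zero : Rel 0 0 := by simp [Rel]

noncomputable def al (q : Fin 4 → E) : ℝ := (dist (q 1) (q 3) ^ 2 - 1) / 12
noncomputable def be (q : Fin 4 → E) : ℝ := (dist (q 0) (q 2) ^ 2 - 1) / 12

lemma al_conf {a b : ℝ} (h : Rel a b) : al (conf a b) = a := by
  rw [al, conf_dist h]; simp [DM]
lemma be_conf {a b : ℝ} (h : Rel a b) : be (conf a b) = b := by
  rw [be, conf_dist h]; simp [DM]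

lemma edge_conf {a b : ℝ} (h : Rel a b) (i j : Fin 4) (hij : G4.Adj i j) :
    dist (conf a b i) (conf a b j) = dist (conf 0 0 i) (conf 0 0 j) := by
  apply dist_of_sq dist_nonneg dist_nonneg
  rw [conf_dist h, conf_dist rel_zero]
  fin_cases i <;> fin_cases j <;> first | (exfalso; revert hij; decide) | simp [DM]

lemma between {a v : ℝ} (h : v ^ 2 = 4 * (a * (2 - a))) : 0 ≤ a ∧ a ≤ 2 := by
  constructor <;> nlinarith [sq_nonneg v]

lemma normal (q : Fin 4 → E)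
    (h : ∀ i j, G4.Adj i j → dist (q i) (q j) = dist (conf 0 0 i) (conf 0 0 j)) :
    Rel (al q) (be q) ∧ ∃ T : E ≃ᵢ E, ∀ i, T (q i) = conf (al q) (be q) i := by
  have e : ∀ i j, G4.Adj i j → dist (q i) (q j) ^ 2 = DM 0 0 i j := fun i j hij => by
    rw [h i j hij, conf_dist rel_zero]
  have e01 : dist (q 0) (q 1) ^ 2 = 9 := e 0 1 (by decide)
  have e12 : dist (q 1) (q 2) ^ 2 = 4 := e 1 2 (by decide)
  have e23 : dist (q 2) (q 3) ^ 2 = 1 := e 2 3 (by decide)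
  have e03 : dist (q 0) (q 3) ^ 2 = 4 := e 0 3 (by decide)
  have e13 : dist (q 1) (q 3) ^ 2 = 1 + 12 * al q := by rw [al]; ring
  have e02 : dist (q 0) (q 2) ^ 2 = 1 + 12 * be q := by rw [be]; ring
  generalize al q = a at *
  generalize be q = b at *
  rw [dsq] at e01 e12 e23 e03 e13 e02
  obtain ⟨c, hc⟩ : ∃ c, c = (q 1 0 - q 0 0) / 3 := ⟨_, rfl⟩
  obtain ⟨s, hs⟩ : ∃ s, s = (q 1 1 - q 0 1) / 3 := ⟨_, rfl⟩
  have hcs : c ^ 2 + s ^ 2 = 1 := by rw [hc, hs]; linear_combination e01 / 9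
  obtain ⟨v2, hv2⟩ : ∃ v, v = -s * (q 2 0 - q 0 0) + c * (q 2 1 - q 0 1) := ⟨_, rfl⟩
  obtain ⟨v3, hv3⟩ : ∃ v, v = -s * (q 3 0 - q 0 0) + c * (q 3 1 - q 0 1) := ⟨_, rfl⟩
  have u2 : c * (q 2 0 - q 0 0) + s * (q 2 1 - q 0 1) = 1 + 2 * b := by
    rw [hc, hs]; linear_combination (e02 + e01 - e12) / 6
  have u3 : c * (q 3 0 - q 0 0) + s * (q 3 1 - q 0 1) = 2 - 2 * a := by
    rw [hc, hs]; linear_combination (e03 + e01 - e13) / 6
  have w2 : v2 ^ 2 = 4 * (b * (2 - b)) := by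
    rw [hv2]
    linear_combination ((q 2 0 - q 0 0) ^ 2 + (q 2 1 - q 0 1) ^ 2) * hcs + e02 -
      (c * (q 2 0 - q 0 0) + s * (q 2 1 - q 0 1) + (1 + 2 * b)) * u2
  have w3 : v3 ^ 2 = 4 * (a * (2 - a)) := by
    rw [hv3]
    linear_combination ((q 3 0 - q 0 0) ^ 2 + (q 3 1 - q 0 1) ^ 2) * hcs + e03 -
      (c * (q 3 0 - q 0 0) + s * (q 3 1 - q 0 1) + (2 - 2 * a)) * u3
  have w23 : v2 * v3 = 2 * (a + b + 2 * a * b) := by
    rw [hv2, hv3]
    linear_combination ((q 2 0 - q 0 0) * (q 3 0 - q 0 0) + (q 2 1 - q 0 1) * (q 3 1 - q 0 1)) * hcs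
      + (e02 + e03 - e23) / 2 - (c * (q 3 0 - q 0 0) + s * (q 3 1 - q 0 1)) * u2 - (1 + 2 * b) * u3
  obtain ⟨a0, a2⟩ := between w3
  obtain ⟨b0, b2⟩ := between w2
  refine ⟨⟨a0, a2, b0, b2, ?_⟩, ?_⟩
  · have : (v2 * v3) ^ 2 = v2 ^ 2 * v3 ^ 2 := by ring
    rw [w23, w2, w3] at this
    linear_combination this / 4
  have p23 : 0 ≤ v2 * v3 := by rw [w23]; positivity
  obtain ⟨ε, he, s2, s3⟩ : ∃ ε : ℝ, ε ^ 2 = 1 ∧ 0 ≤ ε * v2 ∧ 0 ≤ ε * v3 := by
    rcases mul_nonneg_iff.mp p23 with h1 | h1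
    · exact ⟨1, by norm_num, by linarith [h1.1], by linarith [h1.2]⟩
    · exact ⟨-1, by norm_num, by linarith [h1.1], by linarith [h1.2]⟩
  have r2 : ε * v2 = 2 * √(b * (2 - b)) := by
    apply dist_of_sq s2 (by positivity)
    rw [mul_pow, mul_pow, Real.sq_sqrt (mul_nonneg b0 (by linarith)), he, w2]; ring
  have r3 : ε * v3 = 2 * √(a * (2 - a)) := by
    apply dist_of_sq s3 (by positivity)
    rw [mul_pow, mul_pow, Real.sq_sqrt (mul_nonneg a0 (by linarith)), he, w3]; ring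
  refine ⟨rig c s ε (q 0 0) (q 0 1) hcs he, fun i => ?_⟩
  rw [rig_apply]
  fin_cases i
  · simp [conf]
  · have x1 : c * (q 1 0 - q 0 0) + s * (q 1 1 - q 0 1) = 3 := by
      rw [hc, hs]; linear_combination e01 / 3
    have x2 : -s * (q 1 0 - q 0 0) + c * (q 1 1 - q 0 1) = 0 := by
      rw [hc, hs]; ring
    show !₂[c * (q 1 0 - q 0 0) + s * (q 1 1 - q 0 1),
      ε * (-s * (q 1 0 - q 0 0) + c * (q 1 1 - q 0 1))] = !₂[3, 0]
    rw [x1, x2, mul_zero]
  · show !₂[c * (q 2 0 - q 0 0) + s * (q 2 1 - q 0 1),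
      ε * (-s * (q 2 0 - q 0 0) + c * (q 2 1 - q 0 1))] = !₂[1 + 2 * b, 2 * √(b * (2 - b))]
    rw [u2, ← hv2, r2]
  · show !₂[c * (q 3 0 - q 0 0) + s * (q 3 1 - q 0 1),
      ε * (-s * (q 3 0 - q 0 0) + c * (q 3 1 - q 0 1))] = !₂[2 - 2 * a, 2 * √(a * (2 - a))]
    rw [u3, ← hv3, r3]

noncomputable def ww (x : ℝ) : ℝ := √(1 - 1 / (4 - 3 * min x (1 / 2)))

lemma den_pos (x : ℝ) : 5 / 2 ≤ 4 - 3 * min x (1 / 2) := by
  have := min_le_right x (1 / 2); linarith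

lemma ww_sq (x : ℝ) : ww x ^ 2 = 1 - 1 / (4 - 3 * min x (1 / 2)) := by
  have := den_pos x
  apply Real.sq_sqrt
  rw [sub_nonneg, div_le_one (by linarith)]; linarith

lemma ww_half (x : ℝ) : 1 / 2 ≤ ww x := by
  have h := den_pos x
  apply Real.le_sqrt_of_sq_le
  have : 1 / (4 - 3 * min x (1 / 2)) ≤ 1 / 2 := one_div_le_one_div_of_le (by norm_num) (by linarith)
  linarith

lemma ww_one (x : ℝ) : ww x ≤ 1 := by
  have h := den_pos x
  apply Real.sqrt_le_iff.mpr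
  have : 0 ≤ 1 / (4 - 3 * min x (1 / 2)) := by apply div_nonneg <;> linarith
  constructor <;> linarith

lemma ww_cont : Continuous ww := by
  unfold ww
  refine Real.continuous_sqrt.comp (continuous_const.sub (continuous_const.div (by fun_prop) ?_))
  intro x
  have := den_pos x
  linarith

lemma ww_rel {x : ℝ} (hx : x ≤ 1 / 2) : ww x ^ 2 * (4 - 3 * x) = 3 * (1 - x) := by
  rw [ww_sq, min_eq_left hx]
  have : 4 - 3 * x ≠ 0 := by linarith
  field_simp
  ring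

noncomputable def pa (t : ℝ) : ℝ := (|t| + t * ww |t|) / 2
noncomputable def pb (t : ℝ) : ℝ := (|t| - t * ww |t|) / 2

lemma rel_par {t : ℝ} (ht : |t| ≤ 1 / 2) : Rel (pa t) (pb t) := by
  have h1 := ww_rel ht
  have h2 := ww_half |t|
  have h3 := ww_one |t|
  have h4 : |t * ww (|t|)| ≤ |t| := by
    rw [abs_mul, abs_of_nonneg (show 0 ≤ ww |t| by linarith)]
    exact mul_le_of_le_one_right (abs_nonneg t) h3
  have h5 := abs_le.mp h4
  have h6 : t ^ 2 = |t| ^ 2 := (sq_abs t).symm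
  unfold Rel pa pb
  refine ⟨by linarith, by linarith, by linarith, by linarith, ?_⟩
  linear_combination |t| ^ 2 * h1 + ww |t| ^ 2 * (4 - 3 * |t|) * h6

lemma par_inv {a b : ℝ} (h : Rel a b) (hs : a + b < 1 / 2) :
    |(a - b) / ww (a + b)| = a + b := by
  obtain ⟨a0, a2, b0, b2, h⟩ := h
  have h1 := ww_rel hs.le
  have h2 := ww_half (a + b)
  apply dist_of_sq (abs_nonneg _) (by linarith)
  rw [sq_abs, div_pow, div_eq_iff (by positivity)]
  have : 4 - 3 * (a + b) ≠ 0 := by linarith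
  apply mul_right_cancel₀ this
  linear_combination h - (a + b) ^ 2 * h1

lemma par_mono {s t : ℝ} (hs : 0 ≤ s) (hst : s ≤ t) (ht : t ≤ 1 / 4) :
    pa s ≤ pa t ∧ pb s ≤ pb t := by
  have h1 := ww_rel (show s ≤ 1 / 2 by linarith)
  have h2 := ww_rel (show t ≤ 1 / 2 by linarith)
  have := ww_half s
  have := ww_half t
  have := ww_one s
  have := ww_one t
  unfold pa pb
  rw [abs_of_nonneg hs, abs_of_nonneg (hs.trans hst)]
  generalize ww s = u at *
  generalize ww t = v at *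
  have k : (u ^ 2 - v ^ 2) * ((4 - 3 * s) * (4 - 3 * t)) = 3 * (t - s) := by
    linear_combination (4 - 3 * t) * h1 - (4 - 3 * s) * h2
  have kp : 9 ≤ (4 - 3 * s) * (4 - 3 * t) := by nlinarith
  have k1 : 0 ≤ u ^ 2 - v ^ 2 := by
    by_contra hc
    nlinarith
  have k2 : v ≤ u := by nlinarith
  have k3 : u ^ 2 - v ^ 2 ≤ t - s := by nlinarith
  have k4 : u - v ≤ t - s := by nlinarith
  constructor <;> nlinarith

lemma pa_cont : Continuous pa := by
  unfold pa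
  have := ww_cont
  fun_prop

lemma pb_cont : Continuous pb := by
  unfold pb
  have := ww_cont
  fun_prop

lemma conf_cont : Continuous (fun t => conf (pa t) (pb t)) := by
  have := pa_cont
  have := pb_cont
  refine continuous_pi fun i => ?_
  fin_cases i <;> simp only [conf] <;> simp <;> fun_prop

end Pool.Agent.H24.FourBar
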