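import Pool.Agent.H24.FourBar

set_option autoImplicit false

namespace Pool.Agent.H24.FourBar

abbrev rr : (Fin 4 → E) → (Fin 4 → E) → Prop := fun q q' => ∃ T : E ≃ᵢ E, ∀ i, T (q i) = q' i

noncomputable def alq : Quot rr → ℝ := Quot.lift al (by
  rintro q q' ⟨T, h⟩
  simp only [al, ← h, T.dist_eq])

noncomputable def beq : Quot rr → ℝ := Quot.lift be (by
  rintro q q' ⟨T, h⟩
  simp only [be, ← h, T.dist_eq])

lemma alq_cont : Continuous alq := continuous_quot_lift _ (by unfold al; fun_prop)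
lemma beq_cont : Continuous beq := continuous_quot_lift _ (by unfold be; fun_prop)

def OO : Set (Quot rr) := {x | alq x + beq x < 1 / 2}

lemma OO_open : IsOpen OO := isOpen_lt (alq_cont.add beq_cont) continuous_const

abbrev CC : Set (Quot rr) := {x | ∃ q : Fin 4 → E, Quot.mk rr q = x ∧
  ∀ i j : Fin 4, G4.Adj i j → dist (q i) (q j) = dist (conf 0 0 i) (conf 0 0 j)}

lemma pa_add (t : ℝ) : pa t + pb t = |t| := by unfold pa pb; ring
lemma pa_sub (t : ℝ) : pa t - pb t = t * ww |t| := by unfold pa pb; ring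

lemma abs_half (s : Set.Ioo (0 : ℝ) 1) : |s.1 - 1 / 2| < 1 / 2 := by
  have := s.2.1
  have := s.2.2
  rw [abs_lt]; constructor <;> linarith

lemma rel_of_mem {x : Quot rr} (hx : x ∈ CC) : Rel (alq x) (beq x) := by
  obtain ⟨q, rfl, h⟩ := hx
  exact (normal q h).1

noncomputable def hom : ↥(OO ∩ CC) ≃ₜ ↥(Set.Ioo (0 : ℝ) 1) where
  toFun x := ⟨(alq x.1 - beq x.1) / ww (alq x.1 + beq x.1) + 1 / 2, by
    have h1 : alq x.1 + beq x.1 < 1 / 2 := x.2.1
    have h2 := par_inv (rel_of_mem x.2.2) h1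
    rw [← h2, abs_lt] at h1
    constructor <;> linarith [h1.1, h1.2]⟩
  invFun s := ⟨Quot.mk rr (conf (pa (s.1 - 1 / 2)) (pb (s.1 - 1 / 2))), by
    have h := rel_par (abs_half s).le
    refine ⟨?_, _, rfl, edge_conf h⟩
    show al _ + be _ < 1 / 2
    rw [al_conf h, be_conf h, pa_add]
    exact abs_half s⟩
  left_inv x := by
    obtain ⟨x, h1, q, rfl, h⟩ := x
    apply Subtype.ext
    have h1' : al q + be q < 1 / 2 := h1
    obtain ⟨hr, T, hT⟩ := normal q h
    have h2 := par_inv hr h1'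
    have h3 := ww_half (al q + be q)
    show Quot.mk rr (conf (pa ((al q - be q) / ww (al q + be q) + 1 / 2 - 1 / 2))
      (pb ((al q - be q) / ww (al q + be q) + 1 / 2 - 1 / 2))) = Quot.mk rr q
    rw [add_sub_cancel_right]
    have e1 : pa ((al q - be q) / ww (al q + be q)) = al q := by
      rw [pa, h2, div_mul_cancel₀ _ (by linarith)]; ring
    have e2 : pb ((al q - be q) / ww (al q + be q)) = be q := by
      rw [pb, h2, div_mul_cancel₀ _ (by linarith)]; ring
    rw [e1, e2]
    exact (Quot.sound ⟨T, hT⟩).symm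
  right_inv s := by
    apply Subtype.ext
    have h := rel_par (abs_half s).le
    show (al _ - be _) / ww (al _ + be _) + 1 / 2 = s.1
    have h3 := ww_half |s.1 - 1 / 2|
    rw [al_conf h, be_conf h, pa_add, pa_sub, mul_div_cancel_right₀ _ (by linarith)]
    ring
  continuous_toFun := by
    refine Continuous.subtype_mk (Continuous.add (Continuous.div ?_ ?_ ?_) continuous_const) _
    · exact (alq_cont.sub beq_cont).comp continuous_subtype_val
    · exact ww_cont.comp ((alq_cont.add beq_cont).comp continuous_subtype_val)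
    · intro x
      have := ww_half (alq x.1 + beq x.1)
      linarith
  continuous_invFun := by
    refine Continuous.subtype_mk (continuous_quot_mk.comp ?_) _
    exact conf_cont.comp (continuous_subtype_val.sub continuous_const)

lemma hom_symm (s : Set.Ioo (0 : ℝ) 1) :
    (hom.symm s).1 = Quot.mk rr (conf (pa (s.1 - 1 / 2)) (pb (s.1 - 1 / 2))) := rfl

noncomputable def MM : E ≃ᵢ E := rig (-1) 0 (-1) 3 0 (by norm_num) (by norm_num)

lemma MM_mul : MM * MM = 1 := by
  ext z i
  fin_cases i <;> simp [MM, rig_apply]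

lemma MM_ne : MM ≠ 1 := by
  intro h
  have := congrArg (fun T : E ≃ᵢ E => T 0 0) h
  simp [MM, rig_apply] at this

noncomputable def Gam : Subgroup (E ≃ᵢ E) where
  carrier := {1, MM}
  one_mem' := Or.inl rfl
  mul_mem' := by
    rintro a b (rfl | rfl) (rfl | rfl) <;> simp [MM_mul]
  inv_mem' := by
    rintro a (rfl | rfl)
    · simp
    · right
      exact inv_eq_of_mul_eq_one_right MM_mul

instance : Finite Gam := (Set.toFinite ({1, MM} : Set (E ≃ᵢ E))).to_subtype

def sg : Equiv.Perm (Fin 4) := Equiv.swap 0 1 * Equiv.swap 2 3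

open Classical in
noncomputable def th : Gam →* Equiv.Perm (Fin 4) :=
  MonoidHom.mk' (fun g => if g.1 = 1 then 1 else sg) (by
    rintro ⟨a, rfl | rfl⟩ ⟨b, rfl | rfl⟩ <;> simp [MM_mul, MM_ne]
    decide)

lemma th_one (h : (1 : E ≃ᵢ E) ∈ Gam) : th ⟨1, h⟩ = 1 := by simp [th]
lemma th_MM (h : MM ∈ Gam) : th ⟨MM, h⟩ = sg := by simp [th, MM_ne]

lemma pa_zero : pa 0 = 0 := by simp [pa]
lemma pb_zero : pb 0 = 0 := by simp [pb]

lemma rel_q {t : ℝ} (ht : t ∈ Set.Icc (0 : ℝ) 1) : Rel (pa (t / 4)) (pb (t / 4)) :=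
  rel_par (by rw [abs_le]; constructor <;> linarith [ht.1, ht.2])

lemma DM_mono {a b a' b' : ℝ} (h1 : a ≤ a') (h2 : b ≤ b') (i j : Fin 4) :
    DM a b i j ≤ DM a' b' i j := by
  fin_cases i <;> fin_cases j <;> simp [DM, h1, h2]

end Pool.Agent.H24.FourBar
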