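import Pool.Agent.H24.Sieve

open Finset

namespace Pool.Agent.H24.Sieve

theorem inj_le {α β : Type} {s : Finset α} {t : Finset β} (e : α → β) (hi : Set.InjOn e s)
    (hm : ∀ a ∈ s, e a ∈ t) {f : α → ℝ} {F : β → ℝ} (hF : ∀ b ∈ t, 0 ≤ F b)
    (h : ∀ a ∈ s, f a ≤ F (e a)) : ∑ a ∈ s, f a ≤ ∑ b ∈ t, F b := by
  classical
  refine (sum_le_sum h).trans ?_
  rw [← sum_image hi]
  exact sum_le_sum_of_subset_of_nonneg (image_subset_iff.2 hm) fun b hb _ => hF b hb

theorem ex3 (m : ℕ) (h : m % 4 = 3) : ∃ p, p.Prime ∧ p % 4 = 3 ∧ p ∣ m := by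
  induction m using Nat.recOnMul with
  | zero => omega
  | one => omega
  | prime p hp => exact ⟨p, hp, h, dvd_rfl⟩
  | mul a b ha hb =>
    by_cases h1 : a % 4 = 3
    · obtain ⟨p, h2, h3, h4⟩ := ha h1; exact ⟨p, h2, h3, h4.mul_right _⟩
    · obtain ⟨p, h2, h3, h4⟩ := hb (by
        rw [Nat.mul_mod] at h
        have := Nat.mod_lt a (by norm_num : 0 < 4); have := Nat.mod_lt b (by norm_num : 0 < 4)
        interval_cases a % 4 <;> interval_cases b % 4 <;> simp_all)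
      exact ⟨p, h2, h3, h4.mul_left _⟩

theorem div3 (K : ℝ) : ∃ Y : Finset ℕ, (∀ p ∈ Y, p.Prime ∧ p % 4 = 3) ∧ K ≤ ∑ p ∈ Y, (p : ℝ)⁻¹ := by
  by_contra hc
  push Not at hc
  have hs : Summable fun p : ℕ => if p.Prime ∧ p % 4 = 3 then (p : ℝ)⁻¹ else 0 :=
    summable_of_sum_le (c := K) (fun p => by dsimp; split_ifs <;> positivity) fun u => by
      rw [← sum_filter]; exact (hc _ fun p h => (mem_filter.1 h).2).le
  have tail : ∀ ε > (0 : ℝ), ∃ s : Finset ℕ, ∀ t : Finset ℕ, (∀ p ∈ t, p.Prime ∧ p % 4 = 3) →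
      Disjoint t s → ∑ p ∈ t, (p : ℝ)⁻¹ < ε := fun ε hε => by
    obtain ⟨s, h⟩ := summable_iff_vanishing_norm.1 hs ε hε
    refine ⟨s, fun t ht hd => lt_of_le_of_lt ?_ (h t hd)⟩
    rw [sum_congr rfl fun p hp => if_pos (ht p hp)]
    exact le_abs_self _
  obtain ⟨s1, h1⟩ := tail (1 / 4) (by norm_num)
  obtain ⟨Q, Q0, Q4, hQ⟩ : ∃ Q : ℕ, 0 < Q ∧ 4 ∣ Q ∧ ∀ p ∈ s1, p ≠ 0 → p ∣ Q :=
    ⟨4 * (s1.sup id).factorial, by positivity, dvd_mul_right _ _, fun p h h0 =>
      (Nat.dvd_factorial (Nat.pos_of_ne_zero h0) (le_sup (f := id) h)).mul_left _⟩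
  obtain ⟨s2, h2⟩ := tail (1 / (4 * Q)) (by positivity)
  set N := 2 * #s2 + 1 with hN
  have hx : ∀ k, ∃ p, p.Prime ∧ p % 4 = 3 ∧ p ∣ Q * (k + 1) - 1 := fun k => ex3 _ (by
    obtain ⟨q, rfl⟩ := Q4
    have : 0 < q * (k + 1) := Nat.mul_pos (by omega) k.succ_pos
    rw [mul_assoc]; omega)
  choose f f1 f2 f3 using hx
  have pos : ∀ k, 1 ≤ Q * (k + 1) := fun k => by have : 0 < Q * (k + 1) := by positivity
                                                 omega
  set T := (range N).image f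
  have hT : ∀ p ∈ T, p.Prime ∧ p % 4 = 3 := fun p hp => by
    obtain ⟨k, -, rfl⟩ := mem_image.1 hp; exact ⟨f1 k, f2 k⟩
  have nd : ∀ k, ¬ f k ∣ Q := fun k h =>
    (f1 k).one_lt.ne' (Nat.dvd_one.1 (by
      have := Nat.dvd_sub (h.mul_right (k + 1)) (f3 k)
      rwa [Nat.sub_sub_self (pos k)] at this))
  have a1 := h1 T hT (disjoint_left.2 fun p hp h => by
    obtain ⟨k, -, rfl⟩ := mem_image.1 hp; exact nd k (hQ _ h (f1 k).ne_zero))
  have a2 := h2 (T \ s2) (fun p hp => hT p (mem_sdiff.1 hp).1) sdiff_disjoint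
  have a3 : (N : ℝ) ≤ ∑ p ∈ T, (N * (p : ℝ)⁻¹ + 1) := by
    have := card_eq_sum_card_image f (range N)
    rw [card_range] at this
    refine (Nat.cast_le.2 this.le).trans ?_
    rw [Nat.cast_sum]
    refine sum_le_sum fun p hp => ?_
    have : #((range N).filter fun k => f k = p) ≤ #(range (N / p + 1)) := by
      refine card_le_card_of_injOn (· / p) (fun k hk => ?_) fun a ha b hb e => ?_
      · simp only [coe_filter, mem_range, Set.mem_ofPred_eq, coe_range, Set.mem_Iio] at hk ⊢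
        exact Nat.lt_succ_of_le (Nat.div_le_div_right hk.1.le)
      · simp only [coe_filter, mem_range, Set.mem_ofPred_eq] at ha hb e
        have c : Nat.Coprime p Q := (hT p hp).1.coprime_iff_not_dvd.2 (ha.2 ▸ nd a)
        have m1 := (Nat.modEq_iff_dvd' (pos a)).2 (ha.2 ▸ f3 a)
        have m2 := (Nat.modEq_iff_dvd' (pos b)).2 (hb.2 ▸ f3 b)
        have m3 : a % p = b % p := Nat.ModEq.add_right_cancel' 1
          (Nat.ModEq.cancel_left_of_coprime c (m1.symm.trans m2))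
        rw [← Nat.div_add_mod a p, ← Nat.div_add_mod b p, e, m3]
    rw [card_range] at this
    refine (Nat.cast_le.2 this).trans ?_
    push_cast
    rw [← div_eq_mul_inv]
    exact add_le_add_left Nat.cast_div_le _
  have a4 : (#(T \ s2) : ℝ) ≤ ∑ p ∈ T \ s2, (Q * N) * (p : ℝ)⁻¹ := by
    rw [card_eq_sum_ones, Nat.cast_sum]
    refine sum_le_sum fun p hp => ?_
    obtain ⟨k, hk, rfl⟩ := mem_image.1 (mem_sdiff.1 hp).1
    have h3 : f k ≤ Q * N := (Nat.le_of_dvd (by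
      have := Nat.le_of_dvd Q0 Q4; have : Q ≤ Q * (k + 1) := Nat.le_mul_of_pos_right Q k.succ_pos
      omega)
      (f3 k)).trans ((Nat.sub_le _ _).trans (Nat.mul_le_mul_left _ (mem_range.1 hk)))
    rw [← div_eq_mul_inv, Nat.cast_one, le_div_iff₀ (Nat.cast_pos.2 (f1 k).pos), one_mul]
    exact_mod_cast h3
  have a5 : (#T : ℝ) ≤ #(T \ s2) + #s2 := by exact_mod_cast card_le_card_sdiff_add_card
  rw [sum_add_distrib, ← mul_sum, sum_const, nsmul_eq_mul] at a3
  rw [← mul_sum] at a4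
  have N0 : (N : ℝ) = 2 * #s2 + 1 := by exact_mod_cast hN
  have Q1 : (0 : ℝ) < Q := by exact_mod_cast Q0
  rw [lt_div_iff₀ (by positivity)] at a2
  have : (0 : ℝ) ≤ #s2 := by positivity
  nlinarith

noncomputable def u : ArithmeticFunction ℝ := ⟨fun n => (n : ℝ)⁻¹, by simp⟩

noncomputable def c : ArithmeticFunction ℝ := ⟨fun n => (ZMod.χ₄ n : ℝ) * (n : ℝ)⁻¹, by simp⟩

theorem uc_mul : (u * c).IsMultiplicative :=
  ArithmeticFunction.IsMultiplicative.mul ⟨by simp [u], fun _ => by simp [u, mul_comm]⟩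
    ⟨by simp [c], fun _ => by
      simp only [c, ArithmeticFunction.coe_mk, Nat.cast_mul, map_mul, Int.cast_mul, mul_inv]; ring⟩

theorem uc_pow (p k : ℕ) (hp : p.Prime) :
    (u * c) (p ^ k) = (p : ℝ)⁻¹ ^ k * ∑ i ∈ range (k + 1), (ZMod.χ₄ p : ℝ) ^ i := by
  rw [ArithmeticFunction.mul_apply, sum_congr rfl (g := fun x => (p : ℝ)⁻¹ ^ k * ZMod.χ₄ x.2),
    Nat.sum_divisorsAntidiagonal' fun _ e => (p : ℝ)⁻¹ ^ k * ZMod.χ₄ e,
    Nat.sum_divisors_prime_pow hp, mul_sum]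
  · simp only [Nat.cast_pow, map_pow, Int.cast_pow]
  · intro x hx
    have := congrArg (Nat.cast (R := ℝ)) (Nat.mem_divisorsAntidiagonal.1 hx).1
    push_cast at this
    simp only [u, c, ArithmeticFunction.coe_mk, inv_pow, ← this, mul_inv]; ring

theorem c_sum (x : ℕ) (hx : 0 < x) : 2 / 3 ≤ ∑ m ∈ Ioc 0 x, c m := by
  have s : ∀ x, ∑ m ∈ Ioc 0 (x + 1), c m = ∑ m ∈ Ioc 0 x, c m +
      (if (x + 1) % 2 = 0 then 0 else if (x + 1) % 4 = 1 then 1 else -1) * (x + 1 : ℝ)⁻¹ := fun x => by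
    rw [sum_Ioc_succ_top (Nat.zero_le _)]
    simp only [c, ArithmeticFunction.coe_mk, ZMod.χ₄_nat_eq_if_mod_four]
    push_cast; rfl
  have k : ∀ j : ℕ, 2 / 3 ≤ ∑ m ∈ Ioc 0 (4 * j + 3), c m := fun j => by
    induction j with
    | zero => rw [s 2, s 1, s 0]; norm_num
    | succ j ih =>
      rw [show 4 * (j + 1) + 3 = 4 * j + 3 + 1 + 1 + 1 + 1 by ring, s, s, s, s, if_pos (by omega),
        if_neg (by omega), if_pos (by omega), if_pos (by omega), if_neg (by omega), if_neg (by omega)]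
      have : ((4 * j + 3 + 1 + 1 + 1 : ℕ) + 1 : ℝ)⁻¹ ≤ ((4 * j + 3 + 1 : ℕ) + 1 : ℝ)⁻¹ := by
        refine inv_anti₀ (by positivity) ?_; push_cast; linarith
      linarith
  rcases lt_or_ge x 3 with h | h
  · interval_cases x
    · rw [s 0]; norm_num
    · rw [s 1, s 0]; norm_num
  obtain ⟨j, hj⟩ : ∃ j, x = 4 * j + 3 ∨ x = 4 * j + 3 + 1 ∨ x = 4 * j + 3 + 1 + 1 ∨
    x = 4 * j + 3 + 1 + 1 + 1 := ⟨(x - 3) / 4, by omega⟩
  have := k j
  have : (0 : ℝ) ≤ ((4 * j + 3 + 1 : ℕ) + 1 : ℝ)⁻¹ := by positivity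
  rcases hj with rfl | rfl | rfl | rfl
  · assumption
  · rw [s, if_pos (by omega)]; linarith
  · rw [s, s, if_pos (by omega), if_neg (by omega), if_pos (by omega)]; linarith
  · rw [s, s, s, if_pos (by omega), if_neg (by omega), if_pos (by omega), if_pos (by omega)]; linarith

/-- Sets of primes `1 mod 4` with product at most `z`. -/
def D1 (z : ℕ) : Finset (Finset ℕ) :=
  ((range (z + 1)).filter fun p => p.Prime ∧ p % 4 = 1).powerset.filter fun D => ∏ p ∈ D, p ≤ z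

theorem L1_ge (z : ℕ) : Real.log (z + 1 : ℕ) ≤ 200 * ∑ D ∈ D1 z, ∏ p ∈ D, (2 : ℝ) / (p - 2) := by
  set H : ℕ → ℝ := fun p => if p % 4 = 1 then 2 / (p - 2) else 4 * (p ^ 2 : ℝ)⁻¹ with hH
  have c3 : ∀ p : ℕ, p.Prime → p % 4 = 1 ∨ p = 2 ∨ p % 4 = 3 := fun p hp => by
    have := hp.eq_two_or_odd; omega
  have p5 : ∀ p : ℕ, p.Prime → p % 4 = 1 → (5 : ℝ) ≤ p := fun p hp h => by
    have := hp.two_le; exact_mod_cast (by omega : 5 ≤ p)
  have H0 : ∀ p : ℕ, p.Prime → 0 ≤ H p := fun p hp => by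
    simp only [hH]; split_ifs with h
    · have := p5 p hp h; exact div_nonneg (by norm_num) (by linarith)
    · positivity
  have a := mult_le _ uc_mul H (fun p k hp => by
    rw [uc_pow p k hp]
    refine mul_nonneg (by positivity) ?_
    rcases c3 p hp with h | rfl | h
    · simp [ZMod.χ₄_nat_one_mod_four h]; positivity
    · exact sum_nonneg fun i _ => by simp
    · simp [ZMod.χ₄_nat_three_mod_four h, neg_one_geom_sum]; split_ifs <;> simp) (fun p K hp => by
    simp only [uc_pow p _ hp, hH]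
    rcases c3 p hp with h | rfl | h
    · have := p5 p hp h
      rw [if_pos h]
      refine (sum_le_sum (g := fun k => (2 / p : ℝ) ^ k) fun k _ => ?_).trans
        ((geom_sum_Ico_le_of_lt_one (by positivity) (by rw [div_lt_one] <;> linarith)).trans
          (le_of_eq ?_))
      · simp only [ZMod.χ₄_nat_one_mod_four h, Int.cast_one, one_pow, sum_const, card_range,
          nsmul_eq_mul, mul_one, div_eq_inv_mul, mul_pow]
        gcongr
        exact_mod_cast Nat.lt_two_pow_self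
      · have : (p : ℝ) - 2 ≠ 0 := by linarith
        field_simp
    · refine (sum_le_sum (g := fun k => (1 / 2 : ℝ) ^ k) fun k _ => ?_).trans
        ((geom_sum_Ico_le_of_lt_one (by positivity) (by norm_num)).trans (by norm_num))
      simp [sum_range_succ']
    · have h3 : (3 : ℝ) ≤ p := by exact_mod_cast (by omega : 3 ≤ p)
      rw [if_neg (by omega)]
      rcases Nat.lt_or_ge 1 K with hK | hK
      · rw [sum_eq_sum_Ico_succ_bot hK]
        refine (add_le_add (le_of_eq (b := 0) ?_) ((sum_le_sum (g := fun k => (p : ℝ)⁻¹ ^ k)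
          fun k _ => ?_).trans (geom_sum_Ico_le_of_lt_one (by positivity)
          (inv_lt_one_of_one_lt₀ (by linarith))))).trans ?_
        · simp [ZMod.χ₄_nat_three_mod_four h, sum_range_succ]
        · refine mul_le_of_le_one_right (by positivity) ?_
          simp [ZMod.χ₄_nat_three_mod_four h, neg_one_geom_sum]; split_ifs <;> simp
        · have : (p : ℝ)⁻¹ ≤ 1 / 3 := by rw [one_div]; gcongr
          rw [zero_add, div_le_iff₀ (by linarith), inv_pow]
          have : (0 : ℝ) ≤ (p ^ 2 : ℝ)⁻¹ := by positivity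
          nlinarith
      · rw [Ico_eq_empty (by omega), sum_empty]; positivity) z
  have b : 2 / 3 * Real.log (z + 1 : ℕ) ≤ ∑ m ∈ Ioc 0 z, (u * c) m := by
    rw [ArithmeticFunction.sum_Ioc_mul_eq_sum_sum]
    refine (mul_le_mul_of_nonneg_left (log_add_one_le_harmonic z) (by norm_num)).trans ?_
    rw [harmonic_eq_sum_Icc, Rat.cast_sum, mul_sum]
    refine sum_le_sum fun m hm => ?_
    rw [mem_Icc] at hm
    rw [mul_comm]
    push_cast
    exact mul_le_mul_of_nonneg_left (c_sum _ (Nat.div_pos hm.2 hm.1)) (by positivity)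
  set R := (range (z + 1)).filter fun p => p.Prime ∧ ¬ p % 4 = 1
  have d := inj_le (s := ((range (z + 1)).filter Nat.Prime).powerset.filter fun D => ∏ p ∈ D, p ≤ z)
    (t := D1 z ×ˢ R.powerset) (fun D => (D.filter (· % 4 = 1), D.filter (¬ · % 4 = 1)))
    (fun A _ B _ e => by
      rw [← filter_union_filter_not_eq (· % 4 = 1) A, ← filter_union_filter_not_eq (· % 4 = 1) B]
      exact congrArg₂ _ (congrArg Prod.fst e) (congrArg Prod.snd e))
    (fun D hD => by
      simp only [mem_filter, mem_powerset, subset_iff, mem_product, D1, R] at hD ⊢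
      refine ⟨⟨fun p h => by have := hD.1 h.1; tauto, le_trans ?_ hD.2⟩,
        fun p h => by have := hD.1 h.1; tauto⟩
      exact prod_le_prod_of_subset_of_one_le' (filter_subset _ _) fun p h _ => (hD.1 h).2.one_le)
    (f := fun D => ∏ p ∈ D, H p) (F := fun x => (∏ p ∈ x.1, H p) * ∏ p ∈ x.2, H p)
    (fun x hx => by
      simp only [mem_filter, mem_powerset, subset_iff, mem_product, D1, R] at hx
      exact mul_nonneg (prod_nonneg fun p h => H0 p (hx.1.1 h).2.1)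
        (prod_nonneg fun p h => H0 p (hx.2 h).2.1))
    fun D _ => (prod_filter_mul_prod_filter_not _ _ _).ge
  rw [sum_product' _ _ fun a b => (∏ p ∈ a, H p) * ∏ p ∈ b, H p, ← sum_mul_sum, ← prod_one_add] at d
  have e : ∏ p ∈ R, (1 + H p) ≤ 81 := by
    rw [prod_congr rfl (g := fun p : ℕ => 1 + 4 * (p ^ 2 : ℝ)⁻¹) fun p h => by
      simp only [hH, if_neg (mem_filter.1 h).2.2]]
    refine (Real.prod_one_add_le_exp_sum _ fun p => by positivity).trans ?_
    have : ∑ p ∈ R, 4 * ((p : ℝ) ^ 2)⁻¹ ≤ (4 : ℕ) * 1 := by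
      rw [← mul_sum]
      have := (sum_le_sum_of_subset_of_nonneg (s := R) (f := fun p : ℕ => ((p : ℝ) ^ 2)⁻¹)
        (fun p h => mem_Ioo.2 ⟨(mem_filter.1 h).2.1.one_lt, mem_range.1 (mem_filter.1 h).1⟩)
        fun _ _ _ => by positivity).trans (sum_Ioo_inv_sq_le 1 (z + 1))
      norm_num at this ⊢; exact this
    refine (Real.exp_le_exp.2 this).trans ?_
    rw [Real.exp_nat_mul]
    exact (pow_le_pow_left₀ (Real.exp_pos _).le Real.exp_one_lt_three.le 4).trans (by norm_num)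
  have f : ∑ D ∈ D1 z, ∏ p ∈ D, H p = ∑ D ∈ D1 z, ∏ p ∈ D, (2 : ℝ) / (p - 2) :=
    sum_congr rfl fun D hD => prod_congr rfl fun p h =>
      if_pos (mem_filter.1 (mem_powerset.1 (mem_filter.1 hD).1 h)).2.2
  have g : 0 ≤ ∑ D ∈ D1 z, ∏ p ∈ D, H p := sum_nonneg fun D hD => prod_nonneg fun p h =>
    H0 p (mem_filter.1 (mem_powerset.1 (mem_filter.1 hD).1 h)).2.1
  rw [← f]
  nlinarith

theorem sum_le_prod (Y : Finset ℕ) (f : ℕ → ℝ) (hf : ∀ p ∈ Y, 0 ≤ f p) :
    1 + ∑ p ∈ Y, f p ≤ ∏ p ∈ Y, (1 + f p) := by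
  induction Y using Finset.induction_on with
  | empty => simp
  | insert a s ha ih =>
    rw [sum_insert ha, prod_insert ha]
    have := ih fun p h => hf p (mem_insert_of_mem h)
    have := hf a (mem_insert_self _ _)
    have := sum_nonneg fun p h => hf p (mem_insert_of_mem (a := p) (b := a) (s := s) h)
    nlinarith

theorem gauss : ∃ n : ℕ, 1 < n ∧
    5 * #((Ico 1 n).filter fun s => (n ^ 2 + s ^ 2).Prime) < Nat.primeCounting n := by
  obtain ⟨Y, hY, hK⟩ := div3 120000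
  obtain ⟨W, hW⟩ : ∃ W, W = ∏ p ∈ Y, p := ⟨_, rfl⟩
  have W0 : 0 < W := hW ▸ prod_pos fun p h => (hY p h).1.pos
  obtain ⟨z, hz⟩ : ∃ z, z = 2 ^ W := ⟨_, rfl⟩
  have Wz : W < z := hz ▸ Nat.lt_two_pow_self
  obtain ⟨n, hn⟩ : ∃ n, n = W * z ^ 14 := ⟨_, rfl⟩
  have n1 : z ^ 14 ≤ n := hn ▸ Nat.le_mul_of_pos_left _ W0
  have n2 : 2 ^ 14 ≤ n := (Nat.pow_le_pow_left (by omega) 14).trans n1
  have n3 : z ≤ n := (Nat.le_self_pow (by norm_num) z).trans n1
  refine ⟨n, by omega, lt_of_not_ge fun hc => ?_⟩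
  have hx : ∀ p : ℕ, ∃ x, p.Prime → p % 4 = 1 → 0 < x ∧ x < p ∧ p ∣ n ^ 2 + x ^ 2 := fun p => by
    by_cases hp : p.Prime ∧ p % 4 = 1
    swap
    · exact ⟨0, by tauto⟩
    have := Fact.mk hp.1
    obtain ⟨i, hi⟩ := (ZMod.exists_sq_eq_neg_one_iff (p := p)).2 (by omega)
    have h1 : p ∣ n ^ 2 + (i * n).val ^ 2 := by
      rw [← ZMod.natCast_eq_zero_iff]; push_cast; rw [ZMod.natCast_zmod_val]
      linear_combination -(n : ZMod p) ^ 2 * hi
    refine ⟨(i * n).val, fun _ _ => ⟨Nat.pos_of_ne_zero fun h0 => ?_, ZMod.val_lt _, h1⟩⟩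
    rw [h0, zero_pow two_ne_zero, add_zero] at h1
    have h2 := hp.1.dvd_of_dvd_pow h1
    rw [hn, hz, ← pow_mul, hp.1.dvd_mul, hW, hp.1.prime.dvd_finsetProd_iff] at h2
    rcases h2 with ⟨q, hq, h2⟩ | h2
    · have := (Nat.prime_dvd_prime_iff_eq hp.1 (hY q hq).1).1 h2
      have := (hY q hq).2; omega
    · have := (Nat.prime_dvd_prime_iff_eq hp.1 Nat.prime_two).1 (hp.1.dvd_of_dvd_pow h2); omega
  choose x hx using hx
  have hD : ∀ a ∈ D1 z, (∀ p ∈ a, p < z + 1 ∧ p.Prime ∧ p % 4 = 1) ∧ ∏ p ∈ a, p ≤ z := fun a ha => by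
    simpa [D1, subset_iff] using ha
  have dj : ∀ a ∈ D1 z, ∀ b ∈ Y.powerset, Disjoint a b := fun a ha b hb =>
    disjoint_left.2 fun p h1 h2 => by
      have := ((hD a ha).1 p h1).2.2; have := (hY p (mem_powerset.1 hb h2)).2; omega
  have c2 : ∀ p : ℕ, p.Prime → p % 4 = 1 → #({x p, p - x p} : Finset ℕ) = 2 := fun p h1 h2 =>
    card_pair (by have := hx p h1 h2; omega)
  set S := (Ico 1 n).filter fun s => (n ^ 2 + s ^ 2).Prime
  have big : ∀ s ∈ S, ∀ p : ℕ, p.Prime → p ≤ n → ¬ p ∣ n ^ 2 + s ^ 2 := fun s hs p hp h1 h2 => by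
    simp only [S, mem_filter, mem_Ico] at hs
    have := (Nat.prime_dvd_prime_iff_eq hp hs.2).1 h2
    nlinarith [hs.1.1]
  have sv := sieve (D1 z ×ˢ Y.powerset) (fun i => i.1 ∪ i.2) (fun i hi j hj e => by
      simp only [coe_product, Set.mem_prod, mem_coe] at hi hj e
      have f : ∀ i : Finset ℕ × Finset ℕ, i.1 ∈ D1 z ∧ i.2 ∈ Y.powerset →
          i = ((i.1 ∪ i.2).filter (· % 4 = 1), (i.1 ∪ i.2).filter (· % 4 = 3)) := fun i hi => by
        have h1 := fun p h => ((hD _ hi.1).1 p h).2.2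
        have h2 := fun p h => (hY p (mem_powerset.1 hi.2 h)).2
        refine Prod.ext ?_ ?_ <;> ext p <;> simp only [mem_filter, mem_union] <;> grind
      rw [f i hi, f j hj, e])
    (fun p => if p % 4 = 1 then {x p, p - x p} else {0}) (z * z) n (fun i hi p hp => by
      rw [mem_product] at hi
      rcases mem_union.1 hp with h | h
      · obtain ⟨-, h1, h2⟩ := (hD _ hi.1).1 p h
        have := hx p h1 h2
        have := h1.two_le
        rw [if_pos h2, c2 p h1 h2]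
        exact ⟨h1, by simp [insert_subset_iff]; omega, by omega⟩
      · obtain ⟨h1, h2⟩ := hY p (mem_powerset.1 hi.2 h)
        rw [if_neg (by omega)]
        exact ⟨h1, by simp; omega, by simp; omega⟩) (fun i hi => by
      rw [mem_product] at hi
      rw [prod_union (dj _ hi.1 _ hi.2)]
      exact Nat.mul_le_mul (hD _ hi.1).2 (le_trans (hW ▸ prod_le_prod_of_subset_of_one_le'
        (mem_powerset.1 hi.2) fun p h _ => (hY p h).1.one_le) Wz.le)) S
    (fun s hs => mem_range.2 (mem_Ico.1 (mem_filter.1 hs).1).2) (fun s hs i hi p hp hm => by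
      rw [mem_product] at hi
      rcases mem_union.1 hp with h | h
      · obtain ⟨h0, h1, h2⟩ := (hD _ hi.1).1 p h
        obtain ⟨-, h3, h4⟩ := hx p h1 h2
        refine big s hs p h1 (by omega) ?_
        rw [if_pos h2, mem_insert, mem_singleton] at hm
        rw [← ZMod.natCast_eq_zero_iff] at h4 ⊢
        push_cast at h4 ⊢
        rw [← ZMod.natCast_mod s p]
        rcases hm with hm | hm
        · rwa [hm]
        · rw [hm, Nat.cast_sub h3.le, ZMod.natCast_self]; linear_combination h4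
      · obtain ⟨h1, h2⟩ := hY p (mem_powerset.1 hi.2 h)
        have : p ∣ W := hW ▸ dvd_prod_of_mem _ (mem_powerset.1 hi.2 h)
        rw [if_neg (by omega), mem_singleton] at hm
        exact big s hs p h1 (by have := Nat.le_of_dvd W0 this; omega) (dvd_add
          (dvd_pow (hn ▸ this.mul_right _) two_ne_zero)
          (dvd_pow (Nat.dvd_of_mod_eq_zero hm) two_ne_zero)))
    ((∑ D ∈ D1 z, ∏ p ∈ D, (2 : ℝ) / (p - 2)) * ∏ p ∈ Y, (1 + 1 / (p - 1 : ℝ))) (by
      rw [prod_one_add, sum_mul_sum, sum_product]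
      refine sum_congr rfl fun a ha => sum_congr rfl fun b hb => ?_
      rw [prod_union (dj a ha b hb)]
      refine congrArg₂ _ (prod_congr rfl fun p h => ?_) (prod_congr rfl fun p h => ?_)
      · obtain ⟨-, h1, h2⟩ := (hD _ ha).1 p h
        rw [if_pos h2, c2 p h1 h2]; rfl
      · rw [if_neg (by have := (hY p (mem_powerset.1 hb h)).2; omega)]; simp)
  have l2 := Real.log_two_gt_d9
  have l2' := Real.log_two_lt_d9
  have W1 : (1 : ℝ) ≤ W := by exact_mod_cast W0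
  have z2 : (2 : ℝ) ≤ z := by exact_mod_cast (by omega : 2 ≤ z)
  have lz : Real.log z = W * Real.log 2 := by rw [hz]; simp
  have a1 := (Real.log_le_log (by linarith) (by push_cast; linarith : (z : ℝ) ≤ (z + 1 : ℕ))).trans
    (L1_ge z)
  have a2 : (120000 : ℝ) ≤ ∏ p ∈ Y, (1 + 1 / (p - 1 : ℝ)) := by
    have h1 : ∀ p ∈ Y, (0 : ℝ) < p - 1 := fun p h => sub_pos.2 (by exact_mod_cast (hY p h).1.one_lt)
    refine le_trans ?_ (sum_le_prod Y _ fun p h => (one_div_pos.2 (h1 p h)).le)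
    have : ∑ p ∈ Y, (p : ℝ)⁻¹ ≤ ∑ p ∈ Y, 1 / (p - 1 : ℝ) := sum_le_sum fun p h => by
      rw [one_div]; exact inv_anti₀ (h1 p h) (by linarith)
    linarith
  generalize (∑ D ∈ D1 z, ∏ p ∈ D, (2 : ℝ) / (p - 2)) = L1 at *
  generalize ∏ p ∈ Y, (1 + 1 / (p - 1 : ℝ)) = A at *
  have a3 : 300 * W ≤ L1 * A := by
    have : (W : ℝ) ≤ 400 * L1 := by nlinarith
    nlinarith
  generalize L1 * A = L at *
  have N2 : (2 : ℝ) ^ 14 ≤ n := by exact_mod_cast n2
  have N1 : (z : ℝ) ^ 14 ≤ n := by exact_mod_cast n1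
  have a4 : (#S : ℝ) * L ≤ n + 2 * z ^ 12 := by
    refine le_of_mul_le_mul_right ?_ (by linarith : 0 < L)
    have : (0 : ℝ) ≤ z ^ 12 := by positivity
    push_cast at sv
    nlinarith
  have a5 := (Chebyshev.psi_ge n).trans (Chebyshev.psi_le_primeCounting_mul_log n)
  have a6 : Real.log (n + 1) ≤ (n + 1) / 2 ^ 6 - 1 + 6 * Real.log 2 := by
    have := Real.log_le_sub_one_of_pos (x := (n + 1) / 2 ^ 6) (by positivity)
    rw [Real.log_div (by positivity) (by positivity), Real.log_pow] at this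
    push_cast at this; linarith
  have a7 : Real.log n ≤ 15 * W := by
    have : (n : ℝ) ≤ z ^ 15 := by
      exact_mod_cast (by rw [hn, pow_succ' z 14]; gcongr : n ≤ z ^ 15)
    have := Real.log_le_log (by linarith) this
    rw [Real.log_pow, lz] at this
    push_cast at this; nlinarith
  have a8 : (Nat.primeCounting n : ℝ) ≤ 5 * #S := by exact_mod_cast hc
  have S0 : (0 : ℝ) ≤ #S := by positivity
  have a9 : (Nat.primeCounting n : ℝ) * Real.log n ≤ 5 * #S * (15 * W) :=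
    mul_le_mul a8 a7 (Real.log_nonneg (by linarith)) (by positivity)
  have b1 : (#S : ℝ) * (300 * W) ≤ #S * L := by gcongr
  have b2 : (z : ℝ) ^ 12 * 4 ≤ z ^ 14 := by
    rw [show (z : ℝ) ^ 14 = z ^ 12 * z ^ 2 by ring]; gcongr; nlinarith
  nlinarith

end Pool.Agent.H24.Sieve
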