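import Mathlib

set_option autoImplicit false
open scoped ENNReal MeasureTheory
open MeasureTheory Set

namespace Pool.Agent.H24.Gon

abbrev X : Type := EuclideanSpace ℝ (Fin 2)

noncomputable def P (a b : ℝ) : X := !₂[a, b]

@[simp] lemma P0 (a b : ℝ) : P a b 0 = a := rfl
@[simp] lemma P1 (a b : ℝ) : P a b 1 = b := rfl

lemma eq_P (z : X) : z = P (z 0) (z 1) := by
  ext i
  fin_cases i <;> rfl

lemma dist_sq (z w : X) : dist z w = Real.sqrt ((z 0 - w 0) ^ 2 + (z 1 - w 1) ^ 2) := by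
  rw [EuclideanSpace.dist_eq, Fin.sum_univ_two, Real.dist_eq, Real.dist_eq, sq_abs, sq_abs]

lemma isoV (a : ℝ) : Isometry (fun y : ℝ => P a y) := by
  apply Isometry.of_dist_eq
  intro y y'
  rw [dist_sq]
  simp [Real.sqrt_sq_eq_abs, Real.dist_eq]

lemma isoH (b : ℝ) : Isometry (fun x : ℝ => P x b) := by
  apply Isometry.of_dist_eq
  intro y y'
  rw [dist_sq]
  simp [Real.sqrt_sq_eq_abs, Real.dist_eq]

lemma line_int (e : ℝ → X) (he : Isometry e) (I : Set ℝ) (ρ : X → ℝ≥0∞) :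
    ∫⁻ x in e '' I, ρ x ∂μH[1] = ∫⁻ y in I, ρ (e y) := by
  have hme : MeasurableEmbedding e := he.isClosedEmbedding.measurableEmbedding
  have h1 : (μH[1] : Measure X).restrict (e '' I)
      = ((μH[1] : Measure X).restrict (range e)).restrict (e '' I) :=
    (Measure.restrict_restrict_of_subset (image_subset_range e I)).symm
  rw [h1, ← he.map_hausdorffMeasure (Or.inl zero_le_one), hausdorffMeasure_real,
    hme.restrict_map, hme.lintegral_map, preimage_image_eq _ he.injective]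

lemma line_meas (e : ℝ → X) (he : Isometry e) (I : Set ℝ) :
    (μH[1] : Measure X) (e '' I) = volume I := by
  rw [he.hausdorffMeasure_image (Or.inl zero_le_one), hausdorffMeasure_real]

/-- an injective arc from `p` to `q` inside `S` -/
def Arc (p q : X) (S : Set X) : Prop :=
  ∃ g : ℝ → X, Continuous g ∧ InjOn g (Icc 0 1) ∧ g 0 = p ∧ g 1 = q ∧ MapsTo g (Icc 0 1) S

lemma arc_line (e : ℝ → X) (he : Isometry e) (c d : ℝ) (hcd : c ≠ d) (I : Set ℝ)
    (hI : uIcc c d ⊆ I) : Arc (e c) (e d) (e '' I) := by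
  refine ⟨fun t => e (c + t * (d - c)), ?_, ?_, by simp, by simp, ?_⟩
  · exact he.continuous.comp (by fun_prop)
  · intro s _ t _ hst
    have := he.injective hst
    have h2 : (s - t) * (d - c) = 0 := by linarith
    rcases mul_eq_zero.1 h2 with h | h
    · linarith
    · exact absurd (by linarith) hcd
  · intro t ht
    refine ⟨c + t * (d - c), hI ?_, rfl⟩
    rcases le_total c d with h | h
    · rw [uIcc_of_le h]
      constructor <;> nlinarith [ht.1, ht.2]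
    · rw [uIcc_of_ge h]
      constructor <;> nlinarith [ht.1, ht.2]

lemma arc_init (g : ℝ → X) (hg : Continuous g) (hi : InjOn g (Icc 0 1)) (τ : ℝ) (h0 : 0 < τ)
    (h1 : τ ≤ 1) : Arc (g 0) (g τ) (g '' Icc 0 τ) := by
  refine ⟨fun t => g (t * τ), hg.comp (by fun_prop), ?_, by simp, by simp, ?_⟩
  · intro s hs t ht hst
    have hs' : s * τ ∈ Icc (0:ℝ) 1 := ⟨by nlinarith [hs.1], by nlinarith [hs.1, hs.2]⟩
    have ht' : t * τ ∈ Icc (0:ℝ) 1 := ⟨by nlinarith [ht.1], by nlinarith [ht.1, ht.2]⟩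
    have := hi hs' ht' hst
    exact mul_right_cancel₀ h0.ne' this
  · intro t ht
    exact ⟨t * τ, ⟨by nlinarith [ht.1], by nlinarith [ht.1, ht.2]⟩, rfl⟩

lemma arc_trans {p q r : X} {S T : Set X} (h1 : Arc p q S) (h2 : Arc q r T)
    (hST : ∀ z ∈ S, z ∈ T → z = q) : Arc p r (S ∪ T) := by
  obtain ⟨g, hg, hgi, hg0, hg1, hgS⟩ := h1
  obtain ⟨k, hk, hki, hk0, hk1, hkT⟩ := h2
  refine ⟨fun t => if t ≤ 1 / 2 then g (2 * t) else k (2 * t - 1), ?_, ?_, ?_, ?_, ?_⟩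
  · refine Continuous.if_le (hg.comp (by fun_prop)) (hk.comp (by fun_prop)) continuous_id
      continuous_const ?_
    intro t ht
    rw [ht]
    norm_num [hg1, hk0]
  · have key : ∀ s ∈ Icc (0:ℝ) 1, ∀ t ∈ Icc (0:ℝ) 1, s ≤ 1 / 2 → ¬ t ≤ 1 / 2 →
        g (2 * s) ≠ k (2 * t - 1) := by
      intro s hs t ht hs2 ht2 h
      push Not at ht2
      have hs' : 2 * s ∈ Icc (0:ℝ) 1 := ⟨by linarith [hs.1], by linarith⟩
      have ht' : 2 * t - 1 ∈ Icc (0:ℝ) 1 := ⟨by linarith, by linarith [ht.2]⟩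
      have hq : k (2 * t - 1) = q := hST _ (h ▸ hgS hs') (hkT ht')
      have := hki ht' ⟨le_rfl, zero_le_one⟩ (hq.trans hk0.symm)
      linarith
    intro s hs t ht hst
    by_cases hs2 : s ≤ 1 / 2 <;> by_cases ht2 : t ≤ 1 / 2
    · simp only [hs2, ht2, if_true] at hst
      have := hgi ⟨by linarith [hs.1], by linarith⟩ ⟨by linarith [ht.1], by linarith⟩ hst
      linarith
    · simp only [hs2, ht2, if_true, if_false] at hst
      exact absurd hst (key s hs t ht hs2 ht2)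
    · simp only [hs2, ht2, if_true, if_false] at hst
      exact absurd hst.symm (key t ht s hs ht2 hs2)
    · simp only [hs2, ht2, if_false] at hst
      push Not at hs2 ht2
      have := hki ⟨by linarith, by linarith [hs.2]⟩ ⟨by linarith, by linarith [ht.2]⟩ hst
      linarith
  · norm_num [hg0]
  · norm_num [hk1]
  · intro t ht
    by_cases ht2 : t ≤ 1 / 2
    · simp only [ht2, if_true]
      exact Or.inl (hgS ⟨by linarith [ht.1], by linarith⟩)
    · simp only [ht2, if_false]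
      push Not at ht2
      exact Or.inr (hkT ⟨by linarith, by linarith [ht.2]⟩)

/-- admissibility for arcs from `E` to `F` -/
def Adm (E F : Set X) (ρ : X → ℝ≥0∞) : Prop :=
  ∀ γ : C(unitInterval, X), Function.Injective γ → γ 0 ∈ E → γ 1 ∈ F →
    μH[1] (Set.range γ) < ⊤ → 1 ≤ ∫⁻ x in Set.range γ, ρ x ∂μH[1]

lemma adm_arc {E F : Set X} {ρ : X → ℝ≥0∞} (h : Adm E F ρ) {p q : X} {S : Set X}
    (hA : Arc p q S) (hp : p ∈ E) (hq : q ∈ F) (hS : (μH[1] : Measure X) S < ⊤) :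
    1 ≤ ∫⁻ x in S, ρ x ∂μH[1] := by
  obtain ⟨g, hg, hgi, hg0, hg1, hgS⟩ := hA
  let γ : C(unitInterval, X) := ⟨fun t => g t, hg.comp continuous_subtype_val⟩
  have hr : range γ ⊆ S := by
    rintro _ ⟨t, rfl⟩
    exact hgS t.2
  have h1 := h γ (fun s t hst => Subtype.ext (hgi s.2 t.2 hst)) (by simpa [γ, hg0] using hp)
    (by simpa [γ, hg1] using hq) (lt_of_le_of_lt (measure_mono hr) hS)
  exact h1.trans (lintegral_mono_set hr)

lemma first_hit (φ : ℝ → ℝ) (hφ : Continuous φ) (T : ℝ) (hT : 0 ≤ T) (a : ℝ)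
    (ha : a ∈ uIcc (φ 0) (φ T)) : ∃ τ ∈ Icc 0 T, φ τ = a ∧ ∀ t ∈ Ico 0 τ, φ t ≠ a := by
  have hne : (Icc 0 T ∩ φ ⁻¹' {a}).Nonempty := by
    have := intermediate_value_uIcc (a := 0) (b := T) hφ.continuousOn ha
    rw [uIcc_of_le hT] at this
    obtain ⟨t, ht, hta⟩ := this
    exact ⟨t, ht, hta⟩
  have hc : IsCompact (Icc 0 T ∩ φ ⁻¹' {a}) :=
    isCompact_Icc.inter_right (isClosed_singleton.preimage hφ)
  obtain ⟨τ, hτ, hmin⟩ := hc.exists_isLeast hne
  refine ⟨τ, hτ.1, hτ.2, ?_⟩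
  intro t ht hta
  have := hmin ⟨⟨ht.1, ht.2.le.trans hτ.1.2⟩, hta⟩
  linarith [ht.2]

lemma mpP : MeasurePreserving (fun p : ℝ × ℝ => P p.1 p.2) volume volume := by
  have h1 := (volume_preserving_finTwoArrow ℝ).symm
  have h2 := PiLp.volume_preserving_toLp (Fin 2)
  have h3 := h2.comp h1
  have h4 : (fun p : ℝ × ℝ => P p.1 p.2)
      = WithLp.toLp 2 ∘ ⇑(MeasurableEquiv.finTwoArrow (α := ℝ)).symm := by
    funext p
    ext i
    fin_cases i <;> rfl
  rw [h4]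
  exact h3

lemma avg (f : ℝ × ℝ → ℝ≥0∞) (hf : Measurable f) (G I : Set ℝ) (hG : MeasurableSet G)
    (w : ℝ) (hw : 0 < w) (hGl : ENNReal.ofReal (w / 4) ≤ volume G) (hGu : volume G ≠ ⊤)
    (hIu : volume I ≤ ENNReal.ofReal (4 * w))
    (hs : ∫⁻ p in G ×ˢ I, f p ^ 2 ≤ ENNReal.ofReal (1 / 10000)) :
    ∃ a ∈ G, ∫⁻ y in I, f (a, y) ≤ ENNReal.ofReal (1 / 10) := by
  by_contra hcon
  push Not at hcon
  set κ : ℝ := 1 / (80 * w) with hκ
  have hκ0 : 0 < κ := by positivity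
  have hpt : ∀ p, f p ≤ ENNReal.ofReal κ + f p ^ 2 * ENNReal.ofReal (80 * w) := by
    intro p
    rcases le_total (f p) (ENNReal.ofReal κ) with h | h
    · exact h.trans le_self_add
    · have h1 : (1 : ℝ≥0∞) ≤ f p * ENNReal.ofReal (80 * w) := by
        calc (1 : ℝ≥0∞) = ENNReal.ofReal κ * ENNReal.ofReal (80 * w) := by
              rw [← ENNReal.ofReal_mul hκ0.le, hκ, one_div_mul_cancel (by positivity)]
              simp
          _ ≤ _ := by gcongr
      calc f p = f p * 1 := (mul_one _).symm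
        _ ≤ f p * (f p * ENNReal.ofReal (80 * w)) := by gcongr
        _ = f p ^ 2 * ENNReal.ofReal (80 * w) := by ring
        _ ≤ _ := le_add_self
  have h1 : ENNReal.ofReal (1 / 10) * volume G ≤ ∫⁻ p in G ×ˢ I, f p := by
    rw [Measure.volume_eq_prod, ← Measure.prod_restrict, lintegral_prod _ hf.aemeasurable]
    calc ENNReal.ofReal (1 / 10) * volume G = ∫⁻ _ in G, ENNReal.ofReal (1 / 10) := by
          rw [setLIntegral_const]
      _ ≤ _ := setLIntegral_mono' hG (fun a ha => (hcon a ha).le)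
  have h2 : ∫⁻ p in G ×ˢ I, f p ≤ ENNReal.ofReal κ * (volume G * ENNReal.ofReal (4 * w))
      + ENNReal.ofReal (1 / 10000) * ENNReal.ofReal (80 * w) := by
    calc ∫⁻ p in G ×ˢ I, f p
        ≤ ∫⁻ p in G ×ˢ I, (ENNReal.ofReal κ + f p ^ 2 * ENNReal.ofReal (80 * w)) :=
          lintegral_mono hpt
      _ = ENNReal.ofReal κ * volume (G ×ˢ I)
          + (∫⁻ p in G ×ˢ I, f p ^ 2) * ENNReal.ofReal (80 * w) := by
          rw [lintegral_add_left measurable_const, setLIntegral_const,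
            lintegral_mul_const _ (hf.pow_const 2)]
      _ ≤ _ := by
          rw [Measure.volume_eq_prod, Measure.prod_prod]
          rw [Measure.volume_eq_prod] at hs
          gcongr
  have h3 := h1.trans h2
  obtain ⟨g, hg0, hg⟩ : ∃ g : ℝ, 0 ≤ g ∧ volume G = ENNReal.ofReal g :=
    ⟨(volume G).toReal, ENNReal.toReal_nonneg, (ENNReal.ofReal_toReal hGu).symm⟩
  rw [hg] at h3 hGl
  rw [ENNReal.ofReal_le_ofReal_iff hg0] at hGl
  rw [← ENNReal.ofReal_mul (by norm_num), ← ENNReal.ofReal_mul hg0,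
    ← ENNReal.ofReal_mul hκ0.le, ← ENNReal.ofReal_mul (by norm_num),
    ← ENNReal.ofReal_add (by positivity) (by positivity),
    ENNReal.ofReal_le_ofReal_iff (by positivity)] at h3
  have h4 : κ * (g * (4 * w)) = g / 20 := by
    rw [hκ]; field_simp; ring
  rw [h4] at h3
  linarith

lemma setint_P (ρ : X → ℝ≥0∞) (hρ : Measurable ρ) (B : Set X) (hB : MeasurableSet B)
    (U : Set (ℝ × ℝ)) (hU : ∀ p ∈ U, P p.1 p.2 ∈ B) :
    ∫⁻ p in U, ρ (P p.1 p.2) ^ 2 ≤ ∫⁻ x in B, ρ x ^ 2 := by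
  rw [← mpP.setLIntegral_comp_preimage hB (hρ.pow_const 2)]
  exact lintegral_mono_set hU

lemma avgV (ρ : X → ℝ≥0∞) (hρ : Measurable ρ) (B : Set X) (hB : MeasurableSet B)
    (hs : ∫⁻ x in B, ρ x ^ 2 ≤ ENNReal.ofReal (1 / 10000))
    (G I : Set ℝ) (hG : MeasurableSet G)
    (w : ℝ) (hw : 0 < w) (hGl : ENNReal.ofReal (w / 4) ≤ volume G) (hGu : volume G ≠ ⊤)
    (hIu : volume I ≤ ENNReal.ofReal (4 * w)) (hsub : ∀ a ∈ G, ∀ y ∈ I, P a y ∈ B) :
    ∃ a ∈ G, ∫⁻ x in (fun y => P a y) '' I, ρ x ∂μH[1] ≤ ENNReal.ofReal (1 / 10) := by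
  obtain ⟨a, ha, h⟩ := avg (fun p => ρ (P p.1 p.2)) (hρ.comp mpP.measurable) G I hG w hw hGl hGu
    hIu ((setint_P ρ hρ B hB _ (fun p hp => hsub _ hp.1 _ hp.2)).trans hs)
  exact ⟨a, ha, by rw [line_int _ (isoV a)]; exact h⟩

lemma avgH (ρ : X → ℝ≥0∞) (hρ : Measurable ρ) (B : Set X) (hB : MeasurableSet B)
    (hs : ∫⁻ x in B, ρ x ^ 2 ≤ ENNReal.ofReal (1 / 10000))
    (G I : Set ℝ) (hG : MeasurableSet G)
    (w : ℝ) (hw : 0 < w) (hGl : ENNReal.ofReal (w / 4) ≤ volume G) (hGu : volume G ≠ ⊤)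
    (hIu : volume I ≤ ENNReal.ofReal (4 * w)) (hsub : ∀ b ∈ G, ∀ x ∈ I, P x b ∈ B) :
    ∃ b ∈ G, ∫⁻ x in (fun x => P x b) '' I, ρ x ∂μH[1] ≤ ENNReal.ofReal (1 / 10) := by
  have hm : Measurable (fun p : ℝ × ℝ => ρ (P p.1 p.2)) := hρ.comp mpP.measurable
  have hsw : MeasurePreserving (Prod.swap : ℝ × ℝ → ℝ × ℝ) volume volume := by
    rw [Measure.volume_eq_prod]
    exact Measure.measurePreserving_swap
  have hmp : MeasurePreserving (fun p : ℝ × ℝ => P p.2 p.1) volume volume := mpP.comp hsw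
  have h1 : ∫⁻ p in G ×ˢ I, ρ (P p.2 p.1) ^ 2 ≤ ∫⁻ x in B, ρ x ^ 2 := by
    rw [← hmp.setLIntegral_comp_preimage hB (hρ.pow_const 2)]
    exact lintegral_mono_set (fun p hp => hsub _ hp.1 _ hp.2)
  obtain ⟨b, hb, h⟩ := avg (fun p => ρ (P p.2 p.1)) (hρ.comp hmp.measurable) G I hG w hw hGl hGu
    hIu (h1.trans hs)
  exact ⟨b, hb, by rw [line_int _ (isoH b)]; exact h⟩

end Pool.Agent.H24.Gon
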