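import Pool.Agent.H24.Gon1

set_option autoImplicit false
open scoped ENNReal MeasureTheory Topology
open MeasureTheory Set Filter

namespace Pool.Agent.H24.Gon

def Box (w : ℝ) : Set X := {z | z 0 ∈ Icc (-1 : ℝ) 2 ∧ z 1 ∈ Icc (-w) w}

lemma cont0 : Continuous (fun z : X => z 0) := by fun_prop
lemma cont1 : Continuous (fun z : X => z 1) := by fun_prop

lemma box_meas (w : ℝ) : MeasurableSet (Box w) :=
  (measurableSet_Icc.preimage cont0.measurable).inter (measurableSet_Icc.preimage cont1.measurable)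

lemma box_vol (w : ℝ) : volume (Box w) = ENNReal.ofReal 3 * ENNReal.ofReal (2 * w) := by
  rw [← mpP.measure_preimage (box_meas w).nullMeasurableSet]
  have : (fun p : ℝ × ℝ => P p.1 p.2) ⁻¹' Box w = Icc (-1 : ℝ) 2 ×ˢ Icc (-w) w := rfl
  rw [this, Measure.volume_eq_prod, Measure.prod_prod, Real.volume_Icc, Real.volume_Icc]
  congr 2 <;> ring

lemma small_box (ρ : X → ℝ≥0∞) (hfin : ∫⁻ x, ρ x ^ 2 ≠ ⊤) (η : ℝ≥0∞) (hη : η ≠ 0) :
    ∃ w : ℝ, 0 < w ∧ w ≤ 1 / 4 ∧ ∫⁻ x in Box w, ρ x ^ 2 ≤ η := by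
  obtain ⟨δ, hδ, h⟩ := exists_pos_setLIntegral_lt_of_measure_lt hfin hη
  obtain ⟨n, hn, hlt⟩ := ENNReal.exists_nnreal_pos_mul_lt (a := 6) (by norm_num) hδ.ne'
  have hn' : (0 : ℝ) < n := hn
  refine ⟨min (n : ℝ) (1 / 4), lt_min hn' (by norm_num), min_le_right _ _, (h _ ?_).le⟩
  refine lt_of_le_of_lt ?_ hlt
  rw [box_vol, ← ENNReal.ofReal_mul (by norm_num)]
  have : ((n : ℝ≥0∞)) * 6 = ENNReal.ofReal (n * 6) := by
    rw [ENNReal.ofReal_mul hn'.le]
    simp
  rw [this]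
  apply ENNReal.ofReal_le_ofReal
  have := min_le_left (n : ℝ) (1 / 4)
  linarith

lemma fin_line (e : ℝ → X) (he : Isometry e) (c d : ℝ) :
    (μH[1] : Measure X) (e '' Icc c d) < ⊤ := by
  rw [line_meas e he, Real.volume_Icc]
  exact ENNReal.ofReal_lt_top

lemma not_one_le (s t u : ℝ) (hs : 0 ≤ s) (ht : 0 ≤ t) (hu : 0 ≤ u) (h : s + t + u < 1) :
    ¬ (1 : ℝ≥0∞) ≤ ENNReal.ofReal s + ENNReal.ofReal t + ENNReal.ofReal u := by
  rw [← ENNReal.ofReal_add hs ht, ← ENNReal.ofReal_add (by positivity) hu, not_le]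
  exact ENNReal.ofReal_lt_one.2 h

lemma caseA (E : Set X) (hEc : IsClosed E) (hE : E ⊆ {x | x 1 = 0 ∧ 0 ≤ x 0 ∧ x 0 ≤ 1})
    (ρ : X → ℝ≥0∞) (hρ : Measurable ρ) (hadm : Adm E ({x | x 1 = 0} \ E) ρ)
    (w0 : ℝ) (hw0 : 0 < w0) (hw1 : w0 ≤ 1 / 4)
    (hs : ∫⁻ x in Box w0, ρ x ^ 2 ≤ ENNReal.ofReal (1 / 10000))
    (hpos : volume {a : ℝ | P a 0 ∈ E} ≠ 0) : False := by
  set E' : Set ℝ := {a : ℝ | P a 0 ∈ E} with hE'
  have hE'm : MeasurableSet E' := (hEc.preimage (isoH 0).continuous).measurableSet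
  have hE'b : ∀ a ∈ E', 0 ≤ a ∧ a ≤ 1 := fun a ha => (hE ha).2
  have : (ae ((volume : Measure ℝ).restrict E')).NeBot := ae_restrict_neBot.2 hpos
  obtain ⟨x0, hx0⟩ := (Besicovitch.ae_tendsto_measure_inter_div (volume : Measure ℝ) E').exists
  have h1 : ∀ᶠ r in 𝓝[>] (0:ℝ), (1 / 2 : ℝ≥0∞) <
      volume (E' ∩ Metric.closedBall x0 r) / volume (Metric.closedBall x0 r) :=
    hx0.eventually (lt_mem_nhds (by norm_num))
  have h2 : ∀ᶠ r in 𝓝[>] (0:ℝ), r ∈ Ioo 0 (w0 / 2) := Ioo_mem_nhdsGT (by positivity)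
  obtain ⟨r, hr1, hr0, hr2⟩ := (h1.and h2).exists
  set w := 2 * r with hw
  have hwpos : 0 < w := by positivity
  have hww : w ≤ w0 := by linarith
  let p : ℕ → Prop := fun k =>
    volume (Icc (x0 - r + k * w) (x0 - r + k * w + w) ∩ E') < ENNReal.ofReal (w / 2)
  have hp0 : ¬ p 0 := by
    simp only [p, not_lt]
    rw [Real.volume_closedBall, Real.closedBall_eq_Icc] at hr1
    have h3 : Icc (x0 - r + ((0:ℕ):ℝ) * w) (x0 - r + ((0:ℕ):ℝ) * w + w) ∩ E'
        = E' ∩ Icc (x0 - r) (x0 + r) := by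
      rw [inter_comm]
      congr 2
      · simp
      · simp [hw]; ring
    rw [h3]
    have h4 := hr1.le
    rw [ENNReal.le_div_iff_mul_le (Or.inl (by simpa using hr0)) (Or.inl ENNReal.ofReal_ne_top)]
      at h4
    refine le_trans (le_of_eq ?_) h4
    rw [ENNReal.ofReal_div_of_pos (by norm_num), hw]
    simp [div_eq_mul_inv, mul_comm]
  have hpe : ∃ k, p k := by
    obtain ⟨k, hk⟩ := exists_nat_gt ((1 - (x0 - r)) / w)
    refine ⟨k, ?_⟩
    have : Icc (x0 - r + k * w) (x0 - r + k * w + w) ∩ E' = ∅ := by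
      ext a
      simp only [mem_inter_iff, mem_empty_iff_false, iff_false, not_and]
      intro ha ha'
      rw [div_lt_iff₀ hwpos] at hk
      linarith [(hE'b a ha').2, ha.1]
    simp only [p, this, measure_empty]
    exact ENNReal.ofReal_pos.2 (by positivity)
  obtain ⟨k, hk1, hk2⟩ := Nat.exists_not_and_succ_of_not_zero_of_exists hp0 hpe
  simp only [p, not_lt] at hk1 hk2
  set d := x0 - r + k * w with hd
  have hd2 : x0 - r + ((k + 1 : ℕ) : ℝ) * w = d + w := by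
    rw [hd]; push_cast; ring
  rw [hd2] at hk2
  have hvI : volume (Icc 0 w) ≤ ENNReal.ofReal (4 * w) := by
    rw [Real.volume_Icc]; exact ENNReal.ofReal_le_ofReal (by linarith)
  obtain ⟨a, ha, hca⟩ := avgV ρ hρ (Box w0) (box_meas w0) hs (Icc d (d + w) ∩ E') (Icc 0 w)
    (measurableSet_Icc.inter hE'm) w hwpos
    ((ENNReal.ofReal_le_ofReal (by linarith)).trans hk1)
    (ne_top_of_le_ne_top (by simp) (measure_mono inter_subset_left)) hvI
    (fun a ha y hy => ⟨⟨by simp; linarith [(hE'b a ha.2).1], by simp; linarith [(hE'b a ha.2).2]⟩,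
      ⟨by simp; linarith [hy.1], by simp; linarith [hy.2]⟩⟩)
  have hdl : -w ≤ d := by linarith [(hE'b a ha.2).1, ha.1.2]
  have hdu : d ≤ 1 := by linarith [(hE'b a ha.2).2, ha.1.1]
  have hG2 : ENNReal.ofReal (w / 4) ≤ volume (Icc (d + w) (d + w + w) \ E') := by
    by_contra hc
    push Not at hc
    have h5 := measure_inter_add_sdiff (μ := volume) (Icc (d + w) (d + w + w)) hE'm
    have h6 := add_le_add hk2.le hc.le
    rw [h5, Real.volume_Icc, ← ENNReal.ofReal_add (by positivity) (by positivity),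
      ENNReal.ofReal_le_ofReal_iff (by positivity)] at h6
    linarith
  obtain ⟨a', ha', hca'⟩ := avgV ρ hρ (Box w0) (box_meas w0) hs (Icc (d + w) (d + w + w) \ E')
    (Icc 0 w) (measurableSet_Icc.diff hE'm) w hwpos hG2
    (ne_top_of_le_ne_top (by simp) (measure_mono sdiff_subset)) hvI
    (fun a ha y hy => ⟨⟨by simp; linarith [ha.1.1], by simp; linarith [ha.1.2]⟩,
      ⟨by simp; linarith [hy.1], by simp; linarith [hy.2]⟩⟩)
  obtain ⟨b, hb, hcb⟩ := avgH ρ hρ (Box w0) (box_meas w0) hs (Icc (w / 2) w)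
    (Icc d (d + w + w)) measurableSet_Icc w hwpos
    (by rw [Real.volume_Icc]; exact ENNReal.ofReal_le_ofReal (by linarith))
    (by simp) (by rw [Real.volume_Icc]; exact ENNReal.ofReal_le_ofReal (by linarith))
    (fun b hb x hx => ⟨⟨by simp; linarith [hx.1], by simp; linarith [hx.2]⟩,
      ⟨by simp; linarith [hb.1], by simp; linarith [hb.2]⟩⟩)
  have hb0 : 0 < b := by linarith [hb.1]
  have haa : a ≠ a' := fun h => ha'.2 (h ▸ ha.2)
  have hIb : uIcc 0 b ⊆ Icc 0 w := uIcc_subset_Icc ⟨le_rfl, hwpos.le⟩ ⟨hb0.le, hb.2⟩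
  have A1 := arc_line _ (isoV a) 0 b hb0.ne (Icc 0 w) hIb
  have A2 := arc_line _ (isoH b) a a' haa (Icc d (d + w + w))
    (uIcc_subset_Icc ⟨ha.1.1, by linarith [ha.1.2]⟩ ⟨by linarith [ha'.1.1], ha'.1.2⟩)
  have A3 := arc_line _ (isoV a') b 0 hb0.ne' (Icc 0 w) (by rw [uIcc_comm]; exact hIb)
  have A12 := arc_trans A1 A2 (by
    rintro _ ⟨y, _, rfl⟩ ⟨x, _, hx⟩
    have h1 : b = y := congrArg (fun z : X => z 1) hx
    rw [h1])
  have A123 := arc_trans A12 A3 (by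
    rintro z (⟨y, _, rfl⟩ | ⟨x, _, rfl⟩) ⟨y', _, hx⟩
    · exact absurd (congrArg (fun z : X => z 0) hx).symm haa
    · have h1 : a' = x := congrArg (fun z : X => z 0) hx
      rw [h1])
  have hfin := adm_arc hadm A123 ha.2 ⟨rfl, ha'.2⟩ (measure_union_lt_top
    (measure_union_lt_top (fin_line _ (isoV a) _ _) (fin_line _ (isoH b) _ _))
    (fin_line _ (isoV a') _ _))
  refine not_one_le (1 / 10) (1 / 10) (1 / 10) (by norm_num) (by norm_num) (by norm_num)
    (by norm_num) (hfin.trans ((lintegral_union_le _ _ _).trans ?_))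
  exact add_le_add ((lintegral_union_le _ _ _).trans (add_le_add hca hcb)) hca'

lemma caseB (E : Set X) (hEc : IsClosed E) (hE : E ⊆ {x | x 1 = 0 ∧ 0 ≤ x 0 ∧ x 0 ≤ 1})
    (ρ : X → ℝ≥0∞) (hρ : Measurable ρ) (hadm : Adm E ({x | x 1 = 0} \ E) ρ)
    (w : ℝ) (hw : 0 < w) (hw1 : w ≤ 1 / 4)
    (hs : ∫⁻ x in Box w, ρ x ^ 2 ≤ ENNReal.ofReal (1 / 10000))
    (hzero : volume {a : ℝ | P a 0 ∈ E} = 0) :
    Adm E (Metric.sphere 0 2) (fun x => 2 * (Box w).indicator ρ x) := by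
  set E' : Set ℝ := {a : ℝ | P a 0 ∈ E} with hE'
  have hE'm : MeasurableSet E' := (hEc.preimage (isoH 0).continuous).measurableSet
  intro γ hinj h0 h1 hfin
  by_contra hlt
  push Not at hlt
  rw [lintegral_const_mul _ (hρ.indicator (box_meas w)), lintegral_indicator (box_meas w),
    Measure.restrict_restrict (box_meas w)] at hlt
  have hK : ∫⁻ x in Box w ∩ range γ, ρ x ∂μH[1] ≤ ENNReal.ofReal (1 / 2) := by
    by_contra hc
    push Not at hc
    have h2 : (2 : ℝ≥0∞) * ENNReal.ofReal (1 / 2) ≤ 2 * ∫⁻ x in Box w ∩ range γ, ρ x ∂μH[1] := by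
      gcongr
    have h3 : (2 : ℝ≥0∞) * ENNReal.ofReal (1 / 2) = 1 := by
      rw [ENNReal.ofReal_div_of_pos (by norm_num)]
      simp [ENNReal.mul_inv_cancel]
    rw [h3] at h2
    exact absurd hlt (not_lt.2 h2)
  let g : ℝ → X := IccExtend zero_le_one γ
  have hg : Continuous g := γ.continuous.Icc_extend'
  have hgm : ∀ t (ht : t ∈ Icc (0:ℝ) 1), g t = γ ⟨t, ht⟩ := fun t ht => IccExtend_of_mem _ _ ht
  have hgi : InjOn g (Icc 0 1) := by
    intro s hs t ht hst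
    rw [hgm s hs, hgm t ht] at hst
    exact congrArg Subtype.val (hinj hst)
  have hg0 : g 0 ∈ E := by rw [hgm 0 ⟨le_rfl, zero_le_one⟩]; exact h0
  have hg1 : g 1 ∈ Metric.sphere (0 : X) 2 := by rw [hgm 1 ⟨zero_le_one, le_rfl⟩]; exact h1
  have hgr : ∀ t, g t ∈ range γ := fun t => ⟨_, rfl⟩
  set x := g 0 0 with hx
  have hy0 : g 0 1 = 0 := (hE hg0).1
  have hx0 : 0 ≤ x := (hE hg0).2.1
  have hx1 : x ≤ 1 := (hE hg0).2.2
  have hxE : x ∈ E' := by
    have := eq_P (g 0)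
    rw [hy0] at this
    show P (g 0 0) 0 ∈ E
    rw [← this]
    exact hg0
  let N : ℝ → ℝ := fun t => max |g t 0 - x| |g t 1|
  have hN : Continuous N := ((cont0.comp hg).sub continuous_const).abs.max (cont1.comp hg).abs
  have hN0 : N 0 = 0 := by simp [N, hy0, ← hx]
  have hN1 : w ≤ N 1 := by
    by_contra hc
    push Not at hc
    have h2 : |g 1 0 - x| < w := lt_of_le_of_lt (le_max_left _ _) hc
    have h3 : |g 1 1| < w := lt_of_le_of_lt (le_max_right _ _) hc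
    rw [abs_lt] at h2 h3
    rw [Metric.mem_sphere, dist_sq] at hg1
    have h4 : (g 1 0 - (0 : X) 0) ^ 2 + (g 1 1 - (0 : X) 1) ^ 2 = 4 := by
      have := Real.sq_sqrt (x := (g 1 0 - (0 : X) 0) ^ 2 + (g 1 1 - (0 : X) 1) ^ 2)
        (by positivity)
      rw [hg1] at this
      linarith
    simp only [PiLp.zero_apply, sub_zero] at h4
    nlinarith [h2.1, h2.2, h3.1, h3.2]
  obtain ⟨T, hT, hNT, hTmin⟩ := first_hit N hN 1 zero_le_one w
    (by rw [hN0]; exact mem_uIcc_of_le hw.le hN1)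
  have hNle : ∀ t ∈ Icc 0 T, N t ≤ w := by
    intro t ht
    by_contra hc
    push Not at hc
    obtain ⟨s, hs, hNs, -⟩ := first_hit N hN t ht.1 w
      (by rw [hN0]; exact mem_uIcc_of_le hw.le hc.le)
    have hst : s ≠ t := fun h => by rw [h] at hNs; linarith
    exact hTmin s ⟨hs.1, lt_of_lt_of_le (lt_of_le_of_ne hs.2 hst) ht.2⟩ hNs
  have hX : ∀ t ∈ Icc 0 T, x - w ≤ g t 0 ∧ g t 0 ≤ x + w := by
    intro t ht
    have := abs_le.1 ((le_max_left _ _).trans (hNle t ht))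
    constructor <;> linarith [this.1, this.2]
  have hY : ∀ t ∈ Icc 0 T, -w ≤ g t 1 ∧ g t 1 ≤ w := fun t ht =>
    abs_le.1 ((le_max_right _ _).trans (hNle t ht))
  have hsub : ∀ τ ∈ Icc 0 T, g '' Icc 0 τ ⊆ Box w ∩ range γ := by
    rintro τ hτ _ ⟨t, ht, rfl⟩
    have ht' : t ∈ Icc 0 T := ⟨ht.1, ht.2.trans hτ.2⟩
    exact ⟨⟨⟨by linarith [(hX t ht').1], by linarith [(hX t ht').2]⟩, hY t ht'⟩, hgr t⟩
  have hcost : ∀ τ ∈ Icc 0 T, ∫⁻ x in g '' Icc 0 τ, ρ x ∂μH[1] ≤ ENNReal.ofReal (1 / 2) :=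
    fun τ hτ => (lintegral_mono_set (hsub τ hτ)).trans hK
  have hfinτ : ∀ τ ∈ Icc 0 T, (μH[1] : Measure X) (g '' Icc 0 τ) < ⊤ := fun τ hτ =>
    lt_of_le_of_lt (measure_mono ((hsub τ hτ).trans inter_subset_right)) hfin
  have hT0 : T ∈ Icc 0 T := ⟨hT.1, le_rfl⟩
  have hvI : volume (Icc (-w) w) ≤ ENNReal.ofReal (4 * w) := by
    rw [Real.volume_Icc]; exact ENNReal.ofReal_le_ofReal (by linarith)
  rcases max_choice |g T 0 - x| |g T 1| with hc | hc
  · have hc' : |g T 0 - x| = w := hc.symm.trans hNT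
    have hvG : volume (uIcc x (g T 0) \ E') = ENNReal.ofReal w := by
      rw [measure_sdiff_null hzero, Real.volume_interval, hc']
    have hGs : uIcc x (g T 0) ⊆ Icc (x - w) (x + w) :=
      uIcc_subset_Icc ⟨by linarith, by linarith⟩ (hX T hT0)
    obtain ⟨a, ha, hca⟩ := avgV ρ hρ (Box w) (box_meas w) hs (uIcc x (g T 0) \ E') (Icc (-w) w)
      (measurableSet_uIcc.diff hE'm) w hw
      (by rw [hvG]; exact ENNReal.ofReal_le_ofReal (by linarith))
      (by rw [hvG]; exact ENNReal.ofReal_ne_top) hvI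
      (fun a ha y hy => ⟨⟨by simp; linarith [(hGs ha.1).1], by simp; linarith [(hGs ha.1).2]⟩, hy⟩)
    obtain ⟨τ, hτ, hτa, hτmin⟩ := first_hit (fun t => g t 0) (cont0.comp hg) T hT.1 a ha.1
    have hτ0 : 0 < τ := by
      rcases hτ.1.eq_or_lt with h | h
      · exfalso
        rw [← h] at hτa
        exact ha.2 (hτa ▸ hxE)
      · exact h
    have A1 := arc_init g hg hgi τ hτ0 (hτ.2.trans hT.2)
    have hgτ : g τ = P a (g τ 1) := by
      rw [← hτa]; exact eq_P _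
    by_cases hy : g τ 1 = 0
    · have := adm_arc hadm A1 hg0 ⟨hy, by rw [hgτ, hy]; exact ha.2⟩ (hfinτ τ hτ)
      refine not_one_le (1 / 2) 0 0 (by norm_num) le_rfl le_rfl (by norm_num) ?_
      simpa using this.trans (hcost τ hτ)
    · have A2 := arc_line _ (isoV a) (g τ 1) 0 hy (Icc (-w) w)
        (uIcc_subset_Icc (hY τ hτ) ⟨by linarith, hw.le⟩)
      rw [← hgτ] at A2
      have A12 := arc_trans A1 A2 (by
        rintro _ ⟨t, ht, rfl⟩ ⟨y, _, hy⟩
        have h1 : a = g t 0 := congrArg (fun z : X => z 0) hy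
        rcases ht.2.eq_or_lt with h | h
        · rw [h]
        · exact absurd h1.symm (hτmin t ⟨ht.1, h⟩))
      have := adm_arc hadm A12 hg0 ⟨rfl, ha.2⟩
        (measure_union_lt_top (hfinτ τ hτ) (fin_line _ (isoV a) _ _))
      refine not_one_le (1 / 2) (1 / 10) 0 (by norm_num) (by norm_num) le_rfl (by norm_num) ?_
      rw [ENNReal.ofReal_zero, add_zero]
      exact this.trans ((lintegral_union_le _ _ _).trans (add_le_add (hcost τ hτ) hca))
  · have hc' : |g T 1 - 0| = w := by rw [sub_zero]; exact hc.symm.trans hNT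
    have hvG : volume (uIcc 0 (g T 1) \ {0}) = ENNReal.ofReal w := by
      rw [measure_sdiff_null (measure_singleton _), Real.volume_interval, hc']
    have hGs : uIcc 0 (g T 1) ⊆ Icc (-w) w :=
      uIcc_subset_Icc ⟨by linarith, by linarith⟩ (hY T hT0)
    obtain ⟨b, hb, hcb⟩ := avgH ρ hρ (Box w) (box_meas w) hs (uIcc 0 (g T 1) \ {0})
      (Icc (x - w) (x + 2 * w))
      (measurableSet_uIcc.diff (measurableSet_singleton _)) w hw
      (by rw [hvG]; exact ENNReal.ofReal_le_ofReal (by linarith))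
      (by rw [hvG]; exact ENNReal.ofReal_ne_top)
      (by rw [Real.volume_Icc]; exact ENNReal.ofReal_le_ofReal (by linarith))
      (fun b hb y hy => ⟨⟨by simp; linarith [hy.1], by simp; linarith [hy.2]⟩, hGs hb.1⟩)
    have hvG2 : volume (Ioc (x + w) (x + 2 * w) \ E') = ENNReal.ofReal w := by
      rw [measure_sdiff_null hzero, Real.volume_Ioc]
      congr 1; ring
    obtain ⟨a, ha, hca⟩ := avgV ρ hρ (Box w) (box_meas w) hs (Ioc (x + w) (x + 2 * w) \ E')
      (Icc (-w) w) (measurableSet_Ioc.diff hE'm) w hw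
      (by rw [hvG2]; exact ENNReal.ofReal_le_ofReal (by linarith))
      (by rw [hvG2]; exact ENNReal.ofReal_ne_top) hvI
      (fun a ha y hy => ⟨⟨by simp; linarith [ha.1.1], by simp; linarith [ha.1.2]⟩, hy⟩)
    obtain ⟨τ, hτ, hτb, hτmin⟩ := first_hit (fun t => g t 1) (cont1.comp hg) T hT.1 b
      (by simp only [hy0]; exact hb.1)
    have hb0 : b ≠ 0 := hb.2
    have hτ0 : 0 < τ := by
      rcases hτ.1.eq_or_lt with h | h
      · exfalso
        rw [← h] at hτb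
        exact hb0 (hτb.symm.trans hy0)
      · exact h
    have A1 := arc_init g hg hgi τ hτ0 (hτ.2.trans hT.2)
    have hgτ : g τ = P (g τ 0) b := by
      rw [← hτb]; exact eq_P _
    have A2 := arc_line _ (isoH b) (g τ 0) a (by linarith [(hX τ hτ).2, ha.1.1] : g τ 0 < a).ne
      (Icc (x - w) (x + 2 * w))
      (uIcc_subset_Icc ⟨(hX τ hτ).1, by linarith [(hX τ hτ).2]⟩
        ⟨by linarith [ha.1.1], ha.1.2⟩)
    rw [← hgτ] at A2
    have A3 := arc_line _ (isoV a) b 0 hb0 (Icc (-w) w)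
      (uIcc_subset_Icc (hGs hb.1) ⟨by linarith, hw.le⟩)
    have A12 := arc_trans A1 A2 (by
      rintro _ ⟨t, ht, rfl⟩ ⟨y, _, hy⟩
      have h1 : b = g t 1 := congrArg (fun z : X => z 1) hy
      rcases ht.2.eq_or_lt with h | h
      · rw [h]
      · exact absurd h1.symm (hτmin t ⟨ht.1, h⟩))
    have A123 := arc_trans A12 A3 (by
      rintro z (⟨t, ht, rfl⟩ | ⟨x', _, rfl⟩) ⟨y', _, hx'⟩
      · exfalso
        have h1 : a = g t 0 := congrArg (fun z : X => z 0) hx'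
        linarith [(hX t ⟨ht.1, ht.2.trans hτ.2⟩).2, ha.1.1]
      · have h1 : a = x' := congrArg (fun z : X => z 0) hx'
        rw [h1])
    have := adm_arc hadm A123 hg0 ⟨rfl, ha.2⟩ (measure_union_lt_top
      (measure_union_lt_top (hfinτ τ hτ) (fin_line _ (isoH b) _ _)) (fin_line _ (isoV a) _ _))
    refine not_one_le (1 / 2) (1 / 10) (1 / 10) (by norm_num) (by norm_num) (by norm_num)
      (by norm_num) (this.trans ((lintegral_union_le _ _ _).trans ?_))
    exact add_le_add ((lintegral_union_le _ _ _).trans (add_le_add (hcost τ hτ) hcb)) hca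

theorem main (E : Set X) (hEc : IsCompact E) (hE : E ⊆ {x | x 1 = 0 ∧ 0 ≤ x 0 ∧ x 0 ≤ 1})
    (hpos : 0 < ⨅ (ρ : X → ℝ≥0∞) (_ : Measurable ρ) (_ : Adm E (Metric.sphere 0 2) ρ),
      ∫⁻ x, ρ x ^ 2) :
    (⨅ (ρ : X → ℝ≥0∞) (_ : Measurable ρ) (_ : Adm E ({x | x 1 = 0} \ E) ρ),
      ∫⁻ x, ρ x ^ 2) = ⊤ := by
  simp only [iInf_eq_top]
  intro ρ hρ hadm
  by_contra hfin
  obtain ⟨n, hn, hlt⟩ := ENNReal.exists_nnreal_pos_mul_lt (a := 4) (by norm_num) hpos.ne'
  obtain ⟨w, hw0, hw1, hs⟩ := small_box ρ hfin (min (n : ℝ≥0∞) (ENNReal.ofReal (1 / 10000)))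
    (lt_min (ENNReal.coe_pos.2 hn) (ENNReal.ofReal_pos.2 (by norm_num))).ne'
  by_cases hz : volume {a : ℝ | P a 0 ∈ E} = 0
  · have hB := caseB E hEc.isClosed hE ρ hρ hadm w hw0 hw1 (hs.trans (min_le_right _ _)) hz
    have hm : Measurable (fun x => 2 * (Box w).indicator ρ x) :=
      (hρ.indicator (box_meas w)).const_mul 2
    have h1 : (⨅ (ρ : X → ℝ≥0∞) (_ : Measurable ρ) (_ : Adm E (Metric.sphere 0 2) ρ),
        ∫⁻ x, ρ x ^ 2) ≤ ∫⁻ x, (2 * (Box w).indicator ρ x) ^ 2 :=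
      iInf_le_of_le _ (iInf_le_of_le hm (iInf_le_of_le hB le_rfl))
    have h2 : ∫⁻ x, (2 * (Box w).indicator ρ x) ^ 2 = 4 * ∫⁻ x in Box w, ρ x ^ 2 := by
      rw [← lintegral_indicator (box_meas w), ← lintegral_const_mul _
        ((hρ.pow_const 2).indicator (box_meas w))]
      congr 1
      funext z
      by_cases hzB : z ∈ Box w
      · simp only [indicator_of_mem hzB]; ring
      · simp [indicator_of_notMem hzB]
    have h3 : 4 * ∫⁻ x in Box w, ρ x ^ 2 ≤ (n : ℝ≥0∞) * 4 := by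
      rw [mul_comm]
      gcongr
      exact hs.trans (min_le_left _ _)
    rw [h2] at h1
    exact absurd hlt (not_lt.2 (h1.trans h3))
  · exact caseA E hEc.isClosed hE ρ hρ hadm w hw0 hw1 (hs.trans (min_le_right _ _)) hz

end Pool.Agent.H24.Gon
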