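import Mathlib

open MeasureTheory Set Filter Topology Finset
open scoped ENNReal

namespace Pool.Agent.H24.Haar2

noncomputable abbrev nu : Measure ℝ := volume.restrict (Set.Icc (0:ℝ) 1)

instance : IsProbabilityMeasure nu := ⟨by simp⟩

noncomputable def d (k : ℕ) (x : ℝ) : ℕ := ⌊(2:ℝ) ^ k * x⌋₊

lemma d_meas (k : ℕ) : Measurable (d k) := Nat.measurable_floor.comp (by fun_prop)

lemma d_div {k K : ℕ} (h : k ≤ K) (x : ℝ) : d K x / 2 ^ (K - k) = d k x := by
  unfold d
  rw [← Nat.floor_div_natCast]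
  congr 1
  obtain ⟨m, rfl⟩ := Nat.exists_eq_add_of_le h
  rw [Nat.add_sub_cancel_left, pow_add]; push_cast; field_simp

lemma d_lt (k : ℕ) {x : ℝ} (h : x ∈ Set.Ico (0:ℝ) 1) : d k x < 2 ^ k := by
  unfold d
  rw [Nat.floor_lt (mul_nonneg (by positivity) h.1)]
  push_cast
  exact mul_lt_of_lt_one_right (by positivity) h.2

lemma ae_Ico : ∀ᵐ x ∂nu, x ∈ Set.Ico (0:ℝ) 1 := by
  rw [nu, ← restrict_Ico_eq_restrict_Icc]
  exact ae_restrict_mem measurableSet_Ico

lemma intF (K : ℕ) (F : ℕ → ℝ) :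
    ∫ x, F (d K x) ∂nu = (∑ u ∈ range (2 ^ K), F u) / 2 ^ K := by
  have hp : (0:ℝ) < 2 ^ K := by positivity
  have h1 : (fun x => F (d K x)) =ᵐ[nu] fun x => ∑ u ∈ range (2 ^ K),
      (Set.Ico ((u : ℝ) / 2 ^ K) ((u + 1) / 2 ^ K)).indicator (fun _ => F u) x := by
    filter_upwards [ae_Ico] with x hx
    have key : ∀ u : ℕ, x ∈ Set.Ico ((u : ℝ) / 2 ^ K) ((u + 1) / 2 ^ K) ↔ d K x = u := by
      intro u
      rw [d, Nat.floor_eq_iff (mul_nonneg hp.le hx.1), Set.mem_Ico, div_le_iff₀' hp, lt_div_iff₀' hp]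
    rw [Finset.sum_eq_single (d K x), indicator_of_mem ((key _).mpr rfl)]
    · intro u _ hu
      exact indicator_of_notMem (fun h => hu ((key u).mp h).symm) _
    · intro h; exact absurd (Finset.mem_range.mpr (d_lt K hx)) h
  rw [integral_congr_ae h1, integral_finsetSum _ fun u _ =>
    (integrable_const _).indicator measurableSet_Ico, Finset.sum_div]
  refine Finset.sum_congr rfl fun u hu => ?_
  have hu' : (u : ℝ) + 1 ≤ 2 ^ K := by exact_mod_cast Finset.mem_range.mp hu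
  rw [integral_indicator_const _ measurableSet_Ico, Measure.real,
    Measure.restrict_apply measurableSet_Ico, Set.inter_eq_left.mpr, Real.volume_Ico,
    ENNReal.toReal_ofReal (by rw [← sub_div, add_sub_cancel_left]; positivity), smul_eq_mul]
  · field_simp; ring
  · intro x hx
    exact ⟨le_trans (by positivity) hx.1, hx.2.le.trans ((div_le_one hp).mpr hu')⟩

def sg (u : ℕ) : ℝ := if u % 2 = 1 then 1 else -1

lemma sg_sq (u : ℕ) : sg u * sg u = 1 := by unfold sg; split_ifs <;> norm_num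

lemma sum_sg (G : ℕ → ℝ) (n : ℕ) : ∑ u ∈ range (2 * n), G (u / 2) * sg u = 0 := by
  induction n with
  | zero => simp
  | succ n ih =>
    rw [show 2 * (n + 1) = 2 * n + 1 + 1 by ring, Finset.sum_range_succ, Finset.sum_range_succ, ih,
      show (2 * n + 1) / 2 = n by omega, show 2 * n / 2 = n by omega, sg, sg,
      if_neg (by omega), if_pos (by omega)]
    ring

lemma int_sg (k : ℕ) (G : ℕ → ℝ) : ∫ x, G (d k x) * sg (d (k + 1) x) ∂nu = 0 := by
  have := intF (k + 1) fun u => G (u / 2) * sg u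
  rw [pow_succ' 2 k, sum_sg, zero_div] at this
  rw [← this]
  congr 1; ext x
  rw [← d_div (Nat.le_succ k) x]; simp

/-- Haar function of generation `k` and position `r` -/
noncomputable def hf (k r : ℕ) (x : ℝ) : ℝ :=
  √(2 ^ k) * (if d k x = r then 1 else 0) * sg (d (k + 1) x)

lemma hf_orth_lt {k l : ℕ} (h : k < l) (r s : ℕ) : ∫ x, hf k r x * hf l s x ∂nu = 0 := by
  rw [← int_sg l fun u => √(2 ^ k) * (if u / 2 ^ (l - k) = r then 1 else 0) *
    sg (u / 2 ^ (l - (k + 1))) * (√(2 ^ l) * if u = s then 1 else 0)]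
  congr 1; ext x
  rw [d_div h.le, d_div h, hf, hf]; ring

lemma hf_same (k r s : ℕ) (hr : r < 2 ^ k) :
    ∫ x, hf k r x * hf k s x ∂nu = if r = s then 1 else 0 := by
  have h : ∀ x, hf k r x * hf k s x =
      (fun u => if u = r then (if r = s then (2:ℝ) ^ k else 0) else 0) (d k x) := by
    intro x
    have h1 := sg_sq (d (k + 1) x)
    have h2 : √(2 ^ k) * √(2 ^ k) = (2:ℝ) ^ k := Real.mul_self_sqrt (by positivity)
    unfold hf
    by_cases a : d k x = r
    · by_cases b : r = s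
      · subst b
        simp only [a, if_true]
        linear_combination (2:ℝ) ^ k * h1 + sg (d (k + 1) x) * sg (d (k + 1) x) * h2
      · simp [a, b]
    · simp [a]
  simp only [h]
  rw [intF k (fun u => if u = r then (if r = s then (2:ℝ) ^ k else 0) else 0),
    Finset.sum_ite_eq' (range (2 ^ k)) r, if_pos (Finset.mem_range.mpr hr)]
  split_ifs <;> simp

lemma hf_meas (k r : ℕ) : Measurable (hf k r) :=
  (measurable_const.mul ((measurable_from_nat (f := fun u => if u = r then (1:ℝ) else 0)).comp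
    (d_meas k))).mul ((measurable_from_nat (f := sg)).comp (d_meas _))

lemma hf_bd (k r : ℕ) (x : ℝ) : ‖hf k r x‖ ≤ √(2 ^ k) := by
  unfold hf sg
  split_ifs <;> simp [abs_of_nonneg]

def Y (e : ℕ) : Set ℝ := Set.Ioc ((1 / 2) ^ (e + 1)) ((1 / 2) ^ e)

lemma Y_disj {e e' : ℕ} {y : ℝ} (h : y ∈ Y e) (h' : y ∈ Y e') : e = e' := by
  have key : ∀ a b : ℕ, y ∈ Y a → y ∈ Y b → ¬ a < b := fun a b ha hb hab =>
    absurd (ha.1.trans_le (hb.2.trans
      (pow_le_pow_of_le_one (by norm_num) (by norm_num) hab))) (lt_irrefl _)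
  have := key _ _ h h'
  have := key _ _ h' h
  omega

lemma Y_meas (e : ℕ) : nu (Y e) = ENNReal.ofReal ((1 / 2) ^ (e + 1)) := by
  rw [nu, Y, Measure.restrict_apply measurableSet_Ioc, Set.inter_eq_left.mpr, Real.volume_Ioc]
  · congr 1; ring
  · intro y hy
    exact ⟨le_trans (by positivity) hy.1.le, hy.2.trans (pow_le_one₀ (by norm_num) (by norm_num))⟩

noncomputable def g (e : ℕ) : ℝ → ℝ := (Y e).indicator fun _ => √(2 ^ (e + 1))

lemma g_meas (e : ℕ) : Measurable (g e) := measurable_const.indicator measurableSet_Ioc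

lemma g_bd (e : ℕ) (y : ℝ) : ‖g e y‖ ≤ √(2 ^ (e + 1)) := by
  unfold g
  by_cases h : y ∈ Y e
  · rw [indicator_of_mem h, Real.norm_of_nonneg (Real.sqrt_nonneg _)]
  · rw [indicator_of_notMem h]; simp

lemma g_ne {e : ℕ} {y : ℝ} (h : g e y ≠ 0) : y ∈ Y e := by
  by_contra hn; exact h (indicator_of_notMem hn _)

lemma g_orth (e e' : ℕ) : ∫ y, g e y * g e' y ∂nu = if e = e' then 1 else 0 := by
  split_ifs with h
  · subst h
    have : ∀ y, g e y * g e y = (Y e).indicator (fun _ => (2:ℝ) ^ (e + 1)) y := by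
      intro y
      unfold g
      by_cases h : y ∈ Y e
      · simp only [indicator_of_mem h]; exact Real.mul_self_sqrt (by positivity)
      · simp [indicator_of_notMem h]
    simp only [this]
    rw [integral_indicator_const _ (show MeasurableSet (Y e) from measurableSet_Ioc), Measure.real,
      Y_meas, ENNReal.toReal_ofReal (by positivity), smul_eq_mul, ← mul_pow]
    norm_num
  · have : ∀ y, g e y * g e' y = 0 := fun y => by
      by_contra hn
      exact h (Y_disj (g_ne (left_ne_zero_of_mul hn)) (g_ne (right_ne_zero_of_mul hn)))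
    simp [this]

lemma blocks : ∃ p : ℕ → ℕ, p 0 = 0 ∧ StrictMono p ∧
    ∀ j, (2:ℝ) ^ j ≤ ∑ k ∈ Finset.Ico (p j) (p (j + 1)), 1 / ((k:ℝ) + 1) := by
  have h : ∀ a j : ℕ, ∃ b, a < b ∧ (2:ℝ) ^ j ≤ ∑ k ∈ Finset.Ico a b, 1 / ((k:ℝ) + 1) := by
    intro a j
    obtain ⟨b, h1, h2⟩ := ((Real.tendsto_sum_range_one_div_nat_succ_atTop.eventually_ge_atTop
      (2 ^ j + ∑ k ∈ range a, 1 / ((k:ℝ) + 1))).and (eventually_gt_atTop a)).exists
    refine ⟨b, h2, ?_⟩
    rw [Finset.sum_Ico_eq_sub _ h2.le]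
    linarith
  choose f f1 f2 using h
  refine ⟨fun j => Nat.rec 0 (fun j a => f a j) j, rfl, strictMono_nat_of_lt_succ fun j => f1 _ _,
    fun j => f2 _ _⟩

lemma blk (p : ℕ → ℕ) (h0 : p 0 = 0) (hp : StrictMono p) : ∃ b : ℕ → ℕ,
    ∀ k j, b k = j ↔ p j ≤ k ∧ k < p (j + 1) := by
  have h : ∀ k, ∃ j, p j ≤ k ∧ k < p (j + 1) := by
    intro k
    induction k with
    | zero => exact ⟨0, h0.le, h0 ▸ hp (by norm_num)⟩
    | succ k ih =>
      obtain ⟨j, h1, h2⟩ := ih
      by_cases h3 : k + 1 < p (j + 1)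
      · exact ⟨j, by omega, h3⟩
      · have := hp (show j + 1 < j + 1 + 1 by omega)
        exact ⟨j + 1, by omega, by omega⟩
  choose b b1 b2 using h
  refine ⟨b, fun k j => ⟨fun h => h ▸ ⟨b1 k, b2 k⟩, fun ⟨h1, h2⟩ => ?_⟩⟩
  have a1 := hp.lt_iff_lt.mp ((b1 k).trans_lt h2)
  have a2 := hp.lt_iff_lt.mp (h1.trans_lt (b2 k))
  omega

end Pool.Agent.H24.Haar2
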