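import Mathlib

set_option autoImplicit false

namespace Pool.Agent.H24

open SimpleGraph

lemma ham_no_inner_edge {V : Type} [Fintype V] [DecidableEq V] (G : SimpleGraph V)
    (S T : Finset V) (hST : ∀ v ∈ S, v ∉ T) (hc : S.card = T.card + 1)
    (hT : ∀ t ∈ T, ∀ v, G.Adj t v → v ∈ S) (q : V) (hqS : q ∉ S) (hqT : q ∉ T)
    {u : V} (p : G.Walk u u) (hp : p.IsHamiltonianCycle) (a b : V) (ha : a ∈ S) (hb : b ∈ S) :
    s(a, b) ∉ p.edges := by
  intro he
  obtain ⟨i0, hi0, hs⟩ := (p.mk_mem_edges_iff_exists).mp he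
  have h0 : p.getVert i0 ∈ S ∧ p.getVert (i0 + 1) ∈ S := by
    rcases Sym2.eq_iff.mp hs with ⟨h1, h2⟩ | ⟨h1, h2⟩
    · rw [h1, h2]; exact ⟨ha, hb⟩
    · rw [h1, h2]; exact ⟨hb, ha⟩
  have h3 := hp.isCycle.three_le_length
  have surj : ∀ v, ∃ i, i < p.length ∧ p.getVert i = v := by
    intro v
    obtain ⟨i, hi, hl⟩ := Walk.mem_support_iff_exists_getVert.mp (hp.mem_support v)
    by_cases h : i < p.length
    · exact ⟨i, h, hi⟩
    · refine ⟨0, by omega, ?_⟩
      rw [← hi, show i = p.length by omega]; simp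
  set X := insert i0 ((Finset.range p.length).filter (fun i => p.getVert i ∈ T)) with hX
  set Y := (Finset.range p.length).filter (fun i => p.getVert (i + 1) ∈ S) with hY
  have cX : T.card + 1 ≤ X.card := by
    rw [hX, Finset.card_insert_of_notMem (by simp [hST _ h0.1])]
    apply Nat.succ_le_succ
    apply Finset.card_le_card_of_surjOn p.getVert
    intro v hv
    obtain ⟨i, hi, e⟩ := surj v
    exact ⟨i, by simp [hi, e]; exact hv, e⟩
  have cY : Y.card ≤ S.card := by
    apply Finset.card_le_card_of_injOn (fun i => p.getVert (i + 1))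
    · intro i hi
      simp only [hY, Finset.coe_filter, Set.mem_ofPred_eq] at hi
      exact hi.2
    · intro i hi j hj e
      simp only [hY, Finset.coe_filter, Set.mem_ofPred_eq, Finset.mem_range] at hi hj
      have : i + 1 = j + 1 := hp.isCycle.getVert_injOn
        (by simp only [Set.mem_ofPred_eq]; omega) (by simp only [Set.mem_ofPred_eq]; omega) e
      omega
  have XY : X ⊆ Y := by
    intro i hi
    simp only [hX, Finset.mem_insert, Finset.mem_filter, Finset.mem_range] at hi
    simp only [hY, Finset.mem_filter, Finset.mem_range]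
    rcases hi with rfl | ⟨h1, h2⟩
    · exact ⟨hi0, h0.2⟩
    · exact ⟨h1, hT _ h2 _ (p.adj_getVert_succ h1)⟩
  have YX : X = Y := Finset.eq_of_subset_of_card_le XY (by omega)
  have step : ∀ i, i < p.length → (p.getVert i ∉ S ∧ p.getVert i ∉ T) →
      (p.getVert (i + 1) ∉ S ∧ p.getVert (i + 1) ∉ T) := by
    intro i hi h
    constructor
    · intro hs
      have : i ∈ X := by rw [YX, hY]; simp [hi, hs]
      simp only [hX, Finset.mem_insert, Finset.mem_filter, Finset.mem_range] at this
      rcases this with rfl | ⟨_, h2⟩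
      · exact h.1 h0.1
      · exact h.2 h2
    · intro ht
      exact h.1 (hT _ ht _ (p.adj_getVert_succ hi).symm)
  have run : ∀ i, (p.getVert i ∉ S ∧ p.getVert i ∉ T) → ∀ j, i + j ≤ p.length →
      (p.getVert (i + j) ∉ S ∧ p.getVert (i + j) ∉ T) := by
    intro i h j
    induction j with
    | zero => intro _; exact h
    | succ j ih => intro hj; exact step (i + j) (by omega) (ih (by omega))
  obtain ⟨iq, hiq, eq⟩ := surj q
  have r1 := run iq (by rw [eq]; exact ⟨hqS, hqT⟩) (p.length - iq) (by omega)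
  rw [show iq + (p.length - iq) = p.length by omega, p.getVert_length] at r1
  have r2 := run 0 (by rw [p.getVert_zero]; exact r1) i0 (by omega)
  rw [zero_add] at r2
  exact r2.1 h0.1

/-- The example graph. -/
def spanG (K n : ℕ) : SimpleGraph (Fin n) where
  Adj i j := i ≠ j ∧ ((i.val % 2 = 0 ∧ i.val < 2 * K) ∨ (j.val % 2 = 0 ∧ j.val < 2 * K) ∨
    (2 * K ≤ i.val + 1 ∧ 2 * K ≤ j.val + 1))
  symm := ⟨fun i j h => ⟨h.1.symm, by tauto⟩⟩
  loopless := ⟨fun i h => h.1 rfl⟩

lemma spanG_ham (K m : ℕ) (_hK : 2 ≤ K) : (spanG K (m + 3)).IsHamiltonian := by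
  have hle : cycleGraph (m + 3) ≤ spanG K (m + 3) := by
    intro i j h
    refine ⟨h.ne, ?_⟩
    rw [cycleGraph_adj'] at h
    have hi := i.isLt
    have hj := j.isLt
    rcases h with h | h
    · by_cases hc : j ≤ i
      · rw [Fin.sub_val_of_le hc] at h
        omega
      · rw [Fin.coe_sub_iff_lt.mpr (not_le.mp hc)] at h
        have : i.val < j.val := not_le.mp hc
        omega
    · by_cases hc : i ≤ j
      · rw [Fin.sub_val_of_le hc] at h
        omega
      · rw [Fin.coe_sub_iff_lt.mpr (not_le.mp hc)] at h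
        have : j.val < i.val := not_le.mp hc
        omega
  refine IsHamiltonian.mono hle (fun _ => ⟨0, cycleGraph.cycle m, ?_⟩)
  rw [Walk.isHamiltonianCycle_iff_isCycle_and_length_eq]
  exact ⟨cycleGraph.isCycle_cycle, by simp⟩

lemma spanG_indep (K n : ℕ) : (spanG K n).indepNum ≤ 2 * K + 1 := by
  classical
  obtain ⟨s, hs⟩ := (spanG K n).exists_isNIndepSet_indepNum
  rw [← hs.card_eq]
  have e1 := Finset.card_filter_add_card_filter_not (s := s) (fun i => i.val < 2 * K)
  have e2 : (s.filter (fun i => i.val < 2 * K)).card ≤ 2 * K := by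
    rw [← Finset.card_range (2 * K)]
    apply Finset.card_le_card_of_injOn (fun i => i.val)
    · intro i hi
      simp only [Finset.coe_filter, Set.mem_ofPred_eq] at hi
      simpa using hi.2
    · intro i _ j _ e
      exact Fin.ext e
  have e3 : (s.filter (fun i => ¬ i.val < 2 * K)).card ≤ 1 := by
    rw [Finset.card_le_one]
    intro i hi j hj
    simp only [Finset.mem_filter] at hi hj
    by_contra hne
    exact hs.isIndepSet hi.1 hj.1 hne ⟨hne, Or.inr (Or.inr ⟨by omega, by omega⟩)⟩
  omega

lemma card_evens (K n : ℕ) (r : ℕ) (hr : r < 2) (h : 2 * K ≤ n) :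
    ((Finset.univ : Finset (Fin n)).filter (fun i => i.val % 2 = r ∧ i.val < 2 * K)).card = K := by
  conv_rhs => rw [← Finset.card_range K]
  apply Finset.card_bij (fun i _ => i.val / 2)
  · intro i hi
    simp only [Finset.mem_filter, Finset.mem_range] at hi ⊢
    omega
  · intro i hi j hj e
    simp only [Finset.mem_filter] at hi hj
    apply Fin.ext
    omega
  · intro b hb
    simp only [Finset.mem_range] at hb
    refine ⟨⟨2 * b + r, by omega⟩, ?_, ?_⟩
    · simp only [Finset.mem_filter, Finset.mem_univ, true_and]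
      omega
    · simp only
      omega

lemma spanG_conn (K n k : ℕ) (hk : k ≤ K) (h : 2 * K ≤ n) (R : Finset (Fin n)) (hR : R.card < k) :
    ((spanG K n).induce ((↑R : Set (Fin n))ᶜ)).Connected := by
  have hc := card_evens K n 0 (by norm_num) h
  obtain ⟨s, hs, hsR⟩ := Finset.exists_mem_notMem_of_card_lt_card (s := R)
    (t := (Finset.univ : Finset (Fin n)).filter (fun i => i.val % 2 = 0 ∧ i.val < 2 * K))
    (by omega)
  simp only [Finset.mem_filter, Finset.mem_univ, true_and] at hs
  rw [connected_iff_exists_forall_reachable]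
  refine ⟨⟨s, by simpa using hsR⟩, fun v => ?_⟩
  by_cases e : s = v.1
  · have : (⟨s, by simpa using hsR⟩ : ((↑R : Set (Fin n))ᶜ : Set (Fin n))) = v := Subtype.ext e
    rw [this]
  · exact Adj.reachable ⟨e, Or.inl hs⟩

end Pool.Agent.H24
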