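import Mathlib

namespace Pool.Agent.H24.Hlw1

def al (s m d : ℝ) : ℝ := (s + 1) * m + d
def be (s m d : ℝ) : ℝ := al s m d + (s + 2) * m
def tn (s m d : ℝ) : ℝ := al s m d + 2 * (s + 2) * m
def td (s m d : ℝ) : ℝ := al s m d * (al s m d + (s + 3) * m)
def den (s m d R D : ℝ) : ℝ :=
  (be s m d - m) ^ 2 * R + be s m d ^ 2 * D + m ^ 2 * (s + 2) * (2 * (s + 1) * m + d)
def G (s m d R D : ℝ) : ℝ :=
  (2 * R + D) * 2 * be s m d ^ 2 * td s m d - (tn s m d * (2 * R + D) + td s m d) * den s m d R D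

lemma conc (A B C a b x : ℝ) (hA : A ≤ 0) (ha : a ≤ x) (hb : x ≤ b)
    (fa : 0 ≤ A * a ^ 2 + B * a + C) (fb : 0 ≤ A * b ^ 2 + B * b + C) :
    0 ≤ A * x ^ 2 + B * x + C := by
  rcases eq_or_lt_of_le (ha.trans hb) with h | h
  · have : x = a := le_antisymm (h ▸ hb) ha
    rw [this]; exact fa
  · have h1 : (b - a) * (A * x ^ 2 + B * x + C) = (b - x) * (A * a ^ 2 + B * a + C) +
        (x - a) * (A * b ^ 2 + B * b + C) + (-A) * ((x - a) * (b - x) * (b - a)) := by ring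
    have h2 : 0 ≤ (b - a) * (A * x ^ 2 + B * x + C) := by
      rw [h1]
      have := sub_nonneg.2 ha
      have := sub_nonneg.2 hb
      have := sub_pos.2 h
      have := neg_nonneg.2 hA
      positivity
    exact nonneg_of_mul_nonneg_right h2 (sub_pos.2 h) |> fun h => h

variable {s m d : ℝ}

lemma al_pos (hs : 0 ≤ s) (hm : 0 < m) (hd : 0 ≤ d) : 0 < al s m d := by
  unfold al; positivity
lemma be_pos (hs : 0 ≤ s) (hm : 0 < m) (hd : 0 ≤ d) : 0 < be s m d := by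
  unfold be al; positivity
lemma tn_pos (hs : 0 ≤ s) (hm : 0 < m) (hd : 0 ≤ d) : 0 < tn s m d := by
  unfold tn al; positivity
lemma td_pos (hs : 0 ≤ s) (hm : 0 < m) (hd : 0 ≤ d) : 0 < td s m d := by
  unfold td al; positivity
lemma den_pos (hs : 0 ≤ s) (hm : 0 < m) (hd : 0 ≤ d) {R D : ℝ} (hR : 0 ≤ R) (hD : 0 ≤ D) :
    0 < den s m d R D := by
  unfold den; positivity

lemma concD (hs : 0 ≤ s) (hm : 0 < m) (hd : 0 ≤ d) (R D : ℝ) (h0 : 0 ≤ D) (h1 : D ≤ d)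
    (f0 : 0 ≤ G s m d R 0) (f1 : 0 ≤ G s m d R d) : 0 ≤ G s m d R D := by
  have e : ∀ x, G s m d R x = (-(tn s m d * be s m d ^ 2)) * x ^ 2 +
      (2 * be s m d ^ 2 * td s m d - tn s m d * den s m d R 0 -
        (tn s m d * (2 * R) + td s m d) * be s m d ^ 2) * x + G s m d R 0 := by
    intro x; unfold G den; ring
  rw [e D]
  refine conc _ _ _ 0 d D ?_ h0 h1 ?_ ?_
  · have := tn_pos hs hm hd
    have : 0 ≤ tn s m d * be s m d ^ 2 := by positivity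
    linarith
  · rw [← e]; exact f0
  · rw [← e]; exact f1

lemma concR (hs : 0 ≤ s) (hm : 0 < m) (hd : 0 ≤ d) (a b R D : ℝ) (h0 : a ≤ R) (h1 : R ≤ b)
    (f0 : 0 ≤ G s m d a D) (f1 : 0 ≤ G s m d b D) : 0 ≤ G s m d R D := by
  have e : ∀ x, G s m d x D = (-(2 * tn s m d * (be s m d - m) ^ 2)) * x ^ 2 +
      (4 * be s m d ^ 2 * td s m d - 2 * tn s m d * den s m d 0 D -
        (tn s m d * D + td s m d) * (be s m d - m) ^ 2) * x + G s m d 0 D := by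
    intro x; unfold G den; ring
  rw [e R]
  refine conc _ _ _ a b R ?_ h0 h1 ?_ ?_
  · have := tn_pos hs hm hd
    have : 0 ≤ 2 * tn s m d * (be s m d - m) ^ 2 := by positivity
    linarith
  · rw [← e]; exact f0
  · rw [← e]; exact f1

lemma c1 : G s m d ((s + 2) * m) d = 0 := by unfold G den td tn be al; ring

lemma c2 (hs : 0 ≤ s) (hm : 0 < m) (hd : 0 ≤ d) : 0 ≤ G s m d ((s + 2) * m) 0 := by
  have : G s m d ((s + 2) * m) 0 = 204*s^0*d^1*m^4 + 194*s^0*d^2*m^3 + 60*s^0*d^3*m^2 + 6*s^0*d^4*m^1 + 502*s^1*d^1*m^4 + 347*s^1*d^2*m^3 + 68*s^1*d^3*m^2 + 3*s^1*d^4*m^1 + 460*s^2*d^1*m^4 + 205*s^2*d^2*m^3 + 19*s^2*d^3*m^2 + 186*s^3*d^1*m^4 + 40*s^3*d^2*m^3 + 28*s^4*d^1*m^4 := by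
    unfold G den td tn be al; ring
  rw [this]; positivity

lemma Gmul (r D : ℝ) (h : tn s m d ≠ 0) : tn s m d ^ 2 * G s m d (r / tn s m d) D =
    (2 * r + D * tn s m d) * 2 * be s m d ^ 2 * td s m d * tn s m d -
    (tn s m d * (2 * r + D * tn s m d) + td s m d * tn s m d) *
    ((be s m d - m) ^ 2 * r +
      (be s m d ^ 2 * D + m ^ 2 * (s + 2) * (2 * (s + 1) * m + d)) * tn s m d) := by
  unfold G den; field_simp; ring

lemma c3 (hs : 0 ≤ s) (hm : 0 < m) (hd : 0 ≤ d) :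
    0 ≤ G s m d (2 * (s + 2) * (s + 1) * m ^ 2 / tn s m d) 0 := by
  have ht := tn_pos hs hm hd
  have : tn s m d ^ 2 * G s m d (2 * (s + 2) * (s + 1) * m ^ 2 / tn s m d) 0 = 720*s^0*d^0*m^7 + 2964*s^0*d^1*m^6 + 2714*s^0*d^2*m^5 + 1010*s^0*d^3*m^4 + 166*s^0*d^4*m^3 + 10*s^0*d^5*m^2 + 3792*s^1*d^0*m^7 + 12654*s^1*d^1*m^6 + 9663*s^1*d^2*m^5 + 2941*s^1*d^3*m^4 + 381*s^1*d^4*m^3 + 17*s^1*d^5*m^2 + 8276*s^2*d^0*m^7 + 22006*s^2*d^1*m^6 + 13375*s^2*d^2*m^5 + 3072*s^2*d^3*m^4 + 269*s^2*d^4*m^3 + 6*s^2*d^5*m^2 + 9696*s^3*d^0*m^7 + 19966*s^3*d^1*m^6 + 9033*s^3*d^2*m^5 + 1379*s^3*d^3*m^4 + 60*s^3*d^4*m^3 + 6584*s^4*d^0*m^7 + 9982*s^4*d^1*m^6 + 2987*s^4*d^2*m^5 + 226*s^4*d^3*m^4 + 2592*s^5*d^0*m^7 + 2612*s^5*d^1*m^6 + 388*s^5*d^2*m^5 + 548*s^6*d^0*m^7 + 280*s^6*d^1*m^6 + 48*s^7*d^0*m^7 := by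
    rw [Gmul _ _ ht.ne']; unfold td tn be al; ring
  exact nonneg_of_mul_nonneg_right (by rw [this]; positivity) (pow_pos ht 2) |> fun h => h

lemma c4 (hs : 0 ≤ s) (hm : 0 < m) (hd : 0 ≤ d) :
    0 ≤ G s m d (2 * (s + 2) * (s + 1) * m ^ 2 / tn s m d) d := by
  have ht := tn_pos hs hm hd
  have : tn s m d ^ 2 * G s m d (2 * (s + 2) * (s + 1) * m ^ 2 / tn s m d) d = 720*s^0*d^0*m^7 + 1164*s^0*d^1*m^6 + 644*s^0*d^2*m^5 + 148*s^0*d^3*m^4 + 12*s^0*d^4*m^3 + 3792*s^1*d^0*m^7 + 5494*s^1*d^1*m^6 + 2886*s^1*d^2*m^5 + 702*s^1*d^3*m^4 + 82*s^1*d^4*m^3 + 4*s^1*d^5*m^2 + 8276*s^2*d^0*m^7 + 10208*s^2*d^1*m^6 + 4534*s^2*d^2*m^5 + 902*s^2*d^3*m^4 + 78*s^2*d^4*m^3 + 2*s^2*d^5*m^2 + 9696*s^3*d^0*m^7 + 9636*s^3*d^1*m^6 + 3286*s^3*d^2*m^5 + 450*s^3*d^3*m^4 + 20*s^3*d^4*m^3 + 6584*s^4*d^0*m^7 + 4908*s^4*d^1*m^6 + 1126*s^4*d^2*m^5 + 78*s^4*d^3*m^4 + 2592*s^5*d^0*m^7 + 1286*s^5*d^1*m^6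 + 148*s^5*d^2*m^5 + 548*s^6*d^0*m^7 + 136*s^6*d^1*m^6 + 48*s^7*d^0*m^7 := by
    rw [Gmul _ _ ht.ne']; unfold td tn be al; ring
  exact nonneg_of_mul_nonneg_right (by rw [this]; positivity) (pow_pos ht 2) |> fun h => h

lemma G_nonneg (hs : 0 ≤ s) (hm : 0 < m) (hd : 0 ≤ d) (R D : ℝ)
    (h0 : 2 * (s + 2) * (s + 1) * m ^ 2 / tn s m d ≤ R) (h1 : R ≤ (s + 2) * m)
    (h2 : 0 ≤ D) (h3 : D ≤ d) : 0 ≤ G s m d R D :=
  concR hs hm hd _ _ R D h0 h1 (concD hs hm hd _ D h2 h3 (c3 hs hm hd) (c4 hs hm hd))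
    (concD hs hm hd _ D h2 h3 (c2 hs hm hd) c1.ge)

/-- The pointwise inequality in case B. -/
lemma key (hs : 0 ≤ s) (hm : 0 < m) (hd : 0 ≤ d) (R D K e : ℝ)
    (h0 : 2 * (s + 2) * (s + 1) * m ^ 2 / tn s m d ≤ R) (h1 : R ≤ (s + 2) * m)
    (h2 : 0 ≤ D) (h3 : D ≤ d) (he : 0 ≤ e)
    (hK : ∀ l : ℝ, 2 * l * be s m d - l ^ 2 * (den s m d R D - e) ≤ K) :
    (2 * R + D) * (tn s m d / td s m d) + 1 ≤ (2 * R + D) * (2 * K) ∧
    (0 < e → (2 * R + D) * (tn s m d / td s m d) + 1 < (2 * R + D) * (2 * K)) := by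
  have ht := tn_pos hs hm hd
  have htd := td_pos hs hm hd
  have hb := be_pos hs hm hd
  have hR : 0 < R := lt_of_lt_of_le (by positivity) h0
  have hden := den_pos hs hm hd hR.le h2
  have hG := G_nonneg hs hm hd R D h0 h1 h2 h3
  have hρ : 0 < 2 * R + D := by positivity
  have h4 := hK (be s m d / den s m d R D)
  have h5 : 2 * (be s m d / den s m d R D) * be s m d -
      (be s m d / den s m d R D) ^ 2 * (den s m d R D - e) =
      be s m d ^ 2 / den s m d R D + (be s m d / den s m d R D) ^ 2 * e := by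
    field_simp; ring
  rw [h5] at h4
  have h6 : (2 * R + D) * (2 * (be s m d ^ 2 / den s m d R D)) -
      ((2 * R + D) * (tn s m d / td s m d) + 1) = G s m d R D / (td s m d * den s m d R D) := by
    unfold G; field_simp
  have h7 : 0 ≤ G s m d R D / (td s m d * den s m d R D) := by positivity
  have h8 : (2 * R + D) * (2 * (be s m d ^ 2 / den s m d R D +
      (be s m d / den s m d R D) ^ 2 * e)) ≤ (2 * R + D) * (2 * K) :=
    mul_le_mul_of_nonneg_left (by linarith) hρ.le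
  constructor
  · have : 0 ≤ (2 * R + D) * (2 * ((be s m d / den s m d R D) ^ 2 * e)) := by positivity
    nlinarith
  · intro he'
    have : 0 < (2 * R + D) * (2 * ((be s m d / den s m d R D) ^ 2 * e)) := by positivity
    nlinarith

/-- Case A. -/
lemma keyA (hs : 0 ≤ s) (hm : 0 < m) (hd : 0 ≤ d) (R D K : ℝ)
    (h0 : R < 2 * (s + 2) * (s + 1) * m ^ 2 / tn s m d) (h3 : D ≤ d)
    (hK : ∀ l : ℝ, 2 * l - l ^ 2 * (R + D) ≤ K) : tn s m d / td s m d < K := by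
  have ht := tn_pos hs hm hd
  have htd := td_pos hs hm hd
  have h1 : 2 * (s + 2) * (s + 1) * m ^ 2 / tn s m d + d = td s m d / tn s m d := by
    field_simp; unfold td tn al; ring
  have h2 : R + D < td s m d / tn s m d := by linarith
  have h4 := hK (tn s m d / td s m d)
  have h5 : 0 < tn s m d / td s m d := by positivity
  have h6 : (tn s m d / td s m d) ^ 2 * (R + D) <
      (tn s m d / td s m d) ^ 2 * (td s m d / tn s m d) :=
    mul_lt_mul_of_pos_left h2 (by positivity)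
  have h7 : (tn s m d / td s m d) ^ 2 * (td s m d / tn s m d) = tn s m d / td s m d := by
    field_simp
  linarith

end Pool.Agent.H24.Hlw1
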