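import Mathlib
import Pool.Agent.H24.Hlw1

namespace Pool.Agent.H24.Hlw2

open Finset Matrix Pool.Agent.H24.Hlw1

variable {n : ℕ}

def O (J : Matrix (Fin n) (Fin n) ℝ) (i j : Fin n) : ℝ := if i = j then 0 else J i j
def Rw (J : Matrix (Fin n) (Fin n) ℝ) (i : Fin n) : ℝ := ∑ j, O J i j
def Dm (J : Matrix (Fin n) (Fin n) ℝ) (i : Fin n) : ℝ := J i i - Rw J i
def q (J : Matrix (Fin n) (Fin n) ℝ) (x : Fin n → ℝ) : ℝ := ∑ i, ∑ j, J i j * x i * x j

lemma Rw_eq (J : Matrix (Fin n) (Fin n) ℝ) (i : Fin n) :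
    Rw J i = ∑ j ∈ univ.erase i, J i j := by
  unfold Rw
  rw [← Finset.add_sum_erase univ _ (mem_univ i)]
  simp only [O, if_true, zero_add]
  exact Finset.sum_congr rfl fun j hj => if_neg (Finset.ne_of_mem_erase hj).symm

lemma split (J : Matrix (Fin n) (Fin n) ℝ) (i : Fin n) (f : Fin n → ℝ) :
    ∑ j, J i j * f j = J i i * f i + ∑ j, O J i j * f j := by
  have : ∀ j, J i j * f j = (if i = j then J i i * f i else 0) + O J i j * f j := by
    intro j; unfold O; by_cases h : i = j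
    · subst h; simp
    · simp [h]
  rw [Finset.sum_congr rfl fun j _ => this j, Finset.sum_add_distrib]
  simp

lemma O_symm {J : Matrix (Fin n) (Fin n) ℝ} (hJ : J.IsSymm) (i j : Fin n) : O J i j = O J j i := by
  unfold O; by_cases h : i = j
  · subst h; simp
  · rw [if_neg h, if_neg (Ne.symm h), hJ.apply]

lemma q_eq {J : Matrix (Fin n) (Fin n) ℝ} (hJ : J.IsSymm) (x : Fin n → ℝ) :
    2 * q J x = 2 * ∑ i, Dm J i * x i ^ 2 + ∑ i, ∑ j, O J i j * (x i + x j) ^ 2 := by
  have h1 : q J x = ∑ i, J i i * x i ^ 2 + ∑ i, ∑ j, O J i j * (x i * x j) := by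
    unfold q
    rw [← Finset.sum_add_distrib]
    refine Finset.sum_congr rfl fun i _ => ?_
    have := split J i (fun j => x i * x j)
    simp only [← mul_assoc] at this ⊢
    rw [this]; ring
  have h2 : ∑ i, ∑ j, O J i j * x i ^ 2 = ∑ i, Rw J i * x i ^ 2 :=
    Finset.sum_congr rfl fun i _ => by rw [Rw, Finset.sum_mul]
  have h3 : ∑ i, ∑ j, O J i j * x j ^ 2 = ∑ i, Rw J i * x i ^ 2 := by
    rw [Finset.sum_comm, ← h2]
    exact Finset.sum_congr rfl fun i _ => Finset.sum_congr rfl fun j _ => by rw [O_symm hJ]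
  have h4 : ∑ i, ∑ j, O J i j * (x i + x j) ^ 2 = ∑ i, ∑ j, O J i j * x i ^ 2 +
      ∑ i, ∑ j, O J i j * x j ^ 2 + 2 * ∑ i, ∑ j, O J i j * (x i * x j) := by
    simp only [Finset.mul_sum, ← Finset.sum_add_distrib]
    exact Finset.sum_congr rfl fun i _ => Finset.sum_congr rfl fun j _ => by ring
  have h5 : ∑ i, Dm J i * x i ^ 2 = ∑ i, J i i * x i ^ 2 - ∑ i, Rw J i * x i ^ 2 := by
    rw [← Finset.sum_sub_distrib]
    exact Finset.sum_congr rfl fun i _ => by unfold Dm; ring
  rw [h1, h4, h2, h3, h5]; ring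

structure Cl (m d : ℝ) (J : Matrix (Fin n) (Fin n) ℝ) : Prop where
  symm : J.IsSymm
  pos : ∀ i j, 0 < J i j
  le : ∀ i j, i ≠ j → J i j ≤ m
  d0 : ∀ i, 0 ≤ Dm J i
  d1 : ∀ i, Dm J i ≤ d

variable {m d : ℝ} {J : Matrix (Fin n) (Fin n) ℝ}

lemma O_nonneg (h : Cl m d J) (i j : Fin n) : 0 ≤ O J i j := by
  unfold O; split_ifs
  · exact le_rfl
  · exact (h.pos i j).le

lemma q_nonneg (h : Cl m d J) (x : Fin n → ℝ) : 0 ≤ q J x := by
  have := q_eq h.symm x
  have h1 : 0 ≤ ∑ i, Dm J i * x i ^ 2 :=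
    Finset.sum_nonneg fun i _ => mul_nonneg (h.d0 i) (sq_nonneg _)
  have h2 : 0 ≤ ∑ i, ∑ j, O J i j * (x i + x j) ^ 2 :=
    Finset.sum_nonneg fun i _ => Finset.sum_nonneg fun j _ =>
      mul_nonneg (O_nonneg h i j) (sq_nonneg _)
  linarith

lemma q_zero (hn : 3 ≤ n) (h : Cl m d J) (x : Fin n → ℝ) (hx : q J x = 0) : x = 0 := by
  have := q_eq h.symm x
  have h1 : 0 ≤ ∑ i, Dm J i * x i ^ 2 :=
    Finset.sum_nonneg fun i _ => mul_nonneg (h.d0 i) (sq_nonneg _)
  have hnn : ∀ i j, 0 ≤ O J i j * (x i + x j) ^ 2 := fun i j =>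
    mul_nonneg (O_nonneg h i j) (sq_nonneg _)
  have h2 : 0 ≤ ∑ i, ∑ j, O J i j * (x i + x j) ^ 2 :=
    Finset.sum_nonneg fun i _ => Finset.sum_nonneg fun j _ => hnn i j
  have h3 : ∑ i, ∑ j, O J i j * (x i + x j) ^ 2 = 0 := by linarith
  have h4 : ∀ i j, i ≠ j → x i + x j = 0 := by
    intro i j hij
    have h5 := (Finset.sum_eq_zero_iff_of_nonneg
      (fun i _ => Finset.sum_nonneg fun j _ => hnn i j)).1 h3 i (mem_univ i)
    have h6 := (Finset.sum_eq_zero_iff_of_nonneg (fun j _ => hnn i j)).1 h5 j (mem_univ j)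
    have h7 : 0 < O J i j := by unfold O; rw [if_neg hij]; exact h.pos i j
    exact pow_eq_zero_iff (two_ne_zero) |>.1 ((mul_eq_zero.1 h6).resolve_left h7.ne')
  funext i
  obtain ⟨j, k, hj, hk, hjk⟩ : ∃ j k : Fin n, j ≠ i ∧ k ≠ i ∧ j ≠ k := by
    have hc : 1 < (univ.erase i).card := by
      rw [Finset.card_erase_of_mem (mem_univ i), Finset.card_univ, Fintype.card_fin]; omega
    obtain ⟨j, hj, k, hk, hjk⟩ := Finset.one_lt_card.1 hc
    exact ⟨j, k, Finset.ne_of_mem_erase hj, Finset.ne_of_mem_erase hk, hjk⟩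
  have a1 := h4 j i hj
  have a2 := h4 k i hk
  have a3 := h4 j k hjk
  simp only [Pi.zero_apply]; linarith

lemma mul_inv (hn : 3 ≤ n) (h : Cl m d J) : J * J⁻¹ = 1 := by
  apply Matrix.mul_nonsing_inv
  rw [isUnit_iff_ne_zero]
  intro hd
  obtain ⟨v, hv, hJ⟩ := Matrix.exists_mulVec_eq_zero_iff.2 hd
  apply hv
  apply q_zero hn h
  unfold q
  apply Finset.sum_eq_zero
  intro i _
  have : ∑ j, J i j * v j = 0 := congrFun hJ i
  calc ∑ j, J i j * v i * v j = v i * ∑ j, J i j * v j := by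
        rw [Finset.mul_sum]; exact Finset.sum_congr rfl fun j _ => by ring
    _ = 0 := by rw [this, mul_zero]

lemma diag_ge (hn : 3 ≤ n) (h : Cl m d J) (i : Fin n) (x : Fin n → ℝ) (l : ℝ) :
    2 * l * x i - l ^ 2 * q J x ≤ J⁻¹ i i := by
  have hI : ∀ a, ∑ b, J a b * J⁻¹ b i = if a = i then 1 else 0 := by
    intro a
    have := congrFun (congrFun (mul_inv hn h) a) i
    rwa [Matrix.mul_apply, Matrix.one_apply] at this
  have h0 := q_nonneg h (fun a => l * x a - J⁻¹ a i)
  have e1 : ∀ f : Fin n → ℝ, ∑ a, ∑ b, J a b * f a * J⁻¹ b i = f i := by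
    intro f
    have : ∀ a, ∑ b, J a b * f a * J⁻¹ b i = f a * if a = i then 1 else 0 := by
      intro a; rw [← hI a, Finset.mul_sum]; exact Finset.sum_congr rfl fun b _ => by ring
    rw [Finset.sum_congr rfl fun a _ => this a]; simp
  have e2 : ∑ a, ∑ b, J a b * J⁻¹ a i * x b = x i := by
    rw [Finset.sum_comm, ← e1 x]
    exact Finset.sum_congr rfl fun a _ => Finset.sum_congr rfl fun b _ => by
      rw [h.symm.apply a b]; ring
  have e3 : q J (fun a => l * x a - J⁻¹ a i) = l ^ 2 * q J x -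
      l * ∑ a, ∑ b, J a b * x a * J⁻¹ b i - l * ∑ a, ∑ b, J a b * J⁻¹ a i * x b +
      ∑ a, ∑ b, J a b * J⁻¹ a i * J⁻¹ b i := by
    unfold q
    simp only [Finset.mul_sum, ← Finset.sum_add_distrib, ← Finset.sum_sub_distrib]
    exact Finset.sum_congr rfl fun a _ => Finset.sum_congr rfl fun b _ => by ring
  rw [e3, e1 x, e2, e1 (fun a => J⁻¹ a i)] at h0
  linarith

lemma row_eq (J : Matrix (Fin n) (Fin n) ℝ) (i : Fin n) :
    ∑ j, J i j = 2 * Rw J i + Dm J i := by
  have := split J i (fun _ => 1)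
  simp only [mul_one] at this
  rw [this]; unfold Dm Rw; ring

lemma q_test (hJ : J.IsSymm) (i : Fin n) (a b : ℝ) :
    q J (fun j => (if j = i then a else 0) - b) =
      a ^ 2 * J i i - 2 * a * b * (∑ j, J i j) + b ^ 2 * ∑ j, ∑ k, J j k := by
  have e : q J (fun j => (if j = i then a else 0) - b) =
      ∑ j, ∑ k, J j k * (if j = i then a else 0) * (if k = i then a else 0) -
      b * ∑ j, ∑ k, J j k * (if j = i then a else 0) -
      b * ∑ j, ∑ k, J j k * (if k = i then a else 0) + b ^ 2 * ∑ j, ∑ k, J j k := by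
    unfold q
    simp only [Finset.mul_sum, ← Finset.sum_add_distrib, ← Finset.sum_sub_distrib]
    exact Finset.sum_congr rfl fun a _ => Finset.sum_congr rfl fun b _ => by ring
  have e1 : ∑ j, ∑ k, J j k * (if j = i then a else 0) * (if k = i then a else 0) =
      a ^ 2 * J i i := by
    simp [Finset.sum_ite_eq']; ring
  have e2 : ∑ j, ∑ k, J j k * (if j = i then a else 0) = a * ∑ j, J i j := by
    rw [Finset.sum_comm]; simp [Finset.mul_sum, mul_comm]
  have e3 : ∑ j, ∑ k, J j k * (if k = i then a else 0) = a * ∑ j, J i j := by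
    simp only [mul_ite, mul_zero, Finset.sum_ite_eq', mem_univ, if_true, Finset.mul_sum]
    exact Finset.sum_congr rfl fun j _ => by rw [hJ.apply i j]; ring
  rw [e, e1, e2, e3]; ring

def df (m : ℝ) (J : Matrix (Fin n) (Fin n) ℝ) (i j : Fin n) : ℝ :=
  (if i = j then 0 else m) - O J i j

lemma df_nonneg (h : Cl m d J) (i j : Fin n) : 0 ≤ df m J i j := by
  unfold df O; by_cases hij : i = j
  · simp [hij]
  · simp [hij, h.le i j hij]

lemma df_row (m : ℝ) (J : Matrix (Fin n) (Fin n) ℝ) (i : Fin n) :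
    ∑ j, df m J i j = ((n : ℝ) - 1) * m - Rw J i := by
  unfold df Rw
  rw [Finset.sum_sub_distrib]
  congr 1
  have : ∀ j, (if i = j then (0 : ℝ) else m) = m - if i = j then m else 0 := by
    intro j; split_ifs <;> simp
  rw [Finset.sum_congr rfl fun j _ => this j, Finset.sum_sub_distrib]
  simp; ring

lemma df_two (h : Cl m d J) (i : Fin n) : 2 * ∑ j, df m J i j ≤ ∑ j, ∑ k, df m J j k := by
  rw [← Finset.add_sum_erase univ (fun j => ∑ k, df m J j k) (mem_univ i)]
  have h1 : ∑ j, df m J i j = ∑ j ∈ univ.erase i, df m J j i := by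
    rw [← Finset.add_sum_erase univ _ (mem_univ i)]
    have : df m J i i = 0 := by simp [df, O]
    rw [this, zero_add]
    refine Finset.sum_congr rfl fun j hj => ?_
    have hji := Finset.ne_of_mem_erase hj
    unfold df
    rw [if_neg hji, if_neg hji.symm, O_symm h.symm]
  have h2 : ∑ j ∈ univ.erase i, df m J j i ≤ ∑ j ∈ univ.erase i, ∑ k, df m J j k :=
    Finset.sum_le_sum fun j _ =>
      Finset.single_le_sum (f := fun k => df m J j k) (fun k _ => df_nonneg h j k) (mem_univ i)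
  linarith

theorem main (hn : 3 ≤ n) (hm : 0 < m) (hd : 0 ≤ d) (h : Cl m d J) (N : ℝ)
    (hN : ∀ i, ∑ j, |J⁻¹ i j| ≤ N) :
    tn ((n : ℝ) - 3) m d / td ((n : ℝ) - 3) m d ≤ N ∧
    (tn ((n : ℝ) - 3) m d / td ((n : ℝ) - 3) m d = N →
      (∀ i, Dm J i = d) ∧ ∀ i j, i ≠ j → J i j = m) := by
  have hn' : (3 : ℝ) ≤ n := by exact_mod_cast hn
  obtain ⟨s, hsn⟩ : ∃ s : ℝ, (n : ℝ) = s + 3 := ⟨n - 3, by ring⟩
  have hs : 0 ≤ s := by linarith
  rw [show (n : ℝ) - 3 = s by linarith]
  set t := tn s m d / td s m d with ht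
  have hKN : ∀ i, J⁻¹ i i ≤ N := fun i =>
    (le_abs_self _).trans ((Finset.single_le_sum (f := fun j => |J⁻¹ i j|)
      (fun j _ => abs_nonneg _) (mem_univ i)).trans (hN i))
  by_cases hA : ∃ i, Rw J i < 2 * (s + 2) * (s + 1) * m ^ 2 / tn s m d
  · obtain ⟨i, hi⟩ := hA
    have : t < J⁻¹ i i := by
      refine keyA hs hm hd (Rw J i) (Dm J i) _ hi (h.d1 i) fun l => ?_
      have h1 := diag_ge hn h i (fun j => (if j = i then 1 else 0) - 0) l
      rw [q_test h.symm] at h1
      have h2 : J i i = Rw J i + Dm J i := by unfold Dm; ring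
      simp only [if_true] at h1
      rw [← h2]; linarith
    have h3 : t < N := this.trans_le (hKN i)
    exact ⟨h3.le, fun e => absurd e h3.ne⟩
  · push Not at hA
    set a := ∑ j, (d - Dm J j) with ha
    set b := ∑ j, ∑ k, df m J j k with hb
    have ha0 : ∀ j, 0 ≤ d - Dm J j := fun j => sub_nonneg.2 (h.d1 j)
    have hrow0 : ∀ i, 0 ≤ ∑ j, df m J i j := fun i => Finset.sum_nonneg fun j _ => df_nonneg h i j
    let z : Fin n → ℝ := fun i => (d - Dm J i) + 4 * ∑ j, df m J i j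
    have hz : ∀ i, z i ≤ a + 2 * b := fun i => by
      have h1 : d - Dm J i ≤ a :=
        Finset.single_le_sum (f := fun j => d - Dm J j) (fun j _ => ha0 j) (mem_univ i)
      have h2 := df_two h i
      simp only [z]; linarith
    have hzs : ∑ i, z i = a + 4 * b := by
      simp only [z]; rw [Finset.sum_add_distrib, ← Finset.mul_sum]
    have hT : ∑ j, ∑ k, J j k = (s + 3) * d + 2 * (s + 3) * (s + 2) * m - (a + 2 * b) := by
      have h1 : a = (s + 3) * d - ∑ j, Dm J j := by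
        rw [ha, Finset.sum_sub_distrib]; simp [hsn]
      have h2 : b = (s + 3) * ((s + 2) * m) - ∑ j, Rw J j := by
        rw [hb, Finset.sum_congr rfl fun j _ => df_row m J j, Finset.sum_sub_distrib]
        simp [hsn]; left; left; ring
      rw [Finset.sum_congr rfl fun j _ => row_eq J j, Finset.sum_add_distrib, ← Finset.mul_sum,
        h1, h2]; ring
    have hkey : ∀ i, _ := fun i => key hs hm hd (Rw J i) (Dm J i) (J⁻¹ i i)
      (m ^ 2 * (a + 2 * b - z i)) (hA i) (by
        have := hrow0 i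
        rw [df_row, hsn] at this; linarith) (h.d0 i) (h.d1 i)
      (mul_nonneg (sq_nonneg m) (sub_nonneg.2 (hz i))) (fun l => by
        have h1 := diag_ge hn h i (fun j => (if j = i then be s m d + m else 0) - m) l
        rw [q_test h.symm, row_eq, hT] at h1
        have h2 : J i i = Rw J i + Dm J i := by unfold Dm; ring
        simp only [if_true] at h1
        rw [h2] at h1
        have h3 : z i = (d - Dm J i) + 4 * ((s + 2) * m - Rw J i) := by
          simp only [z]; rw [df_row, hsn]; ring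
        rw [h3]
        convert h1 using 2
        · ring
        · unfold den; ring)
    have hρ : ∀ i, 0 < 2 * Rw J i + Dm J i := fun i => by
      rw [← row_eq]
      exact Finset.sum_pos (fun j _ => h.pos i j) ⟨i, mem_univ i⟩
    have hrowK : ∀ i, 2 * J⁻¹ i i - ∑ j, J⁻¹ i j ≤ N := fun i => by
      refine le_trans ?_ (hN i)
      rw [← Finset.add_sum_erase univ (fun j => J⁻¹ i j) (mem_univ i),
        ← Finset.add_sum_erase univ (fun j => |J⁻¹ i j|) (mem_univ i)]
      have h1 : -∑ j ∈ univ.erase i, J⁻¹ i j ≤ ∑ j ∈ univ.erase i, |J⁻¹ i j| := by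
        rw [← Finset.sum_neg_distrib]
        exact Finset.sum_le_sum fun j _ => neg_le_abs _
      have h2 := le_abs_self (J⁻¹ i i)
      linarith
    have hsum : ∑ i, (2 * Rw J i + Dm J i) * ∑ j, J⁻¹ i j = ∑ _i : Fin n, (1 : ℝ) := by
      have h1 : ∀ i, (2 * Rw J i + Dm J i) * ∑ j, J⁻¹ i j = ∑ k, ∑ j, J k i * J⁻¹ i j := by
        intro i
        rw [← row_eq, Finset.sum_mul_sum]
        exact Finset.sum_congr rfl fun k _ => Finset.sum_congr rfl fun j _ => by
          rw [h.symm.apply i k]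
      rw [Finset.sum_congr rfl fun i _ => h1 i, Finset.sum_comm]
      refine Finset.sum_congr rfl fun k _ => ?_
      rw [Finset.sum_comm]
      have h2 : ∀ j, ∑ i, J k i * J⁻¹ i j = if k = j then 1 else 0 := by
        intro j
        have := congrFun (congrFun (mul_inv hn h) k) j
        rwa [Matrix.mul_apply, Matrix.one_apply] at this
      rw [Finset.sum_congr rfl fun j _ => h2 j]; simp
    have hTpos : 0 < ∑ i, (2 * Rw J i + Dm J i) :=
      Finset.sum_pos (fun i _ => hρ i) ⟨⟨0, by omega⟩, mem_univ _⟩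
    have hup : ∑ i, (2 * Rw J i + Dm J i) * (2 * J⁻¹ i i) - ∑ _i : Fin n, (1 : ℝ) ≤
        (∑ i, (2 * Rw J i + Dm J i)) * N := by
      rw [← hsum, ← Finset.sum_sub_distrib, Finset.sum_mul]
      exact Finset.sum_le_sum fun i _ => by
        rw [← mul_sub]; exact mul_le_mul_of_nonneg_left (hrowK i) (hρ i).le
    have hl : ∑ i, ((2 * Rw J i + Dm J i) * t + 1) =
        (∑ i, (2 * Rw J i + Dm J i)) * t + ∑ _i : Fin n, (1 : ℝ) := by
      rw [Finset.sum_add_distrib, Finset.sum_mul]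
    constructor
    · have h1 : ∑ i, ((2 * Rw J i + Dm J i) * t + 1) ≤
          ∑ i, (2 * Rw J i + Dm J i) * (2 * J⁻¹ i i) := Finset.sum_le_sum fun i _ => (hkey i).1
      exact le_of_mul_le_mul_left (by linarith) hTpos
    · intro e
      have ha1 : 0 ≤ a := Finset.sum_nonneg fun j _ => ha0 j
      have hb1 : 0 ≤ b := Finset.sum_nonneg fun j _ => hrow0 j
      have hall : ∀ i, z i = a + 2 * b := by
        intro i
        by_contra hne
        have hlt : 0 < a + 2 * b - z i := sub_pos.2 (lt_of_le_of_ne (hz i) hne)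
        have h1 : ∑ i, ((2 * Rw J i + Dm J i) * t + 1) <
            ∑ i, (2 * Rw J i + Dm J i) * (2 * J⁻¹ i i) :=
          Finset.sum_lt_sum (fun i _ => (hkey i).1)
            ⟨i, mem_univ i, (hkey i).2 (mul_pos (pow_pos hm 2) hlt)⟩
        rw [← e] at hup
        linarith
      have h2 : a + 4 * b = (s + 3) * (a + 2 * b) := by
        rw [← hzs, Finset.sum_congr rfl fun i _ => hall i]; simp [hsn]; ring
      have ha2 : a = 0 := by nlinarith
      have hb2 : b = 0 := by nlinarith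
      refine ⟨fun i => ?_, fun i j hij => ?_⟩
      · have := (Finset.sum_eq_zero_iff_of_nonneg (fun j _ => ha0 j)).1 ha2 i (mem_univ i)
        linarith
      · have h3 := (Finset.sum_eq_zero_iff_of_nonneg (fun j _ => hrow0 j)).1 hb2 i (mem_univ i)
        have h4 := (Finset.sum_eq_zero_iff_of_nonneg (fun j _ => df_nonneg h i j)).1 h3 j
          (mem_univ j)
        unfold df O at h4
        rw [if_neg hij, if_neg hij] at h4
        linarith

end Pool.Agent.H24.Hlw2
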