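import Mathlib

open MeasureTheory Finset
open scoped ComplexConjugate

namespace Pool.Agent.H24.HypA

variable {d : ℕ}

/-- normalised Haar measure on the torus -/
noncomputable def mu (d : ℕ) : Measure (UnitAddTorus (Fin d)) :=
  Measure.pi fun _ => AddCircle.haarAddCircle

instance (d : ℕ) : IsProbabilityMeasure (mu d) := by
  unfold mu; infer_instance

noncomputable abbrev e (k : Fin d → ℤ) (x : UnitAddTorus (Fin d)) : ℂ := UnitAddTorus.mFourier k x

lemma e_norm (k : Fin d → ℤ) (x : UnitAddTorus (Fin d)) : ‖e k x‖ = 1 := by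
  simp [e, UnitAddTorus.mFourier]

lemma e_cont (k : Fin d → ℤ) : Continuous (e k) := (UnitAddTorus.mFourier k).continuous

lemma e_sub (k l : Fin d → ℤ) (x : UnitAddTorus (Fin d)) : e (k - l) x = e k x * conj (e l x) := by
  rw [sub_eq_add_neg, e, UnitAddTorus.mFourier_add, UnitAddTorus.mFourier_neg]

lemma e_add (k l : Fin d → ℤ) (x : UnitAddTorus (Fin d)) : e (k + l) x = e k x * e l x :=
  UnitAddTorus.mFourier_add

lemma orth (k l : Fin d → ℤ) : ∫ x, e k x * conj (e l x) ∂mu d = if k = l then 1 else 0 := by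
  have h := (orthonormal_iff_ite.mp (UnitAddTorus.orthonormal_mFourier (d := Fin d))) l k
  simp only [ContinuousMap.inner_toLp] at h
  rw [show (if k = l then (1:ℂ) else 0) = if l = k then 1 else 0 by simp [eq_comm], ← h]
  rfl

lemma cont_int {f : UnitAddTorus (Fin d) → ℂ} (hf : Continuous f) : Integrable f (mu d) :=
  hf.integrable_of_hasCompactSupport (HasCompactSupport.of_compactSpace f)

lemma cont_intR {f : UnitAddTorus (Fin d) → ℝ} (hf : Continuous f) : Integrable f (mu d) :=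
  hf.integrable_of_hasCompactSupport (HasCompactSupport.of_compactSpace f)

noncomputable def co (f : UnitAddTorus (Fin d) → ℂ) (k : Fin d → ℤ) : ℂ :=
  ∫ x, f x * conj (e k x) ∂mu d

lemma co_int {f : UnitAddTorus (Fin d) → ℂ} (hf : Integrable f (mu d)) (k : Fin d → ℤ) :
    Integrable (fun x => f x * conj (e k x)) (mu d) :=
  hf.mul_bdd (c := 1) (Complex.continuous_conj.comp (e_cont k)).aestronglyMeasurable
    (Filter.Eventually.of_forall fun x => by simp [e_norm])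

noncomputable def ker (B : Finset (Fin d → ℤ))
    (z : UnitAddTorus (Fin d) × UnitAddTorus (Fin d)) : ℝ :=
  ‖∑ j ∈ B, conj (e j z.1) * e j z.2‖ ^ 2

lemma Q_eq {f : UnitAddTorus (Fin d) → ℂ} (hf : Integrable f (mu d)) (B : Finset (Fin d → ℤ)) :
    Integrable (fun z : UnitAddTorus (Fin d) × UnitAddTorus (Fin d) =>
      f z.1 * conj (f z.2) * (ker B z : ℂ)) ((mu d).prod (mu d)) ∧
    ((∑ j ∈ B, ∑ j' ∈ B, ‖co f (j - j')‖ ^ 2 : ℝ) : ℂ) =
      ∫ z, f z.1 * conj (f z.2) * (ker B z : ℂ) ∂((mu d).prod (mu d)) := by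
  have hI : ∀ k : Fin d → ℤ, Integrable (fun z : UnitAddTorus (Fin d) × UnitAddTorus (Fin d) =>
      (f z.1 * conj (e k z.1)) * conj (f z.2 * conj (e k z.2))) ((mu d).prod (mu d)) := by
    intro k
    exact (co_int hf k).mul_prod
      ((Complex.conjCLE : ℂ →L[ℝ] ℂ).integrable_comp (co_int hf k))
  have hpt : ∀ z : UnitAddTorus (Fin d) × UnitAddTorus (Fin d),
      f z.1 * conj (f z.2) * (ker B z : ℂ) = ∑ j ∈ B, ∑ j' ∈ B,
        (f z.1 * conj (e (j - j') z.1)) * conj (f z.2 * conj (e (j - j') z.2)) := by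
    intro z
    unfold ker
    rw [Complex.ofReal_pow, ← Complex.mul_conj', map_sum, Finset.sum_mul_sum, Finset.mul_sum]
    refine Finset.sum_congr rfl fun j _ => ?_
    rw [Finset.mul_sum]
    refine Finset.sum_congr rfl fun j' _ => ?_
    simp only [e_sub, map_mul, Complex.conj_conj]
    ring
  simp only [hpt]
  refine ⟨integrable_finsetSum _ fun j _ => integrable_finsetSum _ fun j' _ => hI _, ?_⟩
  rw [integral_finsetSum _ fun j _ => integrable_finsetSum _ fun j' _ => hI _]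
  push_cast
  refine Finset.sum_congr rfl fun j _ => ?_
  rw [integral_finsetSum _ fun j' _ => hI _]
  refine Finset.sum_congr rfl fun j' _ => ?_
  rw [integral_prod_mul (fun x => f x * conj (e (j - j') x))
    (fun x => conj (f x * conj (e (j - j') x))), integral_conj, Complex.mul_conj']
  rfl

lemma Q_mono {f : UnitAddTorus (Fin d) → ℂ} {F : UnitAddTorus (Fin d) → ℝ}
    (hf : Integrable f (mu d)) (hF : Integrable (fun x => (F x : ℂ)) (mu d))
    (h : ∀ x, ‖f x‖ ≤ F x) (B : Finset (Fin d → ℤ)) :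
    ∑ j ∈ B, ∑ j' ∈ B, ‖co f (j - j')‖ ^ 2 ≤
      ∑ j ∈ B, ∑ j' ∈ B, ‖co (fun x => (F x : ℂ)) (j - j')‖ ^ 2 := by
  obtain ⟨i1, h1⟩ := Q_eq hf B
  obtain ⟨i2, h2⟩ := Q_eq hF B
  have h1' := congrArg Complex.re h1
  have h2' := congrArg Complex.re h2
  rw [Complex.ofReal_re] at h1' h2'
  rw [h1', h2']
  have r1 := integral_re i1
  have r2 := integral_re i2
  simp only [RCLike.re_to_complex] at r1 r2
  rw [← r1, ← r2]
  refine integral_mono i1.re i2.re fun z => ?_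
  have hk : 0 ≤ ker B z := by unfold ker; positivity
  have e2 : ((F z.1 : ℂ) * conj (F z.2 : ℂ) * (ker B z : ℂ)).re = F z.1 * F z.2 * ker B z := by
    rw [Complex.conj_ofReal, ← Complex.ofReal_mul, ← Complex.ofReal_mul, Complex.ofReal_re]
  show (f z.1 * conj (f z.2) * (ker B z : ℂ)).re ≤ ((F z.1 : ℂ) * conj (F z.2 : ℂ) * (ker B z : ℂ)).re
  rw [e2]
  refine (Complex.re_le_norm _).trans ?_
  rw [norm_mul, norm_mul, Complex.norm_conj, Complex.norm_real, Real.norm_of_nonneg hk]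
  exact mul_le_mul_of_nonneg_right
    (mul_le_mul (h _) (h _) (norm_nonneg _) ((norm_nonneg _).trans (h _))) hk

noncomputable def cc (a : (Fin d → ℤ) → ℂ) (P R : Finset (Fin d → ℤ)) (k : Fin d → ℤ) : ℂ :=
  ∑ m ∈ P, ∑ l ∈ R, if m = l + k then a m * conj (a l) else 0

lemma cc_swap (a : (Fin d → ℤ) → ℂ) (P R : Finset (Fin d → ℤ)) (k : Fin d → ℤ) :
    ‖cc a P R k‖ = ‖cc a R P (-k)‖ := by
  rw [← Complex.norm_conj (cc a R P (-k))]
  congr 1
  unfold cc
  rw [map_sum, Finset.sum_comm]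
  refine Finset.sum_congr rfl fun l _ => ?_
  rw [map_sum]
  refine Finset.sum_congr rfl fun m _ => ?_
  by_cases h : m = l + k
  · rw [if_pos h, if_pos (by rw [h]; abel)]
    simp [mul_comm]
  · rw [if_neg h, if_neg (fun h' => h (by rw [h']; abel))]
    simp

lemma cc_sq (a : (Fin d → ℤ) → ℂ) (P R : Finset (Fin d → ℤ)) (k : Fin d → ℤ) :
    ‖cc a P R k‖ ^ 2 ≤ (∑ m ∈ P, ‖a m‖ ^ 2) * ∑ l ∈ R, if l + k ∈ P then ‖a l‖ ^ 2 else 0 := by
  have h1 : cc a P R k = ∑ l ∈ R.filter (fun l => l + k ∈ P), a (l + k) * conj (a l) := by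
    unfold cc
    rw [Finset.sum_comm, Finset.sum_filter]
    refine Finset.sum_congr rfl fun l _ => ?_
    rw [Finset.sum_ite_eq' P (l + k) (fun m => a m * conj (a l))]
  rw [h1, ← Finset.sum_filter]
  have h2 : ‖∑ l ∈ R.filter (fun l => l + k ∈ P), a (l + k) * conj (a l)‖ ≤
      ∑ l ∈ R.filter (fun l => l + k ∈ P), ‖a (l + k)‖ * ‖a l‖ :=
    (norm_sum_le _ _).trans (le_of_eq (by simp))
  refine (pow_le_pow_left₀ (norm_nonneg _) h2 2).trans ?_
  refine (Finset.sum_mul_sq_le_sq_mul_sq _ _ _).trans ?_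
  refine mul_le_mul_of_nonneg_right ?_ (by positivity)
  rw [← Finset.sum_image (s := R.filter (fun l => l + k ∈ P)) (g := fun l => l + k)
    (f := fun m => ‖a m‖ ^ 2) (fun x _ y _ h => add_right_cancel h)]
  refine Finset.sum_le_sum_of_subset_of_nonneg ?_ fun _ _ _ => by positivity
  intro m hm
  obtain ⟨l, hl, rfl⟩ := Finset.mem_image.mp hm
  exact (Finset.mem_filter.mp hl).2

lemma X_le (a : (Fin d → ℤ) → ℂ) (P R B : Finset (Fin d → ℤ)) (W : ℝ)
    (hW : ∀ v, ((B.filter (fun j => v + j ∈ P)).card : ℝ) ≤ W) :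
    ∑ j ∈ B, ∑ j' ∈ B, ‖cc a P R (j - j')‖ ^ 2 ≤
      (∑ m ∈ P, ‖a m‖ ^ 2) * (∑ l ∈ R, ‖a l‖ ^ 2) * (B.card * W) := by
  rw [Finset.sum_comm]
  have : ∀ j' ∈ B, ∑ j ∈ B, ‖cc a P R (j - j')‖ ^ 2 ≤
      (∑ m ∈ P, ‖a m‖ ^ 2) * (∑ l ∈ R, ‖a l‖ ^ 2) * W := by
    intro j' _
    refine (Finset.sum_le_sum fun j _ => cc_sq a P R (j - j')).trans ?_
    rw [← Finset.mul_sum, mul_assoc]
    refine mul_le_mul_of_nonneg_left ?_ (by positivity)
    rw [Finset.sum_comm, Finset.sum_mul]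
    refine Finset.sum_le_sum fun l _ => ?_
    rw [← Finset.sum_filter, Finset.sum_const, nsmul_eq_mul, mul_comm]
    refine mul_le_mul_of_nonneg_left ?_ (by positivity)
    have := hW (l - j')
    simpa only [show ∀ j : Fin d → ℤ, l - j' + j = l + (j - j') from fun j => by abel] using this
  refine (Finset.sum_le_sum this).trans (le_of_eq ?_)
  rw [Finset.sum_const, nsmul_eq_mul]; ring

lemma X_le' (a : (Fin d → ℤ) → ℂ) (P R B : Finset (Fin d → ℤ)) (W : ℝ)
    (hW : ∀ v, ((B.filter (fun j => v + j ∈ R)).card : ℝ) ≤ W) :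
    ∑ j ∈ B, ∑ j' ∈ B, ‖cc a P R (j - j')‖ ^ 2 ≤
      (∑ m ∈ P, ‖a m‖ ^ 2) * (∑ l ∈ R, ‖a l‖ ^ 2) * (B.card * W) := by
  have := X_le a R P B W hW
  rw [Finset.sum_comm] at this
  simp only [cc_swap a P R, neg_sub]
  exact this.trans (le_of_eq (by ring))

/-- Minkowski for double sums -/
lemma mink {ι κ : Type*} (B : Finset κ) (S : Finset ι) (f : ι → κ → κ → ℂ) (b : ι → ℝ)
    (hb : ∀ s ∈ S, 0 ≤ b s)
    (h : ∀ s ∈ S, ∑ j ∈ B, ∑ j' ∈ B, ‖f s j j'‖ ^ 2 ≤ b s ^ 2) :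
    ∑ j ∈ B, ∑ j' ∈ B, ‖∑ s ∈ S, f s j j'‖ ^ 2 ≤ (∑ s ∈ S, b s) ^ 2 := by
  let v : ι → EuclideanSpace ℂ (B × B) := fun s => WithLp.toLp 2 fun p => f s p.1 p.2
  have hn : ∀ g : κ → κ → ℂ, ‖(WithLp.toLp 2 fun p : B × B => g p.1 p.2 :
      EuclideanSpace ℂ (B × B))‖ ^ 2 = ∑ j ∈ B, ∑ j' ∈ B, ‖g j j'‖ ^ 2 := by
    intro g
    rw [EuclideanSpace.norm_sq_eq, Fintype.sum_prod_type]
    rw [← Finset.sum_coe_sort B]
    refine Finset.sum_congr rfl fun j _ => ?_
    rw [← Finset.sum_coe_sort B]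
  rw [← hn (fun j j' => ∑ s ∈ S, f s j j')]
  have e1 : (WithLp.toLp 2 fun p : B × B => ∑ s ∈ S, f s p.1 p.2 :
      EuclideanSpace ℂ (B × B)) = ∑ s ∈ S, v s := by
    ext p
    simp [v]
  rw [e1]
  refine pow_le_pow_left₀ (norm_nonneg _) ((norm_sum_le _ _).trans
    (Finset.sum_le_sum fun s hs => ?_)) 2
  refine (pow_le_pow_iff_left₀ (norm_nonneg _) (hb s hs) two_ne_zero).mp ?_
  rw [hn (f s)]
  exact h s hs

def lev (k : Fin d → ℤ) : Fin d → ℕ := fun i => Nat.size (k i).natAbs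

lemma lev_lt (k : Fin d → ℤ) (i : Fin d) : |k i| < 2 ^ lev k i := by
  have := Nat.lt_size_self (k i).natAbs
  rw [← Int.natCast_natAbs]
  exact_mod_cast this

lemma lev_le (k : Fin d → ℤ) (i : Fin d) : (2:ℤ) ^ lev k i ≤ 2 * max |k i| 1 := by
  unfold lev
  rcases h : Nat.size (k i).natAbs with _ | n
  · have := le_max_right |k i| 1
    simp only [pow_zero]; omega
  · have h2 : 2 ^ n ≤ (k i).natAbs := Nat.lt_size.mp (by omega)
    have h3 : (2:ℤ) ^ n ≤ |k i| := by rw [← Int.natCast_natAbs]; exact_mod_cast h2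
    have := le_max_left |k i| 1
    rw [pow_succ]; omega

noncomputable def box (s : Fin d → ℕ) : Finset (Fin d → ℤ) :=
  Fintype.piFinset fun i => Finset.Ico (-(2 * 2 ^ s i)) (2 * 2 ^ s i)

lemma box_card (s : Fin d → ℕ) : ((box s).card : ℝ) = 4 ^ d * ∏ i, (2:ℝ) ^ s i := by
  unfold box
  rw [Fintype.card_piFinset]
  push_cast
  have : ∀ i, ((Finset.Ico (-(2 * 2 ^ s i)) (2 * 2 ^ s i : ℤ)).card : ℝ) = 4 * 2 ^ s i := by
    intro i
    rw [Int.card_Ico]
    have : (2 * 2 ^ s i - -(2 * 2 ^ s i) : ℤ) = ((4 * 2 ^ s i : ℕ) : ℤ) := by push_cast; ring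
    rw [this, Int.toNat_natCast]; push_cast; ring
  simp only [this]
  rw [Finset.prod_mul_distrib]; simp

lemma box_filter (s s' : Fin d → ℕ) (P : Finset (Fin d → ℤ)) (hP : ∀ k ∈ P, lev k = s)
    (v : Fin d → ℤ) :
    (((box s').filter (fun j => v + j ∈ P)).card : ℝ) ≤ 4 ^ d * ∏ i, (2:ℝ) ^ min (s i) (s' i) := by
  have hsub : (box s').filter (fun j => v + j ∈ P) ⊆ Fintype.piFinset fun i =>
      Finset.Ico (-(2 * 2 ^ s' i)) (2 * 2 ^ s' i) ∩ Finset.Ico (-(2 * 2 ^ s i) - v i) (2 * 2 ^ s i - v i) := by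
    intro j hj
    obtain ⟨h1, h2⟩ := Finset.mem_filter.mp hj
    rw [Fintype.mem_piFinset]
    intro i
    refine Finset.mem_inter.mpr ⟨Fintype.mem_piFinset.mp h1 i, ?_⟩
    have := lev_lt (v + j) i
    rw [hP _ h2, Pi.add_apply, abs_lt] at this
    have h0 : (0:ℤ) < 2 ^ s i := by positivity
    rw [Finset.mem_Ico]; omega
  have h1 := Finset.card_le_card hsub
  rw [Fintype.card_piFinset] at h1
  have h2 : ∀ i, (Finset.Ico (-(2 * 2 ^ s' i)) (2 * 2 ^ s' i) ∩
      Finset.Ico (-(2 * 2 ^ s i) - v i) (2 * 2 ^ s i - v i : ℤ)).card ≤ 4 * 2 ^ min (s i) (s' i) := by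
    intro i
    rcases le_total (s i) (s' i) with h | h
    · rw [min_eq_left h]
      refine (Finset.card_le_card Finset.inter_subset_right).trans ?_
      rw [Int.card_Ico]
      have : (2 * 2 ^ s i - v i - (-(2 * 2 ^ s i) - v i) : ℤ) = ((4 * 2 ^ s i : ℕ) : ℤ) := by
        push_cast; ring
      rw [this, Int.toNat_natCast]
    · rw [min_eq_right h]
      refine (Finset.card_le_card Finset.inter_subset_left).trans ?_
      rw [Int.card_Ico]
      have : (2 * 2 ^ s' i - (-(2 * 2 ^ s' i)) : ℤ) = ((4 * 2 ^ s' i : ℕ) : ℤ) := by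
        push_cast; ring
      rw [this, Int.toNat_natCast]
  have h3 := h1.trans (Finset.prod_le_prod' fun i _ => h2 i)
  rw [Finset.prod_mul_distrib] at h3
  simp only [Finset.prod_const, Finset.card_univ, Fintype.card_fin] at h3
  exact_mod_cast h3

lemma card_lev (s : Fin d → ℕ) (P : Finset (Fin d → ℤ)) (hP : ∀ k ∈ P, lev k = s) :
    (P.card : ℝ) ≤ 4 ^ d * ∏ i, (2:ℝ) ^ s i := by
  rw [← box_card]
  refine Nat.cast_le.mpr (Finset.card_le_card fun k hk => ?_)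
  unfold box
  rw [Fintype.mem_piFinset]
  intro i
  have := lev_lt k i
  rw [hP _ hk, abs_lt] at this
  have h0 : (0:ℤ) < 2 ^ s i := by positivity
  rw [Finset.mem_Ico]; omega

lemma box_lower (s : Fin d → ℕ) (P : Finset (Fin d → ℤ)) (hP : ∀ k ∈ P, lev k = s)
    (h : (Fin d → ℤ) → ℝ) (h0 : ∀ k, 0 ≤ h k) :
    (∏ i, (2:ℝ) ^ s i) * ∑ k ∈ P, h k ≤ ∑ j ∈ box s, ∑ j' ∈ box s, h (j - j') := by
  rw [Finset.sum_comm]
  set B' : Finset (Fin d → ℤ) := Fintype.piFinset fun i => Finset.Ico (0:ℤ) (2 ^ s i) with hB'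
  have hc : (B'.card : ℝ) = ∏ i, (2:ℝ) ^ s i := by
    rw [hB', Fintype.card_piFinset]
    push_cast
    refine Finset.prod_congr rfl fun i _ => ?_
    rw [Int.card_Ico]
    have : (2 ^ s i - 0 : ℤ) = ((2 ^ s i : ℕ) : ℤ) := by push_cast; ring
    rw [this, Int.toNat_natCast]; push_cast; ring
  have hsub : B' ⊆ box s := by
    intro j hj
    unfold box
    rw [Fintype.mem_piFinset] at hj ⊢
    intro i
    have := hj i
    rw [Finset.mem_Ico] at this ⊢
    omega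
  refine le_trans ?_ (Finset.sum_le_sum_of_subset_of_nonneg hsub
    fun _ _ _ => Finset.sum_nonneg fun _ _ => h0 _)
  rw [← hc, ← nsmul_eq_mul, ← Finset.sum_const]
  refine Finset.sum_le_sum fun j' hj' => ?_
  have e1 : ∑ k ∈ P, h k = ∑ j ∈ P.image (fun k => k + j'), h (j - j') := by
    rw [Finset.sum_image (fun x _ y _ h => add_right_cancel h)]
    simp
  rw [e1]
  refine Finset.sum_le_sum_of_subset_of_nonneg ?_ fun _ _ _ => h0 _
  intro j hj
  obtain ⟨k, hk, rfl⟩ := Finset.mem_image.mp hj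
  unfold box
  rw [Fintype.mem_piFinset] at hj' ⊢
  intro i
  have h1 := hj' i
  have := lev_lt k i
  rw [hP _ hk, abs_lt] at this
  rw [Finset.mem_Ico] at h1 ⊢
  rw [Pi.add_apply]; omega

lemma geo1 (r : ℝ) (h0 : 0 ≤ r) (h1 : r < 1) (T : Finset ℕ) (y : ℕ) :
    ∑ x ∈ T, r ^ Nat.dist x y ≤ 2 * (1 - r)⁻¹ := by
  have key : ∀ (A : Finset ℕ) (φ : ℕ → ℕ), Set.InjOn φ A → ∑ x ∈ A, r ^ φ x ≤ (1 - r)⁻¹ := by
    intro A φ hφ
    rw [← Finset.sum_image (f := fun n => r ^ n) hφ, ← tsum_geometric_of_lt_one h0 h1]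
    exact (summable_geometric_of_lt_one h0 h1).sum_le_tsum _ fun _ _ => by positivity
  rw [← Finset.sum_filter_add_sum_filter_not T (fun x => x ≤ y), two_mul]
  refine add_le_add (key _ _ ?_) (key _ _ ?_)
  · intro a ha b hb hab
    simp only [Finset.coe_filter, Set.mem_ofPred_eq] at ha hb
    simp only [Nat.dist] at hab; omega
  · intro a ha b hb hab
    simp only [Finset.coe_filter, Set.mem_ofPred_eq] at ha hb
    simp only [Nat.dist] at hab; omega

lemma geo (r : ℝ) (h0 : 0 ≤ r) (h1 : r < 1) (S : Finset (Fin d → ℕ)) (y : Fin d → ℕ) :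
    ∑ s ∈ S, ∏ i, r ^ Nat.dist (s i) (y i) ≤ (2 * (1 - r)⁻¹) ^ d := by
  have hsub : S ⊆ Fintype.piFinset fun i => S.image (fun s => s i) := by
    intro s hs
    rw [Fintype.mem_piFinset]
    exact fun i => Finset.mem_image_of_mem _ hs
  refine (Finset.sum_le_sum_of_subset_of_nonneg hsub fun _ _ _ => by positivity).trans ?_
  rw [← Finset.prod_univ_sum (fun i => S.image (fun s => s i)) (fun i x => r ^ Nat.dist x (y i))]
  refine (Finset.prod_le_prod (fun i _ => by positivity) fun i _ => geo1 r h0 h1 _ _).trans ?_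
  simp

end Pool.Agent.H24.HypA
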