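import Pool.Agent.H24.HypA

open MeasureTheory Finset
open scoped ComplexConjugate

namespace Pool.Agent.H24.HypA

variable {d : ℕ}

noncomputable def tr (P : Finset (Fin d → ℤ)) (c : (Fin d → ℤ) → ℂ) (x : UnitAddTorus (Fin d)) : ℂ :=
  ∑ k ∈ P, c k * e k x

lemma tr_cont (P : Finset (Fin d → ℤ)) (c : (Fin d → ℤ) → ℂ) : Continuous (tr P c) :=
  continuous_finsetSum _ fun k _ => continuous_const.mul (e_cont k)

lemma pair_tr (P : Finset (Fin d → ℤ)) (c : (Fin d → ℤ) → ℂ) {f : UnitAddTorus (Fin d) → ℂ}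
    (hf : Integrable f (mu d)) :
    ∫ x, f x * conj (tr P c x) ∂mu d = ∑ k ∈ P, conj (c k) * co f k := by
  have : ∀ x, f x * conj (tr P c x) = ∑ k ∈ P, conj (c k) * (f x * conj (e k x)) := by
    intro x
    unfold tr
    rw [map_sum, Finset.mul_sum]
    refine Finset.sum_congr rfl fun k _ => ?_
    rw [map_mul]; ring
  simp only [this]
  rw [integral_finsetSum _ fun k _ => (co_int hf k).const_mul _]
  refine Finset.sum_congr rfl fun k _ => ?_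
  rw [integral_const_mul]; rfl

lemma co_tr (P : Finset (Fin d → ℤ)) (c : (Fin d → ℤ) → ℂ) (l : Fin d → ℤ) :
    co (tr P c) l = if l ∈ P then c l else 0 := by
  unfold co tr
  simp only [Finset.sum_mul, mul_assoc]
  rw [integral_finsetSum _ fun k _ => (co_int (cont_int (e_cont k)) l).const_mul _]
  simp only [integral_const_mul, orth]
  simp

lemma co_sq (P : Finset (Fin d → ℤ)) (c : (Fin d → ℤ) → ℂ) (k : Fin d → ℤ) :
    co (fun x => ((‖tr P c x‖ ^ 2 : ℝ) : ℂ)) k = cc c P P k := by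
  have h : ∀ x, ((‖tr P c x‖ ^ 2 : ℝ) : ℂ) * conj (e k x) =
      (tr P c x * conj (e k x)) * conj (tr P c x) := by
    intro x
    rw [Complex.ofReal_pow, ← Complex.mul_conj']; ring
  unfold co
  simp only [h]
  rw [pair_tr P c (co_int (cont_int (tr_cont P c)) k)]
  unfold cc
  rw [Finset.sum_comm]
  refine Finset.sum_congr rfl fun l _ => ?_
  have : co (fun x => tr P c x * conj (e k x)) l = co (tr P c) (l + k) := by
    unfold co
    congr 1; ext x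
    rw [e_add, map_mul]; ring
  rw [this, co_tr, Finset.sum_ite_eq' P (l + k) (fun m => c m * conj (c l))]
  split_ifs <;> simp [mul_comm]

lemma dbl_fiber (P : Finset (Fin d → ℤ)) (f : (Fin d → ℤ) → (Fin d → ℤ) → ℂ) :
    ∑ m ∈ P, ∑ l ∈ P, f m l = ∑ s ∈ P.image lev, ∑ t ∈ P.image lev,
      ∑ m ∈ P.filter (lev · = s), ∑ l ∈ P.filter (lev · = t), f m l := by
  have fib : ∀ f : (Fin d → ℤ) → ℂ, ∑ k ∈ P, f k =
      ∑ s ∈ P.image lev, ∑ k ∈ P.filter (lev · = s), f k := fun f =>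
    (Finset.sum_fiberwise_of_maps_to (fun x hx => Finset.mem_image_of_mem _ hx) f).symm
  rw [fib]
  refine Finset.sum_congr rfl fun s _ => ?_
  rw [Finset.sum_congr rfl fun m _ => fib (f m)]
  exact Finset.sum_comm

lemma cc_fiber (a : (Fin d → ℤ) → ℂ) (P : Finset (Fin d → ℤ)) (k : Fin d → ℤ) :
    cc a P P k = ∑ z ∈ (P.image lev) ×ˢ (P.image lev),
      cc a (P.filter (lev · = z.1)) (P.filter (lev · = z.2)) k := by
  rw [Finset.sum_product]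
  exact dbl_fiber P _

noncomputable def pp (θ : ℝ) (s : Fin d → ℕ) : ℝ := ∏ i, θ ^ s i

def mn (s s' : Fin d → ℕ) : Fin d → ℕ := fun i => min (s i) (s' i)

lemma pp_pos {θ : ℝ} (h : 0 < θ) (s : Fin d → ℕ) : 0 < pp θ s :=
  Finset.prod_pos fun i _ => by positivity

lemma pp8 {θ : ℝ} (h8 : θ ^ 8 = 2) (s : Fin d → ℕ) : ∏ i, (2:ℝ) ^ s i = pp θ s ^ 8 := by
  unfold pp
  rw [← Finset.prod_pow]
  refine Finset.prod_congr rfl fun i _ => ?_
  rw [← h8, ← pow_mul, ← pow_mul, mul_comm]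

lemma pp_id {θ : ℝ} (h : 0 < θ) (s s' : Fin d → ℕ) : pp θ s ^ 2 * pp θ (mn s s') ^ 2 =
    pp θ s' * pp θ s ^ 3 * ∏ i, θ⁻¹ ^ Nat.dist (s i) (s' i) := by
  simp only [pp, mn, ← Finset.prod_pow, ← Finset.prod_mul_distrib]
  refine Finset.prod_congr rfl fun i _ => ?_
  rw [inv_pow, eq_mul_inv_iff_mul_eq₀ (by positivity)]
  simp only [← pow_mul, ← pow_add]
  congr 1
  simp only [Nat.dist]; omega

lemma alg1 (a b c D x y : ℝ) (ha : 0 < a) (hb : 0 < b) (hc : 0 < c) (hD : 0 < D) (hx : 0 < x)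
    (hxy : x ≤ y) : a ^ 4 * b ^ 4 * (D * c ^ 8 * (D * x ^ 8)) ≤
      (D * c ^ 4 * ((a ^ 2 * x ^ 2) * (b ^ 2 * y ^ 2))) ^ 2 := by
  have : x ^ 8 ≤ x ^ 4 * y ^ 4 := by
    rw [show x ^ 8 = x ^ 4 * x ^ 4 by ring]
    gcongr
  calc a ^ 4 * b ^ 4 * (D * c ^ 8 * (D * x ^ 8))
      ≤ a ^ 4 * b ^ 4 * (D * c ^ 8 * (D * (x ^ 4 * y ^ 4))) := by gcongr
    _ = _ := by ring

lemma Xpair (θ : ℝ) (hθ : 0 < θ) (h8 : θ ^ 8 = 2) (g : (Fin d → ℤ) → ℂ)
    (P R : Finset (Fin d → ℤ)) (s t s' : Fin d → ℕ) (hP : ∀ k ∈ P, lev k = s)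
    (hR : ∀ k ∈ R, lev k = t) (gP : ∑ k ∈ P, ‖g k‖ ^ 2 = pp θ s ^ 4)
    (gR : ∑ k ∈ R, ‖g k‖ ^ 2 = pp θ t ^ 4) :
    ∑ j ∈ box s', ∑ j' ∈ box s', ‖cc g P R (j - j')‖ ^ 2 ≤ (4 ^ d * pp θ s' ^ 4 *
      ((pp θ s ^ 2 * pp θ (mn s s') ^ 2) * (pp θ t ^ 2 * pp θ (mn t s') ^ 2))) ^ 2 := by
  have hD : (0:ℝ) < 4 ^ d := by positivity
  rcases le_total (pp θ (mn s s')) (pp θ (mn t s')) with h | h
  · have h1 := X_le g P R (box s') _ (box_filter s s' P hP)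
    rw [gP, gR, box_card, pp8 h8, pp8 h8 (fun i => min (s i) (s' i))] at h1
    exact h1.trans (alg1 _ _ _ _ _ _ (pp_pos hθ _) (pp_pos hθ _) (pp_pos hθ _) hD (pp_pos hθ _) h)
  · have h1 := X_le' g P R (box s') _ (box_filter t s' R hR)
    rw [gP, gR, box_card, pp8 h8, pp8 h8 (fun i => min (t i) (s' i)), mul_comm (pp θ s ^ 4)] at h1
    rw [mul_comm (pp θ s ^ 2 * _)]
    exact h1.trans (alg1 _ _ _ _ _ _ (pp_pos hθ _) (pp_pos hθ _) (pp_pos hθ _) hD (pp_pos hθ _) h)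

lemma Ssum (θ l : ℝ) (hl0 : 0 < l) (hθ : 1 < θ) (S : Finset (Fin d → ℕ))
    (hl : ∀ s ∈ S, pp θ s ≤ l) (s' : Fin d → ℕ) :
    ∑ s ∈ S, pp θ s ^ 2 * pp θ (mn s s') ^ 2 ≤ pp θ s' * l ^ 3 * (2 * (1 - θ⁻¹)⁻¹) ^ d := by
  have hθ0 : 0 < θ := by linarith
  have hr0 : 0 ≤ θ⁻¹ := by positivity
  have hr1 : θ⁻¹ < 1 := inv_lt_one_of_one_lt₀ hθ
  have hterm : ∀ s ∈ S, pp θ s ^ 2 * pp θ (mn s s') ^ 2 ≤
      pp θ s' * l ^ 3 * ∏ i, θ⁻¹ ^ Nat.dist (s i) (s' i) := by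
    intro s hs
    rw [pp_id hθ0]
    refine mul_le_mul_of_nonneg_right (mul_le_mul_of_nonneg_left
      (pow_le_pow_left₀ (pp_pos hθ0 _).le (hl s hs) 3) (pp_pos hθ0 _).le) ?_
    exact Finset.prod_nonneg fun _ _ => pow_nonneg hr0 _
  refine (Finset.sum_le_sum hterm).trans ?_
  rw [← Finset.mul_sum]
  exact mul_le_mul_of_nonneg_left (geo _ hr0 hr1 _ _)
    (mul_nonneg (pp_pos hθ0 _).le (by positivity))

lemma Qbound (θ l : ℝ) (hl0 : 0 < l) (hθ : 1 < θ) (h8 : θ ^ 8 = 2) (P : Finset (Fin d → ℤ))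
    (hl : ∀ s ∈ P.image lev, pp θ s ≤ l) (g : (Fin d → ℤ) → ℂ)
    (hg : ∀ s ∈ P.image lev, ∑ k ∈ P.filter (lev · = s), ‖g k‖ ^ 2 = pp θ s ^ 4)
    (s' : Fin d → ℕ) :
    ∑ j ∈ box s', ∑ j' ∈ box s', ‖cc g P P (j - j')‖ ^ 2 ≤
      (4 ^ d * pp θ s' ^ 4 * (pp θ s' * l ^ 3 * (2 * (1 - θ⁻¹)⁻¹) ^ d) ^ 2) ^ 2 := by
  have hθ0 : 0 < θ := by linarith
  have hD : (0:ℝ) < 4 ^ d * pp θ s' ^ 4 := mul_pos (by positivity) (pow_pos (pp_pos hθ0 _) _)
  have hm := mink (box s') ((P.image lev) ×ˢ (P.image lev))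
    (fun z j j' => cc g (P.filter (lev · = z.1)) (P.filter (lev · = z.2)) (j - j'))
    (fun z => 4 ^ d * pp θ s' ^ 4 * ((pp θ z.1 ^ 2 * pp θ (mn z.1 s') ^ 2) *
      (pp θ z.2 ^ 2 * pp θ (mn z.2 s') ^ 2)))
    (fun z _ => mul_nonneg hD.le (mul_nonneg (mul_nonneg (sq_nonneg _) (sq_nonneg _))
      (mul_nonneg (sq_nonneg _) (sq_nonneg _))))
    (fun z hz => Xpair θ hθ0 h8 g _ _ _ _ s' (fun k hk => (Finset.mem_filter.mp hk).2)
      (fun k hk => (Finset.mem_filter.mp hk).2) (hg _ (Finset.mem_product.mp hz).1)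
      (hg _ (Finset.mem_product.mp hz).2))
  have e1 : ∑ j ∈ box s', ∑ j' ∈ box s', ‖cc g P P (j - j')‖ ^ 2 = ∑ j ∈ box s', ∑ j' ∈ box s',
      ‖∑ z ∈ (P.image lev) ×ˢ (P.image lev),
        cc g (P.filter (lev · = z.1)) (P.filter (lev · = z.2)) (j - j')‖ ^ 2 :=
    Finset.sum_congr rfl fun j _ => Finset.sum_congr rfl fun j' _ => by rw [cc_fiber]
  rw [e1]
  refine hm.trans ?_
  rw [← Finset.mul_sum, Finset.sum_product,
    ← Finset.sum_mul_sum (P.image lev) (P.image lev) (fun s => pp θ s ^ 2 * pp θ (mn s s') ^ 2)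
      (fun s => pp θ s ^ 2 * pp θ (mn s s') ^ 2), ← sq]
  have hs0 : 0 ≤ ∑ s ∈ P.image lev, pp θ s ^ 2 * pp θ (mn s s') ^ 2 :=
    Finset.sum_nonneg fun _ _ => mul_nonneg (sq_nonneg _) (sq_nonneg _)
  exact pow_le_pow_left₀ (mul_nonneg hD.le (sq_nonneg _)) (mul_le_mul_of_nonneg_left
    (pow_le_pow_left₀ hs0 (Ssum θ l hl0 hθ _ hl s') 2) hD.le) 2

lemma CS (P : Finset (Fin d → ℤ)) (u v : (Fin d → ℤ) → ℝ) (A B : ℝ) (hA : 0 ≤ A) (hB : 0 ≤ B)
    (h1 : ∑ k ∈ P, u k ^ 2 ≤ A ^ 2) (h2 : ∑ k ∈ P, v k ^ 2 ≤ B ^ 2) :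
    ∑ k ∈ P, u k * v k ≤ A * B := by
  refine abs_le_of_sq_le_sq' ?_ (mul_nonneg hA hB) |>.2
  refine (Finset.sum_mul_sq_le_sq_mul_sq _ _ _).trans ?_
  rw [mul_pow]
  exact mul_le_mul h1 h2 (Finset.sum_nonneg fun _ _ => sq_nonneg _) (sq_nonneg _)

lemma main (θ l : ℝ) (hl0 : 0 < l) (hθ : 1 < θ) (h8 : θ ^ 8 = 2) (P : Finset (Fin d → ℤ))
    (hl : ∀ s ∈ P.image lev, pp θ s ≤ l) (c : (Fin d → ℤ) → ℂ) (hc : ∀ k ∈ P, c k ≠ 0) :
    ∑ k ∈ P, ‖c k‖ ≤ (2 ^ d * (4 * 4 ^ d * ((2 * (1 - θ⁻¹)⁻¹) ^ d) ^ 2)) * l ^ 8 *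
      ∫ x, ‖tr P c x‖ ∂mu d := by
  have hθ0 : 0 < θ := by linarith
  have hC : 0 < (2 * (1 - θ⁻¹)⁻¹) ^ d := by
    have : θ⁻¹ < 1 := inv_lt_one_of_one_lt₀ hθ
    have : 0 < 1 - θ⁻¹ := by linarith
    positivity
  have hQ := Qbound θ l hl0 hθ h8 P hl
  generalize (2 * (1 - θ⁻¹)⁻¹) ^ d = C at hC hQ ⊢
  obtain ⟨a, ha⟩ : ∃ a : (Fin d → ℕ) → ℝ,
    a = fun s => Real.sqrt (∑ k ∈ P.filter (lev · = s), ‖c k‖ ^ 2) := ⟨_, rfl⟩
  have ha2 : ∀ s, a s ^ 2 = ∑ k ∈ P.filter (lev · = s), ‖c k‖ ^ 2 := fun s => by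
    rw [ha]; exact Real.sq_sqrt (Finset.sum_nonneg fun _ _ => sq_nonneg _)
  have ha0 : ∀ s ∈ P.image lev, 0 < a s := by
    intro s hs
    obtain ⟨k, hk, rfl⟩ := Finset.mem_image.mp hs
    rw [ha]
    refine Real.sqrt_pos.mpr (Finset.sum_pos' (fun _ _ => sq_nonneg _)
      ⟨k, Finset.mem_filter.mpr ⟨hk, rfl⟩, ?_⟩)
    exact pow_pos (norm_pos_iff.mpr (hc k hk)) 2
  obtain ⟨g, hg⟩ : ∃ g : (Fin d → ℤ) → ℂ,
    g = fun k => ((pp θ (lev k) ^ 2 / a (lev k) : ℝ) : ℂ) * c k := ⟨_, rfl⟩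
  have hg2 : ∀ s ∈ P.image lev, ∑ k ∈ P.filter (lev · = s), ‖g k‖ ^ 2 = pp θ s ^ 4 := by
    intro s hs
    have : ∀ k ∈ P.filter (lev · = s), ‖g k‖ ^ 2 = (pp θ s ^ 2 / a s) ^ 2 * ‖c k‖ ^ 2 := by
      intro k hk
      rw [hg]
      simp only [norm_mul, mul_pow, Complex.norm_real, Real.norm_eq_abs, sq_abs]
      rw [(Finset.mem_filter.mp hk).2]
    rw [Finset.sum_congr rfl this, ← Finset.mul_sum, ← ha2]
    have := ha0 s hs
    field_simp
  obtain ⟨M, hM⟩ : ∃ M : ℝ, M = ∑ s ∈ P.image lev, pp θ s ^ 2 * a s := ⟨_, rfl⟩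
  have fib : ∀ f : (Fin d → ℤ) → ℝ, ∑ k ∈ P, f k =
      ∑ s ∈ P.image lev, ∑ k ∈ P.filter (lev · = s), f k := fun f =>
    (Finset.sum_fiberwise_of_maps_to (fun x hx => Finset.mem_image_of_mem _ hx) f).symm
  have h1 : ∫ x, tr P g x * conj (tr P c x) ∂mu d = (M : ℂ) := by
    rw [pair_tr P c (cont_int (tr_cont P g))]
    have : ∀ k ∈ P, conj (c k) * co (tr P g) k =
        ((pp θ (lev k) ^ 2 / a (lev k) * ‖c k‖ ^ 2 : ℝ) : ℂ) := by
      intro k hk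
      rw [co_tr, if_pos hk, hg]
      push_cast
      rw [← Complex.mul_conj']; ring
    rw [Finset.sum_congr rfl this, ← Complex.ofReal_sum, fib, hM]
    congr 1
    refine Finset.sum_congr rfl fun s hs => ?_
    rw [Finset.sum_congr rfl (g := fun k => pp θ s ^ 2 / a s * ‖c k‖ ^ 2)
      (fun k hk => by rw [(Finset.mem_filter.mp hk).2]), ← Finset.mul_sum, ← ha2]
    have := ha0 s hs
    field_simp
  obtain ⟨lam, hlam⟩ : ∃ lam : ℝ, lam = 2 * 4 ^ d * l ^ 6 * C ^ 2 := ⟨_, rfl⟩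
  have lam0 : 0 < lam := by rw [hlam]; positivity
  obtain ⟨E, hE⟩ : ∃ E : UnitAddTorus (Fin d) → ℂ,
    E = {x | lam < ‖tr P g x‖}.indicator (tr P g) := ⟨_, rfl⟩
  have Ei : Integrable E (mu d) := by
    rw [hE]
    exact (cont_int (tr_cont P g)).indicator
      (isOpen_lt continuous_const (tr_cont P g).norm).measurableSet
  have E1 : ∀ x, ‖tr P g x - E x‖ ≤ lam := by
    intro x
    rw [hE, Set.indicator_apply]
    split_ifs with h
    · simpa using lam0.le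
    · simpa using h
  have E2 : ∀ x, ‖(lam : ℂ) * E x‖ ≤ ‖tr P g x‖ ^ 2 := by
    intro x
    rw [hE, Set.indicator_apply]
    split_ifs with h
    · rw [norm_mul, Complex.norm_real, Real.norm_of_nonneg lam0.le, sq]
      exact mul_le_mul_of_nonneg_right (le_of_lt h) (norm_nonneg _)
    · simp
  have h4 : ∀ s, ∑ k ∈ P.filter (lev · = s), ‖co E k‖ ^ 2 ≤ (pp θ s ^ 2 / 2) ^ 2 := by
    intro s
    have q1 := Q_mono (F := fun x => ‖tr P g x‖ ^ 2) (Ei.const_mul (lam : ℂ))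
      (cont_int (Complex.continuous_ofReal.comp ((tr_cont P g).norm.pow 2))) E2 (box s)
    have e1 : ∀ k, co (fun x => (lam : ℂ) * E x) k = lam * co E k := by
      intro k
      unfold co
      rw [← integral_const_mul]
      simp only [mul_assoc]
    simp only [co_sq, e1] at q1
    have q2 := box_lower s (P.filter (lev · = s)) (fun k hk => (Finset.mem_filter.mp hk).2)
      (fun k => ‖(lam : ℂ) * co E k‖ ^ 2) fun _ => sq_nonneg _
    have q3 := (q2.trans q1).trans (hQ g hg2 s)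
    simp only [norm_mul, mul_pow, Complex.norm_real, Real.norm_eq_abs, sq_abs] at q3
    rw [← Finset.mul_sum, pp8 h8] at q3
    have hp := pp_pos hθ0 s
    have : (0:ℝ) < pp θ s ^ 8 * lam ^ 2 := by positivity
    refine le_of_mul_le_mul_left ?_ this
    rw [mul_assoc]
    refine q3.trans (le_of_eq ?_)
    rw [hlam]; ring
  have h5 : ‖∫ x, E x * conj (tr P c x) ∂mu d‖ ≤ M / 2 := by
    rw [pair_tr P c Ei]
    refine (norm_sum_le _ _).trans ?_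
    simp only [norm_mul, Complex.norm_conj]
    rw [fib, hM, Finset.sum_div]
    refine Finset.sum_le_sum fun s hs => ?_
    refine (CS _ _ _ _ _ (ha0 s hs).le (by positivity) (ha2 s).ge (h4 s)).trans (le_of_eq ?_)
    ring
  have ti : Integrable (fun x => ‖tr P c x‖) (mu d) := (cont_int (tr_cont P c)).norm
  have h6 : ‖∫ x, (tr P g x - E x) * conj (tr P c x) ∂mu d‖ ≤ lam * ∫ x, ‖tr P c x‖ ∂mu d := by
    rw [← integral_const_mul]
    refine norm_integral_le_of_norm_le (ti.const_mul _) (Filter.Eventually.of_forall fun x => ?_)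
    rw [norm_mul, Complex.norm_conj]
    exact mul_le_mul_of_nonneg_right (E1 x) (norm_nonneg _)
  have bd : ∀ {f : UnitAddTorus (Fin d) → ℂ}, Integrable f (mu d) →
      Integrable (fun x => f x * conj (tr P c x)) (mu d) := fun hf =>
    hf.mul_bdd (c := ∑ k ∈ P, ‖c k‖)
      (Complex.continuous_conj.comp (tr_cont P c)).aestronglyMeasurable
      (Filter.Eventually.of_forall fun x => by
        rw [Complex.norm_conj]
        exact (norm_sum_le _ _).trans (le_of_eq (by simp [e_norm])))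
  have h7 : M ≤ 2 * lam * ∫ x, ‖tr P c x‖ ∂mu d := by
    have : (M : ℂ) = (∫ x, (tr P g x - E x) * conj (tr P c x) ∂mu d) +
        ∫ x, E x * conj (tr P c x) ∂mu d := by
      rw [← integral_add (bd (f := fun x => tr P g x - E x) ((cont_int (tr_cont P g)).sub Ei)) (bd Ei), ← h1]
      congr 1; ext x; ring
    have h := congrArg norm this
    rw [Complex.norm_real, Real.norm_eq_abs] at h
    have := (le_abs_self M).trans (h.le.trans ((norm_add_le _ _).trans (add_le_add h6 h5)))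
    linarith
  have h8' : ∑ k ∈ P, ‖c k‖ ≤ 2 ^ d * l ^ 2 * M := by
    rw [fib, hM, Finset.mul_sum]
    refine Finset.sum_le_sum fun s hs => ?_
    have hp := pp_pos hθ0 s
    have := CS (P.filter (lev · = s)) (fun k => ‖c k‖) (fun _ => 1) (a s) (2 ^ d * pp θ s ^ 4)
      (ha0 s hs).le (by positivity) (ha2 s).ge (by
        have := card_lev s (P.filter (lev · = s)) (fun k hk => (Finset.mem_filter.mp hk).2)
        rw [pp8 h8] at this
        simp only [one_pow, Finset.sum_const, nsmul_eq_mul, mul_one]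
        refine this.trans (le_of_eq ?_)
        rw [mul_pow, ← pow_mul, ← pow_mul, mul_comm d 2, pow_mul]; norm_num)
    simp only [mul_one] at this
    refine this.trans ?_
    have h2 : pp θ s ^ 2 ≤ l ^ 2 := pow_le_pow_left₀ hp.le (hl s hs) 2
    have := ha0 s hs
    calc a s * (2 ^ d * pp θ s ^ 4) = 2 ^ d * pp θ s ^ 2 * (pp θ s ^ 2 * a s) := by ring
      _ ≤ _ := by gcongr
  refine h8'.trans ((mul_le_mul_of_nonneg_left h7 (by positivity)).trans (le_of_eq ?_))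
  rw [hlam]; ring

end Pool.Agent.H24.HypA
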