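import Mathlib

set_option autoImplicit false

open Finset Polynomial

namespace Pool.Agent.H24.KS

/-- all complex zeros are real and negative -/
def Neg (p : ℂ[X]) : Prop := ∀ z : ℂ, p.eval z = 0 → z.im = 0 ∧ z.re < 0

lemma gl_step {S : Set ℂ} (hS : Convex ℝ S) (p : ℂ[X]) (hp : ∀ z, p.eval z = 0 → z ∈ S)
    (hd : derivative p ≠ 0) (z : ℂ) (hz : (derivative p).eval z = 0) : z ∈ S := by
  have h0 : 0 < p.degree := by
    by_contra h
    exact hd (by rw [eq_C_of_degree_le_zero (not_lt.1 h)]; simp)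
  have h1 := rootSet_derivative_subset_convexHull_rootSet h0
    (show z ∈ (derivative p).rootSet ℂ by rw [mem_rootSet]; exact ⟨hd, by simpa using hz⟩)
  refine convexHull_min (fun w hw => hp w ?_) hS h1
  simpa using (mem_rootSet.1 hw).2

lemma gl_iter {S : Set ℂ} (hS : Convex ℝ S) (p : ℂ[X]) (hp0 : p ≠ 0)
    (hp : ∀ z, p.eval z = 0 → z ∈ S) (k : ℕ) (hk : k ≤ p.natDegree) :
    ∀ z, (derivative^[k] p).eval z = 0 → z ∈ S := by
  induction k with
  | zero => exact hp
  | succ k ih =>
    rw [Function.iterate_succ_apply']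
    refine gl_step hS _ (ih (by omega)) ?_
    rw [← Function.iterate_succ_apply' derivative]
    intro h
    have := congrArg (fun q => q.coeff (p.natDegree - (k + 1))) h
    simp only [coeff_iterate_derivative, Nat.succ_eq_add_one, Nat.sub_add_cancel hk, coeff_zero,
      nsmul_eq_mul, mul_eq_zero, Nat.cast_eq_zero, Nat.descFactorial_eq_zero_iff_lt,
      coeff_natDegree, leadingCoeff_eq_zero] at this
    rcases this with h | h
    · omega
    · exact hp0 h

lemma Neg.ne_zero {p : ℂ[X]} (h : Neg p) : p ≠ 0 := by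
  rintro rfl
  have := (h 1 (by simp)).2
  norm_num at this

lemma neg_convex : Convex ℝ {z : ℂ | z.im = 0 ∧ z.re < 0} :=
  (convex_hyperplane (Complex.imLm.isLinear) 0).inter (convex_halfSpace_re_lt 0)

lemma malo (A B : ℂ[X]) (hA : Neg A) (hB : Neg B) (n : ℕ) (hn : B.natDegree = n) (t : ℂ)
    (ht : ∑ k ∈ range (n + 1), A.coeff k * B.coeff (n - k) * t ^ k = 0) :
    t.im = 0 ∧ t.re < 0 := by
  by_contra hneg
  by_cases h0 : t = 0
  · subst h0
    rw [Finset.sum_range_succ'] at ht
    simp only [pow_succ, mul_zero, sum_const_zero, pow_zero, mul_one, zero_add, Nat.sub_zero,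
      mul_eq_zero] at ht
    rcases ht with h | h
    · have := (hA 0 (by rwa [← coeff_zero_eq_eval_zero])).2
      simp at this
    · rw [← hn, coeff_natDegree, leadingCoeff_eq_zero] at h
      exact hB.ne_zero h
  have hpos : 0 < t.re + ‖t‖ := by
    have h1 := Complex.abs_re_le_norm t
    rcases lt_or_eq_of_le (show -t.re ≤ ‖t‖ from (neg_le_abs _).trans h1) with h | h
    · linarith
    · exfalso
      apply hneg
      have h2 := Complex.sq_norm t
      rw [Complex.normSq_apply, ← h] at h2
      have h3 : 0 < ‖t‖ := norm_pos_iff.2 h0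
      exact ⟨by nlinarith, by linarith⟩
  let S : Set ℂ := {s | s.re * (t.re + ‖t‖) - s.im * t.im < 0}
  have hS : Convex ℝ S := by
    refine convex_halfSpace_lt (f := fun s : ℂ => s.re * (t.re + ‖t‖) - s.im * t.im) ⟨?_, ?_⟩ 0
    · intro a b; simp; ring
    · intro c a; simp; ring
  have hAc : A.comp (C t * X) ≠ 0 := by
    intro h
    have := congrArg (eval 0) h
    simp only [eval_comp, eval_mul, eval_C, eval_X, mul_zero, eval_zero] at this
    simpa using (hA 0 this).2
  have key := gl_iter hS (A.comp (C t * X) * B) (mul_ne_zero hAc hB.ne_zero) (by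
    intro z hz
    rw [eval_mul, mul_eq_zero] at hz
    rcases hz with h | h
    · simp only [eval_comp, eval_mul, eval_C, eval_X] at h
      obtain ⟨h1, h2⟩ := hA _ h
      simp only [Complex.mul_im, Complex.mul_re] at h1 h2
      have h3 : 0 < ‖t‖ := norm_pos_iff.2 h0
      have h4 := Complex.sq_norm t
      rw [Complex.normSq_apply] at h4
      change z.re * (t.re + ‖t‖) - z.im * t.im < 0
      have h5 : ‖t‖ * (z.re * (t.re + ‖t‖) - z.im * t.im)
          = (t.re * z.re - t.im * z.im) * (t.re + ‖t‖) := by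
        linear_combination z.re * h4 + t.im * h1
      by_contra h6
      nlinarith [mul_nonneg h3.le (not_lt.1 h6), mul_neg_of_neg_of_pos h2 hpos]
    · obtain ⟨h1, h2⟩ := hB _ h
      change z.re * (t.re + ‖t‖) - z.im * t.im < 0
      rw [h1]; nlinarith) n (by rw [natDegree_mul hAc hB.ne_zero]; omega) 0 (by
    rw [← coeff_zero_eq_eval_zero, coeff_iterate_derivative, zero_add, coeff_mul,
      Finset.Nat.sum_antidiagonal_eq_sum_range_succ
        (fun i j => (A.comp (C t * X)).coeff i * B.coeff j)]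
    simp only [comp_C_mul_X_coeff]
    rw [show ∑ k ∈ range n.succ, A.coeff k * t ^ k * B.coeff (n - k) = 0 by
      rw [← ht]; exact Finset.sum_congr rfl fun k _ => by ring, smul_zero])
  simp [S] at key

/-- generalised rising factorial with step `h` -/
noncomputable def po (h z : ℂ) (k : ℕ) : ℂ := ∏ i ∈ range k, (z + i * h)

lemma po_succ (h z : ℂ) (k : ℕ) : po h z (k + 1) = po h z k * (z + k * h) := prod_range_succ _ _

lemma po_succ' (h z : ℂ) (k : ℕ) : po h z (k + 1) = z * po h (z + h) k := by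
  rw [po, prod_range_succ', po, mul_comm]
  simp only [Nat.cast_zero, zero_mul, add_zero]
  congr 1
  exact Finset.prod_congr rfl fun i _ => by push_cast; ring

lemma po_zero (h z : ℂ) : po h z 0 = 1 := by simp [po]

lemma po_pow (z : ℂ) (k : ℕ) : po 0 z k = z ^ k := by simp [po]

lemma po_add (h z : ℂ) (k l : ℕ) : po h z (k + l) = po h z k * po h (z + k * h) l := by
  rw [po, prod_range_add, po, po]
  congr 1
  exact Finset.prod_congr rfl fun i _ => by push_cast; ring

lemma po_eval (z : ℂ) (k : ℕ) : (ascPochhammer ℂ k).eval z = po 1 z k := by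
  induction k with
  | zero => simp [po]
  | succ k ih => rw [ascPochhammer_succ_eval, ih, po_succ, mul_one]

lemma po_vand (h z w : ℂ) (n : ℕ) :
    ∑ k ∈ range (n + 1), (n.choose k : ℂ) * (po h z k * po h w (n - k)) = po h (z + w) n := by
  induction n with
  | zero => simp [po]
  | succ n ih =>
    rw [Finset.sum_choose_succ_mul (fun i j => po h z i * po h w j), po_succ, ← ih,
      ← Finset.sum_add_distrib, Finset.sum_mul]
    refine Finset.sum_congr rfl fun k hk => ?_
    have hk' : k ≤ n := Nat.lt_succ_iff.1 (mem_range.1 hk)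
    rw [Nat.succ_sub hk', po_succ, po_succ, Nat.cast_sub hk']
    ring

lemma po_dup (u : ℂ) (k : ℕ) : po 1 (2 * u) (2 * k) = 4 ^ k * (po 1 u k * po 1 (u + 1 / 2) k) := by
  induction k with
  | zero => simp [po]
  | succ k ih =>
    rw [show 2 * (k + 1) = 2 * k + 1 + 1 by ring, po_succ, po_succ, ih, po_succ, po_succ]
    push_cast; ring

lemma gamma_exp (e : ℕ) (he : e ≤ 1) (m : ℕ) : ∀ d : ℕ → ℂ,
    (∀ k ≤ 2 * m + e, d k = d (2 * m + e - k)) → ∃ γ : ℕ → ℂ, γ 0 = d 0 ∧ ∀ h z w : ℂ,
      ∑ k ∈ range (2 * m + e + 1), d k * (po h z k * po h w (2 * m + e - k))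
        = ∑ j ∈ range (m + 1), γ j * (po h z j * po h w j
          * po h (z + w + 2 * j * h) (2 * (m - j) + e)) := by
  induction m with
  | zero =>
    intro d hd
    refine ⟨fun _ => d 0, rfl, fun h z w => ?_⟩
    interval_cases e
    · simp [po]
    · have := hd 1 le_rfl
      simp [po, Finset.sum_range_succ, this]; ring
  | succ m ih =>
    intro d hd
    set n := 2 * m + e with hn
    have hn2 : 2 * (m + 1) + e = n + 2 := by omega
    rw [hn2] at hd ⊢
    obtain ⟨γ, -, hγ⟩ := ih (fun k => d (k + 1) - d 0 * ((n + 2).choose (k + 1) : ℂ)) (by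
      intro k hk
      rw [hd (k + 1) (by omega), ← Nat.choose_symm (show k + 1 ≤ n + 2 by omega),
        show n + 2 - (k + 1) = n - k + 1 by omega])
    refine ⟨fun j => Nat.casesOn j (d 0) γ, rfl, fun h z w => ?_⟩
    have v := po_vand h z w (n + 2)
    have g := hγ h (z + h) (w + h)
    rw [Finset.sum_range_succ' _ (m + 1)]
    simp only [Nat.cast_zero, mul_zero, zero_mul, add_zero, Nat.sub_zero, po_zero, one_mul, hn2]
    have e1 : ∑ j ∈ range (m + 1), γ j * (po h z (j + 1) * po h w (j + 1)
        * po h (z + w + 2 * ((j + 1 : ℕ) : ℂ) * h) (2 * (m + 1 - (j + 1)) + e))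
        = z * w * ∑ j ∈ range (m + 1), γ j * (po h (z + h) j * po h (w + h) j
          * po h (z + h + (w + h) + 2 * j * h) (2 * (m - j) + e)) := by
      rw [Finset.mul_sum]
      refine Finset.sum_congr rfl fun j _ => ?_
      rw [po_succ', po_succ', Nat.add_sub_add_right,
        show z + w + 2 * ((j + 1 : ℕ) : ℂ) * h = z + h + (w + h) + 2 * j * h by push_cast; ring]
      ring
    rw [e1, ← g, ← v, Finset.mul_sum, Finset.mul_sum, Finset.sum_range_succ _ (n + 2),
      Finset.sum_range_succ' _ (n + 1), Finset.sum_range_succ _ (n + 2),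
      Finset.sum_range_succ' _ (n + 1)]
    have hl := hd (n + 2) le_rfl
    rw [Nat.sub_self] at hl
    simp only [hl, Nat.choose_self, Nat.choose_zero_right, Nat.cast_one, one_mul]
    rw [← add_assoc, ← add_assoc, ← Finset.sum_add_distrib]
    congr 2
    refine Finset.sum_congr rfl fun k hk => ?_
    have hk' : k ≤ n := Nat.lt_succ_iff.1 (mem_range.1 hk)
    rw [show n + 2 - (k + 1) = n - k + 1 by omega, po_succ', po_succ']
    simp only [Nat.rec_zero]
    ring

lemma interlace (N : ℕ) (α β : ℕ → ℝ) (h1 : ∀ i j, i ≤ j → j < N → β j < α i)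
    (h2 : ∀ i j, i < j → j < N → α j < β i) (a : ℝ) (ha : 0 < a) :
    ∃ s : ℕ → ℝ, (∀ i < N, β i < s i ∧ s i < α i) ∧ ∀ z : ℂ,
      ∏ i ∈ range N, (z - α i) + a * ∏ i ∈ range N, (z - β i)
        = (1 + a) * ∏ i ∈ range N, (z - s i) := by
  let f : ℝ → ℝ := fun x => ∏ i ∈ range N, (x - α i) + a * ∏ i ∈ range N, (x - β i)
  have hf : Continuous f := by fun_prop
  have : ∀ i, ∃ x, i < N → β i < x ∧ x < α i ∧ f x = 0 := by
    intro i
    by_cases hi : i < N
    swap
    · exact ⟨0, fun h => absurd h hi⟩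
    have hlt := h1 i i le_rfl hi
    have fa : f (α i) = a * ∏ j ∈ range N, (α i - β j) := by
      simp only [f]
      rw [Finset.prod_eq_zero (mem_range.2 hi) (sub_self _), zero_add]
    have fb : f (β i) = ∏ j ∈ range N, (β i - α j) := by
      simp only [f]
      rw [Finset.prod_eq_zero (f := fun j => β i - β j) (mem_range.2 hi) (sub_self _), mul_zero,
        add_zero]
    have hs : f (α i) * f (β i) < 0 := by
      rw [fa, fb, mul_assoc, ← Finset.prod_mul_distrib,
        ← Finset.prod_erase_mul _ _ (mem_range.2 hi)]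
      refine mul_neg_of_pos_of_neg ha (mul_neg_of_pos_of_neg (Finset.prod_pos fun j hj => ?_)
        (by nlinarith))
      have hj1 := (mem_erase.1 hj).1
      have hj2 := mem_range.1 (mem_erase.1 hj).2
      rcases lt_or_gt_of_ne hj1 with h | h
      · exact mul_pos_of_neg_of_neg (sub_neg.2 (h2 j i h hi)) (sub_neg.2 (h1 j i h.le hi))
      · exact mul_pos (sub_pos.2 (h1 i j h.le hj2)) (sub_pos.2 (h2 i j h hj2))
    rcases lt_or_gt_of_ne (show f (β i) ≠ 0 by intro h; simp [h] at hs) with h | h
    · obtain ⟨x, hx, hx0⟩ := intermediate_value_Ioo hlt.le hf.continuousOn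
        (show (0 : ℝ) ∈ Set.Ioo (f (β i)) (f (α i)) from ⟨h, by nlinarith⟩)
      exact ⟨x, fun _ => ⟨hx.1, hx.2, hx0⟩⟩
    · obtain ⟨x, hx, hx0⟩ := intermediate_value_Ioo' hlt.le hf.continuousOn
        (show (0 : ℝ) ∈ Set.Ioo (f (α i)) (f (β i)) from ⟨by nlinarith, h⟩)
      exact ⟨x, fun _ => ⟨hx.1, hx.2, hx0⟩⟩
  choose s hs using this
  refine ⟨s, fun i hi => ⟨(hs i hi).1, (hs i hi).2.1⟩, ?_⟩
  have mon : ∀ u : ℕ → ℝ, (∏ i ∈ range N, (X - C (u i : ℂ))).Monic ∧
      (∏ i ∈ range N, (X - C (u i : ℂ))).degree = (N : WithBot ℕ) := fun u =>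
    ⟨monic_prod_of_monic _ _ fun _ _ => monic_X_sub_C _, by
      rw [degree_prod]; simp [degree_X_sub_C]⟩
  have sub : ∀ u : ℕ → ℝ, (∏ i ∈ range N, (X - C (u i : ℂ))
      - ∏ i ∈ range N, (X - C (s i : ℂ))).degree < (N : WithBot ℕ) := fun u => by
    rw [← (mon u).2]
    exact degree_sub_lt_left (by rw [(mon u).2, (mon s).2]) (mon u).1.ne_zero
      (by rw [(mon u).1.leadingCoeff, (mon s).1.leadingCoeff])
  have hinj : Set.InjOn (fun i => (s i : ℂ)) (range N : Set ℕ) := by
    intro i hi j hj h
    have hi := mem_range.1 hi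
    have hj := mem_range.1 hj
    have h : s i = s j := Complex.ofReal_injective h
    rcases lt_trichotomy i j with l | l | l
    · have := h2 i j l hj; linarith [(hs i hi).1, (hs j hj).2.1]
    · exact l
    · have := h2 j i l hi; linarith [(hs j hj).1, (hs i hi).2.1]
  have hz : (∏ i ∈ range N, (X - C (α i : ℂ)) - ∏ i ∈ range N, (X - C (s i : ℂ)))
      + C (a : ℂ) * (∏ i ∈ range N, (X - C (β i : ℂ)) - ∏ i ∈ range N, (X - C (s i : ℂ))) = 0 := by
    apply eq_zero_of_degree_lt_of_eval_finset_eq_zero ((range N).image fun i => (s i : ℂ))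
    · rw [card_image_of_injOn hinj, card_range]
      refine (degree_add_le _ _).trans_lt (max_lt (sub α) ?_)
      rw [← smul_eq_C_mul]
      exact (degree_smul_le _ _).trans_lt (sub β)
    · intro x hx
      obtain ⟨i, hi, rfl⟩ := mem_image.1 hx
      have h3 := congrArg (fun x : ℝ => (x : ℂ)) (hs i (mem_range.1 hi)).2.2
      simp only [f] at h3
      push_cast at h3
      simp only [eval_add, eval_sub, eval_mul, eval_C, eval_prod, eval_X]
      rw [Finset.prod_eq_zero (f := fun j => (s i : ℂ) - s j) hi (sub_self _)]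
      simpa using h3
  intro z
  have := congrArg (eval z) hz
  simp only [eval_add, eval_sub, eval_mul, eval_C, eval_prod, eval_X, eval_zero] at this
  linear_combination this

/-- the linear operator -/
noncomputable def TT (c : ℂ) (M : ℕ) (g : ℂ[X]) (z : ℂ) : ℂ :=
  ∑ i ∈ range (M + 1), g.coeff i * (po 1 z i * po 1 (z + c + i) (M - i))

lemma TT_succ (c : ℂ) (M : ℕ) (g : ℂ[X]) (hg : g.natDegree ≤ M) (z : ℂ) :
    TT c (M + 1) g z = (z + c + M) * TT c M g z := by
  rw [TT, Finset.sum_range_succ, coeff_eq_zero_of_natDegree_lt (show g.natDegree < M + 1 by omega),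
    zero_mul, add_zero, TT, Finset.mul_sum]
  refine Finset.sum_congr rfl fun k hk => ?_
  have hk' : k ≤ M := Nat.lt_succ_iff.1 (mem_range.1 hk)
  rw [Nat.succ_sub hk', po_succ, Nat.cast_sub hk']
  ring

lemma TT_mul (c a : ℂ) (M : ℕ) (g : ℂ[X]) (hg : g.natDegree ≤ M) (z : ℂ) :
    TT c (M + 1) ((X + C a) * g) z = z * TT c M g (z + 1) + a * ((z + c + M) * TT c M g z) := by
  rw [← TT_succ c M g hg, TT, TT, TT]
  simp only [add_mul, coeff_add, coeff_C_mul, Finset.sum_add_distrib]
  congr 1
  · rw [Finset.sum_range_succ', Finset.mul_sum]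
    simp only [coeff_X_mul, coeff_X_mul_zero, zero_mul, add_zero]
    refine Finset.sum_congr rfl fun k _ => ?_
    rw [po_succ', Nat.add_sub_add_right,
      show z + c + ((k + 1 : ℕ) : ℂ) = z + 1 + c + k by push_cast; ring]
    ring
  · rw [Finset.mul_sum]
    exact Finset.sum_congr rfl fun k _ => by ring

lemma TT_prod (c : ℝ) (hc : 0 < c) (L : Multiset ℝ) (hL : ∀ a ∈ L, 0 < a) :
    ∃ (K : ℝ) (r : ℕ → ℝ), 0 < K ∧ (∀ i < L.card, r i < 0 ∧ -(c + L.card) + 1 < r i) ∧
      (∀ i j, i < j → j < L.card → r j < r i - 1) ∧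
      ∀ z : ℂ, TT c L.card (L.map fun a : ℝ => X + C (a : ℂ)).prod z
        = K * ∏ i ∈ range L.card, (z - r i) := by
  induction L using Multiset.induction_on with
  | empty => exact ⟨1, fun _ => 0, one_pos, by simp, by simp, by simp [TT, po]⟩
  | cons a L ih =>
    obtain ⟨K, r, hK, hr1, hr2, hT⟩ := ih fun b hb => hL b (Multiset.mem_cons_of_mem hb)
    have ha := hL a (Multiset.mem_cons_self _ _)
    have hdeg : (L.map fun a : ℝ => X + C (a : ℂ)).prod.natDegree ≤ L.card := by
      refine (natDegree_multiset_prod_le _).trans ?_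
      simp [natDegree_X_add_C]
    rw [Multiset.card_cons, Multiset.map_cons, Multiset.prod_cons]
    generalize L.card = M at *
    have hM : (0 : ℝ) ≤ M := Nat.cast_nonneg M
    let α : ℕ → ℝ := fun i => Nat.casesOn i 0 fun i => r i - 1
    let β : ℕ → ℝ := fun i => if i < M then r i else -(c + M)
    have a0 : α 0 = 0 := rfl
    have a1 : ∀ i, α (i + 1) = r i - 1 := fun _ => rfl
    have b0 : ∀ i < M, β i = r i := fun i hi => if_pos hi
    have b1 : β M = -(c + M) := if_neg (lt_irrefl _)
    have h1 : ∀ i j, i ≤ j → j < M + 1 → β j < α i := by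
      intro i j hij hj
      rcases (Nat.lt_succ_iff.1 hj).lt_or_eq with h | rfl
      · rw [b0 j h]
        cases i with
        | zero => exact (hr1 j h).1
        | succ i => exact hr2 i j hij h
      · rw [b1]
        cases i with
        | zero => rw [a0]; linarith
        | succ i => rw [a1]; linarith [(hr1 i hij).2]
    have h2 : ∀ i j, i < j → j < M + 1 → α j < β i := by
      intro i j hij hj
      obtain ⟨j, rfl⟩ : ∃ k, j = k + 1 := ⟨j - 1, by omega⟩
      rw [a1, b0 i (by omega)]
      rcases (Nat.lt_succ_iff.1 hij).lt_or_eq with h | rfl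
      · linarith [hr2 i j h (by omega)]
      · linarith
    obtain ⟨s, hs, hz⟩ := interlace (M + 1) α β h1 h2 a ha
    refine ⟨K * (1 + a), s, by positivity, fun i hi => ⟨?_, ?_⟩, fun i j hij hj => ?_, fun z => ?_⟩
    · have := (hs i hi).2
      cases i with
      | zero => exact this
      | succ i => rw [a1] at this; linarith [(hr1 i (by omega)).1]
    · have := (hs i hi).1
      push_cast
      rcases (Nat.lt_succ_iff.1 hi).lt_or_eq with h | rfl
      · rw [b0 i h] at this; linarith [(hr1 i h).2]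
      · rw [b1] at this; linarith
    · obtain ⟨j, rfl⟩ : ∃ k, j = k + 1 := ⟨j - 1, by omega⟩
      have e1 := (hs (j + 1) hj).2
      have e2 := (hs i (by omega)).1
      rw [a1] at e1
      rw [b0 i (by omega)] at e2
      rcases (Nat.lt_succ_iff.1 hij).lt_or_eq with h | rfl
      · linarith [hr2 i j h (by omega)]
      · linarith
    · rw [TT_mul _ _ _ _ hdeg, hT, hT]
      have := hz z
      rw [Finset.prod_range_succ' _ M, Finset.prod_range_succ (fun i => z - β i) M, b1,
        Finset.prod_congr rfl fun i (hi : i ∈ range M) =>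
          show z - (β i : ℂ) = z - r i by rw [b0 i (mem_range.1 hi)],
        Finset.prod_congr rfl fun i (_ : i ∈ range M) =>
          show z - (α (i + 1) : ℂ) = z + 1 - r i by rw [a1]; push_cast; ring, a0] at this
      push_cast at this ⊢
      linear_combination K * this

lemma TT_neg (c : ℝ) (hc : 0 < c) (g : ℂ[X]) (hg : Neg g) (M : ℕ) (hM : g.natDegree ≤ M)
    (z : ℂ) (hz : TT c M g z = 0) : z.im = 0 ∧ z.re < 0 := by
  induction M, hM using Nat.le_induction with
  | base =>
    have hs := IsAlgClosed.splits g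
    obtain ⟨K, r, hK, hr1, -, hT⟩ := TT_prod c hc (g.roots.map fun w => -w.re) (by
      intro a ha
      obtain ⟨w, hw, rfl⟩ := Multiset.mem_map.1 ha
      exact neg_pos.2 (hg w (isRoot_of_mem_roots hw)).2)
    have e : ((g.roots.map fun w => -w.re).map fun a : ℝ => X + C (a : ℂ))
        = g.roots.map (X - C ·) := by
      rw [Multiset.map_map]
      refine Multiset.map_congr rfl fun w hw => ?_
      have := (hg w (isRoot_of_mem_roots hw)).1
      rw [Function.comp_apply, show ((-w.re : ℝ) : ℂ) = -w from Complex.ext (by simp)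
        (by simp [this]), C_neg, sub_eq_add_neg]
    rw [e, Multiset.card_map, ← hs.natDegree_eq_card_roots] at hT
    rw [Multiset.card_map, ← hs.natDegree_eq_card_roots] at hr1
    have e2 : TT c g.natDegree g z = g.leadingCoeff
        * TT c g.natDegree (g.roots.map (X - C ·)).prod z := by
      rw [TT, TT, Finset.mul_sum]
      refine Finset.sum_congr rfl fun k _ => ?_
      rw [← mul_assoc g.leadingCoeff, ← coeff_C_mul, ← hs.eq_prod_roots]
    rw [e2, hT, mul_eq_zero, mul_eq_zero, leadingCoeff_eq_zero, Finset.prod_eq_zero_iff] at hz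
    rcases hz with h | h | ⟨i, hi, h⟩
    · exact absurd h hg.ne_zero
    · exact absurd (Complex.ofReal_eq_zero.1 h) hK.ne'
    · rw [sub_eq_zero.1 h]
      exact ⟨by simp, by simpa using (hr1 i (mem_range.1 hi)).1⟩
  | succ M hM ih =>
    rw [TT_succ _ _ _ hM, mul_eq_zero] at hz
    rcases hz with h | h
    · have hM : (0 : ℝ) ≤ M := Nat.cast_nonneg M
      have h1 := congrArg Complex.re h
      have h2 := congrArg Complex.im h
      simp at h1 h2
      exact ⟨h2, by linarith⟩
    · exact ih h

lemma po_neg (z : ℂ) (k : ℕ) (h : po 1 (z + 1) k = 0) : z.im = 0 ∧ z.re < 0 := by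
  obtain ⟨i, -, h⟩ := Finset.prod_eq_zero_iff.1 h
  have hM : (0 : ℝ) ≤ i := Nat.cast_nonneg i
  have h1 := congrArg Complex.re h
  have h2 := congrArg Complex.im h
  simp at h1 h2
  exact ⟨h2, by linarith⟩

end Pool.Agent.H24.KS
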