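import Pool.Agent.H24.KS1

set_option autoImplicit false

open Finset Polynomial

namespace Pool.Agent.H24.KS

/-- polynomial with prescribed coefficients -/
noncomputable def pl (n : ℕ) (f : ℕ → ℂ) : ℂ[X] := ∑ k ∈ range (n + 1), monomial k (f k)

lemma pl_coeff (n : ℕ) (f : ℕ → ℂ) (k : ℕ) : (pl n f).coeff k = if k ≤ n then f k else 0 := by
  simp [pl, coeff_monomial, Nat.lt_succ_iff]

lemma pl_eval (n : ℕ) (f : ℕ → ℂ) (z : ℂ) :
    (pl n f).eval z = ∑ k ∈ range (n + 1), f k * z ^ k := by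
  simp [pl, eval_finsetSum]

lemma pl_deg (n : ℕ) (f : ℕ → ℂ) : (pl n f).natDegree ≤ n :=
  natDegree_le_iff_coeff_eq_zero.2 fun k hk => by rw [pl_coeff, if_neg (by omega)]

lemma D_neg (n : ℕ) (f : ℕ → ℂ) (hf : f n ≠ 0) (h : Neg (pl n f)) (t : ℂ)
    (ht : ∑ k ∈ range (n + 1), f k * f (n - k) * (n.choose k : ℂ) * t ^ k = 0) :
    t.im = 0 ∧ t.re < 0 := by
  have hd : (pl n f).natDegree = n :=
    natDegree_eq_of_le_of_coeff_ne_zero (pl_deg n f) (by rwa [pl_coeff, if_pos le_rfl])
  have hH : Neg (pl n fun k => f k * f (n - k)) := by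
    intro z hz
    refine malo _ _ h h n hd z ?_
    rw [← hz, pl_eval]
    refine Finset.sum_congr rfl fun k hk => ?_
    rw [pl_coeff, pl_coeff, if_pos (Nat.lt_succ_iff.1 (mem_range.1 hk)), if_pos (Nat.sub_le _ _)]
  have hB : Neg ((1 + X) ^ n) := by
    intro z hz
    simp only [eval_pow, eval_add, eval_one, eval_X] at hz
    rw [eq_neg_of_add_eq_zero_right (pow_eq_zero_iff'.1 hz).1]
    simp
  refine malo _ _ hH hB n (by rw [natDegree_pow, add_comm, ← C_1, natDegree_X_add_C, mul_one]) t ?_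
  rw [← ht]
  refine Finset.sum_congr rfl fun k hk => ?_
  have hk' := Nat.lt_succ_iff.1 (mem_range.1 hk)
  rw [pl_coeff, if_pos hk', coeff_one_add_X_pow, Nat.choose_symm hk']

theorem main (n : ℕ) (f : ℕ → ℂ) (hf : f n ≠ 0) (h : Neg (pl n f)) :
    (∀ z : ℂ, ∑ k ∈ range (n + 1), f k * f (n - k) * (n.choose k : ℂ)
      * (po 1 z k * po 1 z (n - k) - po 1 (z + 1) k * po 1 (z - 1) (n - k)) = 0) ∨
    ∀ z : ℂ, ∑ k ∈ range (n + 1), f k * f (n - k) * (n.choose k : ℂ)
      * (po 1 z k * po 1 z (n - k) - po 1 (z + 1) k * po 1 (z - 1) (n - k)) = 0 →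
      z.im = 0 ∧ z.re < 0 := by
  have hD := D_neg n f hf h
  obtain ⟨m, e, he, rfl⟩ : ∃ m e, e ≤ 1 ∧ n = 2 * m + e := ⟨n / 2, n % 2, by omega, by omega⟩
  obtain ⟨γ, h0, hγ⟩ := gamma_exp e he m
    (fun k => f k * f (2 * m + e - k) * ((2 * m + e).choose k : ℂ)) (by
      intro k hk
      rw [Nat.sub_sub_self hk, Nat.choose_symm hk]; ring)
  have hG : Neg (pl m fun j => γ j * 4 ^ (m - j)) := by
    intro u hu
    rw [pl_eval] at hu
    by_cases hu0 : u = 0
    · subst hu0
      rw [Finset.sum_range_succ'] at hu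
      simp only [pow_succ, mul_zero, sum_const_zero, pow_zero, mul_one, zero_add, mul_eq_zero,
        pow_eq_zero_iff', OfNat.ofNat_ne_zero, false_and, or_false] at hu
      refine hD 0 ?_
      rw [Finset.sum_range_succ', ← h0, hu]
      simp
    obtain ⟨s, hs⟩ := IsAlgClosed.exists_eq_mul_self (1 - u)
    obtain ⟨t, ht⟩ : ∃ t, u * (1 + t) ^ 2 = 4 * t :=
      ⟨(2 - u + 2 * s) / u, by field_simp; linear_combination (-4) * hs⟩
    have ht1 : 1 + t ≠ 0 := by
      intro h
      rw [h, eq_neg_of_add_eq_zero_right h] at ht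
      norm_num at ht
    have g := hγ 0 t 1
    simp only [po_pow, one_pow, mul_one, mul_zero, add_zero] at g
    obtain ⟨a1, a2⟩ := hD t (by
      rw [g]
      apply mul_left_cancel₀ (pow_ne_zero m (show (4 : ℂ) ≠ 0 by norm_num))
      rw [mul_zero, ← mul_zero ((1 + t) ^ (2 * m + e)), ← hu, Finset.mul_sum, Finset.mul_sum]
      refine Finset.sum_congr rfl fun j hj => ?_
      obtain ⟨k, rfl⟩ := Nat.exists_eq_add_of_le (Nat.lt_succ_iff.1 (mem_range.1 hj))
      have : u ^ j * (1 + t) ^ (2 * j) = 4 ^ j * t ^ j := by rw [pow_mul, ← mul_pow, ht, mul_pow]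
      rw [Nat.add_sub_cancel_left, add_comm t 1]
      linear_combination (-(γ j * 4 ^ k * (1 + t) ^ (2 * k + e))) * this)
    have e1 : u = ((4 * t.re / (1 + t.re) ^ 2 : ℝ) : ℂ) := by
      have : (t.re : ℂ) = t := Complex.ext (by simp) (by simp [a1])
      push_cast
      rw [this, eq_div_iff (pow_ne_zero 2 ht1), ht]
    have e2 : 1 + t.re ≠ 0 := fun h => ht1 (Complex.ext (by simpa using h) (by simpa using a1))
    rw [e1]
    exact ⟨Complex.ofReal_im _, by
      rw [Complex.ofReal_re]; exact div_neg_of_neg_of_pos (by linarith) (by positivity)⟩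
  have hP : ∀ z : ℂ, ∑ k ∈ range (2 * m + e + 1), f k * f (2 * m + e - k)
      * ((2 * m + e).choose k : ℂ) * (po 1 z k * po 1 z (2 * m + e - k)
        - po 1 (z + 1) k * po 1 (z - 1) (2 * m + e - k))
      = ∑ j ∈ range (m + 1), γ j * ((po 1 z j * po 1 z j - po 1 (z + 1) j * po 1 (z - 1) j)
        * po 1 (2 * (z + j)) (2 * (m - j) + e)) := by
    intro z
    simp only [mul_sub, Finset.sum_sub_distrib, sub_mul]
    rw [hγ, hγ]
    congr 1 <;> refine Finset.sum_congr rfl fun j _ => ?_ <;> congr 3 <;> ring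
  simp only [hP]
  cases m with
  | zero => left; intro z; simp [po]
  | succ M =>
    set g := derivative (pl (M + 1) fun j => γ j * 4 ^ (M + 1 - j)) with hg
    have hQ : ∀ z : ℂ, ∑ j ∈ range (M + 1 + 1), γ j * ((po 1 z j * po 1 z j
        - po 1 (z + 1) j * po 1 (z - 1) j) * po 1 (2 * (z + j)) (2 * (M + 1 - j) + e))
        = 2 ^ e * po 1 (z + 1) (M + e) * TT ((3 / 2 : ℝ) : ℂ) M g z := by
      intro z
      rw [Finset.sum_range_succ', TT, Finset.mul_sum]
      simp only [po_zero, mul_one, sub_self, zero_mul, mul_zero, add_zero]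
      refine Finset.sum_congr rfl fun i hi => ?_
      obtain ⟨k, rfl⟩ := Nat.exists_eq_add_of_le (Nat.lt_succ_iff.1 (mem_range.1 hi))
      have a1 : po 1 z (i + 1) * po 1 z (i + 1) - po 1 (z + 1) (i + 1) * po 1 (z - 1) (i + 1)
          = (i + 1) * (po 1 (z + 1) i * po 1 z i) := by
        nth_rewrite 1 [po_succ']
        rw [po_succ, po_succ, po_succ', sub_add_cancel]
        ring
      have a2 : po 1 (2 * (z + ((i + 1 : ℕ) : ℂ))) (2 * k + e)
          = 2 ^ e * 4 ^ k * (po 1 (z + 1 + i * 1) (k + e) * po 1 (z + 3 / 2 + i) k) := by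
        have := po_dup (z + ((i + 1 : ℕ) : ℂ)) k
        rw [show z + ((i + 1 : ℕ) : ℂ) + 1 / 2 = z + 3 / 2 + i by push_cast; ring] at this
        rw [show z + 1 + i * 1 = z + ((i + 1 : ℕ) : ℂ) by push_cast; ring]
        interval_cases e
        · simpa using this
        · rw [po_succ, po_succ, this]; push_cast; ring
      rw [a1, hg, coeff_derivative, pl_coeff, if_pos (by omega), Nat.add_sub_add_right,
        Nat.add_sub_cancel_left, a2, add_assoc i k e, po_add 1 (z + 1) i]
      push_cast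
      ring
    simp only [hQ]
    by_cases hg0 : g = 0
    · left; intro z; simp [hg0, TT]
    · right
      intro z hz
      have hN : Neg g := gl_step neg_convex _ hG hg0
      rw [mul_eq_zero, mul_eq_zero] at hz
      rcases hz with (h | h) | h
      · simp at h
      · exact po_neg z _ h
      · refine TT_neg (3 / 2) (by norm_num) g hN M ?_ z h
        have := natDegree_derivative_le (pl (M + 1) fun j => γ j * 4 ^ (M + 1 - j))
        have := pl_deg (M + 1) fun j => γ j * 4 ^ (M + 1 - j)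
        rw [hg]; omega

end Pool.Agent.H24.KS
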