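import Pool.Agent.H24.Rom3

open Finset Real

namespace Pool.Agent.H24.Last

theorem wsum (w : ℕ → ℝ) (K : Finset ℕ) (hw : ∀ a ∈ K, 0 ≤ w a ∧ w a ≤ 1 / 2) (S : Finset (Multiset ℕ))
    (hS : ∀ X ∈ S, ∀ a ∈ X, a ∈ K) : ∑ X ∈ S, (X.map w).prod ≤ exp (2 * ∑ a ∈ K, w a) := by
  set J := S.sup Multiset.card + 1 with hJ
  have e : ∀ X ∈ S, (X.map w).prod = ∏ a ∈ K.attach, w a ^ X.count a.1 := fun X hX => by
    rw [prod_attach K fun a => w a ^ X.count a, prod_multiset_map_count]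
    exact prod_subset (fun a ha => hS X hX a (Multiset.mem_toFinset.1 ha)) fun a _ ha => by
      rw [Multiset.count_eq_zero_of_notMem (by simpa using ha), pow_zero]
  calc _ = ∑ X ∈ S, ∏ a ∈ K.attach, w a ^ X.count a.1 := sum_congr rfl e
    _ = ∑ e ∈ S.image fun X => fun a (_ : a ∈ K) => X.count a, ∏ a ∈ K.attach, w a ^ e a.1 a.2 := by
      rw [sum_image fun X hX Y hY h => Multiset.ext.2 fun a => ?_]
      by_cases ha : a ∈ K
      · exact congrFun (congrFun h a) ha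
      · rw [Multiset.count_eq_zero_of_notMem fun h => ha (hS X hX a h),
          Multiset.count_eq_zero_of_notMem fun h => ha (hS Y hY a h)]
    _ ≤ ∑ e ∈ K.pi fun _ => range J, ∏ a ∈ K.attach, w a ^ e a.1 a.2 := by
      refine sum_le_sum_of_subset_of_nonneg (image_subset_iff.2 fun X hX => mem_pi.2 fun a _ => ?_)
        fun _ _ _ => prod_nonneg fun a _ => pow_nonneg (hw a a.2).1 _
      exact mem_range.2 (Nat.lt_succ_of_le ((Multiset.count_le_card _ _).trans (le_sup hX)))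
    _ = ∏ a ∈ K, ∑ j ∈ range J, w a ^ j := (prod_sum K (fun _ => range J) fun a j => w a ^ j).symm
    _ ≤ ∏ a ∈ K, exp (2 * w a) := by
      refine prod_le_prod (fun a ha => sum_nonneg fun _ _ => pow_nonneg (hw a ha).1 _) fun a ha => ?_
      obtain ⟨h0, h1⟩ := hw a ha
      have h2 := geom_sum_mul_neg (w a) J
      have h3 : 0 ≤ ∑ j ∈ range J, w a ^ j := sum_nonneg fun _ _ => pow_nonneg h0 _
      refine le_trans (le_of_mul_le_mul_right ?_ (by linarith : 0 < 1 - w a)) (add_one_le_exp _)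
      nlinarith [pow_nonneg h0 J]
    _ = _ := by rw [mul_sum, exp_sum]

theorem card_fac (s : ℝ) (hs : 1 < s) : ∃ C : ℝ, 0 < C ∧ ∀ (M : ℕ) (S : Finset (Multiset ℕ)),
    (∀ X ∈ S, (∀ a ∈ X, 2 ≤ a) ∧ X.prod ≤ M) → (#S : ℝ) ≤ C * M ^ s := by
  have hz : Summable fun a : ℕ => (a : ℝ) ^ (-s) := summable_nat_rpow.2 (by linarith)
  refine ⟨exp (2 * ∑' a : ℕ, (a : ℝ) ^ (-s)), exp_pos _, fun M S hS => ?_⟩
  have h1 := wsum (fun a => (a : ℝ) ^ (-s)) (Icc 2 M) (fun a ha => ⟨by positivity, ?_⟩) S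
    fun X hX a ha => mem_Icc.2 ⟨(hS X hX).1 a ha, (Multiset.single_le_prod
      (fun b hb => by have := (hS X hX).1 b hb; omega) a ha).trans (hS X hX).2⟩
  · have h2 := hz.sum_le_tsum (Icc 2 M) fun _ _ => by positivity
    have e : ∀ X : Multiset ℕ, (X.map fun a : ℕ => (a : ℝ) ^ (-s)).prod = (X.prod : ℝ) ^ (-s) :=
      fun X => by
        induction X using Multiset.induction_on with
        | empty => simp
        | cons a X ih => rw [Multiset.map_cons, Multiset.prod_cons, Multiset.prod_cons, ih, Nat.cast_mul,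
            mul_rpow (by positivity) (by positivity)]
    calc (#S : ℝ) = ∑ X ∈ S, 1 := by simp
      _ ≤ ∑ X ∈ S, (X.prod : ℝ) ^ (-s) * M ^ s := sum_le_sum fun X hX => by
        have : 0 < X.prod := Multiset.prod_pos fun a ha => by have := (hS X hX).1 a ha; omega
        rw [rpow_neg (by positivity), ← div_eq_inv_mul, one_le_div (by positivity)]
        gcongr; exact_mod_cast (hS X hX).2
      _ ≤ _ := by
        rw [← sum_mul]; simp only [e] at h1
        gcongr; exact h1.trans (by gcongr)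
  · have : (2 : ℝ) ≤ a := by exact_mod_cast (mem_Icc.1 ha).1
    calc (a : ℝ) ^ (-s) ≤ (a : ℝ) ^ (-1 : ℝ) := rpow_le_rpow_of_exponent_le (by linarith) (by linarith)
      _ ≤ _ := by rw [rpow_neg_one, one_div]; gcongr

theorem fin_fac (M : ℕ) : {X : Multiset ℕ | (∀ a ∈ X, 2 ≤ a) ∧ X.prod ≤ M}.Finite := by
  by_contra h
  obtain ⟨C, _, hC⟩ := card_fac 2 (by norm_num)
  obtain ⟨n, hn⟩ := exists_nat_gt (C * (M : ℝ) ^ (2 : ℝ))
  obtain ⟨S, h1, h2⟩ := Set.Infinite.exists_subset_card_eq h n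
  have := hC M S fun X hX => h1 hX
  rw [h2] at this
  linarith

theorem pz (X : Multiset ℕ) (h : ∀ a ∈ X, 2 ≤ a) : ∃ Z, X.sum = Z + X.card ∧ Z + 1 ≤ X.prod ∧
    (X.prod = Z + 1 ∨ 4 * Z ≤ 3 * X.prod) := by
  induction X using Multiset.induction_on with
  | empty => exact ⟨0, by simp⟩
  | cons a X ih =>
    obtain ⟨Z, h1, h2, h3⟩ := ih fun b hb => h b (Multiset.mem_cons_of_mem hb)
    obtain ⟨a, rfl⟩ := Nat.exists_eq_add_of_le (h a (Multiset.mem_cons_self _ _))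
    refine ⟨Z + 1 + a, by simp [h1]; ring, ?_⟩
    rw [Multiset.prod_cons]
    refine ⟨by nlinarith, ?_⟩
    rcases (by omega : X.prod = 1 ∨ 2 ≤ X.prod) with c | c
    · left; rw [c]; omega
    · right; nlinarith

/-- coding pairs -/
noncomputable def P (M : ℕ) : Finset (Σ _ : Multiset ℕ, ℕ) :=
  (fin_fac M).toFinset.sigma fun X => (X.prod + (X.sum - X.card) - 1).divisors

/-- the prime recovered from a code -/
def pr (c : Σ _ : Multiset ℕ, ℕ) : ℕ := (c.1.prod * (c.2 - 1) + 1 - (c.1.sum - c.1.card)) / c.2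

theorem sol (p M : ℕ) (hp : p.Prime) (hM : 8 * p ≤ M) :
    Set.ncard {x : Fin p → ℕ | Monotone x ∧ (∀ i, 0 < x i) ∧ (∏ i, x i) = p * ∑ i, x i} ≤
      #((P M).filter fun c => pr c = p) := by
  rw [← Set.InjOn.ncard_image (f := fun x : Fin p → ℕ => univ.val.map x), ← Set.ncard_coe_finset]
  · refine le_trans (Set.ncard_le_ncard ?_ ((finite_toSet _).image _)) (Set.ncard_image_le
      (f := fun c : Σ _ : Multiset ℕ, ℕ => (p * (c.2 - 1)) ::ₘ
        (c.1 + Multiset.replicate (p - 1 - c.1.card) 1)) (finite_toSet _))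
    rintro _ ⟨x, ⟨-, h1, h2⟩, rfl⟩
    have h3 : (univ.val.map x).prod = p * (univ.val.map x).sum := h2
    have h4 : (univ.val.map x).card = p := by simp
    have h5 : ∀ a ∈ univ.val.map x, 0 < a := by simpa using h1
    beta_reduce
    generalize univ.val.map x = m at h3 h4 h5 ⊢
    obtain ⟨a, ha, y, rfl⟩ := (hp.prime.exists_mem_multiset_dvd (Dvd.intro _ h3.symm))
    obtain ⟨m, rfl⟩ := Multiset.exists_cons_of_mem ha
    set X := m.filter (2 ≤ ·) with hX
    have e : m = X + Multiset.replicate (m.filter (¬ 2 ≤ ·)).card 1 := by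
      rw [← Multiset.eq_replicate_card.2 fun b hb => by
        have := Multiset.mem_filter.1 hb
        have := h5 b (Multiset.mem_cons_of_mem this.1)
        omega, Multiset.filter_add_not]
    have h6 : ∀ a ∈ X, 2 ≤ a := fun a ha => (Multiset.mem_filter.1 ha).2
    obtain ⟨Z, z1, z2, z3⟩ := pz X h6
    have y0 : 0 < y := Nat.pos_of_mul_pos_left (h5 _ ha)
    generalize (m.filter (¬ 2 ≤ ·)).card = r at e
    clear_value X
    subst e
    simp only [Multiset.prod_cons, Multiset.sum_cons, Multiset.card_cons, Multiset.prod_add,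
      Multiset.sum_add, Multiset.card_add, Multiset.prod_replicate, Multiset.sum_replicate,
      Multiset.card_replicate, one_pow, mul_one, smul_eq_mul, mul_assoc] at h3 h4
    have h7 := Nat.eq_of_mul_eq_mul_left hp.pos h3
    have p2 := hp.two_le
    have h8 : y * X.prod + 1 = p * y + Z + p := by omega
    have h9 : X.sum - X.card = Z := by omega
    have q2 : p < X.prod := by
      by_contra c
      nlinarith
    refine ⟨⟨X, y + 1⟩, ?_, ?_⟩
    · simp only [P, pr, coe_filter, mem_sigma, Set.Finite.mem_toFinset, Set.mem_ofPred_eq, h9,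
        Nat.mem_divisors, Nat.add_sub_cancel]
      refine ⟨⟨⟨h6, le_trans ?_ hM⟩, ⟨X.prod - p, ?_⟩, by omega⟩, Nat.div_eq_of_eq_mul_left (by omega) ?_⟩
      · rcases (by omega : y = 1 ∨ 2 ≤ y) with rfl | c
        · omega
        · obtain ⟨y, rfl⟩ := Nat.exists_eq_add_of_le c
          by_contra c
          nlinarith
      · obtain ⟨d, hd⟩ := Nat.exists_eq_add_of_le q2.le
        rw [hd] at h8 ⊢
        rw [Nat.add_sub_cancel_left]
        apply Nat.sub_eq_of_eq_add; nlinarith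
      · apply Nat.sub_eq_of_eq_add; nlinarith
    · simp only [Nat.add_sub_cancel]; rw [show p - 1 - X.card = r by omega]
  · intro x hx y hy h
    simp only [Fin.univ_val_map, Multiset.coe_eq_coe] at h
    exact List.ofFn_injective (h.eq_of_sortedLE hx.1.sortedLE_ofFn hy.1.sortedLE_ofFn)

theorem cardP (k : ℕ) (hk : k ≠ 0) : ∃ C : ℝ, 0 < C ∧ ∀ t : ℕ, 0 < t →
    (#(P (8 * t ^ (2 * k))) : ℝ) ≤ C * (t ^ (2 * k) * t ^ 4) := by
  have k1 : (1 : ℝ) ≤ k := by exact_mod_cast Nat.pos_of_ne_zero hk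
  obtain ⟨C, C0, hC⟩ := card_fac (1 + (k : ℝ)⁻¹) (by simp; omega)
  obtain ⟨D, hD⟩ := Rom.tau_bound k
  refine ⟨C * 64 * (16 * D + 1), by positivity, fun t ht => ?_⟩
  have h1 := hC (8 * t ^ (2 * k)) (fin_fac _).toFinset fun X hX => (fin_fac _).mem_toFinset.1 hX
  have h2 : #(P (8 * t ^ (2 * k))) ≤ #(fin_fac (8 * t ^ (2 * k))).toFinset * ((16 * D + 1) * t ^ 2) := by
    rw [P, card_sigma]
    refine sum_le_card_nsmul _ _ _ fun X hX => ?_
    obtain ⟨h3, h4⟩ := (fin_fac _).mem_toFinset.1 hX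
    obtain ⟨Z, z1, z2, -⟩ := pz X h3
    rcases eq_or_ne (X.prod + (X.sum - X.card) - 1) 0 with c | c
    · simp [c]
    refine le_of_pow_le_pow_left₀ hk (Nat.zero_le _) ((hD _ c).trans ?_)
    rw [mul_pow, ← pow_mul]
    calc _ ≤ D * (16 * t ^ (2 * k)) := Nat.mul_le_mul_left _ (by omega)
      _ ≤ (16 * D + 1) * t ^ (2 * k) := by nlinarith [Nat.zero_le (t ^ (2 * k))]
      _ ≤ _ := by gcongr; exact Nat.le_self_pow hk _
  have h3 : ((8 * t ^ (2 * k) : ℕ) : ℝ) ^ (1 + (k : ℝ)⁻¹) ≤ 64 * (t ^ (2 * k) * t ^ 2) := by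
    push_cast
    rw [rpow_add (by positivity), rpow_one, mul_rpow (by norm_num) (by positivity), pow_mul,
      pow_rpow_inv_natCast (by positivity) hk]
    have : (8 : ℝ) ^ (k : ℝ)⁻¹ ≤ 8 := by
      simpa using rpow_le_rpow_of_exponent_le (by norm_num : (1 : ℝ) ≤ 8) (inv_le_one_of_one_le₀ k1)
    calc _ ≤ 8 * ((t : ℝ) ^ 2) ^ k * (8 * t ^ 2) := by gcongr
      _ = _ := by ring
  calc (#(P (8 * t ^ (2 * k))) : ℝ) ≤ #(fin_fac (8 * t ^ (2 * k))).toFinset * ((16 * D + 1) * t ^ 2) := by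
        exact_mod_cast h2
    _ ≤ C * (64 * (t ^ (2 * k) * t ^ 2)) * ((16 * D + 1) * t ^ 2) := by
        gcongr; exact h1.trans (by gcongr)
    _ = _ := by ring

theorem main : ¬ (∃ ε : ℝ, 0 < ε ∧ ∃ N : ℕ, ∀ n : ℕ, N ≤ n → (n : ℝ) ^ ε <
    ((Set.ncard {x : Fin n → ℕ | Monotone x ∧ (∀ i, 0 < x i) ∧
      (∏ i, x i) = n * ∑ i, x i} : ℕ) : ℝ)) := by
  rintro ⟨ε, hε, N, h⟩
  obtain ⟨k, hk⟩ := exists_nat_gt (max 4 (8 / ε))
  rw [max_lt_iff, div_lt_iff₀ hε] at hk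
  have k4 : 4 < k := by exact_mod_cast hk.1
  obtain ⟨C, C0, hC⟩ := cardP k (by omega)
  obtain ⟨j, hj⟩ := exists_nat_gt (max (N : ℝ) ((4 * k + 2) * (C + 2)))
  rw [max_lt_iff] at hj
  have jN : N < j := by exact_mod_cast hj.1
  set t := 2 ^ j with ht
  have tj : j < t := Nat.lt_two_pow_self
  have t0 : 0 < t := by omega
  set S := (Ioc (t ^ k) (t ^ (2 * k))).filter Nat.Prime with hS
  have h1 : (#S : ℝ) * t ^ 8 ≤ C * (t ^ (2 * k) * t ^ 4) := by
    refine le_trans ?_ (hC t t0)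
    have := (sum_card_fiberwise_eq_card_filter (P (8 * t ^ (2 * k))) S pr).trans_le (card_filter_le _ _)
    refine le_trans ?_ (Nat.cast_le.2 this)
    rw [Nat.cast_sum, ← nsmul_eq_mul]
    refine card_nsmul_le_sum _ _ _ fun p hp => ?_
    obtain ⟨h2, h3⟩ := mem_filter.1 hp
    rw [mem_Ioc] at h2
    have : t ≤ t ^ k := Nat.le_self_pow (by omega) _
    refine le_trans ?_ ((h p (by omega)).le.trans (Nat.cast_le.2 (sol p _ h3 (by omega))))
    calc (t : ℝ) ^ 8 = (t : ℝ) ^ (8 : ℝ) := by norm_cast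
      _ ≤ (t : ℝ) ^ ((k : ℝ) * ε) := rpow_le_rpow_of_exponent_le (by exact_mod_cast t0) hk.2.le
      _ = ((t : ℝ) ^ k) ^ ε := by rw [rpow_mul (by positivity), rpow_natCast]
      _ ≤ _ := by gcongr; exact_mod_cast h2.1.le
  have h2 := Rom.pi_low (t ^ (2 * k))
  have h3 := Rom.card_pr (t ^ k) (t ^ (2 * k))
  rw [← hS] at h3
  have h4 : Nat.log 2 (t ^ (2 * k)) = j * (2 * k) := by rw [ht, ← pow_mul, Nat.log_pow (by norm_num)]
  have h5 : (1 : ℕ) ≤ t ^ k := Nat.one_le_pow _ _ t0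
  have h6 : t ^ (2 * k) ≤ (4 * k + 2) * t * (#S + 2 * t ^ k) := by
    rw [h4] at h2
    refine h2.trans (Nat.mul_le_mul (by nlinarith) (by omega))
  have h7 : t ^ k * t ^ 4 ≤ t ^ (2 * k) := by
    rw [← pow_add]; exact Nat.pow_le_pow_right t0 (by omega)
  have h6 : (t : ℝ) ^ (2 * k) ≤ (4 * k + 2) * t * (#S + 2 * t ^ k) := by exact_mod_cast h6
  have h7 : (t : ℝ) ^ k * t ^ 4 ≤ t ^ (2 * k) := by exact_mod_cast h7
  have t1 : (1 : ℝ) ≤ t := by exact_mod_cast t0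
  have tj : (j : ℝ) < t := by exact_mod_cast tj
  have h8 : (#S : ℝ) * t ^ 4 ≤ C * t ^ (2 * k) :=
    le_of_mul_le_mul_right (by linarith)
      (by positivity : (0 : ℝ) < t ^ 4)
  have h9 : (t : ℝ) ^ (2 * k) * t ^ 4 ≤ t ^ (2 * k) * ((4 * k + 2) * (C + 2) * t) :=
    calc _ ≤ (4 * k + 2) * t * (#S + 2 * t ^ k) * (t : ℝ) ^ 4 := by gcongr
      _ = (4 * k + 2) * t * (#S * t ^ 4 + 2 * (t ^ k * t ^ 4)) := by ring
      _ ≤ (4 * k + 2) * t * (C * t ^ (2 * k) + 2 * t ^ (2 * k)) := by gcongr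
      _ = _ := by ring
  have h10 := le_of_mul_le_mul_left h9 (by positivity)
  have : (t : ℝ) ^ 2 ≤ t ^ 4 := pow_le_pow_right₀ t1 (by norm_num)
  nlinarith [hj.2]

end Pool.Agent.H24.Last
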