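import Mathlib

set_option autoImplicit false

open Finset Matrix Polynomial

namespace Pool.Agent.H24.Leg

variable {n : ℕ}

/-- coefficient matrix of a family of polynomials -/
noncomputable def cm (N : Fin n → ℂ[X]) : Matrix (Fin n) (Fin n) ℂ := of fun c j => (N c).coeff j

lemma cm_mul (N : Fin n → ℂ[X]) (hN : ∀ c, (N c).natDegree < n) (y : Fin n → ℂ) :
    cm N * (vandermonde y)ᵀ = of fun c b => (N c).eval (y b) := by
  ext c b
  simp only [cm, mul_apply, of_apply, transpose_apply, vandermonde_apply]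
  rw [eval_eq_sum_range' (hN c), Finset.sum_range]

lemma norm_vand_sq (y : Fin n → ℂ) :
    ‖(vandermonde y).det‖ ^ 2 = ∏ i, ∏ j ∈ univ.erase i, ‖y j - y i‖ := by
  have h := Finset.prod_prod_Ioi_mul_eq_prod_prod_off_diag (fun j i : Fin n => ‖y j - y i‖)
  simp only [compl_singleton] at h
  rw [← h, det_vandermonde, norm_prod, ← Finset.prod_pow]
  refine Finset.prod_congr rfl fun i _ => ?_
  rw [norm_prod, ← Finset.prod_pow]
  refine Finset.prod_congr rfl fun j _ => ?_
  rw [norm_sub_rev (y i), sq]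

lemma natDeg_lin (a b : ℂ) : (C a * X - C b : ℂ[X]).natDegree ≤ 1 := by
  compute_degree

lemma natDeg_prod_erase (b : Fin n) (f : Fin n → ℂ[X]) (hf : ∀ c, (f c).natDegree ≤ 1) :
    (∏ c ∈ univ.erase b, f c).natDegree < n := by
  have h1 : (∏ c ∈ univ.erase b, f c).natDegree ≤ ∑ c ∈ univ.erase b, (f c).natDegree :=
    natDegree_prod_le _ _
  have h2 : ∑ c ∈ univ.erase b, (f c).natDegree ≤ ∑ c ∈ univ.erase b, 1 :=
    Finset.sum_le_sum fun c _ => hf c
  have h3 : 0 < n := Fin.pos b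
  simp only [sum_const, card_erase_of_mem (mem_univ b), card_univ, Fintype.card_fin,
    smul_eq_mul, mul_one] at h2
  omega

lemma inv_inj {x : Fin n → ℂ} (hx : Function.Injective x) :
    Function.Injective fun i => (x i)⁻¹ := fun _ _ h => hx (inv_injective h)

lemma norm_vand_inv (x : Fin n → ℂ) (h1 : ∀ i, ‖x i‖ = 1) :
    ‖(vandermonde fun i => (x i)⁻¹).det‖ = ‖(vandermonde x).det‖ := by
  have : ‖(vandermonde fun i => (x i)⁻¹).det‖ ^ 2 = ‖(vandermonde x).det‖ ^ 2 := by
    rw [norm_vand_sq, norm_vand_sq]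
    refine Finset.prod_congr rfl fun i _ => Finset.prod_congr rfl fun j _ => ?_
    have hi : x i ≠ 0 := by intro h; have := h1 i; simp [h] at this
    have hj : x j ≠ 0 := by intro h; have := h1 j; simp [h] at this
    have : (x j)⁻¹ - (x i)⁻¹ = (x i - x j) / (x i * x j) := by field_simp
    rw [this, norm_div, norm_mul, h1, h1, norm_sub_rev]; simp
  exact (pow_left_inj₀ (norm_nonneg _) (norm_nonneg _) two_ne_zero).1 this

/-- the skew matrix of Schur type -/
noncomputable def Km (x : Fin n → ℂ) : Matrix (Fin n) (Fin n) ℂ :=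
  of fun c b => (x c - x b) / (x b * x c - 1)

/-- its rank one shift, of Cauchy type -/
noncomputable def Cm (x : Fin n → ℂ) : Matrix (Fin n) (Fin n) ℂ :=
  of fun c b => (x c - 1) * (x b + 1) / (x b * x c - 1)

lemma Cm_eq (x : Fin n → ℂ) (hx : ∀ i j, x i * x j ≠ 1) (c b : Fin n) :
    Cm x c b = Km x c b + 1 := by
  have := sub_ne_zero.2 (hx b c)
  simp only [Cm, Km, of_apply]
  rw [div_add_one this]
  congr 1
  ring

lemma Km_T (x : Fin n → ℂ) : (Km x)ᵀ = -Km x := by
  ext c b
  simp only [Km, transpose_apply, of_apply, Matrix.neg_apply]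
  rw [mul_comm (x c), ← neg_div, neg_sub]

lemma det_skew {R : Type*} [CommRing R] [IsDomain R] [CharZero R] (hn : Odd n)
    (M : Matrix (Fin n) (Fin n) R) (h : Mᵀ = -M) : M.det = 0 := by
  have h1 : M.det = (-M).det := by rw [← h, det_transpose]
  rw [det_neg, Fintype.card_fin, hn.neg_one_pow] at h1
  have : (2 : R) * M.det = 0 := by linear_combination h1
  simpa using this

noncomputable def Qb (x : Fin n → ℂ) (b : Fin n) : ℂ[X] :=
  ∏ c ∈ univ.erase b, (C (x c) * X - C 1)

lemma Qb_eval (x : Fin n → ℂ) (b : Fin n) (t : ℂ) :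
    (Qb x b).eval t * (x b * t - 1) = ∏ c, (x c * t - 1) := by
  rw [← Finset.prod_erase_mul _ _ (mem_univ b), Qb, eval_prod]
  simp

lemma norm_det_Cm (x : Fin n → ℂ) (hinj : Function.Injective x) (h1 : ∀ i, ‖x i‖ = 1)
    (hx : ∀ i j, x i * x j ≠ 1) :
    ‖(Cm x).det‖ * ∏ c, ∏ b, ‖x b * x c - 1‖
      = (∏ c, ‖x c ^ 2 - 1‖) * ∏ i, ∏ j ∈ univ.erase i, ‖x j - x i‖ := by
  have h0 : ∀ i, x i ≠ 0 := by intro i h; have := h1 i; simp [h] at this
  have hdeg : ∀ b, (Qb x b).natDegree < n := fun b =>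
    natDeg_prod_erase b _ fun c => natDeg_lin _ _
  have hA : cm (Qb x) * (vandermonde fun i => (x i)⁻¹)ᵀ
      = diagonal fun b => ∏ c ∈ univ.erase b, (x c * (x b)⁻¹ - 1) := by
    rw [cm_mul _ hdeg]
    ext b c
    by_cases h : b = c
    · subst h; simp [Qb, eval_prod]
    · rw [diagonal_apply_ne _ h, of_apply, Qb, eval_prod]
      refine Finset.prod_eq_zero (i := c) (by simp [Ne.symm h]) ?_
      simp [h0 c]
  have hB : diagonal (fun c => ∏ b, (x b * x c - 1)) * Cm x
      = diagonal (fun c => x c - 1) * (cm (Qb x) * (vandermonde x)ᵀ)ᵀ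
        * diagonal (fun b => x b + 1) := by
    rw [cm_mul _ hdeg]
    ext c b
    simp only [diagonal_mul, mul_diagonal, transpose_apply, of_apply, Cm]
    rw [← Qb_eval x b (x c)]
    have := sub_ne_zero.2 (hx b c)
    field_simp
  have hA' := congrArg (fun M => ‖det M‖) hA
  have hB' := congrArg (fun M => ‖det M‖) hB
  simp only [det_mul, det_transpose, det_diagonal, norm_mul, norm_prod] at hA' hB'
  rw [norm_vand_inv x h1] at hA'
  rw [mul_comm, hB', hA']
  have e1 : ∏ c, ‖x c ^ 2 - 1‖ = (∏ c, ‖x c - 1‖) * ∏ c, ‖x c + 1‖ := by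
    rw [← Finset.prod_mul_distrib]
    refine Finset.prod_congr rfl fun c _ => ?_
    rw [← norm_mul]; congr 1; ring
  have e2 : ∏ i, ∏ j ∈ univ.erase i, ‖x j * (x i)⁻¹ - 1‖
      = ∏ i, ∏ j ∈ univ.erase i, ‖x j - x i‖ := by
    refine Finset.prod_congr rfl fun i _ => Finset.prod_congr rfl fun j _ => ?_
    have hi := h0 i
    have : x j * (x i)⁻¹ - 1 = (x j - x i) / x i := by field_simp
    rw [this, norm_div, h1, div_one]
  rw [e1, e2]; ring

lemma det_Cm_ne (x : Fin n → ℂ) (hinj : Function.Injective x) (h1 : ∀ i, ‖x i‖ = 1)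
    (hx : ∀ i j, x i * x j ≠ 1) : (Cm x).det ≠ 0 := by
  intro h
  have := norm_det_Cm x hinj h1 hx
  rw [h, norm_zero, zero_mul] at this
  refine (mul_ne_zero ?_ ?_) this.symm
  · refine Finset.prod_ne_zero_iff.2 fun c _ => norm_ne_zero_iff.2 (sub_ne_zero.2 ?_)
    rw [sq]; exact hx c c
  · refine Finset.prod_ne_zero_iff.2 fun i _ => Finset.prod_ne_zero_iff.2 fun j hj =>
      norm_ne_zero_iff.2 (sub_ne_zero.2 fun h => ?_)
    exact (mem_erase.1 hj).1 (hinj h)

lemma Cm_mulVec (x : Fin n → ℂ) (hx : ∀ i j, x i * x j ≠ 1) (v : Fin n → ℂ) :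
    Cm x *ᵥ v = Km x *ᵥ v + fun _ => ∑ b, v b := by
  ext c
  simp only [mulVec, dotProduct, Cm_eq x hx, Pi.add_apply, add_mul, one_mul,
    Finset.sum_add_distrib]

/-- the normalised kernel vector and its generating identity -/
lemma exists_beta (hn : Odd n) (x : Fin n → ℂ) (hinj : Function.Injective x)
    (h1 : ∀ i, ‖x i‖ = 1) (hx : ∀ i j, x i * x j ≠ 1) :
    ∃ β : Fin n → ℂ, Km x *ᵥ β = 0 ∧ ∑ b, β b = 1 ∧
      ∀ t : ℂ, (∀ b, x b * t ≠ 1) →
        ∑ b, β b * ((t - x b) / (x b * t - 1)) = ∏ b, ((t - x b) / (x b * t - 1)) := by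
  obtain ⟨v, hv0, hv⟩ := exists_mulVec_eq_zero_iff.2 (det_skew hn _ (Km_T x))
  have hs : ∑ b, v b ≠ 0 := by
    intro hs
    have h2 := Cm_mulVec x hx v
    rw [hv, hs] at h2
    exact det_Cm_ne x hinj h1 hx (exists_mulVec_eq_zero_iff.1 ⟨v, hv0, by rw [h2]; ext; simp⟩)
  set β : Fin n → ℂ := (∑ b, v b)⁻¹ • v with hβ
  have hK : Km x *ᵥ β = 0 := by rw [hβ, mulVec_smul, hv, smul_zero]
  have hS : ∑ b, β b = 1 := by
    simp only [hβ, Pi.smul_apply, smul_eq_mul, ← Finset.mul_sum]
    exact inv_mul_cancel₀ hs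
  refine ⟨β, hK, hS, ?_⟩
  have key : ∀ t : ℂ, (∀ b, x b * t ≠ 1) →
      (∑ b, C (β b) * ((X - C (x b)) * Qb x b)).eval t
        = (∑ b, β b * ((t - x b) / (x b * t - 1))) * ∏ c, (x c * t - 1) := by
    intro t ht
    rw [eval_finsetSum, Finset.sum_mul]
    refine Finset.sum_congr rfl fun b _ => ?_
    rw [← Qb_eval x b t]
    have := sub_ne_zero.2 (ht b)
    simp only [eval_mul, eval_C, eval_sub, eval_X]
    generalize x b * t - 1 = D at this ⊢
    field_simp
  have hx1 : ∀ b, x b ≠ 1 := fun b h => hx b b (by simp [h])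
  have hpoly : (∑ b, C (β b) * ((X - C (x b)) * Qb x b)) = ∏ b, (X - C (x b)) := by
    apply eq_of_natDegree_lt_card_of_eval_eq _ _ (ι := Option (Fin n))
      (f := fun o => o.elim 1 x)
    · rintro (_ | i) (_ | j) h
      · rfl
      · exact absurd h.symm (hx1 j)
      · exact absurd h (hx1 i)
      · exact congrArg some (hinj h)
    · rintro (_ | i)
      · simp only [Option.elim_none]
        rw [key 1 (by simpa using hx1), eval_prod]
        have : ∑ b, β b * ((1 - x b) / (x b * 1 - 1)) = -1 := by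
          rw [show (-1 : ℂ) = ∑ b, -β b by rw [Finset.sum_neg_distrib, hS]]
          refine Finset.sum_congr rfl fun b _ => ?_
          have := sub_ne_zero.2 (hx1 b)
          rw [mul_one]
          field_simp
          ring
        rw [this]
        have e : ∏ c, (x c * 1 - 1) = ∏ c, (-1) * (1 - x c) :=
          Finset.prod_congr rfl fun c _ => by ring
        rw [e, Finset.prod_mul_distrib]
        simp [hn.neg_one_pow]
      · simp only [Option.elim_some]
        rw [key (x i) (fun b => hx b i), eval_prod,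
          Finset.prod_eq_zero (i := i) (f := fun j => eval (x i) (X - C (x j))) (mem_univ i)
            (by simp)]
        have := congrFun hK i
        simp only [mulVec, dotProduct, Km, of_apply, Pi.zero_apply] at this
        rw [show ∑ b, β b * ((x i - x b) / (x b * x i - 1)) = 0 by
          rw [← this]; exact Finset.sum_congr rfl fun b _ => mul_comm _ _, zero_mul]
    · simp only [Fintype.card_option, Fintype.card_fin, max_lt_iff]
      constructor
      · refine Nat.lt_succ_of_le (natDegree_sum_le_of_forall_le _ _ fun b _ => ?_)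
        refine (natDegree_C_mul_le _ _).trans (natDegree_mul_le.trans ?_)
        have := natDeg_prod_erase b (fun c => C (x c) * X - C 1) fun c => natDeg_lin _ _
        rw [natDegree_X_sub_C, Qb]; omega
      · rw [natDegree_prod_of_monic _ _ (fun b _ => monic_X_sub_C _)]
        simp
  intro t ht
  have h2 := key t ht
  rw [hpoly, eval_prod] at h2
  have hne : ∏ c, (x c * t - 1) ≠ 0 :=
    Finset.prod_ne_zero_iff.2 fun c _ => sub_ne_zero.2 (ht c)
  rw [Finset.prod_div_distrib, eq_div_iff hne, ← h2]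
  simp

/-- rank one update of the Schur matrix -/
lemma det_Km_add (x : Fin n → ℂ) (hinj : Function.Injective x)
    (h1 : ∀ i, ‖x i‖ = 1) (hx : ∀ i j, x i * x j ≠ 1) (β : Fin n → ℂ)
    (hK : Km x *ᵥ β = 0) (hS : ∑ b, β b = 1) (a a' : Fin n → ℂ) :
    (Km x + vecMulVec a a').det = (Cm x).det * ((β ⬝ᵥ a) * (β ⬝ᵥ a')) := by
  have hdet : IsUnit (Cm x).det := (det_Cm_ne x hinj h1 hx).isUnit
  let U : Matrix (Fin n) (Fin 2) ℂ := of fun c k => ![1, a c] k
  let V : Matrix (Fin 2) (Fin n) ℂ := of fun k b => ![-1, a' b] k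
  have e1 : Km x + vecMulVec a a' = Cm x + U * V := by
    ext c b
    simp [U, V, mul_apply, Fin.sum_univ_two, Cm_eq x hx, vecMulVec_apply]
  have hC1 : Cm x *ᵥ β = fun _ => 1 := by
    rw [Cm_mulVec x hx, hK, hS]; ext; simp
  have hC2 : β ᵥ* Cm x = fun _ => 1 := by
    ext b
    have := congrFun hK b
    have hT := Km_T x
    simp only [mulVec, dotProduct, Pi.zero_apply] at this
    simp only [vecMul, dotProduct, Cm_eq x hx, mul_add, Finset.sum_add_distrib, mul_one, hS]
    have : ∑ c, β c * Km x c b = 0 := by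
      rw [← neg_eq_zero, ← this, ← Finset.sum_neg_distrib]
      refine Finset.sum_congr rfl fun c _ => ?_
      have := congrFun (congrFun hT b) c
      simp only [transpose_apply, Matrix.neg_apply] at this
      rw [this]; ring
    rw [this, zero_add]
  have hI1 : (Cm x)⁻¹ *ᵥ (fun _ => 1) = β := by
    rw [← hC1, mulVec_mulVec, nonsing_inv_mul _ hdet, one_mulVec]
  have hI2 : (fun _ => 1) ᵥ* (Cm x)⁻¹ = β := by
    rw [← hC2, vecMul_vecMul, mul_nonsing_inv _ hdet, vecMul_one]
  rw [e1, det_add_mul U V hdet, det_fin_two]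
  congr 1
  have f1 : ∀ j, ∑ i, (Cm x)⁻¹ i j = β j := fun j => by
    simpa [vecMul, dotProduct] using congrFun hI2 j
  have f2 : ∀ i, ∑ j, (Cm x)⁻¹ i j = β i := fun i => by
    simpa [mulVec, dotProduct] using congrFun hI1 i
  have g00 : (V * (Cm x)⁻¹ * U) 0 0 = -1 := by
    simp [U, V, mul_apply, f1, hS]
  have g01 : (V * (Cm x)⁻¹ * U) 0 1 = -(β ⬝ᵥ a) := by
    simp [U, V, mul_apply, f1, dotProduct]
  have g10 : (V * (Cm x)⁻¹ * U) 1 0 = β ⬝ᵥ a' := by
    rw [Matrix.mul_assoc]
    simp [U, V, mul_apply, f2, dotProduct, mul_comm]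
  simp only [Matrix.add_apply, g00, g01, g10]
  simp

end Pool.Agent.H24.Leg
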