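import Pool.Agent.H24.Leg1

set_option autoImplicit false

open Finset Matrix Polynomial

namespace Pool.Agent.H24.Leg

variable {n : ℕ}

lemma beta_deriv (x β : Fin n → ℂ) (h1 : ∀ i, ‖x i‖ = 1) (hpi : ∏ i, x i = 1)
    (h : ∀ t : ℂ, (∀ b, x b * t ≠ 1) →
        ∑ b, β b * ((t - x b) / (x b * t - 1)) = ∏ b, ((t - x b) / (x b * t - 1))) :
    β ⬝ᵥ (fun b => x b ^ 2 - 1) = ∑ b, (x b - (x b)⁻¹) := by
  have h0 : ∀ i, x i ≠ 0 := by intro i h; have := h1 i; simp [h] at this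
  have hd : ∀ b, HasDerivAt (fun t : ℂ => (t - x b) / (x b * t - 1)) (x b ^ 2 - 1) 0 := by
    intro b
    have a1 : HasDerivAt (fun t : ℂ => t - x b) 1 0 := (hasDerivAt_id _).sub_const _
    have a2 : HasDerivAt (fun t : ℂ => x b * t - 1) (x b) 0 := by
      simpa using ((hasDerivAt_id (0 : ℂ)).const_mul (x b)).sub_const 1
    have := a1.div a2 (by simp)
    refine this.congr_deriv ?_
    simp only [mul_zero, zero_sub]
    ring
  have e1 : HasDerivAt (fun t : ℂ => ∑ b, β b * ((t - x b) / (x b * t - 1)))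
      (∑ b, β b * (x b ^ 2 - 1)) 0 :=
    HasDerivAt.fun_sum fun b _ => (hd b).const_mul (β b)
  have e2 := HasDerivAt.fun_finsetProd (u := univ) fun b _ => hd b
  have e3 : (fun t : ℂ => ∑ b, β b * ((t - x b) / (x b * t - 1)))
      =ᶠ[nhds 0] fun t => ∏ b, ((t - x b) / (x b * t - 1)) := by
    filter_upwards [Metric.ball_mem_nhds (0 : ℂ) one_pos] with t ht
    refine h t fun b hb => ?_
    have := congrArg norm hb
    rw [norm_mul, h1, one_mul, norm_one] at this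
    simp [this] at ht
  have := (e1.congr_of_eventuallyEq e3.symm).unique e2
  rw [dotProduct, this]
  refine Finset.sum_congr rfl fun b _ => ?_
  have hp : (∏ j ∈ univ.erase b, x j) * x b = 1 := by
    rw [Finset.prod_erase_mul _ _ (mem_univ b), hpi]
  have hp' : ∏ j ∈ univ.erase b, x j = (x b)⁻¹ := eq_inv_of_mul_eq_one_left hp
  have hb := h0 b
  simp only [zero_sub, mul_zero, neg_div_neg_eq, div_one, smul_eq_mul, hp']
  field_simp

noncomputable def Nb (x : Fin n → ℂ) (c : Fin n) : ℂ[X] :=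
  ∏ d ∈ univ.erase c, (X - C (x d ^ 2)⁻¹)

noncomputable def Am (x : Fin n → ℂ) : Matrix (Fin n) (Fin n) ℂ :=
  diagonal (fun c => (x c ^ 2 - 1) / x c ^ 2) * cm (Nb x)

noncomputable def Wm (x : Fin n → ℂ) : Matrix (Fin n) (Fin n) ℂ :=
  of fun j k => ∑ b, ((x b ^ 2) ^ (j : ℕ) * ((x b ^ 2)⁻¹) ^ (k : ℕ)
    - ((x b ^ 2)⁻¹) ^ (j : ℕ) * (x b ^ 2) ^ (k : ℕ))

lemma Nb_deg (x : Fin n → ℂ) (c : Fin n) : (Nb x c).natDegree < n :=
  natDeg_prod_erase c _ fun d => (natDegree_X_sub_C _).le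

lemma Nb_eval (x : Fin n → ℂ) (c : Fin n) (t : ℂ) :
    (Nb x c).eval t * (t - (x c ^ 2)⁻¹) = ∏ d, (t - (x d ^ 2)⁻¹) := by
  rw [← Finset.prod_erase_mul _ _ (mem_univ c), Nb, eval_prod]
  simp

lemma cm_Nb (x : Fin n → ℂ) : cm (Nb x) * (vandermonde fun i => (x i ^ 2)⁻¹)ᵀ
    = diagonal fun b => ∏ d ∈ univ.erase b, ((x b ^ 2)⁻¹ - (x d ^ 2)⁻¹) := by
  rw [cm_mul _ (Nb_deg x)]
  ext b c
  by_cases h : b = c
  · subst h; simp [Nb, eval_prod]
  · rw [diagonal_apply_ne _ h, of_apply, Nb, eval_prod]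
    refine Finset.prod_eq_zero (i := c) (by simp [Ne.symm h]) ?_
    simp

lemma norm_det_Am (x : Fin n → ℂ) (h1 : ∀ i, ‖x i‖ = 1)
    (hinj : Function.Injective fun i => x i ^ 2) :
    ‖(Am x).det‖ ^ 2 = (∏ c, ‖x c ^ 2 - 1‖) ^ 2
      * ∏ i, ∏ j ∈ univ.erase i, ‖x j ^ 2 - x i ^ 2‖ := by
  have h2 : ∀ i, ‖x i ^ 2‖ = 1 := fun i => by rw [norm_pow, h1, one_pow]
  have hA := congrArg (fun M => ‖det M‖) (cm_Nb x)
  simp only [det_mul, det_transpose, det_diagonal, norm_mul, norm_prod] at hA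
  have hV := norm_vand_sq fun i => (x i ^ 2)⁻¹
  have hne : ‖(vandermonde fun i => (x i ^ 2)⁻¹).det‖ ≠ 0 :=
    norm_ne_zero_iff.2 (det_vandermonde_ne_zero_iff.2 (inv_inj hinj))
  have e : ∏ i, ∏ j ∈ univ.erase i, ‖(x i ^ 2)⁻¹ - (x j ^ 2)⁻¹‖
      = ∏ i, ∏ j ∈ univ.erase i, ‖(x j ^ 2)⁻¹ - (x i ^ 2)⁻¹‖ :=
    Finset.prod_congr rfl fun i _ => Finset.prod_congr rfl fun j _ => norm_sub_rev _ _
  rw [e, ← hV, sq] at hA
  have hG := mul_right_cancel₀ hne hA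
  rw [Am, det_mul, det_diagonal, norm_mul, norm_prod, hG, norm_vand_inv _ h2, mul_pow,
    norm_vand_sq]
  simp only [norm_div, h2, div_one]

lemma Am_conj (hn : Odd n) (x : Fin n → ℂ) (h1 : ∀ i, ‖x i‖ = 1)
    (hx : ∀ i j, x i * x j ≠ 1) (hx2 : ∀ i j, x i * x j ≠ -1)
    (hpow : ∀ i, x i ^ (2 * n + 1) = 1) (hpi : ∏ i, x i = 1) (P : ℂ)
    (hprod : ∀ b, ((x b ^ 2)⁻¹ - 1) * (∏ c, ((x b ^ 2)⁻¹ - x c ^ 2))
      * ∏ d ∈ univ.erase b, ((x b ^ 2)⁻¹ - (x d ^ 2)⁻¹) = P * x b ^ 2) :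
    Am x * Wm x * (Am x)ᵀ = P • Km x := by
  have h0 : ∀ i, x i ≠ 0 := by intro i h; have := h1 i; simp [h] at this
  have hW : Wm x = (vandermonde fun i => x i ^ 2)ᵀ * (vandermonde fun i => (x i ^ 2)⁻¹)
      - (vandermonde fun i => (x i ^ 2)⁻¹)ᵀ * (vandermonde fun i => x i ^ 2) := by
    ext j k
    simp [Wm, mul_apply, Finset.sum_sub_distrib]
  have hz : ∀ i j, x i ^ 2 * x j ^ 2 - 1 ≠ 0 := by
    intro i j h
    have : (x i * x j - 1) * (x i * x j + 1) = 0 := by linear_combination h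
    rcases mul_eq_zero.1 this with h | h
    · exact hx i j (sub_eq_zero.1 h)
    · exact hx2 i j (eq_neg_of_add_eq_zero_left h)
  have hz1 : ∀ i, x i ^ 2 - 1 ≠ 0 := fun i => by rw [sq]; exact sub_ne_zero.2 (hx i i)
  set d : Fin n → ℂ := fun b => ∏ d ∈ univ.erase b, ((x b ^ 2)⁻¹ - (x d ^ 2)⁻¹) with hd
  have key : ∀ c b, (Nb x c).eval (x b ^ 2) * d b
      = P * x b ^ 3 * x c ^ 2 / ((x b ^ 2 - 1) * (x b ^ 2 * x c ^ 2 - 1)) := by
    intro c b
    have e1 := Nb_eval x c (x b ^ 2)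
    have e2 := hprod b
    have hb := h0 b
    have hc := h0 c
    have e3 : ∏ c, ((x b ^ 2)⁻¹ - x c ^ 2)
        = ∏ c, (-1 * x c ^ 2 * (x b ^ 2)⁻¹ * (x b ^ 2 - (x c ^ 2)⁻¹)) := by
      refine Finset.prod_congr rfl fun e _ => ?_
      have := h0 e
      field_simp
      ring
    rw [Finset.prod_mul_distrib, Finset.prod_mul_distrib, Finset.prod_mul_distrib,
      Finset.prod_pow, hpi, Finset.prod_const, Finset.prod_const, card_univ, Fintype.card_fin,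
      hn.neg_one_pow, ← e1] at e3
    have e4 : ((x b ^ 2)⁻¹) ^ n = x b := by
      rw [inv_pow, ← pow_mul]
      exact inv_eq_of_mul_eq_one_right (by rw [← pow_succ, hpow])
    rw [e3, e4] at e2
    rw [eq_div_iff (mul_ne_zero (hz1 b) (hz b c))]
    change _ * d b = _ at e2
    field_simp at e2
    linear_combination e2
  have hG : cm (Nb x) * Wm x * (cm (Nb x))ᵀ
      = of fun c b => (Nb x c).eval (x b ^ 2) * d b - (Nb x b).eval (x c ^ 2) * d c := by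
    have e : cm (Nb x) * Wm x * (cm (Nb x))ᵀ
        = (cm (Nb x) * (vandermonde fun i => x i ^ 2)ᵀ)
          * (cm (Nb x) * (vandermonde fun i => (x i ^ 2)⁻¹)ᵀ)ᵀ
        - (cm (Nb x) * (vandermonde fun i => (x i ^ 2)⁻¹)ᵀ)
          * (cm (Nb x) * (vandermonde fun i => x i ^ 2)ᵀ)ᵀ := by
      rw [hW]
      simp only [transpose_mul, transpose_transpose, Matrix.mul_sub, Matrix.sub_mul,
        Matrix.mul_assoc]
    rw [e, cm_Nb, cm_mul _ (Nb_deg x)]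
    ext c b
    simp only [diagonal_transpose, Matrix.sub_apply, mul_diagonal, diagonal_mul, of_apply,
      transpose_apply, hd]
    ring
  have e : Am x * Wm x * (Am x)ᵀ = diagonal (fun c => (x c ^ 2 - 1) / x c ^ 2)
      * (cm (Nb x) * Wm x * (cm (Nb x))ᵀ) * diagonal (fun c => (x c ^ 2 - 1) / x c ^ 2) := by
    simp only [Am, transpose_mul, diagonal_transpose, Matrix.mul_assoc]
  rw [e, hG]
  ext c b
  simp only [mul_diagonal, diagonal_mul, of_apply, key, Matrix.smul_apply, Km, smul_eq_mul]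
  have hb := h0 b
  have hc := h0 c
  have a1 := hz1 b
  have a2 := hz1 c
  have a3 := sub_ne_zero.2 (hx b c)
  have a4 : x b * x c + 1 ≠ 0 := fun h => hx2 b c (eq_neg_of_add_eq_zero_left h)
  rw [show x b ^ 2 * x c ^ 2 - 1 = (x b * x c - 1) * (x b * x c + 1) by ring,
    show x c ^ 2 * x b ^ 2 - 1 = (x b * x c - 1) * (x b * x c + 1) by ring]
  have f : ∀ A1 A2 D1 D2 : ℂ, A1 ≠ 0 → A2 ≠ 0 → D1 ≠ 0 → D2 ≠ 0 →
      x b * A2 - x c * A1 = (x c - x b) * D2 →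
      A2 / x c ^ 2 * (P * x b ^ 3 * x c ^ 2 / (A1 * (D1 * D2))
        - P * x c ^ 3 * x b ^ 2 / (A2 * (D1 * D2))) * (A1 / x b ^ 2)
        = P * ((x c - x b) / D1) := by
    intro A1 A2 D1 D2 b1 b2 b3 b4 b5
    field_simp
    linear_combination P * b5
  exact f _ _ _ _ a1 a2 a3 a4 (by ring)

lemma Am_mulVec_one (x : Fin n → ℂ) (h1 : ∀ i, ‖x i‖ = 1) :
    Am x *ᵥ (fun _ => 1) = fun _ => ∏ d, (1 - (x d ^ 2)⁻¹) := by
  have h0 : ∀ i, x i ≠ 0 := by intro i h; have := h1 i; simp [h] at this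
  ext c
  have e := congrFun (congrFun (cm_mul _ (Nb_deg x) fun _ => 1) c) c
  simp only [mul_apply, transpose_apply, vandermonde_apply, one_pow, of_apply] at e
  rw [Am, ← mulVec_mulVec, mulVec_diagonal, mulVec, dotProduct, e, ← Nb_eval x c 1]
  have := h0 c
  field_simp

lemma Am_mulVec_single {m : ℕ} (hm : Even m) (x : Fin (m + 1) → ℂ) (h1 : ∀ i, ‖x i‖ = 1)
    (hpi : ∏ i, x i = 1) :
    Am x *ᵥ (Pi.single 0 1) = fun c => x c ^ 2 - 1 := by
  have h0 : ∀ i, x i ≠ 0 := by intro i h; have := h1 i; simp [h] at this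
  ext c
  have e := Nb_eval x c 0
  have e2 : ∏ d, (0 - (x d ^ 2)⁻¹) = -1 := by
    have : ∏ d, (0 - (x d ^ 2)⁻¹) = ∏ d, (-1 * (x d ^ 2)⁻¹) :=
      Finset.prod_congr rfl fun _ _ => by ring
    rw [this, Finset.prod_mul_distrib, Finset.prod_inv_distrib, Finset.prod_pow, hpi]
    simp [hm.add_one.neg_one_pow]
  rw [e2, ← coeff_zero_eq_eval_zero] at e
  rw [mulVec_single_one]
  simp only [Am, col_apply, diagonal_mul, cm, of_apply, Fin.val_zero]
  have := h0 c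
  field_simp at e ⊢
  linear_combination (1 - x c ^ 2) * e

end Pool.Agent.H24.Leg
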