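import Pool.Agent.H24.Leg2

set_option autoImplicit false

open Finset Matrix

namespace Pool.Agent.H24.Leg

variable {n : ℕ} [hp : Fact (Nat.Prime (2 * n + 1))]

/-- enumeration of the nonzero squares -/
def rr (i : Fin n) : ZMod (2 * n + 1) := (((i : ℕ) + 1 : ℕ) : ZMod (2 * n + 1)) ^ 2

lemma cast_ne {k : ℕ} (h0 : 0 < k) (h1 : k < 2 * n + 1) : (k : ZMod (2 * n + 1)) ≠ 0 := by
  rw [Ne, ZMod.natCast_eq_zero_iff]
  exact Nat.not_dvd_of_pos_of_lt h0 h1

lemma chi_rr (i : Fin n) : quadraticChar (ZMod (2 * n + 1)) (rr i) = 1 :=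
  quadraticChar_sq_one' (cast_ne (by omega) (by have := i.2; omega))

lemma rr_ne (i : Fin n) : rr i ≠ 0 := by
  intro h; have := chi_rr i; rw [h] at this; simp at this

lemma ringChar_ne : ringChar (ZMod (2 * n + 1)) ≠ 2 := by
  rw [ZMod.ringChar_zmod_n]; omega

lemma chi_neg_one (hn : Odd n) : quadraticChar (ZMod (2 * n + 1)) (-1) = -1 := by
  rw [quadraticChar_neg_one_iff_not_isSquare, FiniteField.isSquare_neg_one_iff, ZMod.card]
  obtain ⟨k, rfl⟩ := hn
  omega

lemma chi_neg (hn : Odd n) (a : ZMod (2 * n + 1)) :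
    quadraticChar (ZMod (2 * n + 1)) (-a) = -quadraticChar (ZMod (2 * n + 1)) a := by
  rw [← neg_one_mul, map_mul, chi_neg_one hn, neg_one_mul]

lemma rr_add_ne (hn : Odd n) (i j : Fin n) : rr i + rr j ≠ 0 := by
  intro h
  have h1 := chi_rr i
  rw [eq_neg_of_add_eq_zero_left h, chi_neg hn, chi_rr] at h1
  omega

lemma rr_inj : Function.Injective (rr : Fin n → ZMod (2 * n + 1)) := by
  intro i j h
  rcases sq_eq_sq_iff_eq_or_eq_neg.1 h with h | h
  · have := (ZMod.natCast_eq_natCast_iff' _ _ _).1 h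
    rw [Nat.mod_eq_of_lt (by have := i.2; omega), Nat.mod_eq_of_lt (by have := j.2; omega)]
      at this
    exact Fin.ext (by omega)
  · exfalso
    refine cast_ne (n := n) (k := (i : ℕ) + 1 + ((j : ℕ) + 1)) (by omega)
      (by have := i.2; have := j.2; omega) ?_
    rw [Nat.cast_add, h, neg_add_cancel]

/-- zero, squares, negatives of squares -/
def enum : Option (Fin n ⊕ Fin n) → ZMod (2 * n + 1)
  | none => 0
  | some (Sum.inl i) => rr i
  | some (Sum.inr i) => -rr i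

lemma enum_bij (hn : Odd n) : Function.Bijective (enum (n := n)) := by
  rw [Fintype.bijective_iff_injective_and_card]
  refine ⟨?_, by simp [ZMod.card]; omega⟩
  rintro (_ | i | i) (_ | j | j) h <;> simp only [enum] at h
  · rfl
  · exact absurd h.symm (rr_ne j)
  · exact absurd (neg_eq_zero.1 h.symm) (rr_ne j)
  · exact absurd h (rr_ne i)
  · rw [rr_inj h]
  · exact absurd (by rw [h, neg_add_cancel]) (rr_add_ne hn i j)
  · exact absurd (neg_eq_zero.1 h) (rr_ne i)
  · exact absurd (by rw [← h, add_neg_cancel]) (rr_add_ne hn i j)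
  · rw [rr_inj (neg_injective h)]

lemma prod_split (hn : Odd n) {M : Type*} [CommMonoid M] (f : ZMod (2 * n + 1) → M) :
    ∏ a, f a = f 0 * ((∏ i, f (rr i)) * ∏ i, f (-rr i)) := by
  rw [← (enum_bij hn).prod_comp f, Fintype.prod_option, Fintype.prod_sum_type]
  rfl

lemma sum_split (hn : Odd n) (f : ZMod (2 * n + 1) → ℂ) :
    ∑ a, f a = f 0 + ((∑ i, f (rr i)) + ∑ i, f (-rr i)) :=
  prod_split hn (M := Multiplicative ℂ) f

lemma exists_rr (hn : Odd n) {a : ZMod (2 * n + 1)}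
    (ha : quadraticChar (ZMod (2 * n + 1)) a = 1) : ∃ i, rr i = a := by
  obtain ⟨_ | i | i, rfl⟩ := (enum_bij hn).2 a
  · simp [enum] at ha
  · exact ⟨i, rfl⟩
  · simp only [enum] at ha
    rw [chi_neg hn, chi_rr] at ha
    omega

lemma prod_mul_rr (hn : Odd n) {s : ZMod (2 * n + 1)}
    (hs : quadraticChar (ZMod (2 * n + 1)) s = 1) {M : Type*} [CommMonoid M]
    (f : ZMod (2 * n + 1) → M) : ∏ t, f (s * rr t) = ∏ t, f (rr t) := by
  have h0 : s ≠ 0 := by intro h; rw [h] at hs; simp at hs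
  have : ∀ t : Fin n, ∃ i, rr i = s * rr t := fun t =>
    exists_rr hn (by rw [map_mul, hs, chi_rr, one_mul])
  choose σ hσ using this
  have hinj : Function.Injective σ := by
    intro a b h
    apply rr_inj
    apply mul_left_cancel₀ h0
    rw [← hσ, ← hσ, h]
  have hb : Function.Bijective σ := Finite.injective_iff_bijective.1 hinj
  rw [← hb.prod_comp fun t => f (rr t)]
  simp only [hσ]

lemma sum_mul_rr (hn : Odd n) {s : ZMod (2 * n + 1)}
    (hs : quadraticChar (ZMod (2 * n + 1)) s = 1) {M : Type*} [AddCommMonoid M]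
    (f : ZMod (2 * n + 1) → M) : ∑ t, f (s * rr t) = ∑ t, f (rr t) :=
  prod_mul_rr hn hs (M := Multiplicative M) f

/-- the additive character -/
noncomputable def ps : AddChar (ZMod (2 * n + 1)) ℂ := ZMod.stdAddChar

lemma ps_norm (a : ZMod (2 * n + 1)) : ‖ps a‖ = 1 := by
  rw [ps, ZMod.stdAddChar_apply]; exact Circle.norm_coe _

lemma ps_inj : Function.Injective (ps (n := n)) := ZMod.injective_stdAddChar

lemma ps_eq_one {a : ZMod (2 * n + 1)} (h : ps a = 1) : a = 0 :=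
  ps_inj (by rw [h, AddChar.map_zero_eq_one])

lemma two_ne : (2 : ZMod (2 * n + 1)) ≠ 0 := by
  have h := hp.out.two_le
  exact_mod_cast cast_ne (n := n) (k := 2) (by omega) (by omega)

lemma ps_sq (a : ZMod (2 * n + 1)) : ps a ^ 2 = ps (2 * a) := by
  rw [two_mul a, AddChar.map_add_eq_mul, sq]

lemma ps_inv (a : ZMod (2 * n + 1)) : (ps a)⁻¹ = ps (-a) := (AddChar.map_neg_eq_inv _ _).symm

lemma ps_ne_neg_one (a : ZMod (2 * n + 1)) : ps a ≠ -1 := by
  intro h
  have h2 : ps (2 * a) = 1 := by rw [← ps_sq, h]; norm_num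
  have := (mul_eq_zero.1 (ps_eq_one h2)).resolve_left two_ne
  rw [this, AddChar.map_zero_eq_one] at h
  norm_num at h

lemma ps_pow (a : ZMod (2 * n + 1)) (k : ℕ) : ps a ^ k = ps ((k : ZMod (2 * n + 1)) * a) := by
  rw [← AddChar.map_nsmul_eq_pow, nsmul_eq_mul]

lemma prod_one_sub :
    ∏ a : ZMod (2 * n + 1), (if a = 0 then 1 else 1 - ps a) = ((2 * n + 1 : ℕ) : ℂ) := by
  have hprim : IsPrimitiveRoot (ps (1 : ZMod (2 * n + 1))) (2 * n + 1) := by
    refine IsPrimitiveRoot.mk_of_lt _ (by omega) (by rw [ps_pow]; simp) ?_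
    intro l h0 h1 h
    rw [ps_pow, mul_one] at h
    exact cast_ne h0 h1 (ps_eq_one h)
  have h := hprim.prod_one_sub_pow_eq_order
  have e : ∏ a : ZMod (2 * n + 1), (if a = 0 then 1 else 1 - ps a)
      = ∏ k ∈ range (2 * n + 1), (if (k : ZMod (2 * n + 1)) = 0 then 1
          else 1 - ps (k : ZMod (2 * n + 1))) := by
    symm
    refine Finset.prod_bij (fun k _ => (k : ZMod (2 * n + 1))) (by simp) ?_ ?_ (fun _ _ => rfl)
    · intro a ha b hb h
      have := (ZMod.natCast_eq_natCast_iff' _ _ _).1 h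
      rwa [Nat.mod_eq_of_lt (mem_range.1 ha), Nat.mod_eq_of_lt (mem_range.1 hb)] at this
    · intro b _
      exact ⟨b.val, mem_range.2 (ZMod.val_lt b), ZMod.natCast_zmod_val b⟩
  rw [e, Finset.prod_range_succ', Nat.cast_zero, if_pos rfl, mul_one, Nat.cast_add, Nat.cast_one,
    ← h]
  refine Finset.prod_congr rfl fun k hk => ?_
  rw [if_neg (cast_ne (by omega) (by have := mem_range.1 hk; omega)), ps_pow, mul_one]

lemma prod_one_sub_mul {s : ZMod (2 * n + 1)} (hs : s ≠ 0) :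
    ∏ a : ZMod (2 * n + 1), (if a = 0 then 1 else 1 - ps (s * a)) = ((2 * n + 1 : ℕ) : ℂ) := by
  rw [← prod_one_sub, ← Equiv.prod_comp (Equiv.mulLeft₀ s hs)
    (fun a => if a = 0 then 1 else 1 - ps a)]
  simp [hs]

lemma norm_prod_rr (hn : Odd n) {s : ZMod (2 * n + 1)} (hs : s ≠ 0) :
    ∏ i, ‖ps (s * rr i) - 1‖ = √(2 * n + 1) := by
  have h := congrArg norm (prod_one_sub_mul hs)
  rw [prod_split hn] at h
  simp only [if_true, one_mul, rr_ne, neg_eq_zero, if_false, norm_mul, norm_prod,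
    Complex.norm_natCast] at h
  have e : ∏ i : Fin n, ‖1 - ps (s * -rr i)‖ = ∏ i : Fin n, ‖ps (s * rr i) - 1‖ := by
    refine Finset.prod_congr rfl fun i _ => ?_
    have h1 := ps_norm (s * rr i)
    have h0 : ps (s * rr i) ≠ 0 := by intro h; simp [h] at h1
    rw [mul_neg, ← ps_inv, show 1 - (ps (s * rr i))⁻¹ = (ps (s * rr i) - 1) / ps (s * rr i) by
      field_simp, norm_div, h1, div_one]
  have e2 : ∏ i : Fin n, ‖1 - ps (s * rr i)‖ = ∏ i : Fin n, ‖ps (s * rr i) - 1‖ :=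
    Finset.prod_congr rfl fun i _ => norm_sub_rev _ _
  rw [e, e2] at h
  symm
  rw [Real.sqrt_eq_iff_mul_self_eq (by positivity) (Finset.prod_nonneg fun _ _ => norm_nonneg _),
    h]
  push_cast; ring

/-- the nodes -/
noncomputable def xx (i : Fin n) : ℂ := ps (rr i)

lemma xx_norm (i : Fin n) : ‖xx i‖ = 1 := ps_norm _

lemma xx_inj : Function.Injective (xx (n := n)) := ps_inj.comp rr_inj

lemma xx_sq_inj : Function.Injective fun i : Fin n => xx i ^ 2 := by
  intro i j h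
  simp only [xx, ps_sq] at h
  exact rr_inj (mul_left_cancel₀ two_ne (ps_inj h))

lemma xx_mul_ne (hn : Odd n) (i j : Fin n) : xx i * xx j ≠ 1 := by
  rw [xx, xx, ← AddChar.map_add_eq_mul]
  exact fun h => rr_add_ne hn i j (ps_eq_one h)

lemma xx_mul_ne' (i j : Fin n) : xx i * xx j ≠ -1 := by
  rw [xx, xx, ← AddChar.map_add_eq_mul]
  exact ps_ne_neg_one _

lemma xx_pow (i : Fin n) : xx i ^ (2 * n + 1) = 1 := by
  rw [xx, ps_pow]; simp

lemma xx_prod (hn : Odd n) (h3 : 1 < n) : ∏ i : Fin n, xx i = 1 := by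
  have h4 : quadraticChar (ZMod (2 * n + 1)) (2 ^ 2) = 1 := quadraticChar_sq_one' two_ne
  have h := sum_mul_rr hn h4 (fun a => a)
  rw [← Finset.mul_sum] at h
  have h3' : (3 : ZMod (2 * n + 1)) ≠ 0 := by
    exact_mod_cast cast_ne (n := n) (k := 3) (by omega) (by omega)
  have hs : ∑ t : Fin n, rr t = 0 := by
    apply mul_left_cancel₀ h3'
    linear_combination h
  have : ∀ s : Finset (Fin n), ∏ i ∈ s, xx i = ps (∑ i ∈ s, rr i) := by
    intro s
    induction s using Finset.induction_on with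
    | empty => simp
    | insert a s ha ih => rw [prod_insert ha, sum_insert ha, AddChar.map_add_eq_mul, ih, xx]
  rw [this, hs, AddChar.map_zero_eq_one]

lemma xx_hprod (hn : Odd n) (b : Fin n) :
    ((xx b ^ 2)⁻¹ - 1) * (∏ c : Fin n, ((xx b ^ 2)⁻¹ - xx c ^ 2))
      * ∏ d ∈ univ.erase b, ((xx b ^ 2)⁻¹ - (xx d ^ 2)⁻¹)
      = ((2 * n + 1 : ℕ) : ℂ) * xx b ^ 2 := by
  have h := prod_one_sub_mul (n := n) two_ne
  rw [← Equiv.prod_comp (Equiv.addRight (rr b)), prod_split hn] at h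
  have hb : xx b ≠ 0 := by intro h; have := xx_norm b; simp [h] at this
  have a1 : ∀ c, rr c + rr b ≠ 0 := fun c => rr_add_ne hn c b
  simp only [Equiv.coe_addRight, zero_add, rr_ne, if_false, a1] at h
  rw [← Finset.prod_erase_mul _ (fun i => if -rr i + rr b = 0 then (1 : ℂ)
    else 1 - ps (2 * (-rr i + rr b))) (mem_univ b), if_pos (neg_add_cancel _), mul_one] at h
  have e1 : ∏ c : Fin n, ((xx b ^ 2)⁻¹ - xx c ^ 2)
      = ∏ c : Fin n, ((xx b ^ 2)⁻¹ * (1 - ps (2 * (rr c + rr b)))) := by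
    refine Finset.prod_congr rfl fun c _ => ?_
    rw [mul_add, AddChar.map_add_eq_mul, ← ps_sq, ← ps_sq]
    change _ = _ * (1 - xx c ^ 2 * xx b ^ 2)
    field_simp
  have e2 : ∏ d ∈ univ.erase b, ((xx b ^ 2)⁻¹ - (xx d ^ 2)⁻¹)
      = ∏ d ∈ univ.erase b, ((xx b ^ 2)⁻¹ * (if -rr d + rr b = 0 then (1 : ℂ)
        else 1 - ps (2 * (-rr d + rr b)))) := by
    refine Finset.prod_congr rfl fun d hd => ?_
    rw [if_neg (fun h => (mem_erase.1 hd).1 (rr_inj (neg_add_eq_zero.1 h))), mul_add,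
      AddChar.map_add_eq_mul, ← ps_sq, ← ps_sq, ← ps_inv]
    change _ = _ * (1 - (xx d)⁻¹ ^ 2 * xx b ^ 2)
    field_simp
  rw [e1, e2, Finset.prod_mul_distrib, Finset.prod_mul_distrib, Finset.prod_const,
    Finset.prod_const, card_erase_of_mem (mem_univ b), card_univ, Fintype.card_fin, ← h, ← ps_sq]
  have e3 : (xx b ^ 2)⁻¹ * ((xx b ^ 2)⁻¹ ^ n * (xx b ^ 2)⁻¹ ^ (n - 1)) = xx b ^ 2 := by
    have hpos := Fin.pos b
    rw [← pow_add, ← pow_succ', show n + (n - 1) + 1 = 2 * n by omega, inv_pow]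
    refine inv_eq_of_mul_eq_one_left ?_
    rw [← pow_succ', ← pow_mul, mul_comm 2, pow_mul, xx_pow, one_pow]
  change _ = (1 - xx b ^ 2) * _ * _
  have e4 : (xx b ^ 2)⁻¹ - 1 = (xx b ^ 2)⁻¹ * (1 - xx b ^ 2) := by field_simp
  rw [e4]
  generalize (∏ c : Fin n, (1 - ps (2 * (rr c + rr b)))) = A
  generalize (∏ d ∈ univ.erase b, (if -rr d + rr b = 0 then (1 : ℂ)
        else 1 - ps (2 * (-rr d + rr b)))) = B
  linear_combination (1 - xx b ^ 2) * A * B * e3

/-- the Gauss sum -/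
noncomputable def gs (n : ℕ) [Fact (Nat.Prime (2 * n + 1))] : ℂ :=
  gaussSum ((quadraticChar (ZMod (2 * n + 1))).ringHomComp (Int.castRingHom ℂ)) (ps (n := n))

lemma gs_sq (hn : Odd n) : gs n ^ 2 = -((2 * n + 1 : ℕ) : ℂ) := by
  rw [gs, ps, gaussSum_sq ((MulChar.ringHomComp_ne_one_iff (RingHom.injective_int _)).2
    (quadraticChar_ne_one ringChar_ne)) ((quadraticChar_isQuadratic _).comp _)
    (ZMod.isPrimitive_stdAddChar _), MulChar.ringHomComp_apply, chi_neg_one hn, ZMod.card]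
  simp

lemma gs_norm (hn : Odd n) : ‖gs n‖ = √(2 * n + 1) := by
  have h := congrArg norm (gs_sq hn)
  rw [norm_pow, norm_neg, Complex.norm_natCast] at h
  symm
  rw [Real.sqrt_eq_iff_mul_self_eq (by positivity) (norm_nonneg _), ← sq, h]
  push_cast; ring

lemma gauss (hn : Odd n) (m : ZMod (2 * n + 1)) :
    ∑ i, (ps (m * rr i) - ps (-(m * rr i)))
      = (quadraticChar (ZMod (2 * n + 1)) m : ℂ) * gs n := by
  by_cases hm : m = 0
  · simp [hm]
  have h := gaussSum_mulShift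
    ((quadraticChar (ZMod (2 * n + 1))).ringHomComp (Int.castRingHom ℂ)) (ps (n := n))
    (Units.mk0 m hm)
  have h2 : (quadraticChar (ZMod (2 * n + 1)) m : ℂ) ^ 2 = 1 := by
    exact_mod_cast quadraticChar_sq_one hm
  rw [gs, ← h, gaussSum, sum_split hn]
  simp only [MulChar.ringHomComp_apply, Units.val_mk0, AddChar.mulShift_apply, chi_neg hn, chi_rr,
    eq_intCast, quadraticChar_zero]
  rw [← mul_assoc, ← sq, h2, Finset.sum_sub_distrib]
  simp [sub_eq_add_neg]

/-- the Toeplitz matrix of Legendre symbols -/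
def Tm (n : ℕ) [Fact (Nat.Prime (2 * n + 1))] (m : ℕ) : Matrix (Fin m) (Fin m) ℤ :=
  of fun j k => legendreSym (2 * n + 1) (((j : ℕ) : ℤ) - ((k : ℕ) : ℤ))

lemma Wm_eq (hn : Odd n) : Wm (xx (n := n))
    = ((quadraticChar (ZMod (2 * n + 1)) 2 : ℂ) * gs n) • (Tm n n).map (Int.castRingHom ℂ) := by
  ext j k
  have h := gauss hn (2 * (((j : ℕ) : ZMod (2 * n + 1)) - ((k : ℕ) : ZMod (2 * n + 1))))
  simp only [Wm, of_apply, Matrix.smul_apply, map_apply, Tm, legendreSym, smul_eq_mul,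
    eq_intCast, Int.cast_sub, Int.cast_natCast]
  rw [map_mul, Int.cast_mul] at h
  rw [mul_right_comm, ← h]
  refine Finset.sum_congr rfl fun b _ => ?_
  simp only [xx, ps_inv, ps_pow, ← AddChar.map_add_eq_mul]
  congr 2 <;> ring

lemma Pi1 (hn : Odd n) : ∏ c : Fin n, ∏ b : Fin n, ‖xx b * xx c - 1‖ = √(2 * n + 1) ^ n := by
  have e : ∀ c : Fin n, ∏ b : Fin n, ‖xx b * xx c - 1‖
      = ∏ t : Fin n, ‖ps ((rr t + 1) * rr c) - 1‖ := by
    intro c
    have := prod_mul_rr hn (chi_rr c) (fun a => ‖ps a * xx c - 1‖)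
    change _ = ∏ b : Fin n, ‖xx b * xx c - 1‖ at this
    rw [← this]
    refine Finset.prod_congr rfl fun t _ => ?_
    rw [xx, ← AddChar.map_add_eq_mul]
    congr 3; ring
  simp only [e]
  rw [Finset.prod_comm, Finset.prod_congr rfl fun t _ => norm_prod_rr hn (s := rr t + 1) ?_]
  · simp
  · intro h
    have h1 := chi_rr t
    rw [eq_neg_of_add_eq_zero_left h, chi_neg_one hn] at h1
    omega

lemma Pi2 (hn : Odd n) {s : ZMod (2 * n + 1)} (hs : s ≠ 0) :
    ∏ i : Fin n, ∏ j ∈ univ.erase i, ‖ps (s * rr j) - ps (s * rr i)‖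
      = ∏ t : Fin n, if rr t = 1 then 1 else √(2 * n + 1) := by
  have e : ∀ i : Fin n, ∏ j ∈ univ.erase i, ‖ps (s * rr j) - ps (s * rr i)‖
      = ∏ t : Fin n, if rr t = 1 then 1 else ‖ps (s * (rr t - 1) * rr i) - 1‖ := by
    intro i
    have h := prod_mul_rr hn (chi_rr i)
      (fun a => if a = rr i then 1 else ‖ps (s * a) - ps (s * rr i)‖)
    rw [← Finset.prod_erase_mul _ (fun t => if rr t = rr i then 1
      else ‖ps (s * rr t) - ps (s * rr i)‖) (mem_univ i), if_pos rfl, mul_one] at h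
    rw [← Finset.prod_congr rfl fun j (hj : j ∈ univ.erase i) =>
      if_neg (c := rr j = rr i) (fun h => (mem_erase.1 hj).1 (rr_inj h)) (t := (1 : ℝ)), ← h]
    refine Finset.prod_congr rfl fun t _ => ?_
    have hi := rr_ne i
    by_cases ht : rr t = 1
    · simp [ht]
    · rw [if_neg ht, if_neg (by simpa [hi] using ht)]
      rw [show s * (rr i * rr t) = s * (rr t - 1) * rr i + s * rr i by ring,
        AddChar.map_add_eq_mul, ← sub_one_mul, norm_mul, ps_norm, mul_one]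
  simp only [e]
  rw [Finset.prod_comm]
  refine Finset.prod_congr rfl fun t _ => ?_
  by_cases ht : rr t = 1
  · simp [ht]
  · simp only [if_neg ht]
    exact norm_prod_rr hn (mul_ne_zero hs (sub_ne_zero.2 ht))

end Pool.Agent.H24.Leg
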