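import Pool.Agent.H24.Leg3

set_option autoImplicit false

open Finset Matrix

namespace Pool.Agent.H24.Leg

lemma det_nonneg_of_psd {m : ℕ} (M : Matrix (Fin m) (Fin m) ℝ)
    (h : ∀ v : Fin m → ℝ, 0 ≤ v ⬝ᵥ M *ᵥ v) : 0 ≤ M.det := by
  by_contra hneg
  push Not at hneg
  let f : ℝ → ℝ := fun s => ((1 - s) • (1 : Matrix (Fin m) (Fin m) ℝ) + s • M).det
  have hf : Continuous f := by
    refine Continuous.matrix_det ?_
    fun_prop
  have h0 : f 0 = 1 := by simp [f]
  have h1 : f 1 = M.det := by simp [f]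
  obtain ⟨s, hs, hs0⟩ := intermediate_value_Icc' zero_le_one hf.continuousOn
    (show (0 : ℝ) ∈ Set.Icc (f 1) (f 0) by rw [h0, h1]; exact ⟨hneg.le, zero_le_one⟩)
  have hs1 : s < 1 := lt_of_le_of_ne hs.2 (by rintro rfl; rw [h1] at hs0; linarith)
  obtain ⟨v, hv0, hv⟩ := exists_mulVec_eq_zero_iff.2 hs0
  have e := congrArg (fun w => v ⬝ᵥ w) hv
  simp only [add_mulVec, smul_mulVec, one_mulVec, dotProduct_add, dotProduct_smul, smul_eq_mul,
    dotProduct_zero] at e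
  have hp : 0 < v ⬝ᵥ v := lt_of_le_of_ne (Finset.sum_nonneg fun i _ => mul_self_nonneg _)
    (fun h => hv0 (dotProduct_self_eq_zero.1 h.symm))
  have := mul_pos (sub_pos.2 hs1) hp
  have := mul_nonneg hs.1 (h v)
  linarith

lemma det_nonneg_skew {m : ℕ} (T : Matrix (Fin m) (Fin m) ℤ) (hT : Tᵀ = -T) (u : Fin m → ℤ) :
    0 ≤ (T + vecMulVec u u).det := by
  have h := det_nonneg_of_psd ((T + vecMulVec u u).map (Int.castRingHom ℝ)) (by
    intro v
    have e : v ⬝ᵥ ((T + vecMulVec u u).map (Int.castRingHom ℝ)) *ᵥ v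
        = ∑ i, ∑ j, v i * (T i j : ℝ) * v j + (∑ i, v i * (u i : ℝ)) ^ 2 := by
      rw [sq, Finset.sum_mul_sum]
      simp only [dotProduct, mulVec, map_apply, Matrix.add_apply, vecMulVec_apply, eq_intCast,
        Int.cast_add, Int.cast_mul, Finset.mul_sum, ← Finset.sum_add_distrib]
      refine Finset.sum_congr rfl fun i _ => Finset.sum_congr rfl fun j _ => by ring
    have e2 : ∑ i, ∑ j, v i * (T i j : ℝ) * v j = -∑ i, ∑ j, v i * (T i j : ℝ) * v j := by
      conv_lhs => rw [Finset.sum_comm]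
      simp only [← Finset.sum_neg_distrib]
      refine Finset.sum_congr rfl fun i _ => Finset.sum_congr rfl fun j _ => ?_
      have := congrFun (congrFun hT i) j
      simp only [transpose_apply, Matrix.neg_apply] at this
      rw [this]; push_cast; ring
    rw [e]
    nlinarith [sq_nonneg (∑ i, v i * (u i : ℝ))])
  rw [← RingHom.mapMatrix_apply, ← RingHom.map_det, eq_intCast] at h
  exact_mod_cast h

variable {n : ℕ} [hp : Fact (Nat.Prime (2 * n + 1))]

lemma Tm_skew (hn : Odd n) (m : ℕ) : (Tm n m)ᵀ = -Tm n m := by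
  ext j k
  simp only [Tm, transpose_apply, of_apply, Matrix.neg_apply, legendreSym]
  rw [← chi_neg hn]
  congr 1
  push_cast; ring

lemma main_norm (hn : Odd n) (h3 : 1 < n) (β : Fin n → ℂ) (hK : Km xx *ᵥ β = 0)
    (hS : ∑ b, β b = 1) (u u' : Fin n → ℂ) :
    ‖((Tm n n).map (Int.castRingHom ℂ) + vecMulVec u u').det‖ * (2 * n + 1)
      = ‖β ⬝ᵥ (Am xx *ᵥ u)‖ * ‖β ⬝ᵥ (Am xx *ᵥ u')‖ := by
  set γ : ℂ := (quadraticChar (ZMod (2 * n + 1)) 2 : ℂ) * gs n with hγ
  set P : ℂ := ((2 * n + 1 : ℕ) : ℂ) with hP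
  have hP0 : P ≠ 0 := by rw [hP]; exact_mod_cast (by omega : 2 * n + 1 ≠ 0)
  have hconj := Am_conj hn xx xx_norm (xx_mul_ne hn) xx_mul_ne' xx_pow (xx_prod hn h3) P
    (xx_hprod hn)
  rw [Wm_eq hn, ← hγ] at hconj
  have e : Am xx * (γ • ((Tm n n).map (Int.castRingHom ℂ) + vecMulVec u u')) * (Am xx)ᵀ
      = P • (Km xx + vecMulVec ((γ / P) • (Am xx *ᵥ u)) (Am xx *ᵥ u')) := by
    rw [smul_add, Matrix.mul_add, Matrix.add_mul, hconj, smul_add]
    congr 1
    rw [Matrix.mul_smul, Matrix.smul_mul, mul_vecMulVec, vecMulVec_mul, vecMul_transpose,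
      smul_vecMulVec, smul_smul, mul_div_cancel₀ _ hP0]
  have e' := congrArg (fun M => ‖det M‖) e
  simp only [det_mul, det_smul, det_transpose, Fintype.card_fin,
    det_Km_add xx xx_inj xx_norm (xx_mul_ne hn) β hK hS, dotProduct_smul, smul_eq_mul,
    norm_mul, norm_pow, norm_div] at e'
  set s : ℝ := √(2 * n + 1) with hs
  have hs0 : 0 < s := Real.sqrt_pos.2 (by positivity)
  have hs2 : s ^ 2 = 2 * n + 1 := Real.sq_sqrt (by positivity)
  have hγn : ‖γ‖ = s := by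
    rw [hγ, norm_mul, gs_norm hn]
    rcases quadraticChar_dichotomy (two_ne (n := n)) with h | h <;> simp [h, hs]
  have hPn : ‖P‖ = s ^ 2 := by rw [hP, Complex.norm_natCast, hs2]; push_cast; ring
  have hz : ∏ c : Fin n, ‖xx c ^ 2 - 1‖ = s := by
    simp only [xx, ps_sq]; exact norm_prod_rr hn two_ne
  have hA := norm_det_Am xx xx_norm (xx_sq_inj (n := n))
  have hC := norm_det_Cm xx xx_inj xx_norm (xx_mul_ne hn)
  have p2 := Pi2 hn (one_ne_zero (α := ZMod (2 * n + 1)))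
  have p3 := Pi2 hn (two_ne (n := n))
  simp only [one_mul] at p2
  simp only [← ps_sq] at p3
  change ∏ i : Fin n, ∏ j ∈ univ.erase i, ‖xx j - xx i‖ = _ at p2
  change ∏ i : Fin n, ∏ j ∈ univ.erase i, ‖xx j ^ 2 - xx i ^ 2‖ = _ at p3
  set Q : ℝ := ∏ t : Fin n, if rr t = 1 then 1 else √(2 * n + 1) with hQ
  have hQ0 : 0 < Q := Finset.prod_pos fun t _ => by split_ifs <;> positivity
  rw [hz, p3] at hA
  rw [hz, p2, Pi1 hn, ← hs] at hC
  rw [hγn, hPn] at e'
  rw [← hs2]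
  generalize ‖((Tm n n).map (Int.castRingHom ℂ) + vecMulVec u u').det‖ = D at e' ⊢
  generalize ‖β ⬝ᵥ (Am xx *ᵥ u)‖ = l at e' ⊢
  generalize ‖β ⬝ᵥ (Am xx *ᵥ u')‖ = l' at e' ⊢
  generalize ‖(Am (xx (n := n))).det‖ = a at e' hA
  generalize ‖(Cm (xx (n := n))).det‖ = c at e' hC
  have hw : (s ^ 2) ^ n = s ^ n * s ^ n := by rw [← pow_mul, two_mul, pow_add]
  rw [hw] at e'
  have hw0 : 0 < s ^ n := pow_pos hs0 n
  generalize s ^ n = w at e' hC hw0
  field_simp at e'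
  apply mul_left_cancel₀ (show s * Q ≠ 0 by positivity)
  linear_combination e' + l * l' * hC - s * D * hA

lemma det_one_of (hn : Odd n) (h3 : 1 < n) (β : Fin n → ℂ) (hK : Km xx *ᵥ β = 0)
    (hS : ∑ b, β b = 1) (u : Fin n → ℤ) (k : ℕ)
    (h : ‖β ⬝ᵥ (Am xx *ᵥ fun i => (u i : ℂ))‖ = k * √(2 * n + 1)) :
    (Tm n n + vecMulVec u u).det = (k : ℤ) ^ 2 := by
  have h1 := main_norm hn h3 β hK hS (fun i => (u i : ℂ)) (fun i => (u i : ℂ))
  have e : (Tm n n).map (Int.castRingHom ℂ) + vecMulVec (fun i => (u i : ℂ)) (fun i => (u i : ℂ))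
      = (Tm n n + vecMulVec u u).map (Int.castRingHom ℂ) := by
    ext i j; simp [vecMulVec_apply]
  rw [e, ← RingHom.mapMatrix_apply, ← RingHom.map_det, h, eq_intCast, Complex.norm_intCast,
    ← Int.cast_abs, abs_of_nonneg (det_nonneg_skew _ (Tm_skew hn n) u)] at h1
  have hs2 : √(2 * n + 1) * √(2 * n + 1) = 2 * n + 1 := Real.mul_self_sqrt (by positivity)
  have : (((Tm n n + vecMulVec u u).det : ℤ) : ℝ) = (k : ℝ) ^ 2 := by
    apply mul_right_cancel₀ (show (2 * n + 1 : ℝ) ≠ 0 by positivity)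
    rw [h1]
    linear_combination (k : ℝ) ^ 2 * hs2
  exact_mod_cast this

theorem det_ones (hn : Odd n) (h3 : 1 < n) (k : ℕ) :
    (Tm n n + vecMulVec (fun _ => (k : ℤ)) (fun _ => (k : ℤ))).det = (k : ℤ) ^ 2 := by
  obtain ⟨β, hK, hS, -⟩ := exists_beta hn xx xx_inj xx_norm (xx_mul_ne hn)
  refine det_one_of hn h3 β hK hS _ k ?_
  have e : (fun _ : Fin n => (((k : ℤ)) : ℂ)) = (k : ℂ) • fun _ => 1 := by ext; simp
  rw [e, mulVec_smul, dotProduct_smul, Am_mulVec_one xx xx_norm, dotProduct, ← Finset.sum_mul, hS,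
    one_mul, smul_eq_mul, norm_mul, Complex.norm_natCast, norm_prod,
    ← norm_prod_rr hn (neg_ne_zero.2 two_ne)]
  congr 1
  refine Finset.prod_congr rfl fun i _ => ?_
  rw [norm_sub_rev, xx, ps_sq, ps_inv, neg_mul]

omit hp in
theorem det_minor {m : ℕ} [Fact (Nat.Prime (2 * (m + 1) + 1))] (hm : Even m) (h3 : 0 < m) :
    (Tm (m + 1) m).det = 1 := by
  have hn : Odd (m + 1) := hm.add_one
  obtain ⟨β, hK, hS, hgen⟩ := exists_beta hn xx xx_inj xx_norm (xx_mul_ne hn)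
  have h := det_one_of hn (by omega) β hK hS (Pi.single 0 1) 1 (by
    have e : (fun i : Fin (m + 1) => (((Pi.single 0 1 : Fin (m + 1) → ℤ) i : ℤ) : ℂ))
        = Pi.single 0 1 := by
      ext i; by_cases h : i = 0 <;> simp [h]
    have hpi := xx_prod hn (by omega)
    rw [e, Am_mulVec_single hm xx xx_norm hpi, beta_deriv xx β xx_norm hpi hgen]
    have := gauss hn 1
    simp only [one_mul, map_one, Int.cast_one, ← ps_inv] at this
    change ∑ b, (xx b - (xx b)⁻¹) = _ at this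
    rw [this, gs_norm hn]; simp)
  have e : Tm (m + 1) (m + 1) + vecMulVec (Pi.single 0 1) (Pi.single 0 1)
      = (Tm (m + 1) (m + 1)).updateRow 0 (Tm (m + 1) (m + 1) 0 + Pi.single 0 1) := by
    ext i j
    by_cases h : i = 0
    · subst h; simp [vecMulVec_apply]
    · simp [vecMulVec_apply, h]
  rw [e, det_updateRow_add, updateRow_eq_self, det_skew hn _ (Tm_skew hn _), zero_add,
    ← adjugate_apply, adjugate_fin_succ_eq_det_submatrix] at h
  simp only [Fin.val_zero, add_zero, pow_zero, one_mul, Fin.succAbove_zero, Nat.cast_one,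
    one_pow] at h
  rw [← h]
  congr 1
  ext j k
  simp [Tm]

end Pool.Agent.H24.Leg
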