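import Pool.Agent.H24.Leg4

set_option autoImplicit false

open Finset Matrix Polynomial

namespace Pool.Agent.H24.Leg

variable {n : ℕ}

noncomputable def EE (a b c : ℂ) : ℂ[X] :=
  1 + C a * X + C ((a ^ 2 + b) / 2) * X ^ 2 + C (a ^ 3 / 6 + a * b / 2 + c / 3) * X ^ 3

lemma trunc4 (x : Fin n → ℂ) (h0 : ∀ i, x i ≠ 0) (s : Finset (Fin n)) :
    X ^ 4 ∣ ∏ b ∈ s, (X - C (x b)) - C (∏ b ∈ s, x b)
      * EE (∑ b ∈ s, (x b - (x b)⁻¹)) (∑ b ∈ s, (x b ^ 2 - (x b ^ 2)⁻¹))
        (∑ b ∈ s, (x b ^ 3 - (x b ^ 3)⁻¹)) * ∏ b ∈ s, (C (x b) * X - C 1) := by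
  induction s using Finset.induction_on with
  | empty => simp [EE]
  | insert a s ha ih =>
    simp only [prod_insert ha, sum_insert ha]
    generalize ∑ b ∈ s, (x b - (x b)⁻¹) = p1 at ih ⊢
    generalize ∑ b ∈ s, (x b ^ 2 - (x b ^ 2)⁻¹) = p2 at ih ⊢
    generalize ∑ b ∈ s, (x b ^ 3 - (x b ^ 3)⁻¹) = p3 at ih ⊢
    generalize ∏ b ∈ s, (C (x b) * X - C 1) = Q at ih ⊢
    generalize ∏ b ∈ s, (X - C (x b)) = P at ih ⊢
    generalize ∏ b ∈ s, x b = q at ih ⊢
    have ha0 := h0 a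
    generalize x a = y at ha0 ⊢
    have key : (X - C y) * EE p1 p2 p3 - C y * EE (y - y⁻¹ + p1) (y ^ 2 - (y ^ 2)⁻¹ + p2)
        (y ^ 3 - (y ^ 3)⁻¹ + p3) * (C y * X - C 1)
        = X ^ 4 * C (p1 ^ 3 / 6 + p1 * p2 / 2 + p3 / 3 - y ^ 2 * ((y - y⁻¹ + p1) ^ 3 / 6
          + (y - y⁻¹ + p1) * (y ^ 2 - (y ^ 2)⁻¹ + p2) / 2 + (y ^ 3 - (y ^ 3)⁻¹ + p3) / 3)) := by
      apply Polynomial.funext
      intro t
      simp only [EE, eval_mul, eval_sub, eval_add, eval_X, eval_C, eval_pow, eval_one]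
      field_simp
      ring
    have h2 : X ^ 4 ∣ C q * Q * ((X - C y) * EE p1 p2 p3 - C y * EE (y - y⁻¹ + p1)
        (y ^ 2 - (y ^ 2)⁻¹ + p2) (y ^ 3 - (y ^ 3)⁻¹ + p3) * (C y * X - C 1)) := by
      rw [key]; exact Dvd.dvd.mul_left (dvd_mul_right _ _) _
    convert dvd_add (ih.mul_left (X - C y)) h2 using 1
    rw [C_mul]; ring

lemma third (hn : Odd n) (x : Fin n → ℂ) (hinj : Function.Injective x) (h1 : ∀ i, ‖x i‖ = 1)
    (hx : ∀ i j, x i * x j ≠ 1) (hpi : ∏ i, x i = 1) (w : Fin n → ℂ) (l : ℂ)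
    (hw : Km x *ᵥ w = fun c => 1 - (x c ^ 2)⁻¹ - l) (hs : ∑ b, w b = 0) :
    l = ∑ b, (x b - (x b)⁻¹) ∧ w ⬝ᵥ (fun b => x b ^ 2 - 1)
      = -(∑ b, (x b - (x b)⁻¹)) ^ 3 / 3 + (∑ b, (x b ^ 3 - (x b ^ 3)⁻¹)) / 3
        - ∑ b, (x b - (x b)⁻¹) := by
  have h0 : ∀ i, x i ≠ 0 := by intro i h; have := h1 i; simp [h] at this
  have hx1 : ∀ b, x b ≠ 1 := fun b h => hx b b (by simp [h])
  have hx2 : ∀ b, x b ≠ -1 := fun b h => hx b b (by simp [h])
  set Q : ℂ[X] := ∏ c, (C (x c) * X - C 1) with hQ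
  set P : ℂ[X] := ∏ c, (X - C (x c)) with hP
  set R : ℂ[X] := ∑ b, C (w b) * ((X - C (x b)) * Qb x b) with hR
  have hQe : ∀ t, Q.eval t = ∏ c, (x c * t - 1) := by intro t; simp [hQ, eval_prod]
  have hPe : ∀ t, P.eval t = ∏ c, (t - x c) := by intro t; simp [hP, eval_prod]
  have key : ∀ t : ℂ, (∀ b, x b * t ≠ 1) →
      R.eval t = (∑ b, w b * ((t - x b) / (x b * t - 1))) * ∏ c, (x c * t - 1) := by
    intro t ht
    rw [hR, eval_finsetSum, Finset.sum_mul]
    refine Finset.sum_congr rfl fun b _ => ?_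
    rw [← Qb_eval x b t]
    have := sub_ne_zero.2 (ht b)
    simp only [eval_mul, eval_C, eval_sub, eval_X]
    generalize x b * t - 1 = D at this ⊢
    field_simp
  have dQ : Q.natDegree ≤ n := by
    refine (natDegree_prod_le _ _).trans ?_
    refine (Finset.sum_le_sum fun c _ => natDeg_lin (x c) 1).trans ?_
    simp
  have dP : P.natDegree ≤ n := by
    rw [hP, natDegree_prod_of_monic _ _ (fun b _ => monic_X_sub_C _)]; simp
  have dR : R.natDegree ≤ n := by
    refine natDegree_sum_le_of_forall_le _ _ fun b _ => ?_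
    refine (natDegree_C_mul_le _ _).trans (natDegree_mul_le.trans ?_)
    have := natDeg_prod_erase b (fun c => C (x c) * X - C 1) fun c => natDeg_lin _ _
    rw [natDegree_X_sub_C, Qb]; omega
  have hpoly : X ^ 2 * R + (1 + C (l - 1) * X ^ 2) * Q = P * (1 - C l * X - X ^ 2) := by
    apply eq_of_natDegree_lt_card_of_eval_eq' _ _
      (insert 0 (insert 1 (insert (-1) (univ.image x))))
    · intro t ht
      simp only [mem_insert, mem_image, mem_univ, true_and] at ht
      simp only [eval_add, eval_mul, eval_pow, eval_X, eval_one, eval_C, eval_sub, hQe, hPe]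
      rcases ht with rfl | rfl | rfl | ⟨c, rfl⟩
      · have : ∏ c, (0 - x c) = ∏ c, (-1 * x c) := Finset.prod_congr rfl fun _ _ => by ring
        rw [this, Finset.prod_mul_distrib, hpi]
        simp
      · rw [key 1 (by simpa using hx1)]
        have e1 : ∑ b, w b * ((1 - x b) / (x b * 1 - 1)) = 0 := by
          rw [← neg_eq_zero, ← hs, ← Finset.sum_neg_distrib]
          refine Finset.sum_congr rfl fun b _ => ?_
          have := sub_ne_zero.2 (hx1 b)
          rw [mul_one]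
          field_simp
          ring
        have e : ∏ c, (x c * 1 - 1) = ∏ c, (-1) * (1 - x c) :=
          Finset.prod_congr rfl fun c _ => by ring
        rw [e1, e, Finset.prod_mul_distrib, Finset.prod_const, card_univ, Fintype.card_fin,
          hn.neg_one_pow]
        ring
      · rw [key (-1) (fun b h => hx2 b (by linear_combination -h))]
        have e1 : ∑ b, w b * ((-1 - x b) / (x b * -1 - 1)) = 0 := by
          rw [← hs]
          refine Finset.sum_congr rfl fun b _ => ?_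
          have : -1 - x b ≠ 0 := fun h => hx2 b (by linear_combination -h)
          rw [show x b * -1 - 1 = -1 - x b by ring, div_self this, mul_one]
        have e : ∏ c, (x c * -1 - 1) = ∏ c, (-1 - x c) :=
          Finset.prod_congr rfl fun c _ => by ring
        rw [e1, e]
        ring
      · rw [key (x c) (fun b => hx b c),
          Finset.prod_eq_zero (i := c) (f := fun j => x c - x j) (mem_univ c) (by simp)]
        have := congrFun hw c
        simp only [mulVec, dotProduct, Km, of_apply] at this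
        rw [show ∑ b, w b * ((x c - x b) / (x b * x c - 1)) = 1 - (x c ^ 2)⁻¹ - l by
          rw [← this]; exact Finset.sum_congr rfl fun b _ => mul_comm _ _]
        have := h0 c
        field_simp
        ring
    · rw [card_insert_of_notMem (by simpa using h0), card_insert_of_notMem
        (by simpa [(by norm_num : (1 : ℂ) ≠ -1)] using hx1),
        card_insert_of_notMem (by simpa using hx2), card_image_of_injective _ hinj, card_univ,
        Fintype.card_fin, max_lt_iff]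
      constructor
      · refine Nat.lt_succ_of_le (natDegree_add_le_of_degree_le ?_ ?_)
        · refine natDegree_mul_le.trans ?_
          rw [natDegree_X_pow]; omega
        · refine natDegree_mul_le.trans ?_
          have : (1 + C (l - 1) * X ^ 2 : ℂ[X]).natDegree ≤ 2 := by compute_degree
          omega
      · refine Nat.lt_succ_of_le (natDegree_mul_le.trans ?_)
        have : (1 - C l * X - X ^ 2 : ℂ[X]).natDegree ≤ 2 := by compute_degree
        omega
  have t4 := trunc4 x h0 univ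
  rw [hpi, ← hP, ← hQ, C_1, one_mul] at t4
  have hR2 : X ^ 2 ∣ R - (C (∑ b, w b * x b) + C (w ⬝ᵥ fun b => x b ^ 2 - 1) * X) * Q := by
    have : R - (C (∑ b, w b * x b) + C (w ⬝ᵥ fun b => x b ^ 2 - 1) * X) * Q
        = ∑ b, X ^ 2 * (C (-(w b * x b * (x b ^ 2 - 1))) * Qb x b) := by
      rw [hR, dotProduct, map_sum, map_sum, Finset.sum_mul, ← Finset.sum_add_distrib,
        Finset.sum_mul, ← Finset.sum_sub_distrib]
      refine Finset.sum_congr rfl fun b _ => ?_
      rw [hQ, ← Finset.prod_erase_mul _ _ (mem_univ b), ← Qb]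
      simp only [map_mul, map_neg, map_sub, map_pow, map_one]
      ring
    rw [this]
    exact Finset.dvd_sum fun b _ => dvd_mul_right _ _
  generalize (∑ b, w b * x b) = s0 at hR2
  generalize (w ⬝ᵥ fun b => x b ^ 2 - 1) = s1 at hR2 ⊢
  generalize ∑ b, (x b - (x b)⁻¹) = p1 at t4 ⊢
  generalize ∑ b, (x b ^ 2 - (x b ^ 2)⁻¹) = p2 at t4 ⊢
  generalize ∑ b, (x b ^ 3 - (x b ^ 3)⁻¹) = p3 at t4 ⊢
  have hcop : IsCoprime (X ^ 4 : ℂ[X]) Q := by
    refine IsCoprime.pow_left ((irreducible_X.coprime_iff_not_dvd).2 ?_)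
    rw [X_dvd_iff, coeff_zero_eq_eval_zero, hQe]
    simp
  have hfin : X ^ 4 ∣ (X ^ 2 * (C s0 + C s1 * X) + (1 + C (l - 1) * X ^ 2)
      - EE p1 p2 p3 * (1 - C l * X - X ^ 2)) := by
    apply hcop.dvd_of_dvd_mul_right
    obtain ⟨A, hA⟩ := hR2
    obtain ⟨B, hB⟩ := t4
    exact ⟨B * (1 - C l * X - X ^ 2) - A, by
      linear_combination hpoly - X ^ 2 * hA + (1 - C l * X - X ^ 2) * hB⟩
  have e : (X ^ 2 * (C s0 + C s1 * X) + (1 + C (l - 1) * X ^ 2)
      - EE p1 p2 p3 * (1 - C l * X - X ^ 2))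
      = C (l - p1) * X + C (s0 + l - (p1 ^ 2 + p2) / 2 + l * p1) * X ^ 2
        + C (s1 - (p1 ^ 3 / 6 + p1 * p2 / 2 + p3 / 3) + l * ((p1 ^ 2 + p2) / 2) + p1) * X ^ 3
        + X ^ 4 * (C (l * (p1 ^ 3 / 6 + p1 * p2 / 2 + p3 / 3) + (p1 ^ 2 + p2) / 2)
          + C (p1 ^ 3 / 6 + p1 * p2 / 2 + p3 / 3) * X) := by
    apply Polynomial.funext
    intro t
    simp only [EE, eval_mul, eval_sub, eval_add, eval_X, eval_C, eval_pow, eval_one]
    ring
  rw [e, dvd_add_left (dvd_mul_right _ _), X_pow_dvd_iff] at hfin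
  have c1 := hfin 1 (by norm_num)
  have c3 := hfin 3 (by norm_num)
  simp only [coeff_add, coeff_C_mul, coeff_X_pow, coeff_X] at c1 c3
  norm_num at c1 c3
  have hl : l = p1 := by linear_combination c1
  refine ⟨hl, ?_⟩
  rw [hl] at c3
  linear_combination c3

lemma Am_mulVec_last {m : ℕ} (x : Fin (m + 1) → ℂ) (h1 : ∀ i, ‖x i‖ = 1) :
    Am x *ᵥ (Pi.single (Fin.last m) 1) = fun c => 1 - (x c ^ 2)⁻¹ := by
  have h0 : ∀ i, x i ≠ 0 := by intro i h; have := h1 i; simp [h] at this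
  ext c
  have hm : (Nb x c).Monic := monic_prod_of_monic _ _ fun b _ => monic_X_sub_C _
  have hd : (Nb x c).natDegree = m := by
    rw [Nb, natDegree_prod_of_monic _ _ (fun b _ => monic_X_sub_C _)]
    simp
  have e := hm.coeff_natDegree
  rw [hd] at e
  rw [mulVec_single_one]
  simp only [Am, col_apply, diagonal_mul, cm, of_apply, Fin.val_last, e]
  have := h0 c
  field_simp

/-- linear algebra on the Toeplitz side -/
lemma minor_of_sol {m : ℕ} (T : Matrix (Fin (m + 1)) (Fin (m + 1)) ℂ) (hT : Tᵀ = -T)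
    (hd : T.det = 1) (y : Fin (m + 1) → ℂ) (hy : T *ᵥ y = fun _ => 1) (t : ℂ) :
    ((T + vecMulVec (fun _ => t) (fun _ => 1)).submatrix Fin.succ Fin.succ).det
      = t * y 0 ^ 2 := by
  have hu : IsUnit T.det := by rw [hd]; exact isUnit_one
  have skew : ∀ a b : Fin (m + 1) → ℂ, (T *ᵥ a) ⬝ᵥ b = -(a ⬝ᵥ T *ᵥ b) := by
    intro a b
    rw [dotProduct_comm, dotProduct_mulVec, ← mulVec_transpose, hT, neg_mulVec, neg_dotProduct,
      dotProduct_comm]
  have self : ∀ a : Fin (m + 1) → ℂ, (T *ᵥ a) ⬝ᵥ a = 0 := by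
    intro a
    have := skew a a
    rw [dotProduct_comm a] at this
    linear_combination this / 2
  set o : Fin (m + 1) → ℂ := T⁻¹ *ᵥ Pi.single 0 1 with ho
  have hTo : T *ᵥ o = Pi.single 0 1 := by
    rw [ho, mulVec_mulVec, mul_nonsing_inv _ hu, one_mulVec]
  have o0 : o 0 = 0 := by simpa [hTo] using self o
  have sy : (fun _ => 1) ⬝ᵥ y = 0 := by rw [← hy]; exact self y
  have so : (fun _ => 1) ⬝ᵥ o = -y 0 := by rw [← hy, skew, hTo]; simp
  set N := T + vecMulVec (fun _ => t) (fun _ => (1 : ℂ)) with hN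
  have hNz : N *ᵥ (o + (t * y 0) • y) = Pi.single 0 1 := by
    rw [hN, add_mulVec, vecMulVec_mulVec, mulVec_add, mulVec_smul, hTo, hy, dotProduct_add,
      dotProduct_smul, sy, so]
    ext i; simp; ring
  have hdN : N.det = 1 := by
    have : N = T * (1 + vecMulVec (t • y) (fun _ => 1)) := by
      rw [Matrix.mul_add, Matrix.mul_one, mul_vecMulVec, mulVec_smul, hy, hN]
      congr 2; ext; simp
    rw [this, det_mul, hd, one_mul, vecMulVec_eq Unit, det_one_add_replicateCol_mul_replicateRow,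
      dotProduct_smul, sy]
    simp
  have := congrArg (fun v => (adjugate N *ᵥ v) 0) hNz
  simp only [mulVec_mulVec, adjugate_mul, hdN, one_smul, one_mulVec, mulVec_single_one,
    col_apply, adjugate_fin_succ_eq_det_submatrix, Fin.val_zero, add_zero, pow_zero, one_mul,
    Fin.succAbove_zero, Pi.add_apply, o0, Pi.smul_apply, smul_eq_mul, zero_add] at this
  rw [← this]; ring

lemma chi_three [Fact (Nat.Prime (2 * n + 1))] (hn : Odd n) (h3 : 1 < n) :
    ((2 * n + 1 : ℕ) : ℤ) + quadraticChar (ZMod (2 * n + 1)) 3 - 3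
      = 3 * (((2 * n + 1 - 2) / 3 : ℕ) : ℤ) := by
  have hp : Nat.Prime (2 * n + 1) := Fact.out
  have e : quadraticChar (ZMod (2 * n + 1)) 3 = legendreSym (2 * n + 1) ((3 : ℕ) : ℤ) := by
    simp [legendreSym]
  rw [e, legendreSym.quadratic_reciprocity_three_mod_four (p := 3) (q := 2 * n + 1) (by norm_num)
    (by obtain ⟨k, rfl⟩ := hn; omega), legendreSym.mod]
  have h0 : (2 * n + 1) % 3 ≠ 0 := by
    intro h
    have := (Nat.prime_dvd_prime_iff_eq Nat.prime_three hp).1 (Nat.dvd_of_mod_eq_zero h)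
    omega
  have : (2 * n + 1) % 3 = 1 ∨ (2 * n + 1) % 3 = 2 := by omega
  rcases this with h | h
  · rw [show ((2 * n + 1 : ℕ) : ℤ) % ((3 : ℕ) : ℤ) = 1 by omega,
      show legendreSym 3 1 = 1 by norm_num]
    omega
  · rw [show ((2 * n + 1 : ℕ) : ℤ) % ((3 : ℕ) : ℤ) = 2 by omega,
      show legendreSym 3 2 = -1 by norm_num]
    omega

theorem det_third {m : ℕ} [Fact (Nat.Prime (2 * (m + 2) + 1))] (hm : Odd m) (t : ℤ) :
    (Tm (m + 2) m + vecMulVec (fun _ => t) (fun _ => 1)).det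
      = (((2 * (m + 2) + 1 - 2) / 3 : ℕ) : ℤ) ^ 2 * t := by
  have hn : Odd (m + 2) := by obtain ⟨k, rfl⟩ := hm; exact ⟨k + 1, by ring⟩
  have h3 : 1 < m + 2 := by omega
  obtain ⟨β, hK, hS, -⟩ := exists_beta hn xx xx_inj xx_norm (xx_mul_ne hn)
  have hpi := xx_prod hn h3
  have hdet : IsUnit (Cm (xx (n := m + 2))).det :=
    (det_Cm_ne xx xx_inj xx_norm (xx_mul_ne hn)).isUnit
  set a : Fin (m + 2) → ℂ := fun c => 1 - (xx c ^ 2)⁻¹ with ha
  set w0 := (Cm xx)⁻¹ *ᵥ a with hw0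
  have hCw : Cm xx *ᵥ w0 = a := by rw [hw0, mulVec_mulVec, mul_nonsing_inv _ hdet, one_mulVec]
  rw [Cm_mulVec xx (xx_mul_ne hn)] at hCw
  set l := ∑ b, w0 b with hl
  set w := w0 - l • β with hw
  have hKw : Km xx *ᵥ w = fun c => 1 - (xx c ^ 2)⁻¹ - l := by
    rw [hw, mulVec_sub, mulVec_smul, hK, smul_zero, sub_zero]
    ext c
    have := congrFun hCw c
    simp only [Pi.add_apply, ha] at this
    rw [← this]; ring
  have hsw : ∑ b, w b = 0 := by
    simp only [hw, Pi.sub_apply, Pi.smul_apply, smul_eq_mul, Finset.sum_sub_distrib,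
      ← Finset.mul_sum, hS, ← hl, mul_one, sub_self]
  obtain ⟨t1, t2⟩ := third hn xx xx_inj xx_norm (xx_mul_ne hn) hpi w l hKw hsw
  have g1 : ∑ b : Fin (m + 2), (xx b - (xx b)⁻¹) = gs (m + 2) := by
    have := gauss hn 1
    simp only [one_mul, map_one, Int.cast_one, ← ps_inv] at this
    exact this
  have g3 : ∑ b : Fin (m + 2), (xx b ^ 3 - (xx b ^ 3)⁻¹)
      = (quadraticChar (ZMod (2 * (m + 2) + 1)) 3 : ℂ) * gs (m + 2) := by
    rw [← gauss hn 3]
    simp only [xx, ps_pow, ps_inv, Nat.cast_ofNat]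
  set k : ℕ := (2 * (m + 2) + 1 - 2) / 3 with hk
  have hs1 : w ⬝ᵥ (fun b => xx b ^ 2 - 1) = k * gs (m + 2) := by
    have c3 : (((2 * (m + 2) + 1 : ℕ) : ℤ) : ℂ)
        + (quadraticChar (ZMod (2 * (m + 2) + 1)) 3 : ℂ) - 3 = 3 * (k : ℂ) := by
      exact_mod_cast chi_three hn h3
    rw [t2, g1, g3]
    have := gs_sq hn
    rw [Int.cast_natCast] at c3
    linear_combination gs (m + 2) / 3 * c3 - gs (m + 2) / 3 * this
  rw [g1] at t1
  set γ : ℂ := (quadraticChar (ZMod (2 * (m + 2) + 1)) 2 : ℂ) * gs (m + 2) with hγ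
  set P : ℂ := ((2 * (m + 2) + 1 : ℕ) : ℂ) with hP
  have hconj := Am_conj hn xx xx_norm (xx_mul_ne hn) xx_mul_ne' xx_pow hpi P (xx_hprod hn)
  rw [Wm_eq hn, ← hγ] at hconj
  set s : ℝ := √(2 * ((m + 2 : ℕ) : ℝ) + 1) with hs
  have hs0 : 0 < s := Real.sqrt_pos.2 (by positivity)
  have hs2 : s ^ 2 = 2 * ((m + 2 : ℕ) : ℝ) + 1 := Real.sq_sqrt (by positivity)
  have hgn : ‖gs (m + 2)‖ = s := gs_norm hn
  have hγn : ‖γ‖ = s := by
    rw [hγ, norm_mul, hgn]
    rcases quadraticChar_dichotomy (two_ne (n := m + 2)) with h | h <;> simp [h]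
  have hPn : ‖P‖ = s ^ 2 := by rw [hP, Complex.norm_natCast, hs2]; push_cast; ring
  set c : ℂ := ∏ d : Fin (m + 2), (1 - (xx d ^ 2)⁻¹) with hc
  have hcn : ‖c‖ = s := by
    rw [hc, norm_prod, hs, ← norm_prod_rr hn (neg_ne_zero.2 two_ne)]
    refine Finset.prod_congr rfl fun i _ => ?_
    rw [norm_sub_rev, xx, ps_sq, ps_inv, neg_mul]
  have c0 : c ≠ 0 := norm_pos_iff.1 (hcn ▸ hs0)
  have P0 : P ≠ 0 := norm_pos_iff.1 (by rw [hPn]; positivity)
  have l0 : l ≠ 0 := by rw [t1]; exact norm_pos_iff.1 (hgn ▸ hs0)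
  have hA : (Am (xx (n := m + 2))).det ≠ 0 := by
    intro h
    have := norm_det_Am xx xx_norm (xx_sq_inj (n := m + 2))
    rw [h, norm_zero, zero_pow two_ne_zero] at this
    refine mul_ne_zero (pow_ne_zero _ ?_) ?_ this.symm
    · refine Finset.prod_ne_zero_iff.2 fun c _ => norm_ne_zero_iff.2 (sub_ne_zero.2 ?_)
      rw [sq]; exact xx_mul_ne hn c c
    · exact Finset.prod_ne_zero_iff.2 fun i _ => Finset.prod_ne_zero_iff.2 fun j hj =>
        norm_ne_zero_iff.2 (sub_ne_zero.2 fun h => (mem_erase.1 hj).1 (xx_sq_inj h))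
  set T := (Tm (m + 2) (m + 2)).map (Int.castRingHom ℂ) with hT
  set yh := (Am xx)ᵀ *ᵥ w with hyh
  have hTy : γ • (T *ᵥ yh) = P • Pi.single (Fin.last (m + 1)) 1 - (P * l / c) • fun _ => 1 := by
    apply mulVec_injective_of_det_ne_zero hA
    rw [← smul_mulVec, hyh, mulVec_mulVec, mulVec_mulVec, hconj, smul_mulVec,
      hKw, mulVec_sub, mulVec_smul, mulVec_smul, Am_mulVec_last xx xx_norm,
      Am_mulVec_one xx xx_norm, ← hc]
    ext i
    simp only [Pi.smul_apply, smul_eq_mul, Pi.sub_apply]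
    field_simp
  have hyi : ∀ i, yh i = w ⬝ᵥ (Am xx *ᵥ Pi.single i 1) := by
    intro i
    rw [dotProduct_mulVec, ← mulVec_transpose, ← hyh]; simp
  have hy0 : yh 0 = k * gs (m + 2) := by
    rw [hyi, Am_mulVec_single (by obtain ⟨j, rfl⟩ := hm; exact ⟨j + 1, by ring⟩) xx xx_norm hpi,
      hs1]
  have hyl : yh (Fin.last (m + 1)) = 0 := by
    rw [hyi, Am_mulVec_last xx xx_norm]
    have e1 : (fun c : Fin (m + 2) => 1 - (xx c ^ 2)⁻¹) = Km xx *ᵥ w + fun _ => l := by
      rw [hKw]; ext; simp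
    have e2 : w ⬝ᵥ Km xx *ᵥ w = 0 := by
      have : w ⬝ᵥ Km xx *ᵥ w = -(w ⬝ᵥ Km xx *ᵥ w) := by
        conv_lhs => rw [dotProduct_mulVec, ← mulVec_transpose, Km_T, neg_mulVec, neg_dotProduct,
          dotProduct_comm]
      linear_combination this / 2
    rw [e1, dotProduct_add, e2, dotProduct, ← Finset.sum_mul, hsw]; simp
  set y : Fin (m + 1) → ℂ := fun i => -(γ * c / (P * l)) * yh i.castSucc with hy
  have hT' : (Tm (m + 2) (m + 1)).map (Int.castRingHom ℂ) *ᵥ y = fun _ => 1 := by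
    ext j
    have := congrFun hTy j.castSucc
    simp only [Pi.smul_apply, smul_eq_mul, Pi.sub_apply, mul_one, mulVec, dotProduct,
      Fin.sum_univ_castSucc, hyl, mul_zero, add_zero,
      Pi.single_eq_of_ne (Fin.castSucc_lt_last j).ne] at this
    have e : ((Tm (m + 2) (m + 1)).map (Int.castRingHom ℂ) *ᵥ y) j
        = -(γ * c / (P * l)) * ∑ i : Fin (m + 1), T j.castSucc i.castSucc * yh i.castSucc := by
      rw [Finset.mul_sum, mulVec, dotProduct]
      refine Finset.sum_congr rfl fun i _ => ?_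
      simp only [hy, hT, map_apply, Tm, of_apply, Fin.val_castSucc]
      ring
    rw [e, Fin.sum_univ_castSucc]
    generalize (∑ i : Fin m, T j.castSucc i.castSucc.castSucc * yh i.castSucc.castSucc
      + T j.castSucc (Fin.last m).castSucc * yh (Fin.last m).castSucc) = Z at this ⊢
    field_simp at this ⊢
    linear_combination -this
  have hd1 : ((Tm (m + 2) (m + 1)).map (Int.castRingHom ℂ)).det = 1 := by
    rw [← RingHom.mapMatrix_apply, ← RingHom.map_det,
      det_minor (m := m + 1) (hm.add_one) (by omega), map_one]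
  have hsk : ((Tm (m + 2) (m + 1)).map (Int.castRingHom ℂ))ᵀ
      = -(Tm (m + 2) (m + 1)).map (Int.castRingHom ℂ) := by
    rw [← transpose_map, Tm_skew hn]
    ext; simp
  have hall : ∀ t : ℤ, (((Tm (m + 2) m + vecMulVec (fun _ => t) (fun _ => 1)).det : ℤ) : ℂ)
      = t * y 0 ^ 2 := by
    intro t
    rw [← minor_of_sol _ hsk hd1 y hT' t, ← eq_intCast (Int.castRingHom ℂ), RingHom.map_det]
    congr 1
    ext i j
    simp [Tm, vecMulVec_apply]
  have hyn : ‖y 0‖ = k := by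
    simp only [hy, Fin.castSucc_zero, hy0, norm_mul, norm_neg, norm_div, hγn, hcn, hPn, t1, hgn,
      Complex.norm_natCast]
    field_simp
  have h1 := hall 1
  have h2 := congrArg norm h1
  rw [Complex.norm_intCast, ← Int.cast_abs, abs_of_nonneg (det_nonneg_skew _ (Tm_skew hn m) _),
    Int.cast_one, one_mul, norm_pow, hyn] at h2
  have h4 : (Tm (m + 2) m + vecMulVec (fun _ => 1) (fun _ => 1)).det = (k : ℤ) ^ 2 := by
    exact_mod_cast h2
  rw [h4, Int.cast_one, one_mul] at h1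
  have h5 := hall t
  rw [← h1] at h5
  rw [mul_comm]
  exact_mod_cast h5

end Pool.Agent.H24.Leg
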