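import Pool.Agent.H24.Leg4

set_option autoImplicit false

open Finset Matrix

namespace Pool.Agent.H24.Leg

lemma det_four {m : ℕ} (A : Matrix (Fin m) (Fin m) ℂ) (hA : A.det = 1) (c u v : Fin m → ℂ)
    (hu : A *ᵥ u = fun _ => 1) (hv : A *ᵥ v = c) (x y z w : ℂ) :
    (of fun j k => x + A j k + c j * y + c k * z + c j * c k * w).det
      = (1 + x * ∑ i, u i + z * (c ⬝ᵥ u)) * (1 + y * ∑ i, v i + w * (c ⬝ᵥ v))
        - (x * ∑ i, v i + z * (c ⬝ᵥ v)) * (y * ∑ i, u i + w * (c ⬝ᵥ u)) := by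
  let U : Matrix (Fin m) (Fin 2) ℂ := of fun j k => ![u j, v j] k
  let V : Matrix (Fin 2) (Fin m) ℂ := of fun k b => ![x + z * c b, y + w * c b] k
  have e : (of fun j k => x + A j k + c j * y + c k * z + c j * c k * w) = A * (1 + U * V) := by
    rw [Matrix.mul_add, Matrix.mul_one, ← Matrix.mul_assoc]
    ext j k
    have h1 := congrFun hu j
    have h2 := congrFun hv j
    simp only [mulVec, dotProduct] at h1 h2
    simp [U, V, mul_apply, Fin.sum_univ_two, h1, h2]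
    ring
  rw [e, det_mul, hA, one_mul, det_one_add_mul_comm, det_fin_two]
  simp [U, V, mul_apply, add_mul, Finset.sum_add_distrib, dotProduct, Finset.mul_sum, mul_assoc,
    add_assoc]

lemma skew_dot {m : ℕ} (T : Matrix (Fin m) (Fin m) ℂ) (hT : Tᵀ = -T) (a b : Fin m → ℂ) :
    (T *ᵥ a) ⬝ᵥ b = -(a ⬝ᵥ T *ᵥ b) := by
  rw [dotProduct_comm, dotProduct_mulVec, ← mulVec_transpose, hT, neg_mulVec, neg_dotProduct,
    dotProduct_comm]

variable {n : ℕ} [hp : Fact (Nat.Prime (2 * n + 1))]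

lemma Tc_skew (hn : Odd n) (m : ℕ) :
    ((Tm n m).map (Int.castRingHom ℂ))ᵀ = -(Tm n m).map (Int.castRingHom ℂ) := by
  rw [← transpose_map, Tm_skew hn]
  ext; simp

lemma Tc_col (m : ℕ) : (Tm n (m + 1)).map (Int.castRingHom ℂ) *ᵥ Pi.single 0 1
    = fun j : Fin (m + 1) => (legendreSym (2 * n + 1) ((j : ℕ) : ℤ) : ℂ) := by
  rw [mulVec_single_one]; ext j; simp [Tm]

omit hp in
theorem four_minor {m : ℕ} [Fact (Nat.Prime (2 * (m + 2) + 1))] (hm : Odd m) (x y z w : ℂ) :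
    (of fun j k : Fin (m + 1) => x + (Tm (m + 2) (m + 1) j k : ℂ)
      + (legendreSym (2 * (m + 2) + 1) ((j : ℕ) : ℤ) : ℂ) * y
      + (legendreSym (2 * (m + 2) + 1) ((k : ℕ) : ℤ) : ℂ) * z
      + (legendreSym (2 * (m + 2) + 1) ((j : ℕ) : ℤ) : ℂ)
        * (legendreSym (2 * (m + 2) + 1) ((k : ℕ) : ℤ) : ℂ) * w).det
      = w * x + (1 + y) * (1 - z) := by
  have hn : Odd (m + 2) := by obtain ⟨k, rfl⟩ := hm; exact ⟨k + 1, by ring⟩
  set T := (Tm (m + 2) (m + 1)).map (Int.castRingHom ℂ) with hT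
  have hd : T.det = 1 := by
    rw [hT, ← RingHom.mapMatrix_apply, ← RingHom.map_det,
      det_minor (m := m + 1) (hm.add_one) (by omega), map_one]
  have hu : T *ᵥ (T⁻¹ *ᵥ fun _ => 1) = fun _ => 1 := by
    rw [mulVec_mulVec, mul_nonsing_inv _ (by rw [hd]; exact isUnit_one), one_mulVec]
  have hv := Tc_col (n := m + 2) m
  rw [← hT] at hv
  have h := det_four T hd _ _ _ hu hv x y z w
  generalize (T⁻¹ *ᵥ fun _ => 1) = u at hu h
  have s1 : ∑ i, u i = 0 := by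
    have := skew_dot T (Tc_skew hn _) u u
    rw [dotProduct_comm u, hu] at this
    simp only [dotProduct, one_mul] at this
    linear_combination this / 2
  have s2 := skew_dot T (Tc_skew hn _) (Pi.single 0 1) u
  rw [hv, hu] at s2
  rw [s1, s2] at h
  refine Eq.trans ?_ (h.trans ?_)
  · rfl
  · simp; ring

omit hp in
theorem four_full {m : ℕ} [Fact (Nat.Prime (2 * (m + 1) + 1))] (hm : Even m) (x y z w : ℂ) :
    (of fun j k : Fin (m + 1) => x + (Tm (m + 1) (m + 1) j k : ℂ)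
      + (legendreSym (2 * (m + 1) + 1) ((j : ℕ) : ℤ) : ℂ) * y
      + (legendreSym (2 * (m + 1) + 1) ((k : ℕ) : ℤ) : ℂ) * z
      + (legendreSym (2 * (m + 1) + 1) ((j : ℕ) : ℤ) : ℂ)
        * (legendreSym (2 * (m + 1) + 1) ((k : ℕ) : ℤ) : ℂ) * w).det = x := by
  rcases Nat.eq_zero_or_pos m with rfl | hm0
  · simp [Tm]
  have hn : Odd (m + 1) := hm.add_one
  set T := (Tm (m + 1) (m + 1)).map (Int.castRingHom ℂ) with hT
  have hd : (T + vecMulVec (fun _ => 1) (fun _ => 1)).det = 1 := by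
    have h := congrArg (Int.castRingHom ℂ) (det_ones hn (by omega) 1)
    rw [RingHom.map_det] at h
    simp only [Nat.cast_one, one_pow, map_one] at h
    refine Eq.trans ?_ h; congr 1; ext; simp [hT, vecMulVec_apply]
  obtain ⟨v, hv0, hv⟩ := exists_mulVec_eq_zero_iff.2 (det_skew hn T (Tc_skew hn _))
  have hA : ∀ a : Fin (m + 1) → ℂ, (T + vecMulVec (fun _ => 1) (fun _ => 1)) *ᵥ a
      = T *ᵥ a + fun _ => ∑ i, a i := by
    intro a; rw [add_mulVec, vecMulVec_mulVec]; ext; simp [dotProduct]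
  have hs : ∑ i, v i ≠ 0 := by
    intro hs
    have := exists_mulVec_eq_zero_iff.1 ⟨v, hv0, by rw [hA, hv, hs]; ext; simp⟩
    rw [hd] at this; exact one_ne_zero this
  set u : Fin (m + 1) → ℂ := (∑ i, v i)⁻¹ • v with hu
  have hTu : T *ᵥ u = 0 := by rw [hu, mulVec_smul, hv, smul_zero]
  have su : ∑ i, u i = 1 := by
    simp only [hu, Pi.smul_apply, smul_eq_mul, ← Finset.mul_sum]
    exact inv_mul_cancel₀ hs
  have hc := Tc_col (n := m + 1) m
  rw [← hT] at hc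
  have s0 : ∑ i, ((Pi.single 0 1 : Fin (m + 1) → ℂ) - u) i = 0 := by
    simp [Finset.sum_sub_distrib, su]
  have h := det_four _ hd
    (fun j : Fin (m + 1) => (legendreSym (2 * (m + 1) + 1) ((j : ℕ) : ℤ) : ℂ)) u (Pi.single 0 1 - u) (by rw [hA, hTu, su]; ext; simp)
    (by rw [hA, mulVec_sub, hTu, hc, s0]; ext; simp) (x - 1) y z w
  have s2 := skew_dot T (Tc_skew hn _) (Pi.single 0 1) u
  rw [hc, hTu, dotProduct_zero, neg_zero] at s2
  rw [su, s0, dotProduct_sub, s2] at h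
  refine Eq.trans ?_ (h.trans ?_)
  · congr 1; ext j k; simp [hT, vecMulVec_apply]
  · simp

end Pool.Agent.H24.Leg
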