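import Mathlib

set_option autoImplicit false

open scoped RealInnerProductSpace

namespace Pool.Agent.H24.NearConvex

/-- A set is nearly convex if it lies between a convex set and the closure of that set. -/
def NearlyConvex {n : ℕ} (C : Set (EuclideanSpace ℝ (Fin n))) : Prop :=
  ∃ D : Set (EuclideanSpace ℝ (Fin n)), Convex ℝ D ∧ D ⊆ C ∧ C ⊆ closure D

/-- Domain of a set-valued map. -/
def dom {E : Type} (A : E → Set E) : Set E := {x | (A x).Nonempty}

/-- Range of a set-valued map. -/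
def ran {E : Type} (A : E → Set E) : Set E := ⋃ x, A x

/-- Subdifferential of an extended-real function. -/
def subdiff {n : ℕ} (f : EuclideanSpace ℝ (Fin n) → EReal) (x : EuclideanSpace ℝ (Fin n)) :
    Set (EuclideanSpace ℝ (Fin n)) :=
  {u | ∀ y, f x + ((⟪u, y - x⟫ : ℝ) : EReal) ≤ f y}

/-- Proper, lower semicontinuous, convex functions with values in the interval from minus infinity
(excluded) to plus infinity (included). -/
def ProperLscConvex {n : ℕ} (f : EuclideanSpace ℝ (Fin n) → EReal) : Prop :=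
  (∀ x, f x ≠ ⊥) ∧ (∃ x, f x ≠ ⊤) ∧ LowerSemicontinuous f ∧
    Convex ℝ {p : EuclideanSpace ℝ (Fin n) × ℝ | f p.1 ≤ (p.2 : EReal)}

/-- Monotone set-valued maps. -/
def IsMonotone {n : ℕ} (A : EuclideanSpace ℝ (Fin n) → Set (EuclideanSpace ℝ (Fin n))) : Prop :=
  ∀ x y u v, u ∈ A x → v ∈ A y → 0 ≤ ⟪u - v, x - y⟫

/-- Maximally monotone set-valued maps. -/
def MaxMonotone {n : ℕ} (A : EuclideanSpace ℝ (Fin n) → Set (EuclideanSpace ℝ (Fin n))) : Prop :=
  IsMonotone A ∧ ∀ B, IsMonotone B → (∀ x, A x ⊆ B x) → B = A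

def bad (n : ℕ) : Set (EuclideanSpace ℝ (Fin (n + 2))) :=
  {x | 0 < x 0 ∨ (x 0 = 0 ∧ Irrational (x 1))}

lemma bad_ne (n : ℕ) : (bad n).Nonempty :=
  ⟨EuclideanSpace.single 0 1, Or.inl (by simp)⟩

lemma bad_nc (n : ℕ) : NearlyConvex (bad n) := by
  refine ⟨{x | 0 < x 0}, ?_, fun x hx => Or.inl hx, ?_⟩
  · intro x hx y hy a b ha hb hab
    simp only [Set.mem_ofPred_eq, PiLp.add_apply, PiLp.smul_apply, smul_eq_mul] at *
    rcases ha.eq_or_lt with rfl | ha'
    · simp at hab; subst hab; simpa using hy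
    · positivity
  · rintro x (hx | ⟨hx, _⟩)
    · exact subset_closure hx
    · rw [Metric.mem_closure_iff]
      intro ε hε
      refine ⟨x + EuclideanSpace.single 0 (ε / 2), by simp [hx, hε], ?_⟩
      rw [dist_comm, dist_eq_norm]
      simp [abs_of_pos hε, hε]

lemma not_proj (n : ℕ) (G : Set (EuclideanSpace ℝ (Fin (n + 2)) × EuclideanSpace ℝ (Fin (n + 2))))
    (hG : IsClosed G) : Prod.fst '' G ≠ bad n := by
  intro h
  let K : ℕ → Set ℝ := fun k => {t | ∃ u ∈ Metric.closedBall (0 : EuclideanSpace ℝ (Fin (n + 2))) k,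
    (EuclideanSpace.single 1 t, u) ∈ G}
  have hc : Continuous fun t : ℝ => (EuclideanSpace.single 1 t : EuclideanSpace ℝ (Fin (n + 2))) := by
    have : (fun t : ℝ => (EuclideanSpace.single 1 t : EuclideanSpace ℝ (Fin (n + 2)))) =
        fun t => t • EuclideanSpace.single 1 (1 : ℝ) := by
      funext t; ext i; by_cases hi : i = 1 <;> simp [hi]
    rw [this]; fun_prop
  have hK : ∀ k, IsClosed (K k) := by
    intro k
    have : CompactSpace (Metric.closedBall (0 : EuclideanSpace ℝ (Fin (n + 2))) k) :=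
      isCompact_iff_compactSpace.mp (isCompact_closedBall _ _)
    have h1 : IsClosed {p : ℝ × Metric.closedBall (0 : EuclideanSpace ℝ (Fin (n + 2))) k |
        (EuclideanSpace.single 1 p.1, p.2.1) ∈ G} :=
      hG.preimage ((hc.comp continuous_fst).prodMk (continuous_subtype_val.comp continuous_snd))
    have h2 := isClosedMap_fst_of_compactSpace _ h1
    convert h2 using 1
    ext t
    constructor
    · rintro ⟨u, hu, hu'⟩
      exact ⟨(t, ⟨u, hu⟩), hu', rfl⟩
    · rintro ⟨⟨s, u⟩, hu, rfl⟩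
      exact ⟨u.1, u.2, hu⟩
  have hKi : ∀ k, ∀ t ∈ K k, Irrational t := by
    rintro k t ⟨u, _, hu⟩
    have : (EuclideanSpace.single 1 t : EuclideanSpace ℝ (Fin (n + 2))) ∈ bad n := h ▸ ⟨_, hu, rfl⟩
    simpa [bad] using this
  let F : ℕ ⊕ ℚ → Set ℝ := Sum.elim K (fun q => {(q : ℝ)})
  have hF : ∀ i, IsClosed (F i) := by
    rintro (k | q)
    · exact hK k
    · exact isClosed_singleton
  have hU : ⋃ i, F i = Set.univ := by
    rw [Set.eq_univ_iff_forall]
    intro t
    by_cases ht : Irrational t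
    · have : (EuclideanSpace.single 1 t : EuclideanSpace ℝ (Fin (n + 2))) ∈ bad n := by
        simpa [bad] using ht
      rw [← h] at this
      obtain ⟨⟨x, u⟩, hu, e⟩ := this
      obtain ⟨k, hk⟩ := exists_nat_ge ‖u‖
      refine Set.mem_iUnion.mpr ⟨Sum.inl k, u, by simpa using hk, ?_⟩
      simp only at e
      rw [← e]; exact hu
    · obtain ⟨q, rfl⟩ := not_not.mp ht
      exact Set.mem_iUnion.mpr ⟨Sum.inr q, rfl⟩
  obtain ⟨i, t, ht⟩ := nonempty_interior_of_iUnion_of_closed hF hU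
  rcases i with k | q
  · obtain ⟨q, hq⟩ := Rat.denseRange_cast.exists_mem_open isOpen_interior ⟨t, ht⟩
    exact hKi k _ (interior_subset hq) ⟨q, rfl⟩
  · simp [F] at ht

lemma not_dom_ran (n : ℕ) (A : EuclideanSpace ℝ (Fin (n + 2)) → Set (EuclideanSpace ℝ (Fin (n + 2))))
    (hA : IsClosed {p : EuclideanSpace ℝ (Fin (n + 2)) × EuclideanSpace ℝ (Fin (n + 2)) |
      p.2 ∈ A p.1}) : bad n ≠ dom A ∧ bad n ≠ ran A := by
  constructor
  · intro h
    apply not_proj n _ hA
    rw [h]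
    ext x
    constructor
    · rintro ⟨p, hp, rfl⟩; exact ⟨_, hp⟩
    · rintro ⟨u, hu⟩; exact ⟨(x, u), hu, rfl⟩
  · intro h
    apply not_proj n _ (hA.preimage continuous_swap)
    rw [h]
    ext u
    constructor
    · rintro ⟨p, hp, rfl⟩; exact Set.mem_iUnion.mpr ⟨_, hp⟩
    · intro hu
      obtain ⟨x, hx⟩ := Set.mem_iUnion.mp hu
      exact ⟨(u, x), hx, rfl⟩

lemma closed_subdiff {n : ℕ} (f : EuclideanSpace ℝ (Fin n) → EReal) (hf : ProperLscConvex f) :
    IsClosed {p : EuclideanSpace ℝ (Fin n) × EuclideanSpace ℝ (Fin n) | p.2 ∈ subdiff f p.1} := by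
  obtain ⟨hb, -, hl, -⟩ := hf
  have e0 : {p : EuclideanSpace ℝ (Fin n) × EuclideanSpace ℝ (Fin n) | p.2 ∈ subdiff f p.1} =
      ⋂ y, {p | f p.1 + ((⟪p.2, y - p.1⟫ : ℝ) : EReal) ≤ f y} := by
    ext p; simp [subdiff]
  rw [e0]
  refine isClosed_iInter fun y => ?_
  by_cases ht : f y = ⊤
  · simp [ht]
  obtain ⟨r, hr⟩ : ∃ r : ℝ, f y = r := ⟨(f y).toReal, (EReal.coe_toReal ht (hb y)).symm⟩
  have h1 := hl.isClosed_epigraph.preimage
    (f := fun p : EuclideanSpace ℝ (Fin n) × EuclideanSpace ℝ (Fin n) =>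
      (p.1, ((r - ⟪p.2, y - p.1⟫ : ℝ) : EReal)))
    (continuous_fst.prodMk (continuous_coe_real_ereal.comp (by fun_prop)))
  convert h1 using 1
  ext p
  simp only [Set.mem_ofPred_eq, Set.mem_preimage, hr, EReal.coe_sub]
  exact (EReal.le_sub_iff_add_le (Or.inl (EReal.coe_ne_bot _)) (Or.inl (EReal.coe_ne_top _))).symm

lemma closed_max {n : ℕ} (A : EuclideanSpace ℝ (Fin n) → Set (EuclideanSpace ℝ (Fin n)))
    (hA : MaxMonotone A) :
    IsClosed {p : EuclideanSpace ℝ (Fin n) × EuclideanSpace ℝ (Fin n) | p.2 ∈ A p.1} := by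
  set G := {p : EuclideanSpace ℝ (Fin n) × EuclideanSpace ℝ (Fin n) | p.2 ∈ A p.1} with hG
  have hm : IsMonotone (fun x => {u | (x, u) ∈ closure G}) := by
    intro x y u v hu hv
    have h1 : ((x, u), (y, v)) ∈ closure (G ×ˢ G) := by
      rw [closure_prod_eq]; exact ⟨hu, hv⟩
    have h2 : IsClosed {p : (EuclideanSpace ℝ (Fin n) × EuclideanSpace ℝ (Fin n)) ×
        (EuclideanSpace ℝ (Fin n) × EuclideanSpace ℝ (Fin n)) |
        0 ≤ ⟪p.1.2 - p.2.2, p.1.1 - p.2.1⟫} := isClosed_le continuous_const (by fun_prop)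
    exact closure_minimal (fun p hp => hA.1 _ _ _ _ hp.1 hp.2) h2 h1
  have e := hA.2 _ hm (fun x u hu => subset_closure hu)
  rw [← closure_subset_iff_isClosed]
  intro p hp
  show p.2 ∈ A p.1
  rw [← e]; exact hp

end Pool.Agent.H24.NearConvex
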