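import Mathlib

set_option autoImplicit false
open Finset

namespace Pool.Agent.H24.Nev

def Hyp (a : ℕ → ℝ) (M : ℝ) : Prop :=
  (∀ j, 0 ≤ a j) ∧ ∀ k j : ℕ, a j * ((k + j).choose j : ℝ) ≤ M ^ (k + 1)

noncomputable def u (k J : ℕ) : ℝ := ((k : ℝ) + J) / (((k : ℝ) - 1) * ((k + J).choose J : ℝ))

lemma cpos (k J : ℕ) : (0 : ℝ) < ((k + J).choose J : ℝ) := by
  exact_mod_cast Nat.choose_pos (by omega)

lemma crec (n k : ℕ) : ((n + (k + 1)).choose (k + 1) : ℝ) =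
    ((n : ℝ) + k + 1) * ((n + k).choose k : ℝ) / ((k : ℝ) + 1) := by
  have h := Nat.add_one_mul_choose_eq (n + k) k
  have h' : (((n + k + 1 : ℕ) : ℝ)) * ((n + k).choose k : ℝ) =
      ((n + k + 1).choose (k + 1) : ℝ) * ((k + 1 : ℕ) : ℝ) := by exact_mod_cast h
  rw [eq_div_iff (by positivity), ← add_assoc]
  push_cast at h'
  linarith

lemma c1 (n : ℕ) : ((n + 1).choose 1 : ℝ) = n + 1 := by simp
lemma c2 (n : ℕ) : ((n + 2).choose 2 : ℝ) = ((n : ℝ) + 2) * (n + 1) / 2 := by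
  rw [show n + 2 = n + (1 + 1) from rfl, crec, c1]; push_cast; ring
lemma c3 (n : ℕ) : ((n + 3).choose 3 : ℝ) = ((n : ℝ) + 3) * (n + 2) * (n + 1) / 6 := by
  rw [show n + 3 = n + (2 + 1) from rfl, crec, c2]; push_cast; ring
lemma c4 (n : ℕ) : ((n + 4).choose 4 : ℝ) = ((n : ℝ) + 4) * (n + 3) * (n + 2) * (n + 1) / 24 := by
  rw [show n + 4 = n + (3 + 1) from rfl, crec, c3]; push_cast; ring

lemma u_step (k J : ℕ) (hk : 2 ≤ k) : u k J - u k (J + 1) = 1 / ((k + J).choose J : ℝ) := by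
  have hk' : (2 : ℝ) ≤ k := by exact_mod_cast hk
  have h1 : (k : ℝ) - 1 ≠ 0 := by linarith
  have h2 := (cpos k J).ne'
  unfold u
  rw [crec]
  push_cast
  have h3 : (k : ℝ) + J + 1 ≠ 0 := by positivity
  field_simp
  ring

lemma u_nonneg (k J : ℕ) (hk : 2 ≤ k) : 0 ≤ u k J := by
  have hk' : (2 : ℝ) ≤ k := by exact_mod_cast hk
  have := cpos k J
  unfold u
  apply div_nonneg (by positivity) (mul_nonneg (by linarith) this.le)

variable {a : ℕ → ℝ} {M : ℝ}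

lemma one (H : Hyp a M) (k j : ℕ) : a j ≤ M ^ (k + 1) / ((k + j).choose j : ℝ) := by
  rw [le_div_iff₀ (cpos k j)]; exact H.2 k j

lemma block (H : Hyp a M) (k J N : ℕ) (hk : 2 ≤ k) :
    ∑ j ∈ Ico J (J + N), a j ≤ M ^ (k + 1) * (u k J - u k (J + N)) := by
  induction N with
  | zero => simp
  | succ N ih =>
    rw [← add_assoc, sum_Ico_succ_top (by omega)]
    have h1 := one H k (J + N)
    have h2 := u_step k (J + N) hk
    have : M ^ (k + 1) / ((k + (J + N)).choose (J + N) : ℝ) =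
        M ^ (k + 1) * (u k (J + N) - u k (J + N + 1)) := by rw [h2]; ring
    rw [this] at h1
    linarith

lemma tail (H : Hyp a M) (hM : 0 ≤ M) (k J N : ℕ) (hk : 2 ≤ k) :
    ∑ j ∈ Ico J N, a j ≤ M ^ (k + 1) * u k J := by
  have hp : 0 ≤ M ^ (k + 1) := by positivity
  rcases le_total N J with h | h
  · rw [Ico_eq_empty_of_le h, sum_empty]; exact mul_nonneg hp (u_nonneg k J hk)
  · obtain ⟨d, rfl⟩ := Nat.exists_eq_add_of_le h
    have := block H k J d hk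
    have := mul_nonneg hp (u_nonneg k (J + d) hk)
    linarith

lemma split (H : Hyp a M) (J J' N : ℕ) (h : J ≤ J') :
    ∑ j ∈ Ico J N, a j ≤ ∑ j ∈ Ico J J', a j + ∑ j ∈ Ico J' N, a j := by
  rcases le_total N J' with h' | h'
  · have h1 : ∑ j ∈ Ico J N, a j ≤ ∑ j ∈ Ico J J', a j :=
      sum_le_sum_of_subset_of_nonneg (Ico_subset_Ico_right h') (fun i _ _ => H.1 i)
    have h2 : 0 ≤ ∑ j ∈ Ico J' N, a j := sum_nonneg (fun i _ => H.1 i)
    linarith
  · rw [sum_Ico_consecutive _ h h']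

noncomputable def FF (M : ℝ) (k1 k2 k3 k4 k5 k6 : ℕ) : ℝ :=
  M ^ k1 / ((k1 + 1).choose 1 : ℝ) + M ^ k2 / ((k2 + 2).choose 2 : ℝ) +
    M ^ k3 / ((k3 + 3).choose 3 : ℝ) + M ^ k4 / ((k4 + 4).choose 4 : ℝ) +
    M ^ k5 / ((k5 + 5).choose 5 : ℝ) + M ^ k6 * u k6 6

lemma six (H : Hyp a M) (hM : 0 ≤ M) (k1 k2 k3 k4 k5 k6 N : ℕ) (hk : 2 ≤ k6) :
    ∑ j ∈ Ico 1 N, a j ≤ M * FF M k1 k2 k3 k4 k5 k6 := by
  have h0 := split H 1 6 N (by norm_num)
  have h6 := tail H hM k6 6 N hk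
  have e : ∑ j ∈ Ico 1 6, a j = a 1 + a 2 + a 3 + a 4 + a 5 := by
    simp [sum_Ico_succ_top]
  have h1 := one H k1 1
  have h2 := one H k2 2
  have h3 := one H k3 3
  have h4 := one H k4 4
  have h5 := one H k5 5
  have : M * FF M k1 k2 k3 k4 k5 k6 = M ^ (k1 + 1) / ((k1 + 1).choose 1 : ℝ) +
      M ^ (k2 + 1) / ((k2 + 2).choose 2 : ℝ) + M ^ (k3 + 1) / ((k3 + 3).choose 3 : ℝ) +
      M ^ (k4 + 1) / ((k4 + 4).choose 4 : ℝ) + M ^ (k5 + 1) / ((k5 + 5).choose 5 : ℝ) +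
      M ^ (k6 + 1) * u k6 6 := by unfold FF; ring
  linarith

lemma chord (p q s : ℝ) (hp : 0 ≤ p) (hq : 0 ≤ q) (hs : 0 ≤ s) (hs1 : s ≤ 1) (k : ℕ) :
    (s * p + (1 - s) * q) ^ k ≤ s * p ^ k + (1 - s) * q ^ k := by
  have := (convexOn_pow (𝕜 := ℝ) k).2 (Set.mem_Ici.mpr hp) (Set.mem_Ici.mpr hq) hs
    (sub_nonneg.mpr hs1) (by ring)
  simpa using this

lemma interval (p q e : ℝ) (hp : 0 ≤ p) (hpq : p < q) (k1 k2 k3 k4 k5 k6 : ℕ) (hk : 2 ≤ k6)
    (h1 : FF p k1 k2 k3 k4 k5 k6 ≤ e * (p - 1)) (h2 : FF q k1 k2 k3 k4 k5 k6 ≤ e * (q - 1))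
    (hM1 : p ≤ M) (hM2 : M ≤ q) : FF M k1 k2 k3 k4 k5 k6 ≤ e * (M - 1) := by
  obtain ⟨s, hs, hs1, rfl⟩ : ∃ s : ℝ, 0 ≤ s ∧ s ≤ 1 ∧ M = s * p + (1 - s) * q := by
    refine ⟨(q - M) / (q - p), div_nonneg (by linarith) (by linarith), ?_, ?_⟩
    · rw [div_le_one (by linarith)]; linarith
    · have : q - p ≠ 0 := by linarith
      field_simp; ring
  have hq : 0 ≤ q := by linarith
  have key : FF (s * p + (1 - s) * q) k1 k2 k3 k4 k5 k6 ≤
      s * FF p k1 k2 k3 k4 k5 k6 + (1 - s) * FF q k1 k2 k3 k4 k5 k6 := by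
    have g : ∀ (k : ℕ) (c : ℝ), 0 < c →
        (s * p + (1 - s) * q) ^ k / c ≤ s * (p ^ k / c) + (1 - s) * (q ^ k / c) := by
      intro k c hc
      have := div_le_div_of_nonneg_right (chord p q s hp hq hs hs1 k) hc.le
      calc _ ≤ _ := this
        _ = _ := by ring
    have g6 := mul_le_mul_of_nonneg_right (chord p q s hp hq hs hs1 k6) (u_nonneg k6 6 hk)
    have g1 := g k1 _ (cpos k1 1)
    have g2 := g k2 _ (cpos k2 2)
    have g3 := g k3 _ (cpos k3 3)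
    have g4 := g k4 _ (cpos k4 4)
    have g5 := g k5 _ (cpos k5 5)
    unfold FF
    nlinarith
  have a1 := mul_le_mul_of_nonneg_left h1 hs
  have a2 := mul_le_mul_of_nonneg_left h2 (sub_nonneg.mpr hs1)
  nlinarith

lemma regB (hM1 : 11 / 10 ≤ M) (hM2 : M ≤ 4) : ∃ k1 k2 k3 k4 k5 k6 : ℕ, 2 ≤ k6 ∧
    FF M k1 k2 k3 k4 k5 k6 ≤ 27182818 / 10000000 * (M - 1) := by
  rcases le_total M (113 / 100) with g0 | g0
  · exact ⟨8, 17, 25, 33, 41, 50, by norm_num, interval (11 / 10) (113 / 100) _ (by norm_num) (by norm_num) 8 17 25 33 41 50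
      (by norm_num) (by norm_num [FF, u, Nat.choose]) (by norm_num [FF, u, Nat.choose]) hM1 g0⟩
  rcases le_total M (119 / 100) with g1 | g1
  · exact ⟨6, 12, 17, 23, 28, 34, by norm_num, interval (113 / 100) (119 / 100) _ (by norm_num) (by norm_num) 6 12 17 23 28 34
      (by norm_num) (by norm_num [FF, u, Nat.choose]) (by norm_num [FF, u, Nat.choose]) g0 g1⟩
  rcases le_total M (129 / 100) with g2 | g2
  · exact ⟨4, 8, 11, 15, 18, 23, by norm_num, interval (119 / 100) (129 / 100) _ (by norm_num) (by norm_num) 4 8 11 15 18 23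
      (by norm_num) (by norm_num [FF, u, Nat.choose]) (by norm_num [FF, u, Nat.choose]) g1 g2⟩
  rcases le_total M (281 / 200) with g3 | g3
  · exact ⟨2, 5, 8, 11, 13, 17, by norm_num, interval (129 / 100) (281 / 200) _ (by norm_num) (by norm_num) 2 5 8 11 13 17
      (by norm_num) (by norm_num [FF, u, Nat.choose]) (by norm_num [FF, u, Nat.choose]) g2 g3⟩
  rcases le_total M (13 / 8) with g4 | g4
  · exact ⟨2, 3, 5, 7, 9, 11, by norm_num, interval (281 / 200) (13 / 8) _ (by norm_num) (by norm_num) 2 3 5 7 9 11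
      (by norm_num) (by norm_num [FF, u, Nat.choose]) (by norm_num [FF, u, Nat.choose]) g3 g4⟩
  rcases le_total M (87 / 40) with g5 | g5
  · exact ⟨1, 2, 3, 4, 5, 7, by norm_num, interval (13 / 8) (87 / 40) _ (by norm_num) (by norm_num) 1 2 3 4 5 7
      (by norm_num) (by norm_num [FF, u, Nat.choose]) (by norm_num [FF, u, Nat.choose]) g4 g5⟩
  rcases le_total M (139 / 40) with g6 | g6
  · exact ⟨0, 1, 1, 2, 2, 4, by norm_num, interval (87 / 40) (139 / 40) _ (by norm_num) (by norm_num) 0 1 1 2 2 4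
      (by norm_num) (by norm_num [FF, u, Nat.choose]) (by norm_num [FF, u, Nat.choose]) g5 g6⟩
  exact ⟨0, 0, 1, 1, 1, 3, by norm_num, interval (139 / 40) (4) _ (by norm_num) (by norm_num) 0 0 1 1 1 3
      (by norm_num) (by norm_num [FF, u, Nat.choose]) (by norm_num [FF, u, Nat.choose]) g6 hM2⟩

lemma regC (H : Hyp a M) (hM : 4 ≤ M) (N : ℕ) :
    ∑ j ∈ Ico 1 N, a j ≤ M * (27182818 / 10000000 * (M - 1)) := by
  have hM0 : 0 ≤ M := by linarith
  obtain ⟨J1, hx1, hx2⟩ : ∃ J : ℕ, 7 / 5 * M ≤ (J : ℝ) + 1 ∧ (J : ℝ) + 1 ≤ 7 / 5 * M + 1 :=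
    ⟨⌊7 / 5 * M⌋₊, (Nat.lt_floor_add_one _).le, by
      linarith [Nat.floor_le (a := 7 / 5 * M) (by positivity)]⟩
  obtain ⟨J2, hy1, hy2⟩ : ∃ J : ℕ, 7 / 2 * M ≤ (J : ℝ) + 1 ∧ (J : ℝ) + 1 ≤ 7 / 2 * M + 1 :=
    ⟨⌊7 / 2 * M⌋₊, (Nat.lt_floor_add_one _).le, by
      linarith [Nat.floor_le (a := 7 / 2 * M) (by positivity)]⟩
  have h1 : 1 ≤ J1 := by
    have : (1 : ℝ) ≤ J1 := by linarith
    exact_mod_cast this
  have h12 : J1 ≤ J2 := by
    have : (J1 : ℝ) ≤ J2 := by linarith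
    exact_mod_cast this
  have s1 := split H 1 J1 N h1
  have s2 := split H J1 J2 N h12
  have b1 : ∑ j ∈ Ico 1 J1, a j ≤ ((J1 : ℝ) - 1) * M := by
    have : ∀ j ∈ Ico 1 J1, a j ≤ M := fun j _ => by simpa using H.2 0 j
    have h := sum_le_card_nsmul _ _ _ this
    rw [Nat.card_Ico, nsmul_eq_mul, Nat.cast_sub h1] at h
    simpa using h
  obtain ⟨d, hd⟩ := Nat.exists_eq_add_of_le h12
  have b2 := block H 2 J1 d le_rfl
  rw [← hd] at b2
  have b3 := tail H hM0 4 J2 N (by norm_num)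
  have u2 : ∀ J : ℕ, u 2 J = 2 / ((J : ℝ) + 1) := by
    intro J
    unfold u
    rw [add_comm 2 J, Nat.choose_symm_add, c2]
    push_cast
    field_simp
    ring
  have u4 : u 4 J2 = 8 / (((J2 : ℝ) + 1) * (J2 + 2) * (J2 + 3)) := by
    unfold u
    rw [add_comm 4 J2, Nat.choose_symm_add, c4]
    push_cast
    field_simp
    ring
  rw [u2, u2] at b2
  rw [u4] at b3
  set x : ℝ := (J1 : ℝ) + 1 with hx
  set y : ℝ := (J2 : ℝ) + 1 with hy
  have hx0 : 0 < x := by positivity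
  have hy0 : 0 < y := by positivity
  have i1 : x + 2 * M ^ 2 / x ≤ 28286 / 10000 * M + 19 / 100 := by
    have : 2 * M ^ 2 / x ≤ 28286 / 10000 * M + 19 / 100 - x := by
      rw [div_le_iff₀ hx0]
      nlinarith [mul_nonneg (sub_nonneg.mpr hx1) (sub_nonneg.mpr hx2)]
    linarith
  have i2 : 4 / 7 * M - 1633 / 10000 ≤ 2 * M ^ 2 / y := by
    rw [le_div_iff₀ hy0]
    have : (4 / 7 * M - 1633 / 10000) * y ≤ (4 / 7 * M - 1633 / 10000) * (7 / 2 * M + 1) :=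
      mul_le_mul_of_nonneg_left hy2 (by linarith)
    nlinarith
  have i3 : M ^ 4 * (8 / (y * (J2 + 2) * (J2 + 3))) ≤ 64 / 343 * M := by
    have hc : (7 / 2 * M) ^ 3 ≤ y * (J2 + 2) * (J2 + 3) := by
      have e : (7 / 2 * M) ^ 3 = (7 / 2 * M) * (7 / 2 * M) * (7 / 2 * M) := by ring
      rw [e]
      apply mul_le_mul (mul_le_mul hy1 (by linarith) (by positivity) hy0.le) (by linarith)
        (by positivity) (by positivity)
    rw [← mul_div_assoc, div_le_iff₀ (by positivity)]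
    have := mul_le_mul_of_nonneg_left hc (by positivity : 0 ≤ 64 / 343 * M)
    calc M ^ 4 * 8 = 64 / 343 * M * (7 / 2 * M) ^ 3 := by ring
      _ ≤ _ := this
  have tot : x - 2 + 2 * M ^ 2 / x - 2 * M ^ 2 / y + M ^ 4 * (8 / (y * (J2 + 2) * (J2 + 3))) ≤
      27182818 / 10000000 * (M - 1) := by linarith
  have tot' := mul_le_mul_of_nonneg_left tot hM0
  have e1 : ((J1 : ℝ) - 1) * M + M ^ (2 + 1) * (2 / x - 2 / y) +
      M ^ (4 + 1) * (8 / (y * (J2 + 2) * (J2 + 3))) =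
      M * (x - 2 + 2 * M ^ 2 / x - 2 * M ^ 2 / y + M ^ 4 * (8 / (y * (J2 + 2) * (J2 + 3)))) := by
    rw [hx]; ring
  linarith

lemma log_le (d : ℝ) (hd : 0 ≤ d) : Real.log (1 + d) ≤ d - d ^ 2 / 2 + d ^ 3 / 3 := by
  let f : ℝ → ℝ := fun x => x - x ^ 2 / 2 + x ^ 3 / 3 - Real.log (1 + x)
  have hder : ∀ x : ℝ, 0 ≤ x → HasDerivAt f (x ^ 3 / (1 + x)) x := by
    intro x hx
    have h1 : HasDerivAt (fun x : ℝ => Real.log (1 + x)) (1 / (1 + x)) x := by
      have := ((hasDerivAt_id x).const_add 1).log (by simp; linarith)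
      simpa using this
    have h2 : HasDerivAt (fun x : ℝ => x - x ^ 2 / 2 + x ^ 3 / 3) (1 - x + x ^ 2) x := by
      have := (((hasDerivAt_id x).sub ((hasDerivAt_pow 2 x).div_const 2)).add
        ((hasDerivAt_pow 3 x).div_const 3))
      exact this.congr_deriv (by simp)
    have h3 := h2.sub h1
    have : 1 + x ≠ 0 := by linarith
    exact h3.congr_deriv (by field_simp; ring)
  have hmono : MonotoneOn f (Set.Ici 0) := by
    apply monotoneOn_of_deriv_nonneg (convex_Ici 0)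
    · intro x hx; exact (hder x hx).continuousAt.continuousWithinAt
    · intro x hx
      rw [interior_Ici] at hx
      exact (hder x (le_of_lt hx)).differentiableAt.differentiableWithinAt
    · intro x hx
      rw [interior_Ici] at hx
      have hx' : 0 < x := hx
      rw [(hder x hx'.le).deriv]; positivity
  have := hmono (Set.mem_Ici.mpr le_rfl) (Set.mem_Ici.mpr hd) hd
  simp only [f] at this
  simp at this
  linarith

lemma Abound (d : ℝ) (hd : 0 < d) (hd1 : d ≤ 1 / 10) (n : ℕ) (h1 : 1 ≤ (n : ℝ) * d)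
    (h2 : (n : ℝ) * d ≤ 1 + d) :
    (1 + d) ^ n / n ≤ Real.exp 1 * d * (1 - d / 2 + 7 / 12 * d ^ 2) := by
  have hn : (0 : ℝ) < n := by
    by_contra h
    push Not at h
    nlinarith
  set v : ℝ := n * d - 1 with hv
  have hv0 : 0 ≤ v := by linarith
  have hv1 : v ≤ d := by linarith
  set y : ℝ := v - (1 + v) * (d / 2 - d ^ 2 / 3) with hy
  have hw0 : 0 ≤ d / 2 - d ^ 2 / 3 := by nlinarith
  have hw1 : d / 2 - d ^ 2 / 3 ≤ d / 2 := by nlinarith
  have y1 : -(d / 2) ≤ y := by rw [hy]; nlinarith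
  have y2 : y ≤ d / 2 := by
    rw [hy]
    nlinarith [mul_nonneg (sub_nonneg.mpr hv1) (by nlinarith : 0 ≤ 1 - (d / 2 - d ^ 2 / 3)),
      mul_pos hd hd, mul_nonneg (mul_pos hd hd).le (by linarith : 0 ≤ 1 / 10 - d)]
  have e1 : (1 + d) ^ n ≤ Real.exp 1 * Real.exp y := by
    rw [← Real.exp_add, ← Real.exp_log (by positivity : 0 < (1 + d) ^ n), Real.log_pow]
    apply Real.exp_le_exp.mpr
    have := mul_le_mul_of_nonneg_left (log_le d hd.le) hn.le
    have e : (n : ℝ) * (d - d ^ 2 / 2 + d ^ 3 / 3) = 1 + y := by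
      rw [hy, hv]; ring
    linarith
  have e2 : Real.exp y ≤ 1 + y + y ^ 2 := by
    have := Real.abs_exp_sub_one_sub_id_le (x := y) (abs_le.mpr ⟨by linarith, by linarith⟩)
    linarith [le_abs_self (Real.exp y - 1 - y)]
  have e3 : y ^ 2 ≤ d ^ 2 / 4 := by nlinarith
  have e4 : Real.exp y ≤ (1 + v) * (1 - d / 2 + 7 / 12 * d ^ 2) := by
    have : (1 + v) * (1 - d / 2 + 7 / 12 * d ^ 2) = 1 + y + (1 + v) * (d ^ 2 / 4) := by
      rw [hy]; ring
    rw [this]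
    nlinarith [sq_nonneg d]
  rw [div_le_iff₀ hn]
  have e5 := mul_le_mul_of_nonneg_left e4 (Real.exp_pos 1).le
  have e6 : Real.exp 1 * d * (1 - d / 2 + 7 / 12 * d ^ 2) * n =
      Real.exp 1 * ((1 + v) * (1 - d / 2 + 7 / 12 * d ^ 2)) := by rw [hv]; ring
  linarith

lemma three (H : Hyp a M) (hM : 0 ≤ M) (t N : ℕ) (ht : 3 ≤ t) :
    ∑ j ∈ Ico 1 N, a j ≤ M ^ (t + 1) / ((t + 1 : ℕ) : ℝ) +
      (M ^ (t + 1) / ((t + 1 : ℕ) : ℝ)) ^ 2 / 2 +
      16 / 63 * (M ^ (t + 1) / ((t + 1 : ℕ) : ℝ)) ^ 3 := by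
  have h0 := split H 1 3 N (by norm_num)
  have h3 := tail H hM (3 * t + 2) 3 N (by omega)
  have e : ∑ j ∈ Ico 1 3, a j = a 1 + a 2 := by simp [sum_Ico_succ_top]
  have h1 := one H t 1
  have h2 := one H (2 * t + 1) 2
  rw [c1] at h1
  rw [c2] at h2
  have ht' : (3 : ℝ) ≤ t := by exact_mod_cast ht
  set P := M ^ (t + 1) with hP
  have hP0 : 0 ≤ P := by positivity
  have p2 : M ^ (2 * t + 1 + 1) = P ^ 2 := by rw [hP]; ring
  have p3 : M ^ (3 * t + 2 + 1) = P ^ 3 := by rw [hP]; ring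
  rw [p2] at h2
  rw [p3] at h3
  push_cast at h2 ⊢
  have g2 : P ^ 2 / ((2 * (t : ℝ) + 1 + 2) * (2 * t + 1 + 1) / 2) ≤ (P / (t + 1)) ^ 2 / 2 := by
    rw [div_pow, div_div]
    apply div_le_div_of_nonneg_left (by positivity) (by positivity)
    nlinarith
  have g3 : u (3 * t + 2) 3 ≤ 16 / 63 / ((t : ℝ) + 1) ^ 3 := by
    unfold u
    rw [c3]
    push_cast
    rw [div_le_div_iff₀ (mul_pos (by linarith) (by positivity)) (by positivity)]
    have hs : 0 ≤ (t : ℝ) - 3 := by linarith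
    nlinarith [mul_nonneg hs hs, mul_nonneg hs (mul_nonneg hs hs),
      mul_nonneg (mul_nonneg hs hs) (mul_nonneg hs hs)]
  have g4 := mul_le_mul_of_nonneg_left g3 (by positivity : 0 ≤ P ^ 3)
  have g5 : P ^ 3 * (16 / 63 / ((t : ℝ) + 1) ^ 3) = 16 / 63 * (P / (t + 1)) ^ 3 := by
    rw [div_pow]; ring
  linarith

lemma regA (H : Hyp a M) (hM1 : 1 < M) (hM2 : M ≤ 11 / 10) (N : ℕ) :
    ∑ j ∈ Ico 1 N, a j ≤ Real.exp 1 * M * (M - 1) := by
  obtain ⟨d, rfl⟩ : ∃ d, M = 1 + d := ⟨M - 1, by ring⟩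
  have hd : 0 < d := by linarith
  have hd1 : d ≤ 1 / 10 := by linarith
  have hf1 := Nat.lt_floor_add_one (1 / d)
  have hf2 := Nat.floor_le (a := 1 / d) (by positivity)
  set t := ⌊1 / d⌋₊ with ht
  rw [div_lt_iff₀ hd] at hf1
  rw [le_div_iff₀ hd] at hf2
  have ht3 : 3 ≤ t := by
    have : (3 : ℝ) ≤ t := by
      by_contra h
      push Not at h
      nlinarith
    exact_mod_cast this
  have h := three H (by linarith) t N ht3
  have hA := Abound d hd hd1 (t + 1) (by push_cast; linarith) (by push_cast; nlinarith)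
  set A := (1 + d) ^ (t + 1) / ((t + 1 : ℕ) : ℝ) with hAd
  have hA0 : 0 ≤ A := by positivity
  have e1 := Real.exp_one_lt_d9
  have e0 := Real.exp_pos 1
  set e := Real.exp 1
  set k := 1 - d / 2 + 7 / 12 * d ^ 2 with hk
  have k0 : 0 ≤ k := by rw [hk]; nlinarith
  have k1 : k ≤ 1 - 44 / 100 * d := by rw [hk]; nlinarith
  have k2 : k ^ 2 ≤ 1 - 86 / 100 * d := by nlinarith
  have k3 : k ^ 3 ≤ 1 := pow_le_one₀ k0 (by linarith)
  have A2 : A ^ 2 ≤ (e * d * k) ^ 2 := pow_le_pow_left₀ hA0 hA 2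
  have A3 : A ^ 3 ≤ (e * d * k) ^ 3 := pow_le_pow_left₀ hA0 hA 3
  have q1 : e * k ^ 2 ≤ 27183 / 10000 * (1 - 86 / 100 * d) :=
    mul_le_mul (by linarith) k2 (by positivity) (by norm_num)
  have q2 : e ^ 2 * k ^ 3 ≤ 739 / 100 * 1 :=
    mul_le_mul (by nlinarith) k3 (by positivity) (by norm_num)
  have fin : k + d * (e * k ^ 2) / 2 + 16 / 63 * d ^ 2 * (e ^ 2 * k ^ 3) ≤ 1 + d := by
    have r1 := mul_le_mul_of_nonneg_left q1 hd.le
    have r2 := mul_le_mul_of_nonneg_left q2 (sq_nonneg d)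
    rw [hk] at *
    nlinarith [mul_nonneg hd.le (sub_nonneg.mpr hd1)]
  have fin' := mul_le_mul_of_nonneg_left fin (by positivity : 0 ≤ e * d)
  have e2 : e * d * (k + d * (e * k ^ 2) / 2 + 16 / 63 * d ^ 2 * (e ^ 2 * k ^ 3)) =
      e * d * k + (e * d * k) ^ 2 / 2 + 16 / 63 * (e * d * k) ^ 3 := by ring
  have e3 : e * (1 + d) * (1 + d - 1) = e * d * (1 + d) := by ring
  linarith

lemma gt_one (H : Hyp a M) (hM1 : 1 < M) (N : ℕ) :
    ∑ j ∈ Ico 1 N, a j ≤ Real.exp 1 * M * (M - 1) := by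
  have e1 := Real.exp_one_gt_d9
  have hM0 : 0 ≤ M := by linarith
  have fin : M * (27182818 / 10000000 * (M - 1)) ≤ Real.exp 1 * M * (M - 1) := by
    have : 0 ≤ M * (M - 1) := mul_nonneg hM0 (by linarith)
    nlinarith
  rcases le_total M (11 / 10) with h | h
  · exact regA H hM1 h N
  rcases le_total M 4 with h' | h'
  · obtain ⟨k1, k2, k3, k4, k5, k6, hk, hF⟩ := regB h h'
    have := six H hM0 k1 k2 k3 k4 k5 k6 N hk
    have := mul_le_mul_of_nonneg_left hF hM0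
    linarith
  · linarith [regC H h' N]

theorem numeric (H : Hyp a M) (hM1 : 1 ≤ M) (N : ℕ) :
    ∑ j ∈ Ico 1 N, a j ≤ Real.exp 1 * M * (M - 1) := by
  rcases hM1.eq_or_lt with h | h
  · subst h
    have hc : ContinuousWithinAt (fun M : ℝ => Real.exp 1 * M * (M - 1)) (Set.Ioi 1) 1 :=
      Continuous.continuousWithinAt (by fun_prop)
    apply ge_of_tendsto hc.tendsto
    filter_upwards [self_mem_nhdsWithin] with M hM
    have hM' : 1 < M := hM
    apply gt_one _ hM'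
    refine ⟨H.1, fun k j => (H.2 k j).trans ?_⟩
    exact pow_le_pow_left₀ zero_le_one hM'.le _
  · exact gt_one H h N

end Pool.Agent.H24.Nev
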