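import Pool.Agent.H24.Nev1

set_option autoImplicit false
open Finset Topology

namespace Pool.Agent.H24.Nev

variable {A : Type*} [NormedRing A] [NormedAlgebra ℂ A] [CompleteSpace A]

noncomputable def gg (T : A) (w : ℂ) : A := Ring.inverse (1 - w • T)

def UU (T : A) : Set ℂ := {w | IsUnit (1 - w • T)}

lemma UU_open (T : A) : IsOpen (UU T) :=
  Units.isOpen.preimage (f := fun w : ℂ => 1 - w • T) (by fun_prop)

omit [CompleteSpace A] in
lemma gg_comm (T : A) (w : ℂ) : Commute T (gg T w) := by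
  unfold gg
  by_cases h : IsUnit (1 - w • T)
  · obtain ⟨x, hx⟩ := h
    rw [← hx, Ring.inverse_unit]
    apply Commute.units_inv_right
    rw [hx]
    exact (Commute.one_right T).sub_right ((Commute.refl T).smul_right w)
  · rw [Ring.inverse_non_unit _ h]; exact Commute.zero_right T

lemma gg_deriv (T : A) (w : ℂ) (hw : w ∈ UU T) : HasDerivAt (gg T) (T * gg T w ^ 2) w := by
  obtain ⟨x, hx⟩ := hw
  have h1 : HasDerivAt (fun w : ℂ => 1 - w • T) (-T) w := by
    simpa using ((hasDerivAt_id w).smul_const T).const_sub 1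
  have h2 := hasFDerivAt_ringInverse (𝕜 := ℂ) x
  rw [hx] at h2
  have h3 := h2.comp_hasDerivAt w h1
  have hg : gg T w = ↑x⁻¹ := by unfold gg; rw [← hx, Ring.inverse_unit]
  refine h3.congr_deriv ?_
  have hc := (gg_comm T w).eq
  rw [hg] at hc ⊢
  simp [sq, ← mul_assoc, hc]

lemma gg_pow_deriv (T : A) (w : ℂ) (hw : w ∈ UU T) (n : ℕ) :
    HasDerivAt (fun w => gg T w ^ n) ((n : ℂ) • (T * gg T w ^ (n + 1))) w := by
  induction n with
  | zero => simpa using hasDerivAt_const w (1 : A)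
  | succ n ih =>
    have h := ih.mul (gg_deriv T w hw)
    have e : (fun w => gg T w ^ (n + 1)) = (fun w => gg T w ^ n) * gg T := by
      funext w; simp [pow_succ]
    rw [e]
    refine h.congr_deriv ?_
    have hc := ((gg_comm T w).pow_right n).eq
    rw [← mul_assoc (gg T w ^ n), ← hc, smul_mul_assoc, mul_assoc, mul_assoc, ← pow_succ,
      ← pow_add]
    push_cast
    rw [add_smul, one_smul]

lemma gg_iter (T : A) (n j : ℕ) : ∀ w ∈ UU T, iteratedDeriv j (fun w => gg T w ^ n) w =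
    (n.ascFactorial j : ℂ) • (T ^ j * gg T w ^ (n + j)) := by
  induction j with
  | zero => intro w _; simp
  | succ j ih =>
    intro w hw
    rw [iteratedDeriv_succ]
    have hev : iteratedDeriv j (fun w => gg T w ^ n) =ᶠ[𝓝 w]
        fun w => (n.ascFactorial j : ℂ) • (T ^ j * gg T w ^ (n + j)) := by
      filter_upwards [(UU_open T).mem_nhds hw] with z hz using ih z hz
    rw [hev.deriv_eq]
    have h := ((gg_pow_deriv T w hw (n + j)).const_mul (T ^ j)).const_smul
      (n.ascFactorial j : ℂ)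
    have h' := h.deriv
    have e : (fun w => (n.ascFactorial j : ℂ) • (T ^ j * gg T w ^ (n + j))) =
      (n.ascFactorial j : ℂ) • fun w => (T ^ j * gg T w ^ (n + j)) := rfl
    rw [e, h', Nat.ascFactorial_succ, mul_smul_comm, smul_smul, ← mul_assoc, ← pow_succ,
      add_assoc]
    push_cast
    rw [mul_comm]

lemma hyp (T : A) (M : ℝ) (hs : spectrum ℂ T ⊆ Metric.ball 0 1)
    (hR : ∀ z : ℂ, 1 ≤ ‖z‖ → ‖resolvent T z‖ ≤ M) : Hyp (fun j => ‖T ^ j‖) M := by
  have hU : ∀ w : ℂ, ‖w‖ ≤ 1 → w ≠ 0 → IsUnit (algebraMap ℂ A w⁻¹ - T) := by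
    intro w hw hw0
    by_contra h
    have := hs (spectrum.mem_iff.mpr h)
    rw [mem_ball_zero_iff, norm_inv] at this
    have h1 : 0 < ‖w‖ := norm_pos_iff.mpr hw0
    have := (one_le_inv₀ h1).mpr hw
    linarith
  have hE : ∀ w : ℂ, w ≠ 0 → 1 - w • T = w • (algebraMap ℂ A w⁻¹ - T) := by
    intro w hw
    rw [smul_sub, Algebra.algebraMap_eq_smul_one, smul_smul, mul_inv_cancel₀ hw, one_smul]
  have hsub : Metric.closedBall (0 : ℂ) 1 ⊆ UU T := by
    intro w hw
    rw [mem_closedBall_zero_iff] at hw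
    by_cases h0 : w = 0
    · subst h0; simp [UU]
    · show IsUnit _
      rw [hE w h0]
      exact (hU w hw h0).smul (Units.mk0 w h0)
  have hsph : ∀ w ∈ Metric.sphere (0 : ℂ) 1, ‖gg T w‖ ≤ M := by
    intro w hw
    rw [mem_sphere_zero_iff_norm] at hw
    have h0 : w ≠ 0 := by rintro rfl; simp at hw
    obtain ⟨x, hx⟩ := hU w hw.le h0
    have e1 : resolvent T w⁻¹ = ↑x⁻¹ := by unfold resolvent; rw [← hx, Ring.inverse_unit]
    have e2 : gg T w = w⁻¹ • (↑x⁻¹ : A) := by
      unfold gg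
      rw [hE w h0, ← hx]
      have : w • (x : A) = ↑((Units.mk0 w h0) • x) := rfl
      rw [this, Ring.inverse_unit]
      apply Units.inv_eq_of_mul_eq_one_right
      rw [← this, smul_mul_smul_comm, mul_inv_cancel₀ h0]; simp
    rw [e2, norm_smul, norm_inv, hw, inv_one, one_mul, ← e1]
    apply hR; rw [norm_inv, hw]; simp
  refine ⟨fun j => norm_nonneg _, fun k j => ?_⟩
  have hd : DiffContOnCl ℂ (fun w => gg T w ^ (k + 1)) (Metric.ball 0 1) := by
    apply DifferentiableOn.diffContOnCl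
    rw [closure_ball _ one_ne_zero]
    intro w hw
    exact (gg_pow_deriv T w (hsub hw) (k + 1)).differentiableAt.differentiableWithinAt
  have hC := Complex.norm_iteratedDeriv_le_of_forall_mem_sphere_norm_le (C := M ^ (k + 1)) j
    one_pos hd (fun w hw => (norm_pow_le' _ (Nat.succ_pos k)).trans
      (pow_le_pow_left₀ (norm_nonneg _) (hsph w hw) _))
  rw [gg_iter T (k + 1) j 0 (hsub (by simp))] at hC
  have g0 : gg T 0 = 1 := by simp [gg]
  rw [g0, one_pow, mul_one, norm_smul, Nat.ascFactorial_eq_factorial_mul_choose] at hC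
  simp only [Nat.cast_mul, norm_mul, Complex.norm_natCast, one_pow, div_one] at hC
  have hf : (0 : ℝ) < j.factorial := by exact_mod_cast j.factorial_pos
  rw [mul_assoc] at hC
  have := le_of_mul_le_mul_left hC hf
  simpa [mul_comm] using this

theorem upper [NormOneClass A] (T : A) (M : ℝ) (hs : spectrum ℂ T ⊆ Metric.ball 0 1)
    (hR : ∀ z : ℂ, 1 ≤ ‖z‖ → ‖resolvent T z‖ ≤ M) :
    Summable (fun j : ℕ => ‖T ^ (j + 1)‖) ∧
      ∑' j : ℕ, ‖T ^ (j + 1)‖ ≤ Real.exp 1 * M * (M - 1) := by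
  have H := hyp T M hs hR
  have hM : 1 ≤ M := by simpa using H.2 0 0
  have hb : ∀ N, ∑ j ∈ range N, ‖T ^ (j + 1)‖ ≤ Real.exp 1 * M * (M - 1) := by
    intro N
    have := numeric H hM (N + 1)
    rw [sum_Ico_eq_sum_range] at this
    simpa [add_comm] using this
  exact ⟨summable_of_sum_range_le (fun _ => norm_nonneg _) hb,
    Real.tsum_le_of_sum_range_le (fun _ => norm_nonneg _) hb⟩

end Pool.Agent.H24.Nev
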