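import Pool.Agent.H24.Nev2

set_option autoImplicit false
open Finset Topology

namespace Pool.Agent.H24.Nev

def Y (_m : ℕ) : Type := ℂ × ℂ

noncomputable instance (m : ℕ) : AddCommGroup (Y m) := inferInstanceAs (AddCommGroup (ℂ × ℂ))
noncomputable instance (m : ℕ) : Module ℂ (Y m) := inferInstanceAs (Module ℂ (ℂ × ℂ))
instance (m : ℕ) : FiniteDimensional ℂ (Y m) := inferInstanceAs (FiniteDimensional ℂ (ℂ × ℂ))
instance (m : ℕ) : Nontrivial (Y m) := inferInstanceAs (Nontrivial (ℂ × ℂ))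

noncomputable def mm (m : ℕ) : ℝ := 1 + 1 / ((m : ℝ) + 1)

lemma mm_gt (m : ℕ) : 1 < mm m := by
  unfold mm; have : (0 : ℝ) < 1 / ((m : ℝ) + 1) := by positivity
  linarith

noncomputable def io0 (m : ℕ) : (ℂ × ℂ) →ₗ[ℂ] (Fin (m + 2) → WithLp 1 (ℂ × ℂ)) where
  toFun x n := ((((mm m) ^ (n : ℕ))⁻¹ : ℝ) : ℂ) • WithLp.toLp 1 (((n : ℕ) : ℂ) * x.1, x.2)
  map_add' x y := by
    funext n
    simp only [Pi.add_apply, ← smul_add, ← WithLp.toLp_add, Prod.mk_add_mk, Prod.fst_add,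
      Prod.snd_add, mul_add]
  map_smul' c x := by
    funext n
    simp only [Pi.smul_apply, RingHom.id_apply, smul_comm c, ← WithLp.toLp_smul, Prod.smul_mk,
      Prod.smul_fst, Prod.smul_snd, smul_eq_mul]
    congr 2 <;> ring

lemma io0_norm (m : ℕ) (x : ℂ × ℂ) (n : Fin (m + 2)) :
    ‖io0 m x n‖ = (((n : ℕ) : ℝ) * ‖x.1‖ + ‖x.2‖) / (mm m) ^ (n : ℕ) := by
  have hp : 0 < (mm m) ^ (n : ℕ) := pow_pos (by linarith [mm_gt m]) _
  show ‖((((mm m) ^ (n : ℕ))⁻¹ : ℝ) : ℂ) • WithLp.toLp 1 (((n : ℕ) : ℂ) * x.1, x.2)‖ = _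
  rw [norm_smul, WithLp.prod_norm_eq_of_L1, Complex.norm_real, Real.norm_eq_abs,
    abs_of_pos (inv_pos.mpr hp)]
  simp [div_eq_inv_mul]

lemma io0_inj (m : ℕ) : Function.Injective (io0 m) := by
  rw [injective_iff_map_eq_zero]
  intro x hx
  have h := io0_norm m x 1
  rw [hx] at h
  have hp : 0 < (mm m) ^ ((1 : Fin (m + 2)) : ℕ) := pow_pos (by linarith [mm_gt m]) _
  simp only [Pi.zero_apply, norm_zero] at h
  have h2 := (div_eq_zero_iff.mp h.symm).resolve_right hp.ne'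
  simp only [Fin.val_one, Nat.cast_one, one_mul] at h2
  have a1 := norm_nonneg x.1
  have a2 := norm_nonneg x.2
  exact Prod.ext (norm_eq_zero.mp (by linarith)) (norm_eq_zero.mp (by linarith))

noncomputable def io (m : ℕ) : Y m →ₗ[ℂ] (Fin (m + 2) → WithLp 1 (ℂ × ℂ)) := io0 m

noncomputable instance (m : ℕ) : NormedAddCommGroup (Y m) :=
  NormedAddCommGroup.induced _ _ (io m) (io0_inj m)

noncomputable instance (m : ℕ) : NormedSpace ℂ (Y m) := NormedSpace.induced ℂ _ _ (io m)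

instance (m : ℕ) : CompleteSpace (Y m) := FiniteDimensional.complete ℂ (Y m)

def mk (m : ℕ) (a b : ℂ) : Y m := (a, b)
def p1 {m : ℕ} (x : Y m) : ℂ := Prod.fst x
def p2 {m : ℕ} (x : Y m) : ℂ := Prod.snd x

lemma le_norm {m : ℕ} (x : Y m) (n : ℕ) (hn : n ≤ m + 1) :
    ((n : ℝ) * ‖p1 x‖ + ‖p2 x‖) / (mm m) ^ n ≤ ‖x‖ := by
  have h := norm_le_pi_norm (io0 m x) ⟨n, by omega⟩
  rw [io0_norm] at h
  exact h

lemma norm_le {m : ℕ} (x : Y m) (K : ℝ) (hK : 0 ≤ K)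
    (h : ∀ n : ℕ, n ≤ m + 1 → ((n : ℝ) * ‖p1 x‖ + ‖p2 x‖) / (mm m) ^ n ≤ K) : ‖x‖ ≤ K := by
  show ‖io0 m x‖ ≤ K
  rw [pi_norm_le_iff_of_nonneg hK]
  intro n
  rw [io0_norm]
  exact h n (by omega)

noncomputable def T0 : (ℂ × ℂ) →ₗ[ℂ] (ℂ × ℂ) := (LinearMap.inr ℂ ℂ ℂ).comp (LinearMap.fst ℂ ℂ ℂ)

noncomputable def TT (m : ℕ) : Y m →L[ℂ] Y m :=
  LinearMap.toContinuousLinearMap (show Y m →ₗ[ℂ] Y m from T0)

lemma TT_p1 {m : ℕ} (x : Y m) : p1 (TT m x) = 0 := rfl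
lemma TT_p2 {m : ℕ} (x : Y m) : p2 (TT m x) = p1 x := rfl

lemma TT_sq (m : ℕ) : TT m * TT m = 0 := by
  ext x
  exact Prod.ext rfl rfl

lemma one_add_norm (m : ℕ) (w : ℂ) (hw : ‖w‖ ≤ 1) : ‖1 + w • TT m‖ ≤ mm m := by
  have hM := mm_gt m
  apply ContinuousLinearMap.opNorm_le_bound _ (by linarith)
  intro x
  apply norm_le _ _ (by positivity)
  intro n hn
  have e1 : p1 ((1 + w • TT m) x) = p1 x := by
    show p1 x + w * 0 = p1 x
    simp
  have e2 : p2 ((1 + w • TT m) x) = p2 x + w * p1 x := rfl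
  rw [e1, e2]
  have b : ‖p2 x + w * p1 x‖ ≤ ‖p2 x‖ + ‖p1 x‖ := by
    refine (norm_add_le _ _).trans ?_
    rw [norm_mul]
    nlinarith [norm_nonneg (p1 x)]
  have hp : 0 < (mm m) ^ n := by positivity
  have a1 := norm_nonneg (p1 x)
  have a2 := norm_nonneg (p2 x)
  rcases hn.eq_or_lt with h | h
  · have h1 := le_norm x n hn
    rw [div_le_iff₀ hp] at h1 ⊢
    have hn' : (n : ℝ) = m + 1 := by exact_mod_cast h
    have k : mm m * n = n + 1 := by
      rw [hn']; unfold mm; field_simp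
    have h2 := mul_le_mul_of_nonneg_left h1 (by linarith : 0 ≤ mm m)
    have : mm m * (n * ‖p1 x‖ + ‖p2 x‖) = (n + 1) * ‖p1 x‖ + mm m * ‖p2 x‖ := by
      rw [← k]; ring
    nlinarith
  · have h1 := le_norm x (n + 1) h
    rw [div_le_iff₀ (by positivity)] at h1
    rw [div_le_iff₀ hp]
    push_cast at h1
    rw [pow_succ] at h1
    nlinarith

noncomputable def un (m : ℕ) (z : ℂ) (hz : z ≠ 0) : (Y m →L[ℂ] Y m)ˣ where
  val := algebraMap ℂ _ z - TT m
  inv := z⁻¹ • (1 + z⁻¹ • TT m)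
  val_inv := by
    rw [Algebra.algebraMap_eq_smul_one]
    simp only [mul_smul_comm, sub_mul, mul_add, smul_mul_assoc, one_mul, mul_one, TT_sq, smul_zero,
      smul_add, smul_sub, smul_smul, sub_zero]
    rw [mul_assoc, inv_mul_cancel₀ hz, mul_one, one_smul]
    abel
  inv_val := by
    rw [Algebra.algebraMap_eq_smul_one]
    simp only [mul_smul_comm, mul_sub, add_mul, smul_mul_assoc, one_mul, mul_one, TT_sq, smul_zero,
      smul_add, smul_sub, smul_smul, add_zero]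
    rw [← mul_assoc, mul_inv_cancel₀ hz, one_mul, one_smul]
    abel

lemma spec (m : ℕ) : spectrum ℂ (TT m) ⊆ Metric.ball 0 1 := by
  intro z hz
  by_cases h : z = 0
  · simp [h]
  · exact absurd (un m z h).isUnit (spectrum.mem_iff.mp hz)

lemma resb (m : ℕ) (z : ℂ) (hz : 1 ≤ ‖z‖) : ‖resolvent (TT m) z‖ ≤ mm m := by
  have h0 : z ≠ 0 := by rintro rfl; norm_num at hz
  have e : resolvent (TT m) z = z⁻¹ • (1 + z⁻¹ • TT m) := Ring.inverse_unit (un m z h0)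
  have h1 : ‖z⁻¹‖ ≤ 1 := by rw [norm_inv]; exact inv_le_one_of_one_le₀ hz
  rw [e, norm_smul]
  have := one_add_norm m z⁻¹ h1
  nlinarith [norm_nonneg (1 + z⁻¹ • TT m), norm_nonneg z⁻¹]

lemma TT_norm (m : ℕ) : Real.exp 1 * (mm m - 1) / mm m ≤ ‖TT m‖ := by
  have hM := mm_gt m
  have hL : 1 - (mm m)⁻¹ ≤ Real.log (mm m) := Real.one_sub_inv_le_log_of_pos (by linarith)
  have hL0 : 0 < Real.log (mm m) := Real.log_pos hM
  set L := Real.log (mm m) with hLd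
  have e0 := Real.exp_pos 1
  have h1 : ‖mk m 1 0‖ ≤ 1 / (Real.exp 1 * L) := by
    apply norm_le _ _ (by positivity)
    intro n _
    have : (mm m) ^ n = Real.exp (n * L) := by
      rw [Real.exp_nat_mul, Real.exp_log (by linarith)]
    rw [this, div_le_div_iff₀ (Real.exp_pos _) (by positivity)]
    have h := Real.add_one_le_exp (n * L - 1)
    have h' : Real.exp (n * L) = Real.exp 1 * Real.exp (n * L - 1) := by
      rw [← Real.exp_add]; congr 1; ring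
    have q1 : p1 (mk m 1 0) = 1 := rfl
    have q2 : p2 (mk m 1 0) = 0 := rfl
    rw [q1, q2, h']
    simp only [norm_one, norm_zero]
    nlinarith
  have h2 : 1 ≤ ‖TT m (mk m 1 0)‖ := by
    have := le_norm (TT m (mk m 1 0)) 0 (by omega)
    have q1 : p1 (mk m 1 0) = 1 := rfl
    rw [TT_p2, q1] at this
    simpa using this
  have h3 := (TT m).le_opNorm (mk m 1 0)
  have h4 : 1 ≤ ‖TT m‖ * (1 / (Real.exp 1 * L)) :=
    h2.trans (h3.trans (mul_le_mul_of_nonneg_left h1 (norm_nonneg _)))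
  rw [mul_one_div, le_div_iff₀ (by positivity), one_mul] at h4
  refine le_trans ?_ h4
  have : (mm m - 1) / mm m = 1 - (mm m)⁻¹ := by field_simp
  rw [mul_div_assoc, this]
  exact mul_le_mul_of_nonneg_left hL e0.le

theorem lower (C : ℝ) (h : ∀ m : ℕ, Summable (fun j : ℕ => ‖TT m ^ (j + 1)‖) ∧
    ∑' j : ℕ, ‖TT m ^ (j + 1)‖ ≤ C * mm m * (mm m - 1)) : Real.exp 1 ≤ C := by
  have key : ∀ m : ℕ, Real.exp 1 ≤ C * mm m ^ 2 := by
    intro m
    have hM := mm_gt m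
    have h1 := (h m).1.le_tsum 0 (fun j _ => norm_nonneg _)
    simp only [zero_add, pow_one] at h1
    have h2 := (TT_norm m).trans (h1.trans (h m).2)
    rw [div_le_iff₀ (by linarith)] at h2
    have : Real.exp 1 * (mm m - 1) ≤ C * mm m ^ 2 * (mm m - 1) := by nlinarith
    exact le_of_mul_le_mul_right this (by linarith)
  have lim : Filter.Tendsto (fun m : ℕ => C * mm m ^ 2) Filter.atTop (𝓝 (C * (1 + 0) ^ 2)) :=
    ((tendsto_one_div_add_atTop_nhds_zero_nat.const_add 1).pow 2).const_mul C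
  have := ge_of_tendsto' lim key
  simpa using this

end Pool.Agent.H24.Nev
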