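import Pool.Agent.H4.Det1

set_option autoImplicit false

namespace Pool.Agent.H24.Nor

open Finset Filter Topology MeasureTheory Pool.Agent.H4.Det

lemma weyl_cont {r : ℕ} {y : ℝ} (H : ∀ h : ℤ, h ≠ 0 → ∀ ε > 0, ∀ᶠ N : ℕ in atTop, ‖U r h N y‖ ≤ ε * N)
    (f : C(UnitAddCircle, ℝ)) (ε : ℝ) (hε : 0 < ε) : ∀ᶠ N : ℕ in atTop,
      ∑ n ∈ range N, f ((y * (r : ℝ) ^ n : ℝ) : UnitAddCircle) ≤ (∫ t, f t + 3 * ε) * N := by
  let F : C(UnitAddCircle, ℂ) := ⟨fun t => (f t : ℂ), by fun_prop⟩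
  have hF : F ∈ closure ((Submodule.span ℂ (Set.range (@fourier 1)) : Submodule ℂ _) :
      Set C(UnitAddCircle, ℂ)) := by
    rw [← Submodule.topologicalClosure_coe, span_fourier_closure_eq_top]
    trivial
  obtain ⟨φ, hφ, hd⟩ := Metric.mem_closure_iff.mp hF ε hε
  obtain ⟨G, G0, C, hC, hW⟩ := weyl_span r φ hφ
  have hpt : ∀ t, ‖F t - φ t‖ ≤ ε := fun t => by
    rw [← dist_eq_norm]
    exact (ContinuousMap.dist_apply_le_dist t).trans hd.le
  have hint : ∀ ψ : C(UnitAddCircle, ℂ), Integrable ψ := fun ψ =>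
    ψ.continuous.integrable_of_hasCompactSupport (HasCompactSupport.of_compactSpace _)
  have a1 : ‖(∫ t, F t) - ∫ t, φ t‖ ≤ ε := by
    rw [← integral_sub (hint F) (hint φ)]
    simpa [vol_univ] using norm_integral_le_of_norm_le_const (μ := volume) (ae_of_all _ hpt)
  have a2 : ∫ t, F t = ((∫ t, f t : ℝ) : ℂ) := integral_complex_ofReal
  filter_upwards [(eventually_all_finset G).2 fun h hh => H h (fun e => G0 (e ▸ hh)) (ε / (C + 1))
    (by positivity)] with N hN
  have h1 := hW y _ N (by positivity) hN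
  have h2 : ‖∑ n ∈ range N, F ((y * (r : ℝ) ^ n : ℝ) : UnitAddCircle) -
      ∑ n ∈ range N, φ ((y * (r : ℝ) ^ n : ℝ) : UnitAddCircle)‖ ≤ ε * N := by
    rw [← sum_sub_distrib]
    exact (norm_sum_le _ _).trans ((sum_le_sum fun n _ => hpt _).trans (by simp [mul_comm]))
  have h3 : C * (ε / (C + 1) * N) ≤ ε * N := by
    rw [← mul_assoc, ← mul_div_assoc]
    gcongr
    rw [div_le_iff₀ (by positivity)]; nlinarith
  have h4 : ‖(N : ℂ) * (∫ t, φ t) - N * ∫ t, F t‖ ≤ ε * N := by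
    rw [← mul_sub, norm_mul, norm_sub_rev, mul_comm, Complex.norm_natCast]; gcongr
  have h5 := (norm_add₃_le.trans (add_le_add (add_le_add h2 (h1.trans h3)) h4))
  rw [sub_add_sub_cancel, sub_add_sub_cancel, a2] at h5
  have h6 := (Complex.re_le_norm _).trans h5
  simp [F] at h6
  rw [integral_add (f.continuous.integrable_of_hasCompactSupport (HasCompactSupport.of_compactSpace _))
    (integrable_const _)]
  simp [vol_univ]
  linarith

open Classical in
lemma weyl_ball {r : ℕ} {y : ℝ} (H : ∀ h : ℤ, h ≠ 0 → ∀ ε > 0, ∀ᶠ N : ℕ in atTop, ‖U r h N y‖ ≤ ε * N)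
    (c : UnitAddCircle) (ρ ε : ℝ) (hρ : 0 < ρ) (hε : 0 < ε) : ∀ᶠ N : ℕ in atTop,
      (((range N).filter fun n => dist ((y * (r : ℝ) ^ n : ℝ) : UnitAddCircle) c ≤ ρ).card : ℝ)
        ≤ (2 * ρ + 5 * ε) * N := by
  let f : C(UnitAddCircle, ℝ) := ⟨fun t => max 0 (min 1 (1 + (ρ - dist t c) / ε)), by fun_prop⟩
  have f0 : ∀ t, 0 ≤ f t := fun t => le_max_left _ _
  have fint : ∫ t, f t ≤ 2 * (ρ + ε) := by
    have h1 : ∀ t, f t ≤ (Metric.closedBall c (ρ + ε)).indicator (fun _ => (1 : ℝ)) t := fun t => by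
      by_cases ht : t ∈ Metric.closedBall c (ρ + ε)
      · rw [Set.indicator_of_mem ht]
        exact max_le zero_le_one (min_le_left _ _)
      · rw [Set.indicator_of_notMem ht]
        refine max_le le_rfl ((min_le_right _ _).trans ?_)
        rw [Metric.mem_closedBall, not_le] at ht
        have : (ρ - dist t c) / ε ≤ -1 := by rw [div_le_iff₀ hε]; linarith
        linarith
    refine (integral_mono_of_nonneg (ae_of_all _ f0) ((integrable_const (1 : ℝ)).indicator
      measurableSet_closedBall) (ae_of_all _ h1)).trans ?_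
    rw [integral_indicator measurableSet_closedBall, setIntegral_const, smul_eq_mul, mul_one,
      Measure.real, AddCircle.volume_closedBall, ENNReal.toReal_ofReal (by positivity)]
    exact min_le_right _ _
  filter_upwards [weyl_cont H f ε hε] with N hN
  rw [integral_add (f.continuous.integrable_of_hasCompactSupport (HasCompactSupport.of_compactSpace _))
    (integrable_const _)] at hN
  simp only [integral_const, vol_univ, smul_eq_mul, one_mul] at hN
  refine le_trans ?_ (hN.trans (mul_le_mul_of_nonneg_right (by linarith) N.cast_nonneg))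
  rw [card_filter]
  push_cast
  refine sum_le_sum fun n _ => ?_
  split_ifs with h
  · exact le_trans (le_min le_rfl (by have := div_nonneg (sub_nonneg.2 h) hε.le; linarith)) (le_max_right _ _)
  · exact f0 _

lemma dig_eq {r : ℕ} (hr : 2 ≤ r) (y : ℝ) (i : ℕ) : ⌊y * (r : ℝ) ^ (i + 1)⌋ % r = dig r y i := by
  have := dig_range hr y i
  rw [← Int.emod_eq_of_lt this.1 this.2, dig, Int.sub_mul_emod_self_left]

lemma tot {r : ℕ} (hr : 2 ≤ r) (y : ℝ) (L N : ℕ) : ∑ w : Fin L → Fin r, ((range N).filter fun i =>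
    ∀ j : Fin L, dig r y (i + j) = (w j : ℕ)).card = N := by
  have h : ∀ i, (dig r y i).toNat < r := fun i => by have := dig_range hr y i; omega
  refine Eq.trans ?_ ((card_eq_sum_card_fiberwise (t := univ)
    (f := fun i (j : Fin L) => (⟨_, h (i + j)⟩ : Fin r)) (by simp)).symm.trans (card_range N))
  refine sum_congr rfl fun w _ => congrArg _ (filter_congr fun i _ => ?_)
  rw [funext_iff]
  refine forall_congr' fun j => ?_
  rw [Fin.ext_iff]
  have := dig_range hr y (i + j)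
  simp only; omega

lemma normal {r : ℕ} (hr : 2 ≤ r) {y : ℝ}
    (H : ∀ h : ℤ, h ≠ 0 → ∀ ε > 0, ∀ᶠ N : ℕ in atTop, ‖U r h N y‖ ≤ ε * N) (k : ℕ) (w : Fin k → Fin r) :
    Tendsto (fun N : ℕ => (((range N).filter fun i => ∀ j : Fin k, dig r y (i + j) = (w j : ℕ)).card : ℝ) / N)
      atTop (𝓝 (1 / (r : ℝ) ^ k)) := by
  classical
  have p : (0 : ℝ) < (r : ℝ) ^ k := by positivity
  have up : ∀ ε > 0, ∀ᶠ N : ℕ in atTop, ∀ w : Fin k → Fin r, (((range N).filter fun i =>
      ∀ j : Fin k, dig r y (i + j) = (w j : ℕ)).card : ℝ) / N ≤ 1 / (r : ℝ) ^ k + ε := fun ε hε => by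
    refine eventually_all.2 fun w => ?_
    let d : ℕ → ℤ := fun i => if h : i < k then ((w ⟨i, h⟩ : ℕ) : ℤ) else 0
    filter_upwards [weyl_ball H ((((blockVal r d k : ℝ) + 1 / 2) / (r : ℝ) ^ k : ℝ) : UnitAddCircle)
      (1 / (2 * (r : ℝ) ^ k)) (ε / 5) (by positivity) (by positivity), eventually_gt_atTop 0] with N hN h0
    rw [div_le_iff₀ (by exact_mod_cast h0)]
    refine le_trans (Nat.cast_le.2 (card_le_card fun n hn => ?_)) (hN.trans_eq (by field_simp))
    rw [mem_filter] at hn ⊢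
    exact ⟨hn.1, block_dist hr y n k d fun i hi => by simpa [d, hi] using hn.2 ⟨i, hi⟩⟩
  rw [Metric.tendsto_nhds]
  intro ε hε
  filter_upwards [up (ε / 2 / r ^ k) (by positivity), eventually_gt_atTop 0] with N hN h0
  have hN0 : (0 : ℝ) < N := by exact_mod_cast h0
  have t : ∑ w : Fin k → Fin r, (((range N).filter fun i =>
      ∀ j : Fin k, dig r y (i + j) = (w j : ℕ)).card : ℝ) / N = 1 := by
    rw [← sum_div, ← Nat.cast_sum, tot hr, div_self hN0.ne']
  have h1 := single_le_sum (f := fun w : Fin k → Fin r => 1 / (r : ℝ) ^ k + ε / 2 / r ^ k -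
    (((range N).filter fun i => ∀ j : Fin k, dig r y (i + j) = (w j : ℕ)).card : ℝ) / N)
    (fun w _ => sub_nonneg.2 (hN w)) (mem_univ w)
  rw [sum_sub_distrib, t, sum_const, card_univ, Fintype.card_fun, Fintype.card_fin, Fintype.card_fin,
    nsmul_eq_mul, Nat.cast_pow, mul_add, mul_div_cancel₀ _ p.ne', mul_div_cancel₀ _ p.ne'] at h1
  have h2 := hN w
  have h3 : ε / 2 / r ^ k ≤ ε / 2 := div_le_self (by positivity) (one_le_pow₀ (by exact_mod_cast (by omega : 1 ≤ r)))
  have h4 : 0 < ε / 2 / r ^ k := by positivity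
  rw [Real.dist_eq, abs_lt]
  constructor <;> linarith

lemma e_int (z : ℤ) : e z = 1 := Complex.exp_eq_one_iff.2 ⟨z, by push_cast; ring⟩

lemma e_one {θ : ℝ} (h : e θ = 1) : ∃ z : ℤ, θ = z := by
  obtain ⟨z, hz⟩ := Complex.exp_eq_one_iff.1 h
  refine ⟨z, ?_⟩
  have : (θ : ℂ) = z := mul_left_cancel₀ Complex.two_pi_I_ne_zero (by rw [hz]; ring)
  exact_mod_cast this

lemma e_lip (a b : ℝ) : ‖e (a + b) - e a‖ ≤ 7 * |b| := by
  rw [e_add, ← mul_sub_one, norm_mul, norm_e, one_mul]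
  have := Real.norm_exp_I_mul_ofReal_sub_one_le (x := 2 * Real.pi * b)
  rw [Real.norm_eq_abs, abs_mul, abs_of_pos Real.two_pi_pos] at this
  have h : 2 * Real.pi * |b| ≤ 7 * |b| := by gcongr; linarith [Real.pi_lt_d2]
  refine le_trans (le_of_eq ?_) (this.trans h)
  rw [e]; congr 3; push_cast; ring

lemma e_nat (j : ℕ) (θ : ℝ) : e (j * θ) = e θ ^ j := by
  induction j with
  | zero => simp [e_zero]
  | succ j ih => rw [pow_succ, ← ih, ← e_add]; congr 1; push_cast; ring

lemma split (f : ℕ → ℂ) (n J : ℕ) : ∑ i ∈ range (n * J), f i = ∑ j ∈ range J, ∑ i ∈ range n, f (i + n * j) := by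
  induction J with
  | zero => simp
  | succ J ih => rw [mul_add_one, sum_range_add, ih, sum_range_succ]; simp [add_comm]

lemma geo {r : ℕ} (hr : 2 ≤ r) (N : ℕ) : ∑ i ∈ range N, (r : ℝ) ^ i ≤ r ^ N - 1 := by
  have : (2 : ℝ) ≤ r := by exact_mod_cast hr
  induction N with
  | zero => simp
  | succ N ih => rw [sum_range_succ, pow_succ]; nlinarith [pow_pos (by linarith : (0 : ℝ) < r) N]

end Pool.Agent.H24.Nor
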