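import Pool.Agent.H24.Nor1

set_option autoImplicit false

namespace Pool.Agent.H24.Nor

open Finset Filter Topology Pool.Agent.H4.Det

variable (r : ℕ)

/-- denominators, lengths and periods -/
def bsp : ℕ → ℕ × ℕ × ℕ
  | 0 => (1, 0, 1)
  | k + 1 => ((bsp k).1 * (r ^ ((bsp k).2.2 * (4 * (k + 1) * ((bsp k).2.1 + 1))) - 1),
      (bsp k).2.1 + (bsp k).2.2 * (4 * (k + 1) * ((bsp k).2.1 + 1)),
      (bsp k).2.2 * (4 * (k + 1) * ((bsp k).2.1 + 1)) * (bsp k).1)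
/-- denominator -/
def B (k : ℕ) : ℕ := (bsp r k).1
/-- length -/
def s (k : ℕ) : ℕ := (bsp r k).2.1
/-- period -/
def p (k : ℕ) : ℕ := (bsp r k).2.2
/-- exponent -/
def n (k : ℕ) : ℕ := p r k * (4 * (k + 1) * (s r k + 1))
/-- approximants -/
noncomputable def Y (k : ℕ) : ℝ := r ^ s r k / B r k
/-- the new factor -/
def A (k : ℕ) : ℤ := r ^ n r k - 1

lemma s_succ (k : ℕ) : s r (k + 1) = s r k + n r k := rfl
lemma p_succ (k : ℕ) : p r (k + 1) = n r k * B r k := rfl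

variable {r} (hr : 2 ≤ r)
include hr

lemma B_succ (k : ℕ) : (B r (k + 1) : ℤ) = B r k * A r k := by
  change ((B r k * (r ^ n r k - 1) : ℕ) : ℤ) = _
  rw [Nat.cast_mul, Nat.cast_sub (Nat.one_le_pow _ _ (by omega))]; simp [A]

lemma A_ge (k : ℕ) : (n r k : ℤ) ≤ A r k := by
  have := Nat.lt_pow_self (n := n r k) (show 1 < r by omega)
  unfold A; zify at this; omega

lemma pos (k : ℕ) : 0 < B r k ∧ 0 < p r k := by
  induction k with
  | zero => exact ⟨one_pos, one_pos⟩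
  | succ k ih =>
    have h : 0 < n r k := by have := ih.2; unfold n; positivity
    have := A_ge hr k
    refine ⟨?_, by rw [p_succ]; exact Nat.mul_pos h ih.1⟩
    zify at ih h ⊢; rw [B_succ hr]; exact mul_pos ih.1 (by omega)

lemma n_ge (k : ℕ) : 4 * (k + 1) * (s r k + 1) ≤ n r k := Nat.le_mul_of_pos_left _ (pos hr k).2

lemma n_gt (k : ℕ) : 4 * (k + 1) ≤ n r k := le_trans (Nat.le_mul_of_pos_right _ (by omega)) (n_ge hr k)

lemma A_pos (k : ℕ) : (0 : ℝ) < A r k := by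
  have := A_ge hr k; have := n_gt hr k; exact_mod_cast (by omega : 0 < A r k)

lemma B_ge (k : ℕ) : k ≤ B r k := by
  rcases k with _ | k
  · simp
  have h1 := A_ge hr k
  have h2 := n_gt hr k
  have h3 := (pos hr k).1
  zify at h2 h3 ⊢; rw [B_succ hr]; nlinarith

omit hr in
lemma pw (a : ℤ) (m : ℕ) : ∃ z : ℤ, (a + 1) ^ m = 1 + m * a + a ^ 2 * z := by
  induction m with
  | zero => exact ⟨0, by simp⟩
  | succ m ih => obtain ⟨z, h⟩ := ih; exact ⟨m + z + a * z, by rw [pow_succ, h]; push_cast; ring⟩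

omit hr in
lemma dv {b : ℤ} {q : ℕ} (h : b ∣ r ^ q - 1) (t : ℕ) : b ∣ r ^ (q * t) - 1 := by
  rw [pow_mul]; exact h.trans (by simpa using sub_dvd_pow_sub_pow ((r : ℤ) ^ q) 1 t)

lemma B_dvd (k : ℕ) : (B r k : ℤ) ∣ r ^ p r k - 1 := by
  induction k with
  | zero => simp [B, bsp]
  | succ k ih =>
    obtain ⟨c, hc⟩ : (B r k : ℤ) ∣ A r k := dv ih _
    obtain ⟨z, hz⟩ := pw (A r k) (B r k)
    rw [B_succ hr, p_succ, pow_mul, show (r : ℤ) ^ n r k = A r k + 1 by simp [A], hz]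
    exact ⟨1 + c * z, by rw [sq]; nth_rewrite 2 [hc]; ring⟩

lemma Yint {k : ℕ} {b : ℤ} (h : (B r k : ℤ) ∣ b) (i : ℕ) : ∃ z : ℤ, Y r k * r ^ i * b = z := by
  obtain ⟨c, rfl⟩ := h
  have : (0 : ℝ) < B r k := by exact_mod_cast (pos hr k).1
  exact ⟨r ^ s r k * r ^ i * c, by unfold Y; push_cast; field_simp⟩

lemma Y_succ (k : ℕ) : Y r (k + 1) = Y r k + Y r k / A r k := by
  have : (0 : ℝ) < B r k := by exact_mod_cast (pos hr k).1
  have h := A_pos hr k
  have e : (B r (k + 1) : ℝ) = B r k * A r k := by exact_mod_cast B_succ hr k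
  have e2 : (r : ℝ) ^ n r k = A r k + 1 := by simp [A]
  rw [Y, Y, e, s_succ, pow_add, e2]; field_simp

lemma ID (k i j : ℕ) (c : ℤ) : e (c * (Y r (k + 1) * r ^ (i + n r k * j))) =
    e (c * (j + 1) * (Y r k * r ^ i) + c * (Y r k * r ^ i / A r k)) := by
  obtain ⟨z, hz⟩ : ∃ z : ℤ, Y r (k + 1) * r ^ (i + n r k * j) =
      (j + 1) * (Y r k * r ^ i) + Y r k * r ^ i / A r k + z := by
    have h := A_pos hr k
    induction j with
    | zero => exact ⟨0, by rw [Y_succ hr]; simp; ring⟩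
    | succ j ih =>
      obtain ⟨z, hz⟩ := ih
      obtain ⟨t, ht⟩ := Yint hr (b := A r k) (dv (B_dvd hr k) _) i
      have e2 : (r : ℝ) ^ n r k = A r k + 1 := by simp [A]
      refine ⟨(j + 1) * t + z * (A r k + 1), ?_⟩
      rw [mul_add_one, ← add_assoc, pow_add, ← mul_assoc, hz, e2]
      push_cast
      rw [← ht]; field_simp; ring
  rw [hz, mul_add, e_add, ← Int.cast_mul, e_int, mul_one]; congr 1; ring

lemma ort0 (k : ℕ) (c : ℤ) (hc : ¬ (B r k : ℤ) ∣ c) :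
    ∑ i ∈ range (p r (k + 1)), e (c * (Y r (k + 1) * r ^ i)) = 0 := by
  rw [p_succ, split, sum_comm]
  refine sum_eq_zero fun i _ => ?_
  have e1 : ∀ j : ℕ, e (c * (Y r (k + 1) * r ^ (i + n r k * j))) =
      e (c * (Y r k * r ^ i) + c * (Y r k * r ^ i / A r k)) * e (c * (Y r k * r ^ i)) ^ j := fun j => by
    rw [ID hr, ← e_nat, ← e_add]; congr 1; ring
  simp only [e1, ← mul_sum]
  have B0 : (0 : ℝ) < B r k := by exact_mod_cast (pos hr k).1
  rw [geom_sum_eq, ← e_nat]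
  · obtain ⟨z, hz⟩ := Yint hr (Dvd.intro c rfl) i
    push_cast at hz
    rw [show B r k * (c * (Y r k * r ^ i)) = (z : ℝ) by rw [← hz]; ring, e_int]; simp
  · intro h
    obtain ⟨z, hz⟩ := e_one h
    have cop : IsCoprime (B r k : ℤ) r := by
      obtain ⟨a, ha⟩ := B_dvd hr k
      obtain ⟨m, hm⟩ := Nat.exists_eq_succ_of_ne_zero (pos hr k).2.ne'
      exact ⟨-a, r ^ m, by rw [hm, pow_succ] at ha; linear_combination ha⟩
    refine hc ((cop.pow_right (n := s r k + i)).dvd_of_dvd_mul_right ⟨z, ?_⟩)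
    have : (c * r ^ (s r k + i) : ℝ) = B r k * z := by rw [← hz, Y]; field_simp; ring
    exact_mod_cast this

lemma ort1 (k : ℕ) (c : ℤ) (hc : ¬ (B r k : ℤ) ∣ c) (t m : ℕ) :
    ∑ i ∈ range (p r (k + 1) * t + m), e (c * (Y r (k + 1) * r ^ i)) =
      ∑ i ∈ range m, e (c * (Y r (k + 1) * r ^ i)) := by
  have per : ∀ i j, e (c * (Y r (k + 1) * r ^ (i + p r (k + 1) * j))) = e (c * (Y r (k + 1) * r ^ i)) :=
    fun i j => by
      obtain ⟨z, hz⟩ := Yint hr (dv (B_dvd hr (k + 1)) j) i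
      push_cast at hz
      rw [show c * (Y r (k + 1) * r ^ (i + p r (k + 1) * j)) = c * (Y r (k + 1) * r ^ i) + (c * z : ℤ) by
        push_cast; rw [← hz]; ring, e_add, e_int, mul_one]
  rw [sum_range_add, split]
  simp only [per, ort0 hr k c hc, sum_const_zero, zero_add, add_comm (_ * t)]

lemma ort2 (k : ℕ) (c : ℤ) (hc : ¬ (B r k : ℤ) ∣ c) (l : ℕ) :
    ‖∑ i ∈ range l, e (c * (Y r (k + 1) * r ^ i))‖ ≤ p r (k + 1) := by
  rw [← Nat.div_add_mod l (p r (k + 1)), ort1 hr k c hc]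
  refine (norm_sum_le _ _).trans ?_
  simp only [norm_e, sum_const, card_range, nsmul_eq_mul, mul_one, Nat.cast_le]
  exact (Nat.mod_lt _ (pos hr _).2).le

omit hr in
lemma ndv {b c : ℤ} (h : c ≠ 0) (h2 : |c| < b) : ¬ b ∣ c := fun d =>
  h (Int.eq_zero_of_abs_lt_dvd d h2)

lemma block (k j0 Q : ℕ) (h : ℤ) (h0 : h ≠ 0) (hQ : |h| * Q ≤ B r k) :
    ‖∑ i ∈ range (n r (k + 1) * Q), e (h * (Y r (k + 2) * r ^ (i + n r (k + 1) * j0)))‖ ^ 2 ≤
      n r (k + 1) ^ 2 * Q := by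
  set m := n r (k + 1) with hm
  let T : ℕ → ℂ := fun i => ∑ j ∈ range Q, e (h * j * (Y r (k + 1) * r ^ i))
  have e1 : ∑ i ∈ range m, (‖T i‖ : ℂ) ^ 2 = m * Q := by
    simp only [← Complex.mul_conj', T, map_sum, sum_mul_sum, conj_e, ← e_add]
    rw [sum_comm, ← card_range Q, mul_comm, ← nsmul_eq_mul, ← sum_const, card_range]
    refine sum_congr rfl fun j hj => ?_
    rw [sum_comm, sum_eq_single_of_mem j hj fun l hl hlj => ?_]
    · simp [e_zero]
    · have := ort1 hr k (h * (j - l)) (ndv (mul_ne_zero h0 (by omega)) (lt_of_lt_of_le (by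
        rw [abs_mul]
        rw [mem_range] at hj hl
        exact mul_lt_mul_of_pos_left (abs_lt.2 (by omega)) (abs_pos.2 h0)) hQ))
        (4 * (k + 1 + 1) * (s r (k + 1) + 1)) 0
      rw [sum_range_zero, add_zero] at this
      rw [← this]
      exact sum_congr rfl fun i _ => by congr 1; push_cast; ring
  have e2 : ∑ i ∈ range m, ‖T i‖ ^ 2 = m * Q := by exact_mod_cast e1
  rw [split, sum_comm]
  have e3 : ∀ i, ‖∑ j ∈ range Q, e (h * (Y r (k + 2) * r ^ (i + m * j + m * j0)))‖ = ‖T i‖ := fun i => by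
    rw [← one_mul ‖T i‖, ← norm_e (h * (j0 + 1) * (Y r (k + 1) * r ^ i) +
      h * (Y r (k + 1) * r ^ i / A r (k + 1))), ← norm_mul, mul_sum]
    refine congrArg _ (sum_congr rfl fun j _ => ?_)
    rw [add_assoc, ← mul_add, hm, ID hr, ← e_add]; congr 1; push_cast; ring
  refine (pow_le_pow_left₀ (norm_nonneg _) (norm_sum_le _ _) 2).trans (sq_sum_le_card_mul_sum_sq.trans_eq ?_)
  simp only [e3, e2, card_range]; ring

end Pool.Agent.H24.Nor
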