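import Pool.Agent.H24.Nor2

set_option autoImplicit false

namespace Pool.Agent.H24.Nor

open Finset Filter Topology Pool.Agent.H4.Det

/-- reciprocal approximants -/
noncomputable def X (r k : ℕ) : ℝ := B r k / r ^ s r k
/-- small parameter -/
noncomputable def u (r k : ℕ) : ℝ := 1 / r ^ n r k
/-- the deterministic number -/
noncomputable def x (r : ℕ) : ℝ := ⨅ k, X r k

variable {r : ℕ} (hr : 2 ≤ r)
include hr

lemma u_pos (k : ℕ) : 0 < u r k := by unfold u; positivity

lemma X_succ (k : ℕ) : X r (k + 1) = X r k * (1 - u r k) := by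
  have e : (B r (k + 1) : ℝ) = B r k * A r k := by exact_mod_cast B_succ hr k
  simp only [X, u, e, s_succ, A]
  push_cast
  field_simp
  ring

lemma n_lt (k : ℕ) : n r k + 1 ≤ n r (k + 1) := by
  have := n_ge hr (k + 1)
  rw [s_succ] at this
  nlinarith [Nat.zero_le (k * n r k), Nat.zero_le (k * s r k)]

lemma u_half (k : ℕ) : u r (k + 1) ≤ u r k / 2 := by
  have h : (2 : ℝ) ≤ r := by exact_mod_cast hr
  unfold u
  rw [div_div]
  gcongr
  exact le_trans (by rw [pow_succ]; gcongr) (pow_le_pow_right₀ (by linarith) (n_lt hr k))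

lemma u_le (k : ℕ) : u r k ≤ 1 / 4 := by
  have h : (2 : ℝ) ≤ r := by exact_mod_cast hr
  unfold u
  gcongr
  exact le_trans (show 4 ≤ (r : ℝ) ^ 2 by nlinarith)
    (pow_le_pow_right₀ (by linarith) (by have := n_gt hr k; omega))

lemma X_pos (k : ℕ) : 0 < X r k := by have := (pos hr k).1; unfold X; positivity

lemma X_anti : Antitone (X r) := antitone_nat_of_succ_le fun k => by
  rw [X_succ hr]; nlinarith [mul_pos (X_pos hr k) (u_pos hr k)]

lemma X_mono : Monotone fun k => X r k * (1 - 2 * u r k) := monotone_nat_of_le_succ fun k => by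
  have h1 := u_pos hr k
  have h2 := u_half hr k
  have h3 := u_le hr k
  have h4 := X_pos hr k
  simp only [X_succ hr, mul_assoc]
  gcongr
  nlinarith

omit hr in
lemma X0 : X r 0 = 1 := by simp [X, B, s, bsp]

lemma x_ge (k : ℕ) : X r k * (1 - 2 * u r k) ≤ x r := le_ciInf fun m => by
  have := mul_pos (X_pos hr (max m k)) (u_pos hr (max m k))
  exact (X_mono hr (le_max_right m k)).trans (le_trans (by simp only; linarith) (X_anti hr (le_max_left m k)))

lemma x_le (k : ℕ) : x r ≤ X r k := ciInf_le ⟨0, Set.forall_mem_range.2 fun k => (X_pos hr k).le⟩ k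

lemma x_half : 1 / 2 ≤ x r := by
  have := x_ge hr 0
  rw [X0] at this; linarith [u_le hr 0]

lemma tail (k : ℕ) : 0 < X r k - x r ∧ X r k - x r ≤ 2 * u r k := by
  have h1 := x_le hr (k + 1)
  have h2 := x_ge hr k
  have h3 := X_anti hr (Nat.zero_le k)
  have := u_pos hr k
  rw [X0] at h3
  rw [X_succ hr] at h1
  exact ⟨by nlinarith [mul_pos (X_pos hr k) this], by nlinarith⟩

omit hr in
lemma YX (k : ℕ) : Y r k = (X r k)⁻¹ := by rw [X, inv_div, Y]

lemma Y_le (k : ℕ) : |Y r k| ≤ 2 := by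
  rw [YX, abs_of_pos (inv_pos.2 (X_pos hr k))]
  exact inv_le_of_inv_le₀ two_pos (by linarith [x_half hr, x_le hr k])

lemma y_tail (k : ℕ) : |(x r)⁻¹ - Y r k| ≤ 8 * u r k := by
  have h1 := x_half hr
  have h2 := x_le hr k
  have t := tail hr k
  rw [YX, inv_sub_inv (by linarith) (by linarith), abs_of_pos (div_pos t.1 (by nlinarith)),
    div_le_iff₀ (by nlinarith)]
  nlinarith [mul_le_mul_of_nonneg_left (show 1 / 4 ≤ x r * X r k by nlinarith) (u_pos hr k).le]

omit hr in
lemma pert (f g : ℕ → ℝ) (l : ℕ) : ‖∑ i ∈ range l, e (f i + g i)‖ ≤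
    ‖∑ i ∈ range l, e (f i)‖ + 7 * ∑ i ∈ range l, |g i| := by
  rw [← sub_le_iff_le_add', mul_sum]
  refine (norm_sub_norm_le _ _).trans ?_
  rw [← sum_sub_distrib]
  exact (norm_sum_le _ _).trans (sum_le_sum fun i _ => e_lip _ _)

lemma window (k j l : ℕ) (h : ℤ) (h0 : h ≠ 0) (hj : |h| * (j + 1) < B r k) (hl : l ≤ n r (k + 1)) :
    ‖∑ i ∈ range l, e (h * (Y r (k + 2) * r ^ (i + n r (k + 1) * j)))‖ ≤ p r (k + 1) + 14 * |(h : ℝ)| := by
  simp only [ID hr]
  have := ort2 hr k (h * (j + 1)) (ndv (mul_ne_zero h0 (by omega))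
    (by rwa [abs_mul, abs_of_pos (by omega : (0 : ℤ) < j + 1)])) l
  push_cast at this
  refine (pert _ _ _).trans (add_le_add this ?_)
  have a := A_pos hr (k + 1)
  have g : ∑ i ∈ range l, (r : ℝ) ^ i ≤ A r (k + 1) := (geo hr l).trans (by
    simp only [A]; push_cast; gcongr; exact_mod_cast (by omega : 1 ≤ r))
  simp only [abs_mul, abs_div, abs_pow, Nat.abs_cast, abs_of_pos a, ← mul_sum, ← sum_div]
  have : |Y r (k + 1)| * (∑ i ∈ range l, (r : ℝ) ^ i) / A r (k + 1) ≤ 2 := by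
    rw [div_le_iff₀ a]; gcongr; exact Y_le hr _
  nlinarith [abs_nonneg (h : ℝ)]

lemma main (k q N : ℕ) (h : ℤ) (h0 : h ≠ 0) (q0 : 0 < q) (hq : |h| * q ^ 3 < B r k) :
    ‖∑ i ∈ range N, e (h * (Y r (k + 2) * r ^ i))‖ ≤ 2 * N / q + q ^ 3 * (p r (k + 1) + 14 * |(h : ℝ)|) := by
  have m0 : 0 < n r (k + 1) := by have := n_gt hr (k + 1); omega
  have hh := abs_pos.2 h0
  have q1 : (1 : ℝ) ≤ q := by exact_mod_cast q0
  rcases lt_or_ge N (n r (k + 1) * q ^ 3) with c | c
  · have J := Nat.div_lt_of_lt_mul c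
    refine le_trans ?_ (le_add_of_nonneg_left (by positivity))
    rw [← Nat.div_add_mod N (n r (k + 1)), sum_range_add, split]
    have w : ∀ j ≤ N / n r (k + 1), |h| * (j + 1) < B r k := fun j hj =>
      lt_of_le_of_lt (mul_le_mul_of_nonneg_left (by exact_mod_cast (by omega : j + 1 ≤ q ^ 3)) hh.le) hq
    refine (norm_add_le _ _).trans ((add_le_add ((norm_sum_le _ _).trans (sum_le_card_nsmul _ _ _
      fun j hj => window hr k j _ h h0 (w j (mem_range.1 hj).le) le_rfl)) (by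
        simp only [add_comm (_ * _)]
        exact window hr k _ _ h h0 (w _ le_rfl) (Nat.mod_lt _ m0).le)).trans ?_)
    rw [card_range, nsmul_eq_mul, ← add_one_mul]
    gcongr
    exact_mod_cast J
  · refine le_trans ?_ (le_add_of_nonneg_right (by positivity))
    have b : ∀ j0, ‖∑ i ∈ range (n r (k + 1) * q ^ 2), e (h * (Y r (k + 2) * r ^ (i + n r (k + 1) * q ^ 2 * j0)))‖
        ≤ n r (k + 1) * q := fun j0 => by
      rw [mul_assoc]
      refine le_of_sq_le_sq ?_ (by positivity)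
      refine (block hr k _ _ h h0 (le_trans ?_ hq.le)).trans_eq (by push_cast; ring)
      push_cast
      gcongr
      · exact_mod_cast q0
      · norm_num
    have e1 := Nat.div_add_mod N (n r (k + 1) * q ^ 2)
    have e2 := Nat.mod_lt N (show 0 < n r (k + 1) * q ^ 2 by positivity)
    rw [← e1, sum_range_add, split]
    refine (norm_add_le _ _).trans ((add_le_add ((norm_sum_le _ _).trans (sum_le_card_nsmul _ _ _
      fun j _ => b j)) (norm_sum_le _ _)).trans ?_)
    simp only [norm_e, sum_const, card_range, nsmul_eq_mul, mul_one, e1]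
    generalize N / _ = T at e1
    generalize N % _ = ρ at e1 e2
    generalize n r (k + 1) = m at *
    rify at e1 e2 c
    rw [le_div_iff₀ (by linarith)]
    nlinarith [mul_le_mul_of_nonneg_right e2.le (by linarith : (0 : ℝ) ≤ q), ρ.cast_nonneg (α := ℝ)]

lemma loc (K N : ℕ) (hN : n r K ≤ N) : ∃ k, K ≤ k ∧ n r k ≤ N ∧ N < n r (k + 1) := by
  have mono : StrictMono (n r) := strictMono_nat_of_lt_succ (n_lt hr)
  have ex : ∃ k, N < n r (k + 1) := ⟨N, (Nat.lt_succ_self N).trans_le mono.le_apply⟩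
  refine ⟨Nat.find ex, Nat.lt_succ_iff.1 (mono.lt_iff_lt.1 (hN.trans_lt (Nat.find_spec ex))), ?_,
    Nat.find_spec ex⟩
  rcases h : Nat.find ex with _ | j
  · exact (mono.monotone (Nat.zero_le K)).trans hN
  · exact not_lt.1 (Nat.find_min ex (by omega))

lemma weyl (h : ℤ) (h0 : h ≠ 0) (ε : ℝ) (hε : ε > 0) :
    ∀ᶠ N : ℕ in atTop, ‖U r h N (x r)⁻¹‖ ≤ ε * N := by
  obtain ⟨q, hq⟩ := exists_nat_gt (4 / ε)
  have q0 : (0 : ℝ) < q := lt_trans (by positivity) hq
  obtain ⟨K, hK⟩ := exists_nat_gt (max (|(h : ℝ)| * q ^ 3) ((q ^ 3 * (1 + 14 * |(h : ℝ)|) + 56 * |(h : ℝ)|) / ε))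
  rw [max_lt_iff, div_lt_iff₀ hε] at hK
  filter_upwards [eventually_ge_atTop (n r (K + 1))] with N hN
  obtain ⟨k, h1, h2, h3⟩ := loc hr _ _ hN
  obtain ⟨k, rfl⟩ : ∃ j, k = j + 1 := ⟨k - 1, by omega⟩
  have hk : (K : ℝ) ≤ k := by exact_mod_cast (by omega : K ≤ k)
  have m := main hr k q N h h0 (by exact_mod_cast q0) (by
    have : (k : ℝ) ≤ B r k := by exact_mod_cast B_ge hr k
    have : |(h : ℝ)| * q ^ 3 < B r k := by linarith [hK.1]
    exact_mod_cast this)
  have := pert (fun i => h * (Y r (k + 2) * r ^ i)) (fun i => h * (((x r)⁻¹ - Y r (k + 2)) * r ^ i)) N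
  simp only [← mul_add, ← add_mul, add_sub_cancel, abs_mul, abs_pow, Nat.abs_cast, ← mul_sum] at this
  have g : |(x r)⁻¹ - Y r (k + 2)| * ∑ i ∈ range N, (r : ℝ) ^ i ≤ 8 := by
    refine (mul_le_mul (y_tail hr _) ((geo hr N).trans ((sub_le_self _ zero_le_one).trans
      (pow_le_pow_right₀ (by exact_mod_cast (by omega : 1 ≤ r)) h3.le))) (by positivity)
      (by have := u_pos hr (k + 2); positivity)).trans_eq ?_
    unfold u; field_simp
  have g2 := mul_le_mul_of_nonneg_left g (abs_nonneg (h : ℝ))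
  have p1 : (1 : ℝ) ≤ p r (k + 1) := by exact_mod_cast (pos hr _).2
  have p2 : (p r (k + 1) : ℝ) * (4 * k) ≤ N := by
    have : p r (k + 1) * (4 * k) ≤ N := le_trans (Nat.mul_le_mul_left _ (by nlinarith [Nat.zero_le (k * s r (k + 1))])) h2
    exact_mod_cast this
  have a1 : 2 * N / (q : ℝ) ≤ ε / 2 * N := by
    rw [div_lt_iff₀ hε] at hq
    rw [div_le_iff₀ q0]; nlinarith [N.cast_nonneg (α := ℝ)]
  have a2 : q ^ 3 * (p r (k + 1) + 14 * |(h : ℝ)|) + 56 * |(h : ℝ)| ≤
      p r (k + 1) * (q ^ 3 * (1 + 14 * |(h : ℝ)|) + 56 * |(h : ℝ)|) := by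
    have := mul_le_mul_of_nonneg_right p1 (show 0 ≤ q ^ 3 * (14 * |(h : ℝ)|) + 56 * |(h : ℝ)| by positivity)
    linarith
  have a3 := mul_le_mul_of_nonneg_left (hK.2.le.trans (mul_le_mul_of_nonneg_right hk hε.le)) (zero_le_one.trans p1)
  have a4 := mul_le_mul_of_nonneg_left p2 hε.le
  have a5 := mul_nonneg hε.le N.cast_nonneg
  unfold U
  linarith

lemma za {i k : ℕ} (h : s r k ≤ i) (h2 : i + 2 ≤ n r k) : dig r (x r) i = r - 1 := by
  have r2 : (2 : ℝ) ≤ r := by exact_mod_cast hr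
  have t := tail hr k
  have key : ∀ j, s r k ≤ j → j + 1 ≤ n r k → ⌊x r * r ^ j⌋ = r ^ (j - s r k) * B r k - 1 := fun j a b => by
    have e1 : X r k * r ^ j = r ^ (j - s r k) * B r k := by
      rw [X, pow_sub₀ _ (by positivity) a]; field_simp
    have e2 : 2 * u r k * r ^ j ≤ 1 := by
      have : (r : ℝ) ^ j * 2 ≤ r ^ n r k :=
        le_trans (by rw [pow_succ]; gcongr) (pow_le_pow_right₀ (by linarith) b)
      rw [u, mul_one_div, div_mul_eq_mul_div, div_le_one (by positivity)]; linarith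
    have p : (0 : ℝ) < r ^ j := by positivity
    rw [Int.floor_eq_iff]
    push_cast
    constructor <;> nlinarith [mul_le_mul_of_nonneg_right t.2 p.le, mul_pos t.1 p]
  rw [dig, key _ h (by omega), key _ (by omega) h2, Nat.succ_sub h, pow_succ]; ring

lemma sparse : Tendsto (fun N : ℕ => (((range N).filter fun i => dig r (x r) i ≠ r - 1).card : ℝ) / N)
    atTop (𝓝 0) := by
  rw [Metric.tendsto_atTop]
  intro ε hε
  obtain ⟨K, hK⟩ := exists_nat_one_div_lt hε
  refine ⟨n r K, fun N hN => ?_⟩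
  obtain ⟨k, h3, h2, h1⟩ := loc hr _ _ hN
  have h4 : ((range N).filter fun i => dig r (x r) i ≠ r - 1) ⊆
      (range (s r k) ∪ Ico (n r k - 1) (n r k + s r k)) ∪ {N - 1} := fun i hi => by
    simp only [mem_filter, mem_range, mem_union, mem_Ico, mem_singleton] at hi ⊢
    by_contra c
    refine hi.2 ?_
    by_cases c1 : i + 2 ≤ n r k
    · exact za hr (by omega) c1
    · exact za hr (k := k + 1) (by rw [s_succ]; omega) (by omega)
  have h5 := (card_le_card h4).trans ((card_union_le _ _).trans (Nat.add_le_add_right (card_union_le _ _) _))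
  simp only [card_range, Nat.card_Ico, card_singleton] at h5
  have h6 := n_ge hr k
  have h7 := n_gt hr k
  have h8 : ((range N).filter fun i => dig r (x r) i ≠ r - 1).card * (K + 1) ≤ N := by
    calc _ ≤ (4 * (s r k + 1)) * (k + 1) := Nat.mul_le_mul (by omega) (by omega)
      _ ≤ _ := by nlinarith
  have h9 : (0 : ℝ) < N := by exact_mod_cast (by omega : 0 < N)
  rw [Real.dist_eq, sub_zero, abs_of_nonneg (by positivity)]
  refine lt_of_le_of_lt ?_ hK
  rw [div_le_div_iff₀ h9 (by positivity), one_mul]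
  exact_mod_cast h8

end Pool.Agent.H24.Nor
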