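import Mathlib

set_option autoImplicit false

namespace Pool.Agent.H24.OrdB

variable {X : Type} [NormedAddCommGroup X] [NormedSpace ℝ X]

/-- A closed cone. -/
structure IsCone (K : Set X) : Prop where
  closed : IsClosed K
  add : ∀ x ∈ K, ∀ y ∈ K, x + y ∈ K
  smul : ∀ c : ℝ, 0 ≤ c → ∀ x ∈ K, c • x ∈ K
  pointed : K ∩ -K = {0}

/-- The order given by the cone. -/
def Le (K : Set X) (x y : X) : Prop := y - x ∈ K

/-- `s` is the least upper bound of the family `x`. -/
def IsSup (K : Set X) {J : Type*} (x : J → X) (s : X) : Prop :=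
  (∀ j, Le K (x j) s) ∧ ∀ u, (∀ j, Le K (x j) u) → Le K s u

/-- The cone is normal. -/
def Normal (K : Set X) : Prop := ∃ c : ℝ, 0 < c ∧ ∀ x y, Le K 0 x → Le K x y → ‖x‖ ≤ c * ‖y‖

/-- Property (S): every increasing order bounded sequence has a supremum. -/
def PropS (K : Set X) : Prop := ∀ x : ℕ → X, (∀ n, Le K (x n) (x (n + 1))) →
  (∃ a b, ∀ n, Le K a (x n) ∧ Le K (x n) b) → ∃ s, IsSup K x s

end Pool.Agent.H24.OrdB
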