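import Pool.Agent.H24.OrdB

set_option autoImplicit false

namespace Pool.Agent.H24.OrdB

open Filter Topology BoundedContinuousFunction

variable {X : Type} [NormedAddCommGroup X] [NormedSpace ℝ X] {K : Set X}

lemma IsCone.zero (h : IsCone K) : (0 : X) ∈ K := (h.pointed.symm.subset rfl).1

lemma IsCone.eq_zero (h : IsCone K) {x : X} (h1 : x ∈ K) (h2 : -x ∈ K) : x = 0 :=
  h.pointed.subset ⟨h1, h2⟩

lemma IsCone.sum (h : IsCone K) {ι : Type} (s : Finset ι) (f : ι → X) (hf : ∀ i ∈ s, f i ∈ K) :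
    ∑ i ∈ s, f i ∈ K :=
  Finset.sum_induction f (· ∈ K) (fun a b ha hb => h.add a ha b hb) h.zero hf

lemma IsCone.trans (h : IsCone K) {x y z : X} (h1 : Le K x y) (h2 : Le K y z) : Le K x z := by
  have := h.add _ h1 _ h2
  unfold Le; convert this using 1; abel

lemma IsSup.unique (h : IsCone K) {x : ℕ → X} {s t : X} (hs : IsSup K x s) (ht : IsSup K x t) :
    s = t :=
  sub_eq_zero.mp (h.eq_zero (ht.2 s hs.1) (by rw [neg_sub]; exact hs.2 t ht.1))

lemma mono_of (h : IsCone K) {x : ℕ → X} (hx : ∀ n, Le K (x n) (x (n + 1))) {m n : ℕ} (hmn : m ≤ n) :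
    Le K (x m) (x n) := by
  induction n, hmn using Nat.le_induction with
  | base => simpa [Le] using h.zero
  | succ n _ ih => exact h.trans ih (hx n)

lemma IsSup.add (h : IsCone K) {x y : ℕ → X} {s t : X} (hs : IsSup K x s) (ht : IsSup K y t)
    (hx : ∀ n, Le K (x n) (x (n + 1))) (hy : ∀ n, Le K (y n) (y (n + 1))) :
    IsSup K (fun n => x n + y n) (s + t) := by
  refine ⟨fun n => ?_, fun u hu => ?_⟩
  · have := h.add _ (hs.1 n) _ (ht.1 n)
    unfold Le; convert this using 1; dsimp only; abel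
  · have h1 : ∀ m, Le K (y m) (u - s) := by
      intro m
      have : Le K s (u - y m) := hs.2 _ fun n => by
        have := h.add _ (h.add _ (mono_of h hx (le_max_left n m)) _
          (mono_of h hy (le_max_right n m))) _ (hu (max n m))
        unfold Le; convert this using 1; dsimp only; abel
      unfold Le at *; convert this using 1; abel
    have := ht.2 _ h1
    unfold Le at *; convert this using 1; abel

lemma IsSup.smul (h : IsCone K) {x : ℕ → X} {s : X} (hs : IsSup K x s) {c : ℝ} (hc : 0 < c) :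
    IsSup K (fun n => c • x n) (c • s) := by
  refine ⟨fun n => ?_, fun u hu => ?_⟩
  · have := h.smul c hc.le _ (hs.1 n)
    unfold Le; rwa [smul_sub] at this
  · have := h.smul c hc.le _ (hs.2 (c⁻¹ • u) fun n => by
      have := h.smul c⁻¹ (by positivity) _ (hu n)
      unfold Le; simpa [smul_sub, smul_smul, hc.ne'] using this)
    unfold Le; simpa [smul_sub, smul_smul, hc.ne'] using this

/-- partial sums -/
def ps (d : ℕ → X) (a : ℕ → ℝ) (n : ℕ) : X := ∑ k ∈ Finset.range n, a k • d k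

lemma ps_inc (h : IsCone K) {d : ℕ → X} (hd : ∀ k, d k ∈ K) {a : ℕ → ℝ} (ha : ∀ k, 0 ≤ a k) (n : ℕ) :
    Le K (ps d a n) (ps d a (n + 1)) := by
  simpa [Le, ps, Finset.sum_range_succ] using h.smul _ (ha n) _ (hd n)

lemma exists_T [CompleteSpace X] (h : IsCone K) (hS : PropS K) (d : ℕ → X) (hd : ∀ k, d k ∈ K)
    (y : X) (hy : ∀ n, Le K (∑ k ∈ Finset.range n, d k) y) :
    ∃ T : (ℕ →ᵇ ℝ) →L[ℝ] X, ∀ (k : ℕ) (a : ℕ →ᵇ ℝ), a k = 1 → (∀ j, j ≠ k → a j = 0) → T a = d k := by
  have ex : ∀ a : ℕ →ᵇ ℝ, ∃ s, (∀ k, 0 ≤ a k) → IsSup K (ps d a) s := by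
    intro a
    by_cases ha : ∀ k, 0 ≤ a k
    · obtain ⟨s, hs⟩ := hS (ps d a) (ps_inc h hd ha) ⟨0, ‖a‖ • y, fun n => ⟨by
        simpa [Le, ps] using h.sum _ _ fun k _ => h.smul _ (ha k) _ (hd k), by
        have h1 := h.sum (Finset.range n) (fun k => (‖a‖ - a k) • d k) fun k _ =>
          h.smul _ (sub_nonneg.mpr (a.apply_le_norm k)) _ (hd k)
        have h2 := h.add _ h1 _ (h.smul _ (norm_nonneg a) _ (hy n))
        unfold Le ps; convert h2 using 1
        simp only [sub_smul, Finset.sum_sub_distrib, smul_sub, Finset.smul_sum]; abel⟩⟩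
      exact ⟨s, fun _ => hs⟩
    · exact ⟨0, fun hh => (ha hh).elim⟩
  choose P hP using ex
  have Padd : ∀ a b : ℕ →ᵇ ℝ, (∀ k, 0 ≤ a k) → (∀ k, 0 ≤ b k) → P (a + b) = P a + P b := by
    intro a b ha hb
    refine (hP (a + b) fun k => add_nonneg (ha k) (hb k)).unique h ?_
    have := (hP a ha).add h (hP b hb) (ps_inc h hd ha) (ps_inc h hd hb)
    convert this using 1
    funext n; simp [ps, add_smul, Finset.sum_add_distrib]
  have Psmul : ∀ (c : ℝ) (a : ℕ →ᵇ ℝ), 0 < c → (∀ k, 0 ≤ a k) → P (c • a) = c • P a := by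
    intro c a hc ha
    refine (hP (c • a) fun k => mul_nonneg hc.le (ha k)).unique h ?_
    convert (hP a ha).smul h hc using 1
    funext n; simp [ps, Finset.smul_sum, smul_smul]
  have Ppos : ∀ a : ℕ →ᵇ ℝ, (∀ k, 0 ≤ a k) → P a ∈ K := fun a ha => by
    simpa [Le, ps] using (hP a ha).1 0
  let pp : (ℕ →ᵇ ℝ) → (ℕ →ᵇ ℝ) := fun a => a + const ℕ ‖a‖
  have pp0 : ∀ a k, 0 ≤ pp a k := fun a k => by
    simpa [pp] using neg_le_iff_add_nonneg.mp (a.neg_norm_le_apply k)
  have c0 : ∀ (a : ℕ →ᵇ ℝ) k, 0 ≤ const ℕ ‖a‖ k := fun a k => norm_nonneg a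
  let T0 : (ℕ →ᵇ ℝ) → X := fun a => P (pp a) - P (const ℕ ‖a‖)
  have Tsub : ∀ b c : ℕ →ᵇ ℝ, (∀ k, 0 ≤ b k) → (∀ k, 0 ≤ c k) → T0 (b - c) = P b - P c := by
    intro b c hb hc
    have e1 := Padd _ _ (pp0 (b - c)) hc
    have e2 := Padd _ _ hb (c0 (b - c))
    rw [show pp (b - c) + c = b + const ℕ ‖b - c‖ by simp only [pp]; abel, e2] at e1
    simp only [T0]
    rw [sub_eq_sub_iff_add_eq_add, e1]
  have dec : ∀ a, a = pp a - const ℕ ‖a‖ := fun a => by simp [pp]
  have Tadd : ∀ a b, T0 (a + b) = T0 a + T0 b := by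
    intro a b
    have := Tsub (pp a + pp b) (const ℕ ‖a‖ + const ℕ ‖b‖) (fun k => add_nonneg (pp0 a k) (pp0 b k))
      (fun k => add_nonneg (c0 a k) (c0 b k))
    rw [Padd _ _ (pp0 a) (pp0 b), Padd _ _ (c0 a) (c0 b),
      show pp a + pp b - (const ℕ ‖a‖ + const ℕ ‖b‖) = a + b by simp only [pp]; abel] at this
    rw [this]; simp only [T0]; abel
  have T00 : T0 0 = 0 := by simp [T0, pp]
  have Tneg : ∀ a, T0 (-a) = -T0 a := fun a => by
    have := Tadd a (-a); rw [add_neg_cancel, T00] at this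
    exact (neg_eq_of_add_eq_zero_right this.symm).symm
  have Tsm : ∀ (c : ℝ) a, 0 < c → T0 (c • a) = c • T0 a := by
    intro c a hc
    have := Tsub (c • pp a) (c • const ℕ ‖a‖) (fun k => mul_nonneg hc.le (pp0 a k))
      (fun k => mul_nonneg hc.le (c0 a k))
    rw [show c • pp a - c • const ℕ ‖a‖ = c • a by ext; simp [pp], Psmul _ _ hc (pp0 a),
      Psmul _ _ hc (c0 a), ← smul_sub] at this
    exact this
  let T1 : (ℕ →ᵇ ℝ) →ₗ[ℝ] X :=
    { toFun := T0
      map_add' := Tadd
      map_smul' := fun c a => by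
        rcases lt_trichotomy c 0 with hc | rfl | hc
        · have := Tsm (-c) a (by linarith)
          rw [show -c • a = -(c • a) by ext; simp, Tneg, neg_smul] at this
          exact neg_injective this
        · simp [T00]
        · exact Tsm c a hc }
  have P0 : P 0 = 0 := by simpa using Padd 0 0 (by simp) (by simp)
  have TP : ∀ a : ℕ →ᵇ ℝ, (∀ k, 0 ≤ a k) → T1 a = P a := fun a ha => by
    have := Tsub a 0 ha (by simp)
    rwa [sub_zero, P0, sub_zero] at this
  have hc : Continuous T1 := by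
    refine T1.continuous_of_seq_closed_graph fun u a z hu hz => ?_
    have n0 : Tendsto (fun n => ‖u n - a‖ • T1 (const ℕ 1)) atTop (𝓝 0) := by
      simpa using (tendsto_iff_norm_sub_tendsto_zero.mp hu).smul_const (T1 (const ℕ 1))
    have k1 : z - T1 a ∈ K := by
      refine h.closed.mem_of_tendsto (by simpa using (hz.sub_const (T1 a)).add n0)
        (Eventually.of_forall fun n => ?_)
      have := Ppos _ (pp0 (u n - a))
      rw [← TP _ (pp0 _)] at this
      convert this using 1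
      simp only [pp, map_add, map_sub, ← map_smul]
      congr 2; ext; simp
    have k2 : -(z - T1 a) ∈ K := by
      refine h.closed.mem_of_tendsto (by simpa using (hz.sub_const (T1 a)).neg.add n0)
        (Eventually.of_forall fun n => ?_)
      have := Ppos _ (pp0 (a - u n))
      rw [← TP _ (pp0 _)] at this
      convert this using 1
      simp only [pp, map_add, map_sub, ← map_smul, norm_sub_rev a]
      congr 2; ext; simp
    exact sub_eq_zero.mp (h.eq_zero k1 k2)
  refine ⟨⟨T1, hc⟩, fun k a h1 h2 => ?_⟩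
  have ha : ∀ j, 0 ≤ a j := fun j => by by_cases e : j = k <;> simp [e, h1, h2]
  have e : ∀ n, k < n → ps d a n = d k := fun n hn => by
    rw [ps, Finset.sum_eq_single k (fun j _ hj => by simp [h2 j hj]) (by simp [hn]), h1, one_smul]
  refine (TP a ha).trans ((hP a ha).unique h ⟨fun n => ?_, fun u hu => e _ (Nat.lt_succ_self k) ▸ hu _⟩)
  rw [← e (max n (k + 1)) (by omega)]
  exact mono_of h (ps_inc h hd ha) (le_max_left _ _)

/-- indicator sequence -/
noncomputable def ind (A : Set ℕ) : ℕ →ᵇ ℝ :=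
  ofNormedAddCommGroupDiscrete (A.indicator 1) 1 fun k => by
    by_cases h : k ∈ A <;> simp [h]

lemma ind_apply (A : Set ℕ) (k : ℕ) : ind A k = A.indicator 1 k := rfl

theorem normal_of [CompleteSpace X] (h : IsCone K) (hS : PropS K) : Normal K := by
  by_contra hn
  have : ∀ n : ℕ, ∃ x y, x ∈ K ∧ Le K x y ∧ ‖y‖ ≤ (1 / 2) ^ n ∧ (n : ℝ) < ‖x‖ := by
    intro n
    simp only [Normal, not_exists, not_and, not_forall, not_le] at hn
    obtain ⟨x, y, h1, h2, h3⟩ := hn ((n + 1) * 2 ^ n) (by positivity)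
    have h1 : x ∈ K := by simpa [Le] using h1
    have hx : 0 < ‖x‖ := lt_of_le_of_lt (by positivity) h3
    refine ⟨((n + 1) / ‖x‖) • x, ((n + 1) / ‖x‖) • y, h.smul _ (by positivity) _ h1, ?_, ?_, ?_⟩
    · have := h.smul ((n + 1) / ‖x‖) (by positivity) _ h2
      unfold Le; rwa [smul_sub] at this
    · rw [norm_smul, Real.norm_of_nonneg (by positivity), one_div, inv_pow]
      field_simp; nlinarith
    · rw [norm_smul, Real.norm_of_nonneg (by positivity), div_mul_cancel₀ _ hx.ne']; linarith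
  choose x y h1 h2 h3 h4 using this
  have sy : Summable y := Summable.of_norm_bounded summable_geometric_two h3
  have yK : ∀ n, y n ∈ K := fun n => by simpa using h.add _ (h2 n) _ (h1 n)
  obtain ⟨T, hT⟩ := exists_T h hS x h1 (∑' n, y n) fun n => by
    refine h.closed.mem_of_tendsto (sy.hasSum.tendsto_sum_nat.sub_const _) ?_
    filter_upwards [eventually_ge_atTop n] with m hm
    have a1 : Le K (∑ k ∈ Finset.range n, x k) (∑ k ∈ Finset.range n, y k) := by
      unfold Le; rw [← Finset.sum_sub_distrib]; exact h.sum _ _ fun k _ => h2 k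
    exact h.trans a1 (mono_of h (x := fun n => ∑ k ∈ Finset.range n, y k)
      (fun n => by simpa [Le, Finset.sum_range_succ] using yK n) hm)
  obtain ⟨n, hn⟩ := exists_nat_ge ‖T‖
  have e := hT n (ind {n}) (by simp [ind_apply]) (fun j hj => by simp [ind_apply, hj])
  have b : ‖ind {n}‖ ≤ 1 := (norm_le zero_le_one).mpr fun k => by
    by_cases hk : k = n <;> simp [ind_apply, hk]
  have := T.le_of_opNorm_le_of_le hn b
  rw [e] at this
  linarith [h4 n]

lemma rosenthal (v : ℕ → Set ℕ → ℝ) (ε : ℝ)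
    (hv : ∀ k A B C, A ⊆ C → B ⊆ C → Disjoint A B → v k A + v k B ≤ v k C) (h0 : ∀ k A, 0 ≤ v k A) :
    ∀ (m : ℕ) (N : Set ℕ), N.Infinite → (∀ k ∈ N, v k N < m * ε) →
      ∃ M : Set ℕ, M.Infinite ∧ ∀ k ∈ M, v k (M \ {k}) < ε := by
  intro m
  induction m with
  | zero =>
    intro N hN h
    obtain ⟨k, hk⟩ := hN.nonempty
    have := h k hk
    have := h0 k N
    simp at *; linarith
  | succ m ih =>
    intro N hN h
    by_contra hc
    push Not at hc
    let f : ℕ × ℕ ↪ ℕ := Nat.pairEquiv.toEmbedding.trans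
      ((hN.natEmbedding N).trans (Function.Embedding.subtype _))
    have fN : ∀ p, f p ∈ N := fun p => (hN.natEmbedding N _).2
    have hM : ∀ p, (Set.range fun j => f (p, j)).Infinite := fun p =>
      Set.infinite_range_of_injective fun a b e => by simpa using f.injective e
    choose k hk hk' using fun p => hc _ (hM p)
    choose j hj using hk
    have hj : ∀ p, k p = f (p, j p) := fun p => (hj p).symm
    refine absurd (ih (Set.range k) (Set.infinite_range_of_injective fun a b e => by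
      rw [hj, hj] at e; exact congrArg Prod.fst (f.injective e)) ?_) (by push Not; exact hc)
    rintro _ ⟨p, rfl⟩
    have := hv (k p) (Set.range k) ((Set.range fun j => f (p, j)) \ {k p}) N
      (by rintro _ ⟨q, rfl⟩; rw [hj]; exact fN _) (by rintro _ ⟨⟨q, rfl⟩, _⟩; exact fN _) (by
        rw [Set.disjoint_left]
        rintro _ ⟨q, rfl⟩ ⟨⟨i, hi⟩, h2⟩
        have : p = q := by rw [hj] at hi; exact congrArg Prod.fst (f.injective hi)
        exact h2 (by rw [this]; rfl))
    have h3 := h (k p) (by rw [hj]; exact fN _)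
    have := hk' p
    push_cast at h3
    linarith

theorem conv_of [CompleteSpace X] [TopologicalSpace.SeparableSpace X] (h : IsCone K) (hS : PropS K)
    (x : ℕ → X) (hx : ∀ n, Le K (x n) (x (n + 1))) (b : X) (hb : ∀ n, Le K (x n) b) :
    ∃ s, Tendsto x atTop (𝓝 s) := by
  apply cauchySeq_tendsto_of_complete
  by_contra hc
  rw [Metric.cauchySeq_iff'] at hc
  push Not at hc
  obtain ⟨ε, hε, hc⟩ := hc
  choose g g1 g2 using hc
  let n : ℕ → ℕ := fun k => g^[k] 0
  have n1 : ∀ k, n (k + 1) = g (n k) := fun k => Function.iterate_succ_apply' _ _ _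
  let d : ℕ → X := fun k => x (n (k + 1)) - x (n k)
  have hd : ∀ k, d k ∈ K := fun k => mono_of h hx (by rw [n1]; exact g1 _)
  have hd' : ∀ k, ε ≤ ‖d k‖ := fun k => by simpa [d, n1, dist_eq_norm] using g2 (n k)
  obtain ⟨T, hT⟩ := exists_T h hS d hd (b - x 0) fun m => by
    have := hb (n m)
    unfold Le at *
    rw [Finset.sum_range_sub (fun k => x (n k))]
    simpa [n] using this
  choose f f1 f2 using fun k => exists_dual_vector'' ℝ (d k)
  let S : Set ℕ → Set (ℕ →ᵇ ℝ) := fun A => {a | ‖a‖ ≤ 1 ∧ ∀ j, j ∉ A → a j = 0}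
  have S0 : ∀ A, 0 ∈ S A := fun A => by simp [S]
  have bd : ∀ k A, ∀ a ∈ S A, f k (T a) ≤ ‖T‖ := fun k A a ha => by
    have := (f k).le_of_opNorm_le_of_le (f1 k) (T.le_of_opNorm_le_of_le le_rfl ha.1)
    linarith [le_abs_self (f k (T a)), Real.norm_eq_abs (f k (T a))]
  let v : ℕ → Set ℕ → ℝ := fun k A => sSup ((fun a => f k (T a)) '' S A)
  have vle : ∀ k A, ∀ a ∈ S A, f k (T a) ≤ v k A := fun k A a ha =>
    le_csSup ⟨‖T‖, by rintro _ ⟨a, ha, rfl⟩; exact bd k A a ha⟩ ⟨a, ha, rfl⟩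
  have lev : ∀ k A c, (∀ a ∈ S A, f k (T a) ≤ c) → v k A ≤ c := fun k A c hc =>
    csSup_le ⟨_, 0, S0 A, rfl⟩ (by rintro _ ⟨a, ha, rfl⟩; exact hc a ha)
  obtain ⟨m, hm⟩ := exists_nat_gt (‖T‖ / (ε / 2))
  rw [div_lt_iff₀ (by positivity)] at hm
  obtain ⟨M, hM, hM'⟩ := rosenthal v (ε / 2) (fun k A B C hA hB hd => by
      have : ∀ b ∈ S B, f k (T b) ≤ v k C - v k A := fun b hb => by
        have := lev k A (v k C - f k (T b)) fun a ha => by
          have := vle k C (a + b) ⟨(norm_le zero_le_one).mpr fun j => by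
            by_cases hj : j ∈ A
            · simpa [hb.2 j (Set.disjoint_left.mp hd hj)] using (a.norm_coe_le_norm j).trans ha.1
            · simpa [ha.2 j hj] using (b.norm_coe_le_norm j).trans hb.1,
            fun j hj => by simp [ha.2 j fun e => hj (hA e), hb.2 j fun e => hj (hB e)]⟩
          simp only [map_add] at this
          linarith
        linarith
      linarith [lev k B _ this])
    (fun k A => by simpa using vle k A 0 (S0 A)) m Set.univ Set.infinite_univ
    (fun k _ => (lev k _ _ (bd k _)).trans_lt hm)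
  have sep : ∀ A B : Set ℕ, A ⊆ M → B ⊆ M → ∀ k ∈ A, k ∉ B → ε / 2 < ‖T (ind A) - T (ind B)‖ := by
    intro A B hA hB k k1 k2
    have e := hT k (ind {k}) (by simp [ind_apply]) (fun j hj => by simp [ind_apply, hj])
    have h1 := vle k (M \ {k}) (ind {k} - (ind A - ind B)) ⟨(norm_le zero_le_one).mpr fun j => by
      by_cases hj : j = k
      · simp [ind_apply, hj, k1, k2]
      · by_cases j1 : j ∈ A <;> by_cases j2 : j ∈ B <;> simp [ind_apply, hj, j1, j2], fun j hj => by
      by_cases hj' : j = k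
      · simp [ind_apply, hj', k1, k2]
      · have : j ∉ M := fun e => hj ⟨e, hj'⟩
        simp [ind_apply, hj', show j ∉ A from fun e => this (hA e), show j ∉ B from fun e => this (hB e)]⟩
    have h2 := hM' k (hA k1)
    have h3 := (f k).le_of_opNorm_le_of_le (f1 k) (le_refl ‖T (ind A) - T (ind B)‖)
    have h4 := f2 k
    have h5 := hd' k
    have h6 := le_abs_self (f k (T (ind A) - T (ind B)))
    rw [map_sub T, map_sub T, e, map_sub (f k), h4] at h1
    simp only [Real.norm_eq_abs, RCLike.ofReal_real_eq_id, id] at *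
    linarith
  let e : ℕ ↪ ℕ := (hM.natEmbedding M).trans (Function.Embedding.subtype _)
  have eM : ∀ A : Set ℕ, e '' A ⊆ M := by rintro A _ ⟨i, _, rfl⟩; exact (hM.natEmbedding M i).2
  have cnt : Countable (Set ℕ) := by
    refine Pairwise.countable_of_isOpen_disjoint
      (s := fun A => Metric.ball (T (ind (e '' A))) (ε / 4)) (fun A B hAB => ?_)
      (fun _ => Metric.isOpen_ball) fun _ => Metric.nonempty_ball.mpr (by positivity)
    apply Metric.ball_disjoint_ball
    rw [dist_eq_norm]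
    by_cases h1 : A ⊆ B
    · obtain ⟨k, k1, k2⟩ := Set.not_subset.mp fun h2 : B ⊆ A => hAB (h1.antisymm h2)
      have := sep _ _ (eM B) (eM A) (e k) ⟨k, k1, rfl⟩ (by simpa using k2)
      rw [norm_sub_rev]; linarith
    · obtain ⟨k, k1, k2⟩ := Set.not_subset.mp h1
      have := sep _ _ (eM A) (eM B) (e k) ⟨k, k1, rfl⟩ (by simpa using k2)
      linarith
  obtain ⟨F, hF⟩ := exists_surjective_nat (Set ℕ)
  exact Function.cantor_surjective F hF

end Pool.Agent.H24.OrdB
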