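import Mathlib

set_option autoImplicit false
open Finsupp

namespace Pool.Agent.H24.PG

def Ball {G : Type} [Group G] (S : Finset G) (n : ℕ) (g : G) : Prop :=
  ∃ l : List G, l.length ≤ n ∧ (∀ x ∈ l, x ∈ S ∨ x⁻¹ ∈ S) ∧ l.prod = g

lemma ball_cons {G : Type} [Group G] {S : Finset G} {n : ℕ} {g s : G} (hs : s ∈ S ∨ s⁻¹ ∈ S)
    (h : Ball S n g) : Ball S (n + 1) (s * g) := by
  obtain ⟨l, h1, h2, h3⟩ := h
  refine ⟨s :: l, by simpa using h1, ?_, by simp [h3]⟩
  intro x hx
  rcases List.mem_cons.1 hx with rfl | hx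
  · exact hs
  · exact h2 x hx

lemma ball_mono {G : Type} [Group G] {S : Finset G} {n m : ℕ} {g : G} (h : Ball S n g)
    (hnm : n ≤ m) : Ball S m g := by
  obtain ⟨l, h1, h2, h3⟩ := h
  exact ⟨l, h1.trans hnm, h2, h3⟩

lemma ball_finite {G : Type} [Group G] (S : Finset G) (n : ℕ) : {g | Ball S n g}.Finite := by
  induction n with
  | zero =>
    refine (Set.finite_singleton 1).subset ?_
    rintro g ⟨l, h1, -, rfl⟩
    have : l = [] := List.length_eq_zero_iff.1 (by omega)
    simp [this]
  | succ n ih =>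
    have hT : ((S : Set G) ∪ (S : Set G)⁻¹).Finite := S.finite_toSet.union S.finite_toSet.inv
    refine ((Set.finite_singleton 1).union (hT.image2 (· * ·) ih)).subset ?_
    rintro g ⟨l, h1, h2, rfl⟩
    cases l with
    | nil => simp
    | cons s l =>
      right
      refine ⟨s, h2 s (by simp), l.prod, ⟨l, by simpa using h1, fun x hx => h2 x (by simp [hx]),
        rfl⟩, by simp⟩

lemma exists_ball {G : Type} [Group G] (S : Finset G) (hgen : Subgroup.closure (S : Set G) = ⊤)
    (g : G) : ∃ n, Ball S n g := by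
  have hg : g ∈ Subgroup.closure (S : Set G) := by rw [hgen]; trivial
  have hg' : g ∈ Submonoid.closure ((S : Set G) ∪ (S : Set G)⁻¹) := by
    rw [← Subgroup.closure_toSubmonoid]; exact hg
  obtain ⟨l, h1, h2⟩ := Submonoid.exists_list_of_mem_closure hg'
  exact ⟨l.length, l, le_rfl, h1, h2⟩

@[ext] structure Wr (G : Type) where
  f : G →₀ ZMod 2
  g : G

section
variable {G : Type} [Group G]

noncomputable instance : Mul (Wr G) := ⟨fun a b => ⟨a.f + mapDomain (a.g * ·) b.f, a.g * b.g⟩⟩
noncomputable instance : One (Wr G) := ⟨⟨0, 1⟩⟩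
noncomputable instance : Inv (Wr G) := ⟨fun a => ⟨-mapDomain (a.g⁻¹ * ·) a.f, a.g⁻¹⟩⟩

@[simp] lemma mul_f (a b : Wr G) : (a * b).f = a.f + mapDomain (a.g * ·) b.f := rfl
@[simp] lemma mul_g (a b : Wr G) : (a * b).g = a.g * b.g := rfl
@[simp] lemma one_f : (1 : Wr G).f = 0 := rfl
@[simp] lemma one_g : (1 : Wr G).g = 1 := rfl
lemma inv_f (a : Wr G) : (a⁻¹).f = -mapDomain (a.g⁻¹ * ·) a.f := rfl
lemma inv_g (a : Wr G) : (a⁻¹).g = a.g⁻¹ := rfl

lemma md_one (f : G →₀ ZMod 2) : mapDomain (fun x => (1 : G) * x) f = f := by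
  have : (fun x => (1 : G) * x) = id := by funext x; simp
  rw [this, mapDomain_id]

noncomputable instance : Group (Wr G) := Group.ofLeftAxioms
  (fun a b c => by
    ext1
    · simp only [mul_f, mul_g, mapDomain_add, ← mapDomain_comp, add_assoc]
      congr 3
      funext x
      simp [mul_assoc]
    · simp [mul_assoc])
  (fun a => by
    ext1
    · simp only [mul_f, one_f, one_g, md_one, zero_add]
    · simp)
  (fun a => by
    ext1
    · simp [inv_f, inv_g]
    · simp [inv_g])

noncomputable def proj : Wr G →* G := MonoidHom.mk' (fun w => w.g) (fun _ _ => rfl)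

noncomputable def wmap {Q : Type} [Group Q] (π : G →* Q) : Wr G →* Wr Q :=
  MonoidHom.mk' (fun w => ⟨mapDomain π w.f, π w.g⟩) (fun a b => by
    ext1
    · simp only [mul_f, mapDomain_add, ← mapDomain_comp]
      congr 2
      funext x
      simp
    · simp)

instance [Finite G] : Finite (Wr G) :=
  Finite.of_injective (fun w : Wr G => ((w.f : G → ZMod 2), w.g)) (fun a b h => by
    simp only [Prod.mk.injEq] at h
    exact Wr.ext (DFunLike.coe_injective h.1) h.2)

lemma exists_normal (hRF : ∀ g : G, g ≠ 1 → ∃ N : Subgroup G, N.Normal ∧ N.index ≠ 0 ∧ g ∉ N)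
    (T : Finset G) : ∃ N : Subgroup G, N.Normal ∧ N.index ≠ 0 ∧ ∀ g ∈ T, g ∈ N → g = 1 := by
  classical
  induction T using Finset.induction_on with
  | empty => exact ⟨⊤, inferInstance, by simp, by simp⟩
  | insert a T _ ih =>
    obtain ⟨N, h1, h2, h3⟩ := ih
    by_cases ha : a = 1
    · refine ⟨N, h1, h2, fun g hg => ?_⟩
      rcases Finset.mem_insert.1 hg with rfl | hg
      · exact fun _ => ha
      · exact h3 g hg
    · obtain ⟨N', h4, h5, h6⟩ := hRF a ha
      refine ⟨N ⊓ N', inferInstance, Subgroup.index_inf_ne_zero h2 h5, fun g hg hN => ?_⟩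
      rcases Finset.mem_insert.1 hg with rfl | hg
      · exact absurd hN.2 h6
      · exact h3 g hg hN.1

lemma wr_RF (hRF : ∀ g : G, g ≠ 1 → ∃ N : Subgroup G, N.Normal ∧ N.index ≠ 0 ∧ g ∉ N)
    (w : Wr G) (hw : w ≠ 1) : ∃ N : Subgroup (Wr G), N.Normal ∧ N.index ≠ 0 ∧ w ∉ N := by
  classical
  obtain ⟨N, h1, h2, h3⟩ := exists_normal hRF
    (insert w.g (Finset.image₂ (fun x y => x⁻¹ * y) w.f.support w.f.support))
  have : N.FiniteIndex := ⟨h2⟩
  refine ⟨(wmap (QuotientGroup.mk' N)).ker, inferInstance, Subgroup.FiniteIndex.index_ne_zero,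
    fun h => hw ?_⟩
  rw [MonoidHom.mem_ker] at h
  have hf : mapDomain (QuotientGroup.mk' N) w.f = 0 := congrArg Wr.f h
  have hg : QuotientGroup.mk' N w.g = 1 := congrArg Wr.g h
  ext1
  · ext a
    by_cases ha : a ∈ w.f.support
    · have := mapDomain_apply' (w.f.support : Set G) (f := QuotientGroup.mk' N) w.f subset_rfl
        (fun x hx y hy hxy => by
          have h4 : x⁻¹ * y ∈ N := QuotientGroup.eq.1 hxy
          have := h3 _ (Finset.mem_insert_of_mem (Finset.mem_image₂_of_mem hx hy)) h4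
          exact inv_mul_eq_one.1 this) ha
      rw [hf] at this
      exact this.symm
    · simpa using ha
  · exact h3 _ (Finset.mem_insert_self _ _) ((QuotientGroup.eq_one_iff _).1 hg)

lemma wr_pow (w : Wr G) (m : ℕ) (h : w.g ^ m = 1) : w ^ (m * 2) = 1 := by
  have h1 : (w ^ m).g = 1 := by
    have := map_pow proj w m
    exact this.trans h
  rw [pow_mul, pow_two]
  ext1
  · rw [mul_f, h1, md_one]
    ext a
    simp [CharTwo.add_self_eq_zero]
  · simp [h1]

open Classical in
noncomputable def gens (S : Finset G) : Finset (Wr G) :=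
  Finset.image (fun p : ZMod 2 × G => (⟨single 1 p.1, p.2⟩ : Wr G)) (Finset.univ ×ˢ insert 1 S)

lemma mem_gens {S : Finset G} (e : ZMod 2) {s : G} (hs : s = 1 ∨ s ∈ S) :
    (⟨single 1 e, s⟩ : Wr G) ∈ gens S := by
  classical
  simp only [gens, Finset.mem_image]
  exact ⟨(e, s), by simpa using hs, rfl⟩

lemma of_mem_gens {S : Finset G} {w : Wr G} (h : w ∈ gens S) : w.g = 1 ∨ w.g ∈ S := by
  classical
  simp only [gens, Finset.mem_image] at h
  obtain ⟨p, hp, rfl⟩ := h
  simpa using hp

lemma gens_closure (S : Finset G) (hgen : Subgroup.closure (S : Set G) = ⊤) :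
    Subgroup.closure (gens S : Set (Wr G)) = ⊤ := by
  set H := Subgroup.closure (gens S : Set (Wr G))
  have h1 : ∀ g : G, (⟨0, g⟩ : Wr G) ∈ H := by
    intro g
    have hg : g ∈ Subgroup.closure (S : Set G) := by rw [hgen]; trivial
    induction hg using Subgroup.closure_induction with
    | mem x hx =>
      have := mem_gens (S := S) 0 (Or.inr hx)
      rw [single_zero] at this
      exact Subgroup.subset_closure this
    | one => exact H.one_mem
    | mul x y _ _ hx hy =>
      have := H.mul_mem hx hy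
      convert this using 1
      ext1 <;> simp
    | inv x _ hx =>
      have := H.inv_mem hx
      convert this using 1
      ext1 <;> simp [inv_f, inv_g]
  have h2 : ∀ f : G →₀ ZMod 2, (⟨f, 1⟩ : Wr G) ∈ H := by
    intro f
    induction f using Finsupp.induction_linear with
    | zero => exact H.one_mem
    | add f f' hf hf' =>
      have := H.mul_mem hf hf'
      convert this using 1
      ext1
      · simp only [mul_f, md_one]
      · simp
    | single a e =>
      have h3 : (⟨single 1 e, 1⟩ : Wr G) ∈ H :=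
        Subgroup.subset_closure (mem_gens (S := S) e (Or.inl rfl))
      have := H.mul_mem (H.mul_mem (h1 a) h3) (h1 a⁻¹)
      convert this using 1
      ext1 <;> simp
  rw [eq_top_iff]
  intro w _
  have := H.mul_mem (h2 w.f) (h1 w.g)
  convert this using 1
  ext1 <;> simp

lemma ball_proj {S : Finset G} {n : ℕ} {w : Wr G} (h : Ball (gens S) n w) : Ball S n w.g := by
  obtain ⟨l, h1, h2, rfl⟩ := h
  induction l generalizing n with
  | nil => exact ⟨[], by simp, by simp, rfl⟩
  | cons x l ih =>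
    obtain ⟨n, rfl⟩ : ∃ m, n = m + 1 := ⟨n - 1, by simp at h1; omega⟩
    have h3 := ih (n := n) (by simpa using h1) (fun y hy => h2 y (by simp [hy]))
    rw [List.prod_cons, mul_g]
    by_cases hx : x.g = 1
    · rw [hx, one_mul]; exact ball_mono h3 (Nat.le_succ n)
    · refine ball_cons ?_ h3
      rcases h2 x (by simp) with h | h
      · exact Or.inl ((of_mem_gens h).resolve_left hx)
      · exact Or.inr ((of_mem_gens h).resolve_left (by simpa [inv_g] using hx))

def Geo (S : Finset G) (l : List G) : Prop :=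
  (∀ x ∈ l, x ∈ S) ∧ ∀ m, Ball S m l.prod → l.length ≤ m

lemma geo_tail {S : Finset G} {s : G} {l : List G} (h : Geo S (s :: l)) : Geo S l := by
  refine ⟨fun x hx => h.1 x (by simp [hx]), fun m hm => ?_⟩
  have := h.2 (m + 1) (by
    rw [List.prod_cons]; exact ball_cons (Or.inl (h.1 s (by simp))) hm)
  simpa using this

lemma exists_geo [Infinite G] (S : Finset G) (hsym : ∀ s : G, s⁻¹ ∈ S → s ∈ S)
    (hgen : Subgroup.closure (S : Set G) = ⊤) (n : ℕ) : ∃ l, Geo S l ∧ l.length = n := by
  classical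
  obtain ⟨g, hg⟩ := (ball_finite S n).exists_notMem
  have hex := exists_ball S hgen g
  obtain ⟨l, h1, h2, h3⟩ := Nat.find_spec hex
  have hl : Geo S l := ⟨fun x hx => (h2 x hx).elim id (hsym x), fun m hm =>
    h1.trans (Nat.find_min' hex (h3 ▸ hm))⟩
  have hn : n ≤ l.length := by
    by_contra hc
    exact hg ⟨l, by omega, h2, h3⟩
  clear h1 h2 h3
  induction l with
  | nil => exact ⟨[], hl, by simp at hn; simp [hn]⟩
  | cons s l ih =>
    rcases hn.eq_or_lt with h | h
    · exact ⟨s :: l, hl, h.symm⟩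
    · exact ih (geo_tail hl) (by simpa [Nat.lt_succ_iff] using h)

lemma geo_count {S : Finset G} {l : List G} (h : Geo S l) :
    ∃ P : Finset (Wr G), P.card = 2 ^ l.length ∧ ∀ w ∈ P, Ball (gens S) l.length w ∧
      ∀ y ∈ w.f.support, Ball S l.length (y⁻¹ * l.prod) := by
  classical
  induction l with
  | nil => exact ⟨{1}, by simp, by simpa using ⟨[], by simp, by simp, rfl⟩⟩
  | cons s l ih =>
    obtain ⟨P, h1, h2⟩ := ih (geo_tail h)
    have hs : s ∈ S := h.1 s (by simp)
    have hval : ∀ (e : ZMod 2), ∀ w ∈ P, ((⟨single 1 e, s⟩ : Wr G) * w).f 1 = e := by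
      intro e w hw
      have h3 : s⁻¹ ∉ w.f.support := by
        intro h3
        have := h.2 _ (by simpa using (h2 w hw).2 _ h3)
        simp at this
      have h4 := mapDomain_apply (f := (s * ·)) (mul_right_injective s) w.f s⁻¹
      simp only [mul_inv_cancel] at h4
      simp [h4, notMem_support_iff.1 h3]
    refine ⟨Finset.image (fun p : ZMod 2 × Wr G => (⟨single 1 p.1, s⟩ : Wr G) * p.2)
      (Finset.univ ×ˢ P), ?_, ?_⟩
    · rw [Finset.card_image_of_injOn]
      · simp [h1, pow_succ, mul_comm]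
      · rintro ⟨e, w⟩ hw ⟨e', w'⟩ hw' hEq
        simp only [Finset.coe_product, Set.mem_prod, Finset.mem_coe] at hw hw'
        have h5 : e = e' := by
          rw [← hval e w hw.2, ← hval e' w' hw'.2]
          exact congrArg (fun u : Wr G => u.f 1) hEq
        subst h5
        exact Prod.ext rfl (mul_left_cancel hEq)
    · intro u hu
      obtain ⟨⟨e, w⟩, hw, rfl⟩ := Finset.mem_image.1 hu
      have hw' : w ∈ P := (Finset.mem_product.1 hw).2
      refine ⟨ball_cons (Or.inl (mem_gens e (Or.inr hs))) (h2 w hw').1, fun y hy => ?_⟩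
      rcases Finset.mem_union.1 (support_add hy) with h6 | h6
      · have : y = 1 := by simpa using support_single_subset h6
        subst this
        exact ⟨s :: l, le_rfl, fun x hx => Or.inl (h.1 x hx), by simp⟩
      · obtain ⟨y', hy', rfl⟩ := Finset.mem_image.1 (mapDomain_support h6)
        have := ball_mono ((h2 w hw').2 y' hy') (Nat.le_succ _)
        simpa [mul_assoc] using this

lemma wr_growth [Infinite G] (S : Finset G) (hsym : ∀ s : G, s⁻¹ ∈ S → s ∈ S)
    (hgen : Subgroup.closure (S : Set G) = ⊤) (n : ℕ) :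
    2 ^ n ≤ {w | Ball (gens S) n w}.ncard := by
  obtain ⟨l, hl, rfl⟩ := exists_geo S hsym hgen n
  obtain ⟨P, h1, h2⟩ := geo_count hl
  rw [← h1, ← Set.ncard_coe_finset]
  exact Set.ncard_le_ncard (fun w hw => (h2 w hw).1) (ball_finite _ _)

instance [Infinite G] : Infinite (Wr G) :=
  Infinite.of_surjective (fun w : Wr G => w.g) (fun g => ⟨⟨0, g⟩, rfl⟩)

end

end Pool.Agent.H24.PG
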