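import Pool.Agent.H24.PG1

set_option autoImplicit false

namespace Pool.Agent.H24.PG

abbrev A : Type := Fin 16 → ZMod 2
abbrev L : Type := Option (Fin 16)

def sp : L → A
  | none => 0
  | some i => fun k => if (k.val / 4 = i.val / 4) ↔ (k.val % 4 = i.val % 4) then 0 else 1

lemma hsp : ∀ l l' : L, l ≠ l' → 6 ≤ hammingDist (sp l) (sp l') := by decide +kernel

lemma sp_inj {l l' : L} (h : sp l = sp l') : l = l' := by
  by_contra hc
  have := hsp l l' hc
  rw [h, hammingDist_self] at this
  omega

def rt (a : A) : List A → List A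
  | [] => []
  | x :: v => (x + a) :: v

open Classical in
noncomputable def lab (x : A) : Option L := if h : ∃ l, sp l = x then some h.choose else none

lemma lab_sp (l : L) : lab (sp l) = some l := by
  have h : ∃ l', sp l' = sp l := ⟨l, rfl⟩
  rw [lab, dif_pos h, sp_inj h.choose_spec]

lemma lab_cases (x : A) : lab x = none ∨ ∃ l, x = sp l := by
  by_cases h : ∃ l, sp l = x
  · obtain ⟨l, hl⟩ := h
    exact Or.inr ⟨l, hl.symm⟩
  · exact Or.inl (by rw [lab, dif_neg h])

noncomputable def bf : List A → List A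
  | [] => []
  | x :: v => x :: (match lab x with
    | none => v
    | some none => bf v
    | some (some i) => rt (Pi.single i 1) v)

lemma add_self (a : A) : a + a = 0 := by
  funext i
  exact CharTwo.add_self_eq_zero (a i)

lemma rt_inv (a : A) : Function.Involutive (rt a) := by
  intro v
  cases v with
  | nil => rfl
  | cons x v => simp [rt, add_assoc, add_self]

lemma bf_inv : Function.Involutive bf := by
  intro v
  induction v with
  | nil => rfl
  | cons x v ih =>
    simp only [bf]
    rcases lab x with _ | _ | i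
    · rfl
    · simp only [ih]
    · simp only [rt_inv _ v]

noncomputable def rtp (a : A) : Equiv.Perm (List A) := (rt_inv a).toPerm

noncomputable def gen : L → Equiv.Perm (List A)
  | none => bf_inv.toPerm
  | some i => rtp (Pi.single i 1)

lemma gen_sq (l : L) : gen l * gen l = 1 := by
  cases l with
  | none => exact Equiv.ext bf_inv
  | some i => exact Equiv.ext (rt_inv _)

noncomputable def lam (x : A) : Equiv.Perm (List A) :=
  match lab x with
  | none => 1
  | some l => gen l

lemma gen_none (x : A) (v : List A) : gen none (x :: v) = x :: lam x v := by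
  show bf (x :: v) = _
  simp only [bf, lam]
  rcases lab x with _ | _ | i <;> rfl

lemma rtp_cons (a x : A) (v : List A) : rtp a (x :: v) = (x + a) :: v := rfl

lemma gen_some (i : Fin 16) (x : A) (v : List A) :
    gen (some i) (x :: v) = (x + Pi.single i 1) :: v := rfl

lemma lam_sp (l : L) : lam (sp l) = gen l := by simp only [lam, lab_sp]

lemma lam_cases (x : A) : lam x = 1 ∨ ∃ l, x = sp l := by
  rcases lab_cases x with h | h
  · left; simp only [lam, h]
  · exact Or.inr h

lemma gen_len (l : L) (v : List A) : (gen l v).length = v.length := by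
  induction v generalizing l with
  | nil => cases l <;> rfl
  | cons x v ih =>
    cases l with
    | some i => simp [gen_some]
    | none =>
      rw [gen_none]
      rcases lam_cases x with h | ⟨l, rfl⟩
      · simp [h]
      · simp [lam_sp, ih]

noncomputable def ev (w : List L) : Equiv.Perm (List A) := (w.map gen).prod

lemma ev_cons (l : L) (w : List L) : ev (l :: w) = gen l * ev w := by simp [ev]

lemma ev_len (w : List L) (v : List A) : (ev w v).length = v.length := by
  induction w with
  | nil => rfl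
  | cons l w ih => rw [ev_cons, Equiv.Perm.mul_apply, gen_len, ih]

def sh : List L → A
  | [] => 0
  | none :: w => sh w
  | some i :: w => sh w + Pi.single i 1

lemma sh_append (w w' : List L) : sh (w ++ w') = sh w + sh w' := by
  induction w with
  | nil => simp [sh]
  | cons l w ih => cases l <;> simp [sh, ih, add_right_comm]

lemma hd_single (y : A) (i : Fin 16) : hammingDist (y + Pi.single i 1) y ≤ 1 := by
  unfold hammingDist
  refine (Finset.card_le_card (t := {i}) ?_).trans (by simp)
  intro k hk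
  by_contra hc
  have : k ≠ i := by simpa using hc
  simp [Pi.single_eq_of_ne this] at hk

lemma sec (w : List L) (x : A) : ∃ σ : Equiv.Perm (List A),
    (∀ v, ev w (x :: v) = (x + sh w) :: σ v) ∧
    (σ = 1 ∨ ∃ (l : L) (u : List L), (σ = ev u ∨ σ = gen l * ev u) ∧
      6 * u.length + hammingDist (x + sh w) (sp l) ≤ w.length) := by
  induction w with
  | nil => exact ⟨1, fun v => by simp [ev, sh], Or.inl rfl⟩
  | cons a w ih =>
    obtain ⟨σ, h1, h2⟩ := ih
    cases a with
    | some i =>
      refine ⟨σ, fun v => by rw [ev_cons, Equiv.Perm.mul_apply, h1, gen_some, sh, add_assoc], ?_⟩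
      rcases h2 with h2 | ⟨l, u, h2, h3⟩
      · exact Or.inl h2
      · refine Or.inr ⟨l, u, h2, ?_⟩
        have h4 := hammingDist_triangle (x + sh w + Pi.single i 1) (x + sh w) (sp l)
        have h5 := hd_single (x + sh w) i
        simp only [sh, ← add_assoc, List.length_cons]
        omega
    | none =>
      refine ⟨lam (x + sh w) * σ, fun v => by
        rw [ev_cons, Equiv.Perm.mul_apply, h1, gen_none, sh, Equiv.Perm.mul_apply], ?_⟩
      simp only [sh, List.length_cons]
      rcases lam_cases (x + sh w) with h | ⟨q, hq⟩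
      · rw [h, one_mul]
        rcases h2 with h2 | ⟨l, u, h2, h3⟩
        · exact Or.inl h2
        · exact Or.inr ⟨l, u, h2, by omega⟩
      · right
        rw [hq, lam_sp]
        rw [hq] at h2
        rcases h2 with h2 | ⟨l, u, h2, h3⟩
        · exact ⟨q, [], Or.inr (by simp [h2, ev]), by simp⟩
        · by_cases hql : q = l
          · subst hql
            refine ⟨q, u, ?_, by omega⟩
            rcases h2 with h2 | h2
            · exact Or.inr (by rw [h2])
            · exact Or.inl (by rw [h2, ← mul_assoc, gen_sq, one_mul])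
          · have h4 := hsp q l hql
            rcases h2 with h2 | h2
            · exact ⟨q, u, Or.inr (by rw [h2]), by simp; omega⟩
            · exact ⟨q, l :: u, Or.inr (by rw [h2, ev_cons]), by simp; omega⟩

lemma sec2 (w : List L) (x : A) : ∃ u : List L, 3 * u.length ≤ w.length + 3 ∧
    ∀ v, (ev w ^ 2) (x :: v) = x :: ev u v := by
  obtain ⟨σ, h1, h2⟩ := sec (w ++ w) x
  have h3 : ev (w ++ w) = ev w ^ 2 := by simp [ev, pow_two]
  rw [h3, sh_append, add_self, add_zero] at h1
  rw [List.length_append] at h2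
  rcases h2 with h2 | ⟨l, u, h2 | h2, h4⟩
  · exact ⟨[], by simp, fun v => by rw [h1, h2]; rfl⟩
  · exact ⟨u, by omega, fun v => by rw [h1, h2]⟩
  · exact ⟨l :: u, by simp; omega, fun v => by rw [h1, h2, ev_cons]⟩

lemma ev_pow (k : ℕ) : ∀ w : List L, 2 * w.length ≤ 3 ^ k + 1 → ev w ^ 2 ^ (k + 1) = 1 := by
  induction k with
  | zero =>
    intro w hw
    rcases w with _ | ⟨l, _ | ⟨l', w⟩⟩
    · simp [ev]
    · simp [ev, pow_two, gen_sq]
    · simp only [List.length_cons] at hw; omega
  | succ k ih =>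
    intro w hw
    ext1 v
    rw [pow_succ' 2 (k + 1), pow_mul]
    cases v with
    | nil =>
      have : ∀ m : ℕ, (ev w ^ m) [] = [] := by
        intro m
        induction m with
        | zero => rfl
        | succ m ih2 =>
          rw [pow_succ', Equiv.Perm.mul_apply, ih2]
          exact List.length_eq_zero_iff.1 (ev_len w [])
      rw [← pow_mul, this]
      rfl
    | cons x v =>
      obtain ⟨u, h1, h2⟩ := sec2 w x
      have h3 : ∀ m : ℕ, ((ev w ^ 2) ^ m) (x :: v) = x :: (ev u ^ m) v := by
        intro m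
        induction m with
        | zero => rfl
        | succ m ih2 => rw [pow_succ', Equiv.Perm.mul_apply, ih2, h2, pow_succ']; rfl
      have h4 : 3 ^ k % 2 = 1 := Nat.odd_iff.1 (Odd.pow (by decide))
      rw [h3, ih u (by rw [pow_succ] at hw; omega)]
      rfl

noncomputable def G0 : Subgroup (Equiv.Perm (List A)) := Subgroup.closure (Set.range gen)

noncomputable def gen' (l : L) : G0 := ⟨gen l, Subgroup.subset_closure ⟨l, rfl⟩⟩

open Classical in
noncomputable def S0 : Finset G0 := Finset.univ.image gen'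

lemma mem_S0 {s : G0} : s ∈ S0 ↔ ∃ l, gen' l = s := by
  classical
  simp [S0]

lemma S0_gen : Subgroup.closure (S0 : Set G0) = ⊤ := by
  have : (S0 : Set G0) = ((↑) : G0 → Equiv.Perm (List A)) ⁻¹' Set.range gen := by
    ext s
    simp only [Finset.mem_coe, mem_S0, Set.mem_preimage, Set.mem_range]
    exact ⟨fun ⟨l, h⟩ => ⟨l, congrArg Subtype.val h⟩, fun ⟨l, h⟩ => ⟨l, Subtype.ext h⟩⟩
  rw [this]
  exact Subgroup.closure_closure_coe_preimage

lemma S0_sym (s : G0) (h : s⁻¹ ∈ S0) : s ∈ S0 := by
  obtain ⟨l, hl⟩ := mem_S0.1 h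
  refine mem_S0.2 ⟨l, ?_⟩
  have h1 : gen' l * gen' l = 1 := Subtype.ext (gen_sq l)
  rw [← inv_inv s, ← hl]
  exact eq_inv_of_mul_eq_one_left h1

lemma ball_word {n : ℕ} {g : G0} (h : Ball S0 n g) : ∃ w : List L, w.length ≤ n ∧ ev w = g := by
  obtain ⟨l, h1, h2, rfl⟩ := h
  induction l generalizing n with
  | nil => exact ⟨[], by simp, rfl⟩
  | cons x l ih =>
    obtain ⟨w, h3, h4⟩ := ih (n := l.length) le_rfl (fun y hy => h2 y (by simp [hy]))
    obtain ⟨a, ha⟩ := mem_S0.1 ((h2 x (by simp)).elim id (S0_sym x))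
    refine ⟨a :: w, by simp at h1 ⊢; omega, ?_⟩
    rw [ev_cons, h4, List.prod_cons, ← ha]
    rfl

lemma ball_pow {n k : ℕ} {g : G0} (h : Ball S0 n g) (hn : 2 * n ≤ 3 ^ k + 1) :
    g ^ 2 ^ (k + 1) = 1 := by
  obtain ⟨w, h1, h2⟩ := ball_word h
  apply Subtype.ext
  rw [Subgroup.coe_pow, ← h2]
  exact ev_pow k w (by omega)

lemma G0_len (g : G0) (v : List A) : ((g : Equiv.Perm (List A)) v).length = v.length := by
  obtain ⟨n, hn⟩ := exists_ball S0 S0_gen g
  obtain ⟨w, -, h⟩ := ball_word hn
  rw [← h, ev_len]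

lemma G0_RF (g : G0) (hg : g ≠ 1) : ∃ N : Subgroup G0, N.Normal ∧ N.index ≠ 0 ∧ g ∉ N := by
  obtain ⟨v, hv⟩ : ∃ v, (g : Equiv.Perm (List A)) v ≠ v := by
    by_contra hc
    push Not at hc
    exact hg (Subtype.ext (Equiv.ext hc))
  have hfin : (MulAction.orbit G0 v).Finite := by
    refine (List.finite_length_eq A v.length).subset ?_
    rintro _ ⟨h, rfl⟩
    exact G0_len h v
  have : (MulAction.stabilizer G0 v).FiniteIndex := ⟨by
    rw [MulAction.index_stabilizer]
    exact Set.ncard_ne_zero_of_mem (MulAction.mem_orbit_self v) hfin⟩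
  exact ⟨(MulAction.stabilizer G0 v).normalCore, inferInstance,
    Subgroup.FiniteIndex.index_ne_zero, fun h => hv (Subgroup.normalCore_le _ h)⟩

lemma rtp_mem (a : A) : rtp a ∈ G0 := by
  have hadd : ∀ a b : A, rtp (a + b) = rtp b * rtp a := by
    intro a b
    ext1 v
    cases v with
    | nil => rfl
    | cons x v => simp [rtp_cons, add_assoc]
  have h0 : rtp 0 = 1 := by
    ext1 v
    cases v with
    | nil => rfl
    | cons x v => simp [rtp_cons]
  rw [← Finset.univ_sum_single a]
  refine Finset.sum_induction _ (fun b => rtp b ∈ G0) (fun a b ha hb => ?_) ?_ (fun i _ => ?_)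
  · rw [hadd]; exact G0.mul_mem hb ha
  · rw [h0]; exact G0.one_mem
  · have h1 : ∀ e : ZMod 2, e = 0 ∨ e = 1 := by decide
    rcases h1 (a i) with h | h
    · rw [h, Pi.single_zero, h0]; exact G0.one_mem
    · rw [h]; exact (gen' (some i)).2

lemma lift (w : List L) : ∃ h ∈ G0, ∀ v, h (0 :: v) = 0 :: ev w v := by
  induction w with
  | nil => exact ⟨1, G0.one_mem, fun v => rfl⟩
  | cons l w ih =>
    obtain ⟨h, h1, h2⟩ := ih
    refine ⟨rtp (sp l) * gen none * rtp (sp l) * h,
      G0.mul_mem (G0.mul_mem (G0.mul_mem (rtp_mem _) (gen' none).2) (rtp_mem _)) h1, fun v => ?_⟩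
    simp only [Equiv.Perm.mul_apply, h2, rtp_cons, zero_add, gen_none, lam_sp, add_self, ev_cons]

lemma deep (n : ℕ) : ∃ g : G0, (g : Equiv.Perm (List A)) (List.replicate (n + 1) 0)
    ≠ List.replicate (n + 1) 0 ∧
    ∀ m ≤ n, (g : Equiv.Perm (List A)) (List.replicate m 0) = List.replicate m 0 := by
  induction n with
  | zero =>
    refine ⟨gen' (some 0), fun h => ?_, fun m hm => ?_⟩
    · have h1 : (0 + Pi.single 0 1 : A) :: [] = [0] := h
      have h2 := congrFun (List.cons.inj h1).1 0
      simp at h2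
    · obtain rfl : m = 0 := by omega
      rfl
  | succ n ih =>
    obtain ⟨g, h1, h2⟩ := ih
    obtain ⟨k, hk⟩ := exists_ball S0 S0_gen g
    obtain ⟨w, -, hw⟩ := ball_word hk
    obtain ⟨h, h3, h4⟩ := lift w
    refine ⟨⟨h, h3⟩, fun h5 => h1 ?_, fun m hm => ?_⟩
    · rw [List.replicate_succ (n := n + 1)] at h5
      have h6 := (h4 _).symm.trans h5
      rw [hw] at h6
      exact (List.cons.inj h6).2
    · cases m with
      | zero => exact List.length_eq_zero_iff.1 (G0_len ⟨h, h3⟩ [])
      | succ m =>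
        show h _ = _
        rw [List.replicate_succ, h4, hw, h2 m (by omega)]

instance : Infinite G0 := by
  choose g h1 h2 using deep
  refine Infinite.of_injective g fun m n hmn => ?_
  by_contra hc
  rcases Nat.lt_or_gt_of_ne hc with h | h
  · exact h1 m (by rw [hmn]; exact h2 n _ h)
  · exact h1 n (by rw [← hmn]; exact h2 m _ h)

lemma W_pow {n k : ℕ} {w : Wr G0} (h : Ball (gens S0) n w) (hn : 2 * n ≤ 3 ^ k + 1) :
    w ^ 2 ^ (k + 2) = 1 := by
  rw [pow_succ]
  exact wr_pow w _ (ball_pow (ball_proj h) hn)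

lemma W_sub (ε : ℝ) (hε : 0 < ε) : ∃ N : ℕ, ∀ n : ℕ, N ≤ n → ∀ w : Wr G0,
    Ball (gens S0) n w → (orderOf w : ℝ) ≤ ε * n := by
  obtain ⟨K, hK⟩ := exists_pow_lt_of_lt_one (show 0 < ε / 16 by positivity)
    (show (2 / 3 : ℝ) < 1 by norm_num)
  refine ⟨3 ^ K, fun n hn w hw => ?_⟩
  have hn0 : 2 * n ≠ 0 := by
    have : 0 < 3 ^ K := by positivity
    omega
  set k := Nat.log 3 (2 * n) with hk
  have h1 : 2 * n < 3 ^ (k + 1) := Nat.lt_pow_succ_log_self (by norm_num) _
  have h2 : 3 ^ k ≤ 2 * n := Nat.pow_log_le_self 3 hn0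
  have h3 : K ≤ k := Nat.le_log_of_pow_le (by norm_num) (by omega)
  have h4 := orderOf_le_of_pow_eq_one (by positivity) (W_pow (k := k + 1) hw (by omega))
  have h5 : (orderOf w : ℝ) ≤ 2 ^ (k + 1 + 2) := by exact_mod_cast h4
  have h6 : (3 : ℝ) ^ k ≤ 2 * n := by exact_mod_cast h2
  have h7 : (2 / 3 : ℝ) ^ k ≤ (2 / 3) ^ K := pow_le_pow_of_le_one (by norm_num) (by norm_num) h3
  have h8 : (2 : ℝ) ^ (k + 1 + 2) = 8 * ((2 / 3) ^ k * 3 ^ k) := by
    rw [← mul_pow]; norm_num; ring
  have h9 : (2 / 3 : ℝ) ^ k * 3 ^ k ≤ ε / 16 * (2 * n) :=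
    mul_le_mul (h7.trans hK.le) h6 (by positivity) (by positivity)
  linarith

end Pool.Agent.H24.PG
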