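import Pool.Agent.H24.Rom2

open Finset Filter Topology

namespace Pool.Agent.H24.PhiP

theorem cls (G : Finset ℕ) (P : ℕ) (hP : 0 < P) (D : ℝ) (hD : 0 ≤ D)
    (hc : ∀ a ∈ G, ∀ b ∈ G, a ≡ b [MOD P]) (hd : ∀ a ∈ G, ∀ b ∈ G, a ≤ b → (b : ℝ) - a ≤ D) :
    (#G : ℝ) ≤ D / P + 1 := by
  rcases G.eq_empty_or_nonempty with rfl | hne
  · simp only [card_empty, Nat.cast_zero]; positivity
  set c := G.min' hne
  have e : ∀ r ∈ G, P * ((r - c) / P) + c = r := fun r hr => by
    have h1 : c ≤ r := G.min'_le r hr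
    rw [Nat.mul_div_cancel' ((Nat.modEq_iff_dvd' h1).1 (hc c (G.min'_mem hne) r hr))]; omega
  have P0 : (0 : ℝ) < P := by exact_mod_cast hP
  have : #G ≤ #(range (⌊D / P⌋₊ + 1)) := card_le_card_of_injOn (fun r => (r - c) / P)
    (fun r hr => by
      have h1 := hd c (G.min'_mem hne) r hr (G.min'_le r hr)
      have h2 : (P : ℝ) * ((r - c) / P : ℕ) + c = r := by exact_mod_cast e r hr
      refine mem_coe.2 (mem_range.2 (Nat.lt_succ_of_le (Nat.le_floor ?_)))
      rw [le_div_iff₀ P0]; linarith)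
    fun a ha b hb h => by rw [← e a ha, ← e b hb]; simp only at h; rw [h]
  rw [card_range] at this
  have h2 : (⌊D / P⌋₊ : ℝ) ≤ D / P := Nat.floor_le (by positivity)
  have : (#G : ℝ) ≤ ⌊D / P⌋₊ + 1 := by exact_mod_cast this
  linarith

theorem phi_eq (n : ℕ) : (n.totient : ℝ) = n * ∏ p ∈ n.primeFactors, (1 - 1 / (p : ℝ)) := by
  have := congrArg (Rat.cast : ℚ → ℝ) (Nat.totient_eq_mul_prod_factors n)
  push_cast at this
  simpa using this

theorem osub (s : Finset ℕ) (f : ℕ → ℝ) (h : ∀ i ∈ s, 0 ≤ f i ∧ f i ≤ 1) :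
    1 - ∑ i ∈ s, f i ≤ ∏ i ∈ s, (1 - f i) := by
  induction s using Finset.induction_on with
  | empty => simp
  | insert a s ha ih =>
    rw [sum_insert ha, prod_insert ha]
    have h1 := h a (mem_insert_self _ _)
    have h2 := ih fun i hi => h i (mem_insert_of_mem hi)
    have h3 : 0 ≤ ∑ i ∈ s, f i := sum_nonneg fun i hi => (h i (mem_insert_of_mem hi)).1
    nlinarith

theorem inv01 {p : ℕ} (h : p.Prime) : (0 : ℝ) ≤ 1 / p ∧ (1 / p : ℝ) ≤ 1 :=
  ⟨by positivity, by rw [div_le_one (by exact_mod_cast h.pos)]; exact_mod_cast h.one_le⟩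

theorem count (x k : ℕ) (hk : 2 ≤ k) (hx : primorial (k ^ 2) * k ≤ x) :
    (#((Ioc 0 (2 * x)).filter fun n : ℕ => (x : ℝ) < n + n.totient ∧
      (n : ℝ) + n.totient < x + x / k) : ℝ) ≤ 6 * (x / k) := by
  set P := primorial (k ^ 2) with hP
  have P0 : 0 < P := primorial_pos _
  have k0 : (2 : ℝ) ≤ k := by exact_mod_cast hk
  set T : ℕ → ℝ := fun n => ∑ p ∈ n.primeFactors.filter (k ^ 2 < ·), 1 / (p : ℝ) with hT
  set u : ℕ → ℝ := fun n => ∏ p ∈ n.primeFactors.filter (¬ k ^ 2 < ·), (1 - 1 / (p : ℝ)) with hu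
  have T0 : ∀ n, 0 ≤ T n := fun n => sum_nonneg fun _ _ => by positivity
  have f01 : ∀ {n p : ℕ} {q : ℕ → Prop} [DecidablePred q], p ∈ n.primeFactors.filter q →
      (0 : ℝ) ≤ 1 / p ∧ (1 / p : ℝ) ≤ 1 := fun hp =>
    inv01 (Nat.prime_of_mem_primeFactors (mem_filter.1 hp).1)
  have u0 : ∀ n, 0 ≤ u n ∧ u n ≤ 1 := fun n => ⟨prod_nonneg fun p hp => by linarith [f01 hp],
    prod_le_one (fun p hp => by linarith [f01 hp]) fun p hp => by linarith [f01 hp]⟩
  have ph : ∀ n : ℕ, n * (u n - T n) ≤ n.totient ∧ (n.totient : ℝ) ≤ n * u n := fun n => by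
    rw [phi_eq, ← prod_filter_mul_prod_filter_not n.primeFactors (k ^ 2 < ·)]
    have h1 := osub (n.primeFactors.filter (k ^ 2 < ·)) (fun p => 1 / (p : ℝ)) fun p hp => f01 hp
    have h2 : ∏ p ∈ n.primeFactors.filter (k ^ 2 < ·), (1 - 1 / (p : ℝ)) ≤ 1 :=
      prod_le_one (fun p hp => by linarith [f01 hp]) fun p hp => by linarith [f01 hp]
    have h3 := u0 n
    have h4 := T0 n
    simp only [hu, hT] at h3 h4 ⊢
    constructor <;> gcongr <;> nlinarith
  have uc : ∀ a b, a ≠ 0 → b ≠ 0 → a ≡ b [MOD P] → u a = u b := fun a b ha hb h => by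
    simp only [hu]
    congr 1
    ext p
    simp only [mem_filter, Nat.mem_primeFactors]
    by_cases h1 : p.Prime ∧ ¬ k ^ 2 < p
    · have : p ∣ P := dvd_prod_of_mem _ (mem_filter.2 ⟨mem_range.2 (by omega), h1.1⟩)
      have := h.dvd_iff this
      tauto
    · tauto
  have sT : ∑ n ∈ Ioc 0 (2 * x), T n ≤ 2 * x / k ^ 2 := by
    calc _ ≤ ∑ n ∈ Ioc 0 (2 * x), ∑ p ∈ Ioc (k ^ 2) (k ^ 2 + 2 * x), if p ∣ n then 1 / (p : ℝ) else 0 :=
          sum_le_sum fun n hn => by
            rw [← sum_filter]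
            refine sum_le_sum_of_subset_of_nonneg (fun p hp => ?_) fun _ _ _ => by positivity
            rw [mem_filter] at hp
            have := Nat.le_of_mem_primeFactors hp.1
            have := (mem_Ioc.1 hn).2
            exact mem_filter.2 ⟨mem_Ioc.2 ⟨hp.2, by omega⟩, Nat.dvd_of_mem_primeFactors hp.1⟩
      _ ≤ ∑ p ∈ Ioc (k ^ 2) (k ^ 2 + 2 * x), 2 * x * ((p : ℝ) ^ 2)⁻¹ := by
          rw [sum_comm]
          refine sum_le_sum fun p _ => ?_
          rw [← sum_filter, sum_const, Nat.Ioc_filter_dvd_card_eq_div, nsmul_eq_mul]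
          have : ((2 * x / p : ℕ) : ℝ) ≤ 2 * x / p := by exact_mod_cast Nat.cast_div_le
          calc _ ≤ 2 * x / p * (1 / p : ℝ) := by gcongr
            _ = _ := by ring
      _ ≤ _ := by
          rw [← mul_sum, div_eq_mul_inv]
          gcongr
          refine (sum_Ioc_inv_sq_le_sub (by positivity) (Nat.le_add_right _ _)).trans ?_
          push_cast
          exact sub_le_self _ (by positivity)
  set S := (Ioc 0 (2 * x)).filter fun n : ℕ => (x : ℝ) < n + n.totient ∧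
      (n : ℝ) + n.totient < x + x / k with hS
  have b1 : (#(S.filter fun n => 1 / k < T n) : ℝ) ≤ 2 * (x / k) := by
    have h1 := card_nsmul_le_sum (S.filter fun n => 1 / k < T n) T (1 / k)
      fun n hn => (mem_filter.1 hn).2.le
    have h2 := (h1.trans (sum_le_sum_of_subset_of_nonneg ((filter_subset _ _).trans
      (filter_subset _ _)) fun n _ _ => T0 n)).trans sT
    rw [nsmul_eq_mul, mul_one_div, div_le_iff₀ (by positivity)] at h2
    refine h2.trans (le_of_eq ?_)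
    field_simp
  have b2 : (#(S.filter fun n => ¬ 1 / k < T n) : ℝ) ≤ 4 * (x / k) := by
    rw [card_eq_sum_card_fiberwise (f := (· % P)) (t := range P) fun n _ =>
      mem_coe.2 (mem_range.2 (Nat.mod_lt _ P0))]
    push_cast
    refine (sum_le_card_nsmul _ _ (3 * (x / k) / P + 1 : ℝ) fun r _ => cls _ P P0 _ (by positivity)
      (fun a ha b hb => ?_) fun a ha b hb hab => ?_).trans ?_
    · rw [mem_filter] at ha hb; exact ha.2.trans hb.2.symm
    · simp only [hS, mem_filter, mem_Ioc, not_lt] at ha hb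
      have e := uc a b (by omega) (by omega) (ha.2.trans hb.2.symm)
      have h1 := (ph a).2
      have h2 := (ph b).1
      have h3 := (u0 b).1
      have h4 : (b : ℝ) ≤ 2 * x := by exact_mod_cast hb.1.1.1.2
      have h5 : (a : ℝ) ≤ b := by exact_mod_cast hab
      have h6 : b * T b ≤ 2 * x * (1 / k) := by have := T0 b; gcongr; exact hb.1.2
      have h7 : 2 * x * (1 / k : ℝ) = 2 * (x / k) := by ring
      rw [e] at h1
      nlinarith [ha.1.1.2.1, hb.1.1.2.2]
    · have P1 : (0 : ℝ) < P := by exact_mod_cast P0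
      have : (P : ℝ) ≤ x / k := by rw [le_div_iff₀ (by positivity)]; exact_mod_cast hx
      rw [card_range, nsmul_eq_mul, mul_add, mul_div_cancel₀ _ P1.ne']
      linarith
  have := card_filter_add_card_filter_not (s := S) fun n => 1 / k < T n
  have : (#(S.filter fun n => 1 / k < T n) : ℝ) + #(S.filter fun n => ¬ 1 / k < T n) = #S := by
    exact_mod_cast this
  linarith

theorem ratio : ∃ C : ℝ, 0 ≤ C ∧ ∀ n : ℕ, n ≠ 0 →
    ((n : ℝ) / n.totient) ^ 4 ≤ 1 + C * Nat.log 2 n := by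
  obtain ⟨C, C1, hC⟩ := Rom.fH 30 (by norm_num)
  refine ⟨C, by linarith, fun n hn => ?_⟩
  have h1 := hC n.primeFactors fun p hp => Nat.prime_of_mem_primeFactors hp
  have h2 : ∑ p ∈ n.primeFactors, 1 / √p ≤ Nat.log 2 n := by
    refine (sum_le_card_nsmul _ _ 1 fun p hp => ?_).trans ?_
    · have h2 : (1 : ℝ) ≤ p := by exact_mod_cast (Nat.prime_of_mem_primeFactors hp).one_le
      rw [div_le_one (by positivity)]; exact Real.one_le_sqrt.2 h2
    · rw [nsmul_eq_mul, mul_one, Nat.cast_le]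
      exact Nat.le_log_of_pow_le (by norm_num) ((pow_card_le_prod _ (fun p => p) _ fun p hp =>
        (Nat.prime_of_mem_primeFactors hp).two_le).trans
        (Nat.le_of_dvd (Nat.pos_of_ne_zero hn) (Nat.prod_primeFactors_dvd n)))
  have n0 : (n : ℝ) ≠ 0 := by exact_mod_cast hn
  rw [phi_eq, ← div_div, div_self n0, one_div, ← prod_inv_distrib, ← prod_pow]
  refine le_trans (prod_le_prod (fun _ _ => by positivity) fun p hp => ?_) (h1.trans (by gcongr))
  have h3 : (2 : ℝ) ≤ p := by exact_mod_cast (Nat.prime_of_mem_primeFactors hp).two_le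
  have h4 : (1 / p : ℝ) ≤ 1 / 2 := by gcongr
  have h5 : (0 : ℝ) ≤ 1 / p := by positivity
  rw [show (30 / p : ℝ) = 30 * (1 / p) by ring]
  generalize (1 / p : ℝ) = t at *
  have h6 : (1 - t)⁻¹ ≤ 1 + 2 * t := by
    rw [inv_le_iff_one_le_mul₀ (by linarith)]; nlinarith
  have h7 : 0 ≤ (1 - t)⁻¹ := inv_nonneg.2 (by linarith)
  calc _ ≤ (1 + 2 * t) ^ 4 := by gcongr
    _ ≤ _ := by nlinarith [mul_nonneg h5 h5, mul_nonneg (mul_nonneg h5 h5) h5]

end Pool.Agent.H24.PhiP
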