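import Mathlib

set_option autoImplicit false

namespace Pool.Agent.H24.Potts

variable {V : Type} [Fintype V] [DecidableEq V] {q : ℕ}

/-- Number of edges of `G` whose two ends have the same colour. -/
def mono (G : SimpleGraph V) [DecidableRel G.Adj] (σ : V → Fin q) : ℕ :=
  (G.edgeFinset.filter (fun e => (e.map σ).IsDiag)).card

/-- The Potts measure at inverse temperature `β`. -/
noncomputable def potts (G : SimpleGraph V) [DecidableRel G.Adj] (β : ℝ) (σ : V → Fin q) : ℝ :=
  Real.exp (β * mono G σ) / ∑ τ : V → Fin q, Real.exp (β * mono G τ)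

/-- The heat-bath kernel at site `v`. -/
noncomputable def kernel (G : SimpleGraph V) [DecidableRel G.Adj] (β : ℝ) (v : V)
    (τ σ : V → Fin q) : ℝ :=
  if ∀ u, u ≠ v → σ u = τ u then
    potts G β σ / ∑ c : Fin q, potts G β (Function.update τ v c)
  else 0

/-- The law after updating the sites of `l` in order, starting from the constant configuration `g`. -/
noncomputable def law (G : SimpleGraph V) [DecidableRel G.Adj] (β : ℝ) (g : Fin q) (l : List V) :
    (V → Fin q) → ℝ :=
  l.foldl (fun μ v σ => ∑ τ, μ τ * kernel G β v τ σ) (fun σ => if σ = fun _ => g then 1 else 0)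

/-- Total variation distance on a finite set. -/
noncomputable def tv {Ω : Type} (μ ν : Ω → ℝ) : ℝ :=
  ⨆ A : Finset Ω, |∑ x ∈ A, μ x - ∑ x ∈ A, ν x|

end Pool.Agent.H24.Potts
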