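import Pool.Agent.H24.PottsData

set_option autoImplicit false

namespace Pool.Agent.H24.Potts

lemma tv_eq {Ω : Type} [Fintype Ω] (μ ν : Ω → ℝ) (h : ∑ x, μ x = ∑ x, ν x) :
    tv μ ν = (∑ x, |μ x - ν x|) / 2 := by
  classical
  have h0 : ∑ x, (μ x - ν x) = 0 := by rw [Finset.sum_sub_distrib, h, sub_self]
  have key : ∀ A : Finset Ω, |∑ x ∈ A, μ x - ∑ x ∈ A, ν x| ≤ (∑ x, |μ x - ν x|) / 2 := by
    intro A
    rw [← Finset.sum_sub_distrib]
    have e1 := Finset.sum_add_sum_compl A (fun x => μ x - ν x)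
    have e2 := Finset.sum_add_sum_compl A (fun x => |μ x - ν x|)
    have b1 := Finset.abs_sum_le_sum_abs (fun x => μ x - ν x) A
    have b2 := Finset.abs_sum_le_sum_abs (fun x => μ x - ν x) Aᶜ
    have e3 : ∑ x ∈ Aᶜ, (μ x - ν x) = -∑ x ∈ A, (μ x - ν x) := by linarith
    rw [e3, abs_neg] at b2
    linarith
  apply le_antisymm (ciSup_le key)
  refine le_ciSup_of_le ⟨_, by rintro _ ⟨A, rfl⟩; exact key A⟩
    (Finset.univ.filter (fun x => 0 ≤ μ x - ν x)) ?_
  rw [← Finset.sum_sub_distrib]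
  refine le_trans ?_ (le_abs_self _)
  have e : ∑ x, |μ x - ν x| = ∑ x, (2 * (if 0 ≤ μ x - ν x then μ x - ν x else 0) - (μ x - ν x)) := by
    refine Finset.sum_congr rfl fun x _ => ?_
    split_ifs with hx
    · rw [abs_of_nonneg hx]; ring
    · rw [abs_of_neg (not_le.mp hx)]; ring
  rw [e, Finset.sum_sub_distrib, h0, ← Finset.mul_sum, Finset.sum_filter]
  linarith

lemma potts_eq (σ : Om) : potts G0 (Real.log 10) σ = (W σ : ℝ) / 31012632 := by
  have e : ∀ τ : Om, Real.exp (Real.log 10 * mono G0 τ) = (W τ : ℝ) := by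
    intro τ
    rw [mul_comm, Real.exp_nat_mul, Real.exp_log (by norm_num), mono_eq, W]
    push_cast; rfl
  unfold potts
  simp only [e]
  rw [← Nat.cast_sum, sW]
  norm_num

lemma W_pos (σ : Om) : (0 : ℝ) < W σ := by unfold W; positivity

lemma step {N N' M : ℕ} {v : Fin 5} (h : Chk N N' M v) (hM : 0 < M) (D : ℝ) :
    (fun σ => ∑ τ, (tb N τ : ℝ) / D * kernel G0 (Real.log 10) v τ σ) =
      fun σ => (tb N' σ : ℝ) / (D * M) := by
  funext σ
  have hZ : (0 : ℝ) < ∑ c, (W (Function.update σ v c) : ℝ) :=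
    Finset.sum_pos (fun c _ => W_pos _) Finset.univ_nonempty
  have hM' : (0 : ℝ) < M := by exact_mod_cast hM
  have h1 : (tb N' σ : ℝ) * ∑ c, (W (Function.update σ v c) : ℝ) =
      (∑ c, (tb N (Function.update σ v c) : ℝ)) * W σ * M := by exact_mod_cast h σ
  have h2 : ∑ τ, (tb N τ : ℝ) / D * kernel G0 (Real.log 10) v τ σ =
      ∑ c, (tb N (Function.update σ v c) : ℝ) / D *
        (W σ / ∑ c, (W (Function.update σ v c) : ℝ)) := by
    symm
    apply Finset.sum_of_injOn (fun c => Function.update σ v c)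
    · intro c _ c' _ e
      simpa using congrFun e v
    · intro c _; simp
    · intro τ _ hτ
      rw [kernel, if_neg, mul_zero]
      intro hh
      apply hτ
      refine ⟨τ v, by simp, ?_⟩
      funext u
      by_cases hu : u = v
      · subst hu; simp
      · simp [hu, hh u hu]
    · intro c _
      rw [kernel, if_pos (fun u hu => by simp [hu])]
      simp only [potts_eq, Function.update_idem]
      rw [← Finset.sum_div, div_div_div_cancel_right₀ (by norm_num)]
  rw [h2, ← Finset.sum_mul, ← Finset.sum_div]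
  by_cases hD : D = 0
  · simp [hD]
  field_simp
  linarith

lemma fstep {N N' M : ℕ} {v : Fin 5} (h : Chk N N' M v) (hM : 0 < M) (D : ℝ) (l : List (Fin 5)) :
    List.foldl (fun (μ : Om → ℝ) v σ => ∑ τ, μ τ * kernel G0 (Real.log 10) v τ σ)
      (fun σ => (tb N σ : ℝ) / D) (v :: l) =
    List.foldl (fun (μ : Om → ℝ) v σ => ∑ τ, μ τ * kernel G0 (Real.log 10) v τ σ)
      (fun σ => (tb N' σ : ℝ) / (D * M)) l := by
  rw [List.foldl_cons, ← step h hM D]

lemma i0 : (fun σ : Om => if σ = fun _ => 0 then (1 : ℝ) else 0) = fun σ => (tb 1 σ : ℝ) / 1 := by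
  funext σ; rw [init]; split_ifs <;> simp

lemma law_x : law G0 (Real.log 10) (0 : Fin 3) [3, 4, 0, 3, 4, 2, 0, 3] =
    fun σ => (tb x4 σ : ℝ) / 37975814912494736837437752 := by
  unfold law
  rw [i0, fstep cp0 (by norm_num), fstep cp1 (by norm_num), fstep cp2 (by norm_num),
    fstep cx0 (by norm_num), fstep cx1 (by norm_num), fstep cx2 (by norm_num),
    fstep cx3 (by norm_num), fstep cx4 (by norm_num), List.foldl_nil]
  norm_num

lemma law_y : law G0 (Real.log 10) (0 : Fin 3) [3, 4, 0, 4, 2, 0, 3] =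
    fun σ => (tb y3 σ : ℝ) / 638248990125961963654416 := by
  unfold law
  rw [i0, fstep cp0 (by norm_num), fstep cp1 (by norm_num), fstep cp2 (by norm_num),
    fstep cy0 (by norm_num), fstep cy1 (by norm_num), fstep cy2 (by norm_num),
    fstep cy3 (by norm_num), List.foldl_nil]
  norm_num

lemma tv_tb (N D : ℕ) (hD : 0 < D) (h : ∑ σ : Om, tb N σ = D) :
    tv (fun σ => (tb N σ : ℝ) / D) (potts G0 (Real.log 10)) =
      ((∑ σ : Om, |(tb N σ : ℤ) * 31012632 - W σ * D| : ℤ) : ℝ) / (2 * 31012632 * D) := by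
  have hD' : (0 : ℝ) < D := by exact_mod_cast hD
  rw [tv_eq]
  · simp only [potts_eq]
    push_cast
    rw [Finset.sum_div, Finset.sum_div]
    refine Finset.sum_congr rfl fun σ _ => ?_
    rw [div_sub_div _ _ hD'.ne' (by norm_num), abs_div, abs_of_pos (a := (D : ℝ) * 31012632)
      (by positivity), mul_comm (D : ℝ) (W σ)]
    field_simp
  · simp only [potts_eq]
    rw [← Finset.sum_div, ← Finset.sum_div, ← Nat.cast_sum, ← Nat.cast_sum, h, sW,
      div_self hD'.ne']
    norm_num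

theorem main : tv (law G0 (Real.log 10) (0 : Fin 3) [3, 4, 0, 4, 2, 0, 3]) (potts G0 (Real.log 10)) <
    tv (law G0 (Real.log 10) (0 : Fin 3) [3, 4, 0, 3, 4, 2, 0, 3]) (potts G0 (Real.log 10)) := by
  have a := tv_tb x4 _ (by norm_num) sx
  have b := tv_tb y3 _ (by norm_num) sy
  have c := cmp
  rw [law_x, law_y]
  simp only [Nat.cast_ofNat] at a b
  rw [a, b, div_lt_div_iff₀ (by norm_num) (by norm_num)]
  generalize (∑ σ : Om, |(tb y3 σ : ℤ) * 31012632 - W σ * 638248990125961963654416|) = s at *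
  generalize (∑ σ : Om, |(tb x4 σ : ℤ) * 31012632 - W σ * 37975814912494736837437752|) = t at *
  have c' : (s : ℝ) * 37975814912494736837437752 < t * 638248990125961963654416 := by
    exact_mod_cast c
  linarith

end Pool.Agent.H24.Potts
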