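import Mathlib

namespace Pool.Agent.H24.Ppl

def ph : List Bool → ℕ
  | [] => 0
  | false :: l => ph l
  | [true] => 1
  | true :: _ :: l => 1 + ph l

theorem ph_t (l : List Bool) : ph (true :: l) = 1 + ph l.tail := by cases l <;> rfl

theorem ph_f (l : List Bool) : ph (false :: l) = ph l := rfl

theorem ph_le (l : List Bool) : ph l.tail ≤ ph l ∧ ph l ≤ 1 + ph l.tail := by
  induction l with
  | nil => simp
  | cons c l ih => cases c <;> simp [ph_t, ph_f] <;> omega

inductive Z : List Bool → List Bool → Prop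
  | base (c : Bool) (l : List Bool) : Z (true :: c :: l) (true :: (!c) :: l)
  | step {l l' : List Bool} : Z l l' → Z (false :: false :: l) (false :: false :: l')

inductive Mv : List Bool → List Bool → Prop
  | skip (c : Bool) {l l' : List Bool} : Mv l l' → Mv (c :: l) (c :: l')
  | a (c : Bool) (l : List Bool) : Mv (c :: l) ((!c) :: l)
  | b (c d : Bool) {l l' : List Bool} : Z l l' → Mv (c :: d :: l) ((!c) :: (!d) :: l')

def M0 (l l' : List Bool) : Prop := ∃ d r r', Z r r' ∧ l = d :: r ∧ l' = (!d) :: r'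

theorem Z.ph_eq {l l' : List Bool} (h : Z l l') : ph l = ph l' := by
  induction h with
  | base c l => simp [ph_t]
  | step _ ih => exact ih

theorem M0.le {l l' : List Bool} (h : M0 l l') : ph l ≤ ph l' + 1 := by
  obtain ⟨d, r, r', h, rfl, rfl⟩ := h
  have := h.ph_eq; have := ph_le r; have := ph_le r'
  cases d <;> simp [ph_t, ph_f] <;> omega

theorem Mv.le {l l' : List Bool} (h : Mv l l') : ph l ≤ ph l' + 1 ∧ ph l.tail ≤ ph l'.tail + 1 := by
  induction h with
  | skip c _ ih => cases c <;> simp [ph_t, ph_f] <;> omega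
  | a c l => have := ph_le l; cases c <;> simp [ph_t, ph_f] <;> omega
  | @b c d l l' h =>
    have := h.ph_eq; have := ph_le l; have := ph_le l'
    cases c <;> cases d <;> simp [ph_t, ph_f] <;> omega

inductive T : List Bool → ℤ → Prop
  | nil : T [] 0
  | z {l : List Bool} {J : ℤ} : T l J → T (false :: l) (-J)
  | s {l : List Bool} {J : ℤ} : T l J → T (false :: true :: false :: l) (-J)
  | d {l : List Bool} {J : ℤ} : T l J → T (false :: true :: true :: l) (J + 1)

theorem T.cast {l : List Bool} {J J' : ℤ} (h : T l J) (e : J = J') : T l J' := e ▸ h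

theorem Z.tt {l l' : List Bool} (h : Z l l') : (∀ J, T l J → T l' (-1 - J)) ∧
    ∀ J, T (false :: l) J → T (false :: l') (1 - J) := by
  induction h with
  | base c l =>
    refine ⟨fun J h => (by cases h), fun J h => ?_⟩
    cases h with
    | z h => cases h
    | s h => exact h.d.cast (by ring)
    | d h => exact h.s.cast (by ring)
  | step _ ih =>
    have k : ∀ J, T (false :: false :: _) J → T (false :: false :: _) (-1 - J) := fun J h => by
      cases h with
      | z h => exact (ih.2 _ h).z.cast (by ring)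
    refine ⟨k, fun J h => ?_⟩
    cases h with
    | z h => exact (k _ h).z.cast (by ring)

theorem T.hd {c : Bool} {l : List Bool} {J : ℤ} (h : T (c :: l) J) : c = false := by
  cases h <;> rfl

theorem T.tl {l : List Bool} {J : ℤ} (h : T l J) : ph l.tail = ph l := by cases h <;> rfl

theorem T.close {l : List Bool} {J : ℤ} (h : T l J) : ∀ l', Mv l l' → ph l' < ph l → T l' J := by
  induction h with
  | nil => intro l' h; cases h
  | @z r J h ih =>
    intro l' m hl
    cases m with
    | skip _ m => exact (ih _ m hl).z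
    | a => have := h.tl; simp [ph_t, ph_f] at hl; omega
    | b _ d m => have := m.ph_eq; obtain rfl := h.hd; simp [ph_t, ph_f] at hl; omega
  | @s r J h ih =>
    intro l' m hl
    cases m with
    | a => simp [ph_t, ph_f] at hl
    | b _ _ m => have := m.ph_eq; simp [ph_t, ph_f] at hl this; omega
    | skip _ m =>
      cases m with
      | a => exact h.z.z.z.cast (by ring)
      | b _ _ m =>
        have := m.ph_eq; have := (m.tt.1 _ h).tl; simp [ph_t, ph_f] at hl; omega
      | skip _ m =>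
        cases m with
        | a => simp [ph_t, ph_f] at hl
        | @b _ _ _ r' m =>
          have := m.ph_eq; have := ph_le r'; obtain rfl := h.hd; simp [ph_t, ph_f] at hl; omega
        | skip _ m => exact (ih _ m (by simpa [ph_t, ph_f] using hl)).s
  | @d r J h ih =>
    intro l' m hl
    have := h.tl
    cases m with
    | a => simp [ph_t, ph_f] at hl; omega
    | b _ _ m => have := m.ph_eq; simp [ph_t, ph_f] at hl this; omega
    | skip _ m =>
      cases m with
      | a => simp [ph_t, ph_f] at hl; omega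
      | b _ _ m => exact (m.tt.1 _ h).z.z.z.cast (by ring)
      | skip _ m =>
        cases m with
        | a => simp [ph_t, ph_f] at hl
        | @b _ _ _ r' m =>
          have := m.ph_eq; have := ph_le r'; obtain rfl := h.hd; simp [ph_t, ph_f] at hl; omega
        | skip _ m => exact (ih _ m (by simpa [ph_t, ph_f] using hl)).d

theorem T.zero {l : List Bool} {J : ℤ} (h : T l J) (h0 : ph l = 0) : J = 0 := by
  induction h with
  | nil => rfl
  | z _ ih => simpa using ih h0
  | s => simp [ph_t, ph_f] at h0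
  | d => simp [ph_t, ph_f] at h0

def gl : ℕ → ℕ → List Bool
  | 0, _ => []
  | L + 1, n => decide (n % 2 ≠ n / 2 % 2) :: gl L (n / 2)

variable {u : ℕ → Bool}

def Pal (u : ℕ → Bool) (x y : ℕ) : Prop := ∀ a b, x ≤ a → x ≤ b → a + b + 1 = x + y → u a = u b

def PD (u : ℕ → Bool) : Prop := ∀ n : ℕ, u (2 * n) = false ∧ u (2 * n + 1) = !(u n)

theorem PD.odd (hu : PD u) {a : ℕ} (h : u a = true) : a % 2 = 1 ∧ u (a / 2) = false := by
  rcases Nat.even_or_odd' a with ⟨b, rfl | rfl⟩
  · simp [(hu b).1] at h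
  · rw [(hu b).2] at h
    exact ⟨by omega, by rw [show (2 * b + 1) / 2 = b by omega]; simpa using h⟩

theorem PD.zz (hu : PD u) (L : ℕ) : ∀ a, u a = true → a + 1 < 2 ^ L → Z (gl L (a + 1)) (gl L a) := by
  induction L using Nat.strong_induction_on with
  | _ L ih =>
    intro a h hL
    obtain ⟨h1, h2⟩ := hu.odd h
    match L, ih, hL with
    | 0, _, hL => omega
    | 1, _, hL => omega
    | L + 2, ih, hL =>
      rcases Nat.even_or_odd' (a / 2) with ⟨b, hb | hb⟩
      · obtain rfl : a = 4 * b + 1 := by omega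
        simp only [gl]
        rw [show (4 * b + 1 + 1) / 2 / 2 = b by omega, show (4 * b + 1) / 2 / 2 = b by omega]
        convert Z.base (decide (1 ≠ b % 2)) (gl L b) using 2
        · simp; omega
        · congr 2; congr 1; omega
        · simp; omega
        · congr 1; rw [← decide_not]; congr 1; simp; omega
      · obtain rfl : a = 4 * b + 3 := by omega
        rw [hb, (hu b).2] at h2
        have h3 : u b = true := by simpa using h2
        have := (hu.odd h3).1
        simp only [gl]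
        rw [show (4 * b + 3 + 1) / 2 / 2 = b + 1 by omega, show (4 * b + 3) / 2 / 2 = b by omega]
        convert (ih L (by omega) b h3 (by rw [pow_succ, pow_succ] at hL; omega)).step using 2
        · simp; omega
        · congr 1; simp; omega
        · simp; omega
        · congr 1; simp; omega

theorem PD.ev (hu : PD u) {x y : ℕ} (h : Pal u x y) (hxy : x < y) (he : (x + y) % 2 = 0) :
    y = x + 2 ∧ u (x / 2) = true := by
  have k : ∀ c, u c = u (c + 1) → u (c / 2) = true := fun c h => by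
    rcases Nat.even_or_odd' c with ⟨b, rfl | rfl⟩
    · rw [(hu b).1, (hu b).2] at h
      rw [show 2 * b / 2 = b by omega]; simpa using h
    · rw [show 2 * b + 1 + 1 = 2 * (b + 1) by ring, (hu _).1, (hu b).2] at h
      rw [show (2 * b + 1) / 2 = b by omega]; simpa using h
  obtain ⟨r, rfl⟩ : ∃ r, y = x + 2 * r + 2 := ⟨(y - x) / 2 - 1, by omega⟩
  rcases r with _ | r
  · exact ⟨rfl, k x (h _ _ le_rfl (by omega) (by omega))⟩
  have h1 := h (x + r + 1) (x + r + 1 + 1) (by omega) (by omega) (by omega)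
  have h2 := h (x + r) (x + r + 3) (by omega) (by omega) (by omega)
  have h3 := k _ h1
  rcases Nat.even_or_odd' (x + r) with ⟨b, hb | hb⟩
  · rw [hb, show 2 * b + 3 = 2 * (b + 1) + 1 by ring, (hu b).1, (hu _).2] at h2
    rw [hb, show (2 * b + 1) / 2 = b by omega] at h3
    have := (hu.odd h3).1
    have := (hu.odd (a := b + 1) (by simpa using h2)).1
    omega
  · rw [hb, show 2 * b + 1 + 3 = 2 * (b + 2) by ring, (hu _).1, (hu _).2] at h2
    rw [hb, show (2 * b + 1 + 1) / 2 = b + 1 by omega] at h3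
    have := (hu.odd h3).1
    have := (hu.odd (a := b) (by simpa using h2)).1
    omega

theorem PD.m0 (hu : PD u) {x y L : ℕ} (h : Pal u x y) (hxy : x < y) (he : (x + y) % 2 = 0)
    (hL : y < 2 ^ L) : M0 (gl L y) (gl L x) := by
  obtain ⟨rfl, h1⟩ := hu.ev h hxy he
  rcases L with _ | L
  · omega
  refine ⟨_, _, _, hu.zz L _ h1 (by omega), by rw [gl, show (x + 2) / 2 = x / 2 + 1 by omega], ?_⟩
  rw [gl, ← decide_not]; congr 2; simp; omega

theorem PD.mv (hu : PD u) (L : ℕ) : ∀ x y, Pal u x y → x < y → (x + y) % 2 = 1 → y < 2 ^ L →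
    Mv (gl L y) (gl L x) := by
  induction L with
  | zero => intro x y _ _ _ _; omega
  | succ L ih =>
    intro x y h hxy he hL
    have hp : Pal u (x / 2) (y / 2) := fun a b h1 h2 h3 => by
      have := h (2 * a + 1) (2 * b + 1) (by omega) (by omega) (by omega)
      simpa [(hu _).2] using this
    rw [gl, gl]
    by_cases e : x / 2 = y / 2
    · rw [e]; convert Mv.a _ _ using 2; rw [← decide_not]; congr 1; simp; omega
    by_cases e' : (x / 2 + y / 2) % 2 = 1
    · convert (ih _ _ hp (by omega) e' (by omega)).skip _ using 2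
      congr 1; simp; omega
    · obtain ⟨d, r, r', h1, h2, h3⟩ := hu.m0 (L := L) hp (by omega) (by omega) (by omega)
      rw [h2, h3]; convert Mv.b _ _ h1 using 2; rw [← decide_not]; congr 1; simp; omega

open Classical in
noncomputable def psi (L n : ℕ) : ℕ := ph (gl L n) + if ∃ J ≠ 0, T (gl L n) J then 1 else 0

theorem PD.psi_le (hu : PD u) {L x y : ℕ} (h : Pal u x y) (hxy : x < y) (hL : y < 2 ^ L) :
    psi L y ≤ psi L x + 1 := by
  unfold psi
  rcases Nat.mod_two_eq_zero_or_one (x + y) with e | e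
  · have m := hu.m0 h hxy e hL
    have := m.le
    by_cases hb : ∃ J ≠ 0, T (gl L y) J
    · obtain ⟨d, r, r', z, h1, h2⟩ := m
      obtain ⟨J, -, hT⟩ := hb
      rw [h1] at hT
      obtain rfl := hT.hd
      have := z.ph_eq; have := ph_le r'
      rw [h1, h2]; simp only [Bool.not_false, ph_t, ph_f]; split_ifs <;> omega
    · rw [if_neg hb]; omega
  · have m := hu.mv L x y h hxy e hL
    have := m.le.1
    by_cases hb : ∃ J ≠ 0, T (gl L y) J
    · obtain ⟨J, hJ, hT⟩ := hb
      by_cases hl : ph (gl L x) < ph (gl L y)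
      · have k : ∃ J ≠ 0, T (gl L x) J := ⟨J, hJ, hT.close _ m hl⟩
        rw [if_pos k]; split_ifs <;> omega
      · split_ifs <;> omega
    · rw [if_neg hb]; omega

theorem ph_zero (L : ℕ) : ph (gl L 0) = 0 ∧ T (gl L 0) 0 := by
  induction L with
  | zero => exact ⟨rfl, .nil⟩
  | succ L ih => exact ⟨ih.1, ih.2.z⟩

def IsP (u : ℕ → Bool) (p : ℕ → ℕ) : Prop :=
  ∀ n : ℕ, IsLeast {k : ℕ | ∃ L : List (List Bool), L.length = k ∧ (∀ w ∈ L, w.reverse = w) ∧
    L.flatten = List.ofFn (fun i : Fin n => u i.val)} (p n)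

variable {p : ℕ → ℕ}

theorem IsP.lb (hp : IsP u p) (f : ℕ → ℕ) (N : ℕ) (h0 : f 0 = 0)
    (hf : ∀ x y, Pal u x y → x < y → y < N → f y ≤ f x + 1) (n : ℕ) (hn : n < N) : f n ≤ p n := by
  obtain ⟨L, e, h1, h2⟩ := (hp n).1
  rw [← e]; clear e
  induction L using List.reverseRecOn generalizing n with
  | nil =>
    have := congrArg List.length h2
    simp at this; simp [← this, h0]
  | append_singleton L w ih =>
    rw [List.flatten_append, List.flatten_singleton] at h2
    have hl := congrArg List.length h2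
    rw [List.length_append, List.length_ofFn] at hl
    have g : ∀ i (h : i < n), (L.flatten ++ w)[i]'(by rw [List.length_append]; omega) = u i :=
      fun i h => by simp [h2]
    have a := ih L.flatten.length (by omega) (fun v hv => h1 v (by simp [hv]))
      (List.ext_getElem (by simp) fun i h3 _ => by
        rw [List.getElem_ofFn, ← g i (by omega), List.getElem_append_left h3])
    rw [List.length_append, List.length_singleton]
    rcases Nat.eq_zero_or_pos w.length with h | h
    · rw [← hl, h, add_zero]; omega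
    · refine (hf L.flatten.length n (fun a b h3 h4 h5 => ?_) (by omega) hn).trans (by omega)
      rw [← g a (by omega), ← g b (by omega), List.getElem_append_right h3,
        List.getElem_append_right h4]
      have := h1 w (by simp)
      rw [List.getElem_of_eq this.symm, List.getElem_reverse]
      congr 1; omega

theorem IsP.ub (hp : IsP u p) {x y : ℕ} (h : Pal u x y) (hxy : x ≤ y) : p y ≤ p x + 1 := by
  obtain ⟨L, e, h1, h2⟩ := (hp x).1
  refine (hp y).2 ⟨L ++ [List.ofFn fun i : Fin (y - x) => u (x + i)], by simp [e], ?_, ?_⟩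
  · intro w hw
    rcases List.mem_append.1 hw with hw | hw
    · exact h1 w hw
    · obtain rfl := List.mem_singleton.1 hw
      refine List.ext_getElem (by simp) fun i h3 h4 => ?_
      simp only [List.length_ofFn] at h4
      simp only [List.getElem_reverse, List.getElem_ofFn, List.length_ofFn]
      exact h _ _ (by omega) (by omega) (by omega)
  · rw [List.flatten_append, List.flatten_singleton, h2]
    refine List.ext_getElem (by simp; omega) fun i h3 h4 => ?_
    simp only [List.getElem_append, List.length_ofFn, List.getElem_ofFn]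
    split_ifs
    · rfl
    · congr 1; omega

theorem PD.lift (hu : PD u) {x y : ℕ} (h : Pal u x y) (k : ℕ) : ∀ z z', z + z' + 1 = 2 ^ k →
    Pal u (2 ^ k * x + z') (2 ^ k * y + z) := by
  induction k with
  | zero => intro z z' e; simpa [show z = 0 by omega, show z' = 0 by omega] using h
  | succ k ih =>
    intro z z' e a b h1 h2 h3
    rw [pow_succ', mul_assoc] at h1 h2
    rw [pow_succ', mul_assoc, mul_assoc] at h3
    rcases Nat.even_or_odd' a with ⟨c, rfl | rfl⟩
    · rw [show b = 2 * (b / 2) by omega, (hu _).1, (hu _).1]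
    · rw [show b = 2 * (b / 2) + 1 by omega, (hu _).2, (hu _).2,
        ih (z / 2) (z' / 2) (by omega) c (b / 2) (by omega) (by omega) (by omega)]

theorem stepA (hu : PD u) (hp : IsP u p) (m k z z' : ℕ) (h : z + z' + 1 = 2 ^ k) :
    p (2 ^ k * (m + 1) + z) ≤ p (2 ^ k * m + z') + 1 :=
  hp.ub (hu.lift (fun a b _ _ _ => by congr 1; omega) k z z' h) (by rw [mul_add]; omega)

theorem C1 (hu : PD u) (hp : IsP u p) (m k z : ℕ) (h : z < 2 ^ k) :
    p (2 ^ (k + 1) * (m + 1) + z) ≤ p (2 ^ (k + 1) * m + z) + 2 := by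
  have a := stepA hu hp m (k + 1) z (2 ^ k + (2 ^ k - 1 - z)) (by omega)
  have b := stepA hu hp (2 * m) k (2 ^ k - 1 - z) z (by omega)
  rw [show 2 ^ k * (2 * m + 1) + (2 ^ k - 1 - z) = 2 ^ (k + 1) * m + (2 ^ k + (2 ^ k - 1 - z)) by
    ring, show 2 ^ k * (2 * m) = 2 ^ (k + 1) * m by ring] at b
  omega

theorem C2 (hu : PD u) (hp : IsP u p) (m e k z : ℕ) (h : z < 2 ^ k) :
    p (2 ^ (k + 2 * e + 2) * (2 * m + 1) + (2 ^ k + z)) ≤ p (2 ^ (k + 2 * e + 2) * (2 * m) + z) + 2 := by
  have t : ∀ e, ∃ a, a + 1 = 2 ^ (2 * e + 1) * (2 * m + 1) ∧ u a = true := fun e => by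
    induction e with
    | zero => exact ⟨2 * (2 * m) + 1, by ring, by simp [(hu _).2, (hu _).1]⟩
    | succ e ih =>
      obtain ⟨a, h1, h2⟩ := ih
      exact ⟨2 * (2 * a + 1) + 1, by linear_combination 4 * h1, by simp [(hu _).2, h2]⟩
  obtain ⟨a, h1, h2⟩ := t e
  have hP : Pal u (2 * a + 1) (2 * a + 3) := fun c d _ _ _ => by
    have : u (2 * a + 1) = u (2 * (a + 1)) := by simp [(hu _).2, (hu _).1, h2]
    rcases (by omega : c = 2 * a + 1 ∧ d = 2 * (a + 1) ∨ d = 2 * a + 1 ∧ c = 2 * (a + 1)) with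
      ⟨rfl, rfl⟩ | ⟨rfl, rfl⟩
    exacts [this, this.symm]
  obtain ⟨z', hz⟩ : ∃ z', z + z' + 1 = 2 ^ k := ⟨2 ^ k - 1 - z, by omega⟩
  have b := hp.ub (hu.lift hP k z z' hz) (by
    have : 2 ^ k * (2 * a + 3) = 2 ^ k * (2 * a + 1) + 2 * 2 ^ k := by ring
    omega)
  have hk : 2 ^ k ≤ 2 ^ (k + 2 * e + 1) := Nat.pow_le_pow_right (by norm_num) (by omega)
  obtain ⟨w, hw⟩ : ∃ w, w + z + 1 = 2 ^ (k + 2 * e + 1) := ⟨2 ^ (k + 2 * e + 1) - 1 - z, by omega⟩
  have c := stepA hu hp (4 * m) (k + 2 * e + 1) w z hw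
  rw [show 2 ^ (k + 2 * e + 1) * (4 * m + 1) + w = 2 ^ k * (2 * a + 1) + z' by
    zify at *; linear_combination hw - hz - 2 ^ (k + 1) * h1,
    show 2 ^ (k + 2 * e + 1) * (4 * m) = 2 ^ (k + 2 * e + 2) * (2 * m) by ring] at c
  rw [show 2 ^ k * (2 * a + 3) + z = 2 ^ (k + 2 * e + 2) * (2 * m + 1) + (2 ^ k + z) by
    zify at *; linear_combination 2 ^ (k + 1) * h1] at b
  omega

def R : ℕ → ℕ
  | 0 => 0
  | j + 1 => 8 * R j + 4

theorem R_add (a b : ℕ) : R (a + b) = 2 ^ (3 * b) * R a + R b := by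
  induction b with
  | zero => simp [R]
  | succ b ih => rw [← add_assoc, R, R, ih]; ring

theorem R_lt (j : ℕ) : R j < 2 ^ (3 * j) ∧ R j % 2 = 0 := by
  induction j with
  | zero => simp [R]
  | succ j ih => rw [R, mul_add, pow_add]; omega

theorem R_top (j : ℕ) : R (j + 1) = 2 ^ (3 * j + 2) + R j := by
  rw [add_comm j, R_add]; simp [R, pow_add]

theorem pairs (hu : PD u) (hp : IsP u p) (j i : ℕ) : ∀ e,
    p (2 ^ (3 * (j + i) + 2 * e + 1) * R i + R (j + i)) ≤ p (R j) + 2 * i := by
  induction i with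
  | zero => intro e; simp [R]
  | succ i ih =>
    intro e
    have := C2 hu hp (R i) (e + 1) (3 * (j + i) + 2) (R (j + i))
      ((R_lt _).1.trans_le (Nat.pow_le_pow_right (by norm_num) (by omega)))
    have h := ih (e + 3)
    rw [← add_assoc, R_top (j + i), R, show 2 ^ (3 * (j + i + 1) + 2 * e + 1) * (8 * R i + 4) =
      2 ^ (3 * (j + i) + 2 + 2 * (e + 1) + 2) * (2 * R i + 1) by ring]
    rw [show 2 ^ (3 * (j + i) + 2 * (e + 3) + 1) * R i =
      2 ^ (3 * (j + i) + 2 + 2 * (e + 1) + 2) * (2 * R i) by ring] at h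
    omega

theorem IsP.zero (hp : IsP u p) : p 0 = 0 :=
  Nat.le_zero.1 ((hp 0).2 ⟨[], rfl, by simp, by simp⟩)

theorem R_le (hu : PD u) (hp : IsP u p) (m : ℕ) : p (R m) ≤ m + 2 := by
  have h0 := hp.zero
  have k : ∀ a, p (R (2 * a + 1)) ≤ 2 * a + 2 := fun a => by
    have h := pairs hu hp 0 a 1
    have := C1 hu hp (2 * R a) (3 * a + 1) (R a)
      ((R_lt _).1.trans_le (Nat.pow_le_pow_right (by norm_num) (by omega)))
    rw [show 2 * a + 1 = a + 1 + a by ring, R_add, R, show 2 ^ (3 * a) * (8 * R a + 4) =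
      2 ^ (3 * a + 1 + 1) * (2 * R a + 1) by ring]
    rw [zero_add, R, show 2 ^ (3 * a + 2 * 1 + 1) * R a = 2 ^ (3 * a + 1 + 1) * (2 * R a) by ring] at h
    omega
  rcases Nat.even_or_odd' m with ⟨_ | a, rfl | rfl⟩
  · simp [R, h0]
  · exact (k 0).trans (by omega)
  · have := C1 hu hp 0 (3 * (2 * a + 1) + 1) (R (2 * a + 1))
      ((R_lt _).1.trans_le (Nat.pow_le_pow_right (by norm_num) (by omega)))
    have := k a
    rw [show 2 * (a + 1) = 2 * a + 1 + 1 by ring, R_top]
    simp only [zero_add, mul_one, mul_zero, show ∀ x : ℕ, 3 * x + 1 + 1 = 3 * x + 2 from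
      fun _ => rfl] at *
    omega
  · exact (k _).trans (by omega)

theorem gl_G (L n : ℕ) (hn : n % 2 = 0) (J : ℤ) (h : T (gl L n) J) (j : ℕ) :
    T (gl (L + 3 * j) (2 ^ (3 * j) * n + R j)) (J + j) ∧
      ph (gl (L + 3 * j) (2 ^ (3 * j) * n + R j)) = ph (gl L n) + j ∧
      (2 ^ (3 * j) * n + R j) % 2 = 0 := by
  induction j with
  | zero => simpa [R] using ⟨h, hn⟩
  | succ j ih =>
    rw [show 2 ^ (3 * (j + 1)) * n + R (j + 1) = 8 * (2 ^ (3 * j) * n + R j) + 4 by rw [R]; ring,
      show L + 3 * (j + 1) = L + 3 * j + 1 + 1 + 1 by ring]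
    generalize 2 ^ (3 * j) * n + R j = x at *
    have e : gl (L + 3 * j + 1 + 1 + 1) (8 * x + 4) = false :: true :: true :: gl (L + 3 * j) x := by
      simp only [gl]
      rw [show (8 * x + 4) / 2 / 2 / 2 = x by omega]
      congr 1
      · simp; omega
      congr 1
      · simp; omega
      congr 1
      simp; omega
    rw [e]
    exact ⟨ih.1.d.cast (by push_cast; ring), by simp [ph_t, ph_f, ih.2.1]; omega, by omega⟩

theorem Q_ge (hu : PD u) (hp : IsP u p) (i j : ℕ) :
    i + j + (if i = j then 0 else 1) ≤ p (2 ^ (3 * j + 1) * R i + R j) := by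
  have a := gl_G 0 0 rfl 0 .nil i
  simp only [mul_zero, zero_add] at a
  have e : gl (3 * i + 1) (2 * R i) = false :: gl (3 * i) (R i) := by
    rw [gl, show 2 * R i / 2 = R i by omega]; congr 1; simp; omega
  have b := gl_G (3 * i + 1) (2 * R i) (by omega) _ (e ▸ a.1.z) j
  rw [e, ph_f, a.2.1, ← mul_assoc, ← pow_succ] at b
  refine le_trans ?_ (hp.lb (psi (3 * i + 1 + 3 * j)) (2 ^ (3 * i + 1 + 3 * j)) ?_
    (fun x y h1 h2 h3 => hu.psi_le h1 h2 h3) _ ?_)
  · unfold psi
    rw [b.2.1]
    split_ifs with h1 h2 h2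
    · simp [gl, ph]
    · simp [gl, ph]
    · simp [gl, ph]
    · exact absurd ⟨_, by omega, b.1⟩ h2
  · unfold psi
    rw [(ph_zero _).1, if_neg]
    rintro ⟨J, h1, h2⟩
    exact h1 (h2.zero (ph_zero _).1)
  · have := (R_lt i).1
    have := (R_lt j).1
    have : 2 ^ (3 * j + 1) * (R i + 1) ≤ 2 ^ (3 * j + 1) * 2 ^ (3 * i) := Nat.mul_le_mul_left _ (by omega)
    rw [show 2 ^ (3 * i + 1 + 3 * j) = 2 ^ (3 * j + 1) * 2 ^ (3 * i) by ring]
    rw [mul_add, pow_succ] at this
    rw [pow_succ]
    omega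

theorem fin3 (M : Submodule ℤ (ℕ → ℤ)) (hM : M.FG) (F : ℕ → ℕ → ℤ) (hF : ∀ j, F j ∈ M) :
    ∃ i j, i < j ∧ ∀ n, F i n % 3 = F j n % 3 := by
  let φ : (ℕ → ℤ) →ₗ[ℤ] (ℕ → ZMod 3) := (Int.castAddHom (ZMod 3)).toIntLinearMap.compLeft ℕ
  have : Module.Finite ℤ (M.map φ) := Module.Finite.iff_fg.2 (hM.map φ)
  have : Finite (M.map φ) := Module.finite_of_fg_torsion _ fun x =>
    ⟨⟨3, mem_nonZeroDivisors_of_ne_zero (by norm_num)⟩, Subtype.ext (funext fun n => by
      change (3 : ℤ) • x.1 n = 0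
      generalize x.1 n = y
      revert y; decide)⟩
  obtain ⟨i, j, hij, h⟩ := Finite.exists_ne_map_eq_of_infinite
    fun j => (⟨φ (F j), Submodule.mem_map_of_mem (hF j)⟩ : M.map φ)
  have k : ∀ n, F i n % 3 = F j n % 3 := fun n =>
    (ZMod.intCast_eq_intCast_iff' _ _ 3).1 (congrFun (congrArg Subtype.val h) n)
  rcases lt_or_gt_of_ne hij with l | l
  exacts [⟨i, j, l, k⟩, ⟨j, i, l, fun n => (k n).symm⟩]

theorem main (hu : PD u) (hp : IsP u p) : ¬ (Submodule.span ℤ {f : ℕ → ℤ | ∃ e r : ℕ, r < 2 ^ e ∧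
    f = fun n : ℕ => ((p (2 ^ e * n + r) : ℕ) : ℤ)}).FG := fun hM => by
  obtain ⟨i, j, l, k⟩ := fin3 _ hM (fun j n => p (2 ^ (3 * (3 * j) + 1) * n + R (3 * j)))
    fun j => Submodule.subset_span ⟨_, _, (R_lt _).1.trans_le
      (Nat.pow_le_pow_right (by norm_num) (by omega)), rfl⟩
  have k := k (R (3 * i))
  have a := Q_ge hu hp (3 * i) (3 * i)
  have b := Q_ge hu hp (3 * i) (3 * j)
  have c := pairs hu hp 0 (3 * i) 0
  have d := pairs hu hp (3 * j - 3 * i) (3 * i) 0
  have e := R_le hu hp (3 * j - 3 * i)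
  have := hp.zero
  rw [if_pos rfl] at a
  rw [if_neg (by omega)] at b
  rw [show 3 * j - 3 * i + 3 * i = 3 * j by omega] at d
  simp only [zero_add, mul_zero, add_zero, R] at *
  omega

end Pool.Agent.H24.Ppl
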