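import Mathlib

open Set Filter Topology

universe u

namespace Pool.Agent.H24.Pre

variable {X : Type u} [TopologicalSpace X]

/-- closed preorder -/
def CP (r : X → X → Prop) : Prop :=
  (∀ x, r x x) ∧ (∀ x y z, r x y → r y z → r x z) ∧ IsClosed {p : X × X | r p.1 p.2}

/-- continuous increasing real function -/
def CI (r : X → X → Prop) (f : X → ℝ) : Prop := Continuous f ∧ ∀ x y, r x y → f x ≤ f y

/-- weakly continuous -/
def WC (r : X → X → Prop) : Prop := ∀ x y, r x y → ¬ r y x → ∃ f, CI r f ∧ f x < f y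

/-- continuous multi-utility representation -/
def MU (r : X → X → Prop) : Prop :=
  ∃ F : Set (X → ℝ), (∀ f ∈ F, CI r f) ∧ ∀ x y, r x y ↔ ∀ f ∈ F, f x ≤ f y

def Dec (r : X → X → Prop) (D : Set X) : Prop := ∀ x ∈ D, ∀ z, r z x → z ∈ D

def Inc (r : X → X → Prop) (D : Set X) : Prop := ∀ x ∈ D, ∀ z, r x z → z ∈ D

/-- normal preorder -/
def Nrm (r : X → X → Prop) : Prop :=
  ∀ A B : Set X, IsClosed A → Dec r A → IsClosed B → Inc r B → Disjoint A B →
    ∃ U V : Set X, IsOpen U ∧ Dec r U ∧ IsOpen V ∧ Inc r V ∧ A ⊆ U ∧ B ⊆ V ∧ Disjoint U V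

omit [TopologicalSpace X] in
theorem Dec.compl {r : X → X → Prop} {D : Set X} (h : Dec r D) : Inc r Dᶜ :=
  fun x hx z hz hD => hx (h z hD x hz)

omit [TopologicalSpace X] in
theorem Inc.compl {r : X → X → Prop} {D : Set X} (h : Inc r D) : Dec r Dᶜ :=
  fun x hx z hz hD => hx (h z hD x hz)

theorem urysohn {r : X → X → Prop} (hr : Nrm r) (A B : Set X) (hA : IsClosed A) (hA' : Dec r A)
    (hB : IsClosed B) (hB' : Inc r B) (h : Disjoint A B) :
    ∃ f, CI r f ∧ (∀ x ∈ A, f x = 0) ∧ ∀ x ∈ B, f x = 1 := by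
  let P : Set X → Set X → Prop := fun c u => Dec r u ∧ ∃ c', IsClosed c' ∧ Dec r c' ∧ c ⊆ c' ∧ c' ⊆ u
  let c : Urysohns.CU P :=
    { C := A
      U := Bᶜ
      P_C_U := ⟨hB'.compl, A, hA, hA', subset_rfl, h.subset_compl_right⟩
      closed_C := hA
      open_U := hB.isOpen_compl
      subset := h.subset_compl_right
      hP := by
        rintro c u - ⟨hu, c', h1, h2, h3, h4⟩ ho -
        obtain ⟨V, W, a1, a2, a3, a4, a5, a6, a7⟩ := hr c' uᶜ h1 h2 ho.isClosed_compl hu.compl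
          (disjoint_compl_right.mono_left h4)
        have hc : closure V ⊆ Wᶜ := closure_minimal a7.subset_compl_right a3.isClosed_compl
        have hW : Wᶜ ⊆ u := compl_subset_comm.1 a6
        exact ⟨V, a1, h3.trans a5, hc.trans hW, ⟨a2, c', h1, h2, h3, a5⟩,
          ⟨hu, Wᶜ, a3.isClosed_compl, a4.compl, hc, hW⟩⟩ }
  have hm : ∀ n (c : Urysohns.CU P) x y, r x y → c.approx n x ≤ c.approx n y := by
    intro n
    induction n with
    | zero =>
      intro c x y hxy
      by_cases hy : y ∈ c.U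
      · have hx := c.P_C_U.1 y hy x hxy
        simp [Urysohns.CU.approx, hx, hy]
      · rw [c.approx_of_notMem_U 0 hy]; exact c.approx_le_one 0 x
    | succ n ih =>
      intro c x y hxy
      simp only [Urysohns.CU.approx]
      exact midpoint_le_midpoint (ih _ x y hxy) (ih _ x y hxy)
  refine ⟨c.lim, ⟨c.continuous_lim, fun x y hxy => ?_⟩, fun x hx => c.lim_of_mem_C x hx,
    fun x hx => c.lim_of_notMem_U x (not_not.2 hx)⟩
  exact le_of_tendsto_of_tendsto' (c.tendsto_approx_atTop x) (c.tendsto_approx_atTop y)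
    fun n => hm n c x y hxy

theorem mu_of_nrm {r : X → X → Prop} (h : CP r) (hr : Nrm r) : MU r := by
  refine ⟨{f | CI r f}, fun f hf => hf, fun x y => ⟨fun hxy f hf => hf.2 x y hxy, fun hf => ?_⟩⟩
  by_contra hxy
  obtain ⟨f, h1, h2, h3⟩ := urysohn hr {z | r z y} {z | r x z}
    (h.2.2.preimage (f := fun z => (z, y)) (by fun_prop)) (fun a ha z hz => h.2.1 _ _ _ hz ha)
    (h.2.2.preimage (f := fun z => (x, z)) (by fun_prop)) (fun a ha z hz => h.2.1 _ _ _ ha hz)
    (Set.disjoint_left.2 fun z h1 h2 => hxy (h.2.1 _ _ _ h2 h1))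
  have := hf f h1
  rw [h2 y (h.1 y), h3 x (h.1 x)] at this
  norm_num at this

theorem wc_of_mu {r : X → X → Prop} (h : MU r) : WC r := by
  obtain ⟨F, h1, h2⟩ := h
  intro x y _ hyx
  rw [h2] at hyx
  push Not at hyx
  obtain ⟨f, hf, h⟩ := hyx
  exact ⟨f, h1 f hf, h⟩

theorem nrm_of_wc (H : ∀ r : X → X → Prop, CP r → WC r) (r : X → X → Prop) (h : CP r) :
    Nrm r := by
  intro A B hA hA' hB hB' hd
  rcases A.eq_empty_or_nonempty with rfl | ⟨a, ha⟩
  · exact ⟨∅, univ, isOpen_empty, fun _ h => h.elim, isOpen_univ, fun _ _ _ _ => trivial,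
      subset_rfl, subset_univ _, empty_disjoint _⟩
  rcases B.eq_empty_or_nonempty with rfl | ⟨b, hb⟩
  · exact ⟨univ, ∅, isOpen_univ, fun _ _ _ _ => trivial, isOpen_empty, fun _ h => h.elim,
      subset_univ _, subset_rfl, disjoint_empty _⟩
  have hcp : CP fun x y => r x y ∨ x ∈ A ∨ y ∈ B := by
    refine ⟨fun x => Or.inl (h.1 x), ?_, ?_⟩
    · rintro x y z (h1 | h1 | h1) (h2 | h2 | h2)
      · exact Or.inl (h.2.1 _ _ _ h1 h2)
      · exact Or.inr (Or.inl (hA' y h2 x h1))
      · exact Or.inr (Or.inr h2)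
      · exact Or.inr (Or.inl h1)
      · exact Or.inr (Or.inl h1)
      · exact Or.inr (Or.inl h1)
      · exact Or.inr (Or.inr (hB' y h1 z h2))
      · exact (Set.disjoint_left.1 hd h2 h1).elim
      · exact Or.inr (Or.inr h2)
    · exact h.2.2.union ((hA.preimage continuous_fst).union (hB.preimage continuous_snd))
  obtain ⟨f, ⟨hc, hm⟩, hlt⟩ := H _ hcp a b (Or.inr (Or.inl ha)) (by
    rintro (h1 | h1 | h1)
    · exact Set.disjoint_left.1 hd (hA' a ha b h1) hb
    · exact Set.disjoint_left.1 hd h1 hb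
    · exact Set.disjoint_left.1 hd ha h1)
  refine ⟨{x | f x < (f a + f b) / 2}, {x | (f a + f b) / 2 < f x},
    isOpen_lt hc continuous_const, fun x hx z hz => (hm z x (Or.inl hz)).trans_lt hx,
    isOpen_lt continuous_const hc, fun x hx z hz => lt_of_lt_of_le hx (hm x z (Or.inl hz)),
    fun x hx => ?_, fun x hx => ?_, Set.disjoint_left.2 fun x (h1 : f x < _) (h2 : _ < f x) => lt_asymm h1 h2⟩
  · have := hm x a (Or.inr (Or.inl hx))
    show f x < _
    linarith
  · have := hm b x (Or.inr (Or.inr hx))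
    show _ < f x
    linarith

theorem tfae : List.TFAE [∀ r : X → X → Prop, CP r → WC r, ∀ r : X → X → Prop, CP r → MU r,
    ∀ r : X → X → Prop, CP r → Nrm r] := by
  tfae_have 1 → 3 := nrm_of_wc
  tfae_have 3 → 2 := fun H r h => mu_of_nrm h (H r h)
  tfae_have 2 → 1 := fun H r h => wc_of_mu (H r h)
  tfae_finish

end Pool.Agent.H24.Pre
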