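import Pool.Agent.H24.Pre1

open Set Filter Topology

universe u

namespace Pool.Agent.H24.Pre

variable {X : Type u} [TopologicalSpace X]

theorem CP.flip {r : X → X → Prop} (h : CP r) : CP (fun x y => r y x) :=
  ⟨h.1, fun _ _ _ a b => h.2.1 _ _ _ b a, h.2.2.preimage continuous_swap⟩

theorem closed_down {r : X → X → Prop} (h : CP r) {L : Set X} (hL : IsCompact L) :
    IsClosed {z | ∃ l ∈ L, r z l} := by
  have := isCompact_iff_compactSpace.1 hL
  have h1 : IsClosed {p : X × L | r p.1 p.2.1} :=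
    h.2.2.preimage (f := fun p : X × L => (p.1, p.2.1)) (by fun_prop)
  convert isClosedMap_fst_of_compactSpace _ h1 using 1
  ext z
  simp

theorem iso_of {x : X} (hx : x ∉ derivedSet (univ : Set X)) : ({x} : Set X) ∈ 𝓝 x := by
  rw [mem_derivedSet, accPt_iff_frequently, not_frequently] at hx
  filter_upwards [hx] with y hy
  simpa using hy

def Step (K : Set X) : Prop := ∀ r : X → X → Prop, CP r → ∀ A B : Set X, IsClosed A → Dec r A →
  IsClosed B → Inc r B → Disjoint A B →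
    ∃ A', IsClosed A' ∧ Dec r A' ∧ A ⊆ A' ∧ Disjoint A' B ∧ ∀ x ∈ A ∩ K, A' ∈ 𝓝 x

theorem nrm_of_step (K : ℕ → Set X) (hK : ∀ n, Step (K n)) (hm : Monotone K)
    (hD : derivedSet (univ : Set X) ⊆ ⋃ n, K n) (r : X → X → Prop) (h : CP r) : Nrm r := by
  intro A B hA hA' hB hB' hd
  let G : Set X × Set X → Prop := fun p =>
    IsClosed p.1 ∧ Dec r p.1 ∧ IsClosed p.2 ∧ Inc r p.2 ∧ Disjoint p.1 p.2
  have hs : ∀ n (p : {p // G p}), ∃ q : {p // G p}, p.1.1 ⊆ q.1.1 ∧ p.1.2 ⊆ q.1.2 ∧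
      (∀ x ∈ p.1.1 ∩ K n, q.1.1 ∈ 𝓝 x) ∧ ∀ x ∈ p.1.2 ∩ K n, q.1.2 ∈ 𝓝 x := by
    rintro n ⟨⟨A, B⟩, h1, h2, h3, h4, h5⟩
    obtain ⟨A', a1, a2, a3, a4, a5⟩ := hK n r h A B h1 h2 h3 h4 h5
    obtain ⟨B', b1, b2, b3, b4, b5⟩ := hK n _ h.flip B A' h3 h4 a1 a2 a4.symm
    exact ⟨⟨(A', B'), a1, a2, b1, b2, b4.symm⟩, a3, b3, a5, b5⟩
  choose g g1 g2 g3 g4 using hs
  let s : ℕ → {p // G p} := fun n => Nat.rec ⟨(A, B), hA, hA', hB, hB', hd⟩ (fun n p => g n p) n
  have m1 : Monotone fun n => (s n).1.1 := monotone_nat_of_le_succ fun n => g1 n (s n)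
  have m2 : Monotone fun n => (s n).1.2 := monotone_nat_of_le_succ fun n => g2 n (s n)
  have hopen : ∀ T : ℕ → Set X, Monotone T → (∀ n, ∀ x ∈ T n ∩ K n, T (n + 1) ∈ 𝓝 x) →
      IsOpen (⋃ n, T n) := by
    intro T hT h
    rw [isOpen_iff_mem_nhds]
    intro x hx
    by_cases hxD : x ∈ derivedSet (univ : Set X)
    · obtain ⟨m, hm'⟩ := mem_iUnion.1 hx
      obtain ⟨k, hk⟩ := mem_iUnion.1 (hD hxD)
      exact mem_of_superset (h (max m k) x ⟨hT (le_max_left _ _) hm', hm (le_max_right _ _) hk⟩)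
        (subset_iUnion _ _)
    · exact mem_of_superset (iso_of hxD) (singleton_subset_iff.2 hx)
  refine ⟨⋃ n, (s n).1.1, ⋃ n, (s n).1.2, hopen _ m1 fun n => g3 n (s n), ?_,
    hopen _ m2 fun n => g4 n (s n), ?_, subset_iUnion (fun n => (s n).1.1) 0,
    subset_iUnion (fun n => (s n).1.2) 0, ?_⟩
  · intro x hx z hz
    obtain ⟨n, hn⟩ := mem_iUnion.1 hx
    exact mem_iUnion.2 ⟨n, (s n).2.2.1 x hn z hz⟩
  · intro x hx z hz
    obtain ⟨n, hn⟩ := mem_iUnion.1 hx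
    exact mem_iUnion.2 ⟨n, (s n).2.2.2.2.1 x hn z hz⟩
  · rw [Set.disjoint_left]
    intro x h1 h2
    obtain ⟨n, hn⟩ := mem_iUnion.1 h1
    obtain ⟨k, hk⟩ := mem_iUnion.1 h2
    exact Set.disjoint_left.1 (s (max n k)).2.2.2.2.2 (m1 (le_max_left _ _) hn)
      (m2 (le_max_right _ _) hk)

theorem step_lc [LocallyCompactSpace X] {K : Set X} (hK : IsCompact K) : Step K := by
  intro r h A B hA hA' hB hB' hd
  obtain ⟨L, h1, h2, h3⟩ := exists_compact_between (hK.inter_left hA) hB.isOpen_compl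
    (inter_subset_left.trans hd.subset_compl_right)
  refine ⟨A ∪ {z | ∃ l ∈ L, r z l}, hA.union (closed_down h h1), ?_, subset_union_left, ?_, ?_⟩
  · rintro x (hx | ⟨l, hl, hx⟩) z hz
    · exact Or.inl (hA' x hx z hz)
    · exact Or.inr ⟨l, hl, h.2.1 _ _ _ hz hx⟩
  · rw [Set.disjoint_left]
    rintro x (hx | ⟨l, hl, hx⟩) hb
    · exact Set.disjoint_left.1 hd hx hb
    · exact h3 hl (hB' x hb l hx)
  · intro x hx
    exact mem_of_superset (mem_interior_iff_mem_nhds.1 (h2 hx)) fun y hy => Or.inr ⟨y, hy, h.1 y⟩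

theorem step_cpt (hD : IsCompact (derivedSet (univ : Set X))) :
    Step (derivedSet (univ : Set X)) := by
  intro r h A B hA hA' hB hB' hd
  set D := derivedSet (univ : Set X)
  obtain ⟨W, N, h1, h2, h3, h4, h5⟩ := generalized_tube_lemma (hD.inter_left hB) (hD.inter_left hA)
    h.2.2.isOpen_compl (by
      rintro ⟨b, a⟩ ⟨hb, ha⟩ hr
      exact Set.disjoint_left.1 hd (hA' a ha.1 b hr) hb.1)
  set U := A ∪ {z | ∃ l ∈ N ∩ Bᶜ, r z l} with hU
  have hUd : Dec r U := by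
    rintro x (hx | ⟨l, hl, hx⟩) z hz
    · exact Or.inl (hA' x hx z hz)
    · exact Or.inr ⟨l, hl, h.2.1 _ _ _ hz hx⟩
  have hcl : ∀ x ∈ closure U, x ∉ D → x ∈ U := by
    intro x hx hxD
    obtain ⟨y, rfl, hy⟩ := mem_closure_iff_nhds.1 hx _ (iso_of hxD)
    exact hy
  have hUB : ∀ x ∈ closure U, x ∉ B := by
    intro x hx hb
    by_cases hxD : x ∈ D
    · obtain ⟨y, ⟨a1, a2⟩, a3 | ⟨l, hl, a3⟩⟩ := mem_closure_iff_nhds.1 hx (W ∩ Aᶜ)
        ((h1.inter hA.isOpen_compl).mem_nhds ⟨h3 ⟨hb, hxD⟩, fun ha => Set.disjoint_left.1 hd ha hb⟩)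
      · exact a2 a3
      · exact h5 (mk_mem_prod a1 hl.1) a3
    · rcases hcl x hx hxD with a | ⟨l, hl, a⟩
      · exact Set.disjoint_left.1 hd a hb
      · exact hl.2 (hB' x hb l a)
  refine ⟨closure U ∪ {z | ∃ l ∈ closure U ∩ D, r z l},
    isClosed_closure.union (closed_down h (hD.inter_left isClosed_closure)), ?_,
    fun x hx => Or.inl (subset_closure (Or.inl hx)), ?_, ?_⟩
  · rintro x (hx | ⟨l, hl, hx⟩) z hz
    · by_cases hxD : x ∈ D
      · exact Or.inr ⟨x, ⟨hx, hxD⟩, hz⟩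
      · exact Or.inl (subset_closure (hUd x (hcl x hx hxD) z hz))
    · exact Or.inr ⟨l, hl, h.2.1 _ _ _ hz hx⟩
  · rw [Set.disjoint_left]
    rintro x (hx | ⟨l, hl, hx⟩) hb
    · exact hUB x hx hb
    · exact hUB l hl.1 (hB' x hb l hx)
  · intro x hx
    refine mem_of_superset ((h2.inter hB.isOpen_compl).mem_nhds
      ⟨h4 hx, fun hb => Set.disjoint_left.1 hd hx.1 hb⟩) fun y hy => ?_
    exact Or.inl (subset_closure (Or.inr ⟨y, hy, h.1 y⟩))

theorem nrm_of_cpt (hD : IsCompact (derivedSet (univ : Set X))) (r : X → X → Prop) (h : CP r) :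
    Nrm r :=
  nrm_of_step (fun _ => derivedSet univ) (fun _ => step_cpt hD) monotone_const
    (subset_iUnion (fun _ : ℕ => derivedSet (univ : Set X)) 0) r h

theorem nrm_of_lc [LocallyCompactSpace X] (hD : IsLindelof (derivedSet (univ : Set X)))
    (r : X → X → Prop) (h : CP r) : Nrm r := by
  choose K hK hK' using fun x : X => exists_compact_mem_nhds x
  obtain ⟨t, ht, -, hc⟩ := hD.elim_nhds_subcover K fun x _ => hK' x
  rcases t.eq_empty_or_nonempty with rfl | hne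
  · refine nrm_of_cpt ?_ r h
    have : derivedSet (univ : Set X) = ∅ := by simpa using hc
    rw [this]; exact isCompact_empty
  · obtain ⟨e, rfl⟩ := ht.exists_eq_range hne
    refine nrm_of_step (accumulate fun n => K (e n))
      (fun n => step_lc (isCompact_accumulate (fun n => hK _) n)) monotone_accumulate ?_ r h
    rw [iUnion_accumulate]
    simpa using hc

end Pool.Agent.H24.Pre
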