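import Pool.Agent.H24.Pre2

open Set Filter Topology Metric Cardinal

universe u

namespace Pool.Agent.H24.Pre

variable {X : Type u} [MetricSpace X]

theorem pick {x : X} (hx : x ∈ derivedSet (univ : Set X)) {P : X → Prop}
    (hP : ∀ᶠ y in 𝓝[≠] x, P y) (δ : ℝ) (hδ : 0 < δ) : ∃ y, y ≠ x ∧ P y ∧ dist y x < δ := by
  rw [mem_derivedSet, accPt_iff_frequently_nhdsNE] at hx
  have h1 : ∀ᶠ y in 𝓝[≠] x, dist y x < δ := mem_nhdsWithin_of_mem_nhds (ball_mem_nhds x hδ)
  have h2 : ∀ᶠ y in 𝓝[≠] x, y ≠ x := self_mem_nhdsWithin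
  obtain ⟨y, -, h⟩ := (hx.and_eventually (h2.and (hP.and h1))).exists
  exact ⟨y, h⟩

theorem tend {z : ℕ → X} {x : X} (h : ∀ l, dist (z l) x < 1 / ((l : ℝ) + 1)) :
    Tendsto z atTop (𝓝 x) := by
  rw [tendsto_iff_dist_tendsto_zero]
  exact squeeze_zero (fun _ => dist_nonneg) (fun l => (h l).le)
    tendsto_one_div_add_atTop_nhds_zero_nat

theorem sep_set (D : Set X) (h : ¬ TopologicalSpace.IsSeparable D) :
    ∃ ε > 0, ∃ Z ⊆ D, ¬ Z.Countable ∧ Z.Pairwise fun x y => ε ≤ dist x y := by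
  by_contra hc
  push Not at hc
  apply h
  have : ∀ n : ℕ, ∃ Z : Set X, Z.Countable ∧ ∀ x ∈ D, ∃ z ∈ Z, dist x z < 1 / ((n : ℝ) + 1) := by
    intro n
    have hp : (0 : ℝ) < 1 / ((n : ℝ) + 1) := by positivity
    obtain ⟨Z, hZ⟩ := zorn_subset
      {Z : Set X | Z ⊆ D ∧ Z.Pairwise fun x y => 1 / ((n : ℝ) + 1) ≤ dist x y} (by
      intro c hc hch
      refine ⟨⋃₀ c, ⟨sUnion_subset fun Z hZ => (hc hZ).1, ?_⟩, fun s hs => subset_sUnion_of_mem hs⟩
      exact (pairwise_sUnion hch.directedOn).2 fun Z hZ => (hc hZ).2)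
    refine ⟨Z, ?_, fun x hx => ?_⟩
    · by_contra hcc
      exact hc _ hp Z hZ.prop.1 hcc hZ.prop.2
    · by_contra hn
      push Not at hn
      have : insert x Z ⊆ Z := by
        refine hZ.le_of_ge (y := insert x Z) ⟨insert_subset hx hZ.prop.1, ?_⟩ (subset_insert _ _)
        exact hZ.prop.2.insert fun z hz _ => ⟨hn z hz, dist_comm x z ▸ hn z hz⟩
      have := hn x (this (mem_insert _ _))
      rw [dist_self] at this
      linarith
  choose Z h1 h2 using this
  refine ⟨⋃ n, Z n, countable_iUnion h1, fun x hx => Metric.mem_closure_iff.2 fun ε hε => ?_⟩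
  obtain ⟨n, hn⟩ := exists_nat_one_div_lt hε
  obtain ⟨z, hz, h⟩ := h2 n x hx
  exact ⟨z, mem_iUnion.2 ⟨n, hz⟩, h.trans hn⟩

theorem sep_of_nrm (H : ∀ r : X → X → Prop, CP r → Nrm r) :
    TopologicalSpace.IsSeparable (derivedSet (univ : Set X)) := by
  classical
  by_contra hs
  obtain ⟨ε, hε, Z, hZD, hZ, hp⟩ := sep_set _ hs
  let W := (ℵ₁ : Cardinal.{u}).ord.ToType
  have hW : #W = ℵ₁ := mk_ord_toType _
  have hcI : ∀ b : W, (Iio b).Countable := fun b =>
    (countable_iff_lt_aleph_one _).2 (mk_Iio_toType_ord_lt b)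
  have hWu : ¬ (Set.univ : Set W).Countable := by
    rw [countable_iff_lt_aleph_one, mk_univ, hW]; exact lt_irrefl _
  have hle : #(W ⊕ W) ≤ #Z := by
    rw [mk_sum, lift_id, hW, add_eq_self aleph0_lt_aleph_one.le]
    exact not_lt.1 fun h => hZ ((countable_iff_lt_aleph_one _).2 h)
  obtain ⟨e⟩ := (Cardinal.le_def _ _).1 hle
  choose ρ hρ using fun b => countable_iff_exists_injOn.1 (hcI b)
  choose z z1 z2 z3 using fun (c : W ⊕ W) (l : ℕ) => pick (hZD (e c).2)
    (P := fun y => dist y (e c).1 < ε / 4)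
    (mem_nhdsWithin_of_mem_nhds (ball_mem_nhds _ (by positivity))) (1 / ((l : ℝ) + 1))
    (by positivity)
  have hfar : ∀ c c', c ≠ c' → ε ≤ dist (e c).1 (e c').1 := fun c c' h =>
    hp (e c).2 (e c').2 fun h' => h (e.injective (Subtype.ext h'))
  have hzz : ∀ c c' l l', c ≠ c' → ε / 2 ≤ dist (z c l) (z c' l') := by
    intro c c' l l' h
    have := dist_triangle4 (e c).1 (z c l) (z c' l') (e c').1
    rw [dist_comm (e c).1 (z c l)] at this
    linarith [hfar c c' h, z2 c l, z2 c' l']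
  have hze : ∀ c c' l, z c l ≠ (e c').1 := by
    intro c c' l h
    by_cases hc : c = c'
    · exact z1 c l (hc ▸ h)
    · have := z2 c l
      rw [h, dist_comm] at this
      linarith [hfar c c' hc]
  let R : Set (X × X) := {p | ∃ a b : W, a < b ∧ p = (z (.inr b) (ρ b a), z (.inl a) (ρ b a))}
  have hR : IsClosed R := by
    refine isClosed_of_pairwise_le_dist (half_pos hε) ?_
    rintro _ ⟨a, b, -, rfl⟩ _ ⟨a', b', -, rfl⟩ hne
    rw [Prod.dist_eq]
    by_cases hb : b = b'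
    · subst hb
      exact le_max_of_le_right (hzz _ _ _ _ fun h => hne (by rw [Sum.inl_injective h]))
    · exact le_max_of_le_left (hzz _ _ _ _ fun h => hb (Sum.inr_injective h))
  have hcp : CP fun x y => x = y ∨ (x, y) ∈ R := by
    refine ⟨fun x => Or.inl rfl, ?_, isClosed_diagonal.union hR⟩
    rintro x y w (rfl | h1) (rfl | h2)
    · exact Or.inl rfl
    · exact Or.inr h2
    · exact Or.inr h1
    · obtain ⟨a, b, -, h1⟩ := h1
      obtain ⟨a', b', -, h2⟩ := h2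
      have := hzz (.inl a) (.inr b') (ρ b a) (ρ b' a') (by simp)
      rw [← (Prod.mk.inj h1).2, ← (Prod.mk.inj h2).1, dist_self] at this
      linarith
  have hcl : ∀ i : W → W ⊕ W, IsClosed (range fun a => (e (i a)).1) := fun i =>
    isClosed_of_pairwise_le_dist hε (hp.mono (by rintro _ ⟨a, rfl⟩; exact (e _).2))
  obtain ⟨U, V, h1, h2, h3, h4, h5, h6, h7⟩ := H _ hcp _ _ (hcl Sum.inl) (by
      rintro x hx y (rfl | ⟨a, b, -, h⟩)
      · exact hx
      · obtain ⟨c, rfl⟩ := hx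
        exact (hze _ _ _ (Prod.mk.inj h).2.symm).elim) (hcl Sum.inr) (by
      rintro x hx y (rfl | ⟨a, b, -, h⟩)
      · exact hx
      · obtain ⟨c, rfl⟩ := hx
        exact (hze _ _ _ (Prod.mk.inj h).1.symm).elim) (by
      rw [Set.disjoint_left]
      rintro _ ⟨a, rfl⟩ ⟨b, h⟩
      have := e.injective (Subtype.ext h)
      simp at this)
  choose f hf using fun a => eventually_atTop.1 ((tend (z3 (.inl a))).eventually
    (h1.mem_nhds (h5 ⟨a, rfl⟩)))
  choose g hg using fun b => eventually_atTop.1 ((tend (z3 (.inr b))).eventually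
    (h3.mem_nhds (h6 ⟨b, rfl⟩)))
  obtain ⟨n, hn⟩ : ∃ n, {a | f a = n}.Infinite := by
    by_contra hc
    push Not at hc
    exact hWu ((countable_iUnion fun n => (hc n).countable).mono fun a _ => mem_iUnion.2 ⟨f a, rfl⟩)
  let c := hn.natEmbedding
  obtain ⟨b, -, hb⟩ := not_subset.1 fun h : Set.univ ⊆ ⋃ i, insert (c i).1 (Iio (c i).1) =>
    hWu ((countable_iUnion fun i => (hcI _).insert _).mono h)
  have hlt : ∀ i, (c i).1 < b := fun i => by
    by_contra h
    exact hb (mem_iUnion.2 ⟨i, by rw [Iio_insert]; exact not_lt.1 h⟩)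
  have hinj : Function.Injective fun i => ρ b (c i).1 := fun i j h =>
    c.injective (Subtype.ext (hρ b (hlt i) (hlt j) h))
  obtain ⟨i, hi⟩ := (hinj.nat_tendsto_atTop.eventually_ge_atTop (max n (g b))).exists
  have a1 := hf (c i).1 (ρ b (c i).1) (by rw [(c i).2]; exact (le_max_left _ _).trans hi)
  have a2 := hg b (ρ b (c i).1) ((le_max_right _ _).trans hi)
  exact Set.disjoint_left.1 h7 (h2 _ a1 _ (Or.inr ⟨_, _, hlt i, rfl⟩)) a2

theorem esc (C : Set X) (hC : IsClosed C) (h : ¬ IsCompact C) (p : X) :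
    ∃ s : ℕ → X, (∀ n, s n ∈ C ∧ s n ≠ p) ∧ ∀ x, ∃ N ∈ 𝓝 x, ∀ᶠ n in atTop, s n ∉ N := by
  rw [isCompact_iff_isSeqCompact] at h
  unfold IsSeqCompact at h
  push Not at h
  obtain ⟨s, hs, h⟩ := h
  have key : ∀ x, ∃ N ∈ 𝓝 x, ∀ᶠ n in atTop, s n ∉ N := by
    intro x
    by_contra hc
    have : MapClusterPt x atTop s := by
      rw [mapClusterPt_iff_frequently]
      intro N hN
      by_contra hf
      exact hc ⟨N, hN, not_frequently.1 hf⟩
    obtain ⟨φ, h1, h2⟩ := this.tendsto_subseq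
    exact h x (hC.mem_of_tendsto h2 (Eventually.of_forall fun n => hs _)) φ h1 h2
  obtain ⟨N, hN, hp⟩ := key p
  obtain ⟨k, hk⟩ := eventually_atTop.1 hp
  refine ⟨fun n => s (n + k), fun n => ⟨hs _, fun h : s (n + k) = p => hk (n + k) (by omega)
    (h ▸ mem_of_mem_nhds hN)⟩, fun x => ?_⟩
  obtain ⟨N, hN, h⟩ := key x
  exact ⟨N, hN, (tendsto_add_atTop_nat k).eventually h⟩

theorem ev_ne (x a : X) : ∀ᶠ y in 𝓝[≠] x, y ≠ a := by
  rcases eq_or_ne x a with rfl | h
  exacts [self_mem_nhdsWithin, eventually_ne_nhdsWithin h]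

theorem avoid {s : ℕ → X} {x : X} (h : ∃ N ∈ 𝓝 x, ∀ᶠ n in atTop, s n ∉ N) :
    ∀ᶠ y in 𝓝[≠] x, ∀ n, y ≠ s n := by
  obtain ⟨N, hN, h⟩ := h
  obtain ⟨k, hk⟩ := eventually_atTop.1 h
  have h1 : ∀ᶠ y in 𝓝[≠] x, ∀ n ∈ Finset.range k, y ≠ s n :=
    (Finset.eventually_all _).2 fun n _ => ev_ne x (s n)
  filter_upwards [h1, mem_nhdsWithin_of_mem_nhds hN] with y a b n
  rcases lt_or_ge n k with h | h
  · exact a n (Finset.mem_range.2 h)
  · exact fun e => hk n h (e ▸ b)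

theorem lc_of_nrm (H : ∀ r : X → X → Prop, CP r → Nrm r)
    (hD : ¬ IsCompact (derivedSet (univ : Set X))) : LocallyCompactSpace X := by
  suffices WeaklyLocallyCompactSpace X from inferInstance
  refine ⟨fun p => ?_⟩
  by_contra hp
  have hpos : ∀ n : ℕ, (0 : ℝ) < 1 / ((n : ℝ) + 1) := fun n => by positivity
  obtain ⟨s, hs, hs'⟩ := esc _ (isClosed_derivedSet _) hD p
  choose u hu hu' using fun n : ℕ => esc (closedBall p (1 / ((n : ℝ) + 1))) isClosed_closedBall
    (fun h => hp ⟨_, h, closedBall_mem_nhds p (hpos n)⟩) p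
  have hav : ∀ x, x ≠ p → ∀ᶠ y in 𝓝[≠] x, (∀ n, y ≠ s n) ∧ ∀ n l, y ≠ u n l := by
    intro x hx
    have hd : 0 < dist x p / 2 := half_pos (dist_pos.2 hx)
    obtain ⟨k, hk⟩ := exists_nat_one_div_lt hd
    have h1 : ∀ᶠ y in 𝓝[≠] x, ∀ n ∈ Finset.range k, ∀ l, y ≠ u n l :=
      (Finset.eventually_all _).2 fun n _ => avoid (hu' n x)
    filter_upwards [avoid (hs' x), h1, mem_nhdsWithin_of_mem_nhds (ball_mem_nhds x hd)]
      with y a b c
    refine ⟨a, fun n l => ?_⟩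
    rcases lt_or_ge n k with h | h
    · exact b n (Finset.mem_range.2 h) l
    · rintro rfl
      have h2 : dist (u n l) p ≤ 1 / ((n : ℝ) + 1) := (hu n l).1
      have h3 : 1 / ((n : ℝ) + 1) ≤ 1 / ((k : ℝ) + 1) := Nat.one_div_le_one_div h
      have h4 : dist (u n l) x < dist x p / 2 := c
      linarith [dist_triangle_left x p (u n l)]
  choose v v1 v2 v3 using fun n : ℕ => pick (hs 0).1 (hav _ (hs 0).2) _ (hpos n)
  choose w w1 w2 w3 using fun n l : ℕ =>
    pick (hs n).1 ((hav _ (hs n).2).and (ev_ne _ (s 0))) _ (hpos (n + l))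
  have w4 : ∀ n l, dist (w n l) (s n) < 1 / ((n : ℝ) + 1) := fun n l =>
    (w3 n l).trans_le (Nat.one_div_le_one_div (by omega))
  have w5 : ∀ n l, dist (w n l) (s n) < 1 / ((l : ℝ) + 1) := fun n l =>
    (w3 n l).trans_le (Nat.one_div_le_one_div (by omega))
  have c1 : IsClosed (⋃ n, ({(v n, s n)} : Set (X × X))) := by
    refine LocallyFinite.isClosed_iUnion (fun x => ?_) fun _ => isClosed_singleton
    obtain ⟨N, hN, h⟩ := hs' x.2
    obtain ⟨k, hk⟩ := eventually_atTop.1 h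
    refine ⟨Prod.snd ⁻¹' N, continuous_snd.continuousAt.preimage_mem_nhds hN,
      (finite_lt_nat k).subset fun n hn => ?_⟩
    by_contra h
    obtain ⟨_, rfl, h'⟩ := hn
    exact hk n (not_lt.1 h) h'
  have c2 : IsClosed (⋃ i : ℕ × ℕ, ({(w i.1 i.2, u i.1 i.2)} : Set (X × X))) := by
    refine LocallyFinite.isClosed_iUnion (fun x => ?_) fun _ => isClosed_singleton
    obtain ⟨N, hN, h⟩ := hs' x.1
    obtain ⟨δ, hδ, hb⟩ := Metric.mem_nhds_iff.1 hN
    obtain ⟨k, hk⟩ := eventually_atTop.1 (h.and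
      (tendsto_one_div_add_atTop_nhds_zero_nat.eventually (gt_mem_nhds (half_pos hδ))))
    choose M hM hM' using fun n => hu' n x.2
    choose L hL using fun n => eventually_atTop.1 (hM' n)
    refine ⟨ball x.1 (δ / 2) ×ˢ ⋂ n ∈ Finset.range k, M n,
      prod_mem_nhds (ball_mem_nhds _ (half_pos hδ)) ((biInter_finset_mem _).2 fun n _ => hM n),
      ((finite_lt_nat k).biUnion fun n _ =>
        (finite_singleton n).prod (finite_lt_nat (L n))).subset ?_⟩
    rintro ⟨n, l⟩ ⟨_, rfl, h1, h2⟩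
    have hn : n < k := by
      by_contra hn
      obtain ⟨a, b⟩ := hk n (not_lt.1 hn)
      refine a (hb ?_)
      have h3 : dist (w n l) x.1 < δ / 2 := h1
      have := dist_triangle_left (s n) x.1 (w n l)
      rw [mem_ball]
      linarith [w4 n l]
    refine mem_biUnion (x := n) hn ⟨rfl, ?_⟩
    by_contra hl
    exact hL n l (not_lt.1 hl) (mem_iInter₂.1 h2 n (Finset.mem_range.2 hn))
  have hcp : CP fun x y => x = y ∨ (x, y) ∈ (⋃ n, ({(v n, s n)} : Set (X × X))) ∪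
      ⋃ i : ℕ × ℕ, ({(w i.1 i.2, u i.1 i.2)} : Set (X × X)) := by
    refine ⟨fun x => Or.inl rfl, ?_, isClosed_diagonal.union (c1.union c2)⟩
    rintro x y z (rfl | h1) (rfl | h2)
    · exact Or.inl rfl
    · exact Or.inr h2
    · exact Or.inr h1
    · exfalso
      simp only [mem_union, mem_iUnion, mem_singleton_iff, Prod.mk.injEq] at h1 h2
      rcases h1 with ⟨n, -, h1⟩ | ⟨i, -, h1⟩ <;> rcases h2 with ⟨m, h2, -⟩ | ⟨j, h2, -⟩
      · exact (v2 m).1 n (h2.symm.trans h1)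
      · exact (w2 _ _).1.1 n (h2.symm.trans h1)
      · exact (v2 m).2 _ _ (h2.symm.trans h1)
      · exact (w2 _ _).1.2 _ _ (h2.symm.trans h1)
  obtain ⟨U, V, h1, h2, h3, h4, h5, h6, h7⟩ := H _ hcp {p} {s 0} isClosed_singleton (by
      rintro x rfl y (rfl | h)
      · rfl
      · simp only [mem_union, mem_iUnion, mem_singleton_iff, Prod.mk.injEq] at h
        rcases h with ⟨n, -, h⟩ | ⟨i, -, h⟩
        · exact ((hs n).2 h.symm).elim
        · exact ((hu _ _).2 h.symm).elim) isClosed_singleton (by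
      rintro x rfl y (rfl | h)
      · rfl
      · simp only [mem_union, mem_iUnion, mem_singleton_iff, Prod.mk.injEq] at h
        rcases h with ⟨n, h, -⟩ | ⟨i, h, -⟩
        · exact (v1 n h.symm).elim
        · exact ((w2 _ _).2 h.symm).elim) (disjoint_singleton.2 (hs 0).2.symm)
  obtain ⟨δ, hδ, hb⟩ := Metric.mem_nhds_iff.1 (h1.mem_nhds (h5 rfl))
  obtain ⟨n, a1, a2⟩ := (((tend v3).eventually (h3.mem_nhds (h6 rfl))).and
    (tendsto_one_div_add_atTop_nhds_zero_nat.eventually (gt_mem_nhds hδ))).exists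
  have a3 : s n ∈ V := h4 _ a1 _ (Or.inr (Or.inl (mem_iUnion.2 ⟨n, rfl⟩)))
  obtain ⟨l, a4⟩ := ((tend (w5 n)).eventually (h3.mem_nhds a3)).exists
  have a5 : u n l ∈ U := hb (closedBall_subset_ball a2 (hu n l).1)
  exact Set.disjoint_left.1 h7 (h2 _ a5 _ (Or.inr (Or.inr (mem_iUnion.2 ⟨(n, l), rfl⟩)))) a4

theorem metric_char : (∀ r : X → X → Prop, CP r → WC r) ↔ IsCompact (derivedSet (univ : Set X)) ∨
    (LocallyCompactSpace X ∧ TopologicalSpace.IsSeparable (derivedSet (univ : Set X))) := by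
  refine Iff.trans (b := ∀ r : X → X → Prop, CP r → Nrm r)
    ⟨nrm_of_wc, fun H r h => wc_of_mu (mu_of_nrm h (H r h))⟩ ?_
  constructor
  · intro H
    by_cases h : IsCompact (derivedSet (univ : Set X))
    · exact Or.inl h
    · exact Or.inr ⟨lc_of_nrm H h, sep_of_nrm H⟩
  · rintro (h | ⟨h, h'⟩)
    · exact nrm_of_cpt h
    · have := h'.secondCountableTopology
      exact nrm_of_lc (isLindelof_iff_lindelofSpace.2 inferInstance)

end Pool.Agent.H24.Pre
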