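import Mathlib

set_option autoImplicit false

namespace Pool.Agent.H24.Quint

theorem int_sq (W : ℤ) (y : ℚ) (h : (W : ℚ) = y ^ 2) : ∃ c : ℤ, W = c ^ 2 := by
  have : IsSquare (W : ℚ) := ⟨y, by rw [h, sq]⟩
  obtain ⟨c, hc⟩ := Rat.isSquare_intCast_iff.1 this
  exact ⟨c, by rw [hc, sq]⟩

theorem step (A B : ℤ) (X z : ℚ) (hX : X ≠ 0) (h : X ^ 2 + A * X + B = z ^ 2 * X) :
    ∃ d e m n k : ℤ, d * e = B ∧ m ≠ 0 ∧ n ≠ 0 ∧ IsCoprime (d * m) n ∧ IsCoprime m e ∧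
      k ^ 2 = d * m ^ 4 + A * m ^ 2 * n ^ 2 + e * n ^ 4 ∧ z ^ 2 * (m * n) ^ 2 = k ^ 2 := by
  obtain ⟨N, D, hD, hND, rfl⟩ : ∃ N D : ℤ, 0 < D ∧ IsCoprime N D ∧ X = N / D :=
    ⟨X.num, X.den, by exact_mod_cast X.den_pos, Int.isCoprime_iff_gcd_eq_one.2 X.reduced,
      by exact_mod_cast (Rat.num_div_den X).symm⟩
  have hD' : (D : ℚ) ≠ 0 := by exact_mod_cast hD.ne'
  have hN : N ≠ 0 := by rintro rfl; simp at hX
  have hK : ((N ^ 2 + A * N * D + B * D ^ 2 : ℤ) : ℚ) = z ^ 2 * N * D := by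
    push_cast; field_simp at h; linear_combination h
  obtain ⟨c, hc⟩ := int_sq (D * (N * (N ^ 2 + A * N * D + B * D ^ 2))) (z * N * D) (by
    rw [Int.cast_mul, Int.cast_mul, hK]; ring)
  have hco : IsCoprime D (N * (N ^ 2 + A * N * D + B * D ^ 2)) := by
    refine IsCoprime.mul_right hND.symm ?_
    have : N ^ 2 + A * N * D + B * D ^ 2 = N ^ 2 + D * (A * N + B * D) := by ring
    rw [this]
    exact IsCoprime.add_mul_left_right (hND.symm.pow_right) _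
  obtain ⟨n, hn⟩ := Int.sq_of_isCoprime hco hc
  have hn' : D = n ^ 2 := by
    rcases hn with h1 | h1
    · exact h1
    · nlinarith [sq_nonneg n]
  subst hn'
  have hn0 : n ≠ 0 := by rintro rfl; simp at hD
  obtain ⟨g, N1, e0, hg, hco1, rfl, rfl⟩ := Int.exists_gcd_one' (m := N) (n := B) (Int.gcd_pos_of_ne_zero_left B hN)
  have hg' : ((g : ℤ) : ℚ) ≠ 0 := by exact_mod_cast hg.ne'
  have hN1 : N1 ≠ 0 := left_ne_zero_of_mul hN
  have hK1 : ((g * N1 ^ 2 + A * N1 * n ^ 2 + e0 * n ^ 4 : ℤ) : ℚ) = z ^ 2 * N1 * n ^ 2 := by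
    apply mul_left_cancel₀ hg'
    push_cast at hK ⊢
    linear_combination hK
  have hc1 : IsCoprime N1 e0 := Int.isCoprime_iff_gcd_eq_one.2 hco1
  have hc2 : IsCoprime (N1 * g) n := (IsCoprime.pow_right_iff (by norm_num)).1 hND
  obtain ⟨c1, hc1'⟩ := int_sq (N1 * (g * N1 ^ 2 + A * N1 * n ^ 2 + e0 * n ^ 4)) (z * N1 * n) (by
    rw [Int.cast_mul, hK1]; ring)
  have hco3 : IsCoprime N1 (g * N1 ^ 2 + A * N1 * n ^ 2 + e0 * n ^ 4) := by
    have : g * N1 ^ 2 + A * N1 * n ^ 2 + e0 * n ^ 4 = e0 * n ^ 4 + N1 * (g * N1 + A * n ^ 2) := by ring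
    rw [this]
    exact IsCoprime.add_mul_left_right (IsCoprime.mul_right hc1 (hc2.of_mul_left_left.pow_right)) _
  obtain ⟨m, hm⟩ := Int.sq_of_isCoprime hco3 hc1'
  have hm0 : m ≠ 0 := by rintro rfl; simp [hN1] at hm
  have hmN : m ∣ N1 := by rcases hm with h1 | h1 <;> rw [h1] <;> simp [dvd_pow_self]
  have hc4 : IsCoprime (g * m) n :=
    IsCoprime.mul_left hc2.of_mul_left_right (hc2.of_mul_left_left.of_isCoprime_of_dvd_left hmN)
  have hc5 : IsCoprime m e0 := hc1.of_isCoprime_of_dvd_left hmN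
  rcases hm with h1 | h1
  · subst h1
    obtain ⟨k, hk⟩ := int_sq _ (z * m * n) (by rw [hK1]; push_cast; ring)
    refine ⟨g, e0, m, n, k, mul_comm _ _, hm0, hn0, hc4, hc5, by rw [← hk]; ring, ?_⟩
    rw [hk] at hK1
    push_cast at hK1
    rw [hK1]; ring
  · subst h1
    obtain ⟨k, hk⟩ := int_sq (-(g * (-m ^ 2) ^ 2 + A * (-m ^ 2) * n ^ 2 + e0 * n ^ 4)) (z * m * n)
      (by rw [Int.cast_neg, hK1]; push_cast; ring)
    refine ⟨-g, -e0, m, n, k, by ring, hm0, hn0, ?_, hc5.neg_right, by rw [← hk]; ring, ?_⟩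
    · rw [neg_mul]; exact hc4.neg_left
    · have : ((k ^ 2 : ℤ) : ℚ) = z ^ 2 * (m * n) ^ 2 := by
        rw [← hk, Int.cast_neg, hK1]; push_cast; ring
      exact_mod_cast this.symm

/-- lowest terms -/
theorem dvd_den (U V k r : ℤ) (hco : IsCoprime k r) (h : U ^ 2 * r ^ 2 = k ^ 2 * V ^ 2) : r ∣ V := by
  have : r ^ 2 ∣ k ^ 2 * V ^ 2 := ⟨U ^ 2, by rw [← h]; ring⟩
  have h2 : r ^ 2 ∣ V ^ 2 := (hco.symm.pow (m := 2) (n := 2)).dvd_of_dvd_mul_left this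
  exact (Int.pow_dvd_pow_iff (by norm_num)).1 h2

theorem cop_k (d e m n k A : ℤ) (h1 : IsCoprime (d * m) n) (h2 : IsCoprime m e)
    (hk : k ^ 2 = d * m ^ 4 + A * m ^ 2 * n ^ 2 + e * n ^ 4) : IsCoprime k (m * n) := by
  rw [← IsCoprime.pow_left_iff (m := 2) (by norm_num), hk]
  refine IsCoprime.mul_right ?_ ?_
  · have : d * m ^ 4 + A * m ^ 2 * n ^ 2 + e * n ^ 4 = e * n ^ 4 + m * (d * m ^ 3 + A * m * n ^ 2) := by ring
    rw [this]
    exact IsCoprime.add_mul_left_left (IsCoprime.mul_left h2.symm (h1.of_mul_left_right.symm.pow_left)) _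
  · have : d * m ^ 4 + A * m ^ 2 * n ^ 2 + e * n ^ 4 = d * m ^ 4 + n * (A * m ^ 2 * n + e * n ^ 3) := by ring
    rw [this]
    exact IsCoprime.add_mul_left_left (IsCoprime.mul_left h1.of_mul_left_left (h1.of_mul_left_right.pow_left)) _

theorem loc3 (d e m n k A : ℤ) (h1 : IsCoprime (3 * d * m) n) (h2 : IsCoprime m (3 * e))
    (hde : (d * e) % 3 = 2) (hA : A % 3 = 2)
    (hk : k ^ 2 = 3 * d * m ^ 4 + 3 * A * m ^ 2 * n ^ 2 + 3 * e * n ^ 4) : False := by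
  have hk3 : (3 : ℤ) ∣ k := Int.prime_three.dvd_of_dvd_pow (n := 2)
    ⟨d * m ^ 4 + A * m ^ 2 * n ^ 2 + e * n ^ 4, by rw [hk]; ring⟩
  obtain ⟨k, rfl⟩ := hk3
  have hk' : 3 * k ^ 2 = d * m ^ 4 + A * m ^ 2 * n ^ 2 + e * n ^ 4 := by linarith
  have hn : ¬ (3 : ℤ) ∣ n := fun h => by
    have := Int.isUnit_iff.1 (h1.of_mul_left_left.of_mul_left_left.isUnit_of_dvd' dvd_rfl h); omega
  have hm : ¬ (3 : ℤ) ∣ m := fun h => by
    have := Int.isUnit_iff.1 (h2.of_mul_right_left.isUnit_of_dvd' h dvd_rfl); omega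
  have c1 : ((3 * k ^ 2 : ℤ) : ZMod 3) = ((d * m ^ 4 + A * m ^ 2 * n ^ 2 + e * n ^ 4 : ℤ) : ZMod 3) := by rw [hk']
  have c2 : ((d * e : ℤ) : ZMod 3) = ((2 : ℤ) : ZMod 3) := (ZMod.intCast_eq_intCast_iff' _ _ 3).2 (by simpa using hde)
  have c3 : ((A : ℤ) : ZMod 3) = ((2 : ℤ) : ZMod 3) := (ZMod.intCast_eq_intCast_iff' _ _ 3).2 (by simpa using hA)
  have c4 : (n : ZMod 3) ≠ 0 := fun h => hn ((ZMod.intCast_zmod_eq_zero_iff_dvd n 3).1 h)
  have c5 : (m : ZMod 3) ≠ 0 := fun h => hm ((ZMod.intCast_zmod_eq_zero_iff_dvd m 3).1 h)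
  push_cast at c1 c2 c3
  rw [c3] at c1
  revert c1 c2 c4 c5
  generalize (k : ZMod 3) = k; generalize (d : ZMod 3) = d; generalize (e : ZMod 3) = e
  generalize (m : ZMod 3) = m; generalize (n : ZMod 3) = n
  revert k d e m n
  decide

theorem loc11 (d e m n k : ℤ) (h1 : IsCoprime (11 * d * m) n) (h2 : IsCoprime m (11 * e))
    (hk : k ^ 2 = 11 * d * m ^ 4 + 145158 * m ^ 2 * n ^ 2 + 11 * e * n ^ 4) : False := by
  have hn : ¬ (11 : ℤ) ∣ n := fun h => by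
    have := Int.isUnit_iff.1 (h1.of_mul_left_left.of_mul_left_left.isUnit_of_dvd' dvd_rfl h); omega
  have hm : ¬ (11 : ℤ) ∣ m := fun h => by
    have := Int.isUnit_iff.1 (h2.of_mul_right_left.isUnit_of_dvd' h dvd_rfl); omega
  have c1 : ((k ^ 2 : ℤ) : ZMod 11) = ((11 * (d * m ^ 4 + 13196 * m ^ 2 * n ^ 2 + e * n ^ 4) + 2 * m ^ 2 * n ^ 2 : ℤ) : ZMod 11) := by
    rw [hk]; congr 1; ring
  have c4 : (n : ZMod 11) ≠ 0 := fun h => hn ((ZMod.intCast_zmod_eq_zero_iff_dvd n 11).1 h)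
  have c5 : (m : ZMod 11) ≠ 0 := fun h => hm ((ZMod.intCast_zmod_eq_zero_iff_dvd m 11).1 h)
  push_cast at c1
  rw [show (11 : ZMod 11) = 0 from rfl, zero_mul, zero_add] at c1
  revert c1 c4 c5
  generalize (k : ZMod 11) = k
  generalize (m : ZMod 11) = m; generalize (n : ZMod 11) = n
  revert k m n
  decide +kernel

theorem notboth (m n : ℤ) (h : IsCoprime m n) : m % 2 = 1 ∨ n % 2 = 1 := by
  by_contra hc
  have := Int.isUnit_iff.1 (h.isUnit_of_dvd' (x := 2) (by omega) (by omega)); omega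

theorem loc16 (d e m n k : ℤ) (h1 : IsCoprime m n)
    (hd : ((d : ZMod 16) = 7 ∧ (e : ZMod 16) = 15) ∨ ((d : ZMod 16) = 15 ∧ (e : ZMod 16) = 7))
    (hk : k ^ 2 = d * m ^ 4 + 145158 * m ^ 2 * n ^ 2 + e * n ^ 4) : False := by
  have c1 : ((k ^ 2 : ℤ) : ZMod 16) = ((d * m ^ 4 + 145158 * m ^ 2 * n ^ 2 + e * n ^ 4 : ℤ) : ZMod 16) := by
    rw [hk]
  rcases notboth m n h1 with h | h
  · obtain ⟨m, rfl⟩ : ∃ x, m = 2 * x + 1 := ⟨m / 2, by omega⟩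
    push_cast at c1
    rcases hd with ⟨a, b⟩ | ⟨a, b⟩ <;> rw [a, b] at c1 <;> revert c1 <;>
      generalize (k : ZMod 16) = k <;> generalize (m : ZMod 16) = m <;> generalize (n : ZMod 16) = n <;>
      revert k m n <;> decide +kernel
  · obtain ⟨n, rfl⟩ : ∃ x, n = 2 * x + 1 := ⟨n / 2, by omega⟩
    push_cast at c1
    rcases hd with ⟨a, b⟩ | ⟨a, b⟩ <;> rw [a, b] at c1 <;> revert c1 <;>
      generalize (k : ZMod 16) = k <;> generalize (m : ZMod 16) = m <;> generalize (n : ZMod 16) = n <;>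
      revert k m n <;> decide +kernel

theorem loc8 (d e m n k : ℤ) (h1 : IsCoprime (d * m) n) (h2 : IsCoprime m e)
    (hd : d % 2 = 0 ∧ e % 2 = 0 ∧ (d + e) % 8 ≠ 4)
    (hk : k ^ 2 = d * m ^ 4 + (-72579) * m ^ 2 * n ^ 2 + e * n ^ 4) : False := by
  obtain ⟨hd, he, hde⟩ := hd
  have hn : n % 2 = 1 := by have := notboth _ _ h1.of_mul_left_left; omega
  have hm : m % 2 = 1 := by have := notboth _ _ h2; omega
  obtain ⟨m, rfl⟩ : ∃ x, m = 2 * x + 1 := ⟨m / 2, by omega⟩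
  obtain ⟨n, rfl⟩ : ∃ x, n = 2 * x + 1 := ⟨n / 2, by omega⟩
  obtain ⟨d, rfl⟩ : ∃ x, d = 2 * x := ⟨d / 2, by omega⟩
  obtain ⟨e, rfl⟩ : ∃ x, e = 2 * x := ⟨e / 2, by omega⟩
  have c1 : ((k ^ 2 : ℤ) : ZMod 8) = ((2 * d * (2 * m + 1) ^ 4 + (-72579) * (2 * m + 1) ^ 2 * (2 * n + 1) ^ 2 +
      2 * e * (2 * n + 1) ^ 4 : ℤ) : ZMod 8) := by rw [hk]
  have c2 : ((2 * d + 2 * e : ℤ) : ZMod 8) ≠ ((4 : ℤ) : ZMod 8) := fun h =>
    hde (by simpa using (ZMod.intCast_eq_intCast_iff' _ _ 8).1 h)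
  push_cast at c1 c2
  revert c1 c2
  generalize (k : ZMod 8) = k; generalize (d : ZMod 8) = d; generalize (e : ZMod 8) = e
  generalize (m : ZMod 8) = m; generalize (n : ZMod 8) = n
  revert k d e m n
  decide +kernel

theorem cls2 (d e m n k : ℤ) (hde : d * e = 767711241) (h1 : IsCoprime (d * m) n) (h2 : IsCoprime m e)
    (hk : k ^ 2 = d * m ^ 4 + 145158 * m ^ 2 * n ^ 2 + e * n ^ 4) :
    ∃ s ∈ ([1, 3, 11, 33, 89, 267, 979, 2937] : List ℤ), d = s ^ 2 ∨ e = s ^ 2 := by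
  by_cases h3 : 3 ∣ d ∧ 3 ∣ e
  · obtain ⟨⟨d, rfl⟩, ⟨e, rfl⟩⟩ := h3
    have : d * e = 85301249 := by linarith
    exact (loc3 d e m n k 48386 h1 h2 (by rw [this]; norm_num) (by norm_num) (by rw [hk]; ring)).elim
  by_cases h11 : 11 ∣ d ∧ 11 ∣ e
  · obtain ⟨⟨d, rfl⟩, ⟨e, rfl⟩⟩ := h11
    exact (loc11 d e m n k h1 h2 hk).elim
  have h16 : ¬ (((d : ZMod 16) = 7 ∧ (e : ZMod 16) = 15) ∨ ((d : ZMod 16) = 15 ∧ (e : ZMod 16) = 7)) :=
    fun h => loc16 d e m n k h1.of_mul_left_right h hk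
  have hdv : d.natAbs ∣ 3 ^ 2 * 11 ^ 2 * 89 ^ 3 := by
    have : d ∣ ((3 ^ 2 * 11 ^ 2 * 89 ^ 3 : ℕ) : ℤ) := ⟨e, by rw [hde]; norm_num⟩
    exact Int.natAbs_dvd_natAbs.2 this
  obtain ⟨x, y, hx, hy, hxy⟩ := exists_dvd_and_dvd_of_dvd_mul hdv
  obtain ⟨x1, x2, hx1, hx2, rfl⟩ := exists_dvd_and_dvd_of_dvd_mul hx
  obtain ⟨i, hi, rfl⟩ := (Nat.dvd_prime_pow (by norm_num)).1 hx1
  obtain ⟨j, hj, rfl⟩ := (Nat.dvd_prime_pow (by norm_num)).1 hx2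
  obtain ⟨l, hl, rfl⟩ := (Nat.dvd_prime_pow (by norm_num)).1 hy
  clear hk h1 h2 hdv hx hx1 hx2 hy
  have hs := Int.natAbs_eq d
  rw [hxy] at hs
  have he : e = 767711241 / d := by
    rw [← hde, Int.mul_ediv_cancel_left]; rintro rfl; simp at hde
  subst he
  clear hxy hde
  interval_cases i <;> interval_cases j <;> interval_cases l <;> rcases hs with rfl | rfl <;>
    revert h3 h11 h16 <;> decide +kernel

theorem cls1 (d e m n k : ℤ) (hde : d * e = 1125000000) (hm : m ≠ 0) (h1 : IsCoprime (d * m) n) (h2 : IsCoprime m e)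
    (hk : k ^ 2 = d * m ^ 4 + (-72579) * m ^ 2 * n ^ 2 + e * n ^ 4) :
    ∃ s ∈ ([1, 2, 3, 4, 5, 6, 8, 10, 12, 15, 20, 24, 25, 30, 40, 50, 60, 75, 100, 120, 125, 150, 200, 250,
      300, 375, 500, 600, 625, 750, 1000, 1250, 1500, 1875, 2500, 3000, 3750, 5000, 7500, 15000] : List ℤ),
      d = s ^ 2 ∨ e = s ^ 2 := by
  by_cases h3 : 3 ∣ d ∧ 3 ∣ e
  · obtain ⟨⟨d, rfl⟩, ⟨e, rfl⟩⟩ := h3
    have : d * e = 125000000 := by linarith
    exact (loc3 d e m n k (-24193) h1 h2 (by rw [this]; norm_num) (by norm_num) (by rw [hk]; ring)).elim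
  have h8 : ¬ (d % 2 = 0 ∧ e % 2 = 0 ∧ (d + e) % 8 ≠ 4) := fun h => loc8 d e m n k h1 h2 h hk
  have hpos : 0 < d := by
    by_contra hc
    have hd0 : d ≠ 0 := by rintro rfl; simp at hde
    have hd : d < 0 := by omega
    have he : e < 0 := by nlinarith
    have : 0 < m ^ 4 := by positivity
    have : 0 ≤ n ^ 4 := by positivity
    have : 0 ≤ m ^ 2 * n ^ 2 := by positivity
    nlinarith [sq_nonneg k]
  have hdv : d.natAbs ∣ 2 ^ 6 * 3 ^ 2 * 5 ^ 9 := by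
    have : d ∣ ((2 ^ 6 * 3 ^ 2 * 5 ^ 9 : ℕ) : ℤ) := ⟨e, by rw [hde]; norm_num⟩
    exact Int.natAbs_dvd_natAbs.2 this
  obtain ⟨x, y, hx, hy, hxy⟩ := exists_dvd_and_dvd_of_dvd_mul hdv
  obtain ⟨x1, x2, hx1, hx2, rfl⟩ := exists_dvd_and_dvd_of_dvd_mul hx
  obtain ⟨i, hi, rfl⟩ := (Nat.dvd_prime_pow (by norm_num)).1 hx1
  obtain ⟨j, hj, rfl⟩ := (Nat.dvd_prime_pow (by norm_num)).1 hx2
  obtain ⟨l, hl, rfl⟩ := (Nat.dvd_prime_pow (by norm_num)).1 hy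
  clear hk h1 h2 hdv hx hx1 hx2 hy
  have hs : d = ((2 ^ i * 3 ^ j * 5 ^ l : ℕ) : ℤ) := by rw [← hxy]; omega
  have he : e = 1125000000 / d := by
    rw [← hde, Int.mul_ediv_cancel_left]; rintro rfl; simp at hde
  subst he
  clear hxy hde hpos
  subst hs
  revert h3 h8
  interval_cases i <;> interval_cases j <;> interval_cases l <;> decide +kernel

theorem pack (A B U V d e m n k s : ℤ) (hde : d * e = B) (hm : m ≠ 0) (hn : n ≠ 0)
    (h1 : IsCoprime (d * m) n) (h2 : IsCoprime m e)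
    (hk : k ^ 2 = d * m ^ 4 + A * m ^ 2 * n ^ 2 + e * n ^ 4) (hz : U ^ 2 * (m * n) ^ 2 = k ^ 2 * V ^ 2)
    (hs : d = s ^ 2 ∨ e = s ^ 2) :
    ∃ j N : ℤ, j ≠ 0 ∧ N ≠ 0 ∧ j * N ∣ V ∧ (s * k) ^ 2 = (s * j) ^ 4 + A * (s * j) ^ 2 * N ^ 2 + B * N ^ 4 ∧
      U ^ 2 * (j * N) ^ 2 = k ^ 2 * V ^ 2 := by
  have hv := dvd_den U V k (m * n) (cop_k d e m n k A h1 h2 hk) hz
  subst hde
  rcases hs with rfl | rfl
  · exact ⟨m, n, hm, hn, hv, by rw [mul_pow, hk]; ring, hz⟩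
  · exact ⟨n, m, hn, hm, by rwa [mul_comm], by rw [mul_pow, hk]; ring, by rwa [mul_comm n m]⟩

theorem fin_check : ∀ s1 ∈ ([1, 3, 11, 33, 89, 267, 979, 2937] : List ℤ),
    ∀ s2 ∈ ([1, 2, 3, 4, 5, 6, 8, 10, 12, 15, 20, 24, 25, 30, 40, 50, 60, 75, 100, 120, 125, 150, 200, 250,
      300, 375, 500, 600, 625, 750, 1000, 1250, 1500, 1875, 2500, 3000, 3750, 5000, 7500, 15000] : List ℤ),
    (0 < s1 ∧ s1 ≤ 2937 ∧ 0 < s2 ∧ s2 ≤ 15000) ∧ ∀ v ∈ List.range 130, v ≠ 0 →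
      s2 ^ 2 * s1 ^ 2 = s2 ^ 4 + (-72579) * s2 ^ 2 * (v : ℤ) ^ 2 + 1125000000 * (v : ℤ) ^ 4 →
        s2 ^ 2 = 62500 * (v : ℤ) ^ 2 := by
  decide +kernel

theorem desc (V : ℕ) : ∀ u v w : ℤ, v.natAbs = V → u ≠ 0 → v ≠ 0 →
    w ^ 2 = u ^ 4 + (-72579) * u ^ 2 * v ^ 2 + 1125000000 * v ^ 4 → u ^ 2 = 62500 * v ^ 2 := by
  induction V using Nat.strong_induction_on with
  | _ V ih =>
  intro u v w hV hu hv hw
  have hv' : (v : ℚ) ≠ 0 := by exact_mod_cast hv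
  have hw' : (w : ℚ) ^ 2 = u ^ 4 + (-72579) * u ^ 2 * v ^ 2 + 1125000000 * v ^ 4 := by exact_mod_cast hw
  have e1 : ((2 * u ^ 2 - 72579 * v ^ 2 + 2 * w) / v ^ 2 : ℚ) ^ 2 +
      (145158 : ℤ) * ((2 * u ^ 2 - 72579 * v ^ 2 + 2 * w) / v ^ 2 : ℚ) + (767711241 : ℤ) =
      (2 * u / v) ^ 2 * ((2 * u ^ 2 - 72579 * v ^ 2 + 2 * w) / v ^ 2 : ℚ) := by
    push_cast; field_simp; linear_combination 4 * hw'
  obtain ⟨d, e, m, n, k, hde, hm, hn, h1, h2, hk, hz⟩ := step _ _ _ _ (by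
    intro h0; rw [h0] at e1; norm_num at e1) e1
  obtain ⟨s1, hs1, hs⟩ := cls2 d e m n k hde h1 h2 hk
  obtain ⟨j1, N, hj1, hN, hdv1, hW, hz1⟩ := pack _ _ (2 * u) v d e m n k s1 hde hm hn h1 h2 hk (by
    have : ((2 * u : ℚ)) ^ 2 * (m * n) ^ 2 = k ^ 2 * v ^ 2 := by rw [← hz]; field_simp
    exact_mod_cast this) hs
  have hs10 : s1 ≠ 0 := (fin_check s1 hs1 1 (by simp)).1.1.ne'
  clear hs hz hk h1 h2 hde hm hn e1 d e m n
  set M := s1 * j1 with hM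
  set W := s1 * k with hWd
  have hN' : (N : ℚ) ≠ 0 := by exact_mod_cast hN
  have hW' : (W : ℚ) ^ 2 = M ^ 4 + 145158 * M ^ 2 * N ^ 2 + 767711241 * N ^ 4 := by exact_mod_cast hW
  have e2 : ((2 * M ^ 2 + 145158 * N ^ 2 + 2 * W) / (4 * N ^ 2) : ℚ) ^ 2 +
      (-72579 : ℤ) * ((2 * M ^ 2 + 145158 * N ^ 2 + 2 * W) / (4 * N ^ 2) : ℚ) + (1125000000 : ℤ) =
      (M / N) ^ 2 * ((2 * M ^ 2 + 145158 * N ^ 2 + 2 * W) / (4 * N ^ 2) : ℚ) := by
    push_cast; field_simp; linear_combination 4 * hW'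
  obtain ⟨d, e, m, n, k2, hde, hm, hn, h1, h2, hk, hz⟩ := step _ _ _ _ (by
    intro h0; rw [h0] at e2; norm_num at e2) e2
  obtain ⟨s2, hs2, hs⟩ := cls1 d e m n k2 hde hm h1 h2 hk
  obtain ⟨j2, v2, hj2, hv2, hdv2, hW2, hz2⟩ := pack _ _ M N d e m n k2 s2 hde hm hn h1 h2 hk (by
    have : ((M : ℚ)) ^ 2 * (m * n) ^ 2 = k2 ^ 2 * N ^ 2 := by rw [← hz]; field_simp
    exact_mod_cast this) hs
  obtain ⟨⟨b1, b2, b3, b4⟩, hfin⟩ := fin_check s1 hs1 s2 hs2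
  clear hs hz hk h1 h2 hde hm hn e2 d e m n hs1 hs2
  have key : (s2 * j2) ^ 2 = 62500 * v2 ^ 2 := by
    by_cases hlt : v2.natAbs < V
    · exact ih _ hlt _ v2 _ rfl (mul_ne_zero b3.ne' hj2) hv2 hW2
    · have l1 := Nat.le_of_dvd (Int.natAbs_pos.2 hv) (Int.natAbs_dvd_natAbs.2 hdv1)
      have l2 := Nat.le_of_dvd (Int.natAbs_pos.2 hN) (Int.natAbs_dvd_natAbs.2 hdv2)
      rw [Int.natAbs_mul] at l1 l2
      have p1 := Int.natAbs_pos.2 hj1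
      have p2 := Int.natAbs_pos.2 hj2
      have p3 := Int.natAbs_pos.2 hv2
      have p4 := Int.natAbs_pos.2 hN
      have q1 : N.natAbs ≤ j1.natAbs * N.natAbs := Nat.le_mul_of_pos_left _ p1
      have q2 : v2.natAbs ≤ j2.natAbs * v2.natAbs := Nat.le_mul_of_pos_left _ p2
      have r1 : j1.natAbs = 1 := by
        have : j1.natAbs * N.natAbs = 1 * N.natAbs := by omega
        exact Nat.eq_of_mul_eq_mul_right p4 this
      have r2 : j2.natAbs = 1 := by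
        have : j2.natAbs * v2.natAbs = 1 * v2.natAbs := by omega
        exact Nat.eq_of_mul_eq_mul_right p3 this
      have r3 : N.natAbs = v2.natAbs := by omega
      have t1 : j1 ^ 2 = 1 := by rw [← Int.natAbs_sq, r1]; rfl
      have t2 : j2 ^ 2 = 1 := by rw [← Int.natAbs_sq, r2]; rfl
      have t3 : N ^ 2 = v2 ^ 2 := by rw [← Int.natAbs_sq, r3, Int.natAbs_sq]
      have t4 : k2 ^ 2 = s1 ^ 2 := by
        have : k2 ^ 2 * v2 ^ 2 = s1 ^ 2 * v2 ^ 2 := by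
          rw [hM, mul_pow, mul_pow, t1, t2, t3] at hz2; linarith
        exact mul_right_cancel₀ (pow_ne_zero 2 hv2) this
      have t5 : s2 ^ 2 * s1 ^ 2 = s2 ^ 4 + (-72579) * s2 ^ 2 * (v2.natAbs : ℤ) ^ 2 +
          1125000000 * (v2.natAbs : ℤ) ^ 4 := by
        have a4 : (v2.natAbs : ℤ) ^ 4 = v2 ^ 4 := by
          rw [show (4 : ℕ) = 2 * 2 from rfl, pow_mul, pow_mul, Int.natAbs_sq]
        have j4 : j2 ^ 4 = 1 := by rw [show (4 : ℕ) = 2 * 2 from rfl, pow_mul, t2]; rfl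
        rw [Int.natAbs_sq, a4, ← t4]
        rw [mul_pow, mul_pow, mul_pow, t2, j4] at hW2
        linarith
      have t6 : v2.natAbs < 130 := by
        by_contra hc
        have hx : (130 : ℤ) ≤ v2.natAbs := by omega
        generalize (v2.natAbs : ℤ) = x at hx t5
        have y1 : 16900 ≤ x ^ 2 := by nlinarith
        have y2 : s2 ^ 2 ≤ 225000000 := by nlinarith
        have y3 : s1 ^ 2 ≤ 8625969 := by nlinarith
        have y4 : s2 ^ 2 * s1 ^ 2 ≤ 225000000 * 8625969 := mul_le_mul y2 y3 (by positivity) (by norm_num)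
        have y5 : s2 ^ 2 * x ^ 2 ≤ 225000000 * x ^ 2 := mul_le_mul_of_nonneg_right y2 (by positivity)
        have y6 : 0 ≤ s2 ^ 4 := by positivity
        have y7 : 16900 * x ^ 2 ≤ x ^ 4 := by nlinarith
        nlinarith
      have := hfin _ (List.mem_range.2 t6) p3.ne' t5
      rw [Int.natAbs_sq] at this
      rw [mul_pow, t2, mul_one, this]
  have c1 : M ^ 2 = 7921 * N ^ 2 := by
    have : (62500 * v2 ^ 4) * M ^ 2 = (62500 * v2 ^ 4) * (7921 * N ^ 2) := by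
      have a4 : (s2 * j2) ^ 4 = (62500 * v2 ^ 2) ^ 2 := by rw [← key]; ring
      rw [a4, key] at hW2
      have : M ^ 2 * (s2 * j2) ^ 2 * v2 ^ 2 = (s2 * k2) ^ 2 * N ^ 2 := by linear_combination s2 ^ 2 * hz2
      rw [key, hW2] at this
      linear_combination this
    exact mul_left_cancel₀ (by positivity) this
  have : (4 * 7921 * N ^ 4) * u ^ 2 = (4 * 7921 * N ^ 4) * (62500 * v ^ 2) := by
    have a4 : M ^ 4 = (7921 * N ^ 2) ^ 2 := by rw [← c1]; ring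
    rw [a4, c1] at hW
    have : (2 * u) ^ 2 * M ^ 2 * N ^ 2 = W ^ 2 * v ^ 2 := by
      rw [hM, hWd]; linear_combination s1 ^ 2 * hz1
    rw [c1, hW] at this
    linear_combination this
  exact mul_left_cancel₀ (by positivity) this

theorem rat_pts (t y : ℚ) (ht : t ≠ 0) (h : y ^ 2 = 3125 * t ^ 4 - 2612844 * t ^ 2 + 21600 ^ 2) :
    t = 72 / 5 ∨ t = -72 / 5 := by
  obtain ⟨u, v, hv, huv⟩ : ∃ u v : ℤ, v ≠ 0 ∧ 3600 / t = u / v :=
    ⟨(3600 / t).num, (3600 / t).den, by exact_mod_cast (3600 / t).den_pos.ne', by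
      exact_mod_cast (Rat.num_div_den _).symm⟩
  have hv' : (v : ℚ) ≠ 0 := by exact_mod_cast hv
  have hu' : (u : ℚ) = 3600 * v / t := by field_simp at huv ⊢; linarith
  have hu : u ≠ 0 := by
    rintro rfl
    have : (3600 * v / t : ℚ) ≠ 0 := by positivity
    exact this (by rw [← hu']; simp)
  obtain ⟨w, hw⟩ := int_sq (u ^ 4 + (-72579) * u ^ 2 * v ^ 2 + 1125000000 * v ^ 4) (600 * y * v ^ 2 / t ^ 2) (by
    push_cast; rw [hu']; field_simp; rw [h]; ring)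
  have := desc _ u v w rfl hu hv hw.symm
  have h2 : (u : ℚ) ^ 2 = 62500 * v ^ 2 := by exact_mod_cast this
  rw [hu'] at h2
  field_simp at h2
  have : (t - 72 / 5) * (t + 72 / 5) = 0 := by linear_combination (-1 / 62500) * h2
  rcases mul_eq_zero.1 this with h | h
  · left; linarith
  · right; linarith

theorem quartic_zero (c0 c1 c2 c3 c4 r1 r2 r3 r4 r5 : ℚ) (h12 : r2 ≠ r1) (h13 : r3 ≠ r1) (h14 : r4 ≠ r1)
    (h15 : r5 ≠ r1) (h23 : r3 ≠ r2) (h24 : r4 ≠ r2) (h25 : r5 ≠ r2) (h34 : r4 ≠ r3) (h35 : r5 ≠ r3)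
    (h45 : r5 ≠ r4) (g : ∀ r, r = r1 ∨ r = r2 ∨ r = r3 ∨ r = r4 ∨ r = r5 →
      c4 * r ^ 4 + c3 * r ^ 3 + c2 * r ^ 2 + c1 * r + c0 = 0) :
    c4 = 0 ∧ c3 = 0 ∧ c2 = 0 ∧ c1 = 0 ∧ c0 = 0 := by
  have g1 := g r1 (by simp)
  have a : ∀ r, r ≠ r1 → (r = r1 ∨ r = r2 ∨ r = r3 ∨ r = r4 ∨ r = r5) →
      c4 * (r ^ 3 + r ^ 2 * r1 + r * r1 ^ 2 + r1 ^ 3) + c3 * (r ^ 2 + r * r1 + r1 ^ 2) + c2 * (r + r1) + c1 = 0 :=
    fun r h hr => mul_left_cancel₀ (sub_ne_zero.2 h) (by linear_combination g r hr - g1)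
  have a2 := a r2 h12 (by simp)
  have b : ∀ r, r ≠ r1 → r ≠ r2 → (r = r1 ∨ r = r2 ∨ r = r3 ∨ r = r4 ∨ r = r5) →
      c4 * (r ^ 2 + r1 ^ 2 + r2 ^ 2 + r * r1 + r * r2 + r1 * r2) + c3 * (r + r1 + r2) + c2 = 0 :=
    fun r h h' hr => mul_left_cancel₀ (sub_ne_zero.2 h') (by linear_combination a r h hr - a2)
  have b3 := b r3 h13 h23 (by simp)
  have c : ∀ r, r ≠ r1 → r ≠ r2 → r ≠ r3 → (r = r1 ∨ r = r2 ∨ r = r3 ∨ r = r4 ∨ r = r5) →
      c4 * (r + r1 + r2 + r3) + c3 = 0 :=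
    fun r h h' h'' hr => mul_left_cancel₀ (sub_ne_zero.2 h'') (by linear_combination b r h h' hr - b3)
  have c4' := c r4 h14 h24 h34 (by simp)
  have d : c4 = 0 := mul_left_cancel₀ (sub_ne_zero.2 h45) (by
    linear_combination c r5 h15 h25 h35 (by simp) - c4')
  subst d
  have d3 : c3 = 0 := by linarith
  subst d3
  have d2 : c2 = 0 := by linarith
  subst d2
  have d1 : c1 = 0 := by linarith
  subst d1
  exact ⟨rfl, rfl, rfl, rfl, by linarith⟩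

theorem disc_id (t a b c d e : ℚ) (e1 : a + b + c + d + e = 0)
    (e2 : a * b + a * c + a * d + a * e + b * c + b * d + b * e + c * d + c * e + d * e = -13)
    (e3 : a * b * c + a * b * d + a * b * e + a * c * d + a * c * e + a * d * e + b * c * d +
      b * c * e + b * d * e + c * d * e = 0)
    (e4 : a * b * c * d + a * b * c * e + a * b * d * e + a * c * d * e + b * c * d * e = 36)
    (e5 : a * b * c * d * e = t) :
    ((a - b) * (a - c) * (a - d) * (a - e) * (b - c) * (b - d) * (b - e) * (c - d) * (c - e) * (d - e)) ^ 2 =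
      3125 * t ^ 4 - 2612844 * t ^ 2 + 21600 ^ 2 := by
  have fa : 5 * a ^ 4 - 39 * a ^ 2 + 36 = (a - b) * (a - c) * (a - d) * (a - e) := by
    linear_combination 4 * a ^ 3 * e1 - 3 * a ^ 2 * e2 + 2 * a * e3 - e4
  have fb : 5 * b ^ 4 - 39 * b ^ 2 + 36 = -((a - b) * (b - c) * (b - d) * (b - e)) := by
    linear_combination 4 * b ^ 3 * e1 - 3 * b ^ 2 * e2 + 2 * b * e3 - e4
  have fc : 5 * c ^ 4 - 39 * c ^ 2 + 36 = (a - c) * (b - c) * (c - d) * (c - e) := by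
    linear_combination 4 * c ^ 3 * e1 - 3 * c ^ 2 * e2 + 2 * c * e3 - e4
  have fd : 5 * d ^ 4 - 39 * d ^ 2 + 36 = -((a - d) * (b - d) * (c - d) * (d - e)) := by
    linear_combination 4 * d ^ 3 * e1 - 3 * d ^ 2 * e2 + 2 * d * e3 - e4
  have fe : 5 * e ^ 4 - 39 * e ^ 2 + 36 = (a - e) * (b - e) * (c - e) * (d - e) := by
    linear_combination 4 * e ^ 3 * e1 - 3 * e ^ 2 * e2 + 2 * e * e3 - e4
  have h1 : ((a - b) * (a - c) * (a - d) * (a - e) * (b - c) * (b - d) * (b - e) * (c - d) * (c - e) * (d - e)) ^ 2 =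
      (5 * a ^ 4 - 39 * a ^ 2 + 36) * (5 * b ^ 4 - 39 * b ^ 2 + 36) * (5 * c ^ 4 - 39 * c ^ 2 + 36) *
        (5 * d ^ 4 - 39 * d ^ 2 + 36) * (5 * e ^ 4 - 39 * e ^ 2 + 36) := by
    rw [fa, fb, fc, fd, fe]
    generalize a - b = x1; generalize a - c = x2; generalize a - d = x3; generalize a - e = x4
    generalize b - c = x5; generalize b - d = x6; generalize b - e = x7; generalize c - d = x8
    generalize c - e = x9; generalize d - e = x10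
    ring
  rw [h1]
  have G : ∀ x : ℝ, ((a : ℝ) ^ 2 - x) * ((b : ℝ) ^ 2 - x) * ((c : ℝ) ^ 2 - x) * ((d : ℝ) ^ 2 - x) * ((e : ℝ) ^ 2 - x) =
      (t : ℝ) ^ 2 - x * (x ^ 2 - 13 * x + 36) ^ 2 := by
    intro x
    have E1 : (a : ℝ) + b + c + d + e = 0 := by exact_mod_cast e1
    have E2 : (a : ℝ) * b + a * c + a * d + a * e + b * c + b * d + b * e + c * d + c * e + d * e = -13 := by
      exact_mod_cast e2
    have E3 : (a : ℝ) * b * c + a * b * d + a * b * e + a * c * d + a * c * e + a * d * e + b * c * d +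
      b * c * e + b * d * e + c * d * e = 0 := by exact_mod_cast e3
    have E4 : (a : ℝ) * b * c * d + a * b * c * e + a * b * d * e + a * c * d * e + b * c * d * e = 36 := by
      exact_mod_cast e4
    have E5 : (a : ℝ) * b * c * d * e = t := by exact_mod_cast e5
    have : ((a : ℝ) ^ 2 - x) * ((b : ℝ) ^ 2 - x) * ((c : ℝ) ^ 2 - x) * ((d : ℝ) ^ 2 - x) * ((e : ℝ) ^ 2 - x) =
        ((a + b + c + d + e) * x ^ 2 + (a * b * c + a * b * d + a * b * e + a * c * d + a * c * e + a * d * e +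
          b * c * d + b * c * e + b * d * e + c * d * e) * x + a * b * c * d * e) ^ 2 -
        x * (x ^ 2 + (a * b + a * c + a * d + a * e + b * c + b * d + b * e + c * d + c * e + d * e) * x +
          (a * b * c * d + a * b * c * e + a * b * d * e + a * c * d * e + b * c * d * e)) ^ 2 := by ring
    rw [this, E1, E2, E3, E4, E5]; ring
  obtain ⟨w, hw⟩ : ∃ w : ℝ, w ^ 2 = 801 := ⟨√801, Real.sq_sqrt (by norm_num)⟩
  have F : ∀ y : ℝ, 5 * y ^ 4 - 39 * y ^ 2 + 36 = 5 * (y ^ 2 - (39 + w) / 10) * (y ^ 2 - (39 - w) / 10) := by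
    intro y; linear_combination (1 / 20) * hw
  have G1 := G ((39 + w) / 10)
  have G2 := G ((39 - w) / 10)
  have : (5 * (a : ℝ) ^ 4 - 39 * a ^ 2 + 36) * (5 * b ^ 4 - 39 * b ^ 2 + 36) * (5 * c ^ 4 - 39 * c ^ 2 + 36) *
        (5 * d ^ 4 - 39 * d ^ 2 + 36) * (5 * e ^ 4 - 39 * e ^ 2 + 36) =
      3125 * t ^ 4 - 2612844 * t ^ 2 + 21600 ^ 2 := by
    rw [F a, F b, F c, F d, F e]
    have r1 : ∀ x1 x2 x3 x4 x5 y1 y2 y3 y4 y5 : ℝ, 5 * x1 * y1 * (5 * x2 * y2) * (5 * x3 * y3) * (5 * x4 * y4) *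
      (5 * x5 * y5) = 3125 * (x1 * x2 * x3 * x4 * x5) * (y1 * y2 * y3 * y4 * y5) := by intros; ring
    rw [r1, G1, G2]
    have s1 : (39 + w) / 10 * (((39 + w) / 10) ^ 2 - 13 * ((39 + w) / 10) + 36) ^ 2 =
        (1306422 + (-17622) * w) / 3125 := by
      linear_combination ((10413/20000) * w ^ 0 + (-449/100000) * w ^ 1 + (-13/20000) * w ^ 2 + (1/100000) * w ^ 3) * hw
    have s2 : (39 - w) / 10 * (((39 - w) / 10) ^ 2 - 13 * ((39 - w) / 10) + 36) ^ 2 =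
        (1306422 + 17622 * w) / 3125 := by
      linear_combination ((10413/20000) * w ^ 0 + (449/100000) * w ^ 1 + (-13/20000) * w ^ 2 + (-1/100000) * w ^ 3) * hw
    rw [s1, s2]
    linear_combination (-17622 ^ 2 / 3125) * hw
  exact_mod_cast this

theorem no_root (x : ℚ) : x ^ 5 - 13 * x ^ 3 + 36 * x ≠ 72 / 5 := by
  intro h
  obtain ⟨N, D, hD, hND, rfl⟩ : ∃ N D : ℤ, 0 < D ∧ IsCoprime N D ∧ x = N / D :=
    ⟨x.num, x.den, by exact_mod_cast x.den_pos, Int.isCoprime_iff_gcd_eq_one.2 x.reduced,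
      by exact_mod_cast (Rat.num_div_den x).symm⟩
  have hD' : (D : ℚ) ≠ 0 := by exact_mod_cast hD.ne'
  have h1 : 5 * N ^ 5 - 65 * N ^ 3 * D ^ 2 + 180 * N * D ^ 4 = 72 * D ^ 5 := by
    have : (5 * N ^ 5 - 65 * N ^ 3 * D ^ 2 + 180 * N * D ^ 4 : ℚ) = 72 * D ^ 5 := by
      field_simp at h; linear_combination h
    exact_mod_cast this
  have p5 : Prime (5 : ℤ) := Int.prime_iff_natAbs_prime.2 (by norm_num)
  have h2 : (5 : ℤ) ∣ D := by
    have : (5 : ℤ) ∣ 72 * D ^ 5 := ⟨N ^ 5 - 13 * N ^ 3 * D ^ 2 + 36 * N * D ^ 4, by rw [← h1]; ring⟩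
    rcases p5.dvd_or_dvd this with h | h
    · norm_num at h
    · exact p5.dvd_of_dvd_pow h
  obtain ⟨E, rfl⟩ := h2
  have h3 : (5 : ℤ) ∣ N := p5.dvd_of_dvd_pow (n := 5)
    ⟨65 * N ^ 3 * E ^ 2 - 4500 * N * E ^ 4 + 9000 * E ^ 5, by linarith⟩
  have := Int.isUnit_iff.1 (hND.isUnit_of_dvd' h3 (dvd_mul_right 5 E))
  omega

theorem main (t r1 r2 r3 r4 r5 : ℚ) (h12 : r2 ≠ r1) (h13 : r3 ≠ r1) (h14 : r4 ≠ r1)
    (h15 : r5 ≠ r1) (h23 : r3 ≠ r2) (h24 : r4 ≠ r2) (h25 : r5 ≠ r2) (h34 : r4 ≠ r3) (h35 : r5 ≠ r3)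
    (h45 : r5 ≠ r4) (g : ∀ r, r = r1 ∨ r = r2 ∨ r = r3 ∨ r = r4 ∨ r = r5 →
      r ^ 5 - 13 * r ^ 3 + 36 * r = t) : t = 0 := by
  obtain ⟨e1, e2, e3, e4, e5⟩ := quartic_zero (-t + r1 * r2 * r3 * r4 * r5)
    (36 - (r1 * r2 * r3 * r4 + r1 * r2 * r3 * r5 + r1 * r2 * r4 * r5 + r1 * r3 * r4 * r5 + r2 * r3 * r4 * r5))
    (r1 * r2 * r3 + r1 * r2 * r4 + r1 * r2 * r5 + r1 * r3 * r4 + r1 * r3 * r5 + r1 * r4 * r5 + r2 * r3 * r4 +
      r2 * r3 * r5 + r2 * r4 * r5 + r3 * r4 * r5)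
    (-13 - (r1 * r2 + r1 * r3 + r1 * r4 + r1 * r5 + r2 * r3 + r2 * r4 + r2 * r5 + r3 * r4 + r3 * r5 + r4 * r5))
    (r1 + r2 + r3 + r4 + r5) r1 r2 r3 r4 r5 h12 h13 h14 h15 h23 h24 h25 h34 h35 h45 (by
      intro r hr
      have := g r hr
      rcases hr with rfl | rfl | rfl | rfl | rfl <;> linear_combination this)
  have hd := disc_id t r1 r2 r3 r4 r5 e1 (by linarith) e3 (by linarith) (by linarith)
  by_contra ht
  rcases rat_pts t _ ht hd with h | h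
  · exact no_root r1 (by rw [g r1 (by simp), h])
  · exact no_root (-r1) (by have := g r1 (by simp); rw [h] at this; linear_combination -this)

end Pool.Agent.H24.Quint
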