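import Mathlib

set_option autoImplicit false

namespace Pool.Agent.H24.Rec

open Finset Filter Topology

/-- next exponent -/
def nn (B s k : ℕ) : ℕ := B.totient * (4 * (k + 1) * (s + 1) * (B + 1))
/-- numerators and lengths -/
def bs : ℕ → ℕ × ℕ
  | 0 => (1, 0)
  | k + 1 => ((10 ^ nn (bs k).1 (bs k).2 k + 1) ^ 2 * (bs k).1, (bs k).2 + 2 * nn (bs k).1 (bs k).2 k)
/-- numerator -/
def B (k : ℕ) : ℕ := (bs k).1
/-- length -/
def s (k : ℕ) : ℕ := (bs k).2
/-- exponent -/
def n (k : ℕ) : ℕ := nn (B k) (s k) k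

lemma B_succ (k : ℕ) : B (k + 1) = (10 ^ n k + 1) ^ 2 * B k := rfl
lemma s_succ (k : ℕ) : s (k + 1) = s k + 2 * n k := rfl

lemma B_pos (k : ℕ) : 0 < B k := by
  induction k with
  | zero => exact one_pos
  | succ k ih => rw [B_succ]; positivity

lemma n_ge (k : ℕ) : 4 * (k + 1) * (s k + 1) * (B k + 1) ≤ n k :=
  Nat.le_mul_of_pos_left _ (Nat.totient_pos.2 (B_pos k))

lemma n_pos (k : ℕ) : 0 < n k := lt_of_lt_of_le (by positivity) (n_ge k)

lemma A_cop (k : ℕ) : Nat.Coprime 10 (10 ^ n k + 1) := by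
  obtain ⟨m, hm⟩ := Nat.exists_eq_succ_of_ne_zero (n_pos k).ne'
  rw [hm, pow_succ]; simp

lemma B_cop (k : ℕ) : Nat.Coprime 10 (B k) := by
  induction k with
  | zero => exact Nat.coprime_one_right _
  | succ k ih => rw [B_succ]; exact ((A_cop k).pow_right 2).mul_right ih

lemma B_dvd (k : ℕ) : (B k : ℤ) ∣ 10 ^ n k - 1 := by
  have := ((Nat.ModEq.pow_totient (B_cop k)).pow (4 * (k + 1) * (s k + 1) * (B k + 1))).symm.dvd
  rw [← pow_mul] at this
  simpa [n, nn] using this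

/-- approximants -/
noncomputable def X (k : ℕ) : ℝ := B k / 10 ^ s k
/-- small parameter -/
noncomputable def u (k : ℕ) : ℝ := 1 / 10 ^ n k
/-- the number -/
noncomputable def x : ℝ := ⨆ k, X k

lemma u_pos (k : ℕ) : 0 < u k := by unfold u; positivity

lemma X_succ (k : ℕ) : X (k + 1) = X k * (1 + u k) ^ 2 := by
  simp only [X, u, B_succ, s_succ]
  push_cast
  field_simp
  ring

lemma n_big (k : ℕ) : 2 * n k * (10 ^ n k + 1) + (k + 1) + 2 ≤ n (k + 1) := by
  have h := n_ge (k + 1)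
  have h1 : 2 * n k ≤ s (k + 1) := by rw [s_succ]; omega
  have h2 : 10 ^ n k + 1 ≤ B (k + 1) := by
    rw [B_succ, sq, mul_assoc]
    exact Nat.le_mul_of_pos_right _ (by have := B_pos k; positivity)
  have := Nat.mul_le_mul h1 h2
  nlinarith [Nat.zero_le ((k + 1) * s (k + 1) * B (k + 1)), Nat.zero_le (k * s (k + 1)),
    Nat.zero_le (k * B (k + 1))]

lemma n_two (k : ℕ) : 2 * n k ≤ n (k + 1) := by
  have := n_big k
  nlinarith [Nat.zero_le (n k * 10 ^ n k)]

lemma u_le (k : ℕ) : u k ≤ 1 / 10 := by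
  unfold u
  gcongr
  exact le_self_pow₀ (by norm_num) (n_pos k).ne'

lemma u_sq (k : ℕ) : u (k + 1) ≤ u k ^ 2 := by
  unfold u
  rw [div_pow, one_pow, ← pow_mul]
  gcongr
  · norm_num
  · have := n_two k; omega

lemma X_mono : Monotone X := monotone_nat_of_le_succ fun k => by
  have := u_pos k
  have : 0 ≤ X k := by unfold X; positivity
  rw [X_succ]; exact le_mul_of_one_le_right this (by nlinarith)

lemma X_ge (k : ℕ) : 1 ≤ X k := le_trans (by simp [X, B, s, bs]) (X_mono (Nat.zero_le k))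

lemma X_anti : Antitone fun k => X k * (1 + 4 * u k) := antitone_nat_of_succ_le fun k => by
  have h1 := u_pos k
  have h2 := u_le k
  have h3 := u_sq k
  have h4 := X_ge k
  simp only [X_succ, mul_assoc]
  gcongr
  have : 1 + 4 * u (k + 1) ≤ 1 + 4 / 10 * u k := by nlinarith
  calc _ ≤ (1 + u k) ^ 2 * (1 + 4 / 10 * u k) := by gcongr
    _ ≤ _ := by nlinarith [mul_pos h1 h1]

lemma X_le (m k : ℕ) : X m ≤ X k * (1 + 4 * u k) := by
  have := u_pos (max m k)
  have h := X_ge (max m k)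
  exact (X_mono (le_max_left m k)).trans (le_trans (by nlinarith) (X_anti (le_max_right m k)))

lemma X_top (k : ℕ) : X k ≤ 3 / 2 := by
  have := X_le k 0
  have h := u_le 0
  have e : X 0 = 1 := by simp [X, B, s, bs]
  rw [e] at this; linarith

lemma tail (k : ℕ) : 0 ≤ x - X k ∧ x - X k ≤ 6 * u k := by
  have h1 : X k ≤ x := le_ciSup ⟨_, Set.forall_mem_range.2 X_top⟩ k
  have h2 : x ≤ X k * (1 + 4 * u k) := ciSup_le fun m => X_le m k
  have := X_top k
  have := u_pos k
  exact ⟨by linarith, by nlinarith⟩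

/-- digits -/
noncomputable def dig (y : ℝ) (i : ℕ) : ℤ := ⌊(10 : ℝ) ^ (i + 1) * y⌋ % 10

lemma dig0 {y ρ : ℝ} {i : ℕ} (z : ℤ) (h : 10 ^ i * y = z + ρ) (h1 : 0 ≤ ρ) (h2 : ρ < 1 / 10) :
    dig y i = 0 := by
  have : ⌊(10 : ℝ) ^ (i + 1) * y⌋ = 10 * z := by
    rw [Int.floor_eq_iff, pow_succ', mul_assoc, h]; push_cast; constructor <;> linarith
  simp [dig, this]

lemma Xint {i k : ℕ} (h : s k ≤ i) : 10 ^ i * X k = (10 ^ (i - s k) * B k : ℤ) := by
  obtain ⟨j, rfl⟩ := Nat.exists_eq_add_of_le h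
  simp only [X, Nat.add_sub_cancel_left]
  push_cast
  field_simp
  ring

lemma pu {i m : ℕ} (h : i + 2 ≤ m) : (10 : ℝ) ^ i * (1 / 10 ^ m) ≤ 1 / 100 := by
  have : (10 : ℝ) ^ (i + 2) ≤ 10 ^ m := by gcongr; norm_num
  rw [mul_one_div, div_le_div_iff₀ (by positivity) (by positivity)]
  rw [pow_add] at this; linarith

lemma za {i k : ℕ} (h : s k ≤ i) (h2 : i + 2 ≤ n k) : dig x i = 0 := by
  have := pu h2
  have t := tail k
  have p : (0 : ℝ) < 10 ^ i := by positivity
  refine dig0 (ρ := 10 ^ i * (x - X k)) _ (by rw [← Xint h]; ring) (mul_nonneg p.le t.1) ?_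
  have := mul_le_mul_of_nonneg_left t.2 p.le
  unfold u at this; linarith

lemma zb {i k : ℕ} (h : n k + s k ≤ i) (h2 : i + 2 ≤ 2 * n k) : dig x i = 0 := by
  have h3 := pu h2
  have e : (1 : ℝ) / 10 ^ (2 * n k) = u k ^ 2 := by rw [u, div_pow, one_pow, ← pow_mul, mul_comm]
  rw [e] at h3
  have t := tail (k + 1)
  have p : (0 : ℝ) < 10 ^ i := by positivity
  have h4 := Xint (i := i - n k) (k := k) (by omega)
  have h5 : (10 : ℝ) ^ (i - n k) = 10 ^ i * u k := by
    rw [pow_sub₀ _ (by norm_num) (by omega), u, one_div]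
  have := X_ge k
  have := X_top k
  have := u_sq k
  refine dig0 (ρ := 10 ^ i * (u k ^ 2 * X k + (x - X (k + 1))))
    (10 ^ (i - s k) * B k + 2 * (10 ^ (i - n k - s k) * B k)) ?_ (by have := t.1; positivity) ?_
  · rw [Int.cast_add, Int.cast_mul 2, ← Xint (by omega), ← h4, h5, X_succ]; push_cast; ring
  · have : u k ^ 2 * X k + (x - X (k + 1)) ≤ 8 * u k ^ 2 := by nlinarith [t.2, sq_nonneg (u k)]
    have := mul_le_mul_of_nonneg_left this p.le
    linarith

lemma sparse : Tendsto (fun N : ℕ => (((range N).filter fun i => dig x i ≠ 0).card : ℝ) / N) atTop (𝓝 0) := by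
  have mono : StrictMono n := strictMono_nat_of_lt_succ fun k => by
    have := n_two k; have := n_pos k; omega
  rw [Metric.tendsto_atTop]
  intro ε hε
  obtain ⟨K, hK⟩ := exists_nat_one_div_lt hε
  refine ⟨n K, fun N hN => ?_⟩
  have ex : ∃ k, N < n (k + 1) := ⟨N, (Nat.lt_succ_self N).trans_le mono.le_apply⟩
  obtain ⟨k, h1, h2⟩ : ∃ k, N < n (k + 1) ∧ n k ≤ N := by
    refine ⟨Nat.find ex, Nat.find_spec ex, ?_⟩
    rcases h : Nat.find ex with _ | j
    · exact (mono.monotone (Nat.zero_le K)).trans hN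
    · exact not_lt.1 (Nat.find_min ex (by omega))
  have h3 : K ≤ k := Nat.lt_succ_iff.1 (mono.lt_iff_lt.1 (hN.trans_lt h1))
  have h4 : ((range N).filter fun i => dig x i ≠ 0) ⊆ ((range (s k) ∪ Ico (n k - 1) (n k + s k)) ∪
      Ico (2 * n k - 1) (2 * n k + s k)) ∪ {N - 1} := fun i hi => by
    simp only [mem_filter, mem_range, mem_union, mem_Ico, mem_singleton] at hi ⊢
    by_contra c
    refine hi.2 ?_
    by_cases c1 : i + 2 ≤ n k
    · exact za (by omega) c1
    by_cases c2 : i + 2 ≤ 2 * n k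
    · exact zb (by omega) c2
    · exact za (k := k + 1) (by rw [s_succ]; omega) (by omega)
  have h5 := (card_le_card h4).trans ((card_union_le _ _).trans (Nat.add_le_add_right
    ((card_union_le _ _).trans (Nat.add_le_add_right (card_union_le _ _) _)) _))
  simp only [card_range, Nat.card_Ico, card_singleton] at h5
  have h6 := n_ge k
  have h7 := B_pos k
  have h8 : ((range N).filter fun i => dig x i ≠ 0).card * (K + 1) ≤ N := by
    have := n_pos k
    calc _ ≤ (4 * (s k + 1)) * (k + 1) := Nat.mul_le_mul (by omega) (by omega)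
      _ ≤ _ := by nlinarith [Nat.zero_le (4 * (k + 1) * (s k + 1) * B k)]
  have h9 : (0 : ℝ) < N := by have := n_pos k; exact_mod_cast (by omega : 0 < N)
  rw [Real.dist_eq, sub_zero, abs_of_nonneg (by positivity)]
  refine lt_of_le_of_lt ?_ hK
  rw [div_le_div_iff₀ h9 (by positivity), one_mul]
  exact_mod_cast h8

end Pool.Agent.H24.Rec
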