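import Pool.Agent.H24.Rec1

set_option autoImplicit false

namespace Pool.Agent.H24.Rec

open Finset Filter Topology

lemma blk (y : ℝ) (d : ℕ → ℤ) (L : ℕ) : ∃ W : ℤ, ∀ i, (∀ j < L, dig y (i + j) = d j) →
    ⌊(10 : ℝ) ^ (i + L) * y⌋ = 10 ^ L * ⌊(10 : ℝ) ^ i * y⌋ + W := by
  induction L with
  | zero => exact ⟨0, by simp⟩
  | succ L ih =>
    obtain ⟨W, hW⟩ := ih
    refine ⟨10 * W + d L, fun i h => ?_⟩
    have h1 := hW i fun j hj => h j (by omega)
    have h2 := h L (by omega)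
    have h3 : ⌊(10 : ℝ) ^ (i + L + 1) * y⌋ / 10 = ⌊(10 : ℝ) ^ (i + L) * y⌋ := by
      have := Int.floor_div_natCast ((10 : ℝ) ^ (i + L + 1) * y) 10
      push_cast at this
      rw [← this]; congr 1; ring
    unfold dig at h2
    rw [← add_assoc, pow_succ (10 : ℤ)]
    linear_combination 10 * h1 + h2 + 10 * h3 - Int.mul_ediv_add_emod ⌊(10 : ℝ) ^ (i + L + 1) * y⌋ 10

lemma pw (a : ℤ) (m : ℕ) : ∃ z : ℤ, (1 + a) ^ m = 1 + m * a + a ^ 2 * z := by
  induction m with
  | zero => exact ⟨0, by simp⟩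
  | succ m ih => obtain ⟨z, h⟩ := ih; exact ⟨m + z + a * z, by rw [pow_succ, h]; push_cast; ring⟩

lemma cnt1 (k L i0 : ℕ) (hL : L ≤ k) (hi : i0 < 2 * n k) (d : ℕ → ℤ) :
    (((range (10 ^ n k + 1)).filter fun m => ∀ j < L, dig x⁻¹ (i0 + 2 * n k * m + j) = d j).card : ℝ) ≤
      4 * (10 ^ n k + 1) / 10 ^ L := by
  obtain ⟨W, hW⟩ := blk x⁻¹ d L
  obtain ⟨c, hc⟩ := B_dvd k
  set A : ℤ := 10 ^ n k + 1 with hA
  have A0 : (0 : ℝ) < A := by rw [hA]; push_cast; positivity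
  have B0 : (0 : ℝ) < B k := by exact_mod_cast B_pos k
  set e : ℤ := 10 ^ (i0 + s (k + 1)) with he
  have cop : IsCoprime A (e * c) := by
    have h1 : IsCoprime A 10 := by
      simpa [hA] using (Nat.isCoprime_iff_coprime.2 (A_cop k)).symm
    refine (h1.pow_right).mul_right ?_
    have h2 : IsCoprime A 2 := IsCoprime.of_mul_right_left (y := 2) (z := 5) h1
    have : (2 : ℤ) = -(B k * c) + A * 1 := by rw [← hc, hA]; ring
    rw [this, IsCoprime.add_mul_left_right_iff, IsCoprime.neg_right_iff] at h2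
    exact h2.of_mul_right_right
  set β : ℝ := A * (W / 10 ^ L) - e / (A * B k) with hβ
  have key : ∀ m : ℕ, m < 10 ^ n k + 1 → (∀ j < L, dig x⁻¹ (i0 + 2 * n k * m + j) = d j) →
      ∃ t : ℤ, A ∣ t - m * (e * c) ∧ β ≤ t ∧ t < β + 2 * A / 10 ^ L := fun m hm h => by
    have h1 := hW _ h
    obtain ⟨z, hz⟩ := pw (A * (B k * c)) m
    have h2 : (10 : ℤ) ^ (2 * n k * m) = (1 + A * (B k * c)) ^ m := by
      rw [pow_mul, ← hc, hA]; congr 1; ring
    set i := i0 + 2 * n k * m with hi'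
    set F := ⌊(10 : ℝ) ^ i * x⁻¹⌋
    have h3 : (10 : ℝ) ^ i * (X (k + 1))⁻¹ = e / (A ^ 2 * B k) + m * (e * c) / A + e * (B k * c ^ 2 * z) := by
      have : (10 : ℝ) ^ (2 * n k * m) = 1 + m * (A * (B k * c)) + (A * (B k * c)) ^ 2 * z := by
        exact_mod_cast h2.trans hz
      have e2 : (B (k + 1) : ℝ) = A ^ 2 * B k := by rw [B_succ, hA]; push_cast; ring
      rw [X, e2, hi', pow_add, this, he]
      push_cast
      field_simp
      ring
    have t := tail (k + 1)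
    have x1 := X_ge (k + 1)
    have x2 : 1 ≤ x := by linarith [t.1]
    have h4 : 0 ≤ (X (k + 1))⁻¹ - x⁻¹ := sub_nonneg.2 (inv_anti₀ (by linarith) (by linarith [t.1]))
    have h5 : (X (k + 1))⁻¹ - x⁻¹ ≤ 6 * u (k + 1) := by
      rw [inv_sub_inv (by linarith) (by linarith)]
      exact (div_le_self t.1 (by nlinarith)).trans t.2
    have h6 := pu (i := i + L) (m := n (k + 1)) (by
      have := n_big k
      have : 2 * n k * (m + 1) ≤ 2 * n k * (10 ^ n k + 1) := Nat.mul_le_mul_left _ hm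
      rw [mul_add] at this
      omega)
    have p : (0 : ℝ) < 10 ^ (i + L) := by positivity
    have h7 := mul_le_mul_of_nonneg_left h5 p.le
    have h8 := mul_nonneg p.le h4
    have f1 := Int.floor_le ((10 : ℝ) ^ (i + L) * x⁻¹)
    have f2 := Int.lt_floor_add_one ((10 : ℝ) ^ (i + L) * x⁻¹)
    rw [h1] at f1 f2
    push_cast at f1 f2
    have q : (0 : ℝ) < 10 ^ L := by positivity
    have h9 : (10 : ℝ) ^ (i + L) * (X (k + 1))⁻¹ = 10 ^ L * (e / (A ^ 2 * B k) + m * (e * c) / A +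
      e * (B k * c ^ 2 * z)) := by rw [← h3]; ring
    unfold u at h7
    refine ⟨m * (e * c) + A * (e * (B k * c ^ 2 * z) - F), by simp, ?_, ?_⟩
    · rw [← sub_nonneg]
      refine (div_nonneg (mul_nonneg A0.le (show 0 ≤ 10 ^ L * (e / (A ^ 2 * B k) + m * (e * c) / A +
        e * (B k * c ^ 2 * z)) - (10 ^ L * F + W : ℝ) by linarith)) q.le).trans_eq ?_
      rw [hβ]; push_cast; field_simp; ring
    · rw [← sub_pos]
      refine (div_pos (mul_pos A0 (show 0 < (10 ^ L * F + W + 2 : ℝ) - 10 ^ L * (e / (A ^ 2 * B k) +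
        m * (e * c) / A + e * (B k * c ^ 2 * z)) by linarith)) q).trans_eq ?_
      rw [hβ]; push_cast; field_simp; ring
  choose! t h1 h2 h3 using key
  have h4 := card_le_card_of_injOn (s := (range (10 ^ n k + 1)).filter fun m =>
    ∀ j < L, dig x⁻¹ (i0 + 2 * n k * m + j) = d j) (t := Ico ⌈β⌉ ⌈β + 2 * A / 10 ^ L⌉) t
    (fun m hm => by
      simp only [coe_filter, mem_range, Set.mem_ofPred, coe_Ico, Set.mem_Ico] at hm ⊢
      exact ⟨Int.ceil_le.2 (h2 m hm.1 hm.2), Int.lt_ceil.2 (h3 m hm.1 hm.2)⟩)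
    (fun m hm m' hm' e => by
      simp only [coe_filter, mem_range, Set.mem_ofPred] at hm hm'
      have := dvd_sub (h1 m hm.1 hm.2) (h1 m' hm'.1 hm'.2)
      rw [e, sub_sub_sub_cancel_left, ← sub_mul] at this
      refine Nat.ModEq.eq_of_lt_of_lt (Nat.modEq_iff_dvd.2 ?_) hm.1 hm'.1
      exact_mod_cast cop.dvd_of_dvd_mul_right this)
  rw [Int.card_Ico] at h4
  have h5 : (10 : ℝ) ^ L ≤ A := by
    have := n_ge k
    have : (10 : ℝ) ^ L ≤ 10 ^ n k := pow_le_pow_right₀ (by norm_num)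
      (by nlinarith [Nat.zero_le (k * s k), Nat.zero_le (k * s k * B k), Nat.zero_le (k * B k)])
    rw [hA]; push_cast; linarith
  have h6 : (1 : ℝ) ≤ A / 10 ^ L := (one_le_div (by positivity)).2 h5
  have h7 : ((⌈β + 2 * A / 10 ^ L⌉ - ⌈β⌉).toNat : ℝ) ≤ 4 * A / 10 ^ L := by
    rw [mul_div_assoc, mul_div_assoc]
    have := Int.ceil_lt_add_one (β + 2 * (A / 10 ^ L))
    have := Int.le_ceil β
    rcases le_total (⌈β + 2 * (A / 10 ^ L : ℝ)⌉ - ⌈β⌉) 0 with h | h
    · rw [Int.toNat_eq_zero.2 h]; push_cast; linarith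
    · rw [← Int.cast_natCast, Int.toNat_of_nonneg h]; push_cast; linarith
  have := (Nat.cast_le (α := ℝ)).2 h4
  rw [hA] at h7; push_cast at h7
  rw [hA] at this; push_cast at this
  linarith

lemma cnt2 (k L : ℕ) (hL : L ≤ k) (d : ℕ → ℤ) :
    (((range (2 * n k * (10 ^ n k + 1))).filter fun i => ∀ j < L, dig x⁻¹ (i + j) = d j).card : ℝ) ≤
      4 / 10 ^ L * (2 * n k * (10 ^ n k + 1) : ℕ) := by
  have p := n_pos k
  have : ((range (2 * n k * (10 ^ n k + 1))).filter fun i => ∀ j < L, dig x⁻¹ (i + j) = d j) ⊆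
      (range (2 * n k)).biUnion fun i0 => ((range (10 ^ n k + 1)).filter fun m =>
        ∀ j < L, dig x⁻¹ (i0 + 2 * n k * m + j) = d j).image fun m => i0 + 2 * n k * m := fun i hi => by
    simp only [mem_filter, mem_range, mem_biUnion, mem_image] at hi ⊢
    exact ⟨i % (2 * n k), Nat.mod_lt _ (by omega), i / (2 * n k), ⟨Nat.div_lt_of_lt_mul hi.1,
      by rw [Nat.mod_add_div]; exact hi.2⟩, Nat.mod_add_div _ _⟩
  have h := (card_le_card this).trans (card_biUnion_le.trans (sum_le_sum fun _ _ => card_image_le))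
  refine ((Nat.cast_le (α := ℝ)).2 h).trans ?_
  rw [Nat.cast_sum]
  refine (sum_le_card_nsmul _ _ _ fun i hi => cnt1 k L i hL (mem_range.1 hi) d).trans_eq ?_
  simp only [card_range, nsmul_eq_mul]; push_cast; ring

lemma tot (y : ℝ) (L N : ℕ) : ∑ w : Fin L → Fin 10, ((range N).filter fun i =>
    ∀ j : Fin L, dig y (i + j) = (w j : ℕ)).card = N := by
  have h : ∀ i, (dig y i).toNat < 10 := fun i => by unfold dig; omega
  refine Eq.trans ?_ ((card_eq_sum_card_fiberwise (t := univ)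
    (f := fun i (j : Fin L) => (⟨_, h (i + j)⟩ : Fin 10)) (by simp)).symm.trans (card_range N))
  refine sum_congr rfl fun w _ => congrArg _ (filter_congr fun i _ => ?_)
  rw [funext_iff]
  refine forall_congr' fun j => ?_
  rw [Fin.ext_iff]
  have : 0 ≤ dig y (i + j) := by unfold dig; omega
  simp only; omega

end Pool.Agent.H24.Rec
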