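import Pool.Agent.H24.Sieve

open Finset

namespace Pool.Agent.H24.Rom

/-- singular series bound -/
noncomputable def F (M : ℕ) : ℝ := ∏ p ∈ M.primeFactors, (1 + 8 / (p : ℝ))

/-- harmonic sum -/
noncomputable def Hn (n : ℕ) : ℝ := ∑ m ∈ Ioc 0 n, (1 / m : ℝ)

theorem Hn_eq (n : ℕ) : Hn n = (harmonic n : ℝ) := by
  rw [Hn, harmonic_eq_sum_Icc]; push_cast
  exact sum_congr (by ext; simp [Nat.one_le_iff_ne_zero, Nat.pos_iff_ne_zero]) fun _ _ => by simp

theorem Hn_le (n : ℕ) : Hn n ≤ 1 + Real.log n := by rw [Hn_eq]; exact harmonic_le_one_add_log n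

theorem le_Hn (n : ℕ) : Real.log (n + 1) ≤ Hn n := by
  rw [Hn_eq]; exact_mod_cast log_add_one_le_harmonic n

theorem Hn_pow_le (i : ℕ) : Hn (2 ^ i) ≤ 1 + i := by
  have := Hn_le (2 ^ i)
  have h2 := Real.log_two_lt_d9
  push_cast at this
  rw [Real.log_pow] at this
  have : (0 : ℝ) ≤ i := Nat.cast_nonneg i
  nlinarith

theorem le_Hn_pow (i : ℕ) : (i : ℝ) / 2 ≤ Hn (2 ^ i) := by
  have := le_Hn (2 ^ i)
  have h2 := Real.log_two_gt_d9
  have h3 : Real.log ((2 : ℝ) ^ i) ≤ Real.log (((2 ^ i : ℕ) : ℝ) + 1) :=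
    Real.log_le_log (by positivity) (by push_cast; linarith)
  rw [Real.log_pow] at h3
  have : (0 : ℝ) ≤ i := Nat.cast_nonneg i
  nlinarith

theorem one_le_F (M : ℕ) : 1 ≤ F M :=
  one_le_prod fun p _ => le_add_of_nonneg_right (by positivity)

theorem sieveK (g : ArithmeticFunction ℝ) (hg : g.IsMultiplicative)
    (h0 : ∀ p k, p.Prime → 0 ≤ g (p ^ k)) (κ M z N : ℕ) (hM : M ≠ 0) (hz : 1 ≤ z)
    (h1 : ∀ p K, p.Prime → ∑ k ∈ Ico 1 K, g (p ^ k) ≤ 8 / p)
    (h2 : ∀ p K, p.Prime → κ < p → ∑ k ∈ Ico 1 K, g (p ^ k) ≤ κ / (p - κ))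
    (Ω : ℕ → Finset ℕ) (hΩ : ∀ p, p.Prime → ¬ p ∣ M → Ω p ⊆ range p ∧ #(Ω p) = κ ∧ κ < p)
    (S : Finset ℕ) (hS : S ⊆ range N)
    (hs : ∀ s ∈ S, ∀ p, p.Prime → p ≤ z → ¬ p ∣ M → s % p ∉ Ω p) :
    #S * ∑ m ∈ Ioc 0 z, g m ≤ (N + 2 * z ^ 6) * F M := by
  classical
  set P := (range (z + 1)).filter Nat.Prime with hP
  set 𝒟 := P.powerset.filter fun D => ∏ p ∈ D, p ≤ z with h𝒟
  set 𝒟' := 𝒟.filter fun D => ∀ p ∈ D, ¬ p ∣ M with h𝒟'
  have hD : ∀ D ∈ 𝒟', ∀ p ∈ D, p.Prime ∧ p ≤ z ∧ ¬ p ∣ M := fun D hD p hp => by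
    simp only [h𝒟', h𝒟, hP, mem_filter, mem_powerset] at hD
    have := mem_filter.1 (hD.1.1 hp)
    exact ⟨this.2, by have := mem_range.1 this.1; omega, hD.2 p hp⟩
  set h : ℕ → ℝ := fun p => (κ : ℝ) / (p - κ) with hh
  set L := ∑ D ∈ 𝒟', ∏ p ∈ D, h p with hL
  have hpos : ∀ D ∈ 𝒟', 0 ≤ ∏ p ∈ D, h p := fun D hD' => prod_nonneg fun p hp => by
    have := (hΩ p (hD D hD' p hp).1 (hD D hD' p hp).2.2).2.2
    have : (κ : ℝ) < p := by exact_mod_cast this
    exact div_nonneg (by positivity) (by linarith)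
  have L1 : 1 ≤ L := by
    have : (∅ : Finset ℕ) ∈ 𝒟' := by simp [h𝒟', h𝒟, hz]
    simpa using single_le_sum hpos this
  have sv := Sieve.sieve 𝒟' id (Set.injOn_id _) Ω z N (fun D hD' p hp => by
      have a := hD D hD' p hp
      have b := hΩ p a.1 a.2.2
      exact ⟨a.1, b.1, by omega⟩)
    (fun D hD' => (mem_filter.1 (mem_filter.1 hD').1).2) S hS
    (fun s hs' D hD' p hp => by have a := hD D hD' p hp; exact hs s hs' p a.1 a.2.1 a.2.2) L
    (sum_congr rfl fun D hD' => prod_congr rfl fun p hp => by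
      have a := hD D hD' p hp
      rw [(hΩ p a.1 a.2.2).2.1])
  have a1 : #S * L ≤ N + 2 * z ^ 6 := by
    have : (0 : ℝ) ≤ 2 * z ^ 6 := by positivity
    refine le_of_mul_le_mul_right ?_ (by linarith : 0 < L)
    nlinarith
  have a2 := Sieve.mult_le g hg (fun p => if p ∣ M then 8 / p else h p) h0 (fun p K hp => by
    split_ifs with hd
    · exact h1 p K hp
    · exact h2 p K hp (hΩ p hp hd).2.2) z
  have a3 : ∑ D ∈ 𝒟, ∏ p ∈ D, (if p ∣ M then 8 / (p : ℝ) else h p) ≤ F M * L := by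
    rw [F, prod_one_add, hL, sum_mul_sum, ← sum_product']
    have hi : Set.InjOn (fun D : Finset ℕ => (D.filter (· ∣ M), D.filter (¬ · ∣ M))) 𝒟 :=
      fun A _ B _ e => by
        simp only [Prod.mk.injEq] at e
        rw [← filter_union_filter_not_eq (· ∣ M) A, ← filter_union_filter_not_eq (· ∣ M) B, e.1, e.2]
    refine le_trans (le_of_eq ?_) (sum_le_sum_of_subset_of_nonneg (s := image (fun D : Finset ℕ =>
      (D.filter (· ∣ M), D.filter (¬ · ∣ M))) 𝒟) ?_ fun x hx _ => ?_)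
    · rw [sum_image hi]
      exact sum_congr rfl fun D _ => prod_ite _ _
    · intro x hx
      obtain ⟨D, hD', rfl⟩ := mem_image.1 hx
      simp only [h𝒟, hP, mem_filter, mem_powerset] at hD'
      refine mem_product.2 ⟨mem_powerset.2 fun p hp => ?_, ?_⟩
      · rw [mem_filter] at hp
        exact Nat.mem_primeFactors.2 ⟨(mem_filter.1 (hD'.1 hp.1)).2, hp.2, hM⟩
      · simp only [h𝒟', h𝒟, hP, mem_filter, mem_powerset]
        refine ⟨⟨(filter_subset _ _).trans hD'.1, le_trans (prod_le_prod_of_subset_of_one_le'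
          (filter_subset _ _) fun p hp _ => (mem_filter.1 (hD'.1 hp)).2.one_le) hD'.2⟩, fun p hp => hp.2⟩
    · exact mul_nonneg (prod_nonneg fun p _ => by positivity) (hpos _ (mem_product.1 hx).2)
  have := one_le_F M
  calc _ ≤ #S * (F M * L) := by gcongr; exact a2.trans a3
    _ = #S * L * F M := by ring
    _ ≤ _ := by gcongr

theorem root (p U u : ℕ) (hp : p.Prime) (hU : ¬ p ∣ U) : ∃ ρ < p, p ∣ U * ρ + u := by
  have := Fact.mk hp
  refine ⟨(-(u : ZMod p) / U).val, ZMod.val_lt _, (ZMod.natCast_eq_zero_iff _ _).1 ?_⟩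
  have : (U : ZMod p) ≠ 0 := fun h => hU ((ZMod.natCast_eq_zero_iff _ _).1 h)
  push_cast
  rw [ZMod.natCast_zmod_val]
  field_simp
  ring

theorem dvd_of_mod (p U u s : ℕ) (h : p ∣ U * (s % p) + u) : p ∣ U * s + u := by
  have : U * s + u = p * (U * (s / p)) + (U * (s % p) + u) := by
    conv_lhs => rw [← Nat.div_add_mod s p]
    ring
  rw [this]; exact dvd_add (dvd_mul_right _ _) h

/-- the function 1/n -/
noncomputable def g1 : ArithmeticFunction ℝ := ⟨fun n => 1 / n, by simp⟩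

theorem g1_mul : g1.IsMultiplicative := ⟨by simp [g1], fun _ => by simp [g1, mul_comm]⟩

theorem geo (x : ℝ) (h0 : 0 ≤ x) (h1 : x < 1) (K : ℕ) : ∑ k ∈ Ico 1 K, x ^ k ≤ x / (1 - x) := by
  simpa using geom_sum_Ico_le_of_lt_one (m := 1) (n := K) h0 h1

theorem bt_count (A T Q z : ℕ) (hQ : 0 < Q) (hz : 1 ≤ z) (S : Finset ℕ)
    (hS : ∀ r ∈ S, r.Prime ∧ z < r ∧ A < r ∧ r ≤ A + T) (hc : ∀ r ∈ S, ∀ r' ∈ S, r ≡ r' [MOD Q]) :
    #S * Hn z ≤ (T / Q + 1 + 2 * z ^ 6) * F Q := by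
  classical
  rcases S.eq_empty_or_nonempty with rfl | hne
  · have := one_le_F Q
    simp only [card_empty, Nat.cast_zero, zero_mul]; positivity
  set c := S.min' hne with hc'
  have e : ∀ r ∈ S, Q * ((r - c) / Q) + c = r := fun r hr => by
    have h1 : c ≤ r := S.min'_le r hr
    have := (Nat.modEq_iff_dvd' h1).1 (hc c (S.min'_mem hne) r hr)
    rw [Nat.mul_div_cancel' this]; omega
  have hi : Set.InjOn (fun r => (r - c) / Q) S := fun a ha b hb h => by
    rw [← e a ha, ← e b hb]; simp only at h; rw [h]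
  have g : ∀ p K : ℕ, p.Prime → ∑ k ∈ Ico 1 K, g1 (p ^ k) ≤ 1 / (p - 1) := fun p K hp => by
    have h2 : (2 : ℝ) ≤ p := by exact_mod_cast hp.two_le
    have := geo (1 / p) (by positivity) (by rw [div_lt_one] <;> linarith) K
    refine le_trans (le_of_eq (sum_congr rfl fun k _ => by simp [g1])) (this.trans (le_of_eq ?_))
    have : (p : ℝ) - 1 ≠ 0 := by linarith
    field_simp
  have := sieveK g1 g1_mul (fun p k _ => by simp [g1]) 1 Q z (T / Q + 1) hQ.ne' hz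
    (fun p K hp => (g p K hp).trans (by
      have h2 : (2 : ℝ) ≤ p := by exact_mod_cast hp.two_le
      rw [div_le_div_iff₀ (by linarith) (by linarith)]; linarith))
    (fun p K hp _ => by simpa using g p K hp)
    (fun p => if h : p.Prime ∧ ¬ p ∣ Q then {(root p Q c h.1 h.2).choose} else ∅)
    (fun p hp hd => by
      rw [dif_pos ⟨hp, hd⟩]
      exact ⟨by simpa using (root p Q c hp hd).choose_spec.1, by simp, hp.one_lt⟩)
    (S.image fun r => (r - c) / Q) (fun t ht => by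
      obtain ⟨r, hr, rfl⟩ := mem_image.1 ht
      have h1 := hS r hr
      have h2 := hS c (S.min'_mem hne)
      exact mem_range.2 (Nat.lt_succ_of_le (Nat.div_le_div_right (by omega))))
    (fun t ht p hp hpz hd hm => by
      obtain ⟨r, hr, rfl⟩ := mem_image.1 ht
      rw [dif_pos ⟨hp, hd⟩, mem_singleton] at hm
      have h1 := (root p Q c hp hd).choose_spec.2
      rw [← hm] at h1
      have h2 := dvd_of_mod _ _ _ _ h1
      rw [e r hr] at h2
      have h3 := hS r hr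
      have := (Nat.prime_dvd_prime_iff_eq hp h3.1).1 h2
      omega)
  rw [card_image_of_injOn hi] at this
  refine le_trans this ?_
  have := one_le_F Q
  have : ((T / Q : ℕ) : ℝ) ≤ T / Q := Nat.cast_div_le
  push_cast
  gcongr

theorem bt_sum (a Q z : ℕ) (hQ : 0 < Q) (hz : 1 ≤ z) (h : Q * z ^ 6 ≤ 2 ^ a) (S : Finset ℕ)
    (hS : ∀ r ∈ S, r.Prime ∧ 2 ^ a < r ∧ r ≤ 2 ^ (2 * a)) (hc : ∀ r ∈ S, ∀ r' ∈ S, r ≡ r' [MOD Q]) :
    (∑ r ∈ S, (1 / r : ℝ)) * Hn z ≤ 4 * a * F Q / Q := by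
  have hz6 : z ≤ z ^ 6 := Nat.le_self_pow (by norm_num) z
  have hza : z ≤ 2 ^ a := by nlinarith
  have hl : ∀ r ∈ S, 2 ^ Nat.log 2 (r - 1) < r ∧ r ≤ 2 ^ (Nat.log 2 (r - 1) + 1) ∧
      Nat.log 2 (r - 1) ∈ Ico a (2 * a) := fun r hr => by
    obtain ⟨h1, h2, h3⟩ := hS r hr
    have h4 := h1.two_le
    have h5 := Nat.pow_log_le_self 2 (x := r - 1) (by omega)
    have h6 := Nat.lt_pow_succ_log_self (b := 2) (by norm_num) (r - 1)
    refine ⟨by omega, by rw [Nat.succ_eq_add_one] at h6; omega, mem_Ico.2 ⟨?_, ?_⟩⟩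
    · exact Nat.le_log_of_pow_le (by norm_num) (by omega)
    · exact Nat.log_lt_of_lt_pow (by omega) (by omega)
  rw [← sum_fiberwise_of_maps_to (g := fun r => Nat.log 2 (r - 1)) (t := Ico a (2 * a))
    fun r hr => (hl r hr).2.2, sum_mul]
  have hF := one_le_F Q
  have Q0 : (0 : ℝ) < Q := by exact_mod_cast hQ
  refine le_trans (sum_le_card_nsmul _ _ (4 * F Q / Q) fun i hi => ?_) (le_of_eq ?_)
  · have hia : 2 ^ a ≤ 2 ^ i := Nat.pow_le_pow_right (by norm_num) (mem_Ico.1 hi).1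
    have := bt_count (2 ^ i) (2 ^ i) Q z hQ hz (S.filter fun r => Nat.log 2 (r - 1) = i)
      (fun r hr => by
        rw [mem_filter] at hr
        have h1 := hl r hr.1
        have h2 := hS r hr.1
        rw [hr.2, pow_succ] at h1
        exact ⟨h2.1, by omega, h1.1, by omega⟩)
      fun r hr r' hr' => hc r (mem_filter.1 hr).1 r' (mem_filter.1 hr').1
    have h1 : ∑ r ∈ S with Nat.log 2 (r - 1) = i, (1 / r : ℝ) ≤
        #(S.filter fun r => Nat.log 2 (r - 1) = i) • (1 / 2 ^ i : ℝ) :=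
      sum_le_card_nsmul _ _ _ fun r hr => by
        rw [mem_filter] at hr
        have h1 := (hl r hr.1).1.le
        rw [hr.2] at h1
        have : (2 : ℝ) ^ i ≤ r := by exact_mod_cast h1
        gcongr
    have H0 : 0 ≤ Hn z := sum_nonneg fun _ _ => by positivity
    have h2 : (z : ℝ) ^ 6 ≤ 2 ^ i / Q := by
      rw [le_div_iff₀ Q0]
      have : z ^ 6 * Q ≤ 2 ^ i := by rw [mul_comm]; omega
      exact_mod_cast this
    have h3 : (1 : ℝ) ≤ z ^ 6 := one_le_pow₀ (by exact_mod_cast hz)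
    rw [nsmul_eq_mul] at h1
    push_cast at this
    calc _ ≤ (#(S.filter fun r => Nat.log 2 (r - 1) = i) * (1 / 2 ^ i : ℝ)) * Hn z := by gcongr
      _ = (#(S.filter fun r => Nat.log 2 (r - 1) = i) * Hn z) / 2 ^ i := by ring
      _ ≤ (4 * (2 ^ i / Q) * F Q) / 2 ^ i := by
          refine div_le_div_of_nonneg_right (this.trans ?_) (by positivity)
          gcongr
          linarith
      _ = _ := by field_simp
  · simp only [Nat.card_Ico, nsmul_eq_mul]
    rw [show 2 * a - a = a by omega]; ring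

end Pool.Agent.H24.Rom
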