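import Mathlib

set_option autoImplicit false

namespace Pool.Agent.H24.Transl

open Finset Nat

theorem piNat (i : ℕ) : 2 ^ i ≤ (i + 1) * (Nat.primeCounting (2 ^ i) + 1) := by
  have h1 := Chebyshev.two_pow_le_mul_lcmUpto (2 ^ i)
  have h0 : 0 < 2 ^ i := by positivity
  have h2 : Nat.lcmUpto (2 ^ i) ≤ (2 ^ i) ^ Nat.primeCounting (2 ^ i) := by
    rw [Nat.lcmUpto_eq_prod_pow_log, ← Nat.primesLE_card_eq_primeCounting]
    exact Finset.prod_le_pow_card _ _ _ fun p _ => Nat.pow_log_le_self p h0.ne'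
  have h3 : 2 ^ 2 ^ i ≤ 2 ^ (i + 1 + i * Nat.primeCounting (2 ^ i)) := by
    calc _ ≤ (2 ^ i + 1) * (2 ^ i) ^ Nat.primeCounting (2 ^ i) := h1.trans (Nat.mul_le_mul_left _ h2)
      _ ≤ 2 ^ (i + 1) * (2 ^ i) ^ Nat.primeCounting (2 ^ i) :=
          Nat.mul_le_mul_right _ (by rw [pow_succ]; omega)
      _ = _ := by rw [← pow_mul, ← pow_add]
  have := (Nat.pow_le_pow_iff_right (by norm_num)).1 h3
  nlinarith

theorem exists_j (M : ℕ) : ∃ j, M ≤ j ∧ M * (3 * j + 1) ≤ 2 ^ j := by
  refine ⟨2 * (4 * M + 4), by omega, ?_⟩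
  have h : 4 * M + 4 < 2 ^ (4 * M + 4) := Nat.lt_two_pow_self
  have h2 : 2 * (4 * M + 2) < 2 ^ (4 * M + 4) := by
    have : 4 * M + 2 < 2 ^ (4 * M + 2) := Nat.lt_two_pow_self
    rw [show 4 * M + 4 = (4 * M + 2) + 2 by ring, pow_add]; omega
  rw [mul_comm 2, pow_mul]
  nlinarith

theorem exists_yZ (M : ℕ) : ∃ y w : ℕ, M ≤ y ∧ 0 < y ∧ 0 < w ∧ M * w ≤ Nat.primeCounting y ∧
    M * y ≤ Nat.primeCounting (y * w) := by
  obtain ⟨j, hj, h⟩ := exists_j (M + 1)
  have h0 : 0 < 2 ^ j := by positivity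
  have hlt : j < 2 ^ j := Nat.lt_two_pow_self
  refine ⟨2 ^ (2 * j), 2 ^ j, ?_, by positivity, h0, ?_, ?_⟩
  · have : 2 * j < 2 ^ (2 * j) := Nat.lt_two_pow_self
    omega
  · have h1 := piNat (2 * j)
    have e : 2 ^ (2 * j) = 2 ^ j * 2 ^ j := by rw [← pow_add]; congr 1; ring
    set X := 2 ^ j
    set p := Nat.primeCounting (2 ^ (2 * j))
    rw [e] at h1
    have h2 : (2 * j + 1) * ((M + 1) * X) ≤ (2 * j + 1) * (p + 1) := by nlinarith
    have := Nat.le_of_mul_le_mul_left h2 (by omega)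
    nlinarith
  · have h1 := piNat (3 * j)
    have e : 2 ^ (2 * j) * 2 ^ j = 2 ^ (3 * j) := by rw [← pow_add]; congr 1; ring
    rw [e]
    set p := Nat.primeCounting (2 ^ (3 * j))
    rw [← e] at h1
    have h0' : 0 < 2 ^ (2 * j) := by positivity
    set X := 2 ^ j
    set Y := 2 ^ (2 * j)
    have h2 : (3 * j + 1) * ((M + 1) * Y) ≤ (3 * j + 1) * (p + 1) := by nlinarith
    have := Nat.le_of_mul_le_mul_left h2 (by omega)
    nlinarith

theorem card_pf (m k : ℕ) (hm : m ≠ 0) (h : m ≤ 2 ^ k) : m.primeFactors.card ≤ k := by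
  have h1 : 2 ^ m.primeFactors.card ≤ ∏ p ∈ m.primeFactors, p :=
    Finset.pow_card_le_prod _ _ _ fun p hp => (Nat.prime_of_mem_primeFactors hp).two_le
  have h2 := Nat.le_of_dvd (Nat.pos_of_ne_zero hm) (Nat.prod_primeFactors_dvd m)
  exact (Nat.pow_le_pow_iff_right (by norm_num)).1 (h1.trans (h2.trans h))

theorem forced (n K : ℕ) : ∃ G : Finset ℕ, (∀ p ∈ G, p.Prime ∧ n < p) ∧
    (∀ x, K * (G.filter (· ≤ x)).card ≤ Nat.primeCounting x) ∧
    ∃ t, 1 ≤ t ∧ ∀ a, 1 ≤ a → a ≤ n → ∃ c, a + t = a * c ∧ ∀ p, p.Prime → p ∣ c → p ∈ G := by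
  obtain ⟨y, w, hMy, hy, hw, h1, h2⟩ := exists_yZ (5 * n * K + n * n + n)
  let c : ℕ → ℕ → ℕ := fun a s => 1 + s * (n ! / a * primorial y)
  let G : ℕ → Finset ℕ := fun s => (Icc 1 n).biUnion fun a => (c a s).primeFactors
  have hbig : ∀ a s p, p.Prime → p ∣ c a s → y < p := by
    intro a s p hp hd
    by_contra hle
    have : p ∣ s * (n ! / a * primorial y) :=
      ((hp.dvd_primorial_iff.2 (not_lt.1 hle)).mul_left _).mul_left _
    exact hp.one_lt.ne' (Nat.dvd_one.1 ((Nat.dvd_add_left this).1 hd))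
  have huniq : ∀ a p, p.Prime → ((Icc 1 y).filter fun s => p ∣ c a s).card ≤ 1 := by
    intro a p hp
    have key : ∀ s s', s ≤ s' → s' ≤ y → p ∣ c a s → p ∣ c a s' → s = s' := by
      intro s s' hss hs' hd hd'
      have hlt := hbig a s p hp hd
      have h3 : p ∣ (s' - s) * (n ! / a * primorial y) := by
        have := Nat.dvd_sub hd' hd
        simp only [c] at this
        rwa [Nat.add_sub_add_left, ← Nat.sub_mul] at this
      rcases hp.dvd_mul.1 h3 with h4 | h4
      · have := Nat.eq_zero_of_dvd_of_lt h4 (by omega); omega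
      · exact absurd (Nat.dvd_one.1 ((Nat.dvd_add_left (h4.mul_left s)).1 hd)) hp.one_lt.ne'
    refine Finset.card_le_one.2 fun s hs s' hs' => ?_
    rw [Finset.mem_filter, Finset.mem_Icc] at hs hs'
    rcases le_total s s' with h | h
    · exact key s s' h hs'.1.2 hs.2 hs'.2
    · exact (key s' s h hs.1.2 hs'.2 hs.2).symm
  have hsum : ∑ s ∈ Icc 1 y, ((G s).filter (· ≤ y * w)).card ≤ ∑ _s ∈ Icc 1 y, n * w := by
    calc _ ≤ ∑ s ∈ Icc 1 y, ∑ a ∈ Icc 1 n, (((Icc 1 (y * w)).filter Nat.Prime).filter fun p => p ∣ c a s).card := by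
          refine Finset.sum_le_sum fun s _ => le_trans (Finset.card_le_card ?_) Finset.card_biUnion_le
          intro p hp
          simp only [G, Finset.mem_filter, Finset.mem_biUnion, Nat.mem_primeFactors, Finset.mem_Icc] at hp ⊢
          obtain ⟨⟨a, ha, hp1, hp2, _⟩, hle⟩ := hp
          exact ⟨a, ha, ⟨⟨hp1.one_le, hle⟩, hp1⟩, hp2⟩
      _ = ∑ a ∈ Icc 1 n, ∑ p ∈ (Icc 1 (y * w)).filter Nat.Prime, ((Icc 1 y).filter fun s => p ∣ c a s).card := by
          rw [Finset.sum_comm]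
          refine Finset.sum_congr rfl fun a _ => ?_
          simp only [Finset.card_filter]
          exact Finset.sum_comm
      _ ≤ ∑ a ∈ Icc 1 n, y * w := by
          refine Finset.sum_le_sum fun a _ => ?_
          calc _ ≤ ∑ _p ∈ (Icc 1 (y * w)).filter Nat.Prime, 1 :=
                Finset.sum_le_sum fun p hp => huniq a p (Finset.mem_filter.1 hp).2
            _ ≤ _ := by
                rw [Finset.sum_const, smul_eq_mul, mul_one]
                exact (Finset.card_filter_le _ _).trans (by simp)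
      _ = _ := by simp; ring
  obtain ⟨s, hs, hsle⟩ := Finset.exists_le_of_sum_le (by simp; omega) hsum
  rw [Finset.mem_Icc] at hs
  have hG : ∀ p ∈ G s, p.Prime ∧ y < p := by
    intro p hp
    simp only [G, Finset.mem_biUnion, Nat.mem_primeFactors] at hp
    obtain ⟨a, _, hp1, hp2, _⟩ := hp
    exact ⟨hp1, hbig a s p hp1 hp2⟩
  have hcard : (G s).card ≤ n * (5 * y) := by
    refine Finset.card_biUnion_le.trans ?_
    calc _ ≤ ∑ _a ∈ Icc 1 n, 5 * y := Finset.sum_le_sum fun a _ => ?_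
      _ = _ := by simp
    refine card_pf _ _ (by simp [c]) ?_
    have a1 : s ≤ 2 ^ y := hs.2.trans Nat.lt_two_pow_self.le
    have a2 : n ! / a ≤ 2 ^ y := by
      calc _ ≤ n ! := Nat.div_le_self _ _
        _ ≤ n ^ n := Nat.factorial_le_pow n
        _ ≤ (2 ^ n) ^ n := Nat.pow_le_pow_left Nat.lt_two_pow_self.le n
        _ ≤ 2 ^ y := by rw [← pow_mul]; exact Nat.pow_le_pow_right (by norm_num) (by omega)
    have a3 : primorial y ≤ 2 ^ (2 * y) := by rw [pow_mul]; exact primorial_le_four_pow y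
    have a4 : s * (n ! / a * primorial y) ≤ 2 ^ (4 * y) := by
      calc _ ≤ 2 ^ y * (2 ^ y * 2 ^ (2 * y)) := Nat.mul_le_mul a1 (Nat.mul_le_mul a2 a3)
        _ = _ := by rw [← pow_add, ← pow_add]; congr 1; ring
    have a5 : 2 ^ (4 * y + 1) ≤ 2 ^ (5 * y) := Nat.pow_le_pow_right (by norm_num) (by omega)
    have a6 : 0 < 2 ^ (4 * y) := by positivity
    simp only [c]
    rw [pow_succ] at a5
    omega
  refine ⟨G s, fun p hp => ⟨(hG p hp).1, by have := (hG p hp).2; omega⟩, fun x => ?_,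
    s * (n ! * primorial y), Nat.mul_pos hs.1 (Nat.mul_pos n.factorial_pos (primorial_pos y)), ?_⟩
  · by_cases hx : x ≤ y
    · rw [Finset.filter_eq_empty_iff.2 fun p hp => by have := (hG p hp).2; omega]; simp
    by_cases hx2 : x ≤ y * w
    · have b1 : ((G s).filter (· ≤ x)).card ≤ n * w :=
        le_trans (Finset.card_le_card (Finset.monotone_filter_right _ fun p _ hp => le_trans hp hx2)) hsle
      have b2 := Nat.monotone_primeCounting (not_le.1 hx).le
      nlinarith [Nat.mul_le_mul_left K b1, Nat.zero_le (n * K * w), Nat.zero_le (n * n * w), Nat.zero_le (n * w)]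
    · have b1 : ((G s).filter (· ≤ x)).card ≤ n * (5 * y) := (Finset.card_filter_le _ _).trans hcard
      have b2 := Nat.monotone_primeCounting (not_le.1 hx2).le
      nlinarith [Nat.mul_le_mul_left K b1, Nat.zero_le (n * n * y), Nat.zero_le (n * y)]
  · intro a ha han
    refine ⟨c a s, ?_, fun p hp hd => ?_⟩
    · have := Nat.mul_div_cancel' (Nat.dvd_factorial ha han)
      simp only [c]
      calc a + s * (n ! * primorial y) = a + s * (a * (n ! / a) * primorial y) := by rw [this]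
        _ = _ := by ring
    · simp only [G, Finset.mem_biUnion, Nat.mem_primeFactors, Finset.mem_Icc]
      exact ⟨a, ⟨ha, han⟩, hp, hd, by simp [c]⟩

theorem geo (x : ℕ) (P : ℝ) : ∑ n ∈ range x, P / 2 ^ (n + 3) ≤ P / 4 - P / 2 ^ (x + 2) := by
  induction x with
  | zero => norm_num
  | succ x ih =>
    rw [Finset.sum_range_succ]
    have : P / 2 ^ (x + 2) = 2 * (P / 2 ^ (x + 3)) := by field_simp; ring
    rw [show x + 1 + 2 = x + 3 from rfl]
    linarith

theorem bigO (f : ℕ → ℝ) (hf : ∀ x, (Nat.primeCounting x : ℝ) / 4 - 1 ≤ f x) :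
    (fun x : ℕ ↦ (x : ℝ) / Real.log x) =O[Filter.atTop] f := by
  refine Asymptotics.IsBigO.of_bound 32 ?_
  filter_upwards [Filter.eventually_ge_atTop 100] with x hx
  have hx' : (100 : ℝ) ≤ x := by exact_mod_cast hx
  have h1 := Chebyshev.pi_ge x
  have hl : 0 < Real.log x := Real.log_pos (by linarith)
  have h8 : (8 : ℝ) ≤ Nat.primeCounting x := by
    have : Nat.primeCounting 19 ≤ Nat.primeCounting x := Nat.monotone_primeCounting (by omega)
    have e : Nat.primeCounting 19 = 8 := by decide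
    exact_mod_cast e ▸ this
  have h2 : Real.log (x + 1) ≤ x / 4 := by
    have a := Real.log_le_sub_one_of_pos (show 0 < ((x : ℝ) + 1) / 16 by positivity)
    rw [Real.log_div (by positivity) (by norm_num), show (16 : ℝ) = 2 ^ 4 by norm_num, Real.log_pow] at a
    have := Real.log_two_lt_d9
    push_cast at a
    linarith
  have h3 : (x : ℝ) / 4 / Real.log x ≤ Nat.primeCounting x := by
    refine le_trans (div_le_div_of_nonneg_right ?_ hl.le) h1
    have := Real.log_two_gt_d9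
    nlinarith
  rw [Real.norm_of_nonneg (by positivity)]
  have h4 : (x : ℝ) / Real.log x = 4 * ((x : ℝ) / 4 / Real.log x) := by ring
  have := le_abs_self (f x)
  have := hf x
  rw [Real.norm_eq_abs]
  linarith

theorem half (r x : ℕ) (hr : r < 2) : ∃ S : Finset ℕ, (Nat.primeCounting x : ℝ) / 2 - 1 ≤ S.card ∧
    ∀ p ∈ S, p.Prime ∧ p ≤ x ∧ Nat.count Nat.Prime p % 2 = r := by
  refine ⟨(range (Nat.primeCounting x / 2)).image fun i => Nat.nth Nat.Prime (2 * i + r), ?_, ?_⟩
  · rw [Finset.card_image_of_injective _ fun i j h => by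
      have := Nat.nth_injective Nat.infinite_setOfPred_prime h; omega, Finset.card_range]
    have : Nat.primeCounting x ≤ 2 * (Nat.primeCounting x / 2) + 1 := by omega
    have h2 : (Nat.primeCounting x : ℝ) ≤ 2 * ((Nat.primeCounting x / 2 : ℕ) : ℝ) + 1 := by exact_mod_cast this
    linarith
  · intro p hp
    obtain ⟨i, hi, rfl⟩ := Finset.mem_image.1 hp
    rw [Finset.mem_range] at hi
    refine ⟨Nat.prime_nth_prime _, ?_, ?_⟩
    · have : 2 * i + r < Nat.count Nat.Prime (x + 1) := by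
        change 2 * i + r < Nat.primeCounting x
        omega
      exact Nat.lt_succ_iff.1 (Nat.nth_lt_of_lt_count this)
    · rw [Nat.count_nth_of_infinite Nat.infinite_setOfPred_prime]; omega

end Pool.Agent.H24.Transl
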