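import Pool.Agent.H24.Rom1
import Pool.Agent.H24.Transl

open Finset

namespace Pool.Agent.H24.Rom

theorem param (A B a b X : ℕ) (hA : 0 < A) (hB : 0 < B) (S : Finset (ℕ × ℕ)) (hne : S.Nonempty)
    (hS : ∀ x ∈ S, x.1 ≤ X ∧ A * x.1 + a = B * x.2 + b) :
    ∃ u v, A * u + a = B * v + b ∧ ∀ x ∈ S, ∃ t < X / (B / A.gcd B) + 1,
      x = (B / A.gcd B * t + u, A / A.gcd B * t + v) := by
  obtain ⟨x0, h0, hm⟩ := S.exists_min_image Prod.fst hne
  refine ⟨x0.1, x0.2, (hS x0 h0).2, fun x hx => ?_⟩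
  have hg : 0 < A.gcd B := Nat.gcd_pos_of_pos_left _ hA
  have hc := Nat.coprime_div_gcd_div_gcd hg
  have eA := Nat.mul_div_cancel' (Nat.gcd_dvd_left A B)
  have eB := Nat.mul_div_cancel' (Nat.gcd_dvd_right A B)
  set g := A.gcd B
  set U := B / g
  set V := A / g
  have hU : 0 < U := Nat.pos_of_ne_zero fun h => by rw [h] at eB; omega
  obtain ⟨d, hd⟩ := Nat.exists_eq_add_of_le (hm x hx)
  have h1 := (hS x hx).2
  have h2 := (hS x0 h0).2
  have h3 : x0.2 ≤ x.2 := by
    by_contra h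
    rw [hd] at h1
    nlinarith
  obtain ⟨e, he⟩ := Nat.exists_eq_add_of_le h3
  have h4 : V * d = U * e := by
    refine Nat.eq_of_mul_eq_mul_left hg ?_
    rw [← mul_assoc, ← mul_assoc, eA, eB]
    rw [hd, he] at h1
    nlinarith
  obtain ⟨t, rfl⟩ : U ∣ d := hc.symm.dvd_of_dvd_mul_left ⟨e, h4⟩
  have h5 : e = V * t := Nat.eq_of_mul_eq_mul_left hU (by rw [← h4]; ring)
  refine ⟨t, Nat.lt_succ_of_le ((Nat.le_div_iff_mul_le hU).2 ?_), Prod.ext ?_ ?_⟩
  · have := (hS x hx).1; nlinarith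
  · simp only; omega
  · simp only; omega

theorem cast_N (A B X : ℕ) (hA : 0 < A) (hB : 0 < B) :
    ((X / (B / A.gcd B) + 1 : ℕ) : ℝ) ≤ X * A.gcd B / B + 1 := by
  have eB := Nat.mul_div_cancel' (Nat.gcd_dvd_right A B)
  have hg : (0 : ℝ) < A.gcd B := by exact_mod_cast Nat.gcd_pos_of_pos_left _ hA
  have : ((X / (B / A.gcd B) : ℕ) : ℝ) ≤ X / (B / A.gcd B : ℕ) := Nat.cast_div_le
  have e : (B : ℝ) = A.gcd B * (B / A.gcd B : ℕ) := by exact_mod_cast eB.symm
  have hB' : (0 : ℝ) < B := by exact_mod_cast hB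
  have : (X : ℝ) / (B / A.gcd B : ℕ) = X * A.gcd B / B := by
    conv_rhs => rw [e]
    rw [mul_comm (X : ℝ), mul_div_mul_left _ _ hg.ne']
  push_cast
  linarith

theorem triv_count (A B a b X : ℕ) (hA : 0 < A) (hB : 0 < B) (S : Finset (ℕ × ℕ))
    (hS : ∀ x ∈ S, x.1 ≤ X ∧ A * x.1 + a = B * x.2 + b) :
    (#S : ℝ) ≤ X * A.gcd B / B + 1 := by
  rcases S.eq_empty_or_nonempty with rfl | hne
  · simp only [card_empty, Nat.cast_zero]; positivity
  obtain ⟨u, v, -, h⟩ := param A B a b X hA hB S hne hS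
  refine le_trans ?_ (cast_N A B X hA hB)
  have : S ⊆ (range (X / (B / A.gcd B) + 1)).image
      fun t => (B / A.gcd B * t + u, A / A.gcd B * t + v) := fun x hx => by
    obtain ⟨t, h1, h2⟩ := h x hx
    exact mem_image.2 ⟨t, mem_range.2 h1, h2.symm⟩
  exact_mod_cast (card_le_card this).trans (card_image_le.trans (card_range _).le)

theorem g2_pow (p k : ℕ) (hp : p.Prime) : (g1 * g1) (p ^ k) = (k + 1) / p ^ k := by
  rw [ArithmeticFunction.mul_apply, sum_congr rfl (g := fun _ => (1 / p ^ k : ℝ)) fun x hx => by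
    have : (x.1 : ℝ) * x.2 = p ^ k := by exact_mod_cast (Nat.mem_divisorsAntidiagonal.1 hx).1
    simp [g1, ← this, mul_comm]]
  rw [sum_const, ← Nat.map_div_right_divisors, card_map, Nat.divisors_prime_pow hp, card_map,
    card_range, nsmul_eq_mul]
  push_cast; ring

theorem g2_sum (p K : ℕ) (hp : p.Prime) (h : 2 < p) :
    ∑ k ∈ Ico 1 K, (g1 * g1) (p ^ k) ≤ 2 / (p - 2) := by
  have h3 : (3 : ℝ) ≤ p := by exact_mod_cast h
  have := geo (2 / p) (by positivity) (by rw [div_lt_one] <;> linarith) K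
  refine le_trans (sum_le_sum fun k _ => ?_) (this.trans (le_of_eq ?_))
  · rw [g2_pow p k hp, div_pow]
    gcongr
    exact_mod_cast Nat.lt_two_pow_self
  · have : (p : ℝ) - 2 ≠ 0 := by linarith
    field_simp

theorem g2_low (w : ℕ) : Hn w ^ 2 ≤ ∑ m ∈ Ioc 0 (w ^ 2), (g1 * g1) m := by
  rw [Hn, sq, sum_mul_sum, ← sum_product', ← sum_fiberwise_of_maps_to (g := fun x => x.1 * x.2)
    (t := Ioc 0 (w ^ 2))]
  · refine sum_le_sum fun m hm => ?_
    rw [ArithmeticFunction.mul_apply]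
    refine sum_le_sum_of_subset_of_nonneg (fun x hx => ?_) fun x _ _ => by positivity
    exact Nat.mem_divisorsAntidiagonal.2 ⟨(mem_filter.1 hx).2, (mem_Ioc.1 hm).1.ne'⟩
  · intro x hx
    simp only [mem_product, mem_Ioc] at hx ⊢
    exact ⟨Nat.mul_pos hx.1.1 hx.2.1, by rw [sq]; exact Nat.mul_le_mul hx.1.2 hx.2.2⟩

theorem two_count (A B a b X w : ℕ) (hA : 0 < A) (hB : 0 < B) (hab : a ≠ b) (hw : 1 ≤ w)
    (S : Finset (ℕ × ℕ)) (hS : ∀ x ∈ S, x.1 ≤ X ∧ A * x.1 + a = B * x.2 + b)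
    (hP : ∀ x ∈ S, x.1.Prime ∧ x.2.Prime ∧ w ^ 2 < x.1 ∧ w ^ 2 < x.2) :
    #S * Hn w ^ 2 ≤ (X * A.gcd B / B + 1 + 2 * (w ^ 2) ^ 6) *
      F (2 * A * B * ((a : ℤ) - b).natAbs) := by
  classical
  have hF := one_le_F (2 * A * B * ((a : ℤ) - b).natAbs)
  rcases S.eq_empty_or_nonempty with rfl | hne
  · simp only [card_empty, Nat.cast_zero, zero_mul]; positivity
  obtain ⟨u, v, huv, h⟩ := param A B a b X hA hB S hne hS
  have hN := cast_N A B X hA hB
  have eA := Nat.mul_div_cancel' (Nat.gcd_dvd_left A B)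
  have eB := Nat.mul_div_cancel' (Nat.gcd_dvd_right A B)
  set g := A.gcd B
  set U := B / g
  set V := A / g
  set M := 2 * A * B * ((a : ℤ) - b).natAbs with hM
  have hU : ∀ p, ¬ p ∣ M → ¬ p ∣ U := fun p h1 h2 =>
    h1 (((h2.trans ⟨g, by rw [mul_comm, eB]⟩).mul_left _).mul_right _)
  have hV : ∀ p, ¬ p ∣ M → ¬ p ∣ V := fun p h1 h2 =>
    h1 ((((h2.trans ⟨g, by rw [mul_comm, eA]⟩).mul_left _).mul_right _).mul_right _)
  set T := (range (X / U + 1)).filter fun t => (U * t + u, V * t + v) ∈ S with hT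
  have hST : #S ≤ #T := by
    have : S ⊆ T.image fun t => (U * t + u, V * t + v) := fun x hx => by
      obtain ⟨t, h1, h2⟩ := h x hx
      exact mem_image.2 ⟨t, mem_filter.2 ⟨mem_range.2 h1, h2 ▸ hx⟩, h2.symm⟩
    exact (card_le_card this).trans card_image_le
  have := sieveK (g1 * g1) (g1_mul.mul g1_mul) (fun p k hp => by rw [g2_pow p k hp]; positivity)
    2 M (w ^ 2) (X / U + 1) (by
      have : ((a : ℤ) - b).natAbs ≠ 0 := by omega
      positivity) (Nat.one_le_pow _ _ hw)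
    (fun p K hp => by
      rcases hp.two_le.eq_or_lt with rfl | h2
      · have : ∀ K : ℕ, ∑ k ∈ range K, ((k + 1) / 2 ^ k : ℝ) = 4 - (2 * K + 4) / 2 ^ K := fun K => by
          induction K with
          | zero => norm_num
          | succ K ih => rw [sum_range_succ, ih]; push_cast; field_simp; ring
        simp only [g2_pow 2 _ hp]
        refine le_trans (sum_le_sum_of_subset_of_nonneg (t := range K) (fun k hk =>
          mem_range.2 (mem_Ico.1 hk).2) fun _ _ _ => by positivity) ?_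
        push_cast
        rw [this K]
        have : (0 : ℝ) ≤ (2 * K + 4) / 2 ^ K := by positivity
        linarith
      · have h3 : (3 : ℝ) ≤ p := by exact_mod_cast h2
        refine (g2_sum p K hp h2).trans ?_
        rw [div_le_div_iff₀ (by linarith) (by linarith)]; linarith)
    (fun p K hp h2 => by simpa using g2_sum p K hp h2)
    (fun p => if h : p.Prime ∧ ¬ p ∣ M then {(root p U u h.1 (hU p h.2)).choose,
      (root p V v h.1 (hV p h.2)).choose} else ∅)
    (fun p hp hd => by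
      rw [dif_pos ⟨hp, hd⟩]
      have s1 := (root p U u hp (hU p hd)).choose_spec
      have s2 := (root p V v hp (hV p hd)).choose_spec
      refine ⟨by simpa [insert_subset_iff] using ⟨s1.1, s2.1⟩, card_pair fun e => hd ?_, ?_⟩
      · rw [← e] at s2
        refine Dvd.dvd.mul_left (Int.natCast_dvd.1 ?_) _
        have t1 := Int.natCast_dvd_natCast.2 s1.2
        have t2 := Int.natCast_dvd_natCast.2 s2.2
        have t3 : (A : ℤ) * u + a = B * v + b := by exact_mod_cast huv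
        have t4 : (g : ℤ) * V = A := by exact_mod_cast eA
        have t5 : (g : ℤ) * U = B := by exact_mod_cast eB
        generalize (root p U u hp (hU p hd)).choose = ρ at t1 t2
        have t6 := dvd_sub (t2.mul_left (B : ℤ)) (t1.mul_left (A : ℤ))
        push_cast at t6
        rwa [show (a : ℤ) - b = B * (V * ρ + v) - A * (U * ρ + u) by
          linear_combination t3 - ρ * U * t4 + ρ * V * t5]
      · refine hp.two_le.lt_of_ne fun e => hd ?_
        rw [← e, hM, mul_assoc, mul_assoc]; exact dvd_mul_right _ _)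
    T (filter_subset _ _)
    (fun t ht p hp hpz hd hm => by
      have h3 := hP _ (mem_filter.1 ht).2
      rw [dif_pos ⟨hp, hd⟩, mem_insert, mem_singleton] at hm
      rcases hm with hm | hm
      · have h1 := (root p U u hp (hU p hd)).choose_spec.2
        rw [← hm] at h1
        have := (Nat.prime_dvd_prime_iff_eq hp h3.1).1 (dvd_of_mod _ _ _ _ h1)
        have := h3.2.2.1
        simp only at *
        omega
      · have h1 := (root p V v hp (hV p hd)).choose_spec.2
        rw [← hm] at h1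
        have := (Nat.prime_dvd_prime_iff_eq hp h3.2.1).1 (dvd_of_mod _ _ _ _ h1)
        have := h3.2.2.2
        simp only at *
        omega)
  have h1 := g2_low w
  have h2 : (#S : ℝ) ≤ #T := by exact_mod_cast hST
  calc _ ≤ #T * ∑ m ∈ Ioc 0 (w ^ 2), (g1 * g1) m := by gcongr
    _ ≤ _ := this
    _ ≤ _ := by
      gcongr
      push_cast; rfl

theorem blk (i : ℕ) : i * #((Ioc (2 ^ i) (2 ^ (i + 1))).filter Nat.Prime) ≤ 2 ^ (i + 2) := by
  have h1 := primorial_le_four_pow (2 ^ (i + 1))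
  have h2 : (2 ^ i) ^ #((Ioc (2 ^ i) (2 ^ (i + 1))).filter Nat.Prime) ≤ primorial (2 ^ (i + 1)) := by
    refine (pow_card_le_prod _ (fun p => p) _ fun p hp => (mem_Ioc.1 (mem_filter.1 hp).1).1.le).trans ?_
    refine prod_le_prod_of_subset_of_one_le' (fun p hp => ?_) fun p hp _ => (mem_filter.1 hp).2.one_le
    simp only [mem_filter, mem_Ioc, mem_range] at hp ⊢
    exact ⟨by omega, hp.2⟩
  rw [← pow_mul] at h2
  rw [show 4 = 2 ^ 2 by norm_num, ← pow_mul] at h1
  have := (Nat.pow_le_pow_iff_right (by norm_num)).1 (h2.trans h1)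
  rw [pow_succ 2 (i + 1)]; omega

theorem Pi_le (c : ℝ) (hc : 0 ≤ c) : ∃ C : ℝ, 0 ≤ C ∧ ∀ t : ℕ, 1 ≤ t →
    ∏ p ∈ (Ioc 0 t).filter Nat.Prime, (1 + c / p) ≤ C * √t := by
  set f : ℕ → ℝ := fun t => ∏ p ∈ (Ioc 0 t).filter Nat.Prime, (1 + c / p) with hf
  have f1 : ∀ t, 1 ≤ f t := fun t => one_le_prod fun p _ => le_add_of_nonneg_right (by positivity)
  have fm : Monotone f := fun a b h => prod_le_prod_of_subset_of_one_le
    (filter_subset_filter _ (Ioc_subset_Ioc_right h)) (fun _ _ => by positivity)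
    fun p _ _ => le_add_of_nonneg_right (by positivity)
  obtain ⟨k, hk⟩ := exists_nat_gt (16 * c)
  have key : ∀ i, f (2 ^ (k + i)) ^ 2 ≤ f (2 ^ k) ^ 2 * 2 ^ i := fun i => by
    induction i with
    | zero => simp
    | succ i ih =>
      set n := k + i with hn
      have n0 : 16 * c < n := by rw [hn]; push_cast; have : (0 : ℝ) ≤ i := Nat.cast_nonneg i; linarith
      have e : f (2 ^ (n + 1)) = f (2 ^ n) *
          ∏ p ∈ (Ioc (2 ^ n) (2 ^ (n + 1))).filter Nat.Prime, (1 + c / p) := by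
        simp only [hf]
        rw [← prod_union (disjoint_filter_filter (by simp [disjoint_left]; omega)), ← filter_union,
          Ioc_union_Ioc_eq_Ioc (by positivity) (Nat.pow_le_pow_right (by norm_num) (by omega))]
      have b : ∏ p ∈ (Ioc (2 ^ n) (2 ^ (n + 1))).filter Nat.Prime, (1 + c / p) ≤ Real.exp (1 / 4) := by
        refine (prod_le_prod (g := fun _ => Real.exp (c / 2 ^ n)) (fun _ _ => by positivity)
          fun p hp => ?_).trans ?_
        · have : (2 : ℝ) ^ n ≤ p := by exact_mod_cast (mem_Ioc.1 (mem_filter.1 hp).1).1.le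
          have : c / p ≤ c / 2 ^ n := by gcongr
          linarith [Real.add_one_le_exp (c / 2 ^ n)]
        · rw [prod_const, ← Real.exp_nat_mul, Real.exp_le_exp]
          have h1 : (n : ℝ) * #((Ioc (2 ^ n) (2 ^ (n + 1))).filter Nat.Prime) ≤ 2 ^ (n + 2) := by
            exact_mod_cast blk n
          rw [mul_div_assoc', div_le_iff₀ (by positivity)]
          rw [pow_add (2 : ℝ) n 2] at h1
          have : (0 : ℝ) ≤ #((Ioc (2 ^ n) (2 ^ (n + 1))).filter Nat.Prime) := Nat.cast_nonneg _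
          nlinarith
      have b2 : Real.exp (1 / 4) ^ 2 ≤ 2 := by
        rw [← Real.exp_nat_mul, ← Real.le_log_iff_exp_le (by norm_num)]
        have := Real.log_two_gt_d9; push_cast; linarith
      rw [← add_assoc, e, mul_pow, pow_succ (2 : ℝ) i, ← mul_assoc]
      refine mul_le_mul ih (le_trans ?_ b2) (by positivity) (by positivity)
      gcongr
  refine ⟨2 * f (2 ^ k), by linarith [f1 (2 ^ k)], fun t ht => ?_⟩
  have h1 := Nat.lt_pow_succ_log_self (b := 2) (by norm_num) t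
  have h2 : ((2 : ℝ)) ^ Nat.log 2 t ≤ t := by exact_mod_cast Nat.pow_log_le_self 2 (x := t) (by omega)
  have h3 := fm (h1.le.trans (Nat.pow_le_pow_right (by norm_num) (Nat.le_add_left _ k)))
  have h4 := key (Nat.log 2 t).succ
  refine le_trans h3 (abs_le_of_sq_le_sq' (h4.trans ?_) (by have := f1 (2 ^ k); positivity)).2
  rw [mul_pow, Real.sq_sqrt (by positivity), Nat.succ_eq_add_one, pow_succ (2 : ℝ)]
  have : 0 ≤ f (2 ^ k) ^ 2 := by positivity
  nlinarith

theorem fH (c : ℝ) (hc : 0 ≤ c) : ∃ C : ℝ, 1 ≤ C ∧ ∀ P : Finset ℕ, (∀ p ∈ P, p.Prime) →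
    ∏ p ∈ P, (1 + c / p) ≤ 1 + C * ∑ p ∈ P, 1 / √p := by
  obtain ⟨C, C0, hC⟩ := Pi_le c hc
  refine ⟨c * C + 1, by nlinarith, fun P => ?_⟩
  induction P using Finset.induction_on_max with
  | empty => simp
  | insert l P hl ih =>
    intro hP
    have hn : l ∉ P := fun h => lt_irrefl _ (hl l h)
    have l0 := (hP l (mem_insert_self _ _)).pos
    have l1 : (0 : ℝ) < l := by exact_mod_cast l0
    rw [prod_insert hn, sum_insert hn]
    have h1 := ih fun p hp => hP p (mem_insert_of_mem hp)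
    have h2 : ∏ p ∈ P, (1 + c / p) ≤ C * √l := le_trans (prod_le_prod_of_subset_of_one_le
      (fun p hp => mem_filter.2 ⟨mem_Ioc.2 ⟨(hP p (mem_insert_of_mem hp)).pos, (hl p hp).le⟩,
        hP p (mem_insert_of_mem hp)⟩) (fun _ _ => by positivity)
      fun p _ _ => le_add_of_nonneg_right (by positivity)) (hC l l0)
    have h3 : c / l * (C * √l) = c * C * (1 / √l) := by
      have : (l : ℝ) = √l * √l := (Real.mul_self_sqrt l1.le).symm
      have h : (0 : ℝ) < √l := Real.sqrt_pos.2 l1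
      rw [div_mul_eq_mul_div, div_eq_iff l1.ne']
      conv_rhs => rw [this]
      rw [Real.sqrt_mul_self h.le]
      field_simp
    have h4 : c / l * ∏ p ∈ P, (1 + c / p) ≤ c / l * (C * √l) := by gcongr
    have h5 : (0 : ℝ) ≤ 1 / √l := by positivity
    nlinarith

end Pool.Agent.H24.Rom
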