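import Pool.Agent.H24.Rom2

open Finset

namespace Pool.Agent.H24.Rom

/-- sum of inverse square roots of the prime factors -/
noncomputable def Hs (M : ℕ) : ℝ := ∑ p ∈ M.primeFactors, 1 / √p

/-- primes in a long range -/
def PR (a : ℕ) : Finset ℕ := (Ioc (2 ^ a) (2 ^ (2 * a))).filter Nat.Prime

/-- small primes -/
def La (j : ℕ) : Finset ℕ := (Ioc 0 (4 ^ j)).filter Nat.Prime

theorem Hs_nonneg (M : ℕ) : 0 ≤ Hs M := sum_nonneg fun _ _ => by positivity

theorem tau_bound (k : ℕ) : ∃ C : ℕ, ∀ n : ℕ, n ≠ 0 → #n.divisors ^ k ≤ C * n := by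
  obtain ⟨C, hC⟩ : ∃ C : ℕ, ∀ e : ℕ, (e + 1) ^ k ≤ C * 2 ^ e := by
    obtain ⟨B, hB⟩ := (tendsto_pow_const_div_const_pow_of_one_lt k (r := 2) (by norm_num)).bddAbove_range
    obtain ⟨C, hC⟩ := exists_nat_ge (2 * B)
    refine ⟨C, fun e => ?_⟩
    have := hB ⟨e + 1, rfl⟩
    simp only at this
    rw [div_le_iff₀ (by positivity), pow_succ (2 : ℝ)] at this
    have h : (((e + 1 : ℕ) : ℝ)) ^ k ≤ C * 2 ^ e := by
      have : (0 : ℝ) < 2 ^ e := by positivity
      nlinarith
    exact_mod_cast h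
  refine ⟨(C + 1) ^ 2 ^ k, fun n hn => ?_⟩
  rw [Nat.card_divisors hn, ← prod_pow]
  have h1 : ∏ p ∈ n.primeFactors, (n.factorization p + 1) ^ k ≤
      ∏ p ∈ n.primeFactors, ((if p < 2 ^ k then C + 1 else 1) * p ^ n.factorization p) :=
    prod_le_prod' fun p hp => by
      have h2 := (Nat.prime_of_mem_primeFactors hp).two_le
      split_ifs with h
      · exact (hC _).trans (Nat.mul_le_mul (by omega) (Nat.pow_le_pow_left h2 _))
      · calc _ ≤ (2 ^ n.factorization p) ^ k := Nat.pow_le_pow_left Nat.lt_two_pow_self _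
          _ = (2 ^ k) ^ n.factorization p := by rw [← pow_mul, ← pow_mul, mul_comm]
          _ ≤ _ := by rw [one_mul]; exact Nat.pow_le_pow_left (by omega) _
  refine h1.trans ?_
  rw [prod_mul_distrib, prod_ite, prod_const_one, mul_one, prod_const]
  refine Nat.mul_le_mul (Nat.pow_le_pow_right (by omega) ?_) (le_of_eq ?_)
  · exact (card_le_card (t := range (2 ^ k)) fun p hp => mem_range.2 (mem_filter.1 hp).2).trans
      (card_range _).le
  · conv_rhs => rw [← Nat.prod_factorization_pow_eq_self hn]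
    rfl

theorem gcd_sum (N X : ℕ) (hN : N ≠ 0) :
    ∑ h ∈ Ioc 0 X, ((N.gcd h : ℝ) / h) ≤ #N.divisors * Hn X := by
  rw [← sum_fiberwise_of_maps_to (g := fun h => N.gcd h) (t := N.divisors) fun h _ =>
    Nat.mem_divisors.2 ⟨Nat.gcd_dvd_left _ _, hN⟩, ← nsmul_eq_mul]
  refine sum_le_card_nsmul _ _ _ fun d hd => ?_
  have d0 := Nat.pos_of_mem_divisors hd
  have hi : Set.InjOn (fun h => h / d) ((Ioc 0 X).filter fun h => N.gcd h = d) := fun a ha b hb e => by
    simp only [coe_filter, Set.mem_ofPred_eq] at ha hb e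
    rw [← Nat.mul_div_cancel' (ha.2 ▸ Nat.gcd_dvd_right N a : d ∣ a),
      ← Nat.mul_div_cancel' (hb.2 ▸ Nat.gcd_dvd_right N b : d ∣ b), e]
  refine le_trans (le_of_eq ?_) (sum_le_sum_of_subset_of_nonneg (s := image (fun h => h / d)
    ((Ioc 0 X).filter fun h => N.gcd h = d)) ?_ fun _ _ _ => by positivity)
  · rw [sum_image hi]
    refine sum_congr rfl fun h hh => ?_
    rw [mem_filter] at hh
    obtain ⟨e, rfl⟩ : d ∣ h := hh.2 ▸ Nat.gcd_dvd_right N h
    rw [hh.2, Nat.mul_div_cancel_left _ d0]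
    have : (d : ℝ) ≠ 0 := by exact_mod_cast d0.ne'
    push_cast
    rw [← div_div, div_self this]
  · intro x hx
    obtain ⟨h, hh, rfl⟩ := mem_image.1 hx
    simp only [mem_filter, mem_Ioc] at hh ⊢
    exact ⟨Nat.div_pos (Nat.le_of_dvd hh.1.1 (hh.2 ▸ Nat.gcd_dvd_right N h)) d0,
      (Nat.div_le_self _ _).trans hh.1.2⟩

theorem dsum (P D : Finset ℕ) (hD : ∀ d ∈ D, d ≠ 0 ∧ d.primeFactors ⊆ P) :
    ∑ d ∈ D, F d ^ 2 * (1 + Hs d) ^ 2 / d ≤ ∏ p ∈ P, (1 + 200 / (p : ℝ)) := by
  classical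
  set g : ArithmeticFunction ℝ := ⟨fun d => (∏ p ∈ d.primeFactors, if p ∈ P then (100 : ℝ) else 0) / d,
    by simp⟩ with hg
  have g0 : ∀ d, 0 ≤ g d := fun d =>
    div_nonneg (prod_nonneg fun p _ => by split_ifs <;> norm_num) (Nat.cast_nonneg _)
  have gm : g.IsMultiplicative := ⟨by simp [hg], fun {a b} h => by
    simp only [hg, ArithmeticFunction.coe_mk]
    rw [h.primeFactors_mul, prod_union h.disjoint_primeFactors]
    push_cast; ring⟩
  have a := Sieve.mult_le g gm (fun p => if p ∈ P then 200 / p else 0) (fun _ _ _ => g0 _)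
    (fun p K hp => by
      have h2 : (2 : ℝ) ≤ p := by exact_mod_cast hp.two_le
      have e : ∀ k ∈ Ico 1 K, g (p ^ k) = (if p ∈ P then (100 : ℝ) else 0) * (1 / p) ^ k := fun k hk => by
        simp only [hg, ArithmeticFunction.coe_mk]
        rw [Nat.primeFactors_prime_pow (by have := (mem_Ico.1 hk).1; omega) hp, prod_singleton]
        push_cast; rw [one_div, inv_pow, div_eq_mul_inv]
      rw [sum_congr rfl e, ← mul_sum]
      have := geo (1 / p) (by positivity) (by rw [div_lt_one] <;> linarith) K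
      split_ifs
      · have h3 : (1 / p : ℝ) / (1 - 1 / p) ≤ 2 / p := by
          have : (1 / p : ℝ) ≤ 1 / 2 := by gcongr
          rw [div_le_iff₀ (by linarith)]
          have : (0 : ℝ) ≤ 1 / p := by positivity
          rw [show (2 / p : ℝ) = 2 * (1 / p) by ring]; nlinarith
        rw [show (200 / p : ℝ) = 100 * (2 / p) by ring]; linarith
      · simp) (D.sup id)
  calc _ ≤ ∑ d ∈ D, g d := sum_le_sum fun d hd => by
        simp only [hg, ArithmeticFunction.coe_mk]
        refine div_le_div_of_nonneg_right ?_ (Nat.cast_nonneg _)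
        rw [prod_congr rfl fun p hp => if_pos ((hD d hd).2 hp), prod_const]
        have h1 : F d ≤ 5 ^ #d.primeFactors := by
          rw [← prod_const]
          refine prod_le_prod (fun _ _ => by positivity) fun p hp => ?_
          have h2 : (2 : ℝ) ≤ p := by exact_mod_cast (Nat.prime_of_mem_primeFactors hp).two_le
          have : (8 / p : ℝ) ≤ 8 / 2 := by gcongr
          linarith
        have h2 : Hs d ≤ #d.primeFactors • (1 : ℝ) := sum_le_card_nsmul _ _ _ fun p hp => by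
          have h2 : (1 : ℝ) ≤ p := by exact_mod_cast (Nat.prime_of_mem_primeFactors hp).one_le
          rw [div_le_one (by positivity)]; exact Real.one_le_sqrt.2 h2
        have h3 : (#d.primeFactors + 1 : ℝ) ≤ 2 ^ #d.primeFactors := by
          exact_mod_cast Nat.lt_two_pow_self
        have := one_le_F d
        have := Hs_nonneg d
        rw [nsmul_eq_mul, mul_one] at h2
        calc _ ≤ (5 ^ #d.primeFactors) ^ 2 * (2 ^ #d.primeFactors : ℝ) ^ 2 := by gcongr; linarith
          _ = _ := by rw [← mul_pow, ← mul_pow, ← pow_mul, mul_comm #_, pow_mul]; norm_num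
    _ ≤ ∑ d ∈ Ioc 0 (D.sup id), g d := sum_le_sum_of_subset_of_nonneg (fun d hd =>
        mem_Ioc.2 ⟨Nat.pos_of_ne_zero (hD d hd).1, le_sup (f := id) hd⟩) fun _ _ _ => g0 _
    _ ≤ _ := a
    _ ≤ ∑ D ∈ ((range (D.sup id + 1)).filter Nat.Prime).powerset,
        ∏ p ∈ D, if p ∈ P then (200 / p : ℝ) else 0 := sum_le_sum_of_subset_of_nonneg
        (filter_subset _ _) fun _ _ _ => prod_nonneg fun p _ => by split_ifs <;> positivity
    _ = ∏ p ∈ ((range (D.sup id + 1)).filter Nat.Prime).filter (· ∈ P), (1 + 200 / p : ℝ) := by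
        rw [← prod_one_add, prod_filter (p := (· ∈ P))]
        exact prod_congr rfl fun p _ => by split_ifs <;> simp
    _ ≤ _ := prod_le_prod_of_subset_of_one_le (fun p hp => (mem_filter.1 hp).2)
        (fun _ _ => by positivity) fun p _ _ => le_add_of_nonneg_right (by positivity)

theorem s32 : ∃ C : ℝ, 0 ≤ C ∧ ∀ P : Finset ℕ, ∑ l ∈ P, 1 / √l * (1 / l : ℝ) ≤ C := by
  have h : Summable fun n : ℕ => 1 / √n * (1 / n : ℝ) := by
    refine (Real.summable_one_div_nat_rpow.2 (by norm_num : (1 : ℝ) < 1 / 2 + 1)).congr fun n => ?_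
    rw [Real.rpow_add' (Nat.cast_nonneg n) (by norm_num), Real.rpow_one, Real.sqrt_eq_rpow]
    rw [one_div_mul_one_div]
  exact ⟨_, tsum_nonneg fun _ => by positivity, fun P => h.sum_le_tsum P fun _ _ => by positivity⟩

theorem tail (j e M : ℕ) (P : Finset ℕ) (hP : P ⊆ M.primeFactors) (hM : M ≤ 2 ^ (e * j)) :
    ∑ p ∈ P, 1 / √p ≤ e + ∑ p ∈ (La j).filter (· ∈ P), 1 / √p := by
  rcases Nat.eq_zero_or_pos M with rfl | M0
  · rw [Nat.primeFactors_zero, subset_empty] at hP
    subst hP; simp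
  have h1 : #M.primeFactors ≤ e * j := (Nat.pow_le_pow_iff_right (by norm_num : 1 < 2)).1
    ((pow_card_le_prod _ (fun p => p) _ fun p hp => (Nat.prime_of_mem_primeFactors hp).two_le).trans
      ((Nat.le_of_dvd M0 (Nat.prod_primeFactors_dvd M)).trans hM))
  rw [← sum_filter_add_sum_filter_not P (4 ^ j < ·)]
  refine add_le_add ?_ (sum_le_sum_of_subset_of_nonneg (fun p hp => ?_) fun _ _ _ => by positivity)
  · refine (sum_le_card_nsmul _ _ (1 / 2 ^ j : ℝ) fun p hp => ?_).trans ?_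
    · have : ((2 : ℝ) ^ j) ^ 2 ≤ p := by
        rw [← pow_mul, mul_comm, pow_mul]; norm_num; exact_mod_cast (mem_filter.1 hp).2.le
      have := Real.le_sqrt_of_sq_le this
      gcongr
    · have h2 : (#(P.filter (4 ^ j < ·)) : ℝ) ≤ e * j := by
        exact_mod_cast (card_le_card ((filter_subset _ _).trans hP)).trans h1
      have h3 : (j : ℝ) ≤ 2 ^ j := by exact_mod_cast Nat.lt_two_pow_self.le
      rw [nsmul_eq_mul, mul_one_div, div_le_iff₀ (by positivity)]
      exact h2.trans (by gcongr)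
  · have := Nat.prime_of_mem_primeFactors (hP (mem_filter.1 hp).1)
    simp only [La, mem_filter, mem_Ioc] at hp ⊢
    exact ⟨⟨⟨this.pos, by omega⟩, this⟩, hp.1⟩

theorem bt (j a Q : ℕ) (hj : 1 ≤ j) (ha : a ≤ 152 * j) (hQ : 0 < Q) (h : Q * (4 ^ j) ^ 6 ≤ 2 ^ a)
    (S : Finset ℕ) (hS : S ⊆ PR a) (hc : ∀ r ∈ S, ∀ r' ∈ S, r ≡ r' [MOD Q]) :
    ∑ r ∈ S, (1 / r : ℝ) ≤ 608 * (F Q / Q) := by
  have h1 := bt_sum a Q (4 ^ j) hQ (Nat.one_le_pow _ _ (by norm_num)) h S (fun r hr => by
    have := hS hr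
    simp only [PR, mem_filter, mem_Ioc] at this
    exact ⟨this.2, this.1⟩) hc
  have h2 := le_Hn_pow (2 * j)
  rw [pow_mul] at h2
  norm_num at h2
  have j0 : (0 : ℝ) < j := by exact_mod_cast hj
  have h3 : (a : ℝ) ≤ 152 * j := by exact_mod_cast ha
  have h4 : 0 ≤ F Q / Q := by have := one_le_F Q; positivity
  have h5 : 0 ≤ ∑ r ∈ S, (1 / r : ℝ) := sum_nonneg fun _ _ => by positivity
  rw [mul_div_assoc] at h1
  refine le_of_mul_le_mul_right ?_ j0
  nlinarith

theorem F_mul (d l : ℕ) (hd : d ≠ 0) (hl : l.Prime) : F (d * l) ≤ 5 * F d := by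
  rw [F, Nat.primeFactors_mul hd hl.ne_zero, hl.primeFactors, union_comm, ← insert_eq]
  have := one_le_F d
  by_cases h : l ∈ d.primeFactors
  · rw [insert_eq_of_mem h, ← F]; linarith
  · rw [prod_insert h, ← F]
    have h2 : (2 : ℝ) ≤ l := by exact_mod_cast hl.two_le
    have : (8 / l : ℝ) ≤ 8 / 2 := by gcongr
    gcongr; linarith

theorem pi_low (n : ℕ) : n ≤ 2 * (Nat.log 2 n + 1) * (Nat.primeCounting n + 1) := by
  rcases Nat.eq_zero_or_pos n with rfl | h
  · simp
  have h1 := Transl.piNat (Nat.log 2 n)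
  have h2 := Nat.lt_pow_succ_log_self (b := 2) (by norm_num) n
  have h3 := Nat.monotone_primeCounting (Nat.pow_log_le_self 2 h.ne')
  rw [Nat.succ_eq_add_one, pow_succ] at h2
  nlinarith

theorem card_pr (A n : ℕ) : Nat.primeCounting n ≤ #((Ioc A n).filter Nat.Prime) + A := by
  rw [← Nat.primesLE_card_eq_primeCounting]
  refine le_trans (card_le_card (t := (Ioc A n).filter Nat.Prime ∪ Ioc 0 A) fun p hp => ?_)
    ((card_union_le _ _).trans (by simp))
  have := Nat.mem_primesLE.1 hp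
  have := this.2.pos
  simp only [mem_union, mem_filter, mem_Ioc]
  by_cases h : A < p
  · tauto
  · right; omega

theorem PR_low (a : ℕ) (ha : 7 ≤ a) : 1 / 20 ≤ ∑ r ∈ PR (2 * a), (1 / r : ℝ) := by
  set N : ℕ → ℕ := fun i => #((Ioc (2 ^ (2 * a)) (2 ^ (2 * a + i))).filter Nat.Prime) with hN
  have key : ∀ b, ∑ i ∈ range b, (N i / 2 ^ (2 * a + i + 1) : ℝ) + N b / 2 ^ (2 * a + b) ≤
      ∑ r ∈ (Ioc (2 ^ (2 * a)) (2 ^ (2 * a + b))).filter Nat.Prime, (1 / r : ℝ) := fun b => by
    induction b with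
    | zero => simp [hN]
    | succ b ih =>
      have l1 : 2 ^ (2 * a) ≤ 2 ^ (2 * a + b) := Nat.pow_le_pow_right (by norm_num) (by omega)
      have l2 : 2 ^ (2 * a + b) ≤ 2 ^ (2 * a + (b + 1)) := Nat.pow_le_pow_right (by norm_num) (by omega)
      have dj : Disjoint ((Ioc (2 ^ (2 * a)) (2 ^ (2 * a + b))).filter Nat.Prime)
          ((Ioc (2 ^ (2 * a + b)) (2 ^ (2 * a + (b + 1)))).filter Nat.Prime) :=
        disjoint_filter_filter (by simp [disjoint_left]; omega)
      simp only [hN] at ih ⊢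
      rw [sum_range_succ, ← Ioc_union_Ioc_eq_Ioc l1 l2, filter_union, sum_union dj,
        card_union_of_disjoint dj]
      have := card_nsmul_le_sum ((Ioc (2 ^ (2 * a + b)) (2 ^ (2 * a + (b + 1)))).filter Nat.Prime)
        (fun r => (1 / r : ℝ)) (1 / 2 ^ (2 * a + (b + 1))) fun r hr => by
          simp only [mem_filter, mem_Ioc] at hr
          have : (0 : ℝ) < r := by exact_mod_cast hr.2.pos
          have : (r : ℝ) ≤ 2 ^ (2 * a + (b + 1)) := by exact_mod_cast hr.1.2
          gcongr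
      rw [nsmul_eq_mul, ← add_assoc, pow_succ (2 : ℝ)] at this
      rw [← add_assoc, pow_succ (2 : ℝ)]
      push_cast
      have e : ∀ x y z : ℝ, x / (z * 2) + (x + y) / (z * 2) = x / z + y * (1 / (z * 2)) :=
        fun x y z => by ring
      linarith [e (#((Ioc (2 ^ (2 * a)) (2 ^ (2 * a + b))).filter Nat.Prime))
        (#((Ioc (2 ^ (2 * a + b)) (2 ^ (2 * a + b + 1))).filter Nat.Prime)) (2 ^ (2 * a + b))]
  have h1 := key (2 * a)
  rw [← two_mul] at h1
  refine le_trans ?_ (le_trans (le_add_of_nonneg_right (by positivity)) h1)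
  refine le_trans ?_ (sum_le_sum_of_subset_of_nonneg (s := Ico a (2 * a)) (fun i hi =>
    mem_range.2 (mem_Ico.1 hi).2) fun _ _ _ => by positivity)
  refine le_trans ?_ (card_nsmul_le_sum _ _ (1 / (20 * a) : ℝ) fun i hi => ?_)
  · have : (a : ℝ) ≠ 0 := by have : a ≠ 0 := by omega
                             exact_mod_cast this
    rw [Nat.card_Ico, show 2 * a - a = a by omega, nsmul_eq_mul]
    field_simp; rfl
  · rw [mem_Ico] at hi
    have h2 := Transl.piNat (2 * a + i)
    have h3 : Nat.primeCounting (2 ^ (2 * a + i)) ≤ N i + 2 ^ (2 * a) := card_pr _ _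
    have h4 : 16 * a + 4 ≤ 2 ^ a := by
      obtain ⟨c, rfl⟩ := Nat.exists_eq_add_of_le ha
      have := @Nat.lt_two_pow_self c
      rw [pow_add]; omega
    have h5 : 2 ^ a ≤ 2 ^ i := Nat.pow_le_pow_right (by norm_num) hi.1
    have h6 : 0 < 2 ^ (2 * a) := by positivity
    have h7 : 2 ^ (2 * a + i + 1) ≤ N i * (20 * a) := by
      rw [pow_succ]
      rw [pow_add] at h2 h3 ⊢
      have h8 : 2 ^ (2 * a) * 2 ^ i ≤ 4 * a * (N i + 2 ^ (2 * a) + 1) :=
        h2.trans (Nat.mul_le_mul (by omega) (by omega))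
      have h9 : 2 ^ (2 * a) * (16 * a) ≤ 2 ^ (2 * a) * 2 ^ i := Nat.mul_le_mul_left _ (by omega)
      nlinarith
    rw [div_le_div_iff₀ (by have : (7 : ℝ) ≤ a := by exact_mod_cast ha
                            linarith) (by positivity), one_mul]
    exact_mod_cast h7

end Pool.Agent.H24.Rom
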