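import Pool.Agent.H24.Rom3

open Finset

namespace Pool.Agent.H24.Rom

theorem su {f : ℕ → ℝ} (hf : ∀ i, 0 ≤ f i) (s t : Finset ℕ) :
    ∑ i ∈ s ∪ t, f i ≤ ∑ i ∈ s, f i + ∑ i ∈ t, f i := by
  rw [← sum_union_inter]; exact le_add_of_nonneg_right (sum_nonneg fun i _ => hf i)

theorem cong {w m d r r' : ℕ} (hc : w.Coprime m) (h : d ∣ w * r + m) (h' : d ∣ w * r' + m) :
    r ≡ r' [MOD d] := by
  have h1 : d.gcd w = 1 := Nat.eq_one_of_dvd_coprimes hc (Nat.gcd_dvd_right _ _)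
    ((Nat.dvd_add_right ((Nat.gcd_dvd_right d w).mul_right r)).1 ((Nat.gcd_dvd_left _ _).trans h))
  exact Nat.ModEq.cancel_left_of_coprime h1 (Nat.ModEq.add_right_cancel' m
    (((Nat.modEq_zero_iff_dvd).2 h).trans ((Nat.modEq_zero_iff_dvd).2 h').symm))

theorem La_mem {j l : ℕ} (h : l ∈ La j) : l.Prime ∧ l ≤ 4 ^ j := by
  simp only [La, mem_filter, mem_Ioc] at h; exact ⟨h.2, h.1.2⟩

theorem swap (j : ℕ) (S : Finset ℕ) (q : ℕ → ℕ → Prop) [∀ l r, Decidable (q l r)] :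
    ∑ r ∈ S, (1 + ∑ l ∈ (La j).filter (q · r), 1 / √l) / r =
      ∑ r ∈ S, (1 / r : ℝ) + ∑ l ∈ La j, 1 / √l * ∑ r ∈ S.filter (q l), (1 / r : ℝ) := by
  simp only [add_div, sum_add_distrib, sum_filter, mul_sum, sum_div]
  rw [sum_comm]
  congr 1
  refine sum_congr rfl fun l _ => sum_congr rfl fun r _ => ?_
  split_ifs <;> ring

theorem Hs_le (j d : ℕ) (hd : d ≠ 0) : ∑ l ∈ La j, 1 / √l * (if l ∣ d then 1 else 0) ≤ Hs d := by
  simp only [mul_ite, mul_one, mul_zero, ← sum_filter]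
  refine sum_le_sum_of_subset_of_nonneg (fun l hl => ?_) fun _ _ _ => by positivity
  rw [mem_filter] at hl
  exact Nat.mem_primeFactors.2 ⟨(La_mem hl.1).1, hl.2, hd⟩

/-- weight of small primes dividing one of two linear forms -/
noncomputable def Yf (j w m : ℕ) (c : ℤ) (r : ℕ) : ℝ :=
  ∑ l ∈ (La j).filter (fun l => l ∣ w * r + m ∨ (l : ℤ) ∣ c - m * r), 1 / √l

theorem Yf_nonneg (j w m : ℕ) (c : ℤ) (r : ℕ) : 0 ≤ Yf j w m c r :=
  sum_nonneg fun _ _ => by positivity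

theorem lemG : ∃ C : ℝ, 0 ≤ C ∧ ∀ (j m w d : ℕ) (c : ℤ), 1 ≤ j → m ≠ 0 → w.Coprime m → 0 < d →
    d ≤ (4 ^ j) ^ 68 → ∑ r ∈ (PR (152 * j)).filter (fun r => d ∣ w * r + m), (1 + Yf j w m c r) / r ≤
      C * (F d / d) * ((1 + Hs d) * (1 + Hs m)) := by
  obtain ⟨C, C0, hC⟩ := s32
  refine ⟨608 * (1 + 10 * C), by positivity, fun j m w d c hj hm hc hd hdy => ?_⟩
  set S := (PR (152 * j)).filter (fun r => d ∣ w * r + m) with hS
  have y1 : 1 ≤ 4 ^ j := Nat.one_le_pow _ _ (by norm_num)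
  have e : 2 ^ (152 * j) = (4 ^ j) ^ 76 := by
    rw [show 4 = 2 ^ 2 by norm_num, ← pow_mul, ← pow_mul]; congr 1; ring
  have B : ∀ l ≤ 4 ^ j, 0 < l → ∀ T ⊆ S, (∀ r ∈ T, ∀ r' ∈ T, r ≡ r' [MOD d * l]) →
      ∑ r ∈ T, (1 / r : ℝ) ≤ 608 * (F (d * l) / (d * l : ℕ)) := fun l hl l0 T hT h =>
    bt j _ _ hj le_rfl (by positivity) (by
      rw [e]
      calc _ ≤ (4 ^ j) ^ 68 * (4 ^ j) ^ 1 * (4 ^ j) ^ 6 := by gcongr; simpa using hl
        _ = (4 ^ j) ^ 75 := by ring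
        _ ≤ _ := Nat.pow_le_pow_right y1 (by norm_num)) T (hT.trans (filter_subset _ _)) h
  have cd : ∀ r ∈ S, ∀ r' ∈ S, r ≡ r' [MOD d] := fun r hr r' hr' =>
    cong hc (mem_filter.1 hr).2 (mem_filter.1 hr').2
  have B1 := B 1 y1 one_pos S Subset.rfl (by simpa using cd)
  rw [mul_one] at B1
  set β := F d / d with hβ
  have β0 : 0 ≤ β := by have := one_le_F d; positivity
  have B2 : ∀ l ∈ La j, ∑ r ∈ S.filter (fun r => l ∣ w * r + m ∨ (l : ℤ) ∣ c - m * r), (1 / r : ℝ) ≤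
      608 * β * ((if l ∣ d then 1 else 0) + (if l ∣ m then 1 else 0) + 10 * (1 / l)) := fun l hl => by
    obtain ⟨lp, ly⟩ := La_mem hl
    have l0 : (0 : ℝ) ≤ 1 / l := by positivity
    have t := (sum_le_sum_of_subset_of_nonneg (filter_subset
      (fun r => l ∣ w * r + m ∨ (l : ℤ) ∣ c - m * r) S) fun _ _ _ => by positivity).trans B1
    split_ifs with h1 h2 h2
    · nlinarith
    · nlinarith
    · nlinarith
    have cp : d.Coprime l := ((Nat.Prime.coprime_iff_not_dvd lp).2 h1).symm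
    have t1 := B l ly lp.pos (S.filter fun r => l ∣ w * r + m) (filter_subset _ _)
      fun r hr r' hr' => by
        rw [mem_filter] at hr hr'
        exact (Nat.modEq_and_modEq_iff_modEq_mul cp).1 ⟨cd r hr.1 r' hr'.1, cong hc hr.2 hr'.2⟩
    have t2 := B l ly lp.pos (S.filter fun r => (l : ℤ) ∣ c - m * r) (filter_subset _ _)
      fun r hr r' hr' => by
        rw [mem_filter] at hr hr'
        refine (Nat.modEq_and_modEq_iff_modEq_mul cp).1 ⟨cd r hr.1 r' hr'.1, ?_⟩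
        refine Nat.ModEq.cancel_left_of_coprime ((Nat.Prime.coprime_iff_not_dvd lp).2 h2)
          (Nat.modEq_iff_dvd.2 ?_)
        have := dvd_sub hr.2 hr'.2
        push_cast
        rwa [sub_sub_sub_cancel_left] at this
    have t3 : F (d * l) / (d * l : ℕ) ≤ 5 * β * (1 / l) := by
      have := F_mul d l hd.ne' lp
      calc _ ≤ 5 * F d / (d * l : ℕ) := by gcongr
        _ = _ := by rw [hβ]; push_cast; ring
    rw [filter_or]
    refine (su (fun _ => by positivity) _ _).trans ?_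
    linarith
  simp only [Yf]
  rw [swap j S fun l r => l ∣ w * r + m ∨ (l : ℤ) ∣ c - m * r]
  have B3 : ∑ l ∈ La j, 1 / √l * ∑ r ∈ S.filter (fun r => l ∣ w * r + m ∨ (l : ℤ) ∣ c - m * r),
      (1 / r : ℝ) ≤ 608 * β * (Hs d + Hs m + 10 * C) := by
    refine (sum_le_sum fun l hl => mul_le_mul_of_nonneg_left (B2 l hl) (by positivity)).trans ?_
    simp only [mul_left_comm _ (608 * β), ← mul_sum]
    gcongr
    simp only [mul_add, sum_add_distrib, mul_left_comm _ (10 : ℝ), ← mul_sum]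
    linarith [Hs_le j d hd.ne', Hs_le j m hm, hC (La j)]
  have h1 := Hs_nonneg d
  have h2 := Hs_nonneg m
  have : 1 + (Hs d + Hs m + 10 * C) ≤ (1 + 10 * C) * ((1 + Hs d) * (1 + Hs m)) := by
    have := mul_nonneg h1 h2
    nlinarith [mul_nonneg C0 h1, mul_nonneg C0 h2, mul_nonneg C0 this]
  nlinarith

theorem lemZ : ∃ C : ℝ, 0 ≤ C ∧ ∀ (j : ℕ) (m k : ℕ) (α β : ℤ), 1 ≤ j →
    ∑ s ∈ PR (16 * j), (1 + ∑ l ∈ (La j).filter (fun l => ¬ l ∣ m ∧ ¬ l ∣ k * s ∧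
      (l : ℤ) ∣ α * s ^ 2 - (β * s + k) * m ^ 2), 1 / √l) / s ≤ C := by
  classical
  obtain ⟨C, C0, hC⟩ := s32
  refine ⟨608 * (1 + 10 * C), by positivity, fun j m k α β hj => ?_⟩
  have y1 : 1 ≤ 4 ^ j := Nat.one_le_pow _ _ (by norm_num)
  have e : 2 ^ (16 * j) = (4 ^ j) ^ 8 := by
    rw [show 4 = 2 ^ 2 by norm_num, ← pow_mul, ← pow_mul]; congr 1; ring
  have B : ∀ l ≤ 4 ^ j, 0 < l → ∀ T ⊆ PR (16 * j), (∀ r ∈ T, ∀ r' ∈ T, r ≡ r' [MOD l]) →
      ∑ r ∈ T, (1 / r : ℝ) ≤ 608 * (F l / l) := fun l hl l0 T hT h =>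
    bt j _ _ hj (by omega) l0 (by
      rw [e]
      calc _ ≤ (4 ^ j) ^ 1 * (4 ^ j) ^ 6 := by gcongr; simpa using hl
        _ = (4 ^ j) ^ 7 := by ring
        _ ≤ _ := Nat.pow_le_pow_right y1 (by norm_num)) T hT h
  have B1 := B 1 y1 one_pos _ Subset.rfl fun _ _ _ _ => Nat.modEq_one
  have F1 : F 1 = 1 := by simp [F]
  rw [swap j _ fun l s => ¬ l ∣ m ∧ ¬ l ∣ k * s ∧ (l : ℤ) ∣ α * s ^ 2 - (β * s + k) * m ^ 2]
  have B2 : ∀ l ∈ La j, ∑ s ∈ (PR (16 * j)).filter (fun s => ¬ l ∣ m ∧ ¬ l ∣ k * s ∧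
      (l : ℤ) ∣ α * s ^ 2 - (β * s + k) * m ^ 2), (1 / s : ℝ) ≤ 6080 * (1 / l) := fun l hl => by
    obtain ⟨lp, ly⟩ := La_mem hl
    have := Fact.mk lp
    set S := (PR (16 * j)).filter (fun s => ¬ l ∣ m ∧ ¬ l ∣ k * s ∧
      (l : ℤ) ∣ α * s ^ 2 - (β * s + k) * m ^ 2) with hS
    rcases S.eq_empty_or_nonempty with h | ⟨s0, h0⟩
    · rw [h]; simp
    set P : Polynomial (ZMod l) := Polynomial.C (α : ZMod l) * Polynomial.X ^ 2 +
      Polynomial.C (-(β * m ^ 2) : ZMod l) * Polynomial.X + Polynomial.C (-(k * m ^ 2) : ZMod l) with hP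
    have P0 : P ≠ 0 := fun h => by
      have := congrArg (Polynomial.eval 0) h
      simp only [hP, mem_filter, hS] at this h0
      simp [ZMod.natCast_eq_zero_iff] at this
      rcases this with h | h
      · exact h0.2.2.1 (h.mul_right _)
      · exact h0.2.1 h
    have P2 : #P.roots.toFinset ≤ 2 := (Multiset.toFinset_card_le _).trans
      ((Polynomial.card_roots' P).trans Polynomial.natDegree_quadratic_le)
    rw [← sum_fiberwise_of_maps_to (g := fun s : ℕ => (s : ZMod l)) (t := P.roots.toFinset)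
      fun s hs => by
        have := (ZMod.intCast_zmod_eq_zero_iff_dvd _ _).2 (mem_filter.1 hs).2.2.2
        rw [Multiset.mem_toFinset, Polynomial.mem_roots P0]
        simp only [hP, Polynomial.IsRoot.def, Polynomial.eval_add, Polynomial.eval_mul,
          Polynomial.eval_C, Polynomial.eval_pow, Polynomial.eval_X]
        push_cast at this
        linear_combination this]
    refine (sum_le_card_nsmul _ _ (608 * (F l / l)) fun ρ _ => B l ly lp.pos _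
      ((filter_subset _ _).trans (filter_subset _ _)) fun r hr r' hr' =>
        (ZMod.natCast_eq_natCast_iff _ _ _).1 ((mem_filter.1 hr).2.trans (mem_filter.1 hr').2.symm)).trans ?_
    have t := F_mul 1 l one_ne_zero lp
    rw [one_mul, F1] at t
    have : (#P.roots.toFinset : ℝ) ≤ 2 := by exact_mod_cast P2
    have := one_le_F l
    calc _ = (#P.roots.toFinset : ℝ) * (608 * (F l / l)) := nsmul_eq_mul _ _
      _ ≤ 2 * (608 * (5 * 1 / l)) := by gcongr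
      _ = _ := by ring
  have B3 := sum_le_sum fun l hl => mul_le_mul_of_nonneg_left (B2 l hl) (by positivity : 0 ≤ 1 / √l)
  simp only [mul_left_comm _ (6080 : ℝ), ← mul_sum] at B3
  rw [F1] at B1
  norm_num at B1
  simp only [one_div] at *
  linarith [hC (La j)]

end Pool.Agent.H24.Rom
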