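import Pool.Agent.H24.Rom4

open Finset

namespace Pool.Agent.H24.Rom

/-- the function of the problem -/
def W (n : ℕ) : ℕ := ∑ p ∈ n.primeFactors, n / p ^ (n.factorization p)

theorem W_le (n : ℕ) : W n ≤ n ^ 2 := by
  refine (sum_le_card_nsmul _ _ n fun p _ => Nat.div_le_self _ _).trans ?_
  rw [smul_eq_mul, sq]
  refine Nat.mul_le_mul_right _ ((card_le_card (t := Ioc 0 n) fun p hp => ?_).trans (by simp))
  exact mem_Ioc.2 ⟨(Nat.prime_of_mem_primeFactors hp).pos, Nat.le_of_mem_primeFactors hp⟩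

theorem W_half (n : ℕ) (h : n % 4 = 2) : n ≤ 2 * W n := by
  have h0 : n ≠ 0 := by omega
  have h1 : n.factorization 2 = 1 := by
    refine le_antisymm (Nat.lt_succ_iff.1 (lt_of_not_ge fun h2 => ?_)) ?_
    · have : 4 ∣ n := (Nat.prime_two.pow_dvd_iff_le_factorization (k := 2) h0).2 h2
      omega
    · exact (Nat.prime_two.pow_dvd_iff_le_factorization h0).1 (by omega)
  have := single_le_sum (f := fun p => n / p ^ n.factorization p) (fun _ _ => Nat.zero_le _)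
    (Nat.mem_primeFactors.2 ⟨Nat.prime_two, by omega, h0⟩ : 2 ∈ n.primeFactors)
  simp only [h1] at this
  rw [W]; omega

theorem W_cop (n : ℕ) (h : n ≠ 0) : (W n).Coprime n := by
  refine Nat.Coprime.symm (Nat.coprime_of_dvd fun q hq h1 h2 => ?_)
  have hm : q ∈ n.primeFactors := Nat.mem_primeFactors.2 ⟨hq, h1, h⟩
  rw [W, ← add_sum_erase _ _ hm] at h2
  refine Nat.not_dvd_ordCompl hq h ((Nat.dvd_add_left (dvd_sum fun p hp => ?_)).1 h2)
  rw [mem_erase] at hp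
  have e := Nat.ordProj_mul_ordCompl_eq_self n p
  rw [← e] at h1
  exact (((Nat.coprime_primes hq (Nat.prime_of_mem_primeFactors hp.2)).2 hp.1.symm).pow_right
    _).dvd_of_dvd_mul_left h1

theorem W_mul (n p : ℕ) (hn : n ≠ 0) (hp : p.Prime) (h : ¬ p ∣ n) : W (n * p) = W n * p + n := by
  have hm : p ∉ n.primeFactors := fun h' => h (Nat.dvd_of_mem_primeFactors h')
  rw [W, Nat.primeFactors_mul hn hp.ne_zero, hp.primeFactors, union_comm, ← insert_eq, sum_insert hm,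
    W, sum_mul, add_comm, Nat.factorization_mul hn hp.ne_zero, hp.factorization]
  congr 1
  · refine sum_congr rfl fun q hq => ?_
    have : q ≠ p := fun e => hm (e ▸ hq)
    rw [Finsupp.add_apply, Finsupp.single_eq_of_ne this, add_zero,
      Nat.div_mul_right_comm (Nat.ordProj_dvd n q)]
  · rw [Finsupp.add_apply, Finsupp.single_eq_same, Nat.factorization_eq_zero_of_not_dvd h]
    simp [hp.pos]

theorem y_pow (j e : ℕ) : 2 ^ (2 * e * j) = (4 ^ j) ^ e := by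
  rw [show 4 = 2 ^ 2 by norm_num, ← pow_mul, ← pow_mul]; congr 1; ring

theorem ext (j e m r : ℕ) (hm : m % 4 = 2) (hmy : m ≤ (4 ^ j) ^ e) (hr : r.Prime)
    (h : (4 ^ j) ^ e < r) : W (m * r) = W m * r + m ∧ (m * r) % 4 = 2 := by
  refine ⟨W_mul m r (by omega) hr fun h' => ?_, ?_⟩
  · have := Nat.le_of_dvd (by omega) h'; omega
  · have := hr.eq_two_or_odd
    have : r % 4 = 1 ∨ r % 4 = 3 := by omega
    rcases this with h | h <;> rw [Nat.mul_mod, hm, h]

theorem ext2 {j m r : ℕ} (hm : m % 4 = 2) (hmy : m ≤ (4 ^ j) ^ 17)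
    (hr : r ∈ PR (152 * j)) :
    W (m * r) = W m * r + m ∧ (m * r) % 4 = 2 ∧ m * r ≤ (4 ^ j) ^ 169 ∧ r.Prime ∧ m < r := by
  simp only [PR, mem_filter, mem_Ioc] at hr
  rw [← mul_assoc, y_pow j 152, show 152 * j = 2 * 76 * j by ring, y_pow] at hr
  have : (4 ^ j) ^ 17 ≤ (4 ^ j) ^ 76 := Nat.pow_le_pow_right (by positivity) (by norm_num)
  have a := ext j 17 m r hm hmy hr.2 (by omega)
  exact ⟨a.1, a.2, (Nat.mul_le_mul hmy hr.1.2).trans (by rw [← pow_add]), hr.2, by omega⟩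

/-- the weight of a pair -/
noncomputable def G (a b : ℕ) : ℝ :=
  if (((W a).gcd (W b) : ℕ) : ℤ) ∣ (a : ℤ) - b then
    (W a).gcd (W b) * F (2 * W a * W b * ((a : ℤ) - b).natAbs) else 0

theorem F_le : ∃ C : ℝ, 0 ≤ C ∧ ∀ j m m' r r' : ℕ, 1 ≤ j → m % 4 = 2 → m ≤ (4 ^ j) ^ 17 →
    m' % 4 = 2 → m' ≤ (4 ^ j) ^ 17 → r ∈ PR (152 * j) → r' ∈ PR (152 * j) →
    F (2 * W (m * r) * W (m' * r') * (((m * r : ℕ) : ℤ) - (m' * r' : ℕ)).natAbs) ≤
      C * ((1 + Yf j (W m) m 0 r) * (1 + Yf j (W m') m' (m * r) r')) := by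
  obtain ⟨C, C1, hC⟩ := fH 8 (by norm_num)
  refine ⟨1693 * C, by positivity, fun j m m' r r' hj h1 h2 h3 h4 hr hr' => ?_⟩
  obtain ⟨a1, -, a3, -⟩ := ext2 h1 h2 hr
  obtain ⟨b1, -, b3, -⟩ := ext2 h3 h4 hr'
  set M := 2 * W (m * r) * W (m' * r') * (((m * r : ℕ) : ℤ) - (m' * r' : ℕ)).natAbs with hM
  have t1 := hC M.primeFactors fun p hp => Nat.prime_of_mem_primeFactors hp
  have t2 := tail j 1691 M _ Subset.rfl (by
    have c1 := (W_le _).trans (Nat.pow_le_pow_left a3 2)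
    have c2 := (W_le _).trans (Nat.pow_le_pow_left b3 2)
    have c3 : (((m * r : ℕ) : ℤ) - (m' * r' : ℕ)).natAbs ≤ (4 ^ j) ^ 169 := by omega
    have c4 : 2 ≤ 2 ^ j := Nat.le_self_pow (by omega) 2
    calc M ≤ 2 ^ j * ((4 ^ j) ^ 169) ^ 2 * ((4 ^ j) ^ 169) ^ 2 * (4 ^ j) ^ 169 := by rw [hM]; gcongr
      _ = 2 ^ j * (4 ^ j) ^ 845 := by
        simp only [← pow_mul (4 ^ j), mul_assoc, ← pow_add (4 ^ j)]
      _ = _ := by rw [← y_pow, ← pow_add]; congr 1; ring)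
  have t3 : ∑ p ∈ (La j).filter (· ∈ M.primeFactors), 1 / √p ≤
      1 + Yf j (W m) m 0 r + Yf j (W m') m' (m * r) r' := by
    refine le_trans (sum_le_sum_of_subset_of_nonneg ?_ fun _ _ _ => by positivity)
      ((su (fun _ => by positivity) _ _).trans (add_le_add ((su (fun _ => by positivity) {2} _).trans
        (add_le_add ?_ le_rfl)) le_rfl))
    · intro l hl
      rw [mem_filter, Nat.mem_primeFactors, hM, a1, b1] at hl
      obtain ⟨l1, l2, l3, -⟩ := hl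
      simp only [mem_union, mem_singleton, mem_filter, l1, true_and]
      rcases (Nat.Prime.dvd_mul l2).1 l3 with h | h
      · rcases (Nat.Prime.dvd_mul l2).1 h with h | h
        · rcases (Nat.Prime.dvd_mul l2).1 h with h | h
          · exact .inl (.inl ((Nat.prime_dvd_prime_iff_eq l2 Nat.prime_two).1 h))
          · exact .inl (.inr (.inl h))
        · exact .inr (.inl h)
      · exact .inr (.inr (by exact_mod_cast Int.natCast_dvd.2 h))
    · rw [sum_singleton, div_le_one (by positivity)]; exact Real.one_le_sqrt.2 (by norm_num)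
  have y1 := Yf_nonneg j (W m) m 0 r
  have y2 := Yf_nonneg j (W m') m' (m * r) r'
  have y3 := mul_nonneg y1 y2
  push_cast at t2
  rw [F]
  nlinarith

theorem off : ∃ C : ℝ, 0 ≤ C ∧ ∀ j m m' : ℕ, 1 ≤ j → m % 4 = 2 → m ≤ (4 ^ j) ^ 17 →
    m' % 4 = 2 → m' ≤ (4 ^ j) ^ 17 → m ≠ m' →
    ∑ r ∈ PR (152 * j), ∑ r' ∈ PR (152 * j), G (m * r) (m' * r') / (r * r') ≤
      C * ((1 + Hs m) * (1 + Hs m') * (1 + ∑ l ∈ (La j).filter (fun l => ¬ l ∣ m ∧ ¬ l ∣ m' ∧
        (l : ℤ) ∣ W m * (m' : ℤ) ^ 2 - W m' * m ^ 2), 1 / √l)) := by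
  obtain ⟨C1, C10, h1⟩ := F_le
  obtain ⟨C2, C20, h2⟩ := lemG
  obtain ⟨C3, C30, h3⟩ := fH 200 (by norm_num)
  refine ⟨C1 * C2 * C2 * (137 * C3), by positivity, fun j m m' hj a1 a2 b1 b2 hne => ?_⟩
  set R := (W m * (m' : ℤ) ^ 2 - W m' * m ^ 2).natAbs with hR
  have ca := W_cop m (by omega)
  have cb := W_cop m' (by omega)
  have R0 : R ≠ 0 := fun h => by
    have e : W m * m' ^ 2 = W m' * m ^ 2 := by
      have := sub_eq_zero.1 (Int.natAbs_eq_zero.1 h); exact_mod_cast this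
    have e1 : m ^ 2 ∣ m' ^ 2 := (ca.symm.pow_left 2).dvd_of_dvd_mul_left ⟨W m', by rw [e]; ring⟩
    have e2 : m' ^ 2 ∣ m ^ 2 := (cb.symm.pow_left 2).dvd_of_dvd_mul_left ⟨W m, by rw [← e]; ring⟩
    exact hne (Nat.pow_left_injective two_ne_zero (Nat.dvd_antisymm e1 e2))
  have R1 : R ≤ (4 ^ j) ^ 68 := by
    have c : ((4 ^ j) ^ 17) ^ 2 * ((4 ^ j) ^ 17) ^ 2 = (4 ^ j) ^ 68 := by
      simp only [← pow_mul (4 ^ j), ← pow_add (4 ^ j)]
    have c1 : W m * m' ^ 2 ≤ (4 ^ j) ^ 68 := c ▸ Nat.mul_le_mul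
      ((W_le _).trans (Nat.pow_le_pow_left a2 2)) (Nat.pow_le_pow_left b2 2)
    have c2 : W m' * m ^ 2 ≤ (4 ^ j) ^ 68 := c ▸ Nat.mul_le_mul
      ((W_le _).trans (Nat.pow_le_pow_left b2 2)) (Nat.pow_le_pow_left a2 2)
    have : R = (((W m * m' ^ 2 : ℕ) : ℤ) - (W m' * m ^ 2 : ℕ)).natAbs := by rw [hR]; push_cast; rfl
    omega
  set D := R.divisors.filter fun d => d.Coprime m ∧ d.Coprime m' with hD
  set P := R.primeFactors.filter fun l => ¬ l ∣ m ∧ ¬ l ∣ m' with hP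
  have hd : ∀ d ∈ D, 0 < d ∧ d ≤ (4 ^ j) ^ 68 ∧ d.primeFactors ⊆ P := fun d hd => by
    rw [mem_filter] at hd
    refine ⟨Nat.pos_of_mem_divisors hd.1, (Nat.divisor_le hd.1).trans R1, fun l hl => ?_⟩
    obtain ⟨l1, l2, -⟩ := Nat.mem_primeFactors.1 hl
    exact mem_filter.2 ⟨Nat.mem_primeFactors.2 ⟨l1, l2.trans (Nat.dvd_of_mem_divisors hd.1), R0⟩,
      (Nat.Prime.coprime_iff_not_dvd l1).1 (hd.2.1.coprime_dvd_left l2),
      (Nat.Prime.coprime_iff_not_dvd l1).1 (hd.2.2.coprime_dvd_left l2)⟩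
  have s1 : ∀ r ∈ PR (152 * j), ∀ r' ∈ PR (152 * j), G (m * r) (m' * r') / (r * r') ≤
      ∑ d ∈ D, C1 * d * ((if d ∣ W m * r + m then (1 + Yf j (W m) m 0 r) / r else 0) *
        (if d ∣ W m' * r' + m' then (1 + Yf j (W m') m' (m * r) r') / r' else 0)) := by
    intro r hr r' hr'
    have y1 := Yf_nonneg j (W m) m 0 r
    have y2 := Yf_nonneg j (W m') m' (m * r) r'
    have nn : ∀ d ∈ D, 0 ≤ C1 * d * ((if d ∣ W m * r + m then (1 + Yf j (W m) m 0 r) / r else 0) *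
        (if d ∣ W m' * r' + m' then (1 + Yf j (W m') m' (m * r) r') / r' else 0)) :=
      fun d _ => by split_ifs <;> positivity
    rw [G]
    split_ifs with hg
    · obtain ⟨e1, e2, -⟩ := ext2 a1 a2 hr
      obtain ⟨f1, f2, -⟩ := ext2 b1 b2 hr'
      have g1 := Nat.gcd_dvd_left (W (m * r)) (W (m' * r'))
      have g2 := Nat.gcd_dvd_right (W (m * r)) (W (m' * r'))
      have t := h1 j m m' r r' hj a1 a2 b1 b2 hr hr'
      set g := (W (m * r)).gcd (W (m' * r'))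
      have gD : g ∈ D := by
        refine mem_filter.2 ⟨Nat.mem_divisors.2 ⟨Int.natCast_dvd.1 ?_, R0⟩,
          ((W_cop _ (by omega)).coprime_dvd_left g1).coprime_dvd_right (dvd_mul_right _ _),
          ((W_cop _ (by omega)).coprime_dvd_left g2).coprime_dvd_right (dvd_mul_right _ _)⟩
        rw [e1] at g1
        rw [f1] at g2
        have := dvd_sub (dvd_add ((Int.natCast_dvd_natCast.2 g2).mul_left (W m * m'))
          (hg.mul_left (W m * W m'))) ((Int.natCast_dvd_natCast.2 g1).mul_left (W m' * m))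
        push_cast at this
        rwa [show (W m : ℤ) * m' ^ 2 - W m' * m ^ 2 = W m * m' * (W m' * r' + m') +
          W m * W m' * (m * r - m' * r') - W m' * m * (W m * r + m) by ring]
      refine le_trans ?_ (single_le_sum nn gD)
      rw [if_pos (e1 ▸ g1), if_pos (f1 ▸ g2)]
      calc _ ≤ g * (C1 * ((1 + Yf j (W m) m 0 r) * (1 + Yf j (W m') m' (m * r) r'))) / (r * r') := by
            gcongr
        _ = _ := by ring
    · rw [zero_div]; exact sum_nonneg nn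
  have u1 := Hs_nonneg m
  have u2 := Hs_nonneg m'
  have s2 : ∀ d ∈ D, ∑ r ∈ PR (152 * j), ∑ r' ∈ PR (152 * j),
      C1 * d * ((if d ∣ W m * r + m then (1 + Yf j (W m) m 0 r) / r else 0) *
        (if d ∣ W m' * r' + m' then (1 + Yf j (W m') m' (m * r) r') / r' else 0)) ≤
      C1 * C2 * C2 * ((1 + Hs m) * (1 + Hs m')) * (F d ^ 2 * (1 + Hs d) ^ 2 / d) := fun d hd' => by
    obtain ⟨d0, d1, -⟩ := hd d hd'
    have u3 := Hs_nonneg d
    have u4 := one_le_F d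
    have v1 := h2 j m (W m) d 0 hj (by omega) ca d0 d1
    have d2 : (d : ℝ) ≠ 0 := by exact_mod_cast d0.ne'
    simp only [← mul_sum, ← sum_filter]
    rw [sum_filter] at v1
    calc _ ≤ C1 * d * ∑ r ∈ PR (152 * j), (if d ∣ W m * r + m then (1 + Yf j (W m) m 0 r) / r else 0) *
          (C2 * (F d / d) * ((1 + Hs d) * (1 + Hs m'))) := by
          refine mul_le_mul_of_nonneg_left (sum_le_sum fun r _ => mul_le_mul_of_nonneg_left
            (h2 j m' (W m') d _ hj (by omega) cb d0 d1) ?_) (by positivity)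
          have y1 := Yf_nonneg j (W m) m 0 r
          split_ifs <;> positivity
      _ ≤ C1 * d * ((C2 * (F d / d) * ((1 + Hs d) * (1 + Hs m))) *
          (C2 * (F d / d) * ((1 + Hs d) * (1 + Hs m')))) := by rw [← sum_mul]; gcongr
      _ = _ := by field_simp
  have s3 := (dsum P D fun d hd' => ⟨(hd d hd').1.ne', (hd d hd').2.2⟩).trans
    (h3 P fun p hp => Nat.prime_of_mem_primeFactors (mem_filter.1 hp).1)
  have s4 := tail j 136 R P (filter_subset _ _) (by rw [← y_pow] at R1; exact R1)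
  have s5 : ∑ p ∈ (La j).filter (· ∈ P), 1 / √p ≤ ∑ l ∈ (La j).filter (fun l => ¬ l ∣ m ∧ ¬ l ∣ m' ∧
      (l : ℤ) ∣ W m * (m' : ℤ) ^ 2 - W m' * m ^ 2), 1 / √l :=
    sum_le_sum_of_subset_of_nonneg (fun l hl => by
      simp only [hP, mem_filter, Nat.mem_primeFactors] at hl ⊢
      exact ⟨hl.1, hl.2.2.1, hl.2.2.2, Int.natCast_dvd.2 hl.2.1.2.1⟩) fun _ _ _ => by positivity
  set Z := ∑ l ∈ (La j).filter (fun l => ¬ l ∣ m ∧ ¬ l ∣ m' ∧
      (l : ℤ) ∣ W m * (m' : ℤ) ^ 2 - W m' * m ^ 2), 1 / √l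
  have Z0 : 0 ≤ Z := sum_nonneg fun _ _ => by positivity
  refine (sum_le_sum fun r hr => sum_le_sum fun r' hr' => s1 r hr r' hr').trans ?_
  rw [sum_congr rfl fun r _ => sum_comm, sum_comm]
  refine (sum_le_sum s2).trans ?_
  rw [← mul_sum]
  push_cast at s4
  calc _ ≤ C1 * C2 * C2 * ((1 + Hs m) * (1 + Hs m')) * (137 * C3 * (1 + Z)) := by
        gcongr
        nlinarith
    _ = _ := by ring

end Pool.Agent.H24.Rom
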