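import Pool.Agent.H24.Rom5

open Finset

namespace Pool.Agent.H24.Rom

theorem cs {ι : Type} (A : Finset ι) (P : ι → Finset ℕ) (φ : ι → ℕ → ℕ) (V : Finset ℕ)
    (hV : ∀ α ∈ A, ∀ p ∈ P α, φ α p ∈ V) : (∑ α ∈ A, (#(P α) : ℝ)) ^ 2 ≤
      #V * ∑ α ∈ A, ∑ β ∈ A, (#((P α ×ˢ P β).filter fun t => φ α t.1 = φ β t.2) : ℝ) := by
  have e1 : ∀ α ∈ A, (#(P α) : ℝ) = ∑ v ∈ V, (#((P α).filter (φ α · = v)) : ℝ) := fun α hα => by
    exact_mod_cast card_eq_sum_card_fiberwise fun p hp => hV α hα p hp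
  rw [sum_congr rfl e1, sum_comm]
  refine sq_sum_le_card_mul_sum_sq.trans (le_of_eq ?_)
  congr 1
  simp only [sq, sum_mul_sum]
  rw [sum_comm]
  refine sum_congr rfl fun α hα => ?_
  rw [sum_comm]
  refine sum_congr rfl fun β _ => ?_
  rw [card_eq_sum_card_fiberwise (f := fun t => φ α t.1) (t := V) fun t ht =>
    hV α hα _ (mem_product.1 (mem_filter.1 ht).1).1]
  push_cast
  refine sum_congr rfl fun v _ => ?_
  rw [← Nat.cast_mul, ← card_product]
  congr 2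
  ext t
  simp only [mem_product, mem_filter]
  grind

/-- large primes -/
def Pa (j a : ℕ) : Finset ℕ := (Ioc ((4 ^ j) ^ 169) ((4 ^ j) ^ 520 / a)).filter Nat.Prime

/-- number of coincidences -/
noncomputable def cnt (j a b : ℕ) : ℝ :=
  #((Pa j a ×ˢ Pa j b).filter fun t => W a * t.1 + a = W b * t.2 + b)

theorem xa (j a : ℕ) (h0 : 0 < a) (h : a ≤ (4 ^ j) ^ 169) : (4 ^ j) ^ 351 ≤ (4 ^ j) ^ 520 / a :=
  (Nat.le_div_iff_mul_le h0).2 ((Nat.mul_le_mul_left _ h).trans (by rw [← pow_add]))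

theorem Nb (j a b : ℕ) (a1 : a % 4 = 2) (a2 : a ≤ (4 ^ j) ^ 169) (b1 : b % 4 = 2)
    (b2 : b ≤ (4 ^ j) ^ 169) : (((4 ^ j) ^ 520 / a : ℕ) : ℝ) * (W a).gcd (W b) / W b + 1 +
      2 * (((2 ^ j : ℕ) : ℝ) ^ 2) ^ 6 ≤ 8 * ((4 ^ j) ^ 520 * (W a).gcd (W b) / (a * b)) := by
  have h1 := W_half a a1
  have h2 := W_half b b1
  have h3 := xa j a (by omega) a2
  have h4 := (W_le _).trans (Nat.pow_le_pow_left b2 2)
  have g0 : 1 ≤ (W a).gcd (W b) := Nat.gcd_pos_of_pos_left _ (by omega)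
  have y1 : 1 ≤ 4 ^ j := Nat.one_le_pow _ _ (by norm_num)
  have h5 : ((2 ^ j) ^ 2) ^ 6 * W b ≤ (4 ^ j) ^ 520 / a * (W a).gcd (W b) := by
    rw [← pow_mul 2, mul_comm j, pow_mul 2]
    calc _ ≤ (4 ^ j) ^ 6 * ((4 ^ j) ^ 169) ^ 2 := Nat.mul_le_mul_left _ h4
      _ = (4 ^ j) ^ 344 := by simp only [← pow_mul (4 ^ j), ← pow_add (4 ^ j)]
      _ ≤ (4 ^ j) ^ 351 := Nat.pow_le_pow_right y1 (by norm_num)
      _ ≤ _ := h3.trans (Nat.le_mul_of_pos_right _ g0)
  have W0 : (0 : ℝ) < W b := by have : 0 < W b := by omega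
                                exact_mod_cast this
  have a0 : (0 : ℝ) < a := by have : 0 < a := by omega
                              exact_mod_cast this
  have b0 : (0 : ℝ) < b := by have : 0 < b := by omega
                              exact_mod_cast this
  have h6 : (((2 ^ j : ℕ) : ℝ) ^ 2) ^ 6 ≤ (((4 ^ j) ^ 520 / a : ℕ) : ℝ) * (W a).gcd (W b) / W b := by
    rw [le_div_iff₀ W0]; exact_mod_cast h5
  have h7 : (1 : ℝ) ≤ (((2 ^ j : ℕ) : ℝ) ^ 2) ^ 6 := by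
    have : 1 ≤ ((2 ^ j) ^ 2) ^ 6 := Nat.one_le_pow _ _ (by positivity)
    exact_mod_cast this
  have h8 : (((4 ^ j) ^ 520 / a : ℕ) : ℝ) ≤ (4 ^ j) ^ 520 / a := by exact_mod_cast Nat.cast_div_le
  have h9 : (b : ℝ) / 2 ≤ W b := by
    have : (b : ℝ) ≤ 2 * W b := by exact_mod_cast h2
    linarith
  have : (((4 ^ j) ^ 520 / a : ℕ) : ℝ) * (W a).gcd (W b) / W b ≤
      2 * ((4 ^ j) ^ 520 * (W a).gcd (W b) / (a * b)) :=
    calc _ ≤ (4 ^ j) ^ 520 / a * ((W a).gcd (W b) : ℝ) / (b / 2) := by gcongr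
      _ = _ := by field_simp
  linarith

theorem Pa_mem {j a p : ℕ} (h : p ∈ Pa j a) :
    p.Prime ∧ (4 ^ j) ^ 169 < p ∧ p ≤ (4 ^ j) ^ 520 / a := by
  simp only [Pa, mem_filter, mem_Ioc] at h; exact ⟨h.2, h.1⟩

theorem c1 (j a b : ℕ) (hj : 1 ≤ j) (a1 : a % 4 = 2) (a2 : a ≤ (4 ^ j) ^ 169) (b1 : b % 4 = 2)
    (b2 : b ≤ (4 ^ j) ^ 169) (hab : a ≠ b) :
    cnt j a b ≤ 32 * (4 ^ j) ^ 520 / j ^ 2 * (G a b / (a * b)) := by
  have h1 := W_half a a1
  have h2 := W_half b b1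
  rw [G, cnt]
  split_ifs with hg
  · have y : (2 ^ j) ^ 2 ≤ (4 ^ j) ^ 169 := by
      rw [← pow_mul 2, mul_comm j, pow_mul 2]; exact Nat.le_self_pow (by norm_num) _
    have t := two_count (W a) (W b) a b ((4 ^ j) ^ 520 / a) (2 ^ j) (by omega) (by omega) hab
      (Nat.one_le_pow _ _ (by norm_num))
      ((Pa j a ×ˢ Pa j b).filter fun t => W a * t.1 + a = W b * t.2 + b)
      (fun t ht => ⟨(Pa_mem (mem_product.1 (mem_filter.1 ht).1).1).2.2, (mem_filter.1 ht).2⟩)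
      fun t ht => by
        have u := Pa_mem (mem_product.1 (mem_filter.1 ht).1).1
        have v := Pa_mem (mem_product.1 (mem_filter.1 ht).1).2
        exact ⟨u.1, v.1, y.trans_lt u.2.1, y.trans_lt v.2.1⟩
    have h3 := le_Hn_pow j
    have h4 := Nb j a b a1 a2 b1 b2
    have h5 := one_le_F (2 * W a * W b * ((a : ℤ) - b).natAbs)
    have j0 : (0 : ℝ) < j := by exact_mod_cast hj
    refine le_of_mul_le_mul_right ?_ (by positivity : 0 < ((j : ℝ) / 2) ^ 2)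
    calc _ ≤ _ := by gcongr
      _ ≤ _ := t
      _ ≤ 8 * ((4 ^ j) ^ 520 * (W a).gcd (W b) / (a * b)) *
          F (2 * W a * W b * ((a : ℤ) - b).natAbs) := by gcongr
      _ = _ := by field_simp; ring
  · rw [filter_eq_empty_iff.2 fun t _ h => hg ?_]
    · simp
    · have e : (W a : ℤ) * t.1 + a = W b * t.2 + b := by exact_mod_cast h
      rw [show (a : ℤ) - b = W b * t.2 - W a * t.1 by linarith]
      exact dvd_sub ((Int.natCast_dvd_natCast.2 (Nat.gcd_dvd_right _ _)).mul_right _)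
        ((Int.natCast_dvd_natCast.2 (Nat.gcd_dvd_left _ _)).mul_right _)

theorem c2 (j a b : ℕ) (a1 : a % 4 = 2) (a2 : a ≤ (4 ^ j) ^ 169) (b1 : b % 4 = 2)
    (b2 : b ≤ (4 ^ j) ^ 169) : cnt j a b ≤ 8 * ((4 ^ j) ^ 520 * (W a).gcd (W b) / (a * b)) := by
  have h1 := W_half a a1
  have h2 := W_half b b1
  have t := triv_count (W a) (W b) a b ((4 ^ j) ^ 520 / a) (by omega) (by omega)
    ((Pa j a ×ˢ Pa j b).filter fun t => W a * t.1 + a = W b * t.2 + b)
    (fun t ht => ⟨(Pa_mem (mem_product.1 (mem_filter.1 ht).1).1).2.2, (mem_filter.1 ht).2⟩)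
  exact t.trans (le_trans (le_add_of_nonneg_right (by positivity)) (Nb j a b a1 a2 b1 b2))

theorem c3 (j a : ℕ) (a1 : a % 4 = 2) : cnt j a a ≤ #(Pa j a) := by
  have h1 := W_half a a1
  rw [cnt, Nat.cast_le]
  refine card_le_card_of_injOn Prod.fst (fun t ht => (mem_product.1 (mem_filter.1 ht).1).1)
    fun t ht u hu e => Prod.ext e ?_
  have h2 := (mem_filter.1 ht).2
  have h3 := (mem_filter.1 hu).2
  rw [e, h3] at h2
  exact (Nat.eq_of_mul_eq_mul_left (by omega : 0 < W a) (by omega)).symm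

theorem c4 (j a : ℕ) (hj : 1 ≤ j) (a1 : 0 < a) (a2 : a ≤ (4 ^ j) ^ 169) :
    (4 ^ j) ^ 520 / (8328 * j) * (1 / a : ℝ) ≤ #(Pa j a) := by
  have h1 := xa j a a1 a2
  have h2 := pi_low ((4 ^ j) ^ 520 / a)
  have h3 : _ ≤ #(Pa j a) + _ := card_pr ((4 ^ j) ^ 169) ((4 ^ j) ^ 520 / a)
  have h4 : Nat.log 2 ((4 ^ j) ^ 520 / a) ≤ 1040 * j := by
    refine (Nat.log_mono_right (Nat.div_le_self _ _)).trans ?_
    rw [← y_pow, Nat.log_pow (by norm_num)]
  have h5 := Nat.lt_mul_div_succ ((4 ^ j) ^ 520) a1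
  have y1 : j < 4 ^ j := Nat.lt_pow_self (by norm_num)
  have y2 : 4 ≤ 4 ^ j := Nat.le_self_pow (by omega) 4
  have h6 : 8328 * j * (4 ^ j) ^ 169 ≤ (4 ^ j) ^ 351 := by
    have : 4 ^ 7 ≤ (4 ^ j) ^ 181 :=
      (Nat.pow_le_pow_left y2 7).trans (Nat.pow_le_pow_right (by omega) (by norm_num))
    calc _ ≤ (4 ^ j) ^ 181 * (4 ^ j) ^ 1 * (4 ^ j) ^ 169 := by rw [pow_one]; gcongr; omega
      _ = _ := by rw [← pow_add, ← pow_add]
  have h7 : 1 ≤ (4 ^ j) ^ 169 := Nat.one_le_pow _ _ (by omega)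
  have j0 : (0 : ℝ) < j := by exact_mod_cast hj
  have a0 : (0 : ℝ) < a := by exact_mod_cast a1
  rw [mul_one_div, div_div, div_le_iff₀ (by positivity)]
  have h8 : (4 ^ j) ^ 520 / a ≤ 4164 * j * #(Pa j a) := by
    have : (4 ^ j) ^ 520 / a ≤ 2 * (1041 * j) * (#(Pa j a) + 2 * (4 ^ j) ^ 169) :=
      h2.trans (Nat.mul_le_mul (by omega) (by omega))
    generalize (4 ^ j) ^ 520 / a = n at *
    generalize (4 ^ j) ^ 169 = Y at *
    nlinarith
  have : (4 ^ j) ^ 520 ≤ #(Pa j a) * (8328 * j * a) := by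
    have : 1 ≤ (4 ^ j) ^ 520 / a := (Nat.one_le_pow _ _ (by omega)).trans h1
    generalize (4 ^ j) ^ 520 / a = n at *
    generalize (4 ^ j) ^ 520 = Y at *
    nlinarith
  exact_mod_cast this

theorem PR_up (j a : ℕ) (hj : 1 ≤ j) (h1 : 12 * j ≤ a) (h2 : a ≤ 152 * j) :
    ∑ r ∈ PR a, (1 / r : ℝ) ≤ 608 := by
  have := bt j a 1 hj h2 one_pos (by
    rw [one_mul, ← y_pow]; exact Nat.pow_le_pow_right (by norm_num) h1) _ Subset.rfl
    fun _ _ _ _ => Nat.modEq_one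
  simpa [F] using this

theorem same : ∃ j0 : ℕ, ∀ j m : ℕ, j0 ≤ j → m % 4 = 2 → m ≤ (4 ^ j) ^ 17 → (4 ^ j) ^ 8 ≤ m →
    ∑ r ∈ PR (152 * j), ∑ r' ∈ PR (152 * j), cnt j (m * r) (m * r') ≤
      ∑ r ∈ PR (152 * j), (#(Pa j (m * r)) : ℝ) + 16 * (4 ^ j) ^ 520 / j * (1 / m) := by
  obtain ⟨C, hC⟩ := tau_bound 64
  refine ⟨C + 20, fun j m hj a1 a2 a3 => ?_⟩
  set h : ℕ → ℕ → ℝ := fun r r' =>
    if r < r' then (W (m * r)).gcd (W (m * r')) / (r * r') else 0 with hh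
  have h0 : ∀ r r', 0 ≤ h r r' := fun r r' => by simp only [hh]; split_ifs <;> positivity
  have s1 : ∀ r ∈ PR (152 * j), ∀ r' ∈ PR (152 * j), cnt j (m * r) (m * r') ≤
      (if r = r' then (#(Pa j (m * r)) : ℝ) else 0) +
        8 * (4 ^ j) ^ 520 / m ^ 2 * (h r r' + h r' r) := fun r hr r' hr' => by
    obtain ⟨-, e1, e2, -⟩ := ext2 a1 a2 hr
    obtain ⟨-, f1, f2, -⟩ := ext2 a1 a2 hr'
    split_ifs with e
    · subst e
      exact (c3 j _ e1).trans (le_add_of_nonneg_right (by have := h0 r r; positivity))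
    · refine (c2 j _ _ e1 e2 f1 f2).trans (le_of_eq ?_)
      simp only [hh]
      rcases lt_or_gt_of_ne e with l | l
      · rw [if_pos l, if_neg l.not_gt]; push_cast; ring
      · rw [if_neg l.not_gt, if_pos l, Nat.gcd_comm]; push_cast; ring
  have y1 : j < 2 ^ j := Nat.lt_two_pow_self
  have y2 : 2 ^ j ≤ 4 ^ j := Nat.pow_le_pow_left (by norm_num) _
  have s2 : ∀ r ∈ PR (152 * j), ∑ r' ∈ PR (152 * j), h r r' ≤
      (4 ^ j) ^ 6 * (305 * j) * (1 / r) := fun r hr => by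
    obtain ⟨e0, e1, e2, -⟩ := ext2 a1 a2 hr
    have N0 : W (m * r) ≠ 0 := by have := W_half _ e1; omega
    have t1 : #(W (m * r)).divisors ≤ (4 ^ j) ^ 6 := by
      refine (Nat.pow_le_pow_iff_left (n := 64) (by norm_num)).1 ((hC _ N0).trans ?_)
      calc _ ≤ (4 ^ j) ^ 1 * ((4 ^ j) ^ 169) ^ 2 :=
            Nat.mul_le_mul (by rw [pow_one]; omega) ((W_le _).trans (Nat.pow_le_pow_left e2 2))
        _ = (4 ^ j) ^ 339 := by simp only [← pow_mul (4 ^ j), ← pow_add (4 ^ j)]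
        _ ≤ (4 ^ j) ^ 384 := Nat.pow_le_pow_right (by omega) (by norm_num)
        _ = _ := by rw [← pow_mul (4 ^ j)]
    have t2 := gcd_sum (W (m * r)) (2 ^ (2 * (152 * j))) N0
    have t3 := Hn_pow_le (2 * (152 * j))
    have t4 : (#(W (m * r)).divisors : ℝ) ≤ (4 ^ j) ^ 6 := by exact_mod_cast t1
    have j1 : (1 : ℝ) ≤ j := by have : 1 ≤ j := by omega
                                exact_mod_cast this
    have H0 : 0 ≤ Hn (2 ^ (2 * (152 * j))) := sum_nonneg fun _ _ => by positivity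
    simp only [hh, ← sum_filter]
    have hi : Set.InjOn (fun r' => r' - r) ((PR (152 * j)).filter (r < ·)) := fun u hu v hv e => by
      have := (mem_filter.1 hu).2
      have := (mem_filter.1 hv).2
      simp only at e; omega
    calc _ ≤ ∑ r' ∈ (PR (152 * j)).filter (r < ·),
          ((W (m * r)).gcd (r' - r) : ℝ) / (r' - r : ℕ) * (1 / r) := sum_le_sum fun r' hr' => by
          rw [mem_filter] at hr'
          obtain ⟨f0, -⟩ := ext2 a1 a2 hr'.1
          have g1 := Nat.gcd_dvd_left (W (m * r)) (W (m * r'))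
          have g2 := Nat.gcd_dvd_right (W (m * r)) (W (m * r'))
          have g3 := Nat.le_of_dvd (Nat.gcd_pos_of_pos_left _ (by omega)) (Nat.dvd_gcd g1
            ((Nat.modEq_iff_dvd' hr'.2.le).1 (cong (W_cop m (by omega)) (e0 ▸ g1) (f0 ▸ g2))))
          have : (0 : ℝ) < (r' - r : ℕ) := by have : 0 < r' - r := by omega
                                              exact_mod_cast this
          rw [mul_comm (r : ℝ), ← div_div, div_eq_mul_one_div]
          gcongr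
          omega
      _ ≤ (∑ u ∈ Ioc 0 (2 ^ (2 * (152 * j))), ((W (m * r)).gcd u : ℝ) / u) * (1 / r) := by
          rw [← sum_mul, ← sum_image (f := fun u => ((W (m * r)).gcd u : ℝ) / u) hi]
          gcongr
          intro u hu
          obtain ⟨r', hr', rfl⟩ := mem_image.1 hu
          simp only [PR, mem_filter, mem_Ioc] at hr' ⊢
          omega
      _ ≤ _ := by
          gcongr
          refine t2.trans ?_
          push_cast at t3
          gcongr
          linarith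
  have s3 : ∑ r ∈ PR (152 * j), ∑ r' ∈ PR (152 * j), h r r' ≤ m / j := by
    refine (sum_le_sum s2).trans ?_
    have t := PR_up j (152 * j) (by omega) (by omega) le_rfl
    have j0 : (0 : ℝ) < j := by have : 0 < j := by omega
                                exact_mod_cast this
    rw [← mul_sum, le_div_iff₀ j0]
    have u : (4 ^ j) ^ 6 * (305 * j) * 608 * j ≤ m := by
      have v1 : 2 ^ 20 ≤ 2 ^ j := Nat.pow_le_pow_right (by norm_num) (by omega)
      calc _ = (4 ^ j) ^ 6 * (185440 * j) * j := by ring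
        _ ≤ (4 ^ j) ^ 6 * (2 ^ j * 2 ^ j) * (4 ^ j) ^ 1 := by rw [pow_one]; gcongr <;> omega
        _ = (4 ^ j) ^ 8 := by rw [← mul_pow, mul_right_comm, ← pow_add]; exact (pow_succ _ 7).symm
        _ ≤ m := a3
    calc _ ≤ (4 ^ j) ^ 6 * (305 * j : ℝ) * 608 * j := by gcongr
      _ ≤ _ := by exact_mod_cast u
  refine (sum_le_sum fun r hr => sum_le_sum fun r' hr' => s1 r hr r' hr').trans ?_
  simp only [sum_add_distrib, ← mul_sum, sum_ite_eq]
  rw [sum_comm (f := fun r r' => h r' r)]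
  refine add_le_add (le_of_eq (sum_congr rfl fun r hr => if_pos hr)) ?_
  have m0 : (0 : ℝ) < m := by have : 0 < m := by omega
                              exact_mod_cast this
  calc _ ≤ 8 * (4 ^ j) ^ 520 / m ^ 2 * (m / j + m / j : ℝ) := by gcongr
    _ = _ := by field_simp; ring

end Pool.Agent.H24.Rom
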