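import Pool.Agent.H24.Rom6

open Finset

namespace Pool.Agent.H24.Rom

/-- small parts -/
def Ks (j : ℕ) : Finset ℕ := (Ioc 0 (4 ^ j)).filter (· % 4 = 2)

theorem ext1 {j : ℕ} {μ : ℕ × ℕ} (h : μ ∈ Ks j ×ˢ PR (16 * j)) :
    W (μ.1 * μ.2) = W μ.1 * μ.2 + μ.1 ∧ (μ.1 * μ.2) % 4 = 2 ∧ μ.1 * μ.2 ≤ (4 ^ j) ^ 17 ∧
      (4 ^ j) ^ 8 ≤ μ.1 * μ.2 ∧ μ.2.Prime ∧ 0 < μ.1 ∧ μ.1 ≤ 4 ^ j ∧ 4 ^ j < μ.2 := by
  simp only [Ks, PR, mem_product, mem_filter, mem_Ioc] at h
  rw [← mul_assoc, y_pow j 16, show 16 * j = 2 * 8 * j by ring, y_pow] at h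
  obtain ⟨⟨⟨h1, h2⟩, h3⟩, ⟨h4, h5⟩, h6⟩ := h
  have : 4 ^ j ≤ (4 ^ j) ^ 8 := Nat.le_self_pow (by norm_num) _
  have a := ext j 1 μ.1 μ.2 h3 (by rwa [pow_one]) h6 (by rw [pow_one]; omega)
  exact ⟨a.1, a.2, (Nat.mul_le_mul h2 h5).trans (by rw [← pow_succ']),
    h4.le.trans (Nat.le_mul_of_pos_left _ h1), h6, h1, h2, by omega⟩

theorem inj1 {j : ℕ} {μ ν : ℕ × ℕ} (h : μ ∈ Ks j ×ˢ PR (16 * j)) (h' : ν ∈ Ks j ×ˢ PR (16 * j))
    (e : μ.1 * μ.2 = ν.1 * ν.2) : μ = ν := by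
  obtain ⟨-, -, -, -, a1, a2, a3, a4⟩ := ext1 h
  obtain ⟨-, -, -, -, b1, b2, b3, b4⟩ := ext1 h'
  have : μ.2 = ν.2 := by
    rcases (Nat.Prime.dvd_mul a1).1 (e ▸ dvd_mul_left _ _ : μ.2 ∣ ν.1 * ν.2) with t | t
    · have := Nat.le_of_dvd b2 t; omega
    · exact (Nat.prime_dvd_prime_iff_eq a1 b1).1 t
  rw [this] at e
  exact Prod.ext (Nat.eq_of_mul_eq_mul_right b1.pos e) this

theorem Hs_mul (k s : ℕ) (hk : k ≠ 0) (hs : s.Prime) : 1 + Hs (k * s) ≤ 2 + Hs k := by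
  rw [Hs, Nat.primeFactors_mul hk hs.ne_zero, hs.primeFactors]
  have := su (f := fun p => 1 / √p) (fun _ => by positivity) k.primeFactors {s}
  have h : 1 / √s ≤ 1 := by
    rw [div_le_one (Real.sqrt_pos.2 (by exact_mod_cast hs.pos))]
    exact Real.one_le_sqrt.2 (by exact_mod_cast hs.one_le)
  rw [sum_singleton] at this
  rw [Hs]; linarith

theorem hsum : ∃ C : ℝ, 0 ≤ C ∧ ∀ j : ℕ, 1 ≤ j → ∑ k ∈ Ks j, (2 + Hs k) / k ≤ C * j := by
  obtain ⟨C, C0, hC⟩ := s32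
  refine ⟨6 * (1 + C), by positivity, fun j hj => ?_⟩
  have h1 : Hn (4 ^ j) ≤ 3 * j := by
    have h := Hn_pow_le (2 * j)
    have : (1 : ℝ) ≤ j := by exact_mod_cast hj
    rw [pow_mul] at h
    norm_num at h
    linarith
  have h2 : ∀ l ∈ La j, ∑ k ∈ (Ioc 0 (4 ^ j)).filter (l ∣ ·), (1 / k : ℝ) ≤ 1 / l * (3 * j) :=
    fun l hl => by
      have l0 := (La_mem hl).1.pos
      refine le_trans (sum_le_sum_of_subset_of_nonneg (t := (Ioc 0 (4 ^ j)).image (l * ·))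
        (fun k hk => ?_) fun _ _ _ => by positivity) ?_
      · simp only [mem_filter, mem_Ioc, mem_image] at hk ⊢
        obtain ⟨⟨a, b⟩, c, rfl⟩ := hk
        exact ⟨c, ⟨Nat.pos_of_mul_pos_left a, (Nat.le_mul_of_pos_left _ l0).trans b⟩, rfl⟩
      · rw [sum_image fun a _ b _ e => Nat.eq_of_mul_eq_mul_left l0 e]
        refine le_trans (le_of_eq ?_) (mul_le_mul_of_nonneg_left h1 (by positivity))
        rw [Hn, mul_sum]
        exact sum_congr rfl fun k _ => by push_cast; rw [one_div_mul_one_div]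
  have h3 := sum_le_sum fun l hl => mul_le_mul_of_nonneg_left (h2 l hl) (by positivity : 0 ≤ 1 / √l)
  simp only [← mul_assoc, ← sum_mul] at h3
  have h4 := hC (La j)
  have j0 : (0 : ℝ) ≤ j := Nat.cast_nonneg j
  calc _ ≤ ∑ k ∈ Ioc 0 (4 ^ j), (2 + Hs k) / k := sum_le_sum_of_subset_of_nonneg (filter_subset _ _)
        fun k _ _ => by have := Hs_nonneg k; positivity
    _ ≤ ∑ k ∈ Ioc 0 (4 ^ j), 2 * ((1 + ∑ l ∈ (La j).filter (· ∣ k), 1 / √l) / k) :=
        sum_le_sum fun k hk => by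
          have : Hs k ≤ ∑ l ∈ (La j).filter (· ∣ k), 1 / √l :=
            sum_le_sum_of_subset_of_nonneg (fun l hl => by
              have := Nat.le_of_mem_primeFactors hl
              rw [Nat.mem_primeFactors] at hl
              simp only [La, mem_filter, mem_Ioc] at hk ⊢
              exact ⟨⟨⟨hl.1.pos, by omega⟩, hl.1⟩, hl.2.1⟩) fun _ _ _ => by positivity
          have := Hs_nonneg k
          rw [← mul_div_assoc]; gcongr; linarith
    _ ≤ _ := by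
        rw [← mul_sum, swap j _ fun l k => l ∣ k]
        rw [Hn] at h1
        nlinarith

theorem Ks_low (j : ℕ) (hj : 2 ≤ j) : (j : ℝ) / 8 ≤ ∑ k ∈ Ks j, (1 / k : ℝ) := by
  have h1 := le_Hn_pow j
  have h2 : 4 * 2 ^ j ≤ 4 ^ j := by
    rw [show 4 ^ j = 2 ^ j * 2 ^ j from mul_pow 2 2 j]
    exact Nat.mul_le_mul_right _ (Nat.pow_le_pow_right (n := 2) (by norm_num) hj)
  refine le_trans ?_ (sum_le_sum_of_subset_of_nonneg (s := (Ioc 0 (2 ^ j)).image fun n => 4 * n - 2)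
    (fun k hk => ?_) fun _ _ _ => by positivity)
  · rw [sum_image fun a ha b hb e => by
      simp only [coe_Ioc, Set.mem_Ioc] at ha hb e; omega]
    refine le_trans (by linarith : _ ≤ 1 / 4 * Hn (2 ^ j)) ?_
    rw [Hn, mul_sum]
    refine sum_le_sum fun n hn => ?_
    rw [mem_Ioc] at hn
    have : (0 : ℝ) < (4 * n - 2 : ℕ) := by have : 0 < 4 * n - 2 := by omega
                                           exact_mod_cast this
    have : ((4 * n - 2 : ℕ) : ℝ) ≤ 4 * n := by exact_mod_cast Nat.sub_le _ _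
    rw [one_div_mul_one_div]; gcongr
  · simp only [Ks, mem_image, mem_filter, mem_Ioc] at hk ⊢
    obtain ⟨n, a, rfl⟩ := hk
    omega

theorem main : ∃ (C : ℝ) (j0 : ℕ), 0 < C ∧ ∀ j ≥ j0,
    ((4 ^ j) ^ 520 : ℝ) ≤ C * #((Icc 1 ((4 ^ j) ^ 520)).image W) := by
  obtain ⟨j0, h0⟩ := same
  obtain ⟨C1, C10, h1⟩ := off
  obtain ⟨C2, C20, h2⟩ := lemZ
  obtain ⟨C3, C30, h3⟩ := hsum
  set c : ℝ := 1 / (8328 * 8 * 400) with hc
  set B : ℝ := 16 * (608 * C3) + 32 * C1 * (608 * C3 * (C3 * C2)) with hB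
  have B0 : 0 ≤ B := by positivity
  have c0 : 0 < c := by positivity
  refine ⟨(c + B) / c ^ 2, j0 + 2, by positivity, fun j hj => ?_⟩
  set x : ℝ := (4 ^ j) ^ 520 with hx
  set Ms := Ks j ×ˢ PR (16 * j) with hMs
  set V := (Icc 1 ((4 ^ j) ^ 520)).image W
  have j1 : (0 : ℝ) < j := by have : 0 < j := by omega
                              exact_mod_cast this
  have x0 : 0 < x := by positivity
  have t := cs (Ms ×ˢ PR (152 * j)) (fun α => Pa j (α.1.1 * α.1.2 * α.2))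
    (fun α p => W (α.1.1 * α.1.2 * α.2) * p + α.1.1 * α.1.2 * α.2) V fun α hα p hp => by
      rw [mem_product] at hα
      obtain ⟨-, a1, a2, -⟩ := ext1 hα.1
      obtain ⟨-, b1, b2, -⟩ := ext2 a1 a2 hα.2
      obtain ⟨d1, d2, d3⟩ := Pa_mem hp
      refine mem_image.2 ⟨_, mem_Icc.2 ⟨?_, ?_⟩, (ext j 169 _ p b1 b2 d1 d2).1⟩
      · exact Nat.mul_pos (by omega) d1.pos
      · rw [mul_comm]; exact (Nat.le_div_iff_mul_le (by omega)).1 d3
  simp only [sum_product Ms] at t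
  set T := ∑ μ ∈ Ms, ∑ r ∈ PR (152 * j), (#(Pa j (μ.1 * μ.2 * r)) : ℝ) with hT
  have T1 : c * x ≤ T := by
    have u1 := Ks_low j (by omega)
    have u2 := PR_low (8 * j) (by omega)
    have u3 := PR_low (76 * j) (by omega)
    rw [← mul_assoc] at u2 u3
    norm_num only at u2 u3
    calc _ = x / (8328 * j) * (j / 8 * (1 / 20) * (1 / 20)) := by rw [hc]; field_simp; norm_num
      _ ≤ x / (8328 * j) * ((∑ k ∈ Ks j, (1 / k : ℝ)) * (∑ r ∈ PR (16 * j), (1 / r : ℝ)) *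
          ∑ r ∈ PR (152 * j), (1 / r : ℝ)) := by gcongr
      _ = ∑ μ ∈ Ms, ∑ r ∈ PR (152 * j), x / (8328 * j) * (1 / (μ.1 * μ.2 * r : ℕ) : ℝ) := by
          rw [sum_mul_sum, ← sum_product', sum_mul_sum, mul_sum]
          refine sum_congr rfl fun μ _ => ?_
          rw [mul_sum]
          refine sum_congr rfl fun r _ => ?_
          push_cast; rw [one_div_mul_one_div, one_div_mul_one_div]
      _ ≤ T := sum_le_sum fun μ hμ => sum_le_sum fun r hr => by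
          obtain ⟨-, a1, a2, -⟩ := ext1 hμ
          obtain ⟨-, b1, b2, -⟩ := ext2 a1 a2 hr
          exact c4 j _ (by omega) (by omega) b2
  have m1 : ∑ μ ∈ Ms, (1 + Hs (μ.1 * μ.2)) / (μ.1 * μ.2 : ℕ) ≤ 608 * C3 * j := by
    have u := PR_up j (16 * j) (by omega) (by omega) (by omega)
    calc _ ≤ ∑ μ ∈ Ms, (2 + Hs μ.1) / μ.1 * (1 / μ.2) := sum_le_sum fun μ hμ => by
          obtain ⟨-, -, -, -, a1, a2, -⟩ := ext1 hμ
          have := Hs_mul μ.1 μ.2 a2.ne' a1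
          rw [div_mul_div_comm, mul_one]; push_cast; gcongr
      _ = (∑ k ∈ Ks j, (2 + Hs k) / k) * ∑ r ∈ PR (16 * j), (1 / r : ℝ) := by
          rw [sum_mul_sum, ← sum_product']
      _ ≤ C3 * j * 608 := by gcongr; exact h3 j (by omega)
      _ = _ := by ring
  set Z : ℕ → ℕ → ℝ := fun m m' => ∑ l ∈ (La j).filter (fun l => ¬ l ∣ m ∧ ¬ l ∣ m' ∧
        (l : ℤ) ∣ W m * (m' : ℤ) ^ 2 - W m' * m ^ 2), 1 / √l with hZ
  have Z0 : ∀ m m', 0 ≤ Z m m' := fun _ _ => sum_nonneg fun _ _ => by positivity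
  have m2 : ∀ m, ∑ ν ∈ Ms, (1 + Hs (ν.1 * ν.2)) * (1 + Z m (ν.1 * ν.2)) / (ν.1 * ν.2 : ℕ) ≤
      C3 * C2 * j := fun m => by
    calc _ ≤ ∑ ν ∈ Ms, (2 + Hs ν.1) / ν.1 * ((1 + ∑ l ∈ (La j).filter (fun l => ¬ l ∣ m ∧
          ¬ l ∣ ν.1 * ν.2 ∧ (l : ℤ) ∣ (W m * ν.1 ^ 2 : ℤ) * ν.2 ^ 2 - (W ν.1 * ν.2 + ν.1) * m ^ 2),
          1 / √l) / ν.2) := sum_le_sum fun ν hν => by
          obtain ⟨a0, -, -, -, a1, a2, -⟩ := ext1 hν
          have := Hs_mul ν.1 ν.2 a2.ne' a1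
          have := Z0 m (ν.1 * ν.2)
          have e : Z m (ν.1 * ν.2) = ∑ l ∈ (La j).filter (fun l => ¬ l ∣ m ∧
              ¬ l ∣ ν.1 * ν.2 ∧ (l : ℤ) ∣ (W m * ν.1 ^ 2 : ℤ) * ν.2 ^ 2 - (W ν.1 * ν.2 + ν.1) * m ^ 2),
              1 / √l := by
            simp only [hZ, a0]; push_cast; simp only [mul_pow, mul_assoc]
          rw [div_mul_div_comm, ← e]; push_cast; gcongr
      _ ≤ ∑ k ∈ Ks j, (2 + Hs k) / k * C2 := by
          rw [sum_product]
          refine sum_le_sum fun k _ => ?_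
          have := Hs_nonneg k
          simp only [← mul_sum]
          gcongr
          exact h2 j m k _ _ (by omega)
      _ ≤ C3 * j * C2 := by rw [← sum_mul]; gcongr; exact h3 j (by omega)
      _ = _ := by ring
  have E1 : ∀ μ ∈ Ms, ∑ r ∈ PR (152 * j), ∑ ν ∈ Ms, ∑ r' ∈ PR (152 * j),
      cnt j (μ.1 * μ.2 * r) (ν.1 * ν.2 * r') ≤ ∑ r ∈ PR (152 * j), (#(Pa j (μ.1 * μ.2 * r)) : ℝ) +
      (16 * x / j + 32 * x / j ^ 2 * C1 * (C3 * C2 * j)) * ((1 + Hs (μ.1 * μ.2)) / (μ.1 * μ.2 : ℕ)) := by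
    intro μ hμ
    obtain ⟨-, a1, a2, a3, -⟩ := ext1 hμ
    have v0 := Hs_nonneg (μ.1 * μ.2)
    rw [sum_comm, ← add_sum_erase _ _ hμ, add_mul, ← add_assoc]
    refine add_le_add ((h0 j _ (by omega) a1 a2 a3).trans (by gcongr; linarith)) ?_
    calc _ ≤ ∑ ν ∈ Ms.erase μ, 32 * x / j ^ 2 * C1 * ((1 + Hs (μ.1 * μ.2)) / (μ.1 * μ.2 : ℕ)) *
          ((1 + Hs (ν.1 * ν.2)) * (1 + Z (μ.1 * μ.2) (ν.1 * ν.2)) / (ν.1 * ν.2 : ℕ)) :=
          sum_le_sum fun ν hν => by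
            rw [mem_erase] at hν
            obtain ⟨-, b1, b2, -⟩ := ext1 hν.2
            have ne : μ.1 * μ.2 ≠ ν.1 * ν.2 := fun e => hν.1 (inj1 hμ hν.2 e).symm
            have w := h1 j _ _ (by omega) a1 a2 b1 b2 ne
            generalize μ.1 * μ.2 = m at *
            generalize ν.1 * ν.2 = m' at *
            calc _ ≤ ∑ r ∈ PR (152 * j), ∑ r' ∈ PR (152 * j),
                  32 * x / j ^ 2 / (m * m') * (G (m * r) (m' * r') / (r * r')) :=
                  sum_le_sum fun r hr => sum_le_sum fun r' hr' => by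
                    obtain ⟨-, d1, d2, d3, d4⟩ := ext2 a1 a2 hr
                    obtain ⟨-, f1, f2, f3, f4⟩ := ext2 b1 b2 hr'
                    refine (c1 j _ _ (by omega) d1 d2 f1 f2 fun e => ?_).trans
                      (le_of_eq (by push_cast; ring))
                    have : r = r' := by
                      rcases le_total r r' with l | l
                      · rcases (Nat.Prime.dvd_mul f3).1 (e ▸ dvd_mul_left _ _ : r' ∣ m * r) with t | t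
                        · have := Nat.le_of_dvd (by omega) t; omega
                        · exact ((Nat.prime_dvd_prime_iff_eq f3 d3).1 t).symm
                      · rcases (Nat.Prime.dvd_mul d3).1 (e ▸ dvd_mul_left _ _ : r ∣ m' * r') with t | t
                        · have := Nat.le_of_dvd (by omega) t; omega
                        · exact (Nat.prime_dvd_prime_iff_eq d3 f3).1 t
                    rw [this] at e
                    exact ne (Nat.eq_of_mul_eq_mul_right f3.pos e)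
              _ ≤ 32 * x / j ^ 2 / (m * m') * (C1 * ((1 + Hs m) * (1 + Hs m') * (1 + Z m m'))) := by
                  simp only [← mul_sum]; gcongr
              _ = _ := by ring
      _ ≤ 32 * x / j ^ 2 * C1 * ((1 + Hs (μ.1 * μ.2)) / (μ.1 * μ.2 : ℕ)) * (C3 * C2 * j) := by
          rw [← mul_sum]
          gcongr
          refine le_trans (sum_le_sum_of_subset_of_nonneg (erase_subset _ _) fun ν _ _ => ?_) (m2 _)
          have := Hs_nonneg (ν.1 * ν.2)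
          have := Z0 (μ.1 * μ.2) (ν.1 * ν.2)
          positivity
      _ = _ := by ring
  have E2 := sum_le_sum E1
  rw [sum_add_distrib, ← mul_sum] at E2
  have E3 : (16 * x / j + 32 * x / j ^ 2 * C1 * (C3 * C2 * j)) *
      ∑ μ ∈ Ms, (1 + Hs (μ.1 * μ.2)) / (μ.1 * μ.2 : ℕ) ≤ B * x :=
    calc _ ≤ (16 * x / j + 32 * x / j ^ 2 * C1 * (C3 * C2 * j)) * (608 * C3 * j) := by gcongr
      _ = _ := by rw [hB]; field_simp
  have V0 : (0 : ℝ) ≤ #V := Nat.cast_nonneg _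
  have t2 : T ^ 2 ≤ #V * (T + B * x) := by
    exact t.trans (mul_le_mul_of_nonneg_left (E2.trans (add_le_add le_rfl E3)) V0)
  have T0 : 0 < T := lt_of_lt_of_le (by positivity) T1
  have t3 : c * T ≤ #V * (c + B) := by
    refine le_of_mul_le_mul_right ?_ T0
    have : #V * (B * (c * x)) ≤ #V * (B * T) := by gcongr
    nlinarith
  rw [div_mul_eq_mul_div, le_div_iff₀ (by positivity)]
  nlinarith

end Pool.Agent.H24.Rom
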