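import Mathlib

open Finset

namespace Pool.Agent.H24.Sieve

theorem crt (U : Finset ℕ) (hU : ∀ p ∈ U, p.Prime) (g : ℕ → ℕ → ℝ) :
    ∑ s ∈ range (∏ p ∈ U, p), ∏ p ∈ U, g p (s % p) = ∏ p ∈ U, ∑ x ∈ range p, g p x := by
  rw [prod_sum]
  have hm : ∀ s, (fun p (_ : p ∈ U) => s % p) ∈ U.pi range := fun s =>
    mem_pi.2 fun p hp => mem_range.2 (Nat.mod_lt _ (hU p hp).pos)
  have hi : ∀ a ∈ range (∏ p ∈ U, p), ∀ b ∈ range (∏ p ∈ U, p),
      ((fun p (_ : p ∈ U) => a % p) = fun p (_ : p ∈ U) => b % p) → a = b := fun a ha b hb h => by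
    refine Nat.ModEq.eq_of_lt_of_lt ?_ (mem_range.1 ha) (mem_range.1 hb)
    rw [Nat.modEq_iff_dvd, Int.natCast_dvd]
    refine Finset.prod_primes_dvd _ (fun p hp => (hU p hp).prime) fun p hp => ?_
    rw [← Int.natCast_dvd, ← Nat.modEq_iff_dvd]
    exact congrFun (congrFun h p) hp
  refine sum_bij (fun s _ => fun p _ => s % p) (fun s _ => hm s) hi (fun b hb => ?_)
    fun s _ => (prod_attach _ fun p => g p (s % p)).symm
  obtain ⟨a, ha, e⟩ := surj_on_of_inj_on_of_card_le (s := range (∏ p ∈ U, p))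
    (fun s _ => fun p (_ : p ∈ U) => s % p) (fun s _ => hm s) (fun a b ha hb => hi a ha b hb)
    (by simp [card_pi]) b hb
  exact ⟨a, ha, e.symm⟩

theorem per (G : ℕ → ℝ) (M : ℕ) (hM : 0 < M) (hG : ∀ s, G (M + s) = G s) (B : ℝ)
    (hB : ∀ s, |G s| ≤ B) (N : ℕ) :
    ∑ s ∈ range N, G s ≤ N * ((∑ s ∈ range M, G s) / M) + 2 * M * B := by
  have B0 : 0 ≤ B := (abs_nonneg _).trans (hB 0)
  have M0 : (0 : ℝ) < M := by exact_mod_cast hM
  have h1 : |(∑ s ∈ range M, G s) / M| ≤ B := by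
    rw [abs_div, abs_of_pos M0, div_le_iff₀ M0]
    exact (abs_sum_le_sum_abs _ _).trans ((sum_le_sum fun s _ => hB s).trans (by simp [mul_comm]))
  induction N using Nat.strong_induction_on with
  | _ N ih =>
    rcases lt_or_ge N M with h | h
    · have : ∑ s ∈ range N, G s ≤ N * B :=
        (sum_le_sum fun s _ => (le_abs_self _).trans (hB s)).trans (by simp)
      have h' : (N : ℝ) ≤ M := by exact_mod_cast h.le
      have := (abs_le.1 h1).1
      have : (0 : ℝ) ≤ N := by positivity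
      nlinarith
    · obtain ⟨k, rfl⟩ := Nat.exists_eq_add_of_le h
      rw [sum_range_add]
      simp only [hG]
      have := ih k (by omega)
      push_cast
      rw [add_mul, mul_div_cancel₀ _ M0.ne']
      linarith

/-- Selberg-type upper bound sieve. -/
theorem sieve {ι : Type} (I : Finset ι) (D : ι → Finset ℕ) (hD : Set.InjOn D I) (Ω : ℕ → Finset ℕ)
    (Z N : ℕ) (hp : ∀ i ∈ I, ∀ p ∈ D i, p.Prime ∧ Ω p ⊆ range p ∧ #(Ω p) < p)
    (hZ : ∀ i ∈ I, ∏ p ∈ D i, p ≤ Z) (S : Finset ℕ) (hS : S ⊆ range N)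
    (hΩ : ∀ s ∈ S, ∀ i ∈ I, ∀ p ∈ D i, s % p ∉ Ω p) (L : ℝ)
    (hL : L = ∑ i ∈ I, ∏ p ∈ D i, (#(Ω p) : ℝ) / (p - #(Ω p))) :
    #S * L ^ 2 ≤ N * L + 2 * Z ^ 6 := by
  classical
  set h : ℕ → ℝ := fun p => (#(Ω p) : ℝ) / (p - #(Ω p)) with hh
  set φ : ℕ → ℕ → ℝ := fun p x => if x ∈ Ω p then -1 else h p with hφ
  have key : ∀ i ∈ I, ∀ p ∈ D i, (∀ x, |φ p x| ≤ p) ∧ ∑ x ∈ range p, φ p x = 0 ∧
      ∑ x ∈ range p, φ p x * φ p x = p * h p := fun i hi p hpi => by
    obtain ⟨h1, h2, h3⟩ := hp i hi p hpi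
    have h4 : (#(Ω p) : ℝ) + 1 ≤ p := by exact_mod_cast h3
    have h5 : (0 : ℝ) ≤ #(Ω p) := by positivity
    have h6 : (p : ℝ) - #(Ω p) ≠ 0 := by linarith
    have e1 : (range p).filter (· ∈ Ω p) = Ω p := by
      ext x; simp only [mem_filter]; exact ⟨fun h => h.2, fun h => ⟨h2 h, h⟩⟩
    have e2 : (#((range p).filter (· ∉ Ω p)) : ℝ) = p - #(Ω p) := by
      have := card_filter_add_card_filter_not (s := range p) (· ∈ Ω p)
      rw [e1, card_range] at this
      rw [eq_sub_iff_add_eq, add_comm]; exact_mod_cast this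
    refine ⟨fun x => ?_, ?_, ?_⟩
    · simp only [hφ]
      split_ifs
      · simp; exact h1.one_le
      · rw [abs_of_nonneg (div_nonneg h5 (by linarith)), div_le_iff₀ (by linarith)]; nlinarith
    · simp only [hφ, sum_ite, sum_const, nsmul_eq_mul, e1, e2, hh]; field_simp; ring
    · simp only [hφ, ite_mul, mul_ite]
      rw [sum_congr rfl (g := fun x => if x ∈ Ω p then (1 : ℝ) else h p * h p)
        fun x _ => by split_ifs <;> simp]
      simp only [sum_ite, sum_const, nsmul_eq_mul, e1, e2, hh]; field_simp; ring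
  have hI : #I ≤ Z := by
    rw [← card_image_of_injOn (f := fun i => ∏ p ∈ D i, p) fun i hi j hj e => hD hi hj (by
      rw [← Nat.primeFactors_prod fun p h => (hp i hi p h).1, ← Nat.primeFactors_prod
        fun p h => (hp j hj p h).1]; exact congrArg _ e)]
    refine (card_le_card (t := Icc 1 Z) fun x hx => ?_).trans (by simp)
    obtain ⟨i, hi, rfl⟩ := mem_image.1 hx
    exact mem_Icc.2 ⟨prod_pos fun p h => (hp i hi p h).1.pos, hZ i hi⟩
  have b1 : ∀ i ∈ I, ∀ s, |∏ p ∈ D i, φ p (s % p)| ≤ Z := fun i hi s => by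
    rw [abs_prod]
    exact (prod_le_prod (fun _ _ => abs_nonneg _) fun p h => (key i hi p h).1 _).trans
      (by rw [← Nat.cast_prod]; exact Nat.cast_le.2 (hZ i hi))
  have pair : ∀ i ∈ I, ∀ j ∈ I, ∑ s ∈ range N, (∏ p ∈ D i, φ p (s % p)) * ∏ p ∈ D j, φ p (s % p) ≤
      N * (if j = i then ∏ p ∈ D i, h p else 0) + 2 * Z ^ 4 := fun i hi j hj => by
    have hU : ∀ p ∈ D i ∪ D j, p.Prime := fun p h =>
      (mem_union.1 h).elim (fun h => (hp i hi p h).1) fun h => (hp j hj p h).1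
    have M0 : 0 < ∏ p ∈ D i ∪ D j, p := prod_pos fun p h => (hU p h).pos
    have e : ∀ s, (∏ p ∈ D i, φ p (s % p)) * ∏ p ∈ D j, φ p (s % p) = ∏ p ∈ D i ∪ D j,
        (if p ∈ D i then φ p (s % p) else 1) * if p ∈ D j then φ p (s % p) else 1 := fun s => by
      rw [prod_mul_distrib, prod_ite_mem, prod_ite_mem, union_inter_cancel_left,
        union_inter_cancel_right]
    refine (per _ _ M0 (fun s => ?_) (Z * Z) (fun s => ?_) N).trans (add_le_add ?_ ?_)
    · rw [e, e]
      refine prod_congr rfl fun p h => ?_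
      rw [Nat.add_mod, Nat.mod_eq_zero_of_dvd (dvd_prod_of_mem _ h), zero_add, Nat.mod_mod]
    · rw [abs_mul]; exact mul_le_mul (b1 i hi s) (b1 j hj s) (abs_nonneg _) (by positivity)
    · simp only [e]
      rw [crt _ hU fun p x => (if p ∈ D i then φ p x else 1) * if p ∈ D j then φ p x else 1]
      refine le_of_eq (congrArg _ ?_)
      split_ifs with hij
      · subst hij
        rw [union_self, prod_congr rfl (g := fun p : ℕ => (p : ℝ) * h p) fun p hp => by
          simp only [if_pos hp]; exact (key j hi p hp).2.2, prod_mul_distrib, Nat.cast_prod,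
          mul_div_cancel_left₀]
        rw [union_self] at M0; rw [← Nat.cast_prod]; exact Nat.cast_ne_zero.2 M0.ne'
      · have : ∃ p, ¬ (p ∈ D j ↔ p ∈ D i) := by
          by_contra hc; push Not at hc; exact hij (hD hj hi (Finset.ext hc))
        obtain ⟨p, hc⟩ := this
        rw [prod_eq_zero (i := p), zero_div]
        · rw [mem_union]; tauto
        · by_cases h1 : p ∈ D i
          · simp only [if_pos h1, if_neg (show p ∉ D j by tauto), mul_one]; exact (key i hi p h1).2.1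
          · simp only [if_neg h1, if_pos (show p ∈ D j by tauto), one_mul]
            exact (key j hj p (by tauto)).2.1
    · have : ∏ p ∈ D i ∪ D j, p ≤ Z * Z := by
        refine le_trans ?_ (Nat.mul_le_mul (hZ i hi) (hZ j hj))
        rw [← prod_union_inter]
        exact Nat.le_mul_of_pos_right _ (prod_pos fun p h => (hp i hi p (mem_inter.1 h).1).1.pos)
      have : ((∏ p ∈ D i ∪ D j, p : ℕ) : ℝ) ≤ Z * Z := by exact_mod_cast this
      calc _ ≤ 2 * ((Z : ℝ) * Z) * (Z * Z) := by gcongr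
        _ = _ := by ring
  calc #S * L ^ 2 = ∑ s ∈ S, (∑ i ∈ I, ∏ p ∈ D i, φ p (s % p)) ^ 2 := by
        rw [sum_congr rfl (g := fun _ => L ^ 2), sum_const, nsmul_eq_mul]
        intro s hs
        rw [hL]
        refine congrArg (· ^ 2) (sum_congr rfl fun i hi => prod_congr rfl fun p h => ?_)
        simp only [hφ, if_neg (hΩ s hs i hi p h)]
    _ ≤ ∑ s ∈ range N, (∑ i ∈ I, ∏ p ∈ D i, φ p (s % p)) ^ 2 :=
        sum_le_sum_of_subset_of_nonneg hS fun _ _ _ => sq_nonneg _
    _ = ∑ i ∈ I, ∑ j ∈ I, ∑ s ∈ range N, (∏ p ∈ D i, φ p (s % p)) * ∏ p ∈ D j, φ p (s % p) := by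
        simp only [sq, sum_mul_sum]
        rw [sum_comm]; exact sum_congr rfl fun i _ => sum_comm
    _ ≤ ∑ i ∈ I, ∑ j ∈ I, (N * (if j = i then ∏ p ∈ D i, h p else 0) + 2 * (Z : ℝ) ^ 4) :=
        sum_le_sum fun i hi => sum_le_sum fun j hj => pair i hi j hj
    _ = N * L + #I * (#I * (2 * (Z : ℝ) ^ 4)) := by
        simp only [sum_add_distrib, ← mul_sum, sum_const, nsmul_eq_mul, hL]
        rw [sum_congr rfl (g := fun i => ∏ p ∈ D i, h p) fun i hi => by simp [hi]]
        ring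
    _ ≤ N * L + Z * (Z * (2 * (Z : ℝ) ^ 4)) := by
        have : (#I : ℝ) ≤ Z := by exact_mod_cast hI
        gcongr
    _ = _ := by ring

/-- Partial sums of a multiplicative function against sums over sets of primes. -/
theorem mult_le (g : ArithmeticFunction ℝ) (hg : g.IsMultiplicative) (H : ℕ → ℝ)
    (h0 : ∀ p k, p.Prime → 0 ≤ g (p ^ k)) (hH : ∀ p K, p.Prime → ∑ k ∈ Ico 1 K, g (p ^ k) ≤ H p)
    (z : ℕ) : ∑ m ∈ Ioc 0 z, g m ≤
      ∑ D ∈ ((range (z + 1)).filter Nat.Prime).powerset with ∏ p ∈ D, p ≤ z, ∏ p ∈ D, H p := by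
  rw [← sum_fiberwise_of_maps_to (g := Nat.primeFactors) (t := (((range (z + 1)).filter
    Nat.Prime).powerset).filter fun D => ∏ p ∈ D, p ≤ z)]
  · refine sum_le_sum fun D hD => ?_
    have hP : ∀ p ∈ D, p.Prime := fun p h => (mem_filter.1 (mem_powerset.1 (mem_filter.1 hD).1 h)).2
    refine le_trans ?_ (prod_le_prod (fun p h => sum_nonneg fun k _ => h0 p k (hP p h))
      fun p h => hH p (z + 1) (hP p h))
    rw [prod_sum]
    have hi : Set.InjOn (fun (m : ℕ) p (_ : p ∈ D) => m.factorization p)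
        ((Ioc 0 z).filter fun m => m.primeFactors = D) := fun a ha b hb e => by
      simp only [coe_filter, mem_Ioc, Set.mem_ofPred_eq] at ha hb
      refine Nat.eq_of_factorization_eq (by omega) (by omega) fun p => ?_
      by_cases h : p ∈ D
      · exact congrFun (congrFun e p) h
      · rw [Finsupp.notMem_support_iff.1 (by simpa [ha.2] using h),
          Finsupp.notMem_support_iff.1 (by simpa [hb.2] using h)]
    refine le_trans (le_of_eq ?_) (sum_le_sum_of_subset_of_nonneg (s := image (fun (m : ℕ) p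
      (_ : p ∈ D) => m.factorization p) ((Ioc 0 z).filter fun m => m.primeFactors = D)) ?_
      fun f _ _ => prod_nonneg fun p _ => h0 _ _ (hP _ p.2))
    · rw [sum_image hi]
      refine sum_congr rfl fun m hm => ?_
      simp only [mem_filter, mem_Ioc] at hm
      rw [hg.multiplicative_factorization _ hm.1.1.ne', Finsupp.prod, Nat.support_factorization,
        hm.2, prod_attach D fun p => g (p ^ m.factorization p)]
    · intro f hf
      obtain ⟨m, hm, rfl⟩ := mem_image.1 hf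
      simp only [mem_filter, mem_Ioc] at hm
      refine mem_pi.2 fun p h => mem_Ico.2 ⟨?_, ?_⟩
      · exact (hP p h).factorization_pos_of_dvd hm.1.1.ne' (Nat.dvd_of_mem_primeFactors (hm.2 ▸ h))
      · have := Nat.factorization_lt p hm.1.1.ne'; omega
  · intro m hm
    rw [mem_Ioc] at hm
    refine mem_filter.2 ⟨mem_powerset.2 fun p h => mem_filter.2 ⟨mem_range.2 ?_,
      Nat.prime_of_mem_primeFactors h⟩, (Nat.le_of_dvd hm.1 (Nat.prod_primeFactors_dvd m)).trans hm.2⟩
    have := Nat.le_of_mem_primeFactors h; omega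

end Pool.Agent.H24.Sieve
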