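import Mathlib

namespace Pool.Agent.H24.Sq2

theorem nosq {d e a b : ℕ} (hd : d % 4 = 3) (hc : d.Coprime e) : d * e ≠ a ^ 2 + b ^ 2 := fun h => by
  have d0 : d ≠ 0 := by omega
  have e0 : e ≠ 0 := by rintro rfl; simp at hc; omega
  have H := Nat.eq_sq_add_sq_iff.1 ⟨a, b, h⟩
  obtain ⟨x, y, hxy⟩ := (Nat.eq_sq_add_sq_iff (n := d)).2 fun q hq h3 => by
    have hp := Nat.prime_of_mem_primeFactors hq
    have hqd := Nat.dvd_of_mem_primeFactors hq
    have := Fact.mk hp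
    have := H q (Nat.mem_primeFactors.2 ⟨hp, hqd.mul_right _, mul_ne_zero d0 e0⟩) h3
    rwa [padicValNat.mul d0 e0, padicValNat.eq_zero_of_not_dvd (n := e)
      ((Nat.Prime.coprime_iff_not_dvd hp).1 (hc.coprime_dvd_left hqd)), add_zero] at this
  have k : ∀ z : ℕ, z ^ 2 % 4 = 0 ∨ z ^ 2 % 4 = 1 := fun z => by
    rw [Nat.pow_mod]; have : z % 4 < 4 := Nat.mod_lt _ (by norm_num)
    interval_cases z % 4 <;> simp
  have := k x; have := k y; omega

def chk (L : List ℕ) (m : ℕ) : Bool := L.any fun p =>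
  (m.gcd (p ^ 20) % 4 == 3 || m / m.gcd (p ^ 20) % 4 == 3) &&
    (m.gcd (p ^ 20)).gcd (m / m.gcd (p ^ 20)) == 1

theorem chk_ne {L : List ℕ} {m : ℕ} (h : chk L m = true) (a b : ℕ) : m ≠ a ^ 2 + b ^ 2 := by
  simp only [chk, List.any_eq_true, Bool.and_eq_true, Bool.or_eq_true, beq_iff_eq] at h
  obtain ⟨p, -, h, hc⟩ := h
  have e := Nat.mul_div_cancel' (Nat.gcd_dvd_left m (p ^ 20))
  rcases h with h | h
  · exact e ▸ nosq h hc
  · exact e ▸ mul_comm (m / _) _ ▸ nosq h (Nat.Coprime.symm hc)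

end Pool.Agent.H24.Sq2
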