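import Pool.Agent.H4.Stein3

set_option autoImplicit false

namespace Pool.Agent.H24.St5

open Finset MeasureTheory Metric Pool.Agent.H4.Stein
open scoped RealInnerProductSpace ENNReal

def al : Fin 4 → Fin 5 → ℤ := ![![-70, -70, 70, 70, 0], ![-130, -130, 110, 110, 40],
  ![-130, -104, 110, 93, 31], ![-104, -130, 93, 110, 31]]
def be : Fin 4 → Fin 5 → ℤ := ![![70, -70, 70, -70, 0], ![30, -30, 50, -50, 0],
  ![30, -54, 50, -60, 34], ![54, -30, 60, -50, -34]]

def ok (c : Fin 4) (T : Finset (Fin 5)) : Prop :=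
  (∑ j ∈ T, al c j) ^ 2 + 3 * (∑ j ∈ T, be c j) ^ 2 ≤ 19600

instance (c : Fin 4) (T : Finset (Fin 5)) : Decidable (ok c T) := by unfold ok; infer_instance

def lam (T T' : Finset (Fin 5)) : Prop := T ⊆ T' ∨ T' ⊆ T ∨ Disjoint T T'

instance (T T' : Finset (Fin 5)) : Decidable (lam T T') := by unfold lam; infer_instance

set_option synthInstance.maxSize 4096 in
theorem brute : ∀ T0, ¬ ok 0 T0 → ∀ T1, ¬ ok 1 T1 → lam T0 T1 → ∀ T2, ¬ ok 2 T2 → lam T0 T2 →
    lam T1 T2 → ∀ T3, ¬ ok 3 T3 → lam T0 T3 → lam T1 T3 → lam T2 T3 → False := by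
  decide +kernel

theorem comb (L : Finset (Finset (Fin 5))) (hL : Lam L) : ∃ c, ∀ T ∈ L, ok c T := by
  by_contra h
  push Not at h
  choose T hT h using h
  exact brute _ (h 0) _ (h 1) (hL _ (hT _) _ (hT _)) _ (h 2) (hL _ (hT _) _ (hT _))
    (hL _ (hT _) _ (hT _)) _ (h 3) (hL _ (hT _) _ (hT _)) (hL _ (hT _) _ (hT _))
    (hL _ (hT _) _ (hT _))

noncomputable def v (c : Fin 4) (j : Fin 5) : P2 := !₂[1 / 140 * al c j, √3 / 140 * be c j]

theorem v_sum (c : Fin 4) (T : Finset (Fin 5)) :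
    ∑ j ∈ T, v c j = !₂[(1 / 140 : ℝ) * ((∑ j ∈ T, al c j : ℤ) : ℝ),
      √3 / 140 * ((∑ j ∈ T, be c j : ℤ) : ℝ)] := by
  induction T using Finset.induction_on with
  | empty => ext i; fin_cases i <;> simp
  | insert k T hk ih =>
    rw [sum_insert hk, sum_insert hk, sum_insert hk, ih]
    ext i; fin_cases i <;> simp [v] <;> ring

theorem v_norm (c : Fin 4) (T : Finset (Fin 5)) (h : ok c T) : ‖∑ j ∈ T, v c j‖ ≤ 1 := by
  rw [v_sum]
  refine norm_le _ _ ?_
  have : (((∑ j ∈ T, al c j : ℤ) : ℝ)) ^ 2 + 3 * ((∑ j ∈ T, be c j : ℤ) : ℝ) ^ 2 ≤ 19600 := by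
    exact_mod_cast h
  rw [mul_pow, mul_pow, div_pow, div_pow, s3]; linarith

theorem v_le (c : Fin 4) (j : Fin 5) : ‖v c j‖ ≤ 1 := by
  have := v_norm c {j} (by revert c j; decide)
  simpa using this

theorem lower (W : Set P2) (hW : IsConnected W) (p : Fin 5 → P2) (hp : ∀ j, p j ∈ W)
    (h : ∀ c, 14 ≤ ∑ j, ⟪v c j, p j⟫) : ENNReal.ofReal 14 ≤ Measure.hausdorffMeasure 1 W := by
  refine calib W hW p hp _ fun L hL => ?_
  obtain ⟨c, hc⟩ := comb L hL
  refine ⟨v c, ?_, fun T hT => v_norm c T (hc T hT), h c⟩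
  rw [v_sum, (show ∀ c, ∑ j, al c j = 0 by decide) c, (show ∀ c, ∑ j, be c j = 0 by decide) c]
  ext i; fin_cases i <;> simp

noncomputable def pt (t : ℝ) : Fin 5 → P2 :=
  ![!₂[-2, √3], !₂[-2, -√3], !₂[3, 2 * √3], !₂[3, -(2 * √3)], !₂[t, 0]]

theorem val (c : Fin 4) (t : ℝ) : ∑ j, ⟪v c j, pt t j⟫ =
    ![14, 14 + 2 / 7 * t, 1989 / 140 + 31 / 140 * t, 1989 / 140 + 31 / 140 * t] c := by
  fin_cases c <;> simp [Fin.sum_univ_five, v, inner2, pt, al, be] <;> nlinarith [s3]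

theorem lowerA (W : Set P2) (hW : IsConnected W) (h : Set.range (pt 0) ⊆ W) :
    ENNReal.ofReal 14 ≤ Measure.hausdorffMeasure 1 W := by
  refine lower W hW (pt 0) (fun j => h ⟨j, rfl⟩) fun c => ?_
  rw [val]; fin_cases c <;> simp <;> norm_num

noncomputable def q (j : Fin 5) : P2 := pt 1 j + (1 / 100 : ℝ) • v 0 j

theorem dist_q (j : Fin 5) : dist (q j) (pt 1 j) ≤ 1 / 100 := by
  rw [dist_eq_norm, q, add_sub_cancel_left, norm_smul]
  have := v_le 0 j
  norm_num
  linarith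

theorem v0 (j : Fin 5) : ‖v 0 j‖ ^ 2 = 1 ∨ v 0 j = 0 := by
  by_cases h : j = 4
  · right; subst h; ext i; fin_cases i <;> simp [v, al, be]
  · left
    rw [EuclideanSpace.norm_eq, Real.sq_sqrt (by positivity)]
    fin_cases j <;> simp [v, al, be, mul_pow, div_pow] at h ⊢ <;> norm_num

theorem lowerM (W : Set P2) (hW : IsConnected W) (p : Fin 5 → P2) (hp : ∀ j, p j ∈ W)
    (h : ∀ j, dist (q j) (p j) ≤ 1 / 100) :
    ENNReal.ofReal 14 ≤ Measure.hausdorffMeasure 1 W := by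
  refine lower W hW p hp fun c => ?_
  have hsplit : ∑ j, ⟪v c j, p j⟫ = ∑ j, ⟪v c j, pt 1 j⟫ + ∑ j, ⟪v c j, p j - pt 1 j⟫ := by
    rw [← sum_add_distrib]
    exact sum_congr rfl fun j _ => by rw [inner_sub_right]; ring
  rw [hsplit, val]
  by_cases hc : c = 0
  · subst hc
    have : 0 ≤ ∑ j, ⟪v 0 j, p j - pt 1 j⟫ := by
      refine sum_nonneg fun j _ => ?_
      rcases v0 j with h1 | h1
      · have h2 := h j
        rw [dist_comm, dist_eq_norm, q, ← sub_sub] at h2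
        have h3 := pow_le_pow_left₀ (norm_nonneg _) h2 2
        rw [norm_sub_sq_real, norm_smul, mul_pow, h1, inner_smul_right, real_inner_comm] at h3
        norm_num at h3
        nlinarith [sq_nonneg ‖p j - pt 1 j‖]
      · rw [h1, inner_zero_left]
    simp; linarith
  · have : ∀ j, -(1 / 50 : ℝ) ≤ ⟪v c j, p j - pt 1 j⟫ := by
      intro j
      have h1 := abs_real_inner_le_norm (v c j) (p j - pt 1 j)
      have h2 : ‖p j - pt 1 j‖ ≤ 1 / 50 := by
        rw [← dist_eq_norm]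
        have := dist_triangle_left (p j) (pt 1 j) (q j)
        linarith [h j, dist_q j]
      have h3 := mul_le_mul (v_le c j) h2 (norm_nonneg _) zero_le_one
      linarith [neg_abs_le ⟪v c j, p j - pt 1 j⟫]
    have h4 := sum_le_sum fun j (_ : j ∈ (univ : Finset (Fin 5))) => this j
    simp only [sum_const, card_univ, Fintype.card_fin, nsmul_eq_mul] at h4
    generalize ∑ j, ⟪v c j, p j - pt 1 j⟫ = z at h4 ⊢
    fin_cases c <;> simp at hc ⊢ <;> norm_num at h4 ⊢ <;> linarith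

noncomputable def SS : Set P2 :=
  st !₂[-2, √3] !₂[-2, -√3] !₂[3, 2 * √3] !₂[3, -(2 * √3)] !₂[-1, 0] !₂[1, 0]
noncomputable def T1 : Set P2 :=
  st !₂[-2, √3] !₂[3, 2 * √3] !₂[0, 0] !₂[0, 0] !₂[-1 / 7, 4 * √3 / 7] !₂[0, 0]
noncomputable def T2 : Set P2 :=
  st !₂[-2, -√3] !₂[3, -(2 * √3)] !₂[0, 0] !₂[0, 0] !₂[-1 / 7, -(4 * √3 / 7)] !₂[0, 0]

theorem SS_meas : Measure.hausdorffMeasure 1 SS ≤ ENNReal.ofReal 14 := by
  refine (st_meas _ _ _ _ _ _).trans (le_of_eq ?_)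
  rw [dist_of _ _ _ _ 2 (by positivity) (by nlinarith [s3]),
    dist_of _ _ _ _ 2 (by positivity) (by nlinarith [s3]),
    dist_of _ _ _ _ 2 (by positivity) (by nlinarith [s3]),
    dist_of _ _ _ _ 4 (by positivity) (by nlinarith [s3]),
    dist_of _ _ _ _ 4 (by positivity) (by nlinarith [s3])]
  congr 1; ring

theorem T_meas : Measure.hausdorffMeasure 1 (T1 ∪ T2) ≤ ENNReal.ofReal 14 := by
  refine (measure_union_le _ _).trans ((add_le_add (st_meas _ _ _ _ _ _)
    (st_meas _ _ _ _ _ _)).trans (le_of_eq ?_))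
  rw [dist_self, dist_of _ _ _ _ 2 (by positivity) (by nlinarith [s3]),
    dist_of _ _ _ _ 4 (by positivity) (by nlinarith [s3]),
    dist_of _ _ _ _ 1 (by positivity) (by nlinarith [s3]),
    dist_of _ _ _ _ 2 (by positivity) (by nlinarith [s3]),
    dist_of _ _ _ _ 4 (by positivity) (by nlinarith [s3]),
    dist_of _ _ _ _ 1 (by positivity) (by nlinarith [s3]),
    ← ENNReal.ofReal_add (by norm_num) (by norm_num)]
  congr 1; ring

theorem mem_SS (t : ℝ) (h : -1 ≤ t) (h' : t ≤ 1) (j : Fin 5) : pt t j ∈ SS := by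
  fin_cases j
  · simp [pt, SS, st, right_mem_segment]
  · simp [pt, SS, st, right_mem_segment]
  · simp [pt, SS, st, right_mem_segment]
  · simp [pt, SS, st, right_mem_segment]
  · refine Or.inl (Or.inl (Or.inr ⟨(1 - t) / 2, (1 + t) / 2, by linarith, by linarith, by ring, ?_⟩))
    ext i; fin_cases i <;> simp [pt]; ring

theorem mem_T (j : Fin 5) : pt 0 j ∈ T1 ∪ T2 := by
  fin_cases j <;> simp [pt, T1, T2, st, right_mem_segment]

def Q (z : P2) : Prop := 9 / 10 ≤ z 1 ∨ z 1 ≤ -(9 / 10) ∨ (z 0 ≤ 0 ∧ z 1 ^ 2 = 48 * z 0 ^ 2)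

theorem T_Q (z : P2) (hz : z ∈ T1 ∪ T2) : Q z := by
  have := s3l
  rcases hz with ((((h | h) | h) | h) | h) | ((((h | h) | h) | h) | h) <;>
    obtain ⟨a, b, ha, hb, hab, rfl⟩ := h
  · left; simp; nlinarith
  · left; simp; nlinarith
  · right; right; simp; constructor <;> nlinarith [s3]
  · right; right; simp
  · right; right; simp
  · right; left; simp; nlinarith
  · right; left; simp; nlinarith
  · right; right; simp; constructor <;> nlinarith [s3]
  · right; right; simp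
  · right; right; simp

theorem T_corner (x y : P2) (hxy : x ≠ y) (h : segment ℝ x y ⊆ T1 ∪ T2)
    (h0 : (!₂[0, 0] : P2) ∈ openSegment ℝ x y) : False := by
  have hz : (!₂[0, 0] : P2) = 0 := by ext i; fin_cases i <;> simp
  rw [hz] at h0
  have hs := openSegment_subset_segment ℝ x y h0
  set t : ℝ := 1 / (2 * (1 + |x 1| + |y 1|)) with ht
  have hp : 0 < 1 + |x 1| + |y 1| := by positivity
  have ht0 : 0 < t := by positivity
  have ht1 : t * (2 * (1 + |x 1| + |y 1|)) = 1 := by rw [ht]; field_simp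
  have key : ∀ u : P2, u ∈ segment ℝ x y → |u 1| ≤ |x 1| + |y 1| →
      u 0 ≤ 0 ∧ u 1 ^ 2 = 48 * u 0 ^ 2 := by
    intro u hu hb
    have h1 : (1 - t) • (0 : P2) + t • u ∈ segment ℝ x y :=
      convex_segment x y hs hu (by nlinarith [abs_nonneg (x 1), abs_nonneg (y 1)]) ht0.le (by ring)
    have h2 := T_Q _ (h h1)
    have h3 := abs_le.1 hb
    simp only [Q, smul_zero, zero_add, PiLp.smul_apply, smul_eq_mul] at h2
    rcases h2 with h2 | h2 | ⟨h2, h4⟩
    · nlinarith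
    · nlinarith
    · refine ⟨by nlinarith, ?_⟩
      have : t ^ 2 * (u 1 ^ 2 - 48 * u 0 ^ 2) = 0 := by linear_combination h4
      rcases mul_eq_zero.1 this with h5 | h5
      · exact absurd h5 (by positivity)
      · linarith
  obtain ⟨a1, a2⟩ := key x (left_mem_segment _ _ _) (by linarith [abs_nonneg (y 1)])
  obtain ⟨b1, b2⟩ := key y (right_mem_segment _ _ _) (by linarith [abs_nonneg (x 1)])
  obtain ⟨a, b, ha, hb, -, he⟩ := h0
  have e0 := congrArg (fun p : P2 => p 0) he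
  simp at e0
  have x0 : x 0 = 0 := by nlinarith
  have y0 : y 0 = 0 := by nlinarith
  rw [x0] at a2; rw [y0] at b2
  apply hxy
  ext i; fin_cases i
  · simp [x0, y0]
  · simp only [Fin.mk_one]
    have : x 1 = 0 := by nlinarith
    have : y 1 = 0 := by nlinarith
    linarith

def K (σ τ : ℝ) (P : P2) : Set P2 := {z | σ * z 0 + τ * z 1 < σ * P 0 + τ * P 1 ∨ z = P}

theorem K_convex (σ τ : ℝ) (P : P2) : Convex ℝ (K σ τ P) := by
  intro x hx y hy a b ha hb hab
  simp only [K, Set.mem_ofPred_eq, PiLp.add_apply, PiLp.smul_apply, smul_eq_mul] at *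
  rcases ha.eq_or_lt with rfl | ha'
  · have : b = 1 := by linarith
    subst this; simpa using hy
  rcases hb.eq_or_lt with rfl | hb'
  · have : a = 1 := by linarith
    subst this; simpa using hx
  obtain rfl : b = 1 - a := by linarith
  rcases hx with hx | rfl <;> rcases hy with hy | hy
  · left; nlinarith
  · left; rw [hy]; nlinarith
  · left; nlinarith
  · right; rw [hy, ← add_smul]; simp

theorem K_ext (σ τ : ℝ) (P x y : P2) (hxy : x ≠ y) (h : segment ℝ x y ⊆ K σ τ P)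
    (h0 : P ∈ openSegment ℝ x y) : False := by
  obtain ⟨a, b, ha, hb, hab, he⟩ := h0
  have e0 := congrArg (fun p : P2 => p 0) he
  have e1 := congrArg (fun p : P2 => p 1) he
  simp only [PiLp.add_apply, PiLp.smul_apply, smul_eq_mul] at e0 e1
  obtain rfl : b = 1 - a := by linarith
  have e : a * (σ * x 0 + τ * x 1) + (1 - a) * (σ * y 0 + τ * y 1) = σ * P 0 + τ * P 1 := by
    rw [← e0, ← e1]; ring
  rcases h (left_mem_segment _ _ _) with hx | hx <;> rcases h (right_mem_segment _ _ _) with hy | hy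
  · nlinarith
  · rw [hy] at e; nlinarith
  · rw [hx] at e; nlinarith
  · exact hxy (hx.trans hy.symm)

theorem SS_K : SS ⊆ K (-1) 1 (pt 0 0) ∧ SS ⊆ K (-1) (-1) (pt 0 1) ∧ SS ⊆ K 1 1 (pt 0 2) ∧
    SS ⊆ K 1 (-1) (pt 0 3) := by
  have := s3l
  have := s3u
  refine ⟨?_, ?_, ?_, ?_⟩ <;> refine st_sub _ _ _ _ _ _ _ (K_convex _ _ _) ?_ ?_ ?_ ?_ ?_ ?_ <;>
    first
    | exact Or.inr rfl
    | (left; simp [pt]; try linarith)

theorem pt_inj : Function.Injective (pt 0) := by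
  have := s3l
  intro i j h
  have e0 := congrArg (fun p : P2 => p 0) h
  have e1 := congrArg (fun p : P2 => p 1) h
  fin_cases i <;> fin_cases j <;> simp [pt] at e0 e1 ⊢ <;> linarith

theorem q_inj : Function.Injective q := by
  have := s3l
  intro i j h
  have e0 := congrArg (fun p : P2 => p 0) h
  have e1 := congrArg (fun p : P2 => p 1) h
  fin_cases i <;> fin_cases j <;> simp [q, pt, v, al, be] at e0 e1 ⊢ <;> linarith

theorem ne_ST : SS ≠ T1 ∪ T2 := by
  intro h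
  have := T_Q _ (h ▸ mem_SS 1 (by norm_num) le_rfl 4)
  simp [Q, pt] at this
  norm_num at this

end Pool.Agent.H24.St5
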