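import Mathlib

set_option autoImplicit false

namespace Pool.Agent.H24

open Set Filter Topology

lemma condens (K : Set (ℕ → Bool)) (hK : ¬ K.Countable) :
    ∃ P ⊆ K, P.Nonempty ∧ ∀ y ∈ P, ∀ m : ℕ, ∃ z ∈ P, z ≠ y ∧ ∀ i < m, z i = y i := by
  set P := {y ∈ K | ∀ m : ℕ, ¬ {z ∈ K | ∀ i < m, z i = y i}.Countable} with hP
  have hc : (K \ P).Countable := by
    have : K \ P ⊆ ⋃ m : ℕ, ⋃ s : Fin m → Bool,
        {y | y ∈ {z ∈ K | ∀ i : Fin m, z i = s i} ∧ {z ∈ K | ∀ i : Fin m, z i = s i}.Countable} := by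
      rintro y ⟨hy, hn⟩
      simp only [hP, mem_ofPred_eq, hy, true_and, not_forall, not_not] at hn
      obtain ⟨m, hm⟩ := hn
      simp only [mem_iUnion]
      refine ⟨m, fun i => y i, ⟨hy, fun _ => rfl⟩, hm.mono ?_⟩
      rintro z ⟨hz, h⟩
      exact ⟨hz, fun i hi => h ⟨i, hi⟩⟩
    refine Set.Countable.mono this (countable_iUnion fun m => countable_iUnion fun s => ?_)
    by_cases h : {z ∈ K | ∀ i : Fin m, z i = s i}.Countable
    · exact h.mono (fun y hy => hy.1)
    · exact countable_empty.mono (fun y hy => h hy.2)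
  refine ⟨P, fun y hy => hy.1, ?_, ?_⟩
  · by_contra h
    rw [not_nonempty_iff_eq_empty] at h
    rw [h, sdiff_empty] at hc
    exact hK hc
  · intro y hy m
    by_contra h
    apply hy.2 m
    refine (hc.union (countable_singleton y)).mono ?_
    rintro z ⟨hz, hz2⟩
    by_cases h1 : z ∈ P
    · right
      by_contra h2
      exact h ⟨z, h1, h2, hz2⟩
    · exact Or.inl ⟨hz, h1⟩

lemma agree_set (x : ℕ → ℝ) (hx : ∀ n, 0 < x n) (hs : Summable x) (K : Set (ℕ → Bool))
    (hcl : IsClosed K) (hK : ¬ K.Countable) :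
    ∃ (c : Bool) (j : ℕ → ℕ) (g : (ℕ → Bool) → (ℕ → Bool)), StrictMono j ∧
      (∀ n, x (j (n + 1)) ≤ x (j n) / 3) ∧ Function.Injective g ∧
      ∀ a, g a ∈ K ∧ ∀ n, g a (j n) = c := by
  classical
  set U := hyperfilter ℕ with hU
  obtain ⟨c, hc⟩ : ∃ c : Bool, ¬ {y ∈ K | ∀ᶠ i in (U : Filter ℕ), y i = c}.Countable := by
    by_contra h
    push Not at h
    apply hK
    refine ((h true).union (h false)).mono ?_
    intro y hy
    rcases U.em (fun i => y i = true) with h1 | h1
    · exact Or.inl ⟨hy, h1⟩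
    · exact Or.inr ⟨hy, h1.mono fun i hi => by simpa using hi⟩
  obtain ⟨P, hPK, ⟨y0, hy0⟩, hP⟩ := condens _ hc
  choose! nb hnb using hP
  have pick : ∀ (F : Finset (ℕ → Bool)) (j : ℕ), ∃ j', j < j' ∧ x j' ≤ x j / 3 ∧
      ((∀ y ∈ F, y ∈ P) → ∀ y ∈ F, y j' = c) := by
    intro F j
    have h1 : ∀ᶠ i in (U : Filter ℕ), j < i :=
      (Nat.hyperfilter_le_atTop) (eventually_gt_atTop j)
    have h2 : ∀ᶠ i in (U : Filter ℕ), x i ≤ x j / 3 :=
      (Nat.hyperfilter_le_atTop) (hs.tendsto_atTop_zero.eventually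
        (eventually_le_nhds (by have := hx j; positivity)))
    have h3 : ∀ᶠ i in (U : Filter ℕ), (∀ y ∈ F, y ∈ P) → ∀ y ∈ F, y i = c := by
      by_cases h : ∀ y ∈ F, y ∈ P
      · have := (F.eventually_all (l := (U : Filter ℕ)) (p := fun y i => y i = c)).mpr
          (fun y hy => (hPK (h y hy)).2)
        exact this.mono fun i hi _ => hi
      · exact Eventually.of_forall fun i hi => absurd hi h
    obtain ⟨i, hi⟩ := (h1.and (h2.and h3)).exists
    exact ⟨i, hi⟩
  choose pk hpk using pick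
  let st : ℕ → Finset (ℕ → Bool) × ℕ := fun n => Nat.rec ({y0}, pk {y0} 0)
    (fun _ s => (s.1 ∪ s.1.image (fun y => nb y (s.2 + 1)),
      pk (s.1 ∪ s.1.image (fun y => nb y (s.2 + 1))) s.2)) n
  let F : ℕ → Finset (ℕ → Bool) := fun n => (st n).1
  let j : ℕ → ℕ := fun n => (st n).2
  have F0 : F 0 = {y0} := rfl
  have j0 : j 0 = pk (F 0) 0 := rfl
  have FS : ∀ n, F (n + 1) = F n ∪ (F n).image (fun y => nb y (j n + 1)) := fun n => rfl
  have jS : ∀ n, j (n + 1) = pk (F (n + 1)) (j n) := fun n => rfl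
  have jm : StrictMono j := strictMono_nat_of_lt_succ fun n => by rw [jS]; exact (hpk _ _).1
  have FP : ∀ n, ∀ y ∈ F n, y ∈ P := by
    intro n
    induction n with
    | zero => intro y hy; rw [F0, Finset.mem_singleton] at hy; exact hy ▸ hy0
    | succ n ih =>
      intro y hy
      rw [FS, Finset.mem_union, Finset.mem_image] at hy
      rcases hy with hy | ⟨z, hz, rfl⟩
      · exact ih y hy
      · exact (hnb z (ih z hz) _).1
  have Fm : Monotone F := monotone_nat_of_le_succ fun n => by
    rw [FS]; exact Finset.subset_union_left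
  have Fc : ∀ n, ∀ i ≤ n, ∀ y ∈ F n, y (j i) = c := by
    intro n
    induction n with
    | zero =>
      intro i hi y hy
      rw [Nat.le_zero.mp hi, j0]
      exact (hpk _ _).2.2 (FP 0) y hy
    | succ n ih =>
      intro i hi y hy
      rcases Nat.le_succ_iff.mp hi with hi | rfl
      · rw [FS, Finset.mem_union, Finset.mem_image] at hy
        rcases hy with hy | ⟨z, hz, rfl⟩
        · exact ih i hi y hy
        · rw [(hnb z (FP n z hz) _).2.2 _ (Nat.lt_succ_of_le (jm.monotone hi))]
          exact ih i hi z hz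
      · rw [jS]; exact (hpk _ _).2.2 (FP (n + 1)) y hy
  set D : Set (ℕ → Bool) := ⋃ n, (F n : Set (ℕ → Bool)) with hD
  have pre : Preperfect D := by
    intro y hy
    obtain ⟨n, hn⟩ := mem_iUnion.mp hy
    rw [accPt_iff_frequently]
    have ht : Tendsto (fun k => nb y (j (k + n) + 1)) atTop (𝓝 y) := by
      rw [tendsto_pi_nhds]
      intro i
      refine tendsto_const_nhds.congr' ?_
      filter_upwards [eventually_ge_atTop i] with k hk
      refine ((hnb y (FP n y hn) _).2.2 i ?_).symm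
      have := jm.le_apply (x := k + n)
      omega
    refine ht.frequently (Frequently.of_forall fun k => ⟨(hnb y (FP n y hn) _).2.1, ?_⟩)
    refine mem_iUnion.mpr ⟨k + n + 1, ?_⟩
    rw [FS, Finset.mem_coe, Finset.mem_union, Finset.mem_image]
    exact Or.inr ⟨y, Fm (Nat.le_add_left n k) hn, rfl⟩
  have sub : closure D ⊆ K ∩ ⋂ n, {y | y (j n) = c} := by
    apply closure_minimal
    · intro y hy
      obtain ⟨n, hn⟩ := mem_iUnion.mp hy
      refine ⟨(hPK (FP n y hn)).1, mem_iInter.mpr fun i => ?_⟩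
      exact Fc (max n i) i (le_max_right _ _) y (Fm (le_max_left _ _) hn)
    · exact hcl.inter (isClosed_iInter fun n =>
        isClosed_eq (continuous_apply _) continuous_const)
  let _ := TopologicalSpace.upgradeIsCompletelyMetrizable (ℕ → Bool)
  obtain ⟨g, hg, -, hi⟩ := pre.perfect_closure.exists_nat_bool_injection
    ⟨y0, subset_closure (mem_iUnion.mpr ⟨0, by simp [F0]⟩)⟩
  refine ⟨c, j, g, jm, fun n => by rw [jS]; exact (hpk _ _).2.1, hi, fun a => ?_⟩
  have := sub (hg ⟨a, rfl⟩)
  exact ⟨this.1, fun n => mem_iInter.mp this.2 n⟩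

lemma summable_ite (x : ℕ → ℝ) (hx : ∀ n, 0 < x n) (hs : Summable x) (p : ℕ → Prop)
    [DecidablePred p] : Summable (fun n => if p n then x n else 0) := by
  refine Summable.of_nonneg_of_le (fun n => ?_) (fun n => ?_) hs
  · split_ifs; exacts [(hx n).le, le_rfl]
  · split_ifs; exacts [le_rfl, (hx n).le]

lemma cont_subsum (x : ℕ → ℝ) (hx : ∀ n, 0 < x n) (hs : Summable x) :
    Continuous (fun ε : ℕ → Bool => ∑' n, if ε n then x n else 0) := by
  refine continuous_tsum (fun n => ?_) hs (fun n ε => ?_)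
  · exact (continuous_of_discreteTopology (f := fun b : Bool => if b then x n else 0)).comp
      (continuous_apply n)
  · split_ifs
    · rw [Real.norm_of_nonneg (hx n).le]
    · simpa using (hx n).le

lemma inj_subsum (y : ℕ → ℝ) (hy : ∀ n, 0 < y n) (hs : Summable y)
    (h3 : ∀ n, y (n + 1) ≤ y n / 3) :
    Function.Injective (fun ε : ℕ → Bool => ∑' n, if ε n then y n else 0) := by
  classical
  intro δ δ' e
  by_contra hne
  have hex : ∃ k, δ k ≠ δ' k := Function.ne_iff.mp hne
  set k := Nat.find hex with hk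
  have hk1 : δ k ≠ δ' k := Nat.find_spec hex
  have hk2 : ∀ l < k, δ l = δ' l := fun l hl => not_not.mp (Nat.find_min hex hl)
  set a : ℕ → ℝ := fun n => (if δ n then y n else 0) - (if δ' n then y n else 0) with ha
  have s1 := summable_ite y hy hs (fun n => δ n = true)
  have s2 := summable_ite y hy hs (fun n => δ' n = true)
  have sa : Summable a := s1.sub s2
  have z : ∑' n, a n = 0 := by
    rw [ha, s1.tsum_sub s2]
    exact sub_eq_zero.mpr e
  rw [← sa.sum_add_tsum_nat_add (k + 1), Finset.sum_range_succ,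
    Finset.sum_eq_zero (fun l hl => by simp [ha, hk2 l (Finset.mem_range.mp hl)]), zero_add] at z
  have geo : ∀ l, y (l + (k + 1)) ≤ y k / 3 * (1 / 3) ^ l := by
    intro l
    induction l with
    | zero => simpa using h3 k
    | succ l ih =>
      have := h3 (l + (k + 1))
      rw [show l + 1 + (k + 1) = l + (k + 1) + 1 by ring, pow_succ]
      linarith
  have hg : HasSum (fun l => y k / 3 * (1 / 3 : ℝ) ^ l) (y k / 3 * (1 - 1 / 3)⁻¹) :=
    (hasSum_geometric_of_lt_one (by norm_num) (by norm_num)).mul_left _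
  have bd := tsum_of_norm_bounded hg (f := fun l => a (l + (k + 1))) (fun l => by
    refine le_trans ?_ (geo l)
    have := hy (l + (k + 1))
    simp only [ha]
    split_ifs <;> simp [abs_of_pos this, this.le])
  have ak : |a k| = y k := by
    have := hy k
    simp only [ha]
    revert hk1
    cases δ k <;> cases δ' k <;> simp [abs_of_pos this]
  rw [Real.norm_eq_abs, eq_neg_of_add_eq_zero_right z, abs_neg, ak] at bd
  have := hy k
  linarith

end Pool.Agent.H24
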