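import Pool.Agent.Results.MP_cdfe0d_gt.Counter

set_option autoImplicit false

namespace Pool.Agent.H24.TT

open Set Filter Topology
open Pool.Agent.Results.MP_cdfe0d_gt.Counter (Subcont Indec C sh sh_cont cut ev cut_lim)

/-- value of a bit -/
def b (x : Bool) : ℤ := if x then 1 else 0

/-- difference sequence -/
def D0 (e : C) : ℤ → ℤ := fun i => b (e (i + 1)) - b (e i)

lemma D0_cont : Continuous D0 := continuous_pi fun _ =>
  ((continuous_of_discreteTopology (f := b)).comp (continuous_apply _)).sub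
    ((continuous_of_discreteTopology (f := b)).comp (continuous_apply _))

/-- the sofic shift -/
abbrev S := ↥(range D0)

instance : CompactSpace S := isCompact_iff_compactSpace.1 (isCompact_range D0_cont)

/-- factor map -/
def D (e : C) : S := ⟨D0 e, e, rfl⟩

lemma D_cont : Continuous D := D0_cont.subtype_mk _
lemma D_surj (w : S) : ∃ e, D e = w := by obtain ⟨_, e, rfl⟩ := w; exact ⟨e, rfl⟩

/-- the shift -/
def ss (n : ℤ) (w : S) : S := ⟨fun i => w.1 (i + n), by
  obtain ⟨_, e, rfl⟩ := w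
  exact ⟨sh n e, funext fun i => by simp [D0, sh, add_right_comm]⟩⟩

lemma ss_D (n : ℤ) (e : C) : ss n (D e) = D (sh n e) :=
  Subtype.ext (funext fun i => by simp [ss, D, D0, sh, add_right_comm])

lemma co (i : ℤ) : Continuous fun w : S => w.1 i := (continuous_apply i).comp continuous_subtype_val

lemma ss_cont (n : ℤ) : Continuous (ss n) := (continuous_pi fun _ => co _).subtype_mk _

/-- total space -/
def E := S × ℝ

noncomputable instance : TopologicalSpace E := inferInstanceAs (TopologicalSpace (S × ℝ))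
instance : T2Space E := inferInstanceAs (T2Space (S × ℝ))
instance : LocallyCompactSpace E := inferInstanceAs (LocallyCompactSpace (S × ℝ))
instance : SecondCountableTopology E := inferInstanceAs (SecondCountableTopology (S × ℝ))

noncomputable instance : AddAction ℤ E where
  vadd n e := (ss n e.1, e.2 - n)
  zero_vadd e := Prod.ext (Subtype.ext (funext fun i => congrArg e.1.1 (add_zero i))) (by
    change e.2 - ((0 : ℤ) : ℝ) = e.2; simp)
  add_vadd m n e := Prod.ext (Subtype.ext (funext fun i => congrArg e.1.1 (add_assoc i m n).symm)) (by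
    change e.2 - ((m + n : ℤ) : ℝ) = e.2 - n - m; push_cast; ring)

instance : ContinuousConstVAdd ℤ E :=
  ⟨fun n => ((ss_cont n).comp continuous_fst).prodMk (continuous_snd.sub continuous_const)⟩

instance : ProperlyDiscontinuousVAdd ℤ E := ⟨fun {K L} hK hL => by
  obtain ⟨R, hR⟩ := ((hK.union hL).image (f := fun e : E => |e.2|)
    (continuous_snd.abs)).bddAbove
  obtain ⟨N, hN⟩ := exists_nat_ge (2 * R)
  refine (finite_Icc (-(N : ℤ)) N).subset ?_
  rintro n ⟨_, ⟨e, he, rfl⟩, h2⟩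
  have h1 : |e.2| ≤ R := hR ⟨e, Or.inl he, rfl⟩
  have h3 : |e.2 - n| ≤ R := hR ⟨_, Or.inr h2, rfl⟩
  rw [abs_le] at h1 h3
  constructor <;> rify <;> linarith⟩

/-- the suspension -/
abbrev X := AddAction.orbitRel.Quotient ℤ E

instance : T2Space X := t2Space_of_properlyDiscontinuousVAdd_of_t2Space
instance : SecondCountableTopology X := ContinuousConstVAdd.secondCountableTopology

/-- projection -/
noncomputable def π (e : S × ℝ) : X := Quotient.mk'' e

lemma π_q : IsOpenQuotientMap π := AddAction.isOpenQuotientMap_quotientMk (Γ := ℤ) (T := E)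

lemma π_eq {c d : S} {s t : ℝ} : π (c, s) = π (d, t) ↔ ∃ n : ℤ, ss n d = c ∧ t - n = s :=
  Quotient.eq''.trans ⟨fun ⟨n, h⟩ => ⟨n, congrArg Prod.fst h, congrArg Prod.snd h⟩,
    fun ⟨n, h1, h2⟩ => ⟨n, Prod.ext h1 h2⟩⟩

lemma π_sh (c : S) (s : ℝ) (n : ℤ) : π (c, s + n) = π (ss n c, s) :=
  (π_eq.2 ⟨n, rfl, by ring⟩).symm

lemma π_fund (x : X) : ∃ e s, s ∈ Icc (0 : ℝ) 1 ∧ π (D e, s) = x := by
  obtain ⟨⟨c, s⟩, rfl⟩ := π_q.surjective x
  obtain ⟨e, rfl⟩ := D_surj c
  exact ⟨sh ⌊s⌋ e, Int.fract s, ⟨Int.fract_nonneg s, (Int.fract_lt_one s).le⟩,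
    by rw [← ss_D, ← π_sh, Int.fract_add_floor]⟩

instance : CompactSpace X := ⟨by
  refine ((isCompact_univ.prod (isCompact_Icc (a := (0 : ℝ)) (b := 1))).image
    π_q.continuous).of_isClosed_subset isClosed_univ fun x _ => ?_
  obtain ⟨e, s, h, rfl⟩ := π_fund x
  exact ⟨_, ⟨trivial, h⟩, rfl⟩⟩

/-- mixing two sequences -/
def mix (c d : C) (M : ℕ) : C := fun i => if |i| ≤ M then c i else if |i - 3 * M| ≤ M then
  d (i - 3 * M) else if |i + 3 * M| ≤ M then d (i + 3 * M) else decide (i % 2 = 0)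

lemma indec : Indec X := by
  rintro ⟨A, B, hA, hB, nA, nB, u⟩
  obtain ⟨x, hx⟩ := (ne_univ_iff_exists_notMem _).1 nB
  obtain ⟨y, hy⟩ := (ne_univ_iff_exists_notMem _).1 nA
  obtain ⟨c, s, -, rfl⟩ := π_fund x
  obtain ⟨d, t, -, rfl⟩ := π_fund y
  have inA : ∀ x ∉ B, x ∈ A := fun x hx => (u.symm ▸ mem_univ x : x ∈ A ∪ B).resolve_right hx
  have oU : IsOpen {e : S | π (e, s) ∉ B} :=
    hB.1.isClosed.isOpen_compl.preimage (π_q.continuous.comp (by fun_prop))
  have oV : IsOpen {e : S | π (e, t) ∉ A} :=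
    hA.1.isClosed.isOpen_compl.preimage (π_q.continuous.comp (by fun_prop))
  have l1 : Tendsto (mix c d) atTop (𝓝 c) := tendsto_pi_nhds.2 fun i =>
    tendsto_const_nhds.congr' ((ev i).mono fun _ h => (if_pos h).symm)
  have l2 : Tendsto (fun M : ℕ => sh (3 * M) (mix c d M)) atTop (𝓝 d) := tendsto_pi_nhds.2 fun i =>
    tendsto_const_nhds.congr' ((ev (|i| + 1)).mono fun M h => by
      have := abs_le.1 h
      have h1 : ¬ |i + 3 * M| ≤ M := by grind
      have h2 : |i| ≤ M := by omega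
      simp [sh, mix, h1, h2])
  have l3 : Tendsto (fun M : ℕ => sh (-3 * M) (mix c d M)) atTop (𝓝 d) :=
    tendsto_pi_nhds.2 fun i => tendsto_const_nhds.congr' ((ev (|i| + 1)).mono fun M h => by
      have := abs_le.1 h
      have h1 : ¬ |i + -(3 * M)| ≤ M := by grind
      have h3 : ¬ |i + -(3 * M) - 3 * M| ≤ M := by grind
      have h2 : |i| ≤ M := by omega
      simp [sh, mix, h1, h2, h3])
  obtain ⟨M, ⟨⟨⟨m1, m2⟩, m3⟩, m4⟩, m5⟩ := (((((l1.eventually ((oU.preimage D_cont).mem_nhds hx)).and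
    (l2.eventually ((oV.preimage D_cont).mem_nhds hy))).and
    (l3.eventually ((oV.preimage D_cont).mem_nhds hy))).and
    ((cut_lim c).eventually ((oU.preimage D_cont).mem_nhds hx))).and
    ((tendsto_natCast_atTop_atTop (R := ℝ)).eventually_gt_atTop |s - t|)).exists
  have oR : IsOpen {e : S | e.1 (5 * M + 1) ≠ 0 ∧ e.1 (7 * M + 3) ≠ 0} :=
    (isOpen_ne_fun (co _) continuous_const).inter (isOpen_ne_fun (co _) continuous_const)
  have fl : ∀ i : ℤ, 5 * M + 1 ≤ i → (D (mix c d M)).1 i ≠ 0 := fun i hi => by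
    simp only [D, D0, mix, abs_le]
    rw [if_neg (by omega), if_neg (by omega), if_neg (by omega), if_neg (by omega),
      if_neg (by omega), if_neg (by omega)]
    simp only [b, decide_eq_true_eq]
    split_ifs <;> omega
  obtain ⟨K, hK, k1, k2⟩ := compact_exists_isClopen_in_isOpen (x := D (mix c d M))
    (((oV.preimage (ss_cont (3 * M))).inter (oV.preimage (ss_cont (-3 * M)))).inter oR)
    ⟨⟨by rw [mem_preimage, ss_D]; exact m2, by rw [mem_preimage, ss_D]; exact m3⟩,
      fl _ le_rfl, fl _ (by omega)⟩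
  rw [abs_lt] at m5
  have sub := hA.2.2.subset_of_closure_inter_subset
    (π_q.isOpenMap _ (hK.isOpen.prod (isOpen_Ioo (a := t + (-3 * M : ℤ)) (b := t + (3 * M : ℤ)))))
    ⟨_, inA _ m1, (_, s), ⟨k1, by push_cast; constructor <;> linarith [m5.1, m5.2]⟩, rfl⟩ (by
      rintro z ⟨z1, z2⟩
      obtain ⟨⟨e, r⟩, ⟨e1, e2, e3⟩, rfl⟩ := closure_minimal
        (image_mono (Set.prod_mono le_rfl Ioo_subset_Icc_self))
        ((hK.isClosed.isCompact.prod isCompact_Icc).image π_q.continuous).isClosed z1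
      refine ⟨(e, r), ⟨e1, e2.lt_of_ne ?_, e3.lt_of_ne ?_⟩, rfl⟩
      · rintro rfl
        exact (k2 e1).1.2 (π_sh _ _ _ ▸ z2)
      · rintro rfl
        exact (k2 e1).1.1 (π_sh _ _ _ ▸ z2))
  obtain ⟨⟨e, r⟩, ⟨e1, _⟩, e3⟩ := sub (inA _ m4)
  obtain ⟨n, rfl, _⟩ := π_eq.1 e3
  obtain ⟨a1, a2⟩ := (k2 e1).2
  simp only [ss, D, D0, cut, abs_le] at a1 a2
  by_cases h : 0 ≤ n + 6 * M + 2
  · rw [if_neg (by omega), if_neg (by omega)] at a2; simp at a2
  · rw [if_neg (by omega), if_neg (by omega)] at a1; simp at a1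

lemma full {Z : Type} [TopologicalSpace Z] [CompactSpace Z] [T2Space Z] [ConnectedSpace Z] (h : Indec Z)
    {K : Set Z} (hK : Subcont K) (hi : (interior K).Nonempty) : K = univ := by
  by_contra n
  have cl := hK.1.isClosed
  have key : ∀ P Q : Set Z, IsOpen P → IsOpen Q → Kᶜ ⊆ P ∪ Q → Kᶜ ∩ (P ∩ Q) = ∅ → (Kᶜ ∩ Q).Nonempty →
      Subcont (K ∪ P) ∧ K ∪ P ≠ univ := fun P Q hP hQ h1 h2 ⟨z, h3⟩ => by
    have e : K ∪ P = (Kᶜ ∩ Q)ᶜ := by
      ext x
      have := @h1 x
      have := eq_empty_iff_forall_notMem.1 h2 x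
      simp only [mem_union, mem_compl_iff, mem_inter_iff] at *
      tauto
    have c : IsClosed (K ∪ P) := e ▸ (cl.isOpen_compl.inter hQ).isClosed_compl
    refine ⟨⟨c.isCompact, hK.2.1.mono subset_union_left, ?_⟩, fun f => (e ▸ f ▸ mem_univ z : z ∈ (Kᶜ ∩ Q)ᶜ) h3⟩
    have k2 : ∀ u v : Set Z, IsClosed u → IsClosed v → K ∪ P ⊆ u ∪ v → Disjoint u v → K ⊆ u →
        K ∪ P ⊆ u := fun u v hu hv a1 a2 a3 => by
      have e2 : (K ∪ P) ∩ v = P ∩ uᶜ := by
        ext x
        have := @a1 x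
        have := @a3 x
        have : x ∈ u → x ∉ v := fun h => disjoint_left.1 a2 h
        simp only [mem_union, mem_compl_iff, mem_inter_iff] at *
        tauto
      rcases isClopen_iff.1 ⟨c.inter hv, e2 ▸ hP.inter hu.isOpen_compl⟩ with f | f
      · exact fun x hx => (a1 hx).resolve_right fun g => eq_empty_iff_forall_notMem.1 f x ⟨hx, g⟩
      · obtain ⟨x, hx⟩ := hK.2.1
        exact absurd (a3 hx) (e2 ▸ f ▸ mem_univ x : x ∈ P ∩ uᶜ).2
    refine (isPreconnected_iff_subset_of_fully_disjoint_closed c).2 fun u v hu hv a1 a2 => ?_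
    exact ((isPreconnected_iff_subset_of_fully_disjoint_closed cl).1 hK.2.2 u v hu hv
      (subset_union_left.trans a1) a2).imp (k2 u v hu hv a1 a2)
      (k2 v u hv hu (union_comm u v ▸ a1) a2.symm)
  by_cases c : IsPreconnected Kᶜ
  · refine h ⟨K, closure Kᶜ, hK, ⟨isClosed_closure.isCompact,
      (nonempty_compl.2 n).closure, c.closure⟩, n, fun f => ?_, ?_⟩
    · rw [closure_compl, compl_univ_iff] at f; exact hi.ne_empty f
    · exact eq_univ_of_forall fun x => (em (x ∈ K)).imp_right fun a => subset_closure a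
  · simp only [IsPreconnected, not_forall, not_nonempty_iff_eq_empty] at c
    obtain ⟨P, Q, hP, hQ, a1, a2, a3, a4⟩ := c
    obtain ⟨b1, b2⟩ := key P Q hP hQ a1 a4 a3
    obtain ⟨b3, b4⟩ := key Q P hQ hP (union_comm P Q ▸ a1) (inter_comm P Q ▸ a4) a2
    refine h ⟨_, _, b1, b3, b2, b4, eq_univ_of_forall fun x => ?_⟩
    have := @a1 x
    simp only [mem_union, mem_compl_iff] at *
    tauto

end Pool.Agent.H24.TT
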