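import Pool.Agent.H24.TT1

set_option autoImplicit false

namespace Pool.Agent.H24.TT

open Set Filter Topology
open Pool.Agent.Results.MP_cdfe0d_gt
open Counter (Subcont Indec C sh sh_cont cut ev cut_lim sh_cut T)

/-- parameters -/
abbrev Q := C × C × ℝ × ℝ

/-- height of the main lane in one cell -/
noncomputable def φ (e : C) (s : ℝ) : ℝ := (b (e 0) + s * (b (e 1) - b (e 0))) / 2

/-- chart -/
noncomputable def Ψ (q : S × C × ℝ × ℝ) : X × Counter.X := (π (q.1, q.2.2.1), Counter.π (q.2.1, q.2.2.1 + q.2.2.2))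

/-- chart adapted to the main lane -/
noncomputable def Θ (q : Q) : X × Counter.X := Ψ (D q.1, q.2.1, q.2.2.1, φ q.1 q.2.2.1 + q.2.2.2)

lemma Ψ_cont : Continuous Ψ := by
  have := π_q.continuous
  have := Counter.π_q.continuous
  unfold Ψ; fun_prop

lemma Ψ_open : IsOpenMap Ψ := by
  let H : (S × C × ℝ × ℝ) ≃ₜ (S × ℝ) × (C × ℝ) :=
    { toFun := fun q => ((q.1, q.2.2.1), (q.2.1, q.2.2.1 + q.2.2.2))
      invFun := fun q => (q.1.1, q.2.1, q.1.2, q.2.2 - q.1.2)
      left_inv := fun q => by simp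
      right_inv := fun q => by simp }
  exact (π_q.isOpenMap.prodMap Counter.π_q.isOpenMap).comp H.isOpenMap

lemma φ_cont : Continuous fun q : C × ℝ => φ q.1 q.2 := by
  have : Continuous fun x : Bool => (b x : ℝ) := continuous_of_discreteTopology
  unfold φ; fun_prop

lemma Θ_cont : Continuous Θ := Ψ_cont.comp (by
  have := D_cont
  have : Continuous fun q : Q => φ q.1 q.2.2.1 := φ_cont.comp (f := fun q : Q => (q.1, q.2.2.1)) (by fun_prop)
  fun_prop)

lemma Ψ_sh (w : S) (d : C) (s r : ℝ) (n m : ℤ) :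
    Ψ (w, d, s + n, r + m) = Ψ (ss n w, sh (n + m) d, s, r) := by
  simp only [Ψ, ← π_sh, ← Counter.π_sh]
  congr 3; push_cast; ring

/-- the closed set of walls -/
noncomputable def A : Set (X × Counter.X) := Θ '' {q | q.2.2.1 ∈ Icc 0 1 ∧
  (q.2.2.2 = 1 / 4 ∨ q.2.2.2 = -1 / 4 ∨ φ q.1 q.2.2.1 + q.2.2.2 = 3 / 4)}

/-- the main lane -/
noncomputable def K : Set (X × Counter.X) := Θ '' {q | q.2.2.1 ∈ Icc 0 1 ∧ q.2.2.2 ∈ Icc (-1 / 8) (1 / 8)}

lemma φ_mem (e : C) {s : ℝ} (h : s ∈ Icc (0 : ℝ) 1) : φ e s ∈ Icc (0 : ℝ) (1 / 2) := by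
  obtain ⟨h1, h2⟩ := h
  unfold φ b
  split_ifs <;> constructor <;> push_cast <;> linarith

lemma cpt {Z : Set Q} (hc : IsClosed Z) (h : ∀ q ∈ Z, q.2.2.1 ∈ Icc (0 : ℝ) 1 ∧ q.2.2.2 ∈ Icc (-1 : ℝ) 1) :
    IsCompact (Θ '' Z) :=
  ((isCompact_univ.prod (isCompact_univ.prod (isCompact_Icc.prod isCompact_Icc))).of_isClosed_subset hc
    fun q hq => ⟨trivial, trivial, h q hq⟩).image Θ_cont

lemma A_cl : IsClosed A := by
  have : Continuous fun q : Q => φ q.1 q.2.2.1 := φ_cont.comp (f := fun q : Q => (q.1, q.2.2.1)) (by fun_prop)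
  refine (cpt ((isClosed_Icc.preimage (by fun_prop)).inter ((isClosed_eq (by fun_prop) continuous_const).union
    ((isClosed_eq (by fun_prop) continuous_const).union (isClosed_eq (by fun_prop) continuous_const))))
    fun q ⟨h1, h2⟩ => ⟨h1, ?_⟩).isClosed
  have := φ_mem q.1 h1
  simp only [mem_union, mem_ofPred] at h2 this
  rcases h2 with h | h | h <;> constructor <;> linarith [this.1, this.2]

lemma K_cpt : IsCompact K :=
  cpt ((isClosed_Icc.preimage (by fun_prop)).inter (isClosed_Icc.preimage (by fun_prop)))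
    fun q ⟨h1, h2⟩ => ⟨h1, by constructor <;> linarith [h2.1, h2.2]⟩

lemma disj : K ∩ A = ∅ := by
  refine eq_empty_of_forall_notMem ?_
  rintro _ ⟨⟨⟨e, d, s, r⟩, ⟨h1, h2, h2'⟩, rfl⟩, ⟨e', d', s', r'⟩, ⟨h3, h4⟩, h5⟩
  simp only [Θ, Ψ, Prod.mk.injEq, π_eq, Counter.π_eq] at *
  obtain ⟨⟨n, h5, h6⟩, m, -, h7⟩ := h5
  obtain ⟨k, hk⟩ : ∃ k : ℤ, φ e s - φ e' s' = k / 2 := by
    have := congrFun (congrArg Subtype.val h5) 0
    simp only [ss, D, D0, zero_add] at this
    have n1 : (-1 : ℝ) ≤ n := by linarith [h1.1, h3.2]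
    have n2 : (n : ℝ) ≤ 1 := by linarith [h1.2, h3.1]
    obtain rfl | rfl | rfl : n = -1 ∨ n = 0 ∨ n = 1 := by norm_cast at n1 n2; omega
    · push_cast at h6
      obtain rfl : s = 0 := by linarith [h1.1, h3.2]
      obtain rfl : s' = 1 := by linarith
      exact ⟨b (e 0) - b (e' 1), by simp only [φ]; push_cast; ring⟩
    · obtain rfl : s = s' := by simpa using h6
      refine ⟨b (e 0) - b (e' 0), ?_⟩
      rify at this
      simp only [φ, zero_add] at this ⊢
      push_cast; linear_combination s / 2 * this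
    · push_cast at h6
      obtain rfl : s = 1 := by linarith [h1.2, h3.1]
      obtain rfl : s' = 0 := by linarith
      exact ⟨b (e 1) - b (e' 0), by simp only [φ]; push_cast; ring⟩
  have := φ_mem e h1
  rcases h4 with h | h | h
  · have a1 : ((4 * (m - n) - 2 * k : ℤ) : ℝ) < 0 := by push_cast; linarith
    have a2 : (-2 : ℝ) < (4 * (m - n) - 2 * k : ℤ) := by push_cast; linarith
    norm_cast at a1 a2; omega
  · have a1 : ((4 * (m - n) - 2 * k : ℤ) : ℝ) < 2 := by push_cast; linarith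
    have a2 : (0 : ℝ) < (4 * (m - n) - 2 * k : ℤ) := by push_cast; linarith
    norm_cast at a1 a2; omega
  · have a1 : ((m - n : ℤ) : ℝ) < 0 := by push_cast; linarith [this.1, this.2]
    have a2 : (-1 : ℝ) < (m - n : ℤ) := by push_cast; linarith [this.1, this.2]
    norm_cast at a1 a2; omega

lemma K_con : IsConnected K := by
  let z : C := fun _ => false
  let P : C → C → Set (X × Counter.X) := fun e d => (fun q : ℝ × ℝ => Θ (e, d, q)) '' (Icc 0 1 ×ˢ Icc (-1 / 8) (1 / 8))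
  let L : C × C × ℕ → Set (X × Counter.X) := fun x =>
    closure (⋃ n : ℕ, P (sh n (cut x.1 x.2.2)) (sh n (cut x.2.1 x.2.2)))
  have z0 : ∀ s ∈ Icc (0 : ℝ) 1, (s, 0) ∈ Icc (0 : ℝ) 1 ×ˢ Icc (-1 / 8 : ℝ) (1 / 8) := fun s h =>
    ⟨h, by norm_num, by norm_num⟩
  refine ⟨⟨_, (z, z, 0, 0), z0 0 (by simp), rfl⟩, (isPreconnected_iUnion (s := L) ⟨Θ (z, z, 0, 0),
    mem_iInter.2 fun x => ?_⟩ fun x => ?_).subset_closure (iUnion_subset fun x => ?_) ?_⟩
  · exact mem_closure_of_tendsto ((Θ_cont.tendsto (z, z, 0, 0)).comp ((sh_cut x.1 x.2.2).prodMk_nhds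
      ((sh_cut x.2.1 x.2.2).prodMk_nhds tendsto_const_nhds)))
      (.of_forall fun n => mem_iUnion.2 ⟨n, _, z0 0 (by simp), rfl⟩)
  · refine (IsPreconnected.iUnion_of_chain (fun n => (isPreconnected_Icc.prod isPreconnected_Icc).image _
      (Θ_cont.comp (f := fun q => (_, _, q)) (by fun_prop)).continuousOn) fun n =>
      ⟨_, ⟨_, z0 1 (by simp), rfl⟩, _, z0 0 (by simp), ?_⟩).closure
    have e : ∀ c, sh (n + 1 : ℕ) c = sh 1 (sh n c) := fun c => funext fun i => by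
      simp [sh, add_comm, add_left_comm]
    have := Ψ_sh (D (sh n (cut x.1 x.2.2))) (sh n (cut x.2.1 x.2.2)) 0 (φ (sh n (cut x.1 x.2.2)) 1) 1 0
    simp only [Function.comp, Θ, Order.succ_eq_add_one, e, add_zero]
    simp only [Int.cast_one, zero_add, Int.cast_zero, add_zero] at this
    rw [this, ss_D]
    simp [φ, sh]
  · refine K_cpt.isClosed.closure_subset_iff.2 (iUnion_subset fun n => ?_)
    rintro _ ⟨q, h, rfl⟩
    exact ⟨_, h, rfl⟩
  · rintro _ ⟨⟨e, d, q⟩, h, rfl⟩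
    refine mem_closure_of_tendsto ((Θ_cont.tendsto (_, _, _)).comp ((cut_lim _).prodMk_nhds
      ((cut_lim _).prodMk_nhds tendsto_const_nhds))) (.of_forall fun n => ?_)
    exact mem_iUnion.2 ⟨(e, d, n), subset_closure (mem_iUnion.2 ⟨0, q, h, by
      have : ∀ c, sh 0 c = c := fun c => funext fun i => by simp [sh]
      simp [this]⟩)⟩

lemma K_int : (interior K).Nonempty := by
  have o : IsOpen {q : S × C × ℝ × ℝ | q.1.1 0 = 1 ∧ q.2.2.1 ∈ Ioo 0 1 ∧
      q.2.2.2 - q.2.2.1 / 2 ∈ Ioo (-1 / 8) (1 / 8)} :=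
    ((isOpen_discrete {1}).preimage ((co 0).comp continuous_fst)).inter
      ((isOpen_Ioo.preimage (by fun_prop)).inter (isOpen_Ioo.preimage (by fun_prop)))
  refine ⟨_, interior_maximal ?_ (Ψ_open _ o)
    ⟨(D fun i => decide (i = 1), fun _ => false, 1 / 2, 1 / 4), by norm_num [D, D0, b], rfl⟩⟩
  rintro _ ⟨⟨w, d, s, r⟩, ⟨h1, h2, h3⟩, rfl⟩
  obtain ⟨e, rfl⟩ := D_surj w
  have : φ e s = s / 2 := by
    simp only [D, D0, φ, b, zero_add] at h1 ⊢
    split_ifs at h1 ⊢ <;> simp at h1 ⊢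
  exact ⟨(e, d, s, r - s / 2), ⟨Ioo_subset_Icc_self h2, Ioo_subset_Icc_self h3⟩, by simp [Θ, this]⟩

instance : ConnectedSpace X := by
  rw [connectedSpace_iff_univ]
  convert K_con.image _ continuous_fst.continuousOn
  refine (eq_univ_of_forall fun x => ?_).symm
  obtain ⟨e, s, h, rfl⟩ := π_fund x
  exact ⟨_, ⟨(e, e, s, 0), ⟨h, by norm_num, by norm_num⟩, rfl⟩, rfl⟩

lemma memA (w : S) (d : C) (n k : ℤ) {τ r : ℝ} (h : τ ∈ Icc (0 : ℝ) 1)
    (hr : r = 3 / 4 + k ∨ r = τ * w.1 n / 2 + 1 / 4 + k / 2) : Ψ (w, d, τ + n, r) ∈ A := by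
  obtain ⟨e, rfl⟩ := D_surj w
  have key : ∀ (m : ℤ) (r' : ℝ), r = φ (sh n e) τ + r' + m →
      (r' = 1 / 4 ∨ r' = -1 / 4 ∨ φ (sh n e) τ + r' = 3 / 4) → Ψ (D e, d, τ + n, r) ∈ A := fun m r' a c => by
    rw [a, Ψ_sh, ss_D]
    exact ⟨(sh n e, _, τ, r'), ⟨h, c⟩, rfl⟩
  rcases hr with hr | hr
  · exact key k (3 / 4 - φ (sh n e) τ) (by linarith) (.inr (.inr (by ring)))
  · have e1 : φ (sh n e) τ = (b (e n) + τ * (D e).1 n) / 2 := by simp [φ, sh, D, D0, add_comm]
    obtain ⟨m, hm | hm⟩ := Int.even_or_odd' (k - b (e n))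
    · refine key m _ ?_ (.inl rfl)
      rify at hm
      rw [e1]; linarith
    · refine key (m + 1) _ ?_ (.inr (.inl rfl))
      rify at hm
      rw [e1]; push_cast; linarith

lemma big {W : Set (X × Counter.X)} (hW : Subcont W) (h : (interior W).Nonempty) (x : X) :
    ∃ y, (x, y) ∈ W := by
  have := full indec (K := Prod.fst '' W) ⟨hW.1.image continuous_fst, hW.2.image _ continuous_fst.continuousOn⟩
    ((h.image _).mono (isOpenMap_fst.image_interior_subset W))
  obtain ⟨⟨_, y⟩, h, rfl⟩ := (this ▸ mem_univ x : x ∈ Prod.fst '' W)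
  exact ⟨y, h⟩

lemma dead (β : Bool) (d : C) (r : ℝ) (hr : (1 - 2 * b β) * (r - 1 / 4) ∈ Ioo (0 : ℝ) (1 / 2)) :
    Ψ (D fun _ => false, d, 0, r) ∈ T A := by
  rintro ⟨W, hW, h1, h2⟩
  let f : ℕ → C := fun N i => if |i| ≤ N then β else !β
  have l : Tendsto f atTop (𝓝 fun _ => β) := tendsto_pi_nhds.2 fun i =>
    tendsto_const_nhds.congr' ((ev i).mono fun _ h => (if_pos h).symm)
  have e0 : D (fun _ => false) = D fun _ => β := Subtype.ext (funext fun i => by simp [D, D0])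
  rw [e0] at h1
  obtain ⟨N, hN⟩ := (((Ψ_cont.tendsto (_, d, 0, r)).comp (((D_cont.tendsto _).comp l).prodMk_nhds
    tendsto_const_nhds)).eventually (isOpen_interior.mem_nhds h1)).exists
  have hU : IsClopen {w : S | ∀ i ∈ Icc (-N - 1 : ℤ) N, w.1 i = (D (f N)).1 i} := by
    simp only [ofPred_forall]
    exact (finite_Icc _ _).isClopen_biInter fun i _ => (isClopen_discrete {_}).preimage (co i)
  set σ : ℝ := 1 - 2 * b β with hσ
  have s2 : σ = 1 ∨ σ = -1 := by cases β <;> norm_num [hσ, b]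
  have wN : ((D (f N)).1 N : ℝ) = σ := by
    simp only [D, D0, f, abs_le]
    rw [if_neg (by omega), if_pos (by omega), hσ]
    cases β <;> norm_num [b]
  have c1 : Continuous fun q : ℝ × ℝ => max 0 (|q.1| - N) / 2 := by fun_prop
  have c2 : Continuous fun q : ℝ × ℝ => σ * (q.2 - 1 / 4) := by fun_prop
  have sub := hW.2.2.subset_of_closure_inter_subset (Ψ_open _ (hU.isOpen.prod (isOpen_univ.prod
    (show IsOpen {q : ℝ × ℝ | max 0 (|q.1| - N) / 2 < σ * (q.2 - 1 / 4) ∧ σ * (q.2 - 1 / 4) < 1 / 2} from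
      (isOpen_lt c1 c2).inter (isOpen_lt c2 continuous_const)))))
    ⟨_, interior_subset hN, (_, d, 0, r), ⟨fun _ _ => rfl, trivial, by simpa using hr.1, hr.2⟩, rfl⟩ (by
      rintro z ⟨z1, z2⟩
      have cZ : IsCompact {q : ℝ × ℝ | max 0 (|q.1| - N) / 2 ≤ σ * (q.2 - 1 / 4) ∧
          σ * (q.2 - 1 / 4) ≤ 1 / 2} :=
        ((isCompact_Icc (a := -(N + 1 : ℝ)) (b := N + 1)).prod (isCompact_Icc (a := (-1 : ℝ)) (b := 1))).of_isClosed_subset
          ((isClosed_le c1 c2).inter (isClosed_le c2 continuous_const))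
          fun q ⟨a1, a2⟩ => by
            have := le_max_left 0 (|q.1| - N)
            have := le_max_right 0 (|q.1| - N)
            refine ⟨abs_le.1 (by linarith), ?_⟩
            rcases s2 with h | h <;> rw [h] at a1 a2 <;> constructor <;> linarith
      obtain ⟨⟨w, e, s, t⟩, ⟨e1, -, e2, e3⟩, rfl⟩ := closure_minimal
        (image_mono (Set.prod_mono le_rfl (Set.prod_mono le_rfl fun q hq => And.intro hq.1.le hq.2.le)))
        ((hU.isClosed.isCompact.prod (isCompact_univ.prod cZ)).image Ψ_cont).isClosed z1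
      have nA : Ψ (w, e, Int.fract s + ⌊s⌋, t) ∉ A := fun a =>
        eq_empty_iff_forall_notMem.1 h2 _ ⟨z2, Int.fract_add_floor s ▸ a⟩
      have hτ : Int.fract s ∈ Icc (0 : ℝ) 1 := ⟨Int.fract_nonneg s, (Int.fract_lt_one s).le⟩
      simp only at e2 e3
      have e4 := e3.lt_of_ne fun a => by
        rcases s2 with h | h <;> rw [h] at a
        · exact nA (memA _ _ _ 0 hτ (.inl (by push_cast; linarith)))
        · exact nA (memA _ _ _ (-1) hτ (.inl (by push_cast; linarith)))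
      refine ⟨_, ⟨e1, trivial, e2.lt_of_ne fun a => nA ?_, e4⟩, rfl⟩
      have a0 : |s| < N + 1 := by linarith [le_max_right 0 (|s| - N)]
      have a1 := abs_lt.1 a0
      have a2 : -N - 1 ≤ ⌊s⌋ := Int.le_floor.2 (by push_cast; linarith)
      have a3 : ⌊s⌋ < N + 1 := Int.floor_lt.2 (by push_cast; linarith)
      have a4 := e1 _ ⟨a2, by omega⟩
      have a5 := Int.fract_add_floor s
      have a6 : t = 1 / 4 + σ * (max 0 (|s| - N) / 2) := by
        rcases s2 with h | h <;> rw [a, h] <;> ring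
      have p : (0 : ℝ) ≤ N := by positivity
      rcases eq_or_ne ⌊s⌋ N with c | c
      · refine memA _ _ _ 0 hτ (.inr ?_)
        rw [a4, c, wN, a6, abs_of_nonneg, max_eq_right] <;> rw [c] at a5 <;> push_cast at a5 ⊢
        · linear_combination -σ / 2 * a5
        · linarith [hτ.1]
        · linarith [hτ.1]
      rcases eq_or_ne ⌊s⌋ (-N - 1) with c' | c'
      · refine memA _ _ _ (1 - 2 * b β) hτ (.inr ?_)
        have : ((D (f N)).1 (-N - 1) : ℝ) = -σ := by
          simp only [D, D0, f, abs_le]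
          rw [if_pos (by omega), if_neg (by omega), hσ]
          cases β <;> norm_num [b]
        rw [a4, c', this, a6, abs_of_nonpos, max_eq_right] <;> rw [c'] at a5 <;> push_cast at a5 ⊢
        · linear_combination σ / 2 * a5
        · linarith [hτ.2]
        · linarith [hτ.2]
      · refine memA _ _ _ 0 hτ (.inr ?_)
        have : (D (f N)).1 ⌊s⌋ = 0 := by
          simp only [D, D0, f, abs_le]
          rw [if_pos (by omega), if_pos (by omega), sub_self]
        have b1 : (-N : ℝ) ≤ s := by exact_mod_cast Int.le_floor.1 (by omega : (-N : ℤ) ≤ ⌊s⌋)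
        have b2 : s < N := by exact_mod_cast Int.floor_lt.1 (by omega : ⌊s⌋ < (N : ℤ))
        rw [a4, this, a6, max_eq_left (sub_nonpos.2 (abs_le.2 ⟨b1, b2.le⟩))]
        simp)
  obtain ⟨y, hy⟩ := big hW ⟨_, h1⟩ (π (D fun _ => false, 0))
  obtain ⟨⟨w, e, s, t⟩, ⟨e1, -⟩, e3⟩ := sub hy
  obtain ⟨n, rfl, -⟩ := π_eq.1 (congrArg Prod.fst e3)
  rw [← e1 N ⟨by omega, le_rfl⟩] at wN
  simp only [ss, D, D0, sub_self, Int.cast_zero] at wN
  rcases s2 with h | h <;> linarith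

lemma TT_univ : T (T A) = univ := eq_univ_of_forall fun p ⟨W, hW, h1, h2⟩ => by
  obtain ⟨y, hy⟩ := big hW ⟨_, h1⟩ (π (D fun _ => false, 0))
  refine eq_empty_iff_forall_notMem.1 h2 _ ⟨hy, ?_⟩
  obtain ⟨⟨d, t⟩, rfl⟩ := Counter.π_q.surjective y
  have e := Ψ_sh (D fun _ => false) d 0 (Int.fract (t + 1 / 4) - 1 / 4) 0 ⌊t + 1 / 4⌋
  have e0 : ss 0 (D fun _ => false) = D fun _ => false := ss_D _ _
  have e1 : Int.fract (t + 1 / 4) - 1 / 4 + ⌊t + 1 / 4⌋ = t := by linarith [Int.fract_add_floor (t + 1 / 4)]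
  rw [e0, e1] at e
  have e2 : (π (D fun _ => false, 0), Counter.π (d, t)) = Ψ (D fun _ => false, d, 0 + (0 : ℤ), t) := by simp [Ψ]
  rw [e2, e]
  have h3 := Int.fract_nonneg (t + 1 / 4)
  have h4 := Int.fract_lt_one (t + 1 / 4)
  generalize Int.fract (t + 1 / 4) = r at h3 h4
  generalize sh _ d = d
  have inA : ∀ k : ℤ, r - 1 / 4 = 1 / 4 + k / 2 → Ψ (D fun _ => false, d, 0, r - 1 / 4) ∈ T A :=
    fun k hk ⟨W, _, a, c⟩ => eq_empty_iff_forall_notMem.1 c _ ⟨interior_subset a, by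
      simpa using memA (D fun _ => false) d 0 k (τ := 0) (by simp) (.inr (by simpa using hk))⟩
  rcases h3.eq_or_lt with rfl | h3
  · exact inA (-1) (by norm_num)
  rcases lt_trichotomy r (1 / 2) with h | rfl | h
  · exact dead true _ _ (by simp only [b]; constructor <;> norm_num <;> linarith)
  · exact inA 0 (by norm_num)
  · exact dead false _ _ (by simp only [b]; constructor <;> norm_num <;> linarith)

end Pool.Agent.H24.TT
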