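import Mathlib

open Finset

namespace Pool.Agent.H24.Urn

noncomputable def W (n : ℕ) : ℝ := (if n % 5 = 1 ∨ n % 5 = 2 then 120000000 else 1) * (n : ℝ) ^ 2

noncomputable def h (n : ℕ) : ℝ :=
  if n % 5 = 0 then 0 else if n % 5 = 1 then -10000000 else if n % 5 = 2 then -20000000
  else if n % 5 = 3 then 24480000000 else 12240000000

noncomputable def Y (B R : ℕ) : ℝ := R - 9 * B + h B

/-- binomial average -/
def av (p q : ℝ) (f : ℕ → ℝ) : ℝ :=
  q ^ 5 * f 0 + 5 * p * q ^ 4 * f 1 + 10 * p ^ 2 * q ^ 3 * f 2 + 10 * p ^ 3 * q ^ 2 * f 3 +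
    5 * p ^ 4 * q * f 4 + p ^ 5 * f 5

theorem h_bd (n : ℕ) : -20000000 ≤ h n ∧ h n ≤ 24480000000 := by
  unfold h; split_ifs <;> norm_num

theorem pows {x c : ℝ} (h0 : 0 ≤ x) (hc : x ≤ c) :
    0 ≤ x ^ 2 ∧ 0 ≤ x ^ 3 ∧ 0 ≤ x ^ 4 ∧ 0 ≤ x ^ 5 ∧ x ^ 2 ≤ c * x ∧ x ^ 3 ≤ c ^ 2 * x ∧
      x ^ 4 ≤ c ^ 3 * x ∧ x ^ 5 ≤ c ^ 4 * x := by
  have k : ∀ n : ℕ, x ^ (n + 1) ≤ c ^ n * x := fun n => by
    rw [pow_succ]; exact mul_le_mul_of_nonneg_right (pow_le_pow_left₀ h0 hc n) h0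
  exact ⟨by positivity, by positivity, by positivity, by positivity, by simpa using k 1,
    k 2, k 3, k 4⟩

theorem av_x (x q : ℝ) (f : ℕ → ℝ) : av (x * q) q f = q ^ 5 * (f 0 + 5 * x * f 1 +
    10 * x ^ 2 * f 2 + 10 * x ^ 3 * f 3 + 5 * x ^ 4 * f 4 + x ^ 5 * f 5) := by
  unfold av; ring

theorem av_y (y p : ℝ) (f : ℕ → ℝ) : av p (y * p) f = p ^ 5 * (y ^ 5 * f 0 + 5 * y ^ 4 * f 1 +
    10 * y ^ 3 * f 2 + 10 * y ^ 2 * f 3 + 5 * y * f 4 + f 5) := by
  unfold av; ring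

theorem drift (B R : ℕ) (hB : 0 < B) (hm : (B + R) % 5 = 0) (h1 : R ≤ 10 * B)
    (h2 : 80 * (B : ℝ) ^ 2 ≤ (R : ℝ) ^ 2) :
    av (W B / (W B + W R)) (W R / (W B + W R))
      (fun k => Y (B + k) (R + (5 - k)) - Y B R) ≤ 0 := by
  have hb : (0 : ℝ) < (B : ℝ) ^ 2 := by positivity
  have hr : (0 : ℝ) < (R : ℝ) ^ 2 := by linarith
  have h3 : (R : ℝ) ^ 2 ≤ 100 * (B : ℝ) ^ 2 := by
    have : (R : ℝ) ≤ 10 * B := by exact_mod_cast h1
    nlinarith [(Nat.cast_nonneg R : (0 : ℝ) ≤ R)]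
  have hWB : 0 < W B := by unfold W; split_ifs <;> positivity
  have hWR : 0 < W R := by unfold W; split_ifs <;> positivity
  have ex : W B / (W B + W R) = W B / W R * (W R / (W B + W R)) := by field_simp
  have ey : W R / (W B + W R) = W R / W B * (W B / (W B + W R)) := by field_simp
  have hY : ∀ k ≤ 5, Y (B + k) (R + (5 - k)) - Y B R = 5 - 10 * k + h (B + k) - h B := by
    intro k hk
    unfold Y; push_cast [hk]; ring
  have hh : ∀ k, h (B + k) = h (B % 5 + k) := fun k => by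
    unfold h; rw [show (B + k) % 5 = (B % 5 + k) % 5 by omega]
  have hh0 : h B = h (B % 5) := by simpa using hh 0
  have hc : B % 5 = 0 ∨ B % 5 = 1 ∨ B % 5 = 2 ∨ B % 5 = 3 ∨ B % 5 = 4 := by omega
  rcases hc with hc | hc | hc | hc | hc
  · rw [ex, av_x]
    refine mul_nonpos_of_nonneg_of_nonpos (by positivity) ?_
    have e : W B / W R = (B : ℝ) ^ 2 / (R : ℝ) ^ 2 := by
      unfold W; rw [if_neg (by omega), if_neg (by omega)]; ring
    have a1 : W B / W R ≤ 1 / 80 := by rw [e, div_le_iff₀ hr]; linarith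
    have a2 : 1 / 100 ≤ W B / W R := by rw [e, le_div_iff₀ hr]; linarith
    obtain ⟨b1, b2, b3, b4, b5, b6, b7, b8⟩ := pows (by positivity) a1
    simp only [hY, hh, hh0, hc, Nat.reduceLeDiff, le_refl, zero_le]
    norm_num [h] at b5 b6 b7 b8 ⊢
    linarith
  · rw [ey, av_y]
    refine mul_nonpos_of_nonneg_of_nonpos (by positivity) ?_
    have e : W R / W B = (R : ℝ) ^ 2 / (120000000 * (B : ℝ) ^ 2) := by
      unfold W; rw [if_neg (by omega), if_pos (by omega)]; ring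
    have a1 : W R / W B ≤ 1 / 1200000 := by rw [e, div_le_iff₀ (by positivity)]; linarith
    have a0 : 0 ≤ W R / W B := by positivity
    obtain ⟨b1, b2, b3, b4, b5, b6, b7, b8⟩ := pows a0 a1
    simp only [hY, hh, hh0, hc, Nat.reduceLeDiff, le_refl, zero_le]
    norm_num [h] at b5 b6 b7 b8 ⊢
    linarith
  · rw [ey, av_y]
    refine mul_nonpos_of_nonneg_of_nonpos (by positivity) ?_
    have e : W R / W B = (R : ℝ) ^ 2 / (120000000 * (B : ℝ) ^ 2) := by
      unfold W; rw [if_neg (by omega), if_pos (by omega)]; ring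
    have a1 : W R / W B ≤ 1 / 1200000 := by rw [e, div_le_iff₀ (by positivity)]; linarith
    have a0 : 0 ≤ W R / W B := by positivity
    obtain ⟨b1, b2, b3, b4, b5, b6, b7, b8⟩ := pows a0 a1
    simp only [hY, hh, hh0, hc, Nat.reduceLeDiff, le_refl, zero_le]
    norm_num [h] at b5 b6 b7 b8 ⊢
    linarith
  · rw [ex, av_x]
    refine mul_nonpos_of_nonneg_of_nonpos (by positivity) ?_
    have e : W B / W R = (B : ℝ) ^ 2 / (120000000 * (R : ℝ) ^ 2) := by
      unfold W; rw [if_neg (by omega), if_pos (by omega)]; ring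
    have a1 : W B / W R ≤ 1 / 9600000000 := by rw [e, div_le_iff₀ (by positivity)]; linarith
    have a2 : 1 / 12000000000 ≤ W B / W R := by rw [e, le_div_iff₀ (by positivity)]; linarith
    obtain ⟨b1, b2, b3, b4, b5, b6, b7, b8⟩ := pows (by positivity) a1
    simp only [hY, hh, hh0, hc, Nat.reduceLeDiff, le_refl, zero_le]
    norm_num [h] at b5 b6 b7 b8 ⊢
    linarith
  · rw [ex, av_x]
    refine mul_nonpos_of_nonneg_of_nonpos (by positivity) ?_
    have e : W B / W R = (B : ℝ) ^ 2 / (120000000 * (R : ℝ) ^ 2) := by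
      unfold W; rw [if_neg (by omega), if_pos (by omega)]; ring
    have a1 : W B / W R ≤ 1 / 9600000000 := by rw [e, div_le_iff₀ (by positivity)]; linarith
    have a2 : 1 / 12000000000 ≤ W B / W R := by rw [e, le_div_iff₀ (by positivity)]; linarith
    obtain ⟨b1, b2, b3, b4, b5, b6, b7, b8⟩ := pows (by positivity) a1
    simp only [hY, hh, hh0, hc, Nat.reduceLeDiff, le_refl, zero_le]
    norm_num [h] at b5 b6 b7 b8 ⊢
    linarith

theorem av_mono {p q : ℝ} (hp : 0 ≤ p) (hq : 0 ≤ q) {f g : ℕ → ℝ} (h : ∀ k ≤ 5, f k ≤ g k) :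
    av p q f ≤ av p q g := by
  unfold av
  gcongr <;> exact h _ (by norm_num)

theorem av_lin {p q : ℝ} (hpq : p + q = 1) (a b : ℝ) (f : ℕ → ℝ) :
    av p q (fun k => a + b * f k) = a + b * av p q f := by
  have : (p + q) ^ 5 = 1 := by rw [hpq]; norm_num
  unfold av
  linear_combination a * this

theorem quad {p q : ℝ} (hp : 0 ≤ p) (hq : 0 ≤ q) (hpq : p + q = 1) (y M : ℝ) (f : ℕ → ℝ)
    (hM : ∀ k ≤ 5, (f k - y) ^ 2 ≤ M) (hd : 0 < y → av p q (fun k => f k - y) ≤ 0) :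
    av p q (fun k => max (f k) 0 ^ 2) ≤ max y 0 ^ 2 + M := by
  rcases le_or_gt y 0 with hy | hy
  · refine (av_mono hp hq (g := fun k => M + 0 * f k) fun k hk => ?_).trans ?_
    · have := hM k hk
      rcases le_total (f k) 0 with h | h
      · rw [max_eq_right h]; nlinarith [sq_nonneg (f k - y)]
      · rw [max_eq_left h]; nlinarith
    · rw [av_lin hpq]; nlinarith [sq_nonneg (max y 0)]
  · refine (av_mono hp hq (g := fun k => (y ^ 2 + M) + 2 * y * (f k - y)) fun k hk => ?_).trans ?_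
    · have := hM k hk
      rcases le_total (f k) 0 with h | h
      · rw [max_eq_right h]; nlinarith [sq_nonneg (f k)]
      · rw [max_eq_left h]; nlinarith
    · rw [av_lin hpq, max_eq_left hy.le]; nlinarith [hd hy]

theorem W_pos {n : ℕ} (hn : 0 < n) : 0 < W n := by unfold W; split_ifs <;> positivity

theorem stepY (B R : ℕ) (hm : (B + R) % 5 = 0) (h1 : R ≤ 10 * B) (h2 : B ≤ 10 * R)
    (hN : 10 ^ 24 ≤ B + R) :
    av (W B / (W B + W R)) (W R / (W B + W R)) (fun k => max (Y (B + k) (R + (5 - k))) 0 ^ 2) ≤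
      max (Y B R) 0 ^ 2 + 625 * 10 ^ 18 := by
  have hB := W_pos (show 0 < B by omega)
  have hR := W_pos (show 0 < R by omega)
  refine quad (by positivity) (by positivity) (by field_simp) _ _ _ (fun k hk => ?_)
    fun hy => drift B R (by omega) hm h1 ?_
  · have e : Y (B + k) (R + (5 - k)) - Y B R = 5 - 10 * k + h (B + k) - h B := by
      unfold Y; push_cast [hk]; ring
    have k0 : (0 : ℝ) ≤ k := Nat.cast_nonneg k
    have k5 : (k : ℝ) ≤ 5 := by exact_mod_cast hk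
    rw [e]
    have := h_bd (B + k)
    have := h_bd B
    refine (sq_le_sq' (b := 25 * 10 ^ 9) (by linarith) (by linarith)).trans (by norm_num)
  · have := h_bd B
    have hb : (10 : ℝ) ^ 22 ≤ B := by exact_mod_cast (show 10 ^ 22 ≤ B by omega)
    unfold Y at hy
    have : (179 / 20 : ℝ) * B ≤ R := by linarith
    nlinarith

noncomputable def F (B R : ℕ) : ℝ :=
  (max (Y B R) 0 ^ 2 + max (Y R B) 0 ^ 2 + 625 * 10 ^ 18 * (B + R : ℝ)) / (B + R : ℝ) ^ 2

theorem F_nonneg (B R : ℕ) : 0 ≤ F B R := by unfold F; positivity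

theorem stepF (B R : ℕ) (hm : (B + R) % 5 = 0) (h1 : R ≤ 10 * B) (h2 : B ≤ 10 * R)
    (hN : 10 ^ 24 ≤ B + R) :
    av (W B / (W B + W R)) (W R / (W B + W R)) (fun k => F (B + k) (R + (5 - k))) ≤ F B R := by
  have a1 := stepY B R hm h1 h2 hN
  have a2 := stepY R B (by omega) h2 h1 (by omega)
  rw [add_comm (W R)] at a2
  have hB := W_pos (show 0 < B by omega)
  have hR := W_pos (show 0 < R by omega)
  have hpq : W B / (W B + W R) + W R / (W B + W R) = 1 := by field_simp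
  generalize W B / (W B + W R) = p at *
  generalize W R / (W B + W R) = q at *
  have hn : (0 : ℝ) < B + R := by exact_mod_cast (show 0 < B + R by omega)
  have h5 : (p + q) ^ 5 = 1 := by rw [hpq]; norm_num
  have e : av p q (fun k => F (B + k) (R + (5 - k))) =
      (av p q (fun k => max (Y (B + k) (R + (5 - k))) 0 ^ 2) +
        av q p (fun k => max (Y (R + k) (B + (5 - k))) 0 ^ 2) +
        625 * 10 ^ 18 * (B + R + 5 : ℝ) * (p + q) ^ 5) / (B + R + 5 : ℝ) ^ 2 := by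
    unfold av F
    norm_num
    ring
  rw [e, h5, F, div_le_div_iff₀ (by positivity) (by positivity)]
  generalize (B : ℝ) + R = N at *
  have s1 := sq_nonneg (max (Y B R) 0)
  have s2 := sq_nonneg (max (Y R B) 0)
  generalize max (Y B R) 0 ^ 2 = u at *
  generalize max (Y R B) 0 ^ 2 = v at *
  have : (u + v + 625 * 10 ^ 18 * (N + 7)) * N ^ 2 ≤ (u + v + 625 * 10 ^ 18 * N) * (N + 5) ^ 2 := by
    have : 0 ≤ (u + v) * (10 * N + 25) := by positivity
    nlinarith [sq_nonneg N]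
  refine le_trans (mul_le_mul_of_nonneg_right ?_ (by positivity)) this
  linarith

theorem F_out (B R : ℕ) (hN : 10 ^ 24 ≤ B + R) (h1 : ¬ (R ≤ 10 * B ∧ B ≤ 10 * R)) :
    1 / 144 ≤ F B R := by
  have hn : (10 : ℝ) ^ 24 ≤ B + R := by exact_mod_cast hN
  have key : ∀ B R : ℕ, (10 : ℝ) ^ 24 ≤ B + R → 10 * B < R →
      ((B : ℝ) + R) ^ 2 / 144 ≤ max (Y B R) 0 ^ 2 := by
    intro B R hn h
    have h' : 10 * (B : ℝ) ≤ R := by exact_mod_cast h.le
    have := h_bd B
    have a : ((B : ℝ) + R) / 12 ≤ max (Y B R) 0 := le_max_of_le_left (by unfold Y; linarith)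
    have := pow_le_pow_left₀ (by positivity) a 2
    linarith
  rw [F, le_div_iff₀ (by positivity)]
  have s1 := sq_nonneg (max (Y B R) 0)
  have s2 := sq_nonneg (max (Y R B) 0)
  rcases not_and_or.1 h1 with h | h
  · have := key B R hn (not_le.1 h); linarith
  · have := key R B (by linarith) (not_le.1 h)
    rw [add_comm (R : ℝ)] at this; linarith

theorem F_start : F (5 * 10 ^ 23) (5 * 10 ^ 23) ≤ 1 / 288 := by
  have : Y (5 * 10 ^ 23) (5 * 10 ^ 23) ≤ 0 := by norm_num [Y, h]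
  rw [F, max_eq_right this]; norm_num

end Pool.Agent.H24.Urn
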