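import Pool.Agent.H24.Urn1

open Finset MeasureTheory ProbabilityTheory
open scoped ENNReal

namespace Pool.Agent.H24.Urn

/-- One step: urn i gets a black ball iff u i < W(B*)/(W(B*)+W(R*)), else a red ball. -/
noncomputable def step {d : ℕ} (V : ℕ → ℝ) (s : (Fin d → ℕ) × (Fin d → ℕ)) (u : Fin d → ℝ) :
    (Fin d → ℕ) × (Fin d → ℕ) :=
  (fun i => s.1 i + if u i < V (∑ j, s.1 j) / (V (∑ j, s.1 j) + V (∑ j, s.2 j)) then 1 else 0,
   fun i => s.2 i + if u i < V (∑ j, s.1 j) / (V (∑ j, s.1 j) + V (∑ j, s.2 j)) then 0 else 1)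

/-- The urn process driven by the sample ω. -/
noncomputable def proc {d : ℕ} (V : ℕ → ℝ) (s : (Fin d → ℕ) × (Fin d → ℕ))
    (ω : ℕ → Fin d → ℝ) : ℕ → (Fin d → ℕ) × (Fin d → ℕ)
  | 0 => s
  | n + 1 => step V (proc V s ω n) (ω n)

/-- Monopoly: from some time on only one colour is added. -/
def Mono {d : ℕ} (x : ℕ → (Fin d → ℕ) × (Fin d → ℕ)) : Prop :=
  (∃ m, ∀ n ≥ m, ∑ i, (x (n + 1)).2 i = ∑ i, (x n).2 i) ∨
    ∃ m, ∀ n ≥ m, ∑ i, (x (n + 1)).1 i = ∑ i, (x n).1 i

/-- Law of an i.i.d. array of uniform variables on [0,1]. -/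
noncomputable def law (d : ℕ) : Measure (ℕ → Fin d → ℝ) :=
  Measure.infinitePi fun _ : ℕ => Measure.pi fun _ : Fin d => volume.restrict (Set.Icc (0 : ℝ) 1)

theorem unif_prob : IsProbabilityMeasure (volume.restrict (Set.Icc (0 : ℝ) 1)) := ⟨by simp⟩

noncomputable def cnt (p : ℝ) (u : Fin 5 → ℝ) : ℕ := (univ.filter fun i => u i < p).card

theorem cnt_le (p : ℝ) (u : Fin 5 → ℝ) : cnt p u ≤ 5 := by
  simpa [cnt] using card_filter_le (univ : Finset (Fin 5)) fun i => u i < p

theorem cnt_meas (p : ℝ) : Measurable (cnt p) := by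
  unfold cnt
  simp only [card_filter]
  exact Finset.measurable_sum _ fun i _ => Measurable.ite
    (measurableSet_lt (measurable_pi_apply i) measurable_const) measurable_const measurable_const

theorem lint_cnt {p : ℝ} (h0 : 0 ≤ p) (h1 : p ≤ 1) (f : ℕ → ℝ) (hf : ∀ k, 0 ≤ f k) :
    ∫⁻ u, ENNReal.ofReal (f (cnt p u)) ∂(Measure.pi fun _ : Fin 5 =>
      volume.restrict (Set.Icc (0 : ℝ) 1)) = ENNReal.ofReal (av p (1 - p) f) := by
  have := unif_prob
  let A : Finset (Fin 5) → Set (Fin 5 → ℝ) := fun T =>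
    Set.pi Set.univ fun i => if i ∈ T then Set.Iio p else Set.Ici p
  have hA : ∀ T, MeasurableSet (A T) := fun T => MeasurableSet.univ_pi fun i => by
    split_ifs <;> measurability
  have e : ∀ u, ENNReal.ofReal (f (cnt p u)) =
      ∑ T : Finset (Fin 5), (A T).indicator (fun _ => ENNReal.ofReal (f T.card)) u := by
    intro u
    rw [sum_eq_single (univ.filter fun i => u i < p)]
    · rw [Set.indicator_of_mem]
      · rfl
      · intro i _
        by_cases h : u i < p <;> simp [h, not_lt.1]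
    · intro T _ hT
      refine Set.indicator_of_notMem (fun hu => hT ?_) _
      ext i
      have := hu i trivial
      by_cases h : i ∈ T <;> simp [h] at this ⊢ <;> exact this
    · simp
  have m1 : volume.restrict (Set.Icc (0 : ℝ) 1) (Set.Iio p) = ENNReal.ofReal p := by
    rw [Measure.restrict_apply measurableSet_Iio]
    have : Set.Iio p ∩ Set.Icc 0 1 = Set.Ico 0 p := by
      ext x; simp only [Set.mem_inter_iff, Set.mem_Iio, Set.mem_Icc, Set.mem_Ico]
      exact ⟨fun h => ⟨h.2.1, h.1⟩, fun h => ⟨h.2, h.1, by linarith [h.2]⟩⟩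
    simp [this]
  have m2 : volume.restrict (Set.Icc (0 : ℝ) 1) (Set.Ici p) = ENNReal.ofReal (1 - p) := by
    rw [Measure.restrict_apply measurableSet_Ici]
    have : Set.Ici p ∩ Set.Icc 0 1 = Set.Icc p 1 := by
      ext x; simp only [Set.mem_inter_iff, Set.mem_Ici, Set.mem_Icc]
      exact ⟨fun h => ⟨h.1, h.2.2⟩, fun h => ⟨h.1, by linarith [h.1], h.2⟩⟩
    simp [this]
  have hq : 0 ≤ 1 - p := by linarith
  have m3 : ∀ T : Finset (Fin 5), (Measure.pi fun _ : Fin 5 => volume.restrict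
      (Set.Icc (0 : ℝ) 1)) (A T) = ENNReal.ofReal (p ^ T.card * (1 - p) ^ (5 - T.card)) := by
    intro T
    rw [Measure.pi_pi]
    simp only [apply_ite (volume.restrict (Set.Icc (0 : ℝ) 1)), m1, m2]
    rw [prod_ite, prod_const, prod_const, ENNReal.ofReal_mul (by positivity),
      ENNReal.ofReal_pow h0, ENNReal.ofReal_pow hq]
    congr 2
    · simp
    · rw [filter_not, card_sdiff_of_subset (filter_subset _ _)]; simp
  simp only [e]
  rw [lintegral_finsetSum _ fun T _ => measurable_const.indicator (hA T)]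
  simp only [lintegral_indicator_const (hA _), m3]
  simp only [← ENNReal.ofReal_mul (hf _)]
  rw [← ENNReal.ofReal_sum_of_nonneg fun T _ => mul_nonneg (hf _) (by positivity), ← powerset_univ,
    sum_powerset_apply_card fun k => f k * (p ^ k * (1 - p) ^ (5 - k))]
  congr 1
  simp [sum_range_succ, av, Nat.choose]
  ring

def G (x : ℕ × ℕ) : Prop := x.2 ≤ 10 * x.1 ∧ x.1 ≤ 10 * x.2

noncomputable def ts (x : ℕ × ℕ) (u : Fin 5 → ℝ) : ℕ × ℕ :=
  (x.1 + cnt (W x.1 / (W x.1 + W x.2)) u, x.2 + (5 - cnt (W x.1 / (W x.1 + W x.2)) u))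

open Classical in
noncomputable def ss (x : ℕ × ℕ) (u : Fin 5 → ℝ) : ℕ × ℕ := if G x then ts x u else x

noncomputable def ch (ω : ℕ → Fin 5 → ℝ) : ℕ → ℕ × ℕ
  | 0 => (5 * 10 ^ 23, 5 * 10 ^ 23)
  | n + 1 => ss (ch ω n) (ω n)

theorem ss_meas : Measurable fun z : (ℕ × ℕ) × (Fin 5 → ℝ) => ss z.1 z.2 := by
  refine measurable_from_prod_countable_right fun x => ?_
  by_cases h : G x
  · simp only [ss, h, if_true, ts]
    exact (measurable_of_countable fun k : ℕ => (x.1 + k, x.2 + (5 - k))).comp (cnt_meas _)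
  · simp only [ss, h, if_false]; exact measurable_const

theorem ch_meas (n : ℕ) : Measurable fun ω => ch ω n := by
  induction n with
  | zero => exact measurable_const
  | succ n ih => exact ss_meas.comp (ih.prodMk (measurable_pi_apply n))

theorem ch_dep (ω ω' : ℕ → Fin 5 → ℝ) (n : ℕ) (h : ∀ m < n, ω m = ω' m) : ch ω n = ch ω' n := by
  induction n with
  | zero => rfl
  | succ n ih =>
    simp only [ch]
    rw [ih fun m hm => h m (by omega), h n (by omega)]

theorem ch_inv (ω : ℕ → Fin 5 → ℝ) (n : ℕ) :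
    ((ch ω n).1 + (ch ω n).2) % 5 = 0 ∧ 10 ^ 24 ≤ (ch ω n).1 + (ch ω n).2 := by
  induction n with
  | zero => norm_num [ch]
  | succ n ih =>
    simp only [ch, ss]
    split_ifs
    · have := cnt_le (W (ch ω n).1 / (W (ch ω n).1 + W (ch ω n).2)) (ω n)
      simp only [ts]; omega
    · exact ih

theorem ch_indep (n : ℕ) : IndepFun (fun ω => ch ω n) (fun ω => ω n) (law 5) := by
  classical
  have := unif_prob
  have h1 : iIndepFun (fun (i : ℕ) (ω : ℕ → Fin 5 → ℝ) => ω i) (law 5) :=
    iIndepFun_infinitePi (X := fun _ x => x) fun _ => measurable_id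
  have h2 := h1.indepFun_finset (range n) {n} (by simp) fun i => measurable_pi_apply i
  have hψ : Measurable fun y : ({n} : Finset ℕ) → Fin 5 → ℝ => y ⟨n, mem_singleton_self n⟩ :=
    measurable_pi_apply (X := fun _ : ({n} : Finset ℕ) => Fin 5 → ℝ) _
  have h3 := h2.comp (φ := fun y : range n → Fin 5 → ℝ =>
      ch (fun m => if h : m ∈ range n then y ⟨m, h⟩ else 0) n)
    (ψ := fun y : ({n} : Finset ℕ) → Fin 5 → ℝ => y ⟨n, mem_singleton_self n⟩)
    ((ch_meas n).comp (measurable_pi_lambda _ fun m => by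
      split_ifs
      · exact measurable_pi_apply _
      · exact measurable_const)) hψ
  convert h3 using 1
  · funext ω
    exact ch_dep _ _ n fun m hm => by simp [hm]
  · rfl

theorem law_prob (d : ℕ) : IsProbabilityMeasure (law d) := by
  have := unif_prob
  unfold law; infer_instance

theorem super (n : ℕ) : ∫⁻ ω, ENNReal.ofReal (F (ch ω n).1 (ch ω n).2) ∂(law 5) ≤
    ENNReal.ofReal (1 / 288) := by
  have := unif_prob
  have := law_prob 5
  induction n with
  | zero => simpa [ch] using ENNReal.ofReal_le_ofReal F_start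
  | succ n ih =>
    refine le_trans ?_ ih
    have hF : Measurable fun x : ℕ × ℕ => ENNReal.ofReal (F x.1 x.2) := measurable_of_countable _
    have hm := (indepFun_iff_map_prod_eq_prod_map_map (ch_meas n).aemeasurable
      (measurable_pi_apply n).aemeasurable).1 (ch_indep n)
    have e : ∫⁻ ω, ENNReal.ofReal (F (ch ω (n + 1)).1 (ch ω (n + 1)).2) ∂(law 5) =
        ∫⁻ z, ENNReal.ofReal (F (ss z.1 z.2).1 (ss z.1 z.2).2)
          ∂((law 5).map fun ω => (ch ω n, ω n)) :=
      (lintegral_map (hF.comp ss_meas) ((ch_meas n).prodMk (measurable_pi_apply n))).symm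
    have hG : Measurable fun z : (ℕ × ℕ) × (Fin 5 → ℝ) =>
        ENNReal.ofReal (F (ss z.1 z.2).1 (ss z.1 z.2).2) := hF.comp ss_meas
    rw [e, hm, lintegral_prod _ hG.aemeasurable,
      lintegral_map (measurable_of_countable _) (ch_meas n)]
    refine lintegral_mono fun ω => ?_
    have hl : (law 5).map (fun ω => ω n) = _ := Measure.infinitePi_map_eval _ n
    obtain ⟨i1, i2⟩ := ch_inv ω n
    simp only [hl]
    generalize ch ω n = x at *
    by_cases h : G x
    · have hB := W_pos (show 0 < x.1 by have := h.1; omega)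
      have hR := W_pos (show 0 < x.2 by have := h.2; omega)
      simp only [ss, h, if_true, ts]
      rw [lint_cnt (by positivity) (div_le_one_of_le₀ (by linarith) (by positivity))
        (fun k => F (x.1 + k) (x.2 + (5 - k))) fun k => F_nonneg _ _,
        show 1 - W x.1 / (W x.1 + W x.2) = W x.2 / (W x.1 + W x.2) by field_simp; ring]
      exact ENNReal.ofReal_le_ofReal (stepF _ _ i1 h.1 h.2 i2)
    · simp [ss, h]

theorem exit_le : law 5 {ω | ∃ n, ¬ G (ch ω n)} ≤ 1 / 2 := by
  have hmono : Monotone fun n => {ω | ¬ G (ch ω n)} := monotone_nat_of_le_succ fun n ω h => by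
    simp only [Set.mem_ofPred_eq, ch, ss] at h ⊢
    rw [if_neg h]; exact h
  rw [Set.ofPred_exists, hmono.measure_iUnion]
  refine iSup_le fun n => ?_
  have h1 := mul_meas_ge_le_lintegral (μ := law 5)
    (f := fun ω => ENNReal.ofReal (F (ch ω n).1 (ch ω n).2))
    ((measurable_of_countable fun x : ℕ × ℕ => ENNReal.ofReal (F x.1 x.2)).comp (ch_meas n))
    (ENNReal.ofReal (1 / 144))
  have h2 : law 5 {ω | ¬ G (ch ω n)} ≤ law 5 {ω | ENNReal.ofReal (1 / 144) ≤
      ENNReal.ofReal (F (ch ω n).1 (ch ω n).2)} :=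
    measure_mono fun ω h => ENNReal.ofReal_le_ofReal (F_out _ _ (ch_inv ω n).2 h)
  have h3 := ((mul_le_mul_right h2 _).trans h1).trans (super n)
  have e : ENNReal.ofReal (1 / 288) = ENNReal.ofReal (1 / 144) * (1 / 2) := by
    rw [show (1 / 288 : ℝ) = 1 / 144 * (1 / 2) by norm_num, ENNReal.ofReal_mul (by norm_num),
      ENNReal.ofReal_div_of_pos (by norm_num : (0 : ℝ) < 2)]
    simp
  rw [e] at h3
  exact (ENNReal.mul_le_mul_iff_right (by simp) ENNReal.ofReal_ne_top).1 h3

theorem tot_step (s : (Fin 5 → ℕ) × (Fin 5 → ℕ)) (u : Fin 5 → ℝ) :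
    (∑ i, (step W s u).1 i, ∑ i, (step W s u).2 i) = ts (∑ i, s.1 i, ∑ i, s.2 i) u := by
  simp only [step, ts, sum_add_distrib, cnt, Prod.mk.injEq]
  refine ⟨by rw [card_filter], ?_⟩
  have := card_filter_add_card_filter_not (s := (univ : Finset (Fin 5)))
    fun i => u i < W (∑ j, s.1 j) / (W (∑ j, s.1 j) + W (∑ j, s.2 j))
  rw [card_filter fun i => ¬ _, card_univ, Fintype.card_fin] at this
  simp only [ite_not] at this
  omega

theorem mono_sub (ω : ℕ → Fin 5 → ℝ)
    (h : Mono (proc W (fun _ => 10 ^ 23, fun _ => 10 ^ 23) ω)) : ∃ n, ¬ G (ch ω n) := by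
  by_contra hc
  push Not at hc
  set x := proc W (fun _ => 10 ^ 23, fun _ => 10 ^ 23) ω with hx
  have e : ∀ n, (∑ i, (x n).1 i, ∑ i, (x n).2 i) = ch ω n := by
    intro n
    induction n with
    | zero => simp [hx, proc, ch]
    | succ n ih =>
      simp only [ch, ss, hc n, if_true]
      rw [← ih, ← tot_step]; rfl
  have e1 : ∀ n, ∑ i, (x n).1 i = (ch ω n).1 := fun n => congrArg Prod.fst (e n)
  have e2 : ∀ n, ∑ i, (x n).2 i = (ch ω n).2 := fun n => congrArg Prod.snd (e n)
  have hN : ∀ n, n ≤ (ch ω n).1 + (ch ω n).2 := by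
    intro n
    induction n with
    | zero => simp
    | succ n ih =>
      have := cnt_le (W (ch ω n).1 / (W (ch ω n).1 + W (ch ω n).2)) (ω n)
      simp only [ch, ss, hc n, if_true, ts]; omega
  have key : ∀ (a : ℕ → ℕ) m, (∀ n ≥ m, a (n + 1) = a n) → ∀ k, a (m + k) = a m := by
    intro a m h k
    induction k with
    | zero => rfl
    | succ k ih => rw [← add_assoc, h _ (by omega), ih]
  simp only [Mono, e1, e2] at h
  rcases h with ⟨m, h⟩ | ⟨m, h⟩
  · have a := key (fun n => (ch ω n).2) m h (11 * (ch ω m).2 + 1)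
    have b := hN (m + (11 * (ch ω m).2 + 1))
    have c := (hc (m + (11 * (ch ω m).2 + 1))).2
    omega
  · have a := key (fun n => (ch ω n).1) m h (11 * (ch ω m).1 + 1)
    have b := hN (m + (11 * (ch ω m).1 + 1))
    have c := (hc (m + (11 * (ch ω m).1 + 1))).1
    omega

theorem W_strong : Summable fun n : ℕ => 1 / W (n + 1) := by
  have h := (summable_nat_add_iff 1).2 (Real.summable_one_div_nat_pow.2 one_lt_two)
  refine Summable.of_nonneg_of_le (fun n => (one_div_pos.2 (W_pos n.succ_pos)).le) (fun n => ?_) h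
  refine one_div_le_one_div_of_le (by positivity) ?_
  unfold W
  split_ifs <;> nlinarith [sq_nonneg ((n + 1 : ℕ) : ℝ)]

end Pool.Agent.H24.Urn
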