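import Mathlib

set_option autoImplicit false
open Complex Filter Topology Set Metric
open scoped ComplexConjugate

namespace Pool.Agent.H24.WAT

def H : Set ℂ := {z | 0 < z.im}

lemma isOpen_H : IsOpen H := isOpen_lt continuous_const continuous_im

lemma nsq (z : ℂ) : ‖z‖ ^ 2 = z.re ^ 2 + z.im ^ 2 := by
  rw [Complex.sq_norm, Complex.normSq_apply]; ring

lemma mob_id (a b : ℂ) : ‖1 - conj a * b‖ ^ 2 - ‖b - a‖ ^ 2 = (1 - ‖a‖ ^ 2) * (1 - ‖b‖ ^ 2) := by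
  simp only [nsq, sub_re, sub_im, one_re, one_im, mul_re, mul_im, conj_re, conj_im]
  ring

lemma hp_id (z w : ℂ) : ‖z - conj w‖ ^ 2 - ‖z - w‖ ^ 2 = 4 * z.im * w.im := by
  simp only [nsq, sub_re, sub_im, conj_re, conj_im]
  ring

lemma one_sub_ne (a b : ℂ) (ha : ‖a‖ < 1) (hb : ‖b‖ < 1) : 1 - conj a * b ≠ 0 := by
  intro h
  have h1 : conj a * b = 1 := by linear_combination -h
  have h2 : ‖conj a * b‖ = 1 := by rw [h1]; simp
  rw [norm_mul, Complex.norm_conj] at h2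
  nlinarith [norm_nonneg a, norm_nonneg b]

section
variable {Φ : ℂ → ℂ} (hd : DifferentiableOn ℂ Φ H) (hb : ∀ z ∈ H, ‖Φ z‖ < 1)
include hd hb

lemma schwarz_pick {z w : ℂ} (hz : z ∈ H) (hw : w ∈ H) :
    4 * z.im * w.im * ‖1 - conj (Φ w) * Φ z‖ ^ 2
      ≤ (1 - ‖Φ w‖ ^ 2) * (1 - ‖Φ z‖ ^ 2) * ‖z - conj w‖ ^ 2 := by
  have hz' : 0 < z.im := hz
  have hw' : 0 < w.im := hw
  let m : ℂ → ℂ := fun ζ => (w - conj w * ζ) / (1 - ζ)
  have hne : ∀ ζ ∈ ball (0 : ℂ) 1, 1 - ζ ≠ 0 := by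
    intro ζ hζ h
    have : ζ = 1 := by linear_combination -h
    rw [this] at hζ
    simp at hζ
  have hm : ∀ ζ ∈ ball (0 : ℂ) 1, m ζ ∈ H := by
    intro ζ hζ
    have h1 := hne ζ hζ
    have h2 : ‖ζ‖ < 1 := by simpa using hζ
    have h3 : ‖ζ‖ ^ 2 < 1 := by nlinarith [norm_nonneg ζ]
    rw [nsq] at h3
    have h4 : 0 < normSq (1 - ζ) := normSq_pos.2 h1
    show 0 < ((w - conj w * ζ) / (1 - ζ)).im
    rw [div_im, ← sub_div]
    apply div_pos _ h4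
    simp only [sub_re, sub_im, one_re, one_im, mul_re, mul_im, conj_re, conj_im]
    nlinarith
  have hmd : DifferentiableOn ℂ m (ball 0 1) :=
    DifferentiableOn.div (by fun_prop) (by fun_prop) hne
  have hΦm : DifferentiableOn ℂ (fun ζ => Φ (m ζ)) (ball 0 1) := hd.comp hmd hm
  let f : ℂ → ℂ := fun ζ => (Φ (m ζ) - Φ w) / (1 - conj (Φ w) * Φ (m ζ))
  have hfd : DifferentiableOn ℂ f (ball 0 1) :=
    DifferentiableOn.div (hΦm.sub_const _) ((hΦm.const_mul _).const_sub _)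
      (fun ζ hζ => one_sub_ne _ _ (hb w hw) (hb _ (hm ζ hζ)))
  have hfm : MapsTo f (ball 0 1) (closedBall 0 1) := by
    intro ζ hζ
    have h1 := one_sub_ne _ _ (hb w hw) (hb _ (hm ζ hζ))
    have h2 := mob_id (Φ w) (Φ (m ζ))
    have h3 := hb w hw
    have h4 := hb _ (hm ζ hζ)
    rw [mem_closedBall_zero_iff]
    show ‖(Φ (m ζ) - Φ w) / (1 - conj (Φ w) * Φ (m ζ))‖ ≤ 1
    rw [norm_div, div_le_one (norm_pos_iff.2 h1)]
    apply le_of_sq_le_sq _ (norm_nonneg _)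
    have h5 : 0 ≤ (1 - ‖Φ w‖ ^ 2) * (1 - ‖Φ (m ζ)‖ ^ 2) :=
      mul_nonneg (by nlinarith [norm_nonneg (Φ w)]) (by nlinarith [norm_nonneg (Φ (m ζ))])
    linarith
  have hf0 : f 0 = 0 := by simp [f, m]
  have hzw : z - conj w ≠ 0 := by
    intro h
    have := congrArg Complex.im h
    simp at this
    linarith
  have hid := hp_id z w
  have hζ : ‖(z - w) / (z - conj w)‖ < 1 := by
    rw [norm_div, div_lt_one (norm_pos_iff.2 hzw)]
    apply lt_of_pow_lt_pow_left₀ 2 (norm_nonneg _)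
    nlinarith
  have hmz : m ((z - w) / (z - conj w)) = z := by
    have h1 : w - conj w ≠ 0 := by
      intro h
      have := congrArg Complex.im h
      simp at this
      linarith
    have h2 : 1 - (z - w) / (z - conj w) = (w - conj w) / (z - conj w) := by
      field_simp; ring
    simp only [m]
    rw [h2]
    field_simp
    ring
  have hS := norm_le_norm_of_mapsTo_ball hfd hfm hf0 hζ
  simp only [f, hmz, norm_div] at hS
  have h1 := one_sub_ne _ _ (hb w hw) (hb z hz)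
  rw [div_le_div_iff₀ (norm_pos_iff.2 h1) (norm_pos_iff.2 hzw)] at hS
  have h2 := pow_le_pow_left₀ (by positivity) hS 2
  rw [mul_pow, mul_pow] at h2
  have h3 := mob_id (Φ w) (Φ z)
  rw [← h3, ← hid]
  nlinarith

end

/-- vertical approach -/
noncomputable def pt (x y : ℝ) : ℂ := x + y * I

@[simp] lemma pt_re (x y : ℝ) : (pt x y).re = x := by simp [pt]
@[simp] lemma pt_im (x y : ℝ) : (pt x y).im = y := by simp [pt]

lemma pt_mem {x y : ℝ} (hy : 0 < y) : pt x y ∈ H := by simpa [H] using hy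

noncomputable def Q (Φ : ℂ → ℂ) (x y : ℝ) : ℝ := (1 - ‖Φ (pt x y)‖ ^ 2) / (2 * y)

def Jul (Φ : ℂ → ℂ) (x d : ℝ) (α : ℂ) : Prop :=
  ‖α‖ = 1 ∧ ∀ z ∈ H, 2 * z.im * ‖α - Φ z‖ ^ 2 ≤ d * (1 - ‖Φ z‖ ^ 2) * ‖z - x‖ ^ 2

lemma norm_one_sub_conj {α : ℂ} (hα : ‖α‖ = 1) (b : ℂ) : ‖1 - conj α * b‖ = ‖α - b‖ := by
  have h1 : conj α * α = 1 := by
    rw [mul_comm, Complex.mul_conj, Complex.normSq_eq_norm_sq, hα]; simp
  have : 1 - conj α * b = conj α * (α - b) := by rw [mul_sub, h1]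
  rw [this, norm_mul, Complex.norm_conj, hα, one_mul]

section
variable {Φ : ℂ → ℂ} (hd : DifferentiableOn ℂ Φ H) (hb : ∀ z ∈ H, ‖Φ z‖ < 1)
include hd hb

lemma julia (x d : ℝ) (α : ℂ) (l : Filter ℝ) [l.NeBot] (hl : l ≤ 𝓝[>] 0)
    (hQ : Tendsto (Q Φ x) l (𝓝 d)) (hα : Tendsto (fun y => Φ (pt x y)) l (𝓝 α)) :
    Jul Φ x d α := by
  have hpos : ∀ᶠ y in l, 0 < y := hl self_mem_nhdsWithin
  have hy0 : Tendsto (fun y : ℝ => y) l (𝓝 0) := hl.trans nhdsWithin_le_nhds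
  have hα1 : ‖α‖ = 1 := by
    have h1 : Tendsto (fun y => 1 - ‖Φ (pt x y)‖ ^ 2) l (𝓝 (1 - ‖α‖ ^ 2)) :=
      (hα.norm.pow 2).const_sub 1
    have h2 : Tendsto (fun y => 2 * y * Q Φ x y) l (𝓝 (2 * 0 * d)) := (hy0.const_mul 2).mul hQ
    have h3 : (fun y => 2 * y * Q Φ x y) =ᶠ[l] fun y => 1 - ‖Φ (pt x y)‖ ^ 2 := by
      filter_upwards [hpos] with y hy
      simp only [Q]
      field_simp
    have h4 := tendsto_nhds_unique (h2.congr' h3) h1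
    have h5 : ‖α‖ ^ 2 = 1 := by linarith
    exact (pow_eq_one_iff_of_nonneg (norm_nonneg _) two_ne_zero).1 h5
  refine ⟨hα1, fun z hz => ?_⟩
  have h1 : Tendsto (fun y => 2 * z.im * ‖1 - conj (Φ (pt x y)) * Φ z‖ ^ 2) l
      (𝓝 (2 * z.im * ‖1 - conj α * Φ z‖ ^ 2)) :=
    (((((continuous_conj.tendsto α).comp hα).mul_const _).const_sub 1).norm.pow 2).const_mul _
  have hc : Continuous (fun y : ℝ => ‖z - conj (pt x y)‖ ^ 2) := by
    unfold pt; fun_prop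
  have h2 : Tendsto (fun y => Q Φ x y * (1 - ‖Φ z‖ ^ 2) * ‖z - conj (pt x y)‖ ^ 2) l
      (𝓝 (d * (1 - ‖Φ z‖ ^ 2) * ‖z - conj (pt x 0)‖ ^ 2)) :=
    (hQ.mul_const _).mul ((hc.tendsto 0).comp hy0)
  have h3 : conj (pt x 0) = x := by simp [pt]
  rw [h3] at h2
  rw [norm_one_sub_conj hα1] at h1
  refine le_of_tendsto_of_tendsto h1 h2 ?_
  filter_upwards [hpos] with y hy
  have h4 := schwarz_pick hd hb hz (pt_mem (x := x) hy)
  rw [pt_im] at h4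
  simp only [Q]
  rw [div_mul_eq_mul_div, div_mul_eq_mul_div, le_div_iff₀ (by positivity)]
  linarith

omit hd in
lemma Q_pos (x : ℝ) {y : ℝ} (hy : 0 < y) : 0 < Q Φ x y := by
  have := hb _ (pt_mem (x := x) hy)
  apply div_pos _ (by positivity)
  nlinarith [norm_nonneg (Φ (pt x y))]

omit hd hb in
lemma jul_vert {x d : ℝ} {α : ℂ} (h : Jul Φ x d α) {y : ℝ} (hy : 0 < y) :
    2 * ‖α - Φ (pt x y)‖ ^ 2 ≤ d * (1 - ‖Φ (pt x y)‖ ^ 2) * y := by
  have h1 := h.2 _ (pt_mem (x := x) hy)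
  have h2 : ‖pt x y - x‖ ^ 2 = y ^ 2 := by
    rw [nsq]; simp
  rw [h2, pt_im] at h1
  have h3 : y * (2 * ‖α - Φ (pt x y)‖ ^ 2) ≤ y * (d * (1 - ‖Φ (pt x y)‖ ^ 2) * y) := by
    nlinarith
  exact le_of_mul_le_mul_left h3 hy

omit hd in
lemma Q_le {x d : ℝ} {α : ℂ} (h : Jul Φ x d α) {y : ℝ} (hy : 0 < y) : Q Φ x y ≤ d := by
  have h1 := jul_vert h hy
  have h2 := hb _ (pt_mem (x := x) hy)
  set β := ‖Φ (pt x y)‖ with hβ
  have hβ0 : 0 ≤ β := norm_nonneg _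
  have h3 : 1 - β ≤ ‖α - Φ (pt x y)‖ := by
    have := norm_sub_norm_le α (Φ (pt x y))
    rw [h.1] at this
    exact this
  have h4 : (1 - β) ^ 2 ≤ ‖α - Φ (pt x y)‖ ^ 2 := pow_le_pow_left₀ (by linarith) h3 2
  have h5 : (1 - β) * (2 * (1 - β)) ≤ (1 - β) * (d * y * (1 + β)) := by nlinarith
  have h6 : 2 * (1 - β) ≤ d * y * (1 + β) := le_of_mul_le_mul_left h5 (by linarith)
  have h7 : 0 ≤ d * y := by
    by_contra hc
    push Not at hc
    nlinarith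
  simp only [Q]
  rw [div_le_iff₀ (by positivity), ← hβ]
  have h8 : (1 + β) ^ 2 ≤ 4 := by nlinarith
  nlinarith

omit hd in
lemma exists_lim (x : ℝ) (U : Ultrafilter ℝ) (hU : (U : Filter ℝ) ≤ 𝓝[>] 0) (C : ℝ)
    (hC : ∀ᶠ y in (U : Filter ℝ), Q Φ x y ≤ C) :
    ∃ d α, Tendsto (Q Φ x) U (𝓝 d) ∧ Tendsto (fun y => Φ (pt x y)) U (𝓝 α) := by
  have hpos : ∀ᶠ y in (U : Filter ℝ), 0 < y := hU self_mem_nhdsWithin
  obtain ⟨d, -, hd'⟩ := (isCompact_Icc (a := (0:ℝ)) (b := C)).ultrafilter_le_nhds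
    (U.map (Q Φ x)) (by
      rw [le_principal_iff, Ultrafilter.coe_map, mem_map]
      filter_upwards [hpos, hC] with y hy hy2
      exact ⟨(Q_pos hb x hy).le, hy2⟩)
  obtain ⟨α, -, hα⟩ := (isCompact_closedBall (0 : ℂ) 1).ultrafilter_le_nhds
    (U.map (fun y => Φ (pt x y))) (by
      rw [le_principal_iff, Ultrafilter.coe_map, mem_map]
      filter_upwards [hpos] with y hy
      exact mem_closedBall_zero_iff.2 (hb _ (pt_mem hy)).le)
  exact ⟨d, α, hd', hα⟩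

lemma dichotomy (x : ℝ) : Tendsto (Q Φ x) (𝓝[>] 0) atTop ∨
    ∃ d α, Jul Φ x d α ∧ Tendsto (Q Φ x) (𝓝[>] 0) (𝓝 d) := by
  by_cases h : Tendsto (Q Φ x) (𝓝[>] 0) atTop
  · exact Or.inl h
  right
  rw [Filter.tendsto_atTop] at h
  push Not at h
  obtain ⟨C, hC⟩ := h
  have hne : (𝓝[>] (0:ℝ) ⊓ 𝓟 {y | Q Φ x y < C}).NeBot := frequently_iff_neBot.1 hC
  obtain ⟨U0, hU0⟩ := Ultrafilter.exists_le (𝓝[>] (0:ℝ) ⊓ 𝓟 {y | Q Φ x y < C})
  have hU1 : (U0 : Filter ℝ) ≤ 𝓝[>] 0 := hU0.trans inf_le_left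
  obtain ⟨d, α, h1, h2⟩ := exists_lim hb x U0 hU1 C (by
    have : {y | Q Φ x y < C} ∈ (U0 : Filter ℝ) := le_principal_iff.1 (hU0.trans inf_le_right)
    filter_upwards [this] with y hy using le_of_lt hy)
  have hJ := julia hd hb x d α U0 hU1 h1 h2
  refine ⟨d, α, hJ, ?_⟩
  rw [tendsto_iff_ultrafilter]
  intro U hU
  have hpos : ∀ᶠ y in (U : Filter ℝ), 0 < y := hU self_mem_nhdsWithin
  have hle : ∀ᶠ y in (U : Filter ℝ), Q Φ x y ≤ d := by
    filter_upwards [hpos] with y hy using Q_le hb hJ hy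
  obtain ⟨d', α', h3, h4⟩ := exists_lim hb x U hU d hle
  have hJ' := julia hd hb x d' α' U hU h3 h4
  have h5 : d' ≤ d := le_of_tendsto h3 hle
  have h6 : d ≤ d' := le_of_tendsto h1 (by
    filter_upwards [hU1 self_mem_nhdsWithin] with y hy using Q_le hb hJ' hy)
  rw [le_antisymm h6 h5]
  exact h3

omit hd in
lemma radial {x d : ℝ} {α : ℂ} (h : Jul Φ x d α) (hQ : Tendsto (Q Φ x) (𝓝[>] 0) (𝓝 d)) :
    Tendsto (fun y : ℝ => (1 - conj α * Φ (pt x y)) / y) (𝓝[>] 0) (𝓝 (d : ℂ)) := by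
  have hd0 : 0 ≤ d := (Q_pos hb x one_pos).le.trans (Q_le hb h one_pos)
  rw [tendsto_iff_norm_sub_tendsto_zero]
  have h1 : Tendsto (fun y => Real.sqrt (2 * d * (d - Q Φ x y))) (𝓝[>] 0)
      (𝓝 (Real.sqrt (2 * d * (d - d)))) := ((hQ.const_sub d).const_mul _).sqrt
  rw [sub_self, mul_zero, Real.sqrt_zero] at h1
  refine squeeze_zero' (Eventually.of_forall fun _ => norm_nonneg _) ?_ h1
  filter_upwards [self_mem_nhdsWithin] with y hy
  have hy : 0 < y := hy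
  apply Real.le_sqrt_of_sq_le
  have h2 := jul_vert h hy
  have h3 := Q_le hb h hy
  set b := Φ (pt x y) with hb'
  have hQy : 1 - ‖b‖ ^ 2 = 2 * y * Q Φ x y := by
    simp only [Q, ← hb']; field_simp
  set w := 1 - conj α * b with hw
  have h4 : ‖w‖ = ‖α - b‖ := norm_one_sub_conj h.1 b
  have h5 : ‖w‖ ^ 2 ≤ d ^ 2 * y ^ 2 := by
    rw [h4]
    rw [hQy] at h2
    have : d * y ^ 2 * Q Φ x y ≤ d * y ^ 2 * d := by gcongr
    nlinarith
  have h6 : y * Q Φ x y ≤ w.re := by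
    have h7 : ‖1 - w‖ = ‖b‖ := by
      rw [hw, sub_sub_cancel, norm_mul, Complex.norm_conj, h.1, one_mul]
    have h8 : ‖b‖ ^ 2 = (1 - w.re) ^ 2 + w.im ^ 2 := by
      rw [← h7, nsq]; simp
    nlinarith [sq_nonneg w.re, sq_nonneg w.im]
  have h9 : w / y - d = (w - d * y) / y := by
    have : (y : ℂ) ≠ 0 := by exact_mod_cast hy.ne'
    field_simp
  rw [h9, norm_div, div_pow, Complex.norm_real, Real.norm_eq_abs, sq_abs,
    div_le_iff₀ (by positivity), nsq]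
  rw [nsq] at h5
  simp only [sub_re, sub_im, mul_re, mul_im, ofReal_re, ofReal_im]
  have h10 : d * y * (y * Q Φ x y) ≤ d * y * w.re := by gcongr
  nlinarith

end

end Pool.Agent.H24.WAT
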