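import Pool.Agent.H24.WAT1

set_option autoImplicit false
open Complex Filter Topology Set Metric
open scoped ComplexConjugate

namespace Pool.Agent.H24.WAT

/-- nontangential limit zero at the real point `x` -/
def NT (F : ℂ → ℂ) (x : ℝ) : Prop :=
  ∀ ε > 0, ∃ δ > 0, ∀ a y : ℝ, 0 < y → y ≤ δ → |a| ≤ 8 * y → ‖F (pt (x + a) y)‖ ≤ ε

lemma conj_mul_self {α : ℂ} (hα : ‖α‖ = 1) : conj α * α = 1 := by
  rw [mul_comm, Complex.mul_conj, Complex.normSq_eq_norm_sq, hα]; simp

section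
variable {Φ : ℂ → ℂ} (hd : DifferentiableOn ℂ Φ H) (hb : ∀ z ∈ H, ‖Φ z‖ < 1)
include hd hb

omit hd in
lemma sub_ne {α : ℂ} (hα : ‖α‖ = 1) {z : ℂ} (hz : z ∈ H) : α - Φ z ≠ 0 := by
  intro h
  have h1 : Φ z = α := by linear_combination -h
  have := hb z hz
  rw [h1, hα] at this
  exact lt_irrefl _ this

omit hd hb in
lemma sub_real_ne {z : ℂ} (hz : z ∈ H) (x : ℝ) : z - x ≠ 0 := by
  intro h
  have := congrArg Complex.im h
  have hz' : 0 < z.im := hz
  simp at this
  linarith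

lemma nontang {x : ℝ} {α : ℂ} (h : Jul Φ x 1 α) (hQ : Tendsto (Q Φ x) (𝓝[>] 0) (𝓝 1)) :
    NT (fun z => deriv Φ z - I * Φ z) x := by
  have hα := h.1
  have hcα := conj_mul_self hα
  let g : ℂ → ℂ := fun z => (α + Φ z) / (α - Φ z) - 2 * I / (z - x)
  have hgd : DifferentiableOn ℂ g H :=
    (DifferentiableOn.div (hd.const_add _) (hd.const_sub _) (fun z hz => sub_ne hb hα hz)).sub
      (DifferentiableOn.div (by fun_prop) (by fun_prop) (fun z hz => sub_real_ne hz x))
  have hgre : ∀ z ∈ H, 0 ≤ (g z).re := by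
    intro z hz
    have h1 := h.2 z hz
    have hA := sub_ne hb hα hz
    have hτ := sub_real_ne hz x
    have h2 : ((α + Φ z) / (α - Φ z)).re = (1 - ‖Φ z‖ ^ 2) / ‖α - Φ z‖ ^ 2 := by
      rw [div_re, ← add_div, Complex.normSq_eq_norm_sq]
      congr 1
      have h3 : α.re ^ 2 + α.im ^ 2 = 1 := by rw [← nsq, hα]; norm_num
      rw [nsq]
      simp only [add_re, add_im, sub_re, sub_im]
      linarith
    have h4 : (2 * I / (z - x)).re = 2 * z.im / ‖z - x‖ ^ 2 := by
      rw [div_re, ← add_div, Complex.normSq_eq_norm_sq]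
      congr 1
      simp
    simp only [g, sub_re]
    rw [h2, h4, sub_nonneg, div_le_div_iff₀ (by positivity) (by positivity)]
    linarith
  have hrad := radial hb h hQ
  have hy0 : Tendsto (fun y : ℝ => (y : ℂ)) (𝓝[>] 0) (𝓝 0) := by
    have := (continuous_ofReal.tendsto 0).mono_left (nhdsWithin_le_nhds (s := Ioi 0))
    simpa using this
  have hg0 : Tendsto (fun y : ℝ => (y : ℂ) * g (pt x y)) (𝓝[>] 0) (𝓝 0) := by
    have h1 : Tendsto (fun y : ℝ => (2 - y * ((1 - conj α * Φ (pt x y)) / y))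
        / ((1 - conj α * Φ (pt x y)) / y) - 2) (𝓝[>] 0) (𝓝 ((2 - 0 * (1:ℝ)) / (1:ℝ) - 2)) :=
      (((hy0.mul hrad).const_sub 2).div hrad (by simp)).sub_const 2
    have h2 : ((2 - 0 * (1:ℝ)) / (1:ℝ) - 2 : ℂ) = 0 := by simp
    rw [h2] at h1
    refine h1.congr' ?_
    filter_upwards [self_mem_nhdsWithin] with y hy
    have hy : 0 < y := hy
    have hy' : (y : ℂ) ≠ 0 := by exact_mod_cast hy.ne'
    have hA := sub_ne hb hα (pt_mem (x := x) hy)
    have hα0 : conj α ≠ 0 := by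
      intro h0; rw [h0] at hcα; simp at hcα
    have h3 : 1 - conj α * Φ (pt x y) = conj α * (α - Φ (pt x y)) := by rw [mul_sub, hcα]
    have h4 : pt x y - x = y * I := by simp [pt]
    simp only [g]
    rw [h3, h4]
    field_simp
    linear_combination (-2 * y) * hcα
  intro ε hε
  obtain ⟨η, hη, hη1, hη2⟩ : ∃ η : ℝ, 0 < η ∧ η ≤ 1 / 100000 ∧ η ≤ ε / 10000000 :=
    ⟨min (1 / 100000) (ε / 10000000), by positivity, min_le_left _ _, min_le_right _ _⟩
  have hev : ∀ᶠ y : ℝ in 𝓝[>] 0, ‖(y : ℂ) * g (pt x y)‖ < η := by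
    have := hg0.norm
    rw [norm_zero] at this
    exact this.eventually (gt_mem_nhds hη)
  obtain ⟨δ, hδ, hδ'⟩ := (mem_nhdsGT_iff_exists_Ioc_subset).1 hev
  have hδ0 : 0 < δ := hδ
  refine ⟨min (δ / 100) η, by positivity, fun a y hy hyδ ha => ?_⟩
  have hy1 : y ≤ δ / 100 := hyδ.trans (min_le_left _ _)
  have hy2 : y ≤ η := hyδ.trans (min_le_right _ _)
  have hc : ‖g (pt x (100 * y))‖ ≤ η / y := by
    have := hδ' (show 100 * y ∈ Ioc 0 δ from ⟨by positivity, by linarith⟩)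
    simp only [mem_ofPred_eq, norm_mul, Complex.norm_real, Real.norm_eq_abs,
      abs_of_pos (by positivity : 0 < 100 * y)] at this
    rw [le_div_iff₀ hy]
    nlinarith [norm_nonneg (g (pt x (100 * y)))]
  have hball : ∀ ζ ∈ ball (0 : ℂ) (100 * y), pt x (100 * y) + ζ ∈ H := by
    intro ζ hζ
    have h1 : ‖ζ‖ < 100 * y := by simpa using hζ
    have h2 := abs_le.1 (abs_im_le_norm ζ)
    show 0 < (pt x (100 * y) + ζ).im
    simp only [add_im, pt_im]
    linarith [h2.1]
  set z0 := pt (x + a) y with hz0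
  have ha' := abs_le.1 ha
  -- geometry of the small disc
  have hgeo : ∀ z ∈ closedBall z0 (y / 2), z ∈ H ∧ ‖z - pt x (100 * y)‖ ≤ 99.9 * y
      ∧ ‖z - x‖ ≤ 9 * y := by
    intro z hz
    rw [mem_closedBall, dist_eq_norm] at hz
    have h1 := abs_le.1 ((abs_re_le_norm (z - z0)).trans hz)
    have h2 := abs_le.1 ((abs_im_le_norm (z - z0)).trans hz)
    simp only [hz0, sub_re, sub_im, pt_re, pt_im] at h1 h2
    have h3 : (z.re - x) ^ 2 ≤ (8.5 * y) ^ 2 :=
      sq_le_sq' (by linarith [h1.1, ha'.1]) (by linarith [h1.2, ha'.2])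
    refine ⟨show 0 < z.im by linarith [h2.1], ?_, ?_⟩
    · apply le_of_sq_le_sq _ (by positivity)
      rw [nsq]
      simp only [sub_re, sub_im, pt_re, pt_im]
      have h4 : (z.im - 100 * y) ^ 2 ≤ (99.5 * y) ^ 2 :=
        sq_le_sq' (by linarith [h2.1]) (by linarith [h2.2])
      nlinarith
    · apply le_of_sq_le_sq _ (by positivity)
      rw [nsq]
      simp only [sub_re, sub_im, ofReal_re, ofReal_im, sub_zero]
      have h4 : z.im ^ 2 ≤ (1.5 * y) ^ 2 := sq_le_sq' (by linarith [h2.1]) (by linarith [h2.2])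
      nlinarith
  have hgb : ∀ z ∈ closedBall z0 (y / 2), ‖g z‖ ≤ 4000 * (η / y) := by
    intro z hz
    obtain ⟨-, h2, -⟩ := hgeo z hz
    have h3 := borelCaratheodory (f := fun ζ => -g (pt x (100 * y) + ζ)) (M := η / y)
      (R := 100 * y) (z := z - pt x (100 * y)) (by positivity)
      ((hgd.comp (by fun_prop) hball).neg)
      (fun ζ hζ => by
        have := hgre _ (hball ζ hζ)
        have h5 : 0 < η / y := by positivity
        simp only [mem_ofPred_eq, neg_re]
        linarith) (by positivity) (by rw [mem_ball_zero_iff]; linarith)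
    simp only [add_sub_cancel, add_zero, norm_neg] at h3
    set ρ := ‖z - pt x (100 * y)‖ with hρ
    have hρ0 : 0 ≤ ρ := norm_nonneg _
    have h4 : 0 < 100 * y - ρ := by linarith
    have h5 : 0 < η / y := by positivity
    refine h3.trans ?_
    rw [← add_div, div_le_iff₀ h4]
    have h6 : ‖g (pt x (100 * y))‖ * (100 * y + ρ) ≤ η / y * (199.9 * y) :=
      mul_le_mul hc (by linarith) (by positivity) h5.le
    have h7 : η / y * ρ ≤ η / y * (99.9 * y) := by gcongr
    have h8 : η / y * (0.1 * y) ≤ η / y * (100 * y - ρ) := by gcongr; linarith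
    nlinarith
  let E : ℂ → ℂ := fun z => Φ z - α - I * α * (z - x)
  have hE : ∀ z ∈ closedBall z0 (y / 2), ‖E z‖ ≤ 9 * y * (36009 * η) := by
    intro z hz
    obtain ⟨h1, -, h3⟩ := hgeo z hz
    have h4 := hgb z hz
    have hA := sub_ne hb hα h1
    have hτ := sub_real_ne h1 x
    set t := (z - x) * (g z + 1) with ht
    have htn : ‖t‖ ≤ 36009 * η := by
      rw [ht, norm_mul]
      have h5 : ‖g z + 1‖ ≤ 4000 * (η / y) + 1 := (norm_add_le _ _).trans (by simpa using h4)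
      calc ‖z - x‖ * ‖g z + 1‖ ≤ 9 * y * (4000 * (η / y) + 1) :=
            mul_le_mul h3 h5 (norm_nonneg _) (by positivity)
        _ = 36000 * η + 9 * y := by field_simp; ring
        _ ≤ _ := by linarith
    have hid : E z * (2 * I + t) = -(I * α * (z - x) * t) := by
      have h5 : (α - Φ z) * (2 * I + t) = 2 * α * (z - x) := by
        simp only [ht, g]
        field_simp
        ring
      simp only [E]
      linear_combination -h5 - 2 * α * (z - x) * I_mul_I
    have h6 : 1 ≤ ‖2 * I + t‖ := by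
      have := norm_sub_norm_le (2 * I) (-t)
      simp only [norm_mul, norm_I, norm_neg, sub_neg_eq_add, Complex.norm_ofNat] at this
      linarith
    have h7 := congrArg norm hid
    simp only [norm_mul, norm_neg, norm_I, hα, one_mul] at h7
    calc ‖E z‖ ≤ ‖E z‖ * ‖2 * I + t‖ := le_mul_of_one_le_right (norm_nonneg _) h6
      _ = ‖z - x‖ * ‖t‖ := h7
      _ ≤ _ := mul_le_mul h3 htn (norm_nonneg _) (by positivity)
  have hEd : DifferentiableOn ℂ E H := (hd.sub_const _).sub (by fun_prop)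
  have hsub : closedBall z0 (y / 2) ⊆ H := fun z hz => (hgeo z hz).1
  have hder := norm_deriv_le_of_forall_mem_sphere_norm_le (c := z0) (R := y / 2) (f := E)
    (by positivity) ((hEd.mono (closure_ball_subset_closedBall.trans hsub)).diffContOnCl)
    (fun z hz => hE z (sphere_subset_closedBall hz))
  have hz0m : z0 ∈ closedBall z0 (y / 2) := mem_closedBall_self (by positivity)
  have hdz : HasDerivAt E (deriv Φ z0 - I * α) z0 := by
    have h1 : HasDerivAt Φ (deriv Φ z0) z0 :=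
      (hd.differentiableAt (isOpen_H.mem_nhds (hsub hz0m))).hasDerivAt
    have h2 : HasDerivAt (fun z : ℂ => I * α * (z - x)) (I * α * 1) z0 :=
      ((hasDerivAt_id z0).sub_const _).const_mul _
    rw [mul_one] at h2
    exact (h1.sub_const α).sub h2
  rw [hdz.deriv] at hder
  have h9 : 9 * y * (36009 * η) / (y / 2) = 648162 * η := by field_simp; ring
  rw [h9] at hder
  have h10 : deriv Φ z0 - I * Φ z0
      = (deriv Φ z0 - I * α) + (-(I * E z0) + α * (z0 - x)) := by
    simp only [E]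
    linear_combination (-α * (z0 - x)) * I_mul_I
  show ‖deriv Φ z0 - I * Φ z0‖ ≤ ε
  rw [h10]
  have h11 := hE z0 hz0m
  have h12 := (hgeo z0 hz0m).2.2
  refine (norm_add_le _ _).trans ((add_le_add hder (norm_add_le _ _)).trans ?_)
  simp only [norm_neg, norm_mul, norm_I, hα, one_mul]
  nlinarith

omit hd hb in
lemma height_tendsto {σ : ℝ} (hσ : 0 < σ) :
    Tendsto (fun n : ℕ => σ / ((n : ℝ) + 1)) atTop (𝓝[>] 0) := by
  rw [tendsto_nhdsWithin_iff]
  refine ⟨?_, Eventually.of_forall fun n => show 0 < σ / ((n : ℝ) + 1) by positivity⟩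
  exact tendsto_const_nhds.div_atTop
    (tendsto_atTop_add_const_right _ 1 tendsto_natCast_atTop_atTop)

omit hd in
lemma pow_fin {x d : ℝ} {α : ℂ} (h : Jul Φ x d α) (hQ : Tendsto (Q Φ x) (𝓝[>] 0) (𝓝 d))
    {σ : ℝ} (hσ : 0 < σ) (j : ℕ) :
    Tendsto (fun n : ℕ => (conj α * Φ (pt x (σ / ((n : ℝ) + 1)))) ^ (n + 1 + j)) atTop
      (𝓝 ((Real.exp (-d * σ) : ℝ) : ℂ)) := by
  have hrad := (radial hb h hQ).comp (height_tendsto hσ)
  let G : ℕ → ℂ := fun m => conj α * Φ (pt x (σ / (m : ℝ))) - 1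
  have h1 : Tendsto (fun n : ℕ => ((n + 1 : ℕ) : ℂ) * G (n + 1)) atTop (𝓝 (-σ * d)) := by
    refine (hrad.const_mul (-(σ : ℂ))).congr fun n => ?_
    have hn : ((n : ℂ) + 1) ≠ 0 := by exact_mod_cast Nat.succ_ne_zero n
    have hσ' : (σ : ℂ) ≠ 0 := by exact_mod_cast hσ.ne'
    simp only [G, Function.comp]
    push_cast
    field_simp
    ring
  have h2 : Tendsto (fun n : ℕ => (n : ℂ) * G n) atTop (𝓝 (-σ * d)) :=
    (tendsto_add_atTop_iff_nat 1).1 h1
  have h3 := (Complex.tendsto_one_add_pow_exp_of_tendsto h2).comp (tendsto_add_atTop_nat 1)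
  have h4 : Tendsto (fun n : ℕ => 1 + G (n + 1)) atTop (𝓝 (1 + -σ * d * 0)) := by
    have h5 : Tendsto (fun n : ℕ => (((n + 1 : ℕ) : ℂ))⁻¹) atTop (𝓝 0) := by
      have := (tendsto_inv_atTop_nhds_zero_nat (𝕜 := ℂ)).comp (tendsto_add_atTop_nat 1)
      exact this
    refine ((h1.mul h5).const_add 1).congr fun n => ?_
    have hn : ((n + 1 : ℕ) : ℂ) ≠ 0 := by exact_mod_cast Nat.succ_ne_zero n
    field_simp
  have h6 := h3.mul (h4.pow j)
  have h7 : cexp (-σ * d) * (1 + -σ * d * 0) ^ j = ((Real.exp (-d * σ) : ℝ) : ℂ) := by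
    push_cast
    simp [mul_comm]
  rw [h7] at h6
  refine h6.congr fun n => ?_
  simp only [G, Function.comp, add_sub_cancel, pow_add (_ : ℂ) (n + 1) j]
  push_cast
  rfl

omit hd in
lemma pow_inf {x : ℝ} (hQ : Tendsto (Q Φ x) (𝓝[>] 0) atTop) {σ : ℝ} (hσ : 0 < σ) (j : ℕ) :
    Tendsto (fun n : ℕ => Φ (pt x (σ / ((n : ℝ) + 1))) ^ (n + 1 + j)) atTop (𝓝 0) := by
  have h1 := (hQ.comp (height_tendsto hσ)).const_mul_atTop hσ
  have h2 := Real.tendsto_exp_neg_atTop_nhds_zero.comp h1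
  rw [tendsto_zero_iff_norm_tendsto_zero]
  refine squeeze_zero (fun _ => norm_nonneg _) (fun n => ?_) h2
  have hy : 0 < σ / ((n : ℝ) + 1) := by positivity
  set y := σ / ((n : ℝ) + 1) with hy'
  have hb1 := hb _ (pt_mem (x := x) hy)
  have h3 : ‖Φ (pt x y)‖ ≤ Real.exp (-(y * Q Φ x y)) := by
    refine le_trans ?_ (Real.add_one_le_exp _)
    have : y * Q Φ x y = (1 - ‖Φ (pt x y)‖ ^ 2) / 2 := by
      simp only [Q]; field_simp
    rw [this]
    nlinarith [sq_nonneg (1 - ‖Φ (pt x y)‖)]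
  rw [norm_pow]
  calc ‖Φ (pt x y)‖ ^ (n + 1 + j) ≤ ‖Φ (pt x y)‖ ^ (n + 1) :=
        pow_le_pow_of_le_one (norm_nonneg _) hb1.le (Nat.le_add_right _ _)
    _ ≤ Real.exp (-(y * Q Φ x y)) ^ (n + 1) := pow_le_pow_left₀ (norm_nonneg _) h3 _
    _ = _ := by
        rw [← Real.exp_nat_mul]
        simp only [Function.comp]
        congr 1
        rw [← hy', hy']
        push_cast
        field_simp

lemma pt_limit (x : ℝ) (j : ℕ) : ∃ e : ℝ, 0 ≤ e ∧ e ≤ 1 ∧
    (e = Real.exp (-1) → NT (fun z => deriv Φ z - I * Φ z) x ∧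
      ∃ α : ℂ, ‖α‖ = 1 ∧ Tendsto (fun y => Φ (pt x y)) (𝓝[>] 0) (𝓝 α)) ∧
    ∀ (q : ℕ → ℝ) (S : ℕ), Tendsto (fun n : ℕ => ‖∑ s ∈ Finset.range S,
      (q s : ℂ) * Φ (pt x (((s : ℝ) + 1) / ((n : ℝ) + 1))) ^ (n + 1 + j)‖) atTop
      (𝓝 |∑ s ∈ Finset.range S, q s * e ^ (s + 1)|) := by
  rcases dichotomy hd hb x with h | ⟨d, α, hJ, hQ⟩
  · refine ⟨0, le_rfl, zero_le_one, fun h0 => absurd h0 (Real.exp_pos _).ne, fun q S => ?_⟩
    have h1 : Tendsto (fun n : ℕ => ∑ s ∈ Finset.range S,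
        (q s : ℂ) * Φ (pt x (((s : ℝ) + 1) / ((n : ℝ) + 1))) ^ (n + 1 + j)) atTop
        (𝓝 (∑ s ∈ Finset.range S, (q s : ℂ) * 0)) :=
      tendsto_finsetSum _ fun s _ => (pow_inf hb h (by positivity) j).const_mul _
    simpa using h1.norm
  · have hd0 : 0 ≤ d := (Q_pos hb x one_pos).le.trans (Q_le hb hJ one_pos)
    refine ⟨Real.exp (-d), (Real.exp_pos _).le, Real.exp_le_one_iff.2 (by linarith), ?_,
      fun q S => ?_⟩
    · intro h1
      have h2 : d = 1 := by
        have := Real.exp_injective h1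
        linarith
      subst h2
      refine ⟨nontang hd hb hJ hQ, α, hJ.1, ?_⟩
      have hrad := radial hb hJ hQ
      have hy0 : Tendsto (fun y : ℝ => (y : ℂ)) (𝓝[>] 0) (𝓝 0) := by
        have := (continuous_ofReal.tendsto 0).mono_left (nhdsWithin_le_nhds (s := Ioi 0))
        simpa using this
      have h3 := ((hy0.mul hrad).const_sub 1).const_mul α
      simp only [zero_mul, sub_zero, mul_one] at h3
      refine h3.congr' ?_
      filter_upwards [self_mem_nhdsWithin] with y hy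
      have hy : 0 < y := hy
      have hy' : (y : ℂ) ≠ 0 := by exact_mod_cast hy.ne'
      have := conj_mul_self hJ.1
      field_simp
      linear_combination (Φ (pt x y)) * this
    · have h1 : Tendsto (fun n : ℕ => ∑ s ∈ Finset.range S,
          (q s : ℂ) * (conj α * Φ (pt x (((s : ℝ) + 1) / ((n : ℝ) + 1)))) ^ (n + 1 + j)) atTop
          (𝓝 (∑ s ∈ Finset.range S, (q s : ℂ) * ((Real.exp (-d * (s + 1)) : ℝ) : ℂ))) :=
        tendsto_finsetSum _ fun s _ => (pow_fin hb hJ hQ (by positivity) j).const_mul _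
      have h2 : ‖∑ s ∈ Finset.range S, (q s : ℂ) * ((Real.exp (-d * (s + 1)) : ℝ) : ℂ)‖
          = |∑ s ∈ Finset.range S, q s * Real.exp (-d) ^ (s + 1)| := by
        rw [← Real.norm_eq_abs, ← Complex.norm_real, ofReal_sum]
        congr 1
        refine Finset.sum_congr rfl fun s _ => ?_
        rw [← Real.exp_nat_mul, ofReal_mul]
        congr 3
        push_cast
        ring
      rw [← h2]
      refine h1.norm.congr fun n => ?_
      simp only [mul_pow, mul_left_comm _ (conj α ^ _), ← Finset.mul_sum, norm_mul, norm_pow,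
        Complex.norm_conj, hJ.1, one_pow, one_mul]

end

end Pool.Agent.H24.WAT
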