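import Pool.Agent.H24.WAT2

set_option autoImplicit false
open Complex Filter Topology Set Metric MeasureTheory
open scoped ComplexConjugate ENNReal

namespace Pool.Agent.H24.WAT

noncomputable def pk (x y t : ℝ) : ℝ := y / ((x - t) ^ 2 + y ^ 2)

lemma pk_eq {x y : ℝ} (hy : 0 < y) (t : ℝ) : pk x y t = y⁻¹ * (1 + ((t - x) / y) ^ 2)⁻¹ := by
  unfold pk
  field_simp
  ring

lemma pk_nonneg {x y : ℝ} (hy : 0 < y) (t : ℝ) : 0 ≤ pk x y t := by
  unfold pk; positivity

lemma pk_int {x y : ℝ} (hy : 0 < y) : Integrable (pk x y) := by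
  have h1 := ((integrable_inv_one_add_sq.comp_div hy.ne').comp_sub_right x).const_mul y⁻¹
  exact h1.congr (Eventually.of_forall fun t => (pk_eq hy t).symm)

lemma pk_integral {x y : ℝ} (hy : 0 < y) : ∫ t, pk x y t = Real.pi := by
  simp_rw [pk_eq hy]
  rw [integral_const_mul, integral_sub_right_eq_self (fun t => (1 + (t / y) ^ 2)⁻¹) x,
    Measure.integral_comp_div (fun t => (1 + t ^ 2)⁻¹) y, integral_univ_inv_one_add_sq,
    abs_of_pos hy, smul_eq_mul]
  field_simp

noncomputable def vv (D : Set ℝ) (x y : ℝ) : ℝ := ∫ t in D, pk x y t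

lemma vv_le_pi (D : Set ℝ) {x y : ℝ} (hy : 0 < y) : vv D x y ≤ Real.pi := by
  rw [← pk_integral (x := x) hy]
  exact setIntegral_le_integral (pk_int hy) (Eventually.of_forall (pk_nonneg hy))

lemma vv_teeth {D : Set ℝ} (hD : MeasurableSet D) {x y : ℝ} (hy : 0 < y)
    (h : ∀ t ∈ D, 8 * y ≤ |x - t|) : vv D x y ≤ 0.8 := by
  have h8 : 0 < 8 * y := by positivity
  have h1 : vv D x y ≤ ∫ t in D, 1 / 4 * pk x (8 * y) t := by
    refine setIntegral_mono_on (pk_int hy).integrableOn
      ((pk_int h8).const_mul _).integrableOn hD fun t ht => ?_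
    have h2 : (8 * y) ^ 2 ≤ (x - t) ^ 2 := by
      rw [← sq_abs (x - t)]
      exact pow_le_pow_left₀ h8.le (h t ht) 2
    unfold pk
    rw [← mul_div_assoc, div_le_div_iff₀ (by positivity) (by positivity)]
    nlinarith [mul_le_mul_of_nonneg_left h2 hy.le, pow_pos hy 3]
  rw [integral_const_mul] at h1
  have h3 := vv_le_pi D (x := x) h8
  have h4 := Real.pi_lt_d2
  unfold vv at h3
  linarith

lemma vv_top {D : Set ℝ} (hD : MeasurableSet D) {L : ℝ} (hL : 0 ≤ L) (hDL : D ⊆ Icc 0 L)
    {x y : ℝ} (hy : 0 < y) : vv D x y ≤ L / y := by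
  have h1 : vv D x y ≤ ∫ _ in D, y⁻¹ := by
    refine setIntegral_mono_on (pk_int hy).integrableOn
      (integrableOn_const (ne_top_of_le_ne_top (by simp) (measure_mono hDL))) hD fun t _ => ?_
    rw [pk_eq hy]
    exact mul_le_of_le_one_right (by positivity) (inv_le_one_of_one_le₀ (by nlinarith [sq_nonneg ((t - x) / y)]))
  rw [setIntegral_const, smul_eq_mul] at h1
  have h2 : volume.real D ≤ L := by
    have := measureReal_mono (μ := volume) hDL (by simp)
    simpa [Real.volume_real_Icc_of_le hL] using this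
  rw [div_eq_mul_inv]
  exact h1.trans (by gcongr)

lemma vv_dens {D : Set ℝ} (hD : MeasurableSet D) {x y : ℝ} (hy : 0 < y)
    (h : 0.9 * (2 * y) ≤ volume.real (D ∩ closedBall x y)) : 0.9 ≤ vv D x y := by
  have hfin : volume (D ∩ closedBall x y) ≠ ⊤ :=
    ne_top_of_le_ne_top measure_closedBall_lt_top.ne (measure_mono inter_subset_right)
  have h1 : ∫ _ in D ∩ closedBall x y, (2 * y)⁻¹ ≤ ∫ t in D ∩ closedBall x y, pk x y t := by
    refine setIntegral_mono_on (integrableOn_const hfin) (pk_int hy).integrableOn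
      (hD.inter measurableSet_closedBall) fun t ht => ?_
    have h2 : |t - x| ≤ y := by simpa [Real.dist_eq] using ht.2
    have h3 : (x - t) ^ 2 ≤ y ^ 2 := by
      rw [abs_sub_comm] at h2
      rw [← sq_abs (x - t)]
      exact pow_le_pow_left₀ (abs_nonneg _) h2 2
    unfold pk
    rw [inv_eq_one_div, div_le_div_iff₀ (by positivity) (by positivity)]
    nlinarith
  have h4 : ∫ t in D ∩ closedBall x y, pk x y t ≤ vv D x y :=
    setIntegral_mono_set (pk_int hy).integrableOn (Eventually.of_forall (pk_nonneg hy))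
      (Eventually.of_forall inter_subset_left)
  rw [setIntegral_const, smul_eq_mul] at h1
  refine le_trans ?_ (h1.trans h4)
  rw [← div_eq_mul_inv, le_div_iff₀ (by positivity)]
  exact h

noncomputable def VV (D : Set ℝ) (s : ℂ) : ℂ := ∫ t in D, I / (s - (t : ℝ))

lemma norm_sub_ge {s : ℂ} (t : ℝ) : s.im ≤ ‖s - t‖ := by
  have := (le_abs_self _).trans (abs_im_le_norm (s - t))
  simpa using this

lemma VV_int {D : Set ℝ} (hfin : volume D ≠ ⊤) {s : ℂ} (hs : s ∈ H) :
    IntegrableOn (fun t : ℝ => I / (s - t)) D := by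
  have hs' : 0 < s.im := hs
  have hc : Continuous (fun t : ℝ => I / (s - t)) :=
    continuous_const.div (by fun_prop) (fun t => sub_real_ne hs t)
  refine Measure.integrableOn_of_bounded (M := s.im⁻¹) hfin hc.aestronglyMeasurable
    (Eventually.of_forall fun t => ?_)
  rw [norm_div, norm_I, one_div]
  exact inv_anti₀ hs' (norm_sub_ge t)

lemma VV_re {D : Set ℝ} (hfin : volume D ≠ ⊤) {s : ℂ} (hs : s ∈ H) :
    (VV D s).re = vv D s.re s.im := by
  have := integral_re (VV_int hfin hs)
  simp only [RCLike.re_to_complex] at this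
  rw [VV, ← this, vv]
  congr 1
  funext t
  rw [div_re, normSq_apply, pk]
  simp only [I_re, I_im, sub_re, sub_im, ofReal_re, ofReal_im, sub_zero, zero_mul, zero_div,
    zero_add, one_mul]
  congr 1
  ring

lemma VV_diff {D : Set ℝ} (hfin : volume D ≠ ⊤) : DifferentiableOn ℂ (VV D) H := by
  intro s hs
  have hs' : 0 < s.im := hs
  have hball : ∀ z ∈ ball s (s.im / 2), s.im / 2 ≤ z.im := by
    intro z hz
    rw [mem_ball, dist_eq_norm] at hz
    have := abs_le.1 ((abs_im_le_norm (z - s)).trans hz.le)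
    simp only [sub_im] at this
    linarith [this.1]
  have hballH : ∀ z ∈ ball s (s.im / 2), z ∈ H := fun z hz =>
    show 0 < z.im by linarith [hball z hz]
  have : IsFiniteMeasure (volume.restrict D) := ⟨by simpa using hfin.lt_top⟩
  have hc : Continuous (fun t : ℝ => -I / (s - t) ^ 2) :=
    continuous_const.div (by fun_prop) (fun t => pow_ne_zero _ (sub_real_ne hs t))
  have := hasDerivAt_integral_of_dominated_loc_of_deriv_le (μ := volume.restrict D)
    (F := fun (z : ℂ) (t : ℝ) => I / (z - t)) (F' := fun (z : ℂ) (t : ℝ) => -I / (z - t) ^ 2)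
    (x₀ := s) (bound := fun _ => ((s.im / 2) ^ 2)⁻¹) (ball_mem_nhds s (by positivity : 0 < s.im / 2))
    (by
      filter_upwards [isOpen_H.mem_nhds hs] with z hz
      exact (VV_int hfin hz).aestronglyMeasurable)
    (VV_int hfin hs) hc.aestronglyMeasurable
    (Eventually.of_forall fun t z hz => by
      rw [norm_div, norm_neg, norm_I, one_div, norm_pow]
      exact inv_anti₀ (by positivity)
        (pow_le_pow_left₀ (by positivity) ((hball z hz).trans (norm_sub_ge t)) 2))
    (integrable_const _)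
    (Eventually.of_forall fun t z hz => by
      have h1 := ((hasDerivAt_id z).sub_const (t : ℂ)).inv (sub_real_ne (hballH z hz) t)
      have h2 := h1.const_mul I
      refine h2.congr_deriv ?_ |>.congr_of_eventuallyEq (Eventually.of_forall fun w => ?_)
      · simp only [id]; ring
      · simp only [id, Pi.inv_apply, div_eq_mul_inv])
  exact this.2.differentiableAt.differentiableWithinAt

def KK (F : ℂ → ℂ) (N m : ℕ) : Set ℝ :=
  {x | ∀ a y : ℝ, 0 < y → y ≤ 1 / ((m : ℝ) + 1) → |a| ≤ 8 * y →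
    ‖F (pt (x + a) y)‖ ≤ Real.exp (-4 * N)}

lemma KK_closed {F : ℂ → ℂ} (hF : DifferentiableOn ℂ F H) (N m : ℕ) : IsClosed (KK F N m) := by
  simp only [KK, ofPred_forall]
  refine isClosed_iInter fun a => isClosed_iInter fun y => isClosed_iInter fun hy =>
    isClosed_iInter fun _ => isClosed_iInter fun _ => ?_
  refine isClosed_le (Continuous.norm ?_) continuous_const
  exact hF.continuousOn.comp_continuous (by unfold pt; fun_prop) (fun x => pt_mem hy)

lemma KK_mono (F : ℂ → ℂ) (N : ℕ) : Monotone (KK F N) := by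
  intro m m' h x hx a y hy hy' ha
  refine hx a y hy (hy'.trans ?_) ha
  have : (m : ℝ) ≤ m' := by exact_mod_cast h
  gcongr

lemma egorov {F : ℂ → ℂ} (hF : DifferentiableOn ℂ F H) (L : ℝ)
    (h : volume ({x | NT F x} ∩ Icc 0 L) ≠ 0) :
    ∃ (D : Set ℝ) (m : ℕ → ℕ), IsClosed D ∧ D ⊆ Icc 0 L ∧ volume D ≠ 0 ∧
      ∀ N, D ⊆ KK F N (m N) := by
  set S := (⋂ N, ⋃ m, KK F N m) ∩ Icc 0 L with hS
  have hSm : MeasurableSet S := (MeasurableSet.iInter fun N => MeasurableSet.iUnion fun m =>
    (KK_closed hF N m).measurableSet).inter measurableSet_Icc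
  have hS0 : volume S ≠ 0 := by
    intro h0
    refine h (measure_mono_null (inter_subset_inter_left _ ?_) h0)
    intro x hx
    simp only [mem_iInter, mem_iUnion]
    intro N
    obtain ⟨δ, hδ, hx'⟩ := hx (Real.exp (-4 * N)) (Real.exp_pos _)
    obtain ⟨m, hm⟩ := exists_nat_one_div_lt hδ
    exact ⟨m, fun a y hy hy' ha => hx' a y hy (hy'.trans hm.le) ha⟩
  have hSf : volume S ≠ ⊤ := ne_top_of_le_ne_top (by simp) (measure_mono inter_subset_right)
  obtain ⟨ε, hε, hsum⟩ := ENNReal.exists_pos_sum_of_countable' hS0 ℕ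
  have hch : ∀ N, ∃ m, volume (S \ KK F N m) < ε N := by
    intro N
    have h1 := tendsto_measure_iInter_atTop (μ := volume) (s := fun m => S \ KK F N m)
      (fun m => (hSm.diff (KK_closed hF N m).measurableSet).nullMeasurableSet)
      (fun m m' hm => sdiff_subset_sdiff_right (KK_mono F N hm))
      ⟨0, ne_top_of_le_ne_top hSf (measure_mono sdiff_subset)⟩
    have h2 : ⋂ m, S \ KK F N m = ∅ := by
      ext x
      simp only [mem_iInter, mem_empty_iff_false, iff_false, not_forall]
      by_cases hx : x ∈ S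
      · obtain ⟨m, hm⟩ := mem_iUnion.1 (mem_iInter.1 hx.1 N)
        exact ⟨m, fun h => h.2 hm⟩
      · exact ⟨0, fun h => hx h.1⟩
    rw [h2, measure_empty] at h1
    exact (h1.eventually (gt_mem_nhds (hε N))).exists
  choose m hm using hch
  refine ⟨Icc 0 L ∩ ⋂ N, KK F N (m N), m,
    isClosed_Icc.inter (isClosed_iInter fun N => KK_closed hF N _), inter_subset_left, ?_,
    fun N => inter_subset_right.trans (iInter_subset _ N)⟩
  intro h0
  have h3 : S ⊆ (Icc 0 L ∩ ⋂ N, KK F N (m N)) ∪ ⋃ N, (S \ KK F N (m N)) := by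
    intro x hx
    by_cases hx' : ∀ N, x ∈ KK F N (m N)
    · exact Or.inl ⟨hx.2, mem_iInter.2 hx'⟩
    · push Not at hx'
      obtain ⟨N, hN⟩ := hx'
      exact Or.inr (mem_iUnion.2 ⟨N, hx, hN⟩)
  have h4 := (measure_mono h3).trans (measure_union_le (μ := volume) _ _)
  rw [h0, zero_add] at h4
  have h5 := (h4.trans (measure_iUnion_le _)).trans (ENNReal.tsum_le_tsum fun N => (hm N).le)
  exact absurd hsum (not_lt.2 h5)

lemma pt_self (s : ℂ) : pt s.re s.im = s := re_add_im s

theorem privalov {F : ℂ → ℂ} (hF : DifferentiableOn ℂ F H) (L : ℝ) (hL : 0 ≤ L)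
    (h : volume ({x | NT F x} ∩ Icc 0 L) ≠ 0) : ∀ z ∈ H, F z = 0 := by
  obtain ⟨D, m, hDc, hDL, hD0, hDK⟩ := egorov hF L h
  have hDm := hDc.measurableSet
  have hDk : IsCompact D := isCompact_Icc.of_isClosed_subset hDc hDL
  have hDf : volume D ≠ ⊤ := hDk.measure_lt_top.ne
  have hDn : D.Nonempty := nonempty_of_measure_ne_zero hD0
  set T : ℝ := 2 * L + 2 with hT
  let Ωc : ℝ → Set ℂ := fun ε => {s | ε ≤ s.im ∧ s.im ≤ T ∧ infDist s.re D ≤ 8 * s.im}
  let Ω : ℝ → Set ℂ := fun ε => {s | ε < s.im ∧ s.im < T ∧ infDist s.re D < 8 * s.im}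
  have hci : Continuous (fun s : ℂ => infDist s.re D) :=
    (continuous_infDist_pt D).comp continuous_re
  have hΩc : ∀ ε, IsClosed (Ωc ε) := fun ε =>
    (isClosed_le continuous_const continuous_im).inter
      ((isClosed_le continuous_im continuous_const).inter (isClosed_le hci (by fun_prop)))
  have hΩ : ∀ ε, IsOpen (Ω ε) := fun ε =>
    (isOpen_lt continuous_const continuous_im).inter
      ((isOpen_lt continuous_im continuous_const).inter (isOpen_lt hci (by fun_prop)))
  have hsub : ∀ ε, Ω ε ⊆ Ωc ε := fun ε s hs => ⟨hs.1.le, hs.2.1.le, hs.2.2.le⟩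
  have hnear : ∀ s : ℂ, infDist s.re D ≤ 8 * s.im → ∃ t ∈ D, |s.re - t| ≤ 8 * s.im := by
    intro s hs
    obtain ⟨t, ht, h1⟩ := hDk.exists_infDist_eq_dist hDn s.re
    exact ⟨t, ht, by rw [← Real.dist_eq, ← h1]; exact hs⟩
  have hbdd : ∀ ε, 0 < ε → Bornology.IsBounded (Ωc ε) := by
    intro ε hε
    refine (isBounded_closedBall (x := (0 : ℂ)) (r := L + 9 * T)).subset fun s hs => ?_
    obtain ⟨t, ht, h1⟩ := hnear s hs.2.2
    rw [mem_closedBall_zero_iff]
    refine (norm_le_abs_re_add_abs_im s).trans ?_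
    have h2 := abs_le.1 h1
    have h3 : |s.re| ≤ L + 8 * T :=
      abs_le.2 ⟨by linarith [h2.1, (hDL ht).1, hs.2.1], by linarith [h2.2, (hDL ht).2, hs.2.1]⟩
    have h4 : |s.im| ≤ T := by rw [abs_of_pos (hε.trans_le hs.1)]; exact hs.2.1
    linarith
  have hH : ∀ ε, 0 < ε → Ωc ε ⊆ H := fun ε hε s hs => show 0 < s.im from hε.trans_le hs.1
  have hlow : ∀ (N : ℕ) (s : ℂ), 0 < s.im → s.im ≤ 1 / ((m N : ℝ) + 1) →
      infDist s.re D ≤ 8 * s.im → ‖F s‖ ≤ Real.exp (-4 * N) := by
    intro N s h1 h2 h3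
    obtain ⟨t, ht, h4⟩ := hnear s h3
    have := hDK N ht (s.re - t) s.im h1 h2 h4
    rwa [add_sub_cancel, pt_self] at this
  obtain ⟨M, hM1, hM⟩ : ∃ M : ℝ, 1 ≤ M ∧ ∀ s : ℂ, 0 < s.im → s.im ≤ T →
      infDist s.re D ≤ 8 * s.im → ‖F s‖ ≤ M := by
    have hε : 0 < 1 / ((m 0 : ℝ) + 1) := by positivity
    obtain ⟨C, hC⟩ := (isCompact_of_isClosed_isBounded (hΩc _) (hbdd _ hε)).exists_bound_of_continuousOn
      (hF.continuousOn.mono (hH _ hε))
    refine ⟨max C 1, le_max_right _ _, fun s h1 h2 h3 => ?_⟩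
    rcases le_total s.im (1 / ((m 0 : ℝ) + 1)) with h4 | h4
    · have := hlow 0 s h1 h4 h3
      simp only [Nat.cast_zero, mul_zero, Real.exp_zero] at this
      exact this.trans (le_max_right _ _)
    · exact (hC s ⟨h4, h2, h3⟩).trans (le_max_left _ _)
  have hkey : ∀ (N : ℕ) (s : ℂ), s ∈ Ω 0 → 0.9 ≤ vv D s.re s.im →
      ‖F s‖ ≤ M * Real.exp (-(0.1 * N)) := by
    intro N s hs hv
    have hN0 : (0 : ℝ) ≤ N := Nat.cast_nonneg N
    set ε := 1 / ((m N : ℝ) + 1) with hε'
    have hε : 0 < ε := by positivity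
    rcases le_or_gt s.im ε with h1 | h1
    · refine (hlow N s hs.1 h1 hs.2.2.le).trans ?_
      calc Real.exp (-4 * N) ≤ Real.exp (-(0.1 * N)) := Real.exp_le_exp.2 (by linarith)
        _ ≤ _ := le_mul_of_one_le_left (Real.exp_pos _).le hM1
    · let G : ℂ → ℂ := fun z => F z * cexp (N * VV D z)
      have hGd : DifferentiableOn ℂ G H := hF.mul (((VV_diff hDf).const_mul _).cexp)
      have hGn : ∀ z ∈ H, ‖G z‖ = ‖F z‖ * Real.exp (N * vv D z.re z.im) := by
        intro z hz
        simp only [G, norm_mul, Complex.norm_exp]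
        rw [← VV_re hDf hz]
        simp
      have hcl : closure (Ω ε) ⊆ Ωc ε := closure_minimal (hsub ε) (hΩc ε)
      have h2 := norm_le_of_forall_mem_frontier_norm_le (f := G) (U := Ω ε)
        ((hbdd ε hε).subset (hsub ε)) ((hGd.mono (hcl.trans (hH ε hε))).diffContOnCl)
        (C := M * Real.exp (0.8 * N)) (z := s) (by
          intro z hz
          rw [(hΩ ε).frontier_eq] at hz
          have h3 := hcl hz.1
          have hzH := hH ε hε h3
          have hz0 : 0 < z.im := hzH
          rw [hGn z hzH]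
          by_cases h4 : z.im ≤ ε
          · have h5 := hlow N z hz0 h4 h3.2.2
            have h6 : vv D z.re z.im ≤ 4 := (vv_le_pi D hz0).trans Real.pi_le_four
            calc ‖F z‖ * Real.exp (N * vv D z.re z.im)
                ≤ Real.exp (-4 * N) * Real.exp (N * 4) := by gcongr
              _ = 1 * Real.exp 0 := by rw [← Real.exp_add]; ring_nf
              _ ≤ _ := by gcongr; positivity
          · have h6 : vv D z.re z.im ≤ 0.8 := by
              by_cases h7 : z.im < T
              · have h8 : 8 * z.im ≤ infDist z.re D := by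
                  by_contra h9
                  exact hz.2 ⟨not_le.1 h4, h7, not_le.1 h9⟩
                exact vv_teeth hDm hz0 fun t ht => by
                  rw [← Real.dist_eq]; exact h8.trans (infDist_le_dist_of_mem ht)
              · refine (vv_top hDm hL hDL hz0).trans ?_
                rw [div_le_iff₀ hz0]
                linarith [not_lt.1 h7]
            have h5 := hM z hz0 h3.2.1 h3.2.2
            rw [mul_comm (0.8 : ℝ)]
            gcongr)
        (subset_closure ⟨h1, hs.2⟩)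
      rw [hGn s hs.1] at h2
      have h3 : ‖F s‖ * Real.exp (0.9 * N) ≤ M * Real.exp (0.8 * N) := by
        refine le_trans ?_ h2
        rw [mul_comm (0.9 : ℝ)]
        gcongr
      have h4 : Real.exp (0.8 * N) = Real.exp (-(0.1 * N)) * Real.exp (0.9 * N) := by
        rw [← Real.exp_add]; congr 1; ring
      rw [h4, ← mul_assoc] at h3
      exact le_of_mul_le_mul_right h3 (Real.exp_pos _)
  have hzero : ∀ s ∈ Ω 0, 0.9 ≤ vv D s.re s.im → F s = 0 := by
    intro s hs hv
    have h1 : Tendsto (fun N : ℕ => M * Real.exp (-(0.1 * N))) atTop (𝓝 (M * 0)) :=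
      (Real.tendsto_exp_neg_atTop_nhds_zero.comp
        (tendsto_natCast_atTop_atTop.const_mul_atTop (by norm_num))).const_mul M
    rw [mul_zero] at h1
    exact norm_le_zero_iff.1 (ge_of_tendsto' h1 fun N => hkey N s hs hv)
  have : (ae ((volume : Measure ℝ).restrict D)).NeBot := ae_restrict_neBot.2 hD0
  obtain ⟨x0, hx0, hx0D⟩ := ((Besicovitch.ae_tendsto_measure_inter_div (volume : Measure ℝ) D).and
    (ae_restrict_mem hDm)).exists
  have h1 : ∀ᶠ r in 𝓝[>] (0:ℝ), ENNReal.ofReal 0.9 <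
      volume (D ∩ closedBall x0 r) / volume (closedBall x0 r) :=
    hx0.eventually (lt_mem_nhds (ENNReal.ofReal_lt_one.2 (by norm_num)))
  obtain ⟨δ, hδ, hδ'⟩ := (mem_nhdsGT_iff_exists_Ioo_subset).1
    (h1.and (Ioo_mem_nhdsGT (show (0:ℝ) < T by positivity)))
  have hδ0 : 0 < δ := hδ
  have hz : ∀ y ∈ Ioo 0 δ, F (pt x0 y) = 0 := by
    intro y hy
    obtain ⟨h2, h3⟩ := hδ' hy
    refine hzero _ ⟨by simpa using hy.1, by simpa using h3.2, ?_⟩ ?_
    · rw [pt_re, pt_im, infDist_zero_of_mem hx0D]; linarith [hy.1]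
    · rw [pt_re, pt_im]
      apply vv_dens hDm hy.1
      have hfin : volume (D ∩ closedBall x0 y) ≠ ⊤ :=
        ne_top_of_le_ne_top measure_closedBall_lt_top.ne (measure_mono inter_subset_right)
      have h4 := h2.le
      rw [Real.volume_closedBall, ENNReal.le_div_iff_mul_le (Or.inl (by simpa using hy.1))
        (Or.inl ENNReal.ofReal_ne_top), ← ENNReal.ofReal_mul (by norm_num)] at h4
      exact (ENNReal.ofReal_le_iff_le_toReal hfin).1 h4
  have hconv : Convex ℝ H := convex_halfSpace_im_gt 0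
  refine (hF.analyticOnNhd isOpen_H).eqOn_zero_of_preconnected_of_frequently_eq_zero
    hconv.isPreconnected (pt_mem (x := x0) (half_pos hδ0)) ?_
  have ht : Tendsto (pt x0) (𝓝[≠] (δ / 2)) (𝓝[≠] (pt x0 (δ / 2))) := by
    refine tendsto_nhdsWithin_iff.2 ⟨?_, ?_⟩
    · have : Continuous (pt x0) := by unfold pt; fun_prop
      exact (this.tendsto _).mono_left nhdsWithin_le_nhds
    · filter_upwards [self_mem_nhdsWithin] with y hy h
      exact hy (by simpa using congrArg Complex.im h)
  refine ht.frequently (Eventually.frequently ?_)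
  filter_upwards [mem_nhdsWithin_of_mem_nhds (Ioo_mem_nhds (half_pos hδ0) (half_lt_self hδ0))]
    with y hy using hz y hy

end Pool.Agent.H24.WAT
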