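import Pool.Agent.H24.WAT3

set_option autoImplicit false
open Complex Filter Topology Set Metric MeasureTheory
open scoped ComplexConjugate ENNReal Real

namespace Pool.Agent.H24.WAT

lemma exp_mem {s : ℂ} (hs : s ∈ H) : cexp (I * s) ∈ ball (0 : ℂ) 1 := by
  have hs' : 0 < s.im := hs
  rw [mem_ball_zero_iff, Complex.norm_exp, Real.exp_lt_one_iff]
  simpa using hs'

lemma exp_pt (θ y : ℝ) : cexp (I * pt θ y) = circleMap 0 (Real.exp (-y)) θ := by
  rw [circleMap_zero, ofReal_exp, ← Complex.exp_add]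
  congr 1
  simp only [pt]
  push_cast
  linear_combination (y : ℂ) * I_mul_I

section
variable {φ : ℂ → ℂ} (hd : DifferentiableOn ℂ φ (ball 0 1)) (hm : MapsTo φ (ball 0 1) (ball 0 1))
include hd

lemma Phi_diff : DifferentiableOn ℂ (fun s => φ (cexp (I * s))) H :=
  hd.comp (by fun_prop) (fun _ hs => exp_mem hs)

lemma Phi_cont {y : ℝ} (hy : 0 < y) : Continuous (fun θ : ℝ => φ (cexp (I * pt θ y))) :=
  (Phi_diff hd).continuousOn.comp_continuous (by unfold pt; fun_prop) (fun _ => pt_mem hy)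

lemma coef (N p : ℕ) {y : ℝ} (hy : 0 < y) :
    (Real.exp (-y) ^ N : ℝ) * (2 * π * (iteratedDeriv N (fun z => φ z ^ p) 0 / (N.factorial : ℂ)))
      = ∫ θ in (0:ℝ)..2 * π, cexp (-(N * θ * I)) * φ (cexp (I * pt θ y)) ^ p := by
  have hR : 0 < Real.exp (-y) := Real.exp_pos _
  have hR1 : Real.exp (-y) < 1 := Real.exp_lt_one_iff.2 (by linarith)
  have h1 := DifferentiableOn.circleIntegral_one_div_sub_center_pow_smul hR N
    ((hd.pow p).mono (closedBall_subset_ball hR1))
  have h2 : ∮ z in C(0, Real.exp (-y)), (1 / (z - 0) ^ (N + 1)) • (φ ^ p) z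
      = ∫ θ in (0:ℝ)..2 * π, (I * ((Real.exp (-y) ^ N : ℝ) : ℂ)⁻¹)
        * (cexp (-(N * θ * I)) * φ (cexp (I * pt θ y)) ^ p) := by
    rw [circleIntegral]
    congr 1
    funext θ
    rw [deriv_circleMap, exp_pt, Complex.exp_neg, mul_assoc (N : ℂ), Complex.exp_nat_mul]
    simp only [smul_eq_mul, sub_zero, Pi.pow_apply]
    generalize φ (circleMap 0 (Real.exp (-y)) θ) ^ p = w
    rw [circleMap_zero, ofReal_pow]
    have h3 : ((Real.exp (-y) : ℝ) : ℂ) ≠ 0 := by exact_mod_cast hR.ne'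
    have h4 := Complex.exp_ne_zero (θ * I)
    generalize ((Real.exp (-y) : ℝ) : ℂ) = R at h3 ⊢
    generalize cexp (θ * I) = u at h4 ⊢
    field_simp
    ring
  rw [h2, intervalIntegral.integral_const_mul, smul_eq_mul] at h1
  have h3 : ((Real.exp (-y) ^ N : ℝ) : ℂ) ≠ 0 := by exact_mod_cast (pow_pos hR N).ne'
  have h5 : (N.factorial : ℂ) ≠ 0 := by exact_mod_cast N.factorial_ne_zero
  have h6 : (φ ^ p) = fun z => φ z ^ p := rfl
  rw [h6] at h1
  generalize ((Real.exp (-y) ^ N : ℝ) : ℂ) = R at h1 h3 ⊢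
  generalize (∫ θ in (0:ℝ)..2 * π, cexp (-(N * θ * I)) * φ (cexp (I * pt θ y)) ^ p) = J at h1 ⊢
  field_simp at h1 ⊢
  rw [h1]

lemma comb_bound (N p S : ℕ) (q : ℕ → ℝ) (y : ℕ → ℝ) (hy : ∀ s, 0 < y s) :
    |∑ s ∈ Finset.range S, q s * Real.exp (-y s) ^ N|
      * (2 * π * ‖iteratedDeriv N (fun z => φ z ^ p) 0 / (N.factorial : ℂ)‖)
      ≤ ∫ θ in (0:ℝ)..2 * π, ‖∑ s ∈ Finset.range S, (q s : ℂ) * φ (cexp (I * pt θ (y s))) ^ p‖ := by
  have h1 : ((∑ s ∈ Finset.range S, q s * Real.exp (-y s) ^ N : ℝ) : ℂ)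
      * (2 * π * (iteratedDeriv N (fun z => φ z ^ p) 0 / (N.factorial : ℂ)))
      = ∫ θ in (0:ℝ)..2 * π, cexp (-(N * θ * I))
        * ∑ s ∈ Finset.range S, (q s : ℂ) * φ (cexp (I * pt θ (y s))) ^ p := by
    simp_rw [Finset.mul_sum, mul_left_comm (cexp _) (q _ : ℂ)]
    rw [intervalIntegral.integral_finsetSum, ofReal_sum, Finset.sum_mul]
    · refine Finset.sum_congr rfl fun s _ => ?_
      rw [intervalIntegral.integral_const_mul, ← coef hd N p (hy s), ofReal_mul, mul_assoc]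
    · intro s _
      have := Phi_cont hd (hy s)
      have h2 : Continuous (fun θ : ℝ => cexp (-(N * θ * I))) := by fun_prop
      exact Continuous.intervalIntegrable ((h2.mul (this.pow p)).const_mul _) _ _
  have h2 := congrArg norm h1
  rw [norm_mul, norm_mul, Complex.norm_real, Real.norm_eq_abs] at h2
  have h3 : ‖(2 * π : ℂ)‖ = 2 * π := by
    rw [norm_mul, Complex.norm_real, Real.norm_eq_abs, abs_of_pos Real.pi_pos]; simp
  rw [h3] at h2
  rw [h2]
  refine (intervalIntegral.norm_integral_le_integral_norm (by positivity)).trans (le_of_eq ?_)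
  congr 1
  funext θ
  rw [norm_mul, Complex.norm_exp]
  simp

lemma rot_of_zero (h0 : ∀ z ∈ H, deriv (fun s => φ (cexp (I * s))) z - I * φ (cexp (I * z)) = 0)
    {x : ℝ} {α : ℂ} (hα : ‖α‖ = 1)
    (hlim : Tendsto (fun y => φ (cexp (I * pt x y))) (𝓝[>] 0) (𝓝 α)) :
    ∃ c : ℂ, ‖c‖ = 1 ∧ ∀ z ∈ ball (0 : ℂ) 1, φ z = c * z := by
  have hconv : Convex ℝ H := convex_halfSpace_im_gt 0
  obtain ⟨c, hc⟩ := isOpen_H.exists_is_const_of_deriv_eq_zero (𝕜 := ℂ)
    (f := fun s => φ (cexp (I * s)) * cexp (-(I * s))) hconv.isPreconnected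
    ((Phi_diff hd).mul (by fun_prop)) (fun z hz => by
      have h1 := ((Phi_diff hd).differentiableAt (isOpen_H.mem_nhds hz)).hasDerivAt
      have h2 : HasDerivAt (fun s => cexp (-(I * s))) (cexp (-(I * z)) * (-(I * 1))) z :=
        (((hasDerivAt_id z).const_mul I).neg).cexp
      rw [(h1.fun_mul h2).deriv]
      simp only [Pi.zero_apply]
      linear_combination (cexp (-(I * z))) * h0 z hz)
  have hc' : ∀ s ∈ H, φ (cexp (I * s)) = c * cexp (I * s) := by
    intro s hs
    rw [← hc s hs, mul_assoc, ← Complex.exp_add]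
    simp
  have hcont : Continuous (fun y : ℝ => c * cexp (I * pt x y)) := by unfold pt; fun_prop
  have h1 : Tendsto (fun y => φ (cexp (I * pt x y))) (𝓝[>] 0) (𝓝 (c * cexp (I * pt x 0))) := by
    refine ((hcont.tendsto 0).mono_left nhdsWithin_le_nhds).congr' ?_
    filter_upwards [self_mem_nhdsWithin] with y hy
    exact (hc' _ (pt_mem hy)).symm
  have h2 := congrArg norm (tendsto_nhds_unique hlim h1)
  rw [hα, norm_mul, Complex.norm_exp] at h2
  have h3 : (I * pt x 0).re = 0 := by simp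
  rw [h3, Real.exp_zero, mul_one] at h2
  have hne : ∀ z ∈ ball (0 : ℂ) 1, z ≠ 0 → φ z = c * z := by
    intro z hz hz0
    have h4 : cexp (I * (-I * log z)) = z := by
      rw [← mul_assoc, mul_neg, I_mul_I, neg_neg, one_mul, exp_log hz0]
    have h5 : -I * log z ∈ H := by
      show 0 < (-I * log z).im
      have := Real.log_neg (norm_pos_iff.2 hz0) (mem_ball_zero_iff.1 hz)
      simp [log_re]
      linarith
    have := hc' _ h5
    rwa [h4] at this
  refine ⟨c, h2.symm, fun z hz => ?_⟩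
  by_cases hz0 : z = 0
  · subst hz0
    have h4 : Tendsto φ (𝓝[≠] 0) (𝓝 (φ 0)) :=
      (hd.continuousOn.continuousAt (ball_mem_nhds _ one_pos)).tendsto.mono_left nhdsWithin_le_nhds
    have h5 : Tendsto φ (𝓝[≠] 0) (𝓝 (c * 0)) := by
      have h6 : Continuous (fun z : ℂ => c * z) := by fun_prop
      refine ((h6.tendsto 0).mono_left nhdsWithin_le_nhds).congr' ?_
      filter_upwards [self_mem_nhdsWithin,
        mem_nhdsWithin_of_mem_nhds (ball_mem_nhds (0 : ℂ) one_pos)] with w hw hw'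
      exact (hne w hw' hw).symm
    exact tendsto_nhds_unique h4 h5
  · exact hne z hz hz0

noncomputable def peak (M : ℕ) : Polynomial ℝ :=
  (1 - (Polynomial.X - Polynomial.C (Real.exp (-1))) ^ 2) ^ M

omit hd in
lemma peak_sum (M : ℕ) (e : ℝ) :
    ∑ s ∈ Finset.range ((peak M).natDegree + 1), (peak M).coeff s * e ^ (s + 1)
      = e * (1 - (e - Real.exp (-1)) ^ 2) ^ M := by
  have h1 : (peak M).eval e = (1 - (e - Real.exp (-1)) ^ 2) ^ M := by simp [peak]
  rw [← h1, Polynomial.eval_eq_sum_range, Finset.mul_sum]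
  refine Finset.sum_congr rfl fun s _ => ?_
  ring

include hm in
theorem wat (hrot : ¬ ∃ c : ℂ, ‖c‖ = 1 ∧ ∀ z ∈ ball (0 : ℂ) 1, φ z = c * z) (j k : ℕ) :
    Tendsto (fun n : ℕ =>
      iteratedDeriv (n + k) (fun z => φ z ^ (n + j)) 0 / ((n + k).factorial : ℂ)) atTop (𝓝 0) := by
  have hΦd := Phi_diff hd
  have hΦb : ∀ z ∈ H, ‖φ (cexp (I * z))‖ < 1 := fun z hz =>
    mem_ball_zero_iff.1 (hm (exp_mem hz))
  choose e he0 he1 heNT helim using fun x => pt_limit hΦd hΦb x j
  have hπ : (0 : ℝ) ≤ 2 * π := by positivity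
  have hnull : volume ({x | e x = Real.exp (-1)} ∩ Icc 0 (2 * π)) = 0 := by
    by_contra h
    obtain ⟨x, hx⟩ := nonempty_of_measure_ne_zero h
    obtain ⟨α, hα, hlim⟩ := (heNT x hx.1).2
    refine hrot (rot_of_zero hd (privalov ((hΦd.deriv isOpen_H).sub (hΦd.const_mul I)) (2 * π)
      hπ ?_) hα hlim)
    intro h0
    exact h (measure_mono_null (inter_subset_inter_left _ fun x hx => (heNT x hx).1) h0)
  let f : ℕ → ℕ → ℝ → ℝ := fun M n θ => ‖∑ s ∈ Finset.range ((peak M).natDegree + 1),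
    ((peak M).coeff s : ℂ) * φ (cexp (I * pt θ (((s : ℝ) + 1) / ((n : ℝ) + 1)))) ^ (n + 1 + j)‖
  let g : ℕ → ℝ → ℝ := fun M θ => |e θ * (1 - (e θ - Real.exp (-1)) ^ 2) ^ M|
  have hfg : ∀ M θ, Tendsto (fun n => f M n θ) atTop (𝓝 (g M θ)) := by
    intro M θ
    have := helim θ (peak M).coeff ((peak M).natDegree + 1)
    rw [peak_sum] at this
    exact this
  have hfc : ∀ M n, Continuous (f M n) := by
    intro M n
    refine Continuous.norm (continuous_finsetSum _ fun s _ => ?_)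
    exact ((Phi_cont hd (by positivity)).pow _).const_mul _
  have hgm : ∀ M, Measurable (g M) := fun M =>
    measurable_of_tendsto_metrizable (fun n => (hfc M n).measurable)
      (tendsto_pi_nhds.2 (hfg M))
  have hI1 : ∀ M, Tendsto (fun n => ∫ θ in (0:ℝ)..2 * π, f M n θ) atTop
      (𝓝 (∫ θ in (0:ℝ)..2 * π, g M θ)) := by
    intro M
    refine intervalIntegral.tendsto_integral_filter_of_dominated_convergence
      (fun _ => ∑ s ∈ Finset.range ((peak M).natDegree + 1), |(peak M).coeff s|)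
      (Eventually.of_forall fun n => (hfc M n).aestronglyMeasurable)
      (Eventually.of_forall fun n => Eventually.of_forall fun θ _ => ?_)
      intervalIntegrable_const (Eventually.of_forall fun θ _ => hfg M θ)
    simp only [f, norm_norm]
    refine (norm_sum_le _ _).trans (Finset.sum_le_sum fun s _ => ?_)
    rw [norm_mul, Complex.norm_real, Real.norm_eq_abs, norm_pow]
    exact mul_le_of_le_one_right (abs_nonneg _)
      (pow_le_one₀ (norm_nonneg _) (hΦb _ (pt_mem (by positivity))).le)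
  have hy1 : Real.exp (-1) ≤ 1 := Real.exp_le_one_iff.2 (by norm_num)
  have hy0 := Real.exp_pos (-1)
  have hb0 : ∀ θ, 0 ≤ 1 - (e θ - Real.exp (-1)) ^ 2 := fun θ => by
    nlinarith [he0 θ, he1 θ]
  have hI2 : Tendsto (fun M => ∫ θ in (0:ℝ)..2 * π, g M θ) atTop
      (𝓝 (∫ _ in (0:ℝ)..2 * π, (0 : ℝ))) := by
    refine intervalIntegral.tendsto_integral_filter_of_dominated_convergence (fun _ => 1)
      (Eventually.of_forall fun M => (hgm M).aestronglyMeasurable)
      (Eventually.of_forall fun M => Eventually.of_forall fun θ _ => ?_)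
      intervalIntegrable_const ?_
    · simp only [g, Real.norm_eq_abs, abs_abs]
      rw [abs_of_nonneg (mul_nonneg (he0 θ) (pow_nonneg (hb0 θ) _))]
      exact mul_le_one₀ (he1 θ) (pow_nonneg (hb0 θ) _)
        (pow_le_one₀ (hb0 θ) (by nlinarith [sq_nonneg (e θ - Real.exp (-1))]))
    · filter_upwards [compl_mem_ae_iff.2 hnull] with θ hθ hθI
      rw [uIoc_of_le hπ] at hθI
      have h1 : e θ - Real.exp (-1) ≠ 0 := fun h =>
        hθ ⟨sub_eq_zero.1 h, Ioc_subset_Icc_self hθI⟩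
      have h2 := ((tendsto_pow_atTop_nhds_zero_of_lt_one (hb0 θ)
        (by linarith [pow_pos (abs_pos.2 h1) 2, sq_abs (e θ - Real.exp (-1))])).const_mul (e θ)).abs
      rw [mul_zero, abs_zero] at h2
      exact h2
  rw [intervalIntegral.integral_zero] at hI2
  rw [← tendsto_add_atTop_iff_nat 1, tendsto_zero_iff_norm_tendsto_zero, Metric.tendsto_nhds]
  intro ε hε
  obtain ⟨M, hM⟩ := (hI2.eventually (gt_mem_nhds (show 0 < Real.exp (-1) / 2 * (2 * π * ε) by
    have := Real.pi_pos; positivity))).exists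
  have hA : Tendsto (fun n : ℕ => |∑ s ∈ Finset.range ((peak M).natDegree + 1),
      (peak M).coeff s * Real.exp (-(((s : ℝ) + 1) / ((n : ℝ) + 1))) ^ (n + 1 + k)|) atTop
      (𝓝 |∑ s ∈ Finset.range ((peak M).natDegree + 1),
        (peak M).coeff s * Real.exp (-1) ^ (s + 1)|) := by
    refine (tendsto_finsetSum _ fun s _ => Tendsto.const_mul _ ?_).abs
    have h1 : Tendsto (fun n : ℕ => -((s : ℝ) + 1) * (1 + k / ((n : ℝ) + 1))) atTop
        (𝓝 (-((s : ℝ) + 1) * (1 + 0))) :=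
      ((tendsto_const_nhds.div_atTop
        (tendsto_atTop_add_const_right _ 1 tendsto_natCast_atTop_atTop)).const_add 1).const_mul _
    have h2 := (Real.continuous_exp.tendsto _).comp h1
    have h3 : Real.exp (-((s : ℝ) + 1) * (1 + 0)) = Real.exp (-1) ^ (s + 1) := by
      rw [← Real.exp_nat_mul]; congr 1; push_cast; ring
    rw [h3] at h2
    refine h2.congr fun n => ?_
    simp only [Function.comp]
    rw [← Real.exp_nat_mul]
    congr 1
    push_cast
    field_simp
  rw [peak_sum, sub_self] at hA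
  simp only [ne_eq, OfNat.ofNat_ne_zero, not_false_eq_true, zero_pow, sub_zero, one_pow, mul_one,
    abs_of_pos hy0] at hA
  filter_upwards [hA.eventually (lt_mem_nhds (half_lt_self hy0)),
    (hI1 M).eventually (gt_mem_nhds hM)] with n h1 h2
  have h3 := comb_bound hd (n + 1 + k) (n + 1 + j) ((peak M).natDegree + 1) (peak M).coeff
    (fun s => ((s : ℝ) + 1) / ((n : ℝ) + 1)) (fun s => by positivity)
  rw [Real.dist_eq, sub_zero, abs_norm]
  by_contra hc
  push Not at hc
  have h4 := h3.trans_lt h2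
  refine absurd h4 (not_lt.2 ?_)
  have := Real.pi_pos
  exact mul_le_mul h1.le (by gcongr) (by positivity) (abs_nonneg _)

end

end Pool.Agent.H24.WAT
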